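import Mathlib
import Pool.Agent.Helper64.Vojta.OneSpace

/-!
Behaviour of local absolute values and of heights under extension of the number field.
-/

namespace Pool.Agent.Helper52.Vojta

open NumberField Finset Module Pool.Agent.Helper64.Vojta

section

theorem toNNReal_pow_base {b b' : NNReal} (hb : b ≠ 0) {f : ℕ} (hf : f ≠ 0) (hb' : b' ≠ 0)
    (h : b' = b ^ f) (z : WithZero (Multiplicative ℤ)) :
    WithZeroMulInt.toNNReal hb' z = (WithZeroMulInt.toNNReal hb z) ^ f := by
  subst h
  by_cases hz : z = 0
  · subst hz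
    simp [hf]
  · rw [WithZeroMulInt.toNNReal_neg_apply _ hz, WithZeroMulInt.toNNReal_neg_apply _ hz, ← zpow_natCast,
      ← zpow_natCast, ← zpow_mul, ← zpow_mul, mul_comm]

variable {L L' : Type*} [Field L] [NumberField L] [Field L'] [NumberField L'] [Algebra L L']

theorem nv_above_fin (ν : FinitePlace L) (w : FinitePlace L')
    (h : w.maximalIdeal.asIdeal.LiesOver ν.maximalIdeal.asIdeal) (y : L) :
    w (algebraMap L L' y) = ν y ^ (ν.maximalIdeal.asIdeal.ramificationIdx' w.maximalIdeal.asIdeal *
      ν.maximalIdeal.asIdeal.inertiaDeg' w.maximalIdeal.asIdeal) := by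
  set p := ν.maximalIdeal with hp
  set P := w.maximalIdeal with hP
  have h1 : w (algebraMap L L' y) = ‖FinitePlace.embedding P (algebraMap L L' y)‖ :=
    (FinitePlace.norm_embedding_eq w _).symm
  have h2 : ν y = ‖FinitePlace.embedding p y‖ := (FinitePlace.norm_embedding_eq ν _).symm
  have hN : Ideal.absNorm P.asIdeal = Ideal.absNorm p.asIdeal ^ (p.asIdeal.inertiaDeg' P.asIdeal) :=
    Ideal.absNorm_eq_pow_inertiaDeg'_of_liesOver P.asIdeal p.asIdeal p.isPrime p.ne_bot
  have hf : p.asIdeal.inertiaDeg' P.asIdeal ≠ 0 := by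
    intro h0
    rw [h0, pow_zero] at hN
    exact P.isPrime.ne_top (Ideal.absNorm_eq_one_iff.mp hN)
  rw [h1, h2, FinitePlace.norm_embedding', FinitePlace.norm_embedding',
    ← IsDedekindDomain.HeightOneSpectrum.valuation_liesOver L' p P y, map_pow,
    toNNReal_pow_base (HeightOneSpectrum.absNorm_ne_zero p) hf (HeightOneSpectrum.absNorm_ne_zero P)
      (by rw [hN]; push_cast; rfl)]
  push_cast
  rw [← pow_mul, mul_comm]

open scoped Classical in
/-- local degrees -/
noncomputable def ldeg (ν : Pl L) (w : Pl L') : ℕ :=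
  match ν, w with
  | .inl ν, .inl w => ν.inertiaDeg w
  | .inr ν, .inr w => ν.maximalIdeal.asIdeal.ramificationIdx' w.maximalIdeal.asIdeal *
      ν.maximalIdeal.asIdeal.inertiaDeg' w.maximalIdeal.asIdeal
  | _, _ => 0

theorem nv_above {ν : Pl L} {w : Pl L'} (h : w ∈ above L' ν) (y : L) :
    nv w (algebraMap L L' y) = nv ν y ^ ldeg ν w := by
  rw [mem_above] at h
  rcases ν with ν | ν <;> rcases w with w | w
  · have h' : InfinitePlace.LiesOver w ν := h
    change w (algebraMap L L' y) ^ w.mult = (ν y ^ ν.mult) ^ ν.inertiaDeg w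
    have h1 : w (algebraMap L L' y) = ν y := by
      have e1 := @InfinitePlace.LiesOver.comap_eq L L' _ _ _ w ν h'
      rw [← e1]; rfl
    rw [h1, ← pow_mul, InfinitePlace.inertiaDeg_eq_finrank, InfinitePlace.mult_mul_finrank]
  · exact absurd h id
  · exact absurd h id
  · exact nv_above_fin ν w h y

theorem sum_ldeg (ν : Pl L) : ∑ w ∈ above L' ν, ldeg ν w = finrank L L' := by
  classical
  rcases ν with ν | ν
  · rw [← InfinitePlace.sum_inertiaDeg_eq_finrank L L' ν]
    refine Finset.sum_bij' (fun w _ => match w with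
      | .inl w => w
      | .inr _ => (Classical.arbitrary _)) (fun w _ => .inl w) ?_ ?_ ?_ ?_ ?_
    · rintro (w | w) hw
      · rw [Set.mem_toFinset]; exact mem_above.mp hw
      · exact absurd (mem_above.mp hw) id
    · intro w hw
      rw [Set.mem_toFinset] at hw
      exact mem_above.mpr hw
    · rintro (w | w) hw
      · rfl
      · exact absurd (mem_above.mp hw) id
    · intro w hw; rfl
    · rintro (w | w) hw
      · rfl
      · exact absurd (mem_above.mp hw) id
  · have hne : ν.maximalIdeal.asIdeal ≠ ⊥ := ν.maximalIdeal.ne_bot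
    have : ν.maximalIdeal.asIdeal.IsMaximal := ν.maximalIdeal.isMaximal
    rw [← Ideal.sum_ramification_inertia (𝓞 L') L L' hne]
    refine Finset.sum_bij (fun w _ => match w with
      | .inl _ => ⊥
      | .inr w => w.maximalIdeal.asIdeal) ?_ ?_ ?_ ?_
    · rintro (w | w) hw
      · exact absurd (mem_above.mp hw) id
      · exact (IsDedekindDomain.mem_primesOverFinset_iff hne _).mpr
          ⟨w.maximalIdeal.isPrime, mem_above.mp hw⟩
    · rintro (w | w) hw (w' | w') hw' h
      · exact absurd (mem_above.mp hw) id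
      · exact absurd (mem_above.mp hw) id
      · exact absurd (mem_above.mp hw') id
      · have : w = w' := by
          rw [← FinitePlace.maximalIdeal_inj]
          exact IsDedekindDomain.HeightOneSpectrum.ext h
        rw [this]
    · intro P hP
      rw [IsDedekindDomain.mem_primesOverFinset_iff hne] at hP
      obtain ⟨hP1, hP2⟩ := hP
      have hPne : P ≠ ⊥ := Ideal.ne_bot_of_liesOver_of_ne_bot hne P
      let Q : IsDedekindDomain.HeightOneSpectrum (𝓞 L') := ⟨P, hP1, hPne⟩
      refine ⟨.inr (FinitePlace.mk Q), ?_, ?_⟩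
      · rw [mem_above]
        change (FinitePlace.mk Q).maximalIdeal.asIdeal.LiesOver _
        rw [FinitePlace.maximalIdeal_mk]
        exact hP2
      · change (FinitePlace.mk Q).maximalIdeal.asIdeal = P
        rw [FinitePlace.maximalIdeal_mk]
    · rintro (w | w) hw
      · exact absurd (mem_above.mp hw) id
      · rfl

theorem sn_above {m : ℕ} (hm : 0 < m) {ν : Pl L} {w : Pl L'} (h : w ∈ above L' ν) (x : Fin m → L) :
    sn w (fun i => algebraMap L L' (x i)) = sn ν x ^ ldeg ν w := by
  have : Nonempty (Fin m) := ⟨⟨0, hm⟩⟩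
  unfold sn
  rw [Real.iSup_pow (fun i => nv_nonneg _ _)]
  congr 1
  funext i
  exact nv_above h (x i)

theorem sum_log_nv (ν : Pl L) (y : L) :
    ∑ w ∈ above L' ν, Real.log (nv w (algebraMap L L' y)) = finrank L L' * Real.log (nv ν y) := by
  rw [← sum_ldeg (L' := L') ν]
  push_cast
  rw [Finset.sum_mul]
  refine Finset.sum_congr rfl fun w hw => ?_
  rw [nv_above hw, Real.log_pow]

theorem sum_log_sn {m : ℕ} (hm : 0 < m) (ν : Pl L) (x : Fin m → L) :
    ∑ w ∈ above L' ν, Real.log (sn w (fun i => algebraMap L L' (x i))) = finrank L L' * Real.log (sn ν x) := by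
  rw [← sum_ldeg (L' := L') ν]
  push_cast
  rw [Finset.sum_mul]
  refine Finset.sum_congr rfl fun w hw => ?_
  rw [sn_above hm hw, Real.log_pow]

omit [NumberField L'] in
/-- the height as a sum over a large finite set of places -/
theorem logHeight_eq_sum {m : ℕ} {x : Fin m → L} (hx : x ≠ 0) (W : Finset (Pl L))
    (hW1 : ∀ w : InfinitePlace L, Sum.inl w ∈ W)
    (hW2 : ∀ w : FinitePlace L, Real.log (sn (.inr w) x) ≠ 0 → Sum.inr w ∈ W) :
    Height.logHeight x = ∑ w ∈ W, Real.log (sn w x) := by
  classical
  rw [logHeight_eq hx, ← Finset.toLeft_disjSum_toRight (u := W), Finset.sum_disjSum]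
  congr 1
  · refine Finset.sum_subset (Finset.subset_univ _) ?_ |>.symm
    intro w _ hw
    exact absurd (Finset.mem_toLeft.mpr (hW1 w)) hw
  · rw [finsum_eq_sum_of_support_subset]
    intro w hw
    rw [Finset.mem_coe, Finset.mem_toRight]
    exact hW2 w hw

/-- every place of `L'` lies above a place of `L` -/
theorem exists_below (w : Pl L') : ∃ ν : Pl L, w ∈ above L' ν := by
  rcases w with w | w
  · refine ⟨.inl (w.comap (algebraMap L L')), ?_⟩
    rw [mem_above]
    exact ⟨rfl⟩
  · set P := w.maximalIdeal with hP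
    have : P.asIdeal.IsPrime := P.isPrime
    have hne : P.asIdeal.under (𝓞 L) ≠ ⊥ := by
      intro h0
      exact P.ne_bot (Ideal.eq_bot_of_comap_eq_bot h0)
    let Q : IsDedekindDomain.HeightOneSpectrum (𝓞 L) := ⟨P.asIdeal.under (𝓞 L), inferInstance, hne⟩
    refine ⟨.inr (FinitePlace.mk Q), ?_⟩
    rw [mem_above]
    change w.maximalIdeal.asIdeal.LiesOver (FinitePlace.mk Q).maximalIdeal.asIdeal
    rw [FinitePlace.maximalIdeal_mk]
    exact Ideal.over_under _

theorem logHeight_algebraMap {m : ℕ} {x : Fin m → L} (hx : x ≠ 0) :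
    Height.logHeight (fun i => algebraMap L L' (x i)) = finrank L L' * Height.logHeight x := by
  classical
  have hm : 0 < m := by
    obtain ⟨i, _⟩ := Function.ne_iff.mp hx
    exact i.pos
  have hx' : (fun i => algebraMap L L' (x i)) ≠ 0 := by
    intro h
    apply hx
    funext i
    have := congrFun h i
    simpa using this
  have hfin : (Function.support fun w : FinitePlace L => Real.log (sn (.inr w) x)).Finite :=
    log_support _ (fin_support_sn hx)
  let W0 : Finset (Pl L) := Finset.univ.disjSum hfin.toFinset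
  have h1 : Height.logHeight x = ∑ w ∈ W0, Real.log (sn w x) := by
    apply logHeight_eq_sum hx
    · intro w; simp [W0]
    · intro w hw; simp only [W0, Finset.inr_mem_disjSum, Set.Finite.mem_toFinset]; exact hw
  have h2 : Height.logHeight (fun i => algebraMap L L' (x i))
      = ∑ w ∈ W0.biUnion (above L'), Real.log (sn w (fun i => algebraMap L L' (x i))) := by
    apply logHeight_eq_sum hx'
    · intro w
      obtain ⟨ν, hν⟩ := exists_below (L := L) (.inl w : Pl L')
      rw [Finset.mem_biUnion]
      refine ⟨ν, ?_, hν⟩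
      rcases ν with ν | ν
      · simp [W0]
      · exact absurd (mem_above.mp hν) id
    · intro w hw
      obtain ⟨ν, hν⟩ := exists_below (L := L) (.inr w : Pl L')
      rw [Finset.mem_biUnion]
      refine ⟨ν, ?_, hν⟩
      rcases ν with ν | ν
      · simp [W0]
      · rw [sn_above hm hν, Real.log_pow] at hw
        simp only [W0, Finset.inr_mem_disjSum, Set.Finite.mem_toFinset]
        exact right_ne_zero_of_mul hw
  have hdisj : (W0 : Set (Pl L)).PairwiseDisjoint (above L') := by
    intro a _ b _ hab
    rw [Function.onFun, Finset.disjoint_left]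
    intro w hwa hwb
    exact hab (above_unique (mem_above.mp hwa) (mem_above.mp hwb))
  rw [h1, h2, Finset.sum_biUnion (fun a ha b hb hab => hdisj ha hb hab), Finset.mul_sum]
  exact Finset.sum_congr rfl fun ν _ => sum_log_sn hm ν x

end

end Pool.Agent.Helper52.Vojta
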