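import Mathlib
import Pool.Agent.Helper64.Vojta.OneSpace

/-!
The gap principle on the projective line, uniformly in the number field `L`: among the points of
`ℙ¹(L)` which are very well approximated by a fixed finite set of points, only boundedly many have
height in a given window `[U, (1 + ε/4) U]`.
-/

namespace Pool.Agent.Helper52.Vojta

open NumberField Finset Module Pool.Agent.Helper64.Vojta

universe u v

section

variable {L : Type*} [Field L] [NumberField L]

/-- the wedge product of two vectors of length two -/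
def wedge {R : Type*} [Ring R] (x y : Fin 2 → R) : R := x 0 * y 1 - x 1 * y 0

theorem nv_sub_le_inr (w : FinitePlace L) (a b : L) :
    nv (.inr w) (a - b) ≤ max (nv (.inr w) a) (nv (.inr w) b) := by
  have h1 := FinitePlace.add_le w a (-b)
  have h2 : w (-b) = w b := by
    change w.1 (-b) = w.1 b
    exact w.1.map_neg b
  rw [h2, ← sub_eq_add_neg] at h1
  exact h1

theorem nv_sub_le (w : Pl L) (a b : L) (B : ℝ) (hB : 0 ≤ B) (ha : nv w a ≤ B) (hb : nv w b ≤ B) :
    nv w (a - b) ≤ 9 * B := by
  have h := nv_sum_le w (Finset.univ : Finset (Fin 2)) ![a, -b] B hB (by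
    intro i _
    fin_cases i
    · exact ha
    · change nv w (-b) ≤ B
      have : nv w (-b) = nv w b := by
        rw [show -b = (-1) * b by ring, nv_mul]
        have h1 : nv w (-1 : L) * nv w (-1 : L) = 1 := by
          rw [← nv_mul]; norm_num; exact nv_one w
        have h2 : 0 ≤ nv w (-1 : L) := nv_nonneg _ _
        have h3 : nv w (-1 : L) = 1 := by nlinarith
        rw [h3, one_mul]
      rw [this]; exact hb)
  have e : ∑ i : Fin 2, (![a, -b] : Fin 2 → L) i = a - b := by
    rw [Fin.sum_univ_two]; simp [sub_eq_add_neg]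
  rw [e, Finset.card_univ, Fintype.card_fin] at h
  norm_num at h
  exact h

/-- Liouville's inequality for the wedge product of two points. -/
theorem wedge_liouville (x y : Fin 2 → L) (hx : x ≠ 0) (hy : y ≠ 0) (hxy : wedge x y ≠ 0)
    (W : Finset (Pl L)) :
    ∑ w ∈ W, (Real.log (sn w x) + Real.log (sn w y) - Real.log (nv w (wedge x y)))
      ≤ Height.logHeight x + Height.logHeight y
        + Fintype.card (InfinitePlace L) * Real.log 9 := by
  classical
  set K : ℝ := Real.log 9 with hK
  have hK0 : 0 ≤ K := Real.log_nonneg (by norm_num)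
  let t : Pl L → ℝ := fun w => (Real.log (sn w x) + Real.log (sn w y) - Real.log (nv w (wedge x y)))
    + (match w with | .inl _ => K | .inr _ => 0)
  have ht : ∀ w, 0 ≤ t w := by
    intro w
    have hxw := sn_pos w hx
    have hyw := sn_pos w hy
    have h01 : nv w (x 0 * y 1) ≤ sn w x * sn w y := by
      rw [nv_mul]; exact mul_le_mul (le_sn _ _ _) (le_sn _ _ _) (nv_nonneg _ _) hxw.le
    have h10 : nv w (x 1 * y 0) ≤ sn w x * sn w y := by
      rw [nv_mul]; exact mul_le_mul (le_sn _ _ _) (le_sn _ _ _) (nv_nonneg _ _) hxw.le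
    rcases w with w | w
    · have h1 : nv (.inl w) (wedge x y) ≤ 9 * (sn (.inl w) x * sn (.inl w) y) :=
        nv_sub_le (.inl w) _ _ _ (mul_pos hxw hyw).le h01 h10
      have h2 := Real.log_le_log (nv_pos (.inl w) hxy) h1
      rw [Real.log_mul (by norm_num) (mul_pos hxw hyw).ne', Real.log_mul hxw.ne' hyw.ne'] at h2
      change 0 ≤ (_ - _) + K
      linarith
    · have h1 : nv (.inr w) (wedge x y) ≤ sn (.inr w) x * sn (.inr w) y :=
        (nv_sub_le_inr w _ _).trans (max_le h01 h10)
      have h2 := Real.log_le_log (nv_pos (.inr w) hxy) h1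
      rw [Real.log_mul hxw.ne' hyw.ne'] at h2
      change 0 ≤ (_ - _) + (0 : ℝ)
      linarith
  have hf : (fun w : FinitePlace L => Real.log (sn (.inr w) x) + Real.log (sn (.inr w) y)
      - Real.log (nv (.inr w) (wedge x y))).HasFiniteSupport :=
    ((log_support _ (fin_support_sn hx)).add (log_support _ (fin_support_sn hy))).sub
      (log_support _ (fin_support_nv hxy))
  have hts : (fun w : FinitePlace L => t (.inr w)).HasFiniteSupport := by
    have e : (fun w : FinitePlace L => t (.inr w))
        = fun w => Real.log (sn (.inr w) x) + Real.log (sn (.inr w) y)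
          - Real.log (nv (.inr w) (wedge x y)) := by
      funext w; change _ + (0 : ℝ) = _; rw [add_zero]
    rw [e]; exact hf
  have htot : ∑ w : InfinitePlace L, t (.inl w) + ∑ᶠ w : FinitePlace L, t (.inr w)
      = Height.logHeight x + Height.logHeight y + Fintype.card (InfinitePlace L) * K := by
    have e1 : ∑ w : InfinitePlace L, t (.inl w) = ∑ w : InfinitePlace L, Real.log (sn (.inl w) x)
        + ∑ w : InfinitePlace L, Real.log (sn (.inl w) y)
        - ∑ w : InfinitePlace L, Real.log (nv (.inl w) (wedge x y)) + Fintype.card (InfinitePlace L) * K := by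
      have : ∀ w : InfinitePlace L, t (.inl w)
          = Real.log (sn (.inl w) x) + Real.log (sn (.inl w) y)
            - Real.log (nv (.inl w) (wedge x y)) + K := fun w => rfl
      simp_rw [this]
      rw [Finset.sum_add_distrib, Finset.sum_sub_distrib, Finset.sum_add_distrib, Finset.sum_const,
        Finset.card_univ, nsmul_eq_mul]
    have e2 : ∑ᶠ w : FinitePlace L, t (.inr w) = ∑ᶠ w : FinitePlace L, Real.log (sn (.inr w) x)
        + ∑ᶠ w : FinitePlace L, Real.log (sn (.inr w) y)
        - ∑ᶠ w : FinitePlace L, Real.log (nv (.inr w) (wedge x y)) := by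
      have e3 := finsum_sub_distrib ((log_support _ (fin_support_sn hx)).add (log_support _ (fin_support_sn hy)))
          (log_support _ (fin_support_nv hxy))
      have e4 := finsum_add_distrib (log_support _ (fin_support_sn hx)) (log_support _ (fin_support_sn hy))
      simp only [Pi.add_apply] at e3
      rw [← e4, ← e3]
      refine finsum_congr fun w => ?_
      change _ + (0 : ℝ) = _; rw [add_zero]
    rw [e1, e2, logHeight_eq hx, logHeight_eq hy]
    have := product_formula_log hxy
    linarith
  have hWle : ∑ w ∈ W, t w ≤ ∑ w : InfinitePlace L, t (.inl w) + ∑ᶠ w : FinitePlace L, t (.inr w) := by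
    rw [← Finset.toLeft_disjSum_toRight (u := W), Finset.sum_disjSum]
    refine add_le_add ?_ ?_
    · exact Finset.sum_le_sum_of_subset_of_nonneg (Finset.subset_univ _) fun w _ _ => ht _
    · have hts' : (Function.support (fun w : FinitePlace L => t (.inr w))).Finite := hts
      rw [finsum_eq_sum_of_support_subset _ (s := hts'.toFinset ∪ W.toRight) (by
        intro w hw; simp only [Finset.coe_union, Set.mem_union]; left; simpa using hw)]
      exact Finset.sum_le_sum_of_subset_of_nonneg Finset.subset_union_right fun w _ _ => ht _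
  have hloc : ∑ w ∈ W, (Real.log (sn w x) + Real.log (sn w y) - Real.log (nv w (wedge x y)))
      ≤ ∑ w ∈ W, t w := by
    refine Finset.sum_le_sum fun w _ => ?_
    rcases w with w | w
    · change _ ≤ _ + K; linarith
    · change _ ≤ _ + (0 : ℝ); linarith
  linarith

end

section

variable {k : Type u} [Field k] [NumberField k]

/-- two points close to the same point are close to each other -/
theorem close_close (a : Fin 2 → k) (ha : a ≠ 0) (r : ℕ) : ∃ C : ℝ, 0 ≤ C ∧
    ∀ (L : Type v) [Field L] [NumberField L] [Algebra k L], finrank k L ≤ r →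
    ∀ (w : Pl L) (x y : Fin 2 → L), x ≠ 0 → y ≠ 0 → ev (cst a) x ≠ 0 → ev (cst a) y ≠ 0 →
      wedge x y ≠ 0 →
      min (loc w (cst a) x) (loc w (cst a) y) - C
        ≤ Real.log (sn w x) + Real.log (sn w y) - Real.log (nv w (wedge x y)) := by
  obtain ⟨j, hj⟩ := Function.ne_iff.mp ha
  obtain ⟨B, hB1, hB⟩ := exists_bound.{u, v} (a j)⁻¹ r
  refine ⟨Real.log (9 * B), Real.log_nonneg (by linarith), ?_⟩
  intro L _ _ _ hr w x y hx hy hax hay hxy
  have hajL : algebraMap k L (a j) ≠ 0 := by
    rw [Ne, map_eq_zero]; exact hj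
  have hsx := sn_pos w hx
  have hsy := sn_pos w hy
  have h1 : ∃ b c d e : L, algebraMap k L (a j) * wedge x y = b * c - d * e ∧
      ((b = ev (cst a) x ∧ nv w c ≤ sn w y ∧ nv w d ≤ sn w x ∧ e = ev (cst a) y) ∨
       (nv w b ≤ sn w x ∧ c = ev (cst a) y ∧ nv w d ≤ sn w y ∧ e = ev (cst a) x)) := by
    fin_cases j
    · refine ⟨ev (cst a) x, y 1, x 1, ev (cst a) y, ?_, Or.inl ⟨rfl, le_sn _ _ _, le_sn _ _ _, rfl⟩⟩
      simp only [ev, cst, wedge, Fin.sum_univ_two]
      change algebraMap k L (a 0) * _ = _
      ring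
    · refine ⟨x 0, ev (cst a) y, y 0, ev (cst a) x, ?_, Or.inr ⟨le_sn _ _ _, rfl, le_sn _ _ _, rfl⟩⟩
      simp only [ev, cst, wedge, Fin.sum_univ_two]
      change algebraMap k L (a 1) * _ = _
      ring
  obtain ⟨b, c, d, e, h2, h3⟩ := h1
  set M : ℝ := max (nv w (ev (cst a) x) * sn w y) (nv w (ev (cst a) y) * sn w x) with hM
  have hM0 : 0 < M := lt_max_of_lt_left (mul_pos (nv_pos w hax) hsy)
  have hbc : nv w (b * c) ≤ M ∧ nv w (d * e) ≤ M := by
    rw [nv_mul, nv_mul]
    rcases h3 with ⟨rfl, h4, h5, rfl⟩ | ⟨h4, rfl, h5, rfl⟩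
    · constructor
      · exact (mul_le_mul_of_nonneg_left h4 (nv_nonneg _ _)).trans (le_max_left _ _)
      · rw [mul_comm]
        exact (mul_le_mul_of_nonneg_left h5 (nv_nonneg _ _)).trans (le_max_right _ _)
    · constructor
      · rw [mul_comm]
        exact (mul_le_mul_of_nonneg_left h4 (nv_nonneg _ _)).trans (le_max_right _ _)
      · rw [mul_comm]
        exact (mul_le_mul_of_nonneg_left h5 (nv_nonneg _ _)).trans (le_max_left _ _)
  have h5 : nv w (wedge x y) ≤ 9 * B * M := by
    have e1 : wedge x y = algebraMap k L (a j)⁻¹ * (b * c - d * e) := by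
      rw [← h2, ← mul_assoc, map_inv₀, inv_mul_cancel₀ hajL, one_mul]
    rw [e1, nv_mul]
    have h6 := nv_sub_le w _ _ M hM0.le hbc.1 hbc.2
    calc nv w (algebraMap k L (a j)⁻¹) * nv w (b * c - d * e) ≤ B * (9 * M) :=
          mul_le_mul (hB L hr w) h6 (nv_nonneg _ _) (by linarith)
      _ = _ := by ring
  have h7 := Real.log_le_log (nv_pos w hxy) h5
  rw [Real.log_mul (by positivity) hM0.ne'] at h7
  have h8 : Real.log M = max (Real.log (nv w (ev (cst a) x)) + Real.log (sn w y))
      (Real.log (nv w (ev (cst a) y)) + Real.log (sn w x)) := by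
    rw [hM, ← Real.log_mul (nv_pos w hax).ne' hsy.ne', ← Real.log_mul (nv_pos w hay).ne' hsx.ne']
    rcases le_total (nv w (ev (cst a) x) * sn w y) (nv w (ev (cst a) y) * sn w x) with h | h
    · rw [max_eq_right h, max_eq_right (Real.log_le_log (mul_pos (nv_pos w hax) hsy) h)]
    · rw [max_eq_left h, max_eq_left (Real.log_le_log (mul_pos (nv_pos w hay) hsx) h)]
  simp only [loc]
  rcases max_choice (Real.log (nv w (ev (cst a) x)) + Real.log (sn w y))
      (Real.log (nv w (ev (cst a) y)) + Real.log (sn w x)) with h9 | h9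
  · rw [h8, h9] at h7
    have := min_le_left (Real.log (sn w x) - Real.log (nv w (ev (cst a) x)))
      (Real.log (sn w y) - Real.log (nv w (ev (cst a) y)))
    linarith
  · rw [h8, h9] at h7
    have := min_le_right (Real.log (sn w x) - Real.log (nv w (ev (cst a) x)))
      (Real.log (sn w y) - Real.log (nv w (ev (cst a) y)))
    linarith

/-- a point cannot be close to two different points -/
theorem not_close_two {q : ℕ} (D : Fin q → Fin 2 → k) (hD : GenPos D) (r : ℕ) : ∃ C : ℝ, 0 ≤ C ∧
    ∀ (L : Type v) [Field L] [NumberField L] [Algebra k L], finrank k L ≤ r →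
    ∀ (w : Pl L) (x : Fin 2 → L), x ≠ 0 → (∀ i, ev (cst (D i)) x ≠ 0) → ∀ i j, i ≠ j →
      min (loc w (cst (D i)) x) (loc w (cst (D j)) x) ≤ C := by
  classical
  have hspan : ∀ i j : Fin q, i ≠ j → ∀ G : Fin 2 → k, G ∈ Submodule.span k (Set.range ![D i, D j]) := by
    intro i j hij G
    have h1 : LinearIndependent k ![D i, D j] := by
      have h2 := hD.linInd (a := 2) le_rfl ![i, j] (by
        intro s t hst
        fin_cases s <;> fin_cases t
        · rfl
        · exact absurd hst hij
        · exact absurd hst (Ne.symm hij)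
        · rfl)
      have e : (fun s : Fin 2 => D (![i, j] s)) = ![D i, D j] := by
        funext s; fin_cases s <;> rfl
      rwa [e] at h2
    have h3 := h1.span_eq_top_of_card_eq_finrank' (by simp)
    rw [h3]; trivial
  have hC : ∀ p : Fin q × Fin q, ∃ C : ℝ, 1 ≤ C ∧ (p.1 ≠ p.2 →
      ∀ (L : Type v) [Field L] [NumberField L] [Algebra k L], finrank k L ≤ r →
      ∀ (w : Pl L) (x : Fin 2 → L) (B : ℝ), 0 ≤ B →
        (∀ s : Fin 2, nv w (ev (cst ((![D p.1, D p.2] : Fin 2 → Fin 2 → k) s)) x) ≤ B) →
        sn w x ≤ C * B) := by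
    intro p
    by_cases hp : p.1 ≠ p.2
    · choose C hC1 hC2 using fun t : Fin 2 => comb_bound.{u, v} (Pi.single t (1 : k)) ![D p.1, D p.2]
        (hspan p.1 p.2 hp _) r
      refine ⟨C 0 + C 1, by linarith [hC1 0, hC1 1], fun _ => ?_⟩
      intro L _ _ _ hr w x B hB h
      refine sn_le w x _ (mul_nonneg (by linarith [hC1 0, hC1 1]) hB) fun t => ?_
      have h1 := hC2 t L hr w x B hB h
      have e : ev (cst (Pi.single t (1 : k)) : Fin 2 → L) x = x t := by
        simp only [ev, cst]
        rw [Finset.sum_eq_single t]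
        · simp
        · intro s _ hs; simp [hs]
        · intro h; exact absurd (Finset.mem_univ _) h
      rw [e] at h1
      refine h1.trans (mul_le_mul_of_nonneg_right ?_ hB)
      fin_cases t
      · change C 0 ≤ _; linarith [hC1 1]
      · change C 1 ≤ _; linarith [hC1 0]
    · exact ⟨1, le_rfl, fun h => absurd h hp⟩
  choose C hC1 hC2 using hC
  have hlogC : ∀ p, 0 ≤ Real.log (C p) := fun p => Real.log_nonneg (hC1 p)
  refine ⟨∑ p, Real.log (C p), Finset.sum_nonneg fun p _ => hlogC p, ?_⟩
  intro L _ _ _ hr w x hx hDx i j hij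
  have h1 := hC2 (i, j) hij L hr w x (max (nv w (ev (cst (D i)) x)) (nv w (ev (cst (D j)) x)))
    (le_max_of_le_left (nv_nonneg _ _)) (by
      intro s
      fin_cases s
      · exact le_max_left _ _
      · exact le_max_right _ _)
  have hCpos : 0 < C (i, j) := by linarith [hC1 (i, j)]
  have h2 : Real.log (C (i, j)) ≤ ∑ p, Real.log (C p) :=
    Finset.single_le_sum (f := fun p => Real.log (C p)) (fun p _ => hlogC p) (Finset.mem_univ _)
  refine le_trans ?_ h2
  simp only [loc]
  rcases max_choice (nv w (ev (cst (D i)) x)) (nv w (ev (cst (D j)) x)) with h | h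
  · rw [h] at h1
    have h3 := Real.log_le_log (sn_pos w hx) h1
    rw [Real.log_mul hCpos.ne' (nv_pos w (hDx i)).ne'] at h3
    exact (min_le_left _ _).trans (by linarith)
  · rw [h] at h1
    have h3 := Real.log_le_log (sn_pos w hx) h1
    rw [Real.log_mul hCpos.ne' (nv_pos w (hDx j)).ne'] at h3
    exact (min_le_right _ _).trans (by linarith)

/-- local terms are bounded from below -/
theorem loc_lower {q : ℕ} (D : Fin q → Fin 2 → k) (r : ℕ) : ∃ C : ℝ, 0 ≤ C ∧
    ∀ (L : Type v) [Field L] [NumberField L] [Algebra k L], finrank k L ≤ r →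
    ∀ (w : Pl L) (x : Fin 2 → L), x ≠ 0 → ∀ i, ev (cst (D i)) x ≠ 0 → -C ≤ loc w (cst (D i)) x := by
  obtain ⟨B, hB1, hB⟩ := exists_bound_fin.{u, v} (fun s : Fin q × Fin 2 => D s.1 s.2) r
  refine ⟨Real.log (9 * B), Real.log_nonneg (by linarith), ?_⟩
  intro L _ _ _ hr w x hx i hix
  have hsx := sn_pos w hx
  have h1 := nv_sum_le w Finset.univ (fun t => (cst (D i) : Fin 2 → L) t * x t) (B * sn w x)
    (mul_nonneg (by linarith) hsx.le) (fun t _ => by
      rw [nv_mul]
      exact mul_le_mul (hB L hr w (i, t)) (le_sn _ _ _) (nv_nonneg _ _) (by linarith))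
  rw [Finset.card_univ, Fintype.card_fin] at h1
  have h2 := Real.log_le_log (nv_pos w hix) (show nv w (ev (cst (D i)) x) ≤ 9 * B * sn w x by
    refine h1.trans (le_of_eq ?_)
    push_cast; ring)
  rw [Real.log_mul (by positivity) hsx.ne'] at h2
  simp only [loc]
  linarith

end

end Pool.Agent.Helper52.Vojta
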