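import Mathlib
import Pool.Agent.Helper52.Vojta.Gap

/-!
Boundedly many very well approximable points in a height window, uniformly in the field `L`.
-/

namespace Pool.Agent.Helper52.Vojta

open NumberField Finset Module Pool.Agent.Helper64.Vojta

universe u v

/-- the point of the projective line with affine coordinate `x` -/
def aff {L : Type*} [Field L] (x : L) : Fin 2 → L := ![x, 1]

theorem aff_ne_zero {L : Type*} [Field L] (x : L) : aff x ≠ 0 := by
  intro h
  have := congrFun h 1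
  simp [aff] at this

theorem wedge_aff {L : Type*} [Field L] (x y : L) : wedge (aff x) (aff y) = x - y := by
  simp [wedge, aff]

theorem window_bound {k : Type u} [Field k] [NumberField k] {q : ℕ} (D : Fin q → Fin 2 → k)
    (hD : GenPos D) (r N : ℕ) {ε : ℝ} (hε : 0 < ε) (C0 : ℝ) :
    ∃ (U0 : ℝ) (B : ℕ), ∀ (L : Type v) [Field L] [NumberField L] [Algebra k L], finrank k L ≤ r →
    ∀ W : Finset (Pl L), W.card ≤ N → ∀ U : ℝ, U0 ≤ U → ∀ P : Finset L,
      (∀ x ∈ P, (∀ i, ev (cst (D i)) (aff x) ≠ 0) ∧ U ≤ Height.logHeight (aff x) ∧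
        Height.logHeight (aff x) ≤ (1 + ε / 4) * U ∧
        (2 + ε) * Height.logHeight (aff x) - C0 ≤ ∑ w ∈ W, ∑ i, loc w (cst (D i)) (aff x)) →
      P.card ≤ B := by
  classical
  rcases Nat.eq_zero_or_pos q with hq | hq
  · subst hq
    refine ⟨|C0| + 1, 0, ?_⟩
    intro L _ _ _ hr W hW U hU P hP
    rw [Nat.le_zero, Finset.card_eq_zero, Finset.eq_empty_iff_forall_notMem]
    intro x hx
    obtain ⟨_, h1, _, h2⟩ := hP x hx
    simp only [Finset.univ_eq_empty, Finset.sum_empty, Finset.sum_const_zero] at h2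
    have h3 := le_abs_self C0
    have h4 := abs_nonneg C0
    nlinarith
  have hne : Nonempty (Fin q) := ⟨⟨0, hq⟩⟩
  choose Ccc hCcc0 hCcc using fun i => close_close.{u, v} (D i) (hD.ne_zero i) r
  obtain ⟨Cn, hCn0, hCn⟩ := not_close_two.{u, v} D hD r
  obtain ⟨Cl, hCl0, hCl⟩ := loc_lower.{u, v} D r
  choose Cu hCu0 hCu using fun i => liouville_k.{u, v} (D i) r
  set Cc : ℝ := ∑ i, Ccc i with hCc
  have hCc0 : 0 ≤ Cc := Finset.sum_nonneg fun i _ => hCcc0 i
  have hCcle : ∀ i, Ccc i ≤ Cc := fun i =>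
    Finset.single_le_sum (f := Ccc) (fun i _ => hCcc0 i) (Finset.mem_univ i)
  set Cv : ℝ := ∑ i, Cu i with hCv
  have hCv0 : 0 ≤ Cv := Finset.sum_nonneg fun i _ => hCu0 i
  have hCvle : ∀ i, Cu i ≤ Cv := fun i =>
    Finset.single_le_sum (f := Cu) (fun i _ => hCu0 i) (Finset.mem_univ i)
  set η : ℝ := ε / (4 * (N + 1)) with hη
  have hN0 : (0 : ℝ) ≤ N := Nat.cast_nonneg _
  have hη0 : 0 < η := by positivity
  have hNη : N * η ≤ ε / 4 := by
    rw [hη]
    rw [mul_div_assoc', div_le_div_iff₀ (by positivity) (by norm_num)]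
    nlinarith
  set n : ℕ := finrank ℚ k with hn
  -- total error
  set E : ℝ := C0 + N * (q * Cn) + N * Cc + (n * r) * Real.log 9 with hE
  set A : ℕ := ⌈(1 + ε / 4 + 2 * Cv + Cl) / η⌉₊ + 1 with hA
  refine ⟨max 1 (2 * |E| / ε + 1), (q * (2 * A + 1)) ^ N, ?_⟩
  intro L _ _ _ hr W hW U hU P hP
  have hU1 : 1 ≤ U := (le_max_left _ _).trans hU
  have hU2 : 2 * |E| / ε + 1 ≤ U := (le_max_right _ _).trans hU
  have hU0 : 0 < U := by linarith
  -- nearest point and its proximity
  choose! ι hι using fun (p : Pl L × L) => Finite.exists_max fun i => loc p.1 (cst (D i)) (aff p.2)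
  let m : Pl L → L → ℝ := fun w x => loc w (cst (D (ι (w, x)))) (aff x)
  have hmax : ∀ w x i, loc w (cst (D i)) (aff x) ≤ m w x := fun w x i => hι (w, x) i
  have hmlow : ∀ x ∈ P, ∀ w, -Cl ≤ m w x := fun x hx w =>
    hCl L hr w (aff x) (aff_ne_zero x) _ ((hP x hx).1 _)
  have hmup : ∀ x ∈ P, ∀ w, m w x ≤ (1 + ε / 4) * U + 2 * Cv := by
    intro x hx w
    have h1 := hCu (ι (w, x)) L hr (aff x) (aff_ne_zero x) ((hP x hx).1 _) {w}
    rw [Finset.sum_singleton, Finset.card_singleton] at h1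
    have h2 := (hP x hx).2.2.1
    have h3 := hCvle (ι (w, x))
    change loc w _ _ ≤ _
    push_cast at h1
    linarith
  -- sum over the points
  have hsum : ∀ x ∈ P, ∀ w, ∑ i, loc w (cst (D i)) (aff x) ≤ m w x + q * Cn := by
    intro x hx w
    rw [← Finset.add_sum_erase _ _ (Finset.mem_univ (ι (w, x)))]
    have h1 : ∑ i ∈ Finset.univ.erase (ι (w, x)), loc w (cst (D i)) (aff x)
        ≤ ∑ i ∈ Finset.univ.erase (ι (w, x)), Cn := by
      refine Finset.sum_le_sum fun i hi => ?_
      have hne := Finset.ne_of_mem_erase hi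
      have h2 := hCn L hr w (aff x) (aff_ne_zero x) (hP x hx).1 i (ι (w, x)) hne
      rwa [min_eq_left (hmax w x i)] at h2
    have h3 : ∑ i ∈ (Finset.univ : Finset (Fin q)).erase (ι (w, x)), Cn ≤ q * Cn := by
      rw [Finset.sum_const, nsmul_eq_mul]
      apply mul_le_mul_of_nonneg_right _ hCn0
      rw [Finset.card_erase_of_mem (Finset.mem_univ _), Finset.card_univ, Fintype.card_fin]
      exact_mod_cast Nat.sub_le _ _
    change m w x + _ ≤ _
    linarith
  have htot : ∀ x ∈ P, (2 + ε) * Height.logHeight (aff x) - C0 - N * (q * Cn) ≤ ∑ w ∈ W, m w x := by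
    intro x hx
    have h1 := (hP x hx).2.2.2
    have h2 : ∑ w ∈ W, ∑ i, loc w (cst (D i)) (aff x) ≤ ∑ w ∈ W, (m w x + q * Cn) :=
      Finset.sum_le_sum fun w _ => hsum x hx w
    rw [Finset.sum_add_distrib, Finset.sum_const, nsmul_eq_mul] at h2
    have h3 : (W.card : ℝ) * (q * Cn) ≤ N * (q * Cn) :=
      mul_le_mul_of_nonneg_right (by exact_mod_cast hW) (by positivity)
    linarith
  -- the class of a point
  let cl : L → (W → Fin q × ℤ) := fun x w => (ι (w.1, x), ⌊m w.1 x / (η * U)⌋)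
  let T : Finset (W → Fin q × ℤ) := Fintype.piFinset fun _ =>
    (Finset.univ : Finset (Fin q)) ×ˢ Finset.Icc (-(A : ℤ)) A
  have hmaps : ∀ x ∈ P, cl x ∈ T := by
    intro x hx
    rw [Fintype.mem_piFinset]
    intro w
    rw [Finset.mem_product]
    refine ⟨Finset.mem_univ _, ?_⟩
    have hηU : 0 < η * U := by positivity
    have h1 := hmlow x hx w.1
    have h2 := hmup x hx w.1
    have hAr : (1 + ε / 4 + 2 * Cv + Cl) / η ≤ (A : ℝ) - 1 := by
      rw [hA]; push_cast
      have := Nat.le_ceil ((1 + ε / 4 + 2 * Cv + Cl) / η)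
      linarith
    rw [div_le_iff₀ hη0] at hAr
    have hA1 : (0 : ℝ) ≤ A - 1 := by rw [hA]; push_cast; linarith [Nat.cast_nonneg (α := ℝ) ⌈(1 + ε / 4 + 2 * Cv + Cl) / η⌉₊]
    have h3 : Cl ≤ (A - 1) * η * U := by
      have : Cl ≤ (A - 1) * η := by nlinarith
      calc Cl ≤ (A - 1) * η := this
        _ = (A - 1) * η * 1 := (mul_one _).symm
        _ ≤ _ := mul_le_mul_of_nonneg_left hU1 (by positivity)
    have h4 : (1 + ε / 4) * U + 2 * Cv ≤ (A - 1) * η * U := by
      have h5 : 2 * Cv ≤ 2 * Cv * U := by nlinarith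
      calc (1 + ε / 4) * U + 2 * Cv ≤ (1 + ε / 4 + 2 * Cv + Cl) * U := by nlinarith
        _ ≤ _ := mul_le_mul_of_nonneg_right hAr hU0.le
    rw [Finset.mem_Icc]
    constructor
    · rw [Int.le_floor, le_div_iff₀ hηU]
      push_cast
      nlinarith
    · have h5 : m w.1 x / (η * U) ≤ (A : ℝ) := by
        rw [div_le_iff₀ hηU]
        nlinarith
      have h6 := Int.floor_le_floor h5
      simpa using h6
  have hinj : Set.InjOn cl (P : Set L) := by
    intro x hx y hy hxy
    by_contra hne'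
    rw [Finset.mem_coe] at hx hy
    have hw : wedge (aff x) (aff y) ≠ 0 := by
      rw [wedge_aff]; exact sub_ne_zero.mpr hne'
    have h1 := wedge_liouville (aff x) (aff y) (aff_ne_zero x) (aff_ne_zero y) hw W
    have hcard : (Fintype.card (InfinitePlace L) : ℝ) ≤ n * r := by exact_mod_cast card_inf_le' hr
    have hlog9 : 0 ≤ Real.log 9 := Real.log_nonneg (by norm_num)
    have h2 : ∀ w ∈ W, m w x - η * U - Cc ≤ Real.log (sn w (aff x)) + Real.log (sn w (aff y))
        - Real.log (nv w (wedge (aff x) (aff y))) := by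
      intro w hw'
      have h3 := congrFun hxy ⟨w, hw'⟩
      simp only [cl, Prod.mk.injEq] at h3
      obtain ⟨h4, h5⟩ := h3
      have h6 := hCcc (ι (w, x)) L hr w (aff x) (aff y) (aff_ne_zero x) (aff_ne_zero y)
        ((hP x hx).1 _) ((hP y hy).1 _) hw
      have h7 : loc w (cst (D (ι (w, x)))) (aff y) = m w y := by
        change _ = loc w (cst (D (ι (w, y)))) (aff y)
        rw [h4]
      have h8 : loc w (cst (D (ι (w, x)))) (aff x) = m w x := rfl
      rw [h7, h8] at h6
      have hηU : 0 < η * U := by positivity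
      have h9 : |m w x / (η * U) - m w y / (η * U)| < 1 := Int.abs_sub_lt_one_of_floor_eq_floor h5
      rw [← sub_div, abs_div, abs_of_pos hηU, div_lt_one hηU, abs_lt] at h9
      have h10 : m w x - η * U ≤ min (m w x) (m w y) := le_min (by linarith) (by linarith)
      have h11 := hCcle (ι (w, x))
      linarith
    have h3 := Finset.sum_le_sum h2
    rw [Finset.sum_sub_distrib, Finset.sum_sub_distrib, Finset.sum_const, Finset.sum_const,
      nsmul_eq_mul, nsmul_eq_mul] at h3
    have h4 := htot x hx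
    have hWN : (W.card : ℝ) ≤ N := by exact_mod_cast hW
    have h5 : (W.card : ℝ) * (η * U) ≤ ε / 4 * U := by
      calc (W.card : ℝ) * (η * U) ≤ N * (η * U) := mul_le_mul_of_nonneg_right hWN (by positivity)
        _ = (N * η) * U := by ring
        _ ≤ _ := mul_le_mul_of_nonneg_right hNη hU0.le
    have h6 : (W.card : ℝ) * Cc ≤ N * Cc := mul_le_mul_of_nonneg_right hWN hCc0
    have h7 : (Fintype.card (InfinitePlace L) : ℝ) * Real.log 9 ≤ (n * r) * Real.log 9 :=
      mul_le_mul_of_nonneg_right hcard hlog9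
    have h8 := (hP x hx).2.1
    have h9 := (hP y hy).2.2.1
    -- (1 + ε) U - ε/4 U ≤ (1 + ε/4) U + E
    have h10 : (1 + ε) * Height.logHeight (aff x) ≤ Height.logHeight (aff y) + ε / 4 * U + E := by
      rw [hE]; linarith only [h1, h3, h4, h5, h6, h7]
    have h11 : (1 + ε) * U ≤ (1 + ε) * Height.logHeight (aff x) :=
      mul_le_mul_of_nonneg_left h8 (by linarith)
    have h12 : ε / 2 * U ≤ E := by nlinarith only [h10, h11, h9]
    have h13 : ε * U ≥ 2 * |E| + ε := by
      have h15 : ε * (2 * |E| / ε + 1) = 2 * |E| + ε := by field_simp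
      have h16 : ε * (2 * |E| / ε + 1) ≤ ε * U := mul_le_mul_of_nonneg_left hU2 hε.le
      linarith only [h15, h16]
    have h14 := le_abs_self E
    linarith only [h12, h13, h14, hε]
  have h1 : P.card ≤ T.card := Finset.card_le_card_of_injOn cl hmaps hinj
  refine h1.trans ?_
  rw [Fintype.card_piFinset, Finset.prod_const, Finset.card_univ, Fintype.card_coe, Finset.card_product,
    Finset.card_univ, Fintype.card_fin, Int.card_Icc]
  have h2 : ((A : ℤ) + 1 - -(A : ℤ)).toNat = 2 * A + 1 := by omega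
  rw [h2]
  exact Nat.pow_le_pow_right (by positivity) hW

end Pool.Agent.Helper52.Vojta
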