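import Mathlib
import Pool.Agent.Helper52.Vojta.Window
import Pool.Agent.Helper52.Vojta.BaseChange

/-!
The window bound for an arbitrary reduced divisor on the projective line, by passing to the field
generated by its points.
-/

namespace Pool.Agent.Helper52.Vojta

open NumberField Finset Module Polynomial Pool.Agent.Helper64.Vojta

universe u v

theorem genPos_of_pairwise {k : Type*} [Field k] {q : ℕ} (D : Fin q → Fin 2 → k)
    (h0 : ∀ i, D i ≠ 0) (h : ∀ i j, i ≠ j → D i 0 * D j 1 - D i 1 * D j 0 ≠ 0) : GenPos D := by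
  classical
  intro s hs
  have key : LinearIndepOn k D (s : Set (Fin q)) := by
    rw [linearIndepOn_finset_iff]
    intro f hf i hi
    have hcases : s.card = 0 ∨ s.card = 1 ∨ s.card = 2 := by omega
    rcases hcases with hc | hc | hc
    · rw [Finset.card_eq_zero] at hc; subst hc; exact absurd hi (Finset.notMem_empty _)
    · obtain ⟨a, rfl⟩ := Finset.card_eq_one.mp hc
      rw [Finset.sum_singleton] at hf
      rw [Finset.mem_singleton.mp hi]
      rcases smul_eq_zero.mp hf with h1 | h1
      · exact h1
      · exact absurd h1 (h0 a)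
    · obtain ⟨a, b, hab, rfl⟩ := Finset.card_eq_two.mp hc
      rw [Finset.sum_pair hab] at hf
      have e0 := congrFun hf 0
      have e1 := congrFun hf 1
      simp only [Pi.add_apply, Pi.smul_apply, smul_eq_mul, Pi.zero_apply] at e0 e1
      have hd := h a b hab
      have ha : f a = 0 := by
        have : f a * (D a 0 * D b 1 - D a 1 * D b 0) = 0 := by linear_combination D b 1 * e0 - D b 0 * e1
        exact (mul_eq_zero.mp this).resolve_right hd
      have hb : f b = 0 := by
        have : f b * (D a 0 * D b 1 - D a 1 * D b 0) = 0 := by linear_combination D a 0 * e1 - D a 1 * e0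
        exact (mul_eq_zero.mp this).resolve_right hd
      rcases Finset.mem_insert.mp hi with h1 | h1
      · rw [h1]; exact ha
      · rw [Finset.mem_singleton.mp h1]; exact hb
  exact key

/-- Local contribution at the place `w` of the divisor `D = {g = 0}` (if `q = deg g`) or
`D = {g = 0} + ∞` (if `q = deg g + 1`) of the projective line, at the point with affine
coordinate `y`. -/
noncomputable def dloc {k : Type*} [Field k] (g : k[X]) (q : ℕ) {L : Type*} [Field L] [NumberField L]
    [Algebra k L] (w : Pl L) (y : L) : ℝ :=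
  q * Real.log (sn w (aff y)) - Real.log (nv w (aeval y g))

/-- the linear forms of the points of the divisor -/
def frm {k' : Type*} [Field k'] {n : ℕ} (a : Fin n → k') (q : ℕ) (i : Fin q) : Fin 2 → k' :=
  if h : (i : ℕ) < n then ![1, -a ⟨i, h⟩] else ![0, 1]

theorem frm_genPos {k' : Type*} [Field k'] {n : ℕ} (a : Fin n → k') (ha : Function.Injective a) {q : ℕ}
    (hq : q ≤ n + 1) : GenPos (frm a q) := by
  apply genPos_of_pairwise
  · intro i h
    unfold frm at h
    split_ifs at h
    · have := congrFun h 0; simp at this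
    · have := congrFun h 1; simp at this
  · intro i j hij
    unfold frm
    have hi := i.2
    have hj := j.2
    split_ifs with h1 h2 h2
    · simp only [Matrix.cons_val_zero, Matrix.cons_val_one, one_mul, mul_one]
      intro h
      apply hij
      have : a ⟨i, h1⟩ = a ⟨j, h2⟩ := by linear_combination h
      have := ha this
      simp only [Fin.mk.injEq] at this
      exact Fin.ext this
    · simp
    · simp
    · exfalso
      apply hij
      apply Fin.ext
      omega

section

variable {k' : Type*} [Field k'] [NumberField k'] {L' : Type*} [Field L'] [NumberField L'] [Algebra k' L']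

omit [NumberField k'] [NumberField L'] in
theorem ev_frm {n : ℕ} (a : Fin n → k') (q : ℕ) (i : Fin q) (y : L') :
    ev (cst (frm a q i)) (aff y) = if h : (i : ℕ) < n then y - algebraMap k' L' (a ⟨i, h⟩) else 1 := by
  unfold frm
  split_ifs with h
  · simp [ev, cst, aff, Fin.sum_univ_two, sub_eq_add_neg]
  · simp [ev, cst, aff, Fin.sum_univ_two]

omit [NumberField k'] in
theorem sum_loc_frm {n : ℕ} (a : Fin n → k') {q : ℕ} (hq : n ≤ q) (w : Pl L') (y : L')
 :
    ∑ i, loc w (cst (frm a q i)) (aff y)
      = q * Real.log (sn w (aff y)) - ∑ i, Real.log (nv w (y - algebraMap k' L' (a i))) := by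
  simp only [loc, ev_frm]
  rw [Finset.sum_sub_distrib, Finset.sum_const, Finset.card_univ, Fintype.card_fin, nsmul_eq_mul]
  congr 1
  obtain ⟨d, rfl⟩ := Nat.exists_eq_add_of_le hq
  rw [Fin.sum_univ_add]
  have h1 : ∀ i : Fin n, Real.log (nv w (if h : ((Fin.castAdd d i : Fin (n + d)) : ℕ) < n
      then y - algebraMap k' L' (a ⟨_, h⟩) else 1)) = Real.log (nv w (y - algebraMap k' L' (a i))) := by
    intro i
    rw [dif_pos (by simp)]
    rfl
  have h2 : ∀ i : Fin d, Real.log (nv w (if h : ((Fin.natAdd n i : Fin (n + d)) : ℕ) < n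
      then y - algebraMap k' L' (a ⟨_, h⟩) else (1 : L'))) = 0 := by
    intro i
    rw [dif_neg (by simp), nv_one, Real.log_one]
  rw [Finset.sum_congr rfl fun i _ => h1 i, Finset.sum_congr rfl fun i _ => h2 i, Finset.sum_const_zero,
    add_zero]

end

section

variable {k : Type u} [Field k] [NumberField k]

/-- the set of places above a finite set of places -/
noncomputable def upW {L : Type*} [Field L] [NumberField L] (L' : Type*) [Field L'] [NumberField L']
    [Algebra L L'] (W : Finset (Pl L)) : Finset (Pl L') := by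
  classical
  exact W.biUnion (above L')

theorem sum_upW {L : Type*} [Field L] [NumberField L] {L' : Type*} [Field L'] [NumberField L']
    [Algebra L L'] (W : Finset (Pl L)) (f : Pl L' → ℝ) :
    ∑ w ∈ upW L' W, f w = ∑ ν ∈ W, ∑ w ∈ above L' ν, f w := by
  classical
  unfold upW
  rw [Finset.sum_biUnion]
  intro a _ b _ hab
  rw [Function.onFun, Finset.disjoint_left]
  intro w hwa hwb
  exact hab (above_unique (mem_above.mp hwa) (mem_above.mp hwb))

theorem card_upW_le {L : Type*} [Field L] [NumberField L] (L' : Type*) [Field L'] [NumberField L']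
    [Algebra L L'] (W : Finset (Pl L)) : (upW L' W).card ≤ W.card * finrank L L' := by
  classical
  unfold upW
  refine Finset.card_biUnion_le.trans ?_
  calc ∑ ν ∈ W, (above L' ν).card ≤ ∑ ν ∈ W, finrank L L' :=
        Finset.sum_le_sum fun ν _ => card_above_le ν
    _ = _ := by rw [Finset.sum_const, smul_eq_mul]

/-- Transfer of the divisor contributions to an extension over which the divisor splits. -/
theorem transfer (g : k[X]) (q : ℕ) (k' : Type u) [Field k'] [NumberField k'] [Algebra k k'] {n : ℕ}
    (a : Fin n → k') (hg : g.map (algebraMap k k') = C (algebraMap k k' g.leadingCoeff) * ∏ i, (X - C (a i)))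
    (hn : n ≤ q) (hg0 : g ≠ 0) (r : ℕ) : ∃ C : ℝ, 0 ≤ C ∧
    ∀ (L L' : Type u) [Field L] [NumberField L] [Algebra k L] [Field L'] [NumberField L']
      [Algebra L L'] [Algebra k L'] [Algebra k' L'] [IsScalarTower k L L'] [IsScalarTower k k' L'],
      finrank k L' ≤ r → ∀ (W : Finset (Pl L)) (y : L), aeval y g ≠ 0 →
      |∑ w ∈ upW L' W, ∑ i, loc w (cst (frm a q i)) (aff (algebraMap L L' y))
        - finrank L L' * ∑ w ∈ W, dloc g q w y| ≤ (upW L' W).card * C := by
  classical
  have hlc : g.leadingCoeff ≠ 0 := leadingCoeff_ne_zero.mpr hg0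
  obtain ⟨B1, hB11, hB1⟩ := exists_bound.{u, u} g.leadingCoeff r
  obtain ⟨B2, hB21, hB2⟩ := exists_bound.{u, u} g.leadingCoeff⁻¹ r
  refine ⟨Real.log B1 + Real.log B2, add_nonneg (Real.log_nonneg hB11) (Real.log_nonneg hB21), ?_⟩
  intro L L' _ _ _ _ _ _ _ _ _ _ hr W y hy
  have hval : algebraMap L L' (aeval y g) = algebraMap k L' g.leadingCoeff *
      ∏ i, (algebraMap L L' y - algebraMap k' L' (a i)) := by
    have h1 : algebraMap L L' (aeval y g) = aeval (algebraMap L L' y) g := by
      rw [aeval_algebraMap_apply]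
    have h2 : aeval (algebraMap L L' y) g = eval₂ (algebraMap k' L') (algebraMap L L' y) (g.map (algebraMap k k')) := by
      rw [eval₂_map, ← IsScalarTower.algebraMap_eq, aeval_def]
    rw [h1, h2, hg, eval₂_mul, eval₂_C, eval₂_finsetProd, ← IsScalarTower.algebraMap_apply]
    congr 1
    exact Finset.prod_congr rfl fun i _ => by rw [eval₂_sub, eval₂_X, eval₂_C]
  have hne : algebraMap L L' (aeval y g) ≠ 0 := by
    rw [Ne, map_eq_zero]; exact hy
  have hfac : ∀ i, algebraMap L L' y - algebraMap k' L' (a i) ≠ 0 := by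
    intro i h0
    apply hne
    rw [hval, Finset.prod_eq_zero (Finset.mem_univ i) h0, mul_zero]
  have hlc' : algebraMap k L' g.leadingCoeff ≠ 0 := by
    rw [Ne, map_eq_zero]; exact hlc
  have hw : ∀ w : Pl L', ∑ i, loc w (cst (frm a q i)) (aff (algebraMap L L' y))
      = (q * Real.log (sn w (aff (algebraMap L L' y))) - Real.log (nv w (algebraMap L L' (aeval y g))))
        + Real.log (nv w (algebraMap k L' g.leadingCoeff)) := by
    intro w
    rw [sum_loc_frm a hn, hval, nv_mul, Real.log_mul (nv_pos w hlc').ne' (by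
      rw [← hval] at *
      exact (nv_pos w (Finset.prod_ne_zero_iff.mpr fun i _ => hfac i)).ne')]
    have h3 : Real.log (nv w (∏ i, (algebraMap L L' y - algebraMap k' L' (a i))))
        = ∑ i, Real.log (nv w (algebraMap L L' y - algebraMap k' L' (a i))) := by
      have h4 : nv w (∏ i, (algebraMap L L' y - algebraMap k' L' (a i)))
          = ∏ i, nv w (algebraMap L L' y - algebraMap k' L' (a i)) := by
        let f : L' →* ℝ := ⟨⟨nv w, nv_one w⟩, nv_mul w⟩
        exact map_prod f _ _
      rw [h4, Real.log_prod (fun i _ => (nv_pos w (hfac i)).ne')]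
    rw [h3]
    ring
  have haff : aff (algebraMap L L' y) = fun i => algebraMap L L' (aff y i) := by
    funext i; fin_cases i <;> simp [aff]
  have hmain : ∑ w ∈ upW L' W, (q * Real.log (sn w (aff (algebraMap L L' y)))
      - Real.log (nv w (algebraMap L L' (aeval y g)))) = finrank L L' * ∑ w ∈ W, dloc g q w y := by
    rw [sum_upW, Finset.mul_sum]
    refine Finset.sum_congr rfl fun ν _ => ?_
    rw [Finset.sum_sub_distrib, ← Finset.mul_sum, sum_log_nv, haff, sum_log_sn (by norm_num)]
    unfold dloc
    ring
  simp_rw [hw]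
  rw [Finset.sum_add_distrib, hmain, add_sub_cancel_left]
  refine (Finset.abs_sum_le_sum_abs _ _).trans ?_
  rw [← nsmul_eq_mul, ← Finset.sum_const]
  refine Finset.sum_le_sum fun w _ => ?_
  have h1 := Real.log_le_log (nv_pos w hlc') (hB1 L' hr w)
  have h2 := Real.log_le_log (nv_pos w (by rw [Ne, map_eq_zero]; exact inv_ne_zero hlc)) (hB2 L' hr w)
  rw [map_inv₀, nv_inv, Real.log_inv] at h2
  have h3 := Real.log_nonneg hB11
  have h4 := Real.log_nonneg hB21
  rw [abs_le]
  constructor <;> linarith

open IntermediateField in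
/-- splitting data of a squarefree polynomial inside an algebraic closure -/
theorem exists_split (Ω : Type u) [Field Ω] [Algebra k Ω] [IsAlgClosed Ω] [Algebra.IsAlgebraic k Ω]
    (g : k[X]) (hg : Squarefree g) :
    ∃ (K : IntermediateField k Ω) (_ : FiniteDimensional k K) (a : Fin g.natDegree → K),
      Function.Injective a ∧
      g.map (algebraMap k K) = C (algebraMap k K g.leadingCoeff) * ∏ i, (X - C (a i)) := by
  classical
  have hg0 : g ≠ 0 := hg.ne_zero
  have hsep : g.Separable := PerfectField.separable_iff_squarefree.mpr hg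
  have hsp : (g.map (algebraMap k Ω)).Splits := IsAlgClosed.splits _
  let K : IntermediateField k Ω := IntermediateField.adjoin k (g.rootSet Ω)
  have hK : g.IsSplittingField k K := IntermediateField.adjoin_rootSet_isSplittingField hsp
  have hfd : FiniteDimensional k K := IsSplittingField.finiteDimensional K g
  have hspK : (g.map (algebraMap k K)).Splits := hK.splits
  set p := g.map (algebraMap k K) with hp
  have hpsep : p.Separable := hsep.map
  have hnd : p.roots.Nodup := nodup_roots hpsep
  have hcard : p.roots.toFinset.card = g.natDegree := by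
    rw [Multiset.toFinset_card_of_nodup hnd, ← hspK.natDegree_eq_card_roots, hp, natDegree_map]
  let e : Fin g.natDegree ≃ p.roots.toFinset := (Finset.equivFinOfCardEq hcard).symm
  refine ⟨K, hfd, fun i => (e i : K), ?_, ?_⟩
  · intro i j h
    exact e.injective (Subtype.ext h)
  · have h1 : p = C p.leadingCoeff * (p.roots.map fun a => X - C a).prod := hspK.eq_prod_roots
    have h2 : p.leadingCoeff = algebraMap k K g.leadingCoeff := by
      rw [hp, leadingCoeff_map]
    rw [h2] at h1
    refine h1.trans ?_
    congr 1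
    have h3 : (p.roots.map fun a => X - C a).prod = ∏ a ∈ p.roots.toFinset, (X - C a) := by
      rw [Finset.prod, Multiset.toFinset_val, hnd.dedup]
    rw [h3, ← Finset.prod_coe_sort]
    exact (Equiv.prod_comp e (fun a : p.roots.toFinset => (X - C (a : K)))).symm

section inst

variable {Ω : Type u} [Field Ω] [Algebra k Ω]

/-- a finite intermediate field of a number field extension is a number field -/
theorem nf_of_fd (L : IntermediateField k Ω) [FiniteDimensional k L] : NumberField L :=
  NumberField.of_module_finite k L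

end inst

open IntermediateField in
/-- The window bound and the trivial upper bound for an arbitrary reduced divisor. -/
theorem window_bound_gen (Ω : Type u) [Field Ω] [Algebra k Ω] [IsAlgClosed Ω] [Algebra.IsAlgebraic k Ω]
    (g : k[X]) (hg : Squarefree g) {q : ℕ} (hq1 : g.natDegree ≤ q) (hq2 : q ≤ g.natDegree + 1)
    (r N : ℕ) {ε : ℝ} (hε : 0 < ε) (C0 : ℝ) :
    (∃ (U0 : ℝ) (B : ℕ), ∀ (L : IntermediateField k Ω) [NumberField L], finrank k L ≤ r →
      ∀ W : Finset (Pl L), W.card ≤ N → ∀ U : ℝ, U0 ≤ U → ∀ P : Finset L,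
      (∀ x ∈ P, aeval x g ≠ 0 ∧ U ≤ Height.logHeight (aff x) ∧
        Height.logHeight (aff x) ≤ (1 + ε / 4) * U ∧
        (2 + ε) * Height.logHeight (aff x) - C0 ≤ ∑ w ∈ W, dloc g q w x) → P.card ≤ B) ∧
    (∃ C1 : ℝ, 0 ≤ C1 ∧ ∀ (L : IntermediateField k Ω) [NumberField L], finrank k L ≤ r →
      ∀ W : Finset (Pl L), W.card ≤ N → ∀ x : L, aeval x g ≠ 0 →
        ∑ w ∈ W, dloc g q w x ≤ q * Height.logHeight (aff x) + C1) := by
  classical
  obtain ⟨K, hKfd, a, ha, hga⟩ := exists_split Ω g hg
  have hKnf : NumberField K := nf_of_fd K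
  set M : ℕ := finrank k K with hM
  have hM1 : 1 ≤ M := Module.finrank_pos
  have hg0 : g ≠ 0 := hg.ne_zero
  obtain ⟨Ct, hCt0, hCt⟩ := transfer g q K a hga hq1 hg0 (r * M)
  have hgen := frm_genPos a ha hq2
  -- data attached to `L`
  have key : ∀ (L : IntermediateField k Ω) [NumberField L], 0 < finrank k L → finrank k L ≤ r →
      ∃ (L' : Type u) (_ : Field L') (_ : NumberField L') (_ : Algebra L L') (_ : Algebra k L')
        (_ : Algebra K L') (_ : IsScalarTower k L L') (_ : IsScalarTower k K L'),
        finrank k L' ≤ r * M ∧ finrank K L' ≤ r ∧ 1 ≤ finrank L L' ∧ finrank L L' ≤ M := by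
    intro L _ hL0 hLr
    have hLfd : FiniteDimensional k L := FiniteDimensional.of_finrank_pos hL0
    have hEfd : FiniteDimensional k ↥(L ⊔ K) := inferInstance
    have hEnf : NumberField ↥(L ⊔ K) := nf_of_fd _
    let iL : Algebra L ↥(L ⊔ K) := (IntermediateField.inclusion (le_sup_left : L ≤ L ⊔ K)).toAlgebra
    let iK : Algebra K ↥(L ⊔ K) := (IntermediateField.inclusion (le_sup_right : K ≤ L ⊔ K)).toAlgebra
    have tL : IsScalarTower k L ↥(L ⊔ K) := IsScalarTower.of_algebraMap_eq fun x => rfl
    have tK : IsScalarTower k K ↥(L ⊔ K) := IsScalarTower.of_algebraMap_eq fun x => rfl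
    have hE : finrank k ↥(L ⊔ K) ≤ finrank k L * M := IntermediateField.finrank_sup_le L K
    have fL : Module.Free L ↥(L ⊔ K) := Module.Free.of_divisionRing _ _
    have fK : Module.Free K ↥(L ⊔ K) := Module.Free.of_divisionRing _ _
    have hELK : finrank k L * finrank L ↥(L ⊔ K) = finrank k ↥(L ⊔ K) :=
      Module.finrank_mul_finrank k L ↥(L ⊔ K)
    have hEKL : M * finrank K ↥(L ⊔ K) = finrank k ↥(L ⊔ K) :=
      Module.finrank_mul_finrank k K ↥(L ⊔ K)
    have hE0 : 0 < finrank k ↥(L ⊔ K) := Module.finrank_pos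
    refine ⟨↥(L ⊔ K), inferInstance, hEnf, iL, inferInstance, iK, tL, tK, ?_, ?_, ?_, ?_⟩
    · exact hE.trans (Nat.mul_le_mul_right _ hLr)
    · have : M * finrank K ↥(L ⊔ K) ≤ M * finrank k L := by rw [hEKL, mul_comm M]; exact hE
      exact (Nat.le_of_mul_le_mul_left this hM1).trans hLr
    · rcases Nat.eq_zero_or_pos (finrank L ↥(L ⊔ K)) with h | h
      · rw [h, mul_zero] at hELK; omega
      · exact h
    · have : finrank k L * finrank L ↥(L ⊔ K) ≤ finrank k L * M := by rw [hELK]; exact hE
      exact Nat.le_of_mul_le_mul_left this hL0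
  have haff : ∀ {L L' : Type u} [Field L] [Field L'] [Algebra L L'] (y : L),
      aff (algebraMap L L' y) = fun i => algebraMap L L' (aff y i) := by
    intro L L' _ _ _ y
    funext i; fin_cases i <;> simp [aff]
  have hM0 : (0 : ℝ) ≤ M := Nat.cast_nonneg _
  have hN0 : (0 : ℝ) ≤ N := Nat.cast_nonneg _
  constructor
  · obtain ⟨U0, B, hB⟩ := window_bound.{u, u} (frm a q) hgen r (N * M) hε (M * |C0| + N * M * Ct)
    refine ⟨max U0 0, B, ?_⟩
    intro L _ hLr W hW U hU P hP
    rcases Nat.eq_zero_or_pos (finrank k L) with hL0 | hL0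
    · have : FiniteDimensional k L := FiniteDimensional.right ℚ k L
      exact absurd hL0 (Module.finrank_pos).ne'
    obtain ⟨L', _, _, _, _, _, _, _, h1, h2, h3, h4⟩ := key L hL0 hLr
    set m : ℕ := finrank L L' with hm
    have hm1 : (1 : ℝ) ≤ m := by exact_mod_cast h3
    have hmM : (m : ℝ) ≤ M := by exact_mod_cast h4
    have hinj : Function.Injective (algebraMap L L') := (algebraMap L L').injective
    rw [← Finset.card_image_of_injective P hinj]
    have hUU : U0 ≤ m * U := by
      have h5 : U0 ≤ U := (le_max_left _ _).trans hU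
      have h6 : 0 ≤ U := (le_max_right _ _).trans hU
      nlinarith
    have hWc : ((upW L' W).card : ℝ) ≤ N * M := by
      have h5 : (upW L' W).card ≤ N * M := (card_upW_le L' W).trans (Nat.mul_le_mul hW h4)
      exact_mod_cast h5
    refine hB L' h2 (upW L' W) (by exact_mod_cast hWc) (m * U) hUU (P.image (algebraMap L L')) ?_
    intro z hz
    obtain ⟨y, hy, rfl⟩ := Finset.mem_image.mp hz
    obtain ⟨p1, p2, p3, p4⟩ := hP y hy
    have hH : Height.logHeight (aff (algebraMap L L' y)) = m * Height.logHeight (aff y) := by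
      rw [haff]; exact logHeight_algebraMap (aff_ne_zero y)
    have htr := hCt L L' h1 W y p1
    rw [abs_le] at htr
    refine ⟨?_, ?_, ?_, ?_⟩
    · intro i
      rw [ev_frm]
      split_ifs with hi
      · intro h0
        apply p1
        have h5 : algebraMap L L' (aeval y g) = 0 := by
          have h6 : algebraMap L L' (aeval y g) = eval₂ (algebraMap K L') (algebraMap L L' y) (g.map (algebraMap k K)) := by
            rw [eval₂_map, ← IsScalarTower.algebraMap_eq, ← aeval_def, aeval_algebraMap_apply]
          rw [h6, hga, eval₂_mul, eval₂_finsetProd, Finset.prod_eq_zero (Finset.mem_univ ⟨(i : ℕ), hi⟩), mul_zero]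
          rw [eval₂_sub, eval₂_X, eval₂_C, h0]
        rwa [map_eq_zero] at h5
      · exact one_ne_zero
    · rw [hH]; exact mul_le_mul_of_nonneg_left p2 (by linarith)
    · rw [hH]
      calc (m : ℝ) * Height.logHeight (aff y) ≤ m * ((1 + ε / 4) * U) :=
            mul_le_mul_of_nonneg_left p3 (by linarith)
        _ = _ := by ring
    · rw [hH]
      have h5 : (m : ℝ) * ((2 + ε) * Height.logHeight (aff y) - C0) ≤ m * ∑ w ∈ W, dloc g q w y :=
        mul_le_mul_of_nonneg_left p4 (by linarith)
      have h6 : ((upW L' W).card : ℝ) * Ct ≤ N * M * Ct := mul_le_mul_of_nonneg_right hWc hCt0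
      have h7 : (m : ℝ) * C0 ≤ M * |C0| := by
        calc (m : ℝ) * C0 ≤ m * |C0| := mul_le_mul_of_nonneg_left (le_abs_self _) (by linarith)
          _ ≤ _ := mul_le_mul_of_nonneg_right hmM (abs_nonneg _)
      linarith [htr.1]
  · choose Cv hCv0 hCv using fun i => liouville_k.{u, u} (frm a q i) r
    set S : ℝ := ∑ i, Cv i with hS
    have hS0 : 0 ≤ S := Finset.sum_nonneg fun i _ => hCv0 i
    refine ⟨S * (1 + N * M) + N * M * Ct, by positivity, ?_⟩
    intro L _ hLr W hW y hy
    rcases Nat.eq_zero_or_pos (finrank k L) with hL0 | hL0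
    · have : FiniteDimensional k L := FiniteDimensional.right ℚ k L
      exact absurd hL0 (Module.finrank_pos).ne'
    obtain ⟨L', _, _, _, _, _, _, _, h1, h2, h3, h4⟩ := key L hL0 hLr
    set m : ℕ := finrank L L' with hm
    have hm1 : (1 : ℝ) ≤ m := by exact_mod_cast h3
    have hWc : ((upW L' W).card : ℝ) ≤ N * M := by
      have h5 : (upW L' W).card ≤ N * M := (card_upW_le L' W).trans (Nat.mul_le_mul hW h4)
      exact_mod_cast h5
    have hH : Height.logHeight (aff (algebraMap L L' y)) = m * Height.logHeight (aff y) := by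
      rw [haff]; exact logHeight_algebraMap (aff_ne_zero y)
    have htr := hCt L L' h1 W y hy
    rw [abs_le] at htr
    have hev : ∀ i, ev (cst (frm a q i)) (aff (algebraMap L L' y)) ≠ 0 := by
      intro i
      rw [ev_frm]
      split_ifs with hi
      · intro h0
        apply hy
        have h5 : algebraMap L L' (aeval y g) = 0 := by
          have h6 : algebraMap L L' (aeval y g) = eval₂ (algebraMap K L') (algebraMap L L' y) (g.map (algebraMap k K)) := by
            rw [eval₂_map, ← IsScalarTower.algebraMap_eq, ← aeval_def, aeval_algebraMap_apply]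
          rw [h6, hga, eval₂_mul, eval₂_finsetProd, Finset.prod_eq_zero (Finset.mem_univ ⟨(i : ℕ), hi⟩), mul_zero]
          rw [eval₂_sub, eval₂_X, eval₂_C, h0]
        rwa [map_eq_zero] at h5
      · exact one_ne_zero
    have h5 : ∑ w ∈ upW L' W, ∑ i, loc w (cst (frm a q i)) (aff (algebraMap L L' y))
        ≤ q * (m * Height.logHeight (aff y)) + S * (1 + N * M) := by
      rw [Finset.sum_comm]
      calc ∑ i, ∑ w ∈ upW L' W, loc w (cst (frm a q i)) (aff (algebraMap L L' y))
          ≤ ∑ i, (m * Height.logHeight (aff y) + Cv i * (1 + N * M)) := by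
            refine Finset.sum_le_sum fun i _ => ?_
            have h6 := hCv i L' h2 (aff (algebraMap L L' y)) (aff_ne_zero _) (hev i) (upW L' W)
            rw [hH] at h6
            have h7 : Cv i * (1 + (upW L' W).card) ≤ Cv i * (1 + N * M) :=
              mul_le_mul_of_nonneg_left (by linarith) (hCv0 i)
            linarith
        _ = _ := by
            rw [Finset.sum_add_distrib, Finset.sum_const, Finset.card_univ, Fintype.card_fin,
              nsmul_eq_mul, ← Finset.sum_mul]
    have h6 : ((upW L' W).card : ℝ) * Ct ≤ N * M * Ct := mul_le_mul_of_nonneg_right hWc hCt0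
    have h7 : (m : ℝ) * ∑ w ∈ W, dloc g q w y ≤ m * (q * Height.logHeight (aff y)) + (S * (1 + N * M) + N * M * Ct) := by
      have : (q : ℝ) * (m * Height.logHeight (aff y)) = m * (q * Height.logHeight (aff y)) := by ring
      linarith [htr.1]
    set Z : ℝ := S * (1 + N * M) + N * M * Ct with hZ
    have hZ0 : 0 ≤ Z := by positivity
    by_contra hcon
    push Not at hcon
    have h8 : (m : ℝ) * (q * Height.logHeight (aff y) + Z) < m * ∑ w ∈ W, dloc g q w y :=
      mul_lt_mul_of_pos_left hcon (by linarith)
    nlinarith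

end

end Pool.Agent.Helper52.Vojta
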