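import Mathlib

/-!
The norm of a polynomial expression in terms of values of the minimal polynomial.
-/

namespace Pool.Agent.Helper52.Vojta

open Finset Module Polynomial

section

variable {k : Type*} [Field k] {L : Type*} [Field L] [Algebra k L] {K : Type*} [Field K] [Algebra k K]

theorem norm_aeval (pb : PowerBasis k L) (g : k[X]) {n : ℕ} (a : Fin n → K)
    (hga : g.map (algebraMap k K) = C (algebraMap k K g.leadingCoeff) * ∏ i, (X - C (a i))) :
    algebraMap k K (Algebra.norm k (aeval pb.gen g))
      = (algebraMap k K g.leadingCoeff) ^ pb.dim *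
        ∏ i, ((-1) ^ pb.dim * ((minpoly k pb.gen).map (algebraMap k K)).eval (a i)) := by
  classical
  let M : Matrix (Fin pb.dim) (Fin pb.dim) k := Algebra.leftMulMatrix pb.basis pb.gen
  let MK : Matrix (Fin pb.dim) (Fin pb.dim) K := (algebraMap k K).mapMatrix M
  have h1 : Algebra.norm k (aeval pb.gen g) = (aeval M g).det := by
    rw [Algebra.norm_eq_matrix_det pb.basis]
    have := Polynomial.aeval_algHom_apply (Algebra.leftMulMatrix pb.basis) pb.gen g
    rw [← this]
  have h2 : algebraMap k K (aeval M g).det = (aeval MK (g.map (algebraMap k K))).det := by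
    rw [RingHom.map_det, aeval_map_algebraMap]
    have := Polynomial.aeval_algHom_apply ((Algebra.ofId k K).mapMatrix (m := Fin pb.dim)) M g
    have e1 : (Algebra.ofId k K).mapMatrix M = MK := rfl
    rw [e1] at this
    rw [this]
    rfl
  let φ : K[X] →* K := (Matrix.detMonoidHom).comp ((aeval MK : K[X] →ₐ[K] Matrix (Fin pb.dim) (Fin pb.dim) K) :
    K[X] →* Matrix (Fin pb.dim) (Fin pb.dim) K)
  have hφ : ∀ p, φ p = (aeval MK p).det := fun p => rfl
  have hφC : ∀ c, φ (C c) = c ^ pb.dim := by
    intro c
    rw [hφ, aeval_C, Algebra.algebraMap_eq_smul_one, Matrix.det_smul, Matrix.det_one, mul_one, Fintype.card_fin]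
  have hφX : ∀ c, φ (X - C c) = (-1) ^ pb.dim * ((minpoly k pb.gen).map (algebraMap k K)).eval c := by
    intro c
    rw [hφ, map_sub, aeval_X, aeval_C, ← charpoly_leftMulMatrix pb, ← Matrix.charpoly_map, Matrix.eval_charpoly]
    have e1 : MK - (algebraMap K (Matrix (Fin pb.dim) (Fin pb.dim) K)) c
        = -((Matrix.scalar (Fin pb.dim)) c - M.map (algebraMap k K)) := by
      have : (algebraMap K (Matrix (Fin pb.dim) (Fin pb.dim) K)) c = (Matrix.scalar (Fin pb.dim)) c := rfl
      rw [this]
      have e2 : MK = M.map (algebraMap k K) := rfl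
      rw [e2]
      abel
    rw [e1, Matrix.det_neg, Fintype.card_fin]
  rw [h1, h2, ← hφ, hga, map_mul, map_prod, hφC]
  congr 1
  refine Finset.prod_congr rfl fun i _ => hφX (a i)

end

end Pool.Agent.Helper52.Vojta
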