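import Mathlib
import Pool.Agent.Helper52.Vojta.Window

/-!
Heights and norms of generators through complex embeddings of the base field.
-/

namespace Pool.Agent.Helper52.Vojta

open NumberField Finset Module Polynomial Pool.Agent.Helper64.Vojta

universe u v

section

variable {k : Type u} [Field k] [NumberField k] {L : Type v} [Field L] [NumberField L] [Algebra k L]

open scoped Classical in
omit [NumberField k] in
/-- sums over the infinite places as sums over the complex embeddings -/
theorem sum_mult_eq_sum_embeddings (h : ℝ → ℝ) (y : L) :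
    ∑ w : InfinitePlace L, (w.mult : ℝ) * h (w y) = ∑ φ : L →+* ℂ, h ‖φ y‖ := by
  rw [← Finset.sum_fiberwise (s := Finset.univ) (g := fun φ : L →+* ℂ => InfinitePlace.mk φ)]
  refine Finset.sum_congr rfl fun w _ => ?_
  have h1 : ∀ φ ∈ Finset.univ.filter (fun φ : L →+* ℂ => InfinitePlace.mk φ = w), h ‖φ y‖ = h (w y) := by
    intro φ hφ
    rw [Finset.mem_filter] at hφ
    rw [← hφ.2]; rfl
  rw [Finset.sum_congr rfl h1, Finset.sum_const, InfinitePlace.card_filter_mk_eq, nsmul_eq_mul]

open scoped Classical in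
/-- conjugates over a fixed embedding of the base field -/
theorem map_minpoly_eq_prod (pb : PowerBasis k L) (σ : k →+* ℂ) :
    (minpoly k pb.gen).map σ
      = ∏ φ ∈ Finset.univ.filter (fun φ : L →+* ℂ => φ.comp (algebraMap k L) = σ), (X - C (φ pb.gen)) := by
  let _ : Algebra k ℂ := σ.toAlgebra
  have hσ : algebraMap k ℂ = σ := rfl
  have hint : IsIntegral k pb.gen := pb.isIntegral_gen
  have hfd : FiniteDimensional k L := FiniteDimensional.right ℚ k L
  have h1 : ∏ φ ∈ Finset.univ.filter (fun φ : L →+* ℂ => φ.comp (algebraMap k L) = σ), (X - C (φ pb.gen))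
      = ∏ ψ : L →ₐ[k] ℂ, (X - C (ψ pb.gen)) := by
    refine Finset.prod_bij' (fun φ hφ => (⟨φ, fun a => RingHom.congr_fun (Finset.mem_filter.mp hφ).2 a⟩ :
      L →ₐ[k] ℂ)) (fun ψ _ => ψ.toRingHom) ?_ ?_ ?_ ?_ ?_
    · intro φ _; exact Finset.mem_univ _
    · intro ψ _
      rw [Finset.mem_filter]
      refine ⟨Finset.mem_univ _, ?_⟩
      ext a; exact ψ.commutes a
    · intro φ _; rfl
    · intro ψ _; rfl
    · intro φ _; rfl
  rw [h1]
  have hsep : (minpoly k pb.gen).Separable := (minpoly.irreducible hint).separable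
  have hnd : ((minpoly k pb.gen).map (algebraMap k ℂ)).roots.Nodup := nodup_roots hsep.map
  have h2 : (minpoly k pb.gen).map (algebraMap k ℂ)
      = (((minpoly k pb.gen).map (algebraMap k ℂ)).roots.map fun a => X - C a).prod :=
    (IsAlgClosed.splits _).eq_prod_roots_of_monic ((minpoly.monic hint).map _)
  have h3 : ((minpoly k pb.gen).map (algebraMap k ℂ)).roots.toFinset
      = Finset.univ.image (fun ψ : L →ₐ[k] ℂ => ψ pb.gen) := by
    ext z
    rw [Multiset.mem_toFinset, Finset.mem_image]
    have h4 := Algebra.IsAlgebraic.range_eval_eq_rootSet_minpoly (F := k) (K := L) (A := ℂ) pb.gen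
    constructor
    · intro hz
      have hz' : z ∈ (minpoly k pb.gen).rootSet ℂ := by
        rw [mem_rootSet]
        refine ⟨minpoly.ne_zero hint, ?_⟩
        rw [mem_roots (Polynomial.map_ne_zero (minpoly.ne_zero hint)), IsRoot.def, eval_map_algebraMap] at hz
        exact hz
      rw [← h4] at hz'
      obtain ⟨ψ, hψ⟩ := hz'
      exact ⟨ψ, Finset.mem_univ _, hψ⟩
    · rintro ⟨ψ, _, rfl⟩
      rw [mem_roots (Polynomial.map_ne_zero (minpoly.ne_zero hint)), IsRoot.def, eval_map_algebraMap,
        aeval_algHom_apply, minpoly.aeval, map_zero]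
  rw [← hσ, h2]
  have h5 : ((((minpoly k pb.gen).map (algebraMap k ℂ)).roots.map fun a => X - C a).prod : ℂ[X])
      = ∏ z ∈ ((minpoly k pb.gen).map (algebraMap k ℂ)).roots.toFinset, (X - C z) := by
    rw [Finset.prod, Multiset.toFinset_val, hnd.dedup]
  rw [h5, h3, Finset.prod_image]
  intro ψ _ ψ' _ h
  exact pb.algHom_ext h

open scoped Classical in
/-- the archimedean height of a generator -/
theorem sum_log_max (pb : PowerBasis k L) :
    ∑ w : InfinitePlace L, Real.log (sn (.inl w) (aff pb.gen))
      = ∑ σ : k →+* ℂ, Real.log ((minpoly k pb.gen).map σ).mahlerMeasure := by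
  have hsn : ∀ w : InfinitePlace L, Real.log (sn (.inl w) (aff pb.gen))
      = w.mult * Real.log (max 1 (w pb.gen)) := by
    intro w
    have h1 : sn (.inl w) (aff pb.gen) = (max 1 (w pb.gen)) ^ w.mult := by
      apply le_antisymm
      · refine sn_le _ _ _ (by positivity) ?_
        intro i
        fin_cases i
        · change w pb.gen ^ w.mult ≤ _
          exact pow_le_pow_left₀ (apply_nonneg w _) (le_max_right _ _) _
        · change nv (.inl w) (1 : L) ≤ _
          rw [nv_one]
          exact one_le_pow₀ (le_max_left _ _)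
      · rcases le_total 1 (w pb.gen) with h | h
        · rw [max_eq_right h]
          exact le_sn (.inl w) (aff pb.gen) 0
        · rw [max_eq_left h, one_pow]
          have := le_sn (.inl w) (aff pb.gen) 1
          have e : nv (.inl w) (aff pb.gen 1) = 1 := nv_one _
          rwa [e] at this
    rw [h1, Real.log_pow]
  simp_rw [hsn]
  rw [sum_mult_eq_sum_embeddings (fun t => Real.log (max 1 t)) pb.gen,
    ← Finset.sum_fiberwise (s := Finset.univ) (g := fun φ : L →+* ℂ => φ.comp (algebraMap k L))]
  refine Finset.sum_congr rfl fun σ _ => ?_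
  rw [map_minpoly_eq_prod pb σ]
  have h2 : (∏ φ ∈ Finset.univ.filter (fun φ : L →+* ℂ => φ.comp (algebraMap k L) = σ),
      (X - C (φ pb.gen))).mahlerMeasure
      = ∏ φ ∈ Finset.univ.filter (fun φ : L →+* ℂ => φ.comp (algebraMap k L) = σ), max 1 ‖φ pb.gen‖ := by
    rw [Finset.prod, Finset.prod, prod_mahlerMeasure_eq_mahlerMeasure_prod, Multiset.map_map]
    congr 1
    refine Multiset.map_congr rfl fun φ _ => ?_
    simp only [Function.comp]
    rw [mahlerMeasure_X_sub_C]
  rw [h2, Real.log_prod (fun φ _ => (lt_of_lt_of_le one_pos (le_max_left _ _)).ne')]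

open scoped Classical in
/-- the norm of `a - y` through the minimal polynomial of `y` -/
theorem sum_log_nv_sub (pb : PowerBasis k L) (a : k) (ha : ∀ φ : L →+* ℂ, φ (pb.gen - algebraMap k L a) ≠ 0) :
    ∑ w : InfinitePlace L, Real.log (nv (.inl w) (pb.gen - algebraMap k L a))
      = ∑ σ : k →+* ℂ, Real.log ‖((minpoly k pb.gen).map σ).eval (σ a)‖ := by
  have h1 : ∀ w : InfinitePlace L, Real.log (nv (.inl w) (pb.gen - algebraMap k L a))
      = w.mult * Real.log (w (pb.gen - algebraMap k L a)) := by
    intro w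
    change Real.log (_ ^ w.mult) = _
    rw [Real.log_pow]
  simp_rw [h1]
  rw [sum_mult_eq_sum_embeddings (fun t => Real.log t) (pb.gen - algebraMap k L a),
    ← Finset.sum_fiberwise (s := Finset.univ) (g := fun φ : L →+* ℂ => φ.comp (algebraMap k L))]
  refine Finset.sum_congr rfl fun σ _ => ?_
  rw [map_minpoly_eq_prod pb σ, eval_prod, norm_prod, Real.log_prod]
  · refine Finset.sum_congr rfl fun φ hφ => ?_
    rw [Finset.mem_filter] at hφ
    have : φ (algebraMap k L a) = σ a := RingHom.congr_fun hφ.2 a
    rw [map_sub, this, eval_sub, eval_X, eval_C, norm_sub_rev]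
  · intro φ hφ
    rw [Finset.mem_filter] at hφ
    have h2 : φ (algebraMap k L a) = σ a := RingHom.congr_fun hφ.2 a
    have h3 := ha φ
    rw [map_sub, h2] at h3
    rw [eval_sub, eval_X, eval_C, norm_ne_zero_iff]
    intro h4
    apply h3
    rw [← neg_sub, h4, neg_zero]

end

end Pool.Agent.Helper52.Vojta
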