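import Mathlib
import Pool.Agent.Helper52.Vojta.BaseChange
import Pool.Agent.Helper52.Vojta.Embed

/-!
The local norm formula: for a place `ν` of `k` and `y` in the extension `L` of `k`, the normalised
absolute value of the norm of `y` at `ν` is the product of the normalised absolute values of `y` at
the places of `L` above `ν`.
-/

namespace Pool.Agent.Helper52.Vojta

open NumberField Finset Module Pool.Agent.Helper64.Vojta

universe u v

section

variable {k : Type u} [Field k] [NumberField k] {L : Type v} [Field L] [NumberField L] [Algebra k L]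

open scoped Classical in
/-- the norm through embeddings above a given one -/
theorem norm_eq_prod_above (σ : k →+* ℂ) (y : L) :
    ‖σ (Algebra.norm k y)‖ = ∏ φ ∈ Finset.univ.filter (fun φ : L →+* ℂ => φ.comp (algebraMap k L) = σ), ‖φ y‖ := by
  let _ : Algebra k ℂ := σ.toAlgebra
  have hfd : FiniteDimensional k L := FiniteDimensional.right ℚ k L
  have h0 : σ (Algebra.norm k y) = ∏ ψ : L →ₐ[k] ℂ, ψ y := Algebra.norm_eq_prod_embeddings k ℂ y
  rw [h0, norm_prod]
  symm
  refine Finset.prod_bij' (fun φ hφ => (⟨φ, fun a => RingHom.congr_fun (Finset.mem_filter.mp hφ).2 a⟩ :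
      L →ₐ[k] ℂ)) (fun ψ _ => ψ.toRingHom) ?_ ?_ ?_ ?_ ?_
  · intro φ _; exact Finset.mem_univ _
  · intro ψ _
    rw [Finset.mem_filter]
    refine ⟨Finset.mem_univ _, ?_⟩
    ext a; exact ψ.commutes a
  · intro φ _; rfl
  · intro ψ _; rfl
  · intro φ _; rfl

open scoped Classical in
theorem nv_norm_inf (ν : InfinitePlace k) (y : L) :
    nv (.inl ν) (Algebra.norm k y) = ∏ w ∈ above L (.inl ν : Pl k), nv w y := by
  have h1 : ∏ φ ∈ Finset.univ.filter (fun φ : L →+* ℂ => InfinitePlace.mk (φ.comp (algebraMap k L)) = ν), ‖φ y‖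
      = nv (.inl ν) (Algebra.norm k y) := by
    rw [← Finset.prod_fiberwise_of_maps_to (s := Finset.univ.filter
      (fun φ : L →+* ℂ => InfinitePlace.mk (φ.comp (algebraMap k L)) = ν))
      (t := Finset.univ.filter (fun σ : k →+* ℂ => InfinitePlace.mk σ = ν))
      (g := fun φ : L →+* ℂ => φ.comp (algebraMap k L))]
    · have h2 : ∀ σ ∈ Finset.univ.filter (fun σ : k →+* ℂ => InfinitePlace.mk σ = ν),
          ∏ φ ∈ (Finset.univ.filter (fun φ : L →+* ℂ => InfinitePlace.mk (φ.comp (algebraMap k L)) = ν)).filter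
            (fun φ => φ.comp (algebraMap k L) = σ), ‖φ y‖ = ν (Algebra.norm k y) := by
        intro σ hσ
        rw [Finset.mem_filter] at hσ
        have e1 : (Finset.univ.filter (fun φ : L →+* ℂ => InfinitePlace.mk (φ.comp (algebraMap k L)) = ν)).filter
            (fun φ => φ.comp (algebraMap k L) = σ)
            = Finset.univ.filter (fun φ : L →+* ℂ => φ.comp (algebraMap k L) = σ) := by
          ext φ
          simp only [Finset.mem_filter, Finset.mem_univ, true_and, and_iff_right_iff_imp]
          intro h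
          rw [h, hσ.2]
        rw [e1, ← norm_eq_prod_above σ y, ← hσ.2]
        rfl
      rw [Finset.prod_congr rfl h2, Finset.prod_const, InfinitePlace.card_filter_mk_eq]
      rfl
    · intro φ hφ
      rw [Finset.mem_filter] at hφ ⊢
      exact ⟨Finset.mem_univ _, hφ.2⟩
  rw [← h1]
  have h3 : ∏ w ∈ above L (.inl ν : Pl k), nv w y
      = ∏ w ∈ Finset.univ.filter (fun w : InfinitePlace L => w.comap (algebraMap k L) = ν), w y ^ w.mult := by
    refine Finset.prod_bij' (fun w _ => match w with
      | .inl w => w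
      | .inr _ => (Classical.arbitrary _)) (fun w _ => .inl w) ?_ ?_ ?_ ?_ ?_
    · rintro (w | w) hw
      · rw [Finset.mem_filter]
        exact ⟨Finset.mem_univ _, (@InfinitePlace.LiesOver.comap_eq k L _ _ _ w ν (mem_above.mp hw))⟩
      · exact absurd (mem_above.mp hw) id
    · intro w hw
      rw [Finset.mem_filter] at hw
      rw [mem_above]
      exact ⟨congrArg Subtype.val hw.2⟩
    · rintro (w | w) hw
      · rfl
      · exact absurd (mem_above.mp hw) id
    · intro w hw; rfl
    · rintro (w | w) hw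
      · rfl
      · exact absurd (mem_above.mp hw) id
  rw [h3, ← Finset.prod_fiberwise_of_maps_to (s := Finset.univ.filter
      (fun φ : L →+* ℂ => InfinitePlace.mk (φ.comp (algebraMap k L)) = ν))
      (t := Finset.univ.filter (fun w : InfinitePlace L => w.comap (algebraMap k L) = ν))
      (g := fun φ : L →+* ℂ => InfinitePlace.mk φ)]
  · refine Finset.prod_congr rfl fun w hw => ?_
    rw [Finset.mem_filter] at hw
    have e1 : (Finset.univ.filter (fun φ : L →+* ℂ => InfinitePlace.mk (φ.comp (algebraMap k L)) = ν)).filter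
        (fun φ => InfinitePlace.mk φ = w) = Finset.univ.filter (fun φ : L →+* ℂ => InfinitePlace.mk φ = w) := by
      ext φ
      simp only [Finset.mem_filter, Finset.mem_univ, true_and, and_iff_right_iff_imp]
      intro h
      rw [← InfinitePlace.comap_mk, h, hw.2]
    rw [e1]
    have e2 : ∀ φ ∈ Finset.univ.filter (fun φ : L →+* ℂ => InfinitePlace.mk φ = w), ‖φ y‖ = w y := by
      intro φ hφ
      rw [Finset.mem_filter] at hφ
      rw [← hφ.2]; rfl
    rw [Finset.prod_congr rfl e2, Finset.prod_const, InfinitePlace.card_filter_mk_eq]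
  · intro φ hφ
    rw [Finset.mem_filter] at hφ ⊢
    refine ⟨Finset.mem_univ _, ?_⟩
    rw [InfinitePlace.comap_mk]
    exact hφ.2

open scoped Classical in
theorem multiplicity_relNorm (p : Ideal (𝓞 k)) (hp : p.IsPrime) (hp0 : p ≠ ⊥) (I : Ideal (𝓞 L)) (hI : I ≠ ⊥) :
    (Ideal.absNorm p : ℝ) ^ multiplicity p (Ideal.relNorm (𝓞 k) I)
      = ∏ P ∈ IsDedekindDomain.primesOverFinset p (𝓞 L), (Ideal.absNorm P : ℝ) ^ multiplicity P I := by
  have hpm : p.IsMaximal := hp.isMaximal hp0
  have hpp : Prime p := Ideal.prime_of_isPrime hp0 hp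
  have key : ∀ s : Multiset (Ideal (𝓞 L)), (∀ Q ∈ s, Q.IsPrime ∧ Q ≠ ⊥) → s.prod ≠ ⊥ ∧
      (Ideal.absNorm p : ℝ) ^ multiplicity p (Ideal.relNorm (𝓞 k) s.prod)
      = ∏ P ∈ IsDedekindDomain.primesOverFinset p (𝓞 L), (Ideal.absNorm P : ℝ) ^ multiplicity P s.prod := by
    intro s
    induction s using Multiset.induction_on with
    | empty =>
      intro _
      rw [Multiset.prod_zero]
      refine ⟨by rw [Ideal.one_eq_top]; exact top_ne_bot, ?_⟩
      rw [map_one]
      have h1 : multiplicity p (1 : Ideal (𝓞 k)) = 0 := by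
        rw [multiplicity_eq_zero]
        exact fun h => hpp.not_isUnit (isUnit_of_dvd_one h)
      rw [h1, pow_zero]
      symm
      apply Finset.prod_eq_one
      intro P hP
      rw [IsDedekindDomain.mem_primesOverFinset_iff hp0] at hP
      obtain ⟨hP1, hP2⟩ := hP
      have hPne : P ≠ ⊥ := Ideal.ne_bot_of_liesOver_of_ne_bot hp0 P
      have h2 : multiplicity P (1 : Ideal (𝓞 L)) = 0 := by
        rw [multiplicity_eq_zero]
        exact fun h => (Ideal.prime_of_isPrime hPne hP1).not_isUnit (isUnit_of_dvd_one h)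
      rw [h2, pow_zero]
    | cons Q s ih =>
      intro hs
      obtain ⟨ih0, ih1⟩ := ih fun Q' hQ' => hs Q' (Multiset.mem_cons_of_mem hQ')
      obtain ⟨hQp, hQ0⟩ := hs Q (Multiset.mem_cons_self Q s)
      have hQP : Prime Q := Ideal.prime_of_isPrime hQ0 hQp
      have hQm : Q.IsMaximal := hQp.isMaximal hQ0
      rw [Multiset.prod_cons]
      have hne : Q * s.prod ≠ ⊥ := mul_ne_zero hQ0 ih0
      refine ⟨hne, ?_⟩
      have hR1 : Ideal.relNorm (𝓞 k) Q ≠ 0 := by
        rw [Ne, Ideal.zero_eq_bot, Ideal.relNorm_eq_bot_iff]; exact hQ0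
      have hR2 : Ideal.relNorm (𝓞 k) s.prod ≠ 0 := by
        rw [Ne, Ideal.zero_eq_bot, Ideal.relNorm_eq_bot_iff]; exact ih0
      rw [map_mul, multiplicity_mul hpp (FiniteMultiplicity.of_prime_left hpp (mul_ne_zero hR1 hR2)), pow_add, ih1]
      have h3 : ∀ P ∈ IsDedekindDomain.primesOverFinset p (𝓞 L), (Ideal.absNorm P : ℝ) ^ multiplicity P (Q * s.prod)
          = (Ideal.absNorm P : ℝ) ^ multiplicity P Q * (Ideal.absNorm P : ℝ) ^ multiplicity P s.prod := by
        intro P hP
        rw [IsDedekindDomain.mem_primesOverFinset_iff hp0] at hP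
        obtain ⟨hP1, hP2⟩ := hP
        have hPne : P ≠ ⊥ := Ideal.ne_bot_of_liesOver_of_ne_bot hp0 P
        have hPP := Ideal.prime_of_isPrime hPne hP1
        rw [multiplicity_mul hPP (FiniteMultiplicity.of_prime_left hPP hne), pow_add]
      rw [Finset.prod_congr rfl h3, Finset.prod_mul_distrib]
      congr 1
      -- the prime Q
      set P0 : Ideal (𝓞 k) := Q.under (𝓞 k) with hP0
      have hlies : Q.LiesOver P0 := Ideal.over_under _
      have hP0m : P0.IsMaximal := Ideal.isMaximal_comap_of_isIntegral_of_isMaximal Q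
      have hrel := Ideal.relNorm_eq_pow_of_isMaximal Q P0
      have hP00 : P0 ≠ ⊥ := by
        intro h0
        exact hQ0 (Ideal.eq_bot_of_comap_eq_bot h0)
      have hP0P : Prime P0 := Ideal.prime_of_isPrime hP00 inferInstance
      by_cases hpP0 : p = P0
      · subst hpP0
        have h5 : multiplicity P0 (Ideal.relNorm (𝓞 k) Q) = Q.inertiaDeg (𝓞 k) := by
          rw [hrel]
          exact multiplicity_pow_self hP0P.ne_zero hP0P.not_isUnit _
        have hmem : Q ∈ IsDedekindDomain.primesOverFinset P0 (𝓞 L) :=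
          (IsDedekindDomain.mem_primesOverFinset_iff hp0 _).mpr ⟨hQp, hlies⟩
        rw [h5, Finset.prod_eq_single Q]
        · have h6 : multiplicity Q Q = 1 := by
            have := multiplicity_pow_self hQP.ne_zero hQP.not_isUnit 1
            rwa [pow_one] at this
          rw [h6, pow_one, ← Ideal.absNorm_relNorm (𝓞 k) (𝓞 L) Q, hrel, map_pow]
          push_cast
          rfl
        · intro P hP hPQ
          rw [IsDedekindDomain.mem_primesOverFinset_iff hp0] at hP
          have h7 : multiplicity P Q = 0 := by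
            rw [multiplicity_eq_zero]
            intro hdvd
            have hle : Q ≤ P := Ideal.dvd_iff_le.mp hdvd
            exact hPQ (hQm.eq_of_le hP.1.ne_top hle).symm
          rw [h7, pow_zero]
        · intro h; exact absurd hmem h
      · have h5 : multiplicity p (Ideal.relNorm (𝓞 k) Q) = 0 := by
          rw [multiplicity_eq_zero, hrel]
          intro hdvd
          have h6 := hpp.dvd_of_dvd_pow hdvd
          have hle : P0 ≤ p := Ideal.dvd_iff_le.mp h6
          exact hpP0 (hP0m.eq_of_le hp.ne_top hle).symm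
        rw [h5, pow_zero]
        symm
        apply Finset.prod_eq_one
        intro P hP
        rw [IsDedekindDomain.mem_primesOverFinset_iff hp0] at hP
        have h7 : multiplicity P Q = 0 := by
          rw [multiplicity_eq_zero]
          intro hdvd
          have hle : Q ≤ P := Ideal.dvd_iff_le.mp hdvd
          have hPQ := hQm.eq_of_le hP.1.ne_top hle
          apply hpP0
          rw [hP0, hPQ]
          exact hP.2.over
        rw [h7, pow_zero]
  have h := (key (UniqueFactorizationMonoid.normalizedFactors I) (by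
    intro Q hQ
    have hQ' : Q ≠ ⊥ := UniqueFactorizationMonoid.ne_zero_of_mem_normalizedFactors hQ
    rw [Ideal.mem_normalizedFactors_iff hI] at hQ
    exact ⟨hQ.1, hQ'⟩)).2
  rwa [Ideal.prod_normalizedFactors_eq_self hI] at h

open scoped Classical in
/-- the places above a finite place and the primes above its prime -/
theorem prod_above_inr (ν : FinitePlace k) (f : Ideal (𝓞 L) → ℝ) (g : Pl L → ℝ)
    (h : ∀ w : FinitePlace L, g (.inr w) = f w.maximalIdeal.asIdeal) :
    ∏ w ∈ above L (.inr ν : Pl k), g w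
      = ∏ P ∈ IsDedekindDomain.primesOverFinset ν.maximalIdeal.asIdeal (𝓞 L), f P := by
  have hne : ν.maximalIdeal.asIdeal ≠ ⊥ := ν.maximalIdeal.ne_bot
  refine Finset.prod_bij (fun w _ => match w with
    | .inl _ => ⊥
    | .inr w => w.maximalIdeal.asIdeal) ?_ ?_ ?_ ?_
  · rintro (w | w) hw
    · exact absurd (mem_above.mp hw) id
    · exact (IsDedekindDomain.mem_primesOverFinset_iff hne _).mpr
        ⟨w.maximalIdeal.isPrime, mem_above.mp hw⟩
  · rintro (w | w) hw (w' | w') hw' h
    · exact absurd (mem_above.mp hw) id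
    · exact absurd (mem_above.mp hw) id
    · exact absurd (mem_above.mp hw') id
    · have : w = w' := by
        rw [← FinitePlace.maximalIdeal_inj]
        exact IsDedekindDomain.HeightOneSpectrum.ext h
      rw [this]
  · intro P hP
    rw [IsDedekindDomain.mem_primesOverFinset_iff hne] at hP
    obtain ⟨hP1, hP2⟩ := hP
    have hPne : P ≠ ⊥ := Ideal.ne_bot_of_liesOver_of_ne_bot hne P
    let Q : IsDedekindDomain.HeightOneSpectrum (𝓞 L) := ⟨P, hP1, hPne⟩
    refine ⟨.inr (FinitePlace.mk Q), ?_, ?_⟩
    · rw [mem_above]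
      change (FinitePlace.mk Q).maximalIdeal.asIdeal.LiesOver _
      rw [FinitePlace.maximalIdeal_mk]
      exact hP2
    · change (FinitePlace.mk Q).maximalIdeal.asIdeal = P
      rw [FinitePlace.maximalIdeal_mk]
  · rintro (w | w) hw
    · exact absurd (mem_above.mp hw) id
    · exact h w

theorem nv_norm_fin_int (ν : FinitePlace k) (y : 𝓞 L) (hy : y ≠ 0) :
    nv (.inr ν) (Algebra.norm k (y : L)) = ∏ w ∈ above L (.inr ν : Pl k), nv w (y : L) := by
  classical
  have hspan : Ideal.span {y} ≠ ⊥ := mt Ideal.span_singleton_eq_bot.mp hy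
  have h1 := multiplicity_relNorm ν.maximalIdeal.asIdeal ν.maximalIdeal.isPrime ν.maximalIdeal.ne_bot
    (Ideal.span {y}) hspan
  have hrel : Ideal.relNorm (𝓞 k) (Ideal.span {y}) = Ideal.span {Algebra.intNorm (𝓞 k) (𝓞 L) y} :=
    Ideal.relNorm_singleton (𝓞 k) y
  have hnorm : ((Algebra.intNorm (𝓞 k) (𝓞 L) y : 𝓞 k) : k) = Algebra.norm k (y : L) :=
    Algebra.algebraMap_intNorm (A := 𝓞 k) (K := k) (L := L) (B := 𝓞 L) y
  have hn0 : Algebra.intNorm (𝓞 k) (𝓞 L) y ≠ 0 := by
    intro h0
    rw [h0] at hnorm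
    have h2 : Algebra.norm k (y : L) = 0 := by rw [← hnorm]; simp
    rw [Algebra.norm_eq_zero_iff] at h2
    exact hy (by exact_mod_cast h2)
  have h2 := FinitePlace.apply_mul_absNorm_pow_eq_one ν hn0
  rw [hnorm, ← hrel, h1] at h2
  have h3 : ∏ w ∈ above L (.inr ν : Pl k), nv w (y : L)
      = ∏ P ∈ IsDedekindDomain.primesOverFinset ν.maximalIdeal.asIdeal (𝓞 L),
        ((Ideal.absNorm P : ℝ) ^ multiplicity P (Ideal.span {y}))⁻¹ := by
    apply prod_above_inr
    intro w
    have h4 := FinitePlace.apply_mul_absNorm_pow_eq_one w hy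
    exact eq_inv_of_mul_eq_one_left h4
  rw [h3, Finset.prod_inv_distrib]
  exact eq_inv_of_mul_eq_one_left h2

theorem nv_norm (ν : Pl k) (y : L) :
    nv ν (Algebra.norm k y) = ∏ w ∈ above L ν, nv w y := by
  classical
  have hfd : FiniteDimensional k L := FiniteDimensional.right ℚ k L
  rcases ν with ν | ν
  · exact nv_norm_inf ν y
  · rcases eq_or_ne y 0 with rfl | hy
    · rw [Algebra.norm_zero, nv_zero]
      symm
      have hne : (above L (.inr ν : Pl k)).Nonempty := by
        have h1 := sum_ldeg (L' := L) (.inr ν : Pl k)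
        rw [Finset.nonempty_iff_ne_empty]
        intro h0
        rw [h0, Finset.sum_empty] at h1
        exact (finrank_pos (R := k) (M := L)).ne h1
      obtain ⟨w, hw⟩ := hne
      exact Finset.prod_eq_zero hw (nv_zero w)
    · obtain ⟨a, b, hb, rfl⟩ := IsFractionRing.div_surjective (A := 𝓞 L) y
      have hb0 : b ≠ 0 := nonZeroDivisors.ne_zero hb
      have ha0 : a ≠ 0 := by
        rintro rfl
        simp at hy
      have h1 := nv_norm_fin_int (k := k) ν a ha0
      have h2 := nv_norm_fin_int (k := k) ν b hb0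
      have e1 : (algebraMap (𝓞 L) L a) / (algebraMap (𝓞 L) L b) = (a : L) * (b : L)⁻¹ := div_eq_mul_inv _ _
      have hb' : (b : L) ≠ 0 := by exact_mod_cast hb0
      have e2 : Algebra.norm k ((b : L)⁻¹) = (Algebra.norm k (b : L))⁻¹ :=
        eq_inv_of_mul_eq_one_left (by rw [← map_mul, inv_mul_cancel₀ hb', map_one])
      rw [e1, map_mul, nv_mul, h1, e2, nv_inv, h2, ← Finset.prod_inv_distrib, ← Finset.prod_mul_distrib]
      refine Finset.prod_congr rfl fun w _ => ?_
      rw [nv_mul, nv_inv]

end

end Pool.Agent.Helper52.Vojta
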