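import Mathlib
import Pool.Agent.Helper52.Vojta.Divisor

/-!
Divisors which split over the base field.
-/

namespace Pool.Agent.Helper52.Vojta

open NumberField Finset Module Polynomial Pool.Agent.Helper64.Vojta

universe u v

section

theorem exists_pad {k : Type u} [Field k] [Infinite k] {n : ℕ} (a : Fin n → k) (ha : Function.Injective a) (d : ℕ) :
    ∃ a' : Fin (n + d) → k, Function.Injective a' ∧ ∀ i, a' (Fin.castAdd d i) = a i := by
  classical
  have hinf : ((Set.range a)ᶜ : Set k).Infinite := (Set.finite_range a).infinite_compl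
  let e := hinf.natEmbedding
  refine ⟨Fin.append a (fun j => (e j : k)), ?_, fun i => Fin.append_left _ _ i⟩
  rw [Fin.append_injective_iff]
  refine ⟨ha, ?_, ?_⟩
  · intro i j h
    exact Fin.ext (e.injective (Subtype.ext h))
  · intro i j h
    exact (e j).2 ⟨i, h⟩

variable {k : Type u} [Field k] [NumberField k]

theorem exists_roots {g : k[X]} (hg : Squarefree g) (hsp : g.Splits) :
    ∃ a : Fin g.natDegree → k, Function.Injective a ∧ g = C g.leadingCoeff * ∏ i, (X - C (a i)) := by
  classical
  have hg0 : g ≠ 0 := hg.ne_zero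
  have hsep : g.Separable := PerfectField.separable_iff_squarefree.mpr hg
  have hnd : g.roots.Nodup := nodup_roots hsep
  have hcard : g.roots.toFinset.card = g.natDegree := by
    rw [Multiset.toFinset_card_of_nodup hnd, ← hsp.natDegree_eq_card_roots]
  let e : Fin g.natDegree ≃ g.roots.toFinset := (Finset.equivFinOfCardEq hcard).symm
  refine ⟨fun i => (e i : k), ?_, ?_⟩
  · intro i j h
    exact e.injective (Subtype.ext h)
  · have h1 : g = C g.leadingCoeff * (g.roots.map fun a => X - C a).prod := hsp.eq_prod_roots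
    refine h1.trans ?_
    congr 1
    have h3 : (g.roots.map fun a => X - C a).prod = ∏ a ∈ g.roots.toFinset, (X - C a) := by
      rw [Finset.prod, Multiset.toFinset_val, hnd.dedup]
    rw [h3, ← Finset.prod_coe_sort]
    exact (Equiv.prod_comp e (fun a : g.roots.toFinset => (X - C (a : k)))).symm

theorem dloc_le_sum {n : ℕ} {a : Fin n → k} {g : k[X]} {c0 : k} (hc0 : c0 ≠ 0)
    (hga : g = C c0 * ∏ i, (X - C (a i))) (d : ℕ) {a' : Fin (n + d) → k} (haa : ∀ i, a' (Fin.castAdd d i) = a i)
    {q : ℕ} (hq : n ≤ q) (r : ℕ) : ∃ C : ℝ, 0 ≤ C ∧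
    ∀ (L : Type v) [Field L] [NumberField L] [Algebra k L], finrank k L ≤ r → ∀ (w : Pl L) (y : L),
      (∀ i, y - algebraMap k L (a' i) ≠ 0) →
      dloc g q w y ≤ ∑ i, loc w (cst (frm a' (q + d) i)) (aff y) + C := by
  obtain ⟨B, hB1, hB⟩ := exists_bound.{u, v} c0⁻¹ r
  obtain ⟨C2, hC20, hC2⟩ := loc_lower.{u, v} (frm a' (n + d)) r
  refine ⟨Real.log B + d * C2, by have := Real.log_nonneg hB1; positivity, ?_⟩
  intro L _ _ _ hr w y hy
  have hc0' : algebraMap k L c0 ≠ 0 := by simpa using hc0
  have hloc : ∀ i : Fin (n + d), -C2 ≤ Real.log (sn w (aff y)) - Real.log (nv w (y - algebraMap k L (a' i))) := by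
    intro i
    have h1 := hC2 L hr w (aff y) (aff_ne_zero y) i (by
      rw [ev_frm, dif_pos i.2]
      exact hy i)
    unfold loc at h1
    rw [ev_frm, dif_pos i.2] at h1
    exact h1
  have hval : aeval y g = algebraMap k L c0 * ∏ i, (y - algebraMap k L (a i)) := by
    rw [hga, map_mul, aeval_C, map_prod]
    congr 1
    refine Finset.prod_congr rfl fun i _ => ?_
    rw [map_sub, aeval_X, aeval_C]
  have hyi : ∀ i : Fin n, y - algebraMap k L (a i) ≠ 0 := fun i => by
    rw [← haa i]; exact hy _
  have hprod : ∏ i, (y - algebraMap k L (a i)) ≠ 0 := Finset.prod_ne_zero_iff.mpr fun i _ => hyi i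
  have hlogprod : Real.log (nv w (∏ i, (y - algebraMap k L (a i)))) = ∑ i, Real.log (nv w (y - algebraMap k L (a i))) := by
    let f : L →* ℝ := ⟨⟨nv w, nv_one w⟩, nv_mul w⟩
    have h1 : nv w (∏ i, (y - algebraMap k L (a i))) = ∏ i, nv w (y - algebraMap k L (a i)) :=
      map_prod f (fun i => y - algebraMap k L (a i)) Finset.univ
    rw [h1, Real.log_prod (fun i _ => (nv_pos w (hyi i)).ne')]
  have hc : -Real.log (nv w (algebraMap k L c0)) ≤ Real.log B := by
    have h1 := hB L hr w
    rw [map_inv₀, nv_inv] at h1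
    rw [← Real.log_inv]
    exact Real.log_le_log (inv_pos.mpr (nv_pos w hc0')) h1
  rw [sum_loc_frm a' (by omega : n + d ≤ q + d) w y, Fin.sum_univ_add]
  unfold dloc
  rw [hval, nv_mul, Real.log_mul (nv_pos w hc0').ne' (nv_pos w hprod).ne', hlogprod]
  have h1 : ∑ i : Fin n, Real.log (nv w (y - algebraMap k L (a' (Fin.castAdd d i))))
      = ∑ i, Real.log (nv w (y - algebraMap k L (a i))) :=
    Finset.sum_congr rfl fun i _ => by rw [haa i]
  have h2 : ∑ j : Fin d, Real.log (nv w (y - algebraMap k L (a' (Fin.natAdd n j))))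
      ≤ d * (Real.log (sn w (aff y)) + C2) := by
    have h3 : ∀ j ∈ (Finset.univ : Finset (Fin d)), Real.log (nv w (y - algebraMap k L (a' (Fin.natAdd n j))))
        ≤ Real.log (sn w (aff y)) + C2 := fun j _ => by
      have := hloc (Fin.natAdd n j)
      linarith
    have h4 := Finset.sum_le_card_nsmul _ _ _ h3
    rw [Finset.card_univ, Fintype.card_fin, nsmul_eq_mul] at h4
    exact h4
  rw [h1]
  push_cast
  linarith

end

end Pool.Agent.Helper52.Vojta
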