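import Mathlib
import Pool.Agent.Helper52.Vojta.Divisor
import Pool.Agent.Helper52.Vojta.Embed

/-!
Lower bound for the contribution of a divisor containing `0`, `1`, `∞` at integral points.
-/

namespace Pool.Agent.Helper52.Vojta

open NumberField Finset Module Polynomial Pool.Agent.Helper64.Vojta

universe u v

section

variable {k : Type u} [Field k] [NumberField k]

theorem one_le_sn_aff {L : Type*} [Field L] [NumberField L] (w : Pl L) (y : L) : 1 ≤ sn w (aff y) := by
  have := le_sn w (aff y) 1
  have e : nv w (aff y 1) = 1 := nv_one w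
  rwa [e] at this

theorem nv_le_sn_aff {L : Type*} [Field L] [NumberField L] (w : Pl L) (y : L) : nv w y ≤ sn w (aff y) :=
  le_sn w (aff y) 0

theorem nv_pow {L : Type*} [Field L] [NumberField L] (w : Pl L) (y : L) (n : ℕ) :
    nv w (y ^ n) = nv w y ^ n := by
  let f : L →* ℝ := ⟨⟨nv w, nv_one w⟩, nv_mul w⟩
  exact map_pow f y n

/-- values of a polynomial are bounded by the power of the size of the argument -/
theorem poly_loc_lower (g : k[X]) (r : ℕ) : ∃ C : ℝ, 0 ≤ C ∧
    ∀ (L : Type v) [Field L] [NumberField L] [Algebra k L], finrank k L ≤ r →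
    ∀ (w : Pl L) (y : L), aeval y g ≠ 0 →
      -C ≤ g.natDegree * Real.log (sn w (aff y)) - Real.log (nv w (aeval y g)) := by
  obtain ⟨B, hB1, hB⟩ := exists_bound_fin.{u, v} (fun i : Fin (g.natDegree + 1) => g.coeff i) r
  have hd : (0 : ℝ) ≤ g.natDegree := Nat.cast_nonneg _
  refine ⟨Real.log (((g.natDegree : ℝ) + 1 + 1) ^ 2 * B), Real.log_nonneg (by nlinarith), ?_⟩
  intro L _ _ _ hr w y hy
  have hs := one_le_sn_aff w y
  have hs0 : 0 < sn w (aff y) := by linarith
  have h1 : aeval y g = ∑ i : Fin (g.natDegree + 1), algebraMap k L (g.coeff i) * y ^ (i : ℕ) := by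
    rw [aeval_eq_sum_range, Finset.sum_range]
    exact Finset.sum_congr rfl fun i _ => by rw [Algebra.smul_def]
  have h2 := nv_sum_le w Finset.univ (fun i : Fin (g.natDegree + 1) => algebraMap k L (g.coeff i) * y ^ (i : ℕ))
    (B * sn w (aff y) ^ g.natDegree) (by positivity) (fun i _ => by
      rw [nv_mul, nv_pow]
      refine mul_le_mul (hB L hr w i) ?_ (pow_nonneg (nv_nonneg _ _) _) (by linarith)
      calc nv w y ^ (i : ℕ) ≤ sn w (aff y) ^ (i : ℕ) := pow_le_pow_left₀ (nv_nonneg _ _) (nv_le_sn_aff w y) _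
        _ ≤ sn w (aff y) ^ g.natDegree := pow_le_pow_right₀ hs (by omega))
  rw [← h1, Finset.card_univ, Fintype.card_fin] at h2
  have h3 := Real.log_le_log (nv_pos w hy) h2
  rw [← mul_assoc, Real.log_mul (by positivity) (by positivity), Real.log_pow] at h3
  push_cast at h3
  linarith

/-- the height of an integral point -/
theorem logHeight_integral {L : Type*} [Field L] [NumberField L] (y : 𝓞 L) :
    Height.logHeight (aff (y : L)) = ∑ w : InfinitePlace L, Real.log (sn (.inl w) (aff (y : L))) := by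
  rw [logHeight_eq (aff_ne_zero _)]
  have : ∀ w : FinitePlace L, Real.log (sn (.inr w) (aff (y : L))) = 0 := by
    intro w
    have h1 : sn (.inr w) (aff (y : L)) = 1 := by
      apply le_antisymm
      · refine sn_le _ _ _ zero_le_one fun i => ?_
        fin_cases i
        · exact nv_int_le_one w y
        · exact (nv_one _).le
      · exact one_le_sn_aff _ _
    rw [h1, Real.log_one]
  simp_rw [this]
  rw [finsum_zero, add_zero]

theorem sum_dloc_lower (g1 : k[X]) (r : ℕ) : ∃ C : ℝ, 0 ≤ C ∧
    ∀ (L : Type v) [Field L] [NumberField L] [Algebra k L], finrank k L ≤ r →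
    ∀ (W : Finset (Pl L)), (∀ w : InfinitePlace L, Sum.inl w ∈ W) → ∀ y : 𝓞 L,
      aeval (y : L) (X * (X - 1) * g1) ≠ 0 →
      3 * Height.logHeight (aff (y : L)) - ∑ w : InfinitePlace L, Real.log (nv (.inl w) (y : L))
        - ∑ w : InfinitePlace L, Real.log (nv (.inl w) ((y : L) - 1)) - C * W.card
        ≤ ∑ w ∈ W, dloc (X * (X - 1) * g1) (g1.natDegree + 3) w (y : L) := by
  classical
  obtain ⟨C, hC0, hC⟩ := poly_loc_lower.{u, v} g1 r
  refine ⟨C, hC0, ?_⟩
  intro L _ _ _ hr W hW y hy
  have hval : aeval (y : L) (X * (X - 1) * g1) = (y : L) * ((y : L) - 1) * aeval (y : L) g1 := by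
    simp
  have hy0 : (y : L) ≠ 0 := by rintro h; rw [hval, h] at hy; simp at hy
  have hy1 : (y : L) - 1 ≠ 0 := by rintro h; rw [hval, h] at hy; simp at hy
  have hg : aeval (y : L) g1 ≠ 0 := by rintro h; rw [hval, h] at hy; simp at hy
  let f : Pl L → ℝ := fun w => 3 * Real.log (sn w (aff (y : L))) - Real.log (nv w (y : L))
    - Real.log (nv w ((y : L) - 1))
  have h1 : ∀ w : Pl L, f w - C ≤ dloc (X * (X - 1) * g1) (g1.natDegree + 3) w (y : L) := by
    intro w
    unfold dloc
    rw [hval, nv_mul, nv_mul, Real.log_mul (mul_pos (nv_pos w hy0) (nv_pos w hy1)).ne' (nv_pos w hg).ne',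
      Real.log_mul (nv_pos w hy0).ne' (nv_pos w hy1).ne']
    have := hC L hr w (y : L) hg
    push_cast
    simp only [f]
    linarith
  have h2 : ∀ w : FinitePlace L, 0 ≤ f (.inr w) := by
    intro w
    have e1 := one_le_sn_aff (.inr w) (y : L)
    have e2 := Real.log_nonneg e1
    have e3 : Real.log (nv (.inr w) (y : L)) ≤ 0 := Real.log_nonpos (nv_nonneg _ _) (nv_int_le_one w y)
    have e4 : Real.log (nv (.inr w) ((y : L) - 1)) ≤ 0 := by
      apply Real.log_nonpos (nv_nonneg _ _)
      have := nv_int_le_one w (y - 1)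
      simpa using this
    simp only [f]
    linarith
  have h3 : ∑ w : InfinitePlace L, f (.inl w) ≤ ∑ w ∈ W, f w := by
    rw [← Finset.toLeft_disjSum_toRight (u := W), Finset.sum_disjSum]
    have e1 : W.toLeft = Finset.univ := by
      ext w; simp [hW w]
    rw [e1]
    have : 0 ≤ ∑ w ∈ W.toRight, f (.inr w) := Finset.sum_nonneg fun w _ => h2 w
    linarith
  have h4 : ∑ w : InfinitePlace L, f (.inl w) = 3 * Height.logHeight (aff (y : L))
      - ∑ w : InfinitePlace L, Real.log (nv (.inl w) (y : L))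
      - ∑ w : InfinitePlace L, Real.log (nv (.inl w) ((y : L) - 1)) := by
    rw [logHeight_integral]
    simp only [f]
    rw [Finset.sum_sub_distrib, Finset.sum_sub_distrib, Finset.mul_sum]
  have h5 := Finset.sum_le_sum (s := W) fun w _ => h1 w
  rw [Finset.sum_sub_distrib, Finset.sum_const, nsmul_eq_mul] at h5
  linarith

end

end Pool.Agent.Helper52.Vojta
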