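import Mathlib
import Pool.Agent.Helper52.Vojta.Gap

/-!
Counting non-zero integers of a number field in boxes, with conditions at finitely many places, by
packing and the product formula.
-/

namespace Pool.Agent.Helper52.Vojta

open NumberField Module Finset Pool.Agent.Helper64.Vojta

section

variable {K : Type*} [Field K] [NumberField K]

/-- non-zero integers with prescribed bounds at the places of `W` -/
def box (W : Finset (Pl K)) (b : Pl K → ℝ) : Set (𝓞 K) :=
  {z | z ≠ 0 ∧ ∀ w ∈ W, nv w (z : K) ≤ Real.exp (b w)}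

theorem sum_log_nonneg (W : Finset (Pl K)) (hW : ∀ v : InfinitePlace K, Sum.inl v ∈ W) {z : 𝓞 K}
    (hz : z ≠ 0) : 0 ≤ ∑ w ∈ W, Real.log (nv w (z : K)) := by
  classical
  have hz' : (z : K) ≠ 0 := by exact_mod_cast hz
  have h1 := product_formula_log hz'
  have hfin : (Function.support fun w : FinitePlace K => Real.log (nv (.inr w) (z : K))).Finite :=
    log_support _ (fin_support_nv hz')
  have hle : ∀ w : FinitePlace K, Real.log (nv (.inr w) (z : K)) ≤ 0 := fun w =>
    Real.log_nonpos (nv_nonneg _ _) (nv_int_le_one w z)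
  have h2 : ∑ᶠ w : FinitePlace K, Real.log (nv (.inr w) (z : K)) ≤ ∑ w ∈ W.toRight, Real.log (nv (.inr w) (z : K)) := by
    rw [finsum_eq_sum_of_support_subset _ (s := hfin.toFinset ∪ W.toRight) (by
      intro w hw
      simp only [Finset.coe_union, Set.Finite.coe_toFinset, Set.mem_union]
      exact Or.inl hw)]
    rw [← Finset.sum_sdiff (Finset.subset_union_right (s₁ := hfin.toFinset) (s₂ := W.toRight))]
    have : ∑ w ∈ (hfin.toFinset ∪ W.toRight) \ W.toRight, Real.log (nv (.inr w) (z : K)) ≤ 0 :=
      Finset.sum_nonpos fun w _ => hle w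
    linarith
  rw [← Finset.toLeft_disjSum_toRight (u := W), Finset.sum_disjSum]
  have e1 : W.toLeft = Finset.univ := by
    ext w; simp [hW w]
  rw [e1]
  linarith

open scoped Classical in
/-- the cell of an integer -/
noncomputable def cellB (ρ : InfinitePlace K → ℝ) (β : 𝓞 K) (v : InfinitePlace K) : ℤ × ℤ :=
  (⌊(v.embedding β).re / ρ v⌋, if v.IsReal then 0 else ⌊(v.embedding β).im / ρ v⌋)

theorem cellB_close {ρ : InfinitePlace K → ℝ} (hρ : ∀ v, 0 < ρ v) {β γ : 𝓞 K} (h : cellB ρ β = cellB ρ γ)
    (v : InfinitePlace K) : v ((β - γ : 𝓞 K) : K) < 2 * ρ v := by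
  have hv := congrFun h v
  simp only [cellB, Prod.mk.injEq] at hv
  obtain ⟨h1, h2⟩ := hv
  have h3 : |(v.embedding β).re / ρ v - (v.embedding γ).re / ρ v| < 1 := Int.abs_sub_lt_one_of_floor_eq_floor h1
  have h4 : |(v.embedding β).im / ρ v - (v.embedding γ).im / ρ v| < 1 := by
    by_cases hr : v.IsReal
    · have e1 : ∀ x : K, (v.embedding x).im = 0 := by
        intro x
        have := InfinitePlace.isReal_iff.mp hr
        have h5 := ComplexEmbedding.IsReal.coe_embedding_apply this x
        rw [← h5]; exact Complex.ofReal_im _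
      rw [e1, e1]; norm_num
    · rw [if_neg hr, if_neg hr] at h2
      exact Int.abs_sub_lt_one_of_floor_eq_floor h2
  have h5 : v ((β - γ : 𝓞 K) : K) = ‖v.embedding β - v.embedding γ‖ := by
    rw [← InfinitePlace.norm_embedding_eq v, ← map_sub]
    rfl
  rw [h5]
  set z := v.embedding β - v.embedding γ with hz
  have h6 : |z.re| < ρ v := by
    have : (v.embedding β).re / ρ v - (v.embedding γ).re / ρ v = z.re / ρ v := by
      rw [hz, Complex.sub_re]; ring
    rw [this, abs_div, abs_of_pos (hρ v), div_lt_one (hρ v)] at h3; exact h3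
  have h7 : |z.im| < ρ v := by
    have : (v.embedding β).im / ρ v - (v.embedding γ).im / ρ v = z.im / ρ v := by
      rw [hz, Complex.sub_im]; ring
    rw [this, abs_div, abs_of_pos (hρ v), div_lt_one (hρ v)] at h4; exact h4
  calc ‖z‖ ≤ |z.re| + |z.im| := Complex.norm_le_abs_re_add_abs_im z
    _ < 2 * ρ v := by linarith

open scoped Classical in
theorem box_card (W : Finset (Pl K)) (hW : ∀ v : InfinitePlace K, Sum.inl v ∈ W) (b : Pl K → ℝ) :
    (box W b).Finite ∧ ((box W b).ncard : ℝ) ≤ 9 ^ finrank ℚ K * Real.exp (∑ w ∈ W, b w) := by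
  set n := finrank ℚ K with hn
  have hn0 : 0 < n := finrank_pos
  have hnr : (0 : ℝ) < n := by exact_mod_cast hn0
  set s := ∑ w ∈ W, b w with hs
  have hupper : ∀ z ∈ box W b, ∑ w ∈ W, Real.log (nv w (z : K)) ≤ s := by
    rintro z ⟨hz0, hz⟩
    refine Finset.sum_le_sum fun w hw => ?_
    have hz' : (z : K) ≠ 0 := by exact_mod_cast hz0
    rw [Real.log_le_iff_le_exp (nv_pos w hz')]
    exact hz w hw
  rcases lt_or_ge s 0 with hs0 | hs0
  · have hemp : box W b = ∅ := by
      rw [Set.eq_empty_iff_forall_notMem]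
      intro z hz
      have h1 := hupper z hz
      have h2 := sum_log_nonneg W hW hz.1
      linarith
    rw [hemp]
    refine ⟨Set.finite_empty, ?_⟩
    rw [Set.ncard_empty]
    push_cast
    positivity
  set E := Real.exp (s / n) with hE
  have hE1 : 1 ≤ E := Real.one_le_exp (div_nonneg hs0 hnr.le)
  set τ : ℝ := 1 / (3 * E) with hτ
  have hτ0 : 0 < τ := by positivity
  let ρ : InfinitePlace K → ℝ := fun v => τ * Real.exp (b (.inl v) / v.mult)
  have hρ : ∀ v, 0 < ρ v := fun v => by positivity
  have hmult : ∀ v : InfinitePlace K, (0 : ℝ) < v.mult := fun v => by exact_mod_cast v.mult_pos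
  have hinj : Set.InjOn (cellB ρ) (box W b) := by
    intro z hz z' hz' h
    by_contra hne
    have hd : z - z' ≠ 0 := sub_ne_zero.mpr hne
    have hd' : ((z - z' : 𝓞 K) : K) ≠ 0 := by exact_mod_cast hd
    have h1 := sum_log_nonneg W hW hd
    have h2 : ∀ w ∈ W, Real.log (nv w ((z - z' : 𝓞 K) : K)) ≤
        b w + (match w with
          | .inl v => (v.mult : ℝ) * Real.log (2 * τ)
          | .inr _ => 0) := by
      rintro (v | v) hv
      · change Real.log (v ((z - z' : 𝓞 K) : K) ^ v.mult) ≤ _
        have hpos : 0 < v ((z - z' : 𝓞 K) : K) := InfinitePlace.pos_iff.mpr hd'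
        rw [Real.log_pow]
        have h3 := (cellB_close hρ h v).le
        have h4 := Real.log_le_log hpos h3
        have h5 : Real.log (2 * ρ v) = Real.log (2 * τ) + b (.inl v) / v.mult := by
          simp only [ρ]
          rw [← mul_assoc, Real.log_mul (by positivity) (Real.exp_pos _).ne', Real.log_exp]
        rw [h5] at h4
        have h6 := mul_le_mul_of_nonneg_left h4 (hmult v).le
        have h7 : (v.mult : ℝ) * (Real.log (2 * τ) + b (.inl v) / v.mult)
            = b (.inl v) + v.mult * Real.log (2 * τ) := by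
          have := (hmult v).ne'
          field_simp
          ring
        rw [h7] at h6
        exact h6
      · rw [Real.log_le_iff_le_exp (nv_pos _ hd')]
        simp only [add_zero]
        have h3 := nv_sub_le_inr v (z : K) (z' : K)
        have h4 : ((z - z' : 𝓞 K) : K) = (z : K) - (z' : K) := by push_cast; rfl
        rw [h4]
        exact h3.trans (max_le (hz.2 _ hv) (hz'.2 _ hv))
    have h3 := Finset.sum_le_sum h2
    rw [Finset.sum_add_distrib] at h3
    have h4 : ∑ w ∈ W, (match w with
          | .inl v => (v.mult : ℝ) * Real.log (2 * τ)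
          | .inr _ => 0) = n * Real.log (2 * τ) := by
      rw [← Finset.toLeft_disjSum_toRight (u := W), Finset.sum_disjSum]
      have e1 : W.toLeft = Finset.univ := by
        ext w; simp [hW w]
      rw [e1, Finset.sum_const_zero, add_zero, ← Finset.sum_mul, hn, ← InfinitePlace.sum_mult_eq]
      push_cast
      rfl
    rw [h4] at h3
    have h5 : Real.log (2 * τ) = Real.log (2 / 3) - s / n := by
      have : 2 * τ = (2 / 3) / E := by rw [hτ]; field_simp
      rw [this, Real.log_div (by norm_num) (by positivity), hE, Real.log_exp]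
    have h6 : Real.log (2 / 3) < 0 := Real.log_neg (by norm_num) (by norm_num)
    rw [h5] at h3
    have h7 : (n : ℝ) * (Real.log (2 / 3) - s / n) = n * Real.log (2 / 3) - s := by
      field_simp
    rw [h7] at h3
    have h8 := mul_neg_of_pos_of_neg hnr h6
    linarith
  set R : ℝ := 3 * E with hR
  set M : ℤ := ⌊R⌋ + 1 with hM
  let T : Finset (InfinitePlace K → ℤ × ℤ) := Fintype.piFinset fun v =>
    (Finset.Icc (-M) M) ×ˢ (if v.IsReal then {0} else Finset.Icc (-M) M)
  have hfloor : ∀ t : ℝ, |t| ≤ R → ⌊t⌋ ∈ Finset.Icc (-M) M := by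
    intro t ht
    rw [abs_le] at ht
    rw [Finset.mem_Icc]
    constructor
    · rw [Int.le_floor, hM]
      push_cast
      have := Int.lt_floor_add_one R
      linarith
    · have : ⌊t⌋ ≤ ⌊R⌋ := Int.floor_le_floor ht.2
      omega
  have hsize : ∀ z ∈ box W b, ∀ v : InfinitePlace K, ‖v.embedding (z : K)‖ / ρ v ≤ R := by
    rintro z ⟨hz0, hz⟩ v
    have hz' : (z : K) ≠ 0 := by exact_mod_cast hz0
    have h1 := hz (.inl v) (hW v)
    change v (z : K) ^ v.mult ≤ _ at h1
    have h2 : v (z : K) ≤ Real.exp (b (.inl v) / v.mult) := by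
      have hpos : 0 < v (z : K) := InfinitePlace.pos_iff.mpr hz'
      rw [← Real.log_le_iff_le_exp hpos, le_div_iff₀ (hmult v), mul_comm, ← Real.log_pow,
        Real.log_le_iff_le_exp (by positivity)]
      exact h1
    rw [div_le_iff₀ (hρ v), InfinitePlace.norm_embedding_eq]
    have h3 : R * ρ v = Real.exp (b (.inl v) / v.mult) := by
      simp only [ρ]
      rw [← mul_assoc]
      have : R * τ = 1 := by
        have hR0 : R ≠ 0 := by rw [hR]; positivity
        rw [hτ, mul_one_div, div_self hR0]
      rw [this, one_mul]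
    rw [h3]
    exact h2
  have hmaps : ∀ β ∈ box W b, cellB ρ β ∈ (T : Set (InfinitePlace K → ℤ × ℤ)) := by
    intro β hβ
    rw [Finset.mem_coe, Fintype.mem_piFinset]
    intro v
    have hv := hsize β hβ v
    rw [Finset.mem_product]
    refine ⟨hfloor _ ?_, ?_⟩
    · rw [abs_div, abs_of_pos (hρ v)]
      exact (div_le_div_of_nonneg_right (Complex.abs_re_le_norm _) (hρ v).le).trans hv
    · simp only [cellB]
      split_ifs with hr
      · exact Finset.mem_singleton_self _
      · apply hfloor
        rw [abs_div, abs_of_pos (hρ v)]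
        exact (div_le_div_of_nonneg_right (Complex.abs_im_le_norm _) (hρ v).le).trans hv
  have hfin : (box W b).Finite :=
    Set.Finite.of_finite_image (T.finite_toSet.subset (Set.image_subset_iff.mpr hmaps)) hinj
  refine ⟨hfin, ?_⟩
  have h1 : (box W b).ncard ≤ T.card := by
    rw [← hinj.ncard_image, ← Set.ncard_coe_finset]
    exact Set.ncard_le_ncard (Set.image_subset_iff.mpr hmaps) T.finite_toSet
  have h2 : (T.card : ℝ) ≤ (9 * E) ^ n := by
    rw [Fintype.card_piFinset, hn, ← InfinitePlace.sum_mult_eq, ← Finset.prod_pow_eq_pow_sum]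
    push_cast
    apply Finset.prod_le_prod
    · intro v _; positivity
    · intro v _
      have hM0 : 0 ≤ M := by
        have : 0 ≤ ⌊R⌋ := Int.floor_nonneg.mpr (by positivity)
        omega
      have hIcc : ((Finset.Icc (-M) M).card : ℝ) ≤ 9 * E := by
        rw [Int.card_Icc]
        have h3 : ((M + 1 - -M).toNat : ℤ) = 2 * M + 1 := by rw [Int.toNat_of_nonneg (by omega)]; ring
        have h4 : ((M + 1 - -M).toNat : ℝ) = 2 * M + 1 := by exact_mod_cast h3
        rw [h4, hM]
        push_cast
        have := Int.floor_le R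
        linarith
      rw [Finset.card_product]
      push_cast
      unfold InfinitePlace.mult
      split_ifs with hr
      · simpa using hIcc
      · rw [sq]
        exact mul_le_mul hIcc hIcc (by positivity) (by linarith)
  calc ((box W b).ncard : ℝ) ≤ T.card := by exact_mod_cast h1
    _ ≤ (9 * E) ^ n := h2
    _ = 9 ^ n * Real.exp s := by
        rw [mul_pow, hE, ← Real.exp_nat_mul]
        congr 2
        field_simp

end

end Pool.Agent.Helper52.Vojta
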