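import Mathlib
import Pool.Agent.Helper52.Vojta.NormLocal

/-!
Scaling the norm vector of a point to an integral vector which is balanced at all places.
-/

namespace Pool.Agent.Helper52.Vojta

open NumberField Finset Module Pool.Agent.Helper64.Vojta
open scoped nonZeroDivisors

universe u v

section crt

variable {L : Type v} [Field L] [NumberField L]

theorem nv_add_eq (w : FinitePlace L) (a b : L) (h : nv (.inr w) b < nv (.inr w) a) :
    nv (.inr w) (a + b) = nv (.inr w) a := by
  apply le_antisymm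
  · exact (FinitePlace.add_le w a b).trans (max_le le_rfl h.le)
  · have h1 := FinitePlace.add_le w (a + b) (-b)
    rw [add_neg_cancel_right] at h1
    have h2 : w (-b) = w b := by
      have := nv_mul (.inr w) (-1) b
      have e : nv (.inr w) (-1 : L) = 1 := by
        have h3 := nv_mul (.inr w) (-1 : L) (-1)
        rw [neg_one_mul, neg_neg, nv_one] at h3
        have h4 := nv_nonneg (.inr w) (-1 : L)
        nlinarith
      rw [e, one_mul, neg_one_mul] at this
      exact this
    rw [h2] at h1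
    rcases le_max_iff.mp h1 with h3 | h3
    · exact h3
    · exact absurd (lt_of_le_of_lt h3 h) (lt_irrefl _)

theorem nv_lt_one_iff (w : FinitePlace L) (t : 𝓞 L) :
    nv (.inr w) (t : L) < 1 ↔ t ∈ w.maximalIdeal.asIdeal := by
  rw [← FinitePlace.norm_lt_one_iff_mem L w.maximalIdeal t]
  change w (t : L) < 1 ↔ _
  rw [FinitePlace.norm_embedding_eq]

/-- an element of the ideal generated by two integers with the maximal absolute values at
prescribed finite places -/
theorem exists_max (W : Finset (FinitePlace L)) (x : Fin 2 → 𝓞 L) (hx : x ≠ 0) :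
    ∃ t : 𝓞 L, ∀ w ∈ W, nv (.inr w) ((x 0 + t * x 1 : 𝓞 L) : L) = sn (.inr w) (fun i => (x i : L)) := by
  classical
  obtain ⟨t, ht⟩ := IsDedekindDomain.exists_forall_sub_mem_ideal (s := W)
    (fun w : FinitePlace L => w.maximalIdeal.asIdeal) (fun _ => 1)
    (fun w _ => w.maximalIdeal.prime) (fun w _ w' _ hne h => hne (by
      rw [← FinitePlace.maximalIdeal_inj]
      exact IsDedekindDomain.HeightOneSpectrum.ext h))
    (fun w => if nv (.inr w.1) ((x 0 : 𝓞 L) : L) < nv (.inr w.1) ((x 1 : 𝓞 L) : L) then 1 else 0)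
  refine ⟨t, fun w hw => ?_⟩
  have h1 := ht w hw
  rw [pow_one] at h1
  have hx' : (fun i => (x i : L)) ≠ 0 := by
    intro h
    apply hx
    funext i
    have := congrFun h i
    simpa using this
  have hsn := sn_pos (.inr w) hx'
  have hcast : ((x 0 + t * x 1 : 𝓞 L) : L) = (x 0 : L) + (t : L) * (x 1 : L) := by push_cast; rfl
  have hsn_le : ∀ B : ℝ, 0 ≤ B → nv (.inr w) (x 0 : L) ≤ B → nv (.inr w) (x 1 : L) ≤ B →
      sn (.inr w) (fun i => (x i : L)) ≤ B := by
    intro B hB h0 h1
    refine sn_le _ _ _ hB fun i => ?_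
    fin_cases i
    · exact h0
    · exact h1
  rw [hcast]
  split_ifs at h1 with hlt
  · have h2 : nv (.inr w) (t : L) = 1 := by
      have h3 : nv (.inr w) ((t - 1 : 𝓞 L) : L) < 1 := (nv_lt_one_iff w _).mpr h1
      have h4 : (t : L) = 1 + ((t - 1 : 𝓞 L) : L) := by push_cast; ring
      rw [h4, nv_add_eq w 1 _ (by rw [nv_one]; exact h3), nv_one]
    have h3 : nv (.inr w) ((t : L) * (x 1 : L)) = nv (.inr w) (x 1 : L) := by rw [nv_mul, h2, one_mul]
    rw [add_comm, nv_add_eq w _ _ (by rw [h3]; exact hlt), h3]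
    apply le_antisymm
    · exact le_sn (.inr w) (fun i => (x i : L)) 1
    · exact hsn_le _ (nv_nonneg _ _) hlt.le le_rfl
  · push Not at hlt
    rw [sub_zero] at h1
    have h2 : nv (.inr w) (t : L) < 1 := (nv_lt_one_iff w _).mpr h1
    have h0 : 0 < nv (.inr w) (x 0 : L) := by
      by_contra h0
      have h0' := le_antisymm (not_lt.mp h0) (nv_nonneg _ _)
      have := hsn_le 0 le_rfl h0'.le (hlt.trans h0'.le)
      linarith
    have h3 : nv (.inr w) ((t : L) * (x 1 : L)) < nv (.inr w) (x 0 : L) := by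
      rw [nv_mul]
      rcases (nv_nonneg (.inr w) (x 1 : L)).eq_or_lt with h4 | h4
      · rw [← h4, mul_zero]; exact h0
      · calc nv (.inr w) (t : L) * nv (.inr w) (x 1 : L) < 1 * nv (.inr w) (x 1 : L) :=
              mul_lt_mul_of_pos_right h2 h4
          _ ≤ _ := by rw [one_mul]; exact hlt
    rw [nv_add_eq w _ _ h3]
    apply le_antisymm
    · exact le_sn (.inr w) (fun i => (x i : L)) 0
    · exact hsn_le _ (nv_nonneg _ _) le_rfl hlt

end crt

section

variable (k : Type u) [Field k] [NumberField k]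

open scoped Classical in
/-- a Minkowski bound for all fractional ideals -/
theorem minkowski_frac : ∃ M : ℝ, 0 < M ∧ ∀ (I : (FractionalIdeal (𝓞 k)⁰ k)ˣ) (t : InfinitePlace k → ℝ),
    Real.log M + Real.log (FractionalIdeal.absNorm I.1 : ℚ) ≤ ∑ v, (v.mult : ℝ) * t v →
    ∃ a ∈ (I : FractionalIdeal (𝓞 k)⁰ k), a ≠ 0 ∧ ∀ v : InfinitePlace k, v a < Real.exp (t v) := by
  set M0 : ENNReal := MeasureTheory.volume (ZSpan.fundamentalDomain (mixedEmbedding.latticeBasis k)) *
    (2 : ENNReal) ^ (finrank ℝ (mixedEmbedding.mixedSpace k)) with hM0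
  have hM0top : M0 ≠ ⊤ := by
    have h1 := mixedEmbedding.minkowskiBound_lt_top k 1
    rw [mixedEmbedding.minkowskiBound, mixedEmbedding.volume_fundamentalDomain_fractionalIdealLatticeBasis,
      Units.val_one, FractionalIdeal.absNorm_one, Rat.cast_one, ENNReal.ofReal_one, one_mul] at h1
    exact h1.ne
  refine ⟨M0.toReal + 1, by positivity, ?_⟩
  intro I t ht
  have hI : 0 < (FractionalIdeal.absNorm I.1 : ℚ) := by
    have h1 := FractionalIdeal.absNorm_nonneg I.1
    have h2 : FractionalIdeal.absNorm I.1 ≠ 0 := by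
      rw [Ne, FractionalIdeal.absNorm_eq_zero_iff]
      exact I.ne_zero
    exact lt_of_le_of_ne h1 (Ne.symm h2)
  have hIr : (0 : ℝ) < (FractionalIdeal.absNorm I.1 : ℚ) := by exact_mod_cast hI
  let f : InfinitePlace k → NNReal := fun v => ⟨Real.exp (t v), (Real.exp_pos _).le⟩
  obtain ⟨a, ha, ha0, hav⟩ := mixedEmbedding.exists_ne_zero_mem_ideal_lt k (f := f) I (by
    rw [mixedEmbedding.minkowskiBound, mixedEmbedding.volume_fundamentalDomain_fractionalIdealLatticeBasis,
      mul_assoc, ← hM0, mixedEmbedding.convexBodyLT_volume]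
    have h1 : ENNReal.ofReal ((FractionalIdeal.absNorm I.1 : ℚ) : ℝ) * M0
        < ((∏ w, (f w) ^ (InfinitePlace.mult w) : NNReal) : ENNReal) := by
      rw [← ENNReal.ofReal_toReal hM0top, ← ENNReal.ofReal_mul hIr.le,
        show ((∏ w, (f w) ^ (InfinitePlace.mult w) : NNReal) : ENNReal)
          = ENNReal.ofReal ((∏ w, (f w) ^ (InfinitePlace.mult w) : NNReal) : ℝ) from
          (ENNReal.ofReal_coe_nnreal).symm]
      have h2 : ((∏ w, (f w) ^ (InfinitePlace.mult w) : NNReal) : ℝ) = Real.exp (∑ v : InfinitePlace k, (v.mult : ℝ) * t v) := by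
        push_cast
        rw [Real.exp_sum]
        refine Finset.prod_congr rfl fun v _ => ?_
        rw [Real.exp_nat_mul]
        rfl
      rw [h2, ENNReal.ofReal_lt_ofReal_iff (Real.exp_pos _)]
      have h3 : (0 : ℝ) ≤ M0.toReal := ENNReal.toReal_nonneg
      calc ((FractionalIdeal.absNorm I.1 : ℚ) : ℝ) * M0.toReal
          < ((FractionalIdeal.absNorm I.1 : ℚ) : ℝ) * (M0.toReal + 1) :=
            mul_lt_mul_of_pos_left (by linarith) hIr
        _ = Real.exp (Real.log (M0.toReal + 1) + Real.log ((FractionalIdeal.absNorm I.1 : ℚ) : ℝ)) := by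
            rw [Real.exp_add, Real.exp_log (by positivity), Real.exp_log hIr, mul_comm]
        _ ≤ _ := Real.exp_le_exp.mpr ht
    refine h1.trans_le ?_
    have h4 : (1 : ENNReal) ≤ mixedEmbedding.convexBodyLTFactor k := by
      exact_mod_cast mixedEmbedding.one_le_convexBodyLTFactor k
    push_cast
    exact le_mul_of_one_le_left' h4)
  exact ⟨a, ha, ha0, fun v => hav v⟩

theorem sum_above_inf (L : Type v) [Field L] [NumberField L] [Algebra k L] (f : Pl L → ℝ) :
    ∑ v : InfinitePlace k, ∑ w ∈ above L (.inl v : Pl k), f w = ∑ w : InfinitePlace L, f (.inl w) := by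
  classical
  have hdisj : ((Finset.univ : Finset (InfinitePlace k)) : Set (InfinitePlace k)).PairwiseDisjoint
      (fun v => above L (.inl v : Pl k)) := by
    intro a _ b _ hab
    rw [Function.onFun, Finset.disjoint_left]
    intro w hwa hwb
    have := above_unique (mem_above.mp hwa) (mem_above.mp hwb)
    exact hab (Sum.inl.inj this)
  rw [← Finset.sum_biUnion hdisj]
  have e : (Finset.univ : Finset (InfinitePlace k)).biUnion (fun v => above L (.inl v : Pl k))
      = (Finset.univ : Finset (InfinitePlace L)).map Function.Embedding.inl := by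
    ext w
    simp only [Finset.mem_biUnion, Finset.mem_univ, true_and, Finset.mem_map]
    constructor
    · rintro ⟨v, hv⟩
      rcases w with w | w
      · exact ⟨w, rfl⟩
      · exact absurd (mem_above.mp hv) id
    · rintro ⟨w', rfl⟩
      obtain ⟨ν, hν⟩ := exists_below (L := k) (.inl w' : Pl L)
      rcases ν with ν | ν
      · exact ⟨ν, hν⟩
      · exact absurd (mem_above.mp hν) id
  rw [e, Finset.sum_map]
  rfl

theorem exists_rep : ∃ C : ℝ, 0 ≤ C ∧ ∀ (L : Type v) [Field L] [NumberField L] [Algebra k L]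
    (x : Fin 2 → 𝓞 L) (U : ℝ), x ≠ 0 → Height.logHeight (fun i => (x i : L)) ≤ U →
    ∃ l : k, l ≠ 0 ∧
      (∀ y ∈ Ideal.span (Set.range x), ∃ z : 𝓞 k, (z : k) = l * Algebra.norm k (y : L)) ∧
      (∀ v : InfinitePlace k, Real.log (nv (.inl v) l)
        + ∑ w ∈ above L (.inl v : Pl k), Real.log (sn w (fun i => (x i : L))) ≤ C + v.mult / finrank ℚ k * U) ∧
      (∀ v : FinitePlace k, Real.log (nv (.inr v) l)
        + ∑ w ∈ above L (.inr v : Pl k), Real.log (sn w (fun i => (x i : L))) ≤ 0) := by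
  classical
  obtain ⟨M, hM0, hM⟩ := minkowski_frac k
  set n := finrank ℚ k with hn
  have hn0 : 0 < n := finrank_pos
  have hnr : (1 : ℝ) ≤ n := by exact_mod_cast hn0
  set c0 : ℝ := |Real.log M| with hc0
  have hc00 : 0 ≤ c0 := abs_nonneg _
  refine ⟨2 * c0, by positivity, ?_⟩
  intro L _ _ _ x U hx hU
  have hfd : FiniteDimensional k L := FiniteDimensional.right ℚ k L
  set xL : Fin 2 → L := fun i => (x i : L) with hxL
  have hx' : xL ≠ 0 := by
    intro h
    apply hx
    funext i
    have := congrFun h i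
    simpa [hxL] using this
  set g : Ideal (𝓞 L) := Ideal.span (Set.range x) with hg
  have hg0 : g ≠ ⊥ := by
    intro h
    apply hx
    funext i
    have h1 : x i ∈ g := Ideal.subset_span ⟨i, rfl⟩
    rw [h, Ideal.mem_bot] at h1
    exact h1
  set c : Ideal (𝓞 k) := Ideal.relNorm (𝓞 k) g with hc
  have hcne : c ≠ ⊥ := by rw [hc, Ne, Ideal.relNorm_eq_bot_iff]; exact hg0
  have hcf : (c : FractionalIdeal (𝓞 k)⁰ k) ≠ 0 := FractionalIdeal.coeIdeal_ne_zero.mpr hcne
  let Iu : (FractionalIdeal (𝓞 k)⁰ k)ˣ := (Units.mk0 (c : FractionalIdeal (𝓞 k)⁰ k) hcf)⁻¹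
  have hIu : (Iu : FractionalIdeal (𝓞 k)⁰ k) = (c : FractionalIdeal (𝓞 k)⁰ k)⁻¹ := by
    simp [Iu]
  have habs : (FractionalIdeal.absNorm Iu.1 : ℚ) = ((Ideal.absNorm g : ℕ) : ℚ)⁻¹ := by
    change FractionalIdeal.absNorm (Iu : FractionalIdeal (𝓞 k)⁰ k) = _
    rw [hIu, map_inv₀, FractionalIdeal.coeIdeal_absNorm, hc, Ideal.absNorm_relNorm (𝓞 k) (𝓞 L) g]
  have hgN : Ideal.absNorm g ≠ 0 := by
    rw [Ne, Ideal.absNorm_eq_zero_iff]; exact hg0
  -- finite part of the height
  have hfinpart : Real.log (Ideal.absNorm g : ℝ)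
      + ∑ᶠ w : FinitePlace L, Real.log (sn (.inr w) xL) = 0 := by
    have h1 := NumberField.absNorm_mul_finprod_finitePlace_eq_one (K := L) hx
    have h2 : ∏ᶠ w : FinitePlace L, ⨆ i, w (x i : L) = ∏ᶠ w : FinitePlace L, sn (.inr w) xL := rfl
    rw [h2] at h1
    have h3 : (∏ᶠ w : FinitePlace L, sn (.inr w) xL) ≠ 0 := by
      intro h0; rw [h0, mul_zero] at h1; exact zero_ne_one h1
    have h4 := congrArg Real.log h1
    rw [Real.log_one, Real.log_mul (by exact_mod_cast hgN) h3,
      log_finprod _ (fun w => sn_pos (.inr w) hx') (fin_support_sn hx')] at h4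
    exact h4
  have hheight := logHeight_eq hx'
  let A : InfinitePlace k → ℝ := fun v => ∑ w ∈ above L (.inl v : Pl k), Real.log (sn w xL)
  have hmult : ∀ v : InfinitePlace k, (0 : ℝ) < v.mult := fun v => by exact_mod_cast v.mult_pos
  let t : InfinitePlace k → ℝ := fun v => c0 + U / n - A v / v.mult
  have hsumt : ∑ v : InfinitePlace k, (v.mult : ℝ) * t v = n * c0 + U - ∑ w : InfinitePlace L, Real.log (sn (.inl w) xL) := by
    have h1 : ∀ v : InfinitePlace k, (v.mult : ℝ) * t v = v.mult * (c0 + U / n) - A v := by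
      intro v
      have := (hmult v).ne'
      simp only [t]
      field_simp
    simp_rw [h1]
    rw [Finset.sum_sub_distrib, ← Finset.sum_mul, sum_above_inf k L (fun w => Real.log (sn w xL))]
    have h2 : ∑ v : InfinitePlace k, (v.mult : ℝ) = n := by
      rw [hn, ← InfinitePlace.sum_mult_eq]; push_cast; rfl
    rw [h2]
    have : (n : ℝ) ≠ 0 := by linarith
    field_simp
  obtain ⟨l, hl, hl0, hlv⟩ := hM Iu t (by
    rw [hsumt, habs]
    push_cast
    rw [Real.log_inv]
    have h1 : Real.log M ≤ c0 := le_abs_self _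
    have h2 : c0 ≤ n * c0 := by nlinarith
    linarith)
  rw [hIu] at hl
  have hmem : ∀ y ∈ g, ∃ z : 𝓞 k, (z : k) = l * Algebra.norm k (y : L) := by
    intro y hy
    have h1 : Algebra.intNorm (𝓞 k) (𝓞 L) y ∈ c := by
      rw [hc, Ideal.relNorm_apply]
      exact Ideal.subset_span ⟨y, hy, rfl⟩
    have hnorm : ((Algebra.intNorm (𝓞 k) (𝓞 L) y : 𝓞 k) : k) = Algebra.norm k (y : L) :=
      Algebra.algebraMap_intNorm (A := 𝓞 k) (K := k) (L := L) (B := 𝓞 L) y
    rw [FractionalIdeal.mem_inv_iff hcf] at hl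
    have h2 := hl _ (FractionalIdeal.mem_coeIdeal_of_mem (𝓞 k)⁰ h1)
    obtain ⟨z, hz⟩ := (FractionalIdeal.mem_one_iff _).mp h2
    refine ⟨z, ?_⟩
    change algebraMap (𝓞 k) k z = _
    rw [hz, ← hnorm]
  refine ⟨l, hl0, hmem, ?_, ?_⟩
  · intro v
    have h1 : Real.log (v l) ≤ t v := by
      rw [Real.log_le_iff_le_exp (InfinitePlace.pos_iff.mpr hl0)]
      exact (hlv v).le
    change Real.log (v l ^ v.mult) + A v ≤ _
    rw [Real.log_pow]
    have h2 := mul_le_mul_of_nonneg_left h1 (hmult v).le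
    have h3 : (v.mult : ℝ) * t v = v.mult * c0 + v.mult / n * U - A v := by
      have := (hmult v).ne'
      simp only [t]
      field_simp
    have h4 : (v.mult : ℝ) ≤ 2 := by exact_mod_cast mult_le_two v
    have h5 : (v.mult : ℝ) * c0 ≤ 2 * c0 := mul_le_mul_of_nonneg_right h4 hc00
    linarith
  · intro v
    -- an element with maximal absolute values above `v`
    let W : Finset (FinitePlace L) := (above L (.inr v : Pl k)).toRight
    obtain ⟨s, hs⟩ := exists_max W x hx
    have hy : x 0 + s * x 1 ∈ g :=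
      Ideal.add_mem _ (Ideal.subset_span ⟨0, rfl⟩) (Ideal.mul_mem_left _ _ (Ideal.subset_span ⟨1, rfl⟩))
    obtain ⟨z, hz⟩ := hmem _ hy
    have h1 : nv (.inr v) (z : k) ≤ 1 := nv_int_le_one v z
    rw [hz, nv_mul, nv_norm] at h1
    have h2 : ∏ w ∈ above L (.inr v : Pl k), nv w ((x 0 + s * x 1 : 𝓞 L) : L)
        = ∏ w ∈ above L (.inr v : Pl k), sn w xL := by
      refine Finset.prod_congr rfl fun w hw => ?_
      rcases w with w | w
      · exact absurd (mem_above.mp hw) id
      · exact hs w (Finset.mem_toRight.mpr hw)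
    rw [h2] at h1
    have h3 : 0 < ∏ w ∈ above L (.inr v : Pl k), sn w xL := Finset.prod_pos fun w _ => sn_pos w hx'
    have h4 := Real.log_le_log (mul_pos (nv_pos _ hl0) h3) h1
    rw [Real.log_one, Real.log_mul (nv_pos _ hl0).ne' h3.ne', Real.log_prod (fun w _ => (sn_pos w hx').ne')] at h4
    exact h4

end

end Pool.Agent.Helper52.Vojta
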