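import Mathlib
import Pool.Agent.Helper52.Vojta.NormLocal
import Pool.Agent.Helper52.Vojta.LowerLocal
import Pool.Agent.Helper52.Vojta.Pack
import Pool.Agent.Helper52.Vojta.Rep

/-!
The finite part of the height of a root of an integral polynomial.
-/

namespace Pool.Agent.Helper52.Vojta

open NumberField Finset Module Polynomial Pool.Agent.Helper64.Vojta

universe u v

section

variable {k : Type u} [Field k] [NumberField k] {L : Type v} [Field L] [NumberField L] [Algebra k L]

/-- norm of `y - t` in terms of the minimal polynomial -/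
theorem norm_gen_sub (pb : PowerBasis k L) (t : k) :
    Algebra.norm k (pb.gen - algebraMap k L t) = (-1) ^ pb.dim * (minpoly k pb.gen).eval t := by
  have h1 : Algebra.norm k (pb.gen - algebraMap k L t)
      = (Algebra.leftMulMatrix pb.basis (pb.gen - algebraMap k L t)).det := Algebra.norm_eq_matrix_det _ _
  have e : Algebra.leftMulMatrix pb.basis (algebraMap k L t) = Matrix.scalar _ t := by
    rw [AlgHom.commutes]; rfl
  rw [h1, map_sub, e, ← charpoly_leftMulMatrix pb, Matrix.eval_charpoly]
  have e2 : Algebra.leftMulMatrix pb.basis pb.gen - Matrix.scalar (Fin pb.dim) t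
      = -(Matrix.scalar (Fin pb.dim) t - Algebra.leftMulMatrix pb.basis pb.gen) := by abel
  rw [e2, Matrix.det_neg, Fintype.card_fin]

theorem nv_natCast_le_one (w : FinitePlace L) (m : ℕ) : nv (.inr w) ((m : ℕ) : L) ≤ 1 := by
  have := nv_int_le_one w ((m : ℕ) : 𝓞 L)
  simpa using this

/-- differences of small naturals are not smaller than `r!` -/
theorem nv_factorial_le (w : FinitePlace L) {r i j : ℕ} (hi : i ≤ r) (hj : j ≤ r) (hij : i ≠ j) :
    nv (.inr w) ((r.factorial : ℕ) : L) ≤ nv (.inr w) ((i : L) - (j : L)) := by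
  wlog h : j < i generalizing i j with H
  · have h2 : nv (.inr w) ((i : L) - (j : L)) = nv (.inr w) ((j : L) - (i : L)) := by
      have : ((i : L) - j) = (-1) * ((j : L) - i) := by ring
      rw [this, nv_mul]
      have e : nv (.inr w) (-1 : L) = 1 := by
        have h3 : nv (.inr w) (-1 : L) * nv (.inr w) (-1 : L) = 1 := by
          rw [← nv_mul]; simp [nv_one]
        have h4 := nv_nonneg (.inr w) (-1 : L)
        nlinarith
      rw [e, one_mul]
    rw [h2]
    exact H hj hi hij.symm (by omega)
  obtain ⟨d, rfl⟩ : ∃ d, i = j + d := ⟨i - j, by omega⟩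
  have hd : d ∣ r.factorial := Nat.dvd_factorial (by omega) (by omega)
  obtain ⟨e, he⟩ := hd
  have e1 : (((j + d : ℕ) : L) - (j : L)) = (d : L) := by push_cast; ring
  rw [e1, he]
  push_cast
  rw [nv_mul]
  exact mul_le_of_le_one_right (nv_nonneg _ _) (nv_natCast_le_one w e)

/-- ultrametric inequality -/
theorem nv_sub_le_max (w : FinitePlace L) (a b : L) {B : ℝ} (hB : 0 ≤ B) (ha : nv (.inr w) a ≤ B)
    (hb : nv (.inr w) b ≤ B) : nv (.inr w) (a - b) ≤ B := by
  have h1 := nv_sum_le_inr w (Finset.univ : Finset (Fin 2)) ![a, -b] B hB (by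
    intro i _
    fin_cases i
    · exact ha
    · have e : nv (.inr w) (-1 : L) = 1 := by
        have h3 : nv (.inr w) (-1 : L) * nv (.inr w) (-1 : L) = 1 := by
          rw [← nv_mul]; simp [nv_one]
        have h4 := nv_nonneg (.inr w) (-1 : L)
        nlinarith
      change nv (.inr w) (-b) ≤ B
      have : -b = (-1) * b := by ring
      rw [this, nv_mul, e, one_mul]; exact hb)
  simpa [Fin.sum_univ_two, sub_eq_add_neg] using h1

theorem fin_part (pb : PowerBasis k L) (hr : 2 ≤ pb.dim) (F : (𝓞 k)[X]) (a : 𝓞 k) (ha : a ≠ 0)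
    (hF : F.map (algebraMap (𝓞 k) k) = C (a : k) * minpoly k pb.gen) (v : FinitePlace k) :
    ∑ w ∈ above L (.inr v : Pl k), Real.log (sn w (aff pb.gen))
      ≤ -Real.log (nv (.inr v) (a : k))
        - pb.dim * Real.log (nv (.inr v) ((pb.dim.factorial : ℕ) : k)) := by
  classical
  set r := pb.dim with hr'
  have hfd : FiniteDimensional k L := FiniteDimensional.right ℚ k L
  have hfr : finrank k L = r := by rw [hr', ← pb.finrank]
  have ha' : (a : k) ≠ 0 := by exact_mod_cast ha
  -- choice of a good node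
  have hgood : ∃ t : Fin (r + 1), ∀ w ∈ above L (.inr v : Pl k),
      ¬ (nv w (pb.gen - ((t : ℕ) : L)) < nv w ((r.factorial : ℕ) : L)) := by
    by_contra hcon
    push Not at hcon
    choose w hw1 hw2 using hcon
    have hcard : (above L (.inr v : Pl k)).card < (Finset.univ : Finset (Fin (r + 1))).card := by
      rw [Finset.card_univ, Fintype.card_fin]
      have := card_above_le (L := L) (.inr v : Pl k)
      omega
    obtain ⟨t, _, t', _, htt, heq⟩ := Finset.exists_ne_map_eq_of_card_lt_of_maps_to hcard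
      (f := w) (fun t _ => hw1 t)
    have h1 := hw2 t
    have h2 := hw2 t'
    rw [← heq] at h2
    rcases hwt : w t with w0 | w0
    · have := mem_above.mp (hw1 t)
      rw [hwt] at this
      exact this
    · rw [hwt] at h1 h2
      have h3 : nv (.inr w0) (((t : ℕ) : L) - ((t' : ℕ) : L)) < nv (.inr w0) ((r.factorial : ℕ) : L) := by
        have h4 : nv (.inr w0) ((pb.gen - ((t' : ℕ) : L)) - (pb.gen - ((t : ℕ) : L)))
            ≤ max (nv (.inr w0) (pb.gen - ((t' : ℕ) : L))) (nv (.inr w0) (pb.gen - ((t : ℕ) : L))) :=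
          nv_sub_le_max w0 _ _ (le_max_of_le_left (nv_nonneg _ _)) (le_max_left _ _) (le_max_right _ _)
        have e : (pb.gen - ((t' : ℕ) : L)) - (pb.gen - ((t : ℕ) : L)) = ((t : ℕ) : L) - ((t' : ℕ) : L) := by ring
        rw [e] at h4
        exact lt_of_le_of_lt h4 (max_lt h2 h1)
      have h5 := nv_factorial_le (L := L) w0 (r := r) (i := t) (j := t') (by omega) (by omega) (by
        intro h; exact htt (Fin.ext h))
      exact absurd h3 (not_lt.mpr h5)
  obtain ⟨t, ht⟩ := hgood
  have hft : ((r.factorial : ℕ) : L) ≠ 0 := by exact_mod_cast r.factorial_ne_zero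
  -- the norm at the node
  have hne : (minpoly k pb.gen).eval ((t : ℕ) : k) ≠ 0 := by
    intro h0
    have hirr := minpoly.irreducible pb.isIntegral_gen
    have hd1 : (minpoly k pb.gen).natDegree = 1 :=
      natDegree_eq_of_degree_eq_some (degree_eq_one_of_irreducible_of_root hirr h0)
    rw [pb.natDegree_minpoly] at hd1
    omega
  have hgent : pb.gen - ((t : ℕ) : L) ≠ 0 := by
    intro h0
    apply hne
    have h1 := norm_gen_sub pb ((t : ℕ) : k)
    have e : algebraMap k L ((t : ℕ) : k) = ((t : ℕ) : L) := by simp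
    rw [e, h0, Algebra.norm_zero] at h1
    have h2 : ((-1 : k)) ^ pb.dim ≠ 0 := pow_ne_zero _ (by norm_num)
    exact (mul_eq_zero.mp h1.symm).resolve_left h2
  have hN : ∑ w ∈ above L (.inr v : Pl k), Real.log (nv w (pb.gen - ((t : ℕ) : L)))
      ≤ -Real.log (nv (.inr v) (a : k)) := by
    have h1 := nv_norm (.inr v : Pl k) (pb.gen - algebraMap k L ((t : ℕ) : k))
    have e : algebraMap k L ((t : ℕ) : k) = ((t : ℕ) : L) := by simp
    rw [norm_gen_sub, e] at h1
    have h2 := congrArg Real.log h1
    rw [Real.log_prod (fun w _ => (nv_pos w hgent).ne')] at h2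
    rw [← h2, nv_mul]
    have e1 : nv (.inr v) ((-1 : k) ^ pb.dim) = 1 := by
      rw [nv_pow]
      have h3 : nv (.inr v) (-1 : k) * nv (.inr v) (-1 : k) = 1 := by
        rw [← nv_mul]; simp [nv_one]
      have h4 := nv_nonneg (.inr v) (-1 : k)
      have h5 : nv (.inr v) (-1 : k) = 1 := by nlinarith
      rw [h5, one_pow]
    rw [e1, one_mul]
    have h3 : (a : k) * (minpoly k pb.gen).eval ((t : ℕ) : k) = ((F.eval ((t : ℕ) : 𝓞 k) : 𝓞 k) : k) := by
      have h4 := congrArg (eval ((t : ℕ) : k)) hF
      rw [eval_mul, eval_C] at h4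
      rw [← h4]
      have h5 : (F.map (algebraMap (𝓞 k) k)).eval (algebraMap (𝓞 k) k ((t : ℕ) : 𝓞 k))
          = algebraMap (𝓞 k) k (F.eval ((t : ℕ) : 𝓞 k)) := by
        rw [← eval_map_apply]
      simpa using h5
    have h6 : nv (.inr v) (a : k) * nv (.inr v) ((minpoly k pb.gen).eval ((t : ℕ) : k)) ≤ 1 := by
      rw [← nv_mul, h3]
      exact nv_int_le_one v _
    have hapos := nv_pos (.inr v) ha'
    have hmpos := nv_pos (.inr v) hne
    have h7 := Real.log_le_log (mul_pos hapos hmpos) h6
    rw [Real.log_one, Real.log_mul hapos.ne' hmpos.ne'] at h7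
    linarith
  have hF' : ∑ w ∈ above L (.inr v : Pl k), Real.log (nv w ((r.factorial : ℕ) : L))
      = r * Real.log (nv (.inr v) ((r.factorial : ℕ) : k)) := by
    have := sum_log_nv (L' := L) (.inr v : Pl k) ((r.factorial : ℕ) : k)
    rw [hfr] at this
    rw [← this]
    refine Finset.sum_congr rfl fun w _ => ?_
    simp
  -- comparison place by place
  have hcomp : ∀ w ∈ above L (.inr v : Pl k), Real.log (sn w (aff pb.gen))
      ≤ Real.log (nv w (pb.gen - ((t : ℕ) : L))) - Real.log (nv w ((r.factorial : ℕ) : L)) := by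
    intro w hw
    have hw' := ht w hw
    rcases w with w | w
    · exact absurd (mem_above.mp hw) id
    push Not at hw'
    have hfac1 : nv (.inr w) ((r.factorial : ℕ) : L) ≤ 1 := nv_natCast_le_one w _
    have hfac0 : 0 < nv (.inr w) ((r.factorial : ℕ) : L) := nv_pos _ hft
    have hgt0 : 0 < nv (.inr w) (pb.gen - ((t : ℕ) : L)) := nv_pos _ hgent
    have hlf : Real.log (nv (.inr w) ((r.factorial : ℕ) : L)) ≤ 0 := Real.log_nonpos hfac0.le hfac1
    rcases le_or_gt (nv (.inr w) pb.gen) 1 with h1 | h1
    · have hs : sn (.inr w) (aff pb.gen) ≤ 1 := by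
        refine sn_le _ _ _ zero_le_one ?_
        intro i
        fin_cases i
        · exact h1
        · exact (nv_one _).le
      have h2 : Real.log (sn (.inr w) (aff pb.gen)) ≤ 0 := Real.log_nonpos
        (zero_le_one.trans (one_le_sn_aff _ _)) hs
      have h3 := Real.log_le_log hfac0 hw'
      linarith
    · have hs : sn (.inr w) (aff pb.gen) ≤ nv (.inr w) pb.gen := by
        refine sn_le _ _ _ (nv_nonneg _ _) ?_
        intro i
        fin_cases i
        · exact le_rfl
        · exact (nv_one _).le.trans h1.le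
      have h2 : nv (.inr w) pb.gen ≤ nv (.inr w) (pb.gen - ((t : ℕ) : L)) := by
        by_contra hcon
        push Not at hcon
        set B := max (nv (.inr w) (pb.gen - ((t : ℕ) : L))) 1 with hB
        have h3 : nv (.inr w) (((pb.gen - ((t : ℕ) : L))) - (-((t : ℕ) : L))) ≤ B := by
          refine nv_sub_le_max w _ _ (le_max_of_le_right zero_le_one) (le_max_left _ _) ?_
          refine le_trans ?_ (le_max_right _ _)
          have := nv_int_le_one w (-((t : ℕ) : 𝓞 L))
          simpa using this
        have e : ((pb.gen - ((t : ℕ) : L))) - (-((t : ℕ) : L)) = pb.gen := by ring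
        rw [e] at h3
        have h4 : B < nv (.inr w) pb.gen := max_lt hcon h1
        linarith
      have h3 := Real.log_le_log (sn_pos (.inr w) (aff_ne_zero pb.gen)) (hs.trans h2)
      linarith
  calc _ ≤ ∑ w ∈ above L (.inr v : Pl k), (Real.log (nv w (pb.gen - ((t : ℕ) : L)))
        - Real.log (nv w ((r.factorial : ℕ) : L))) := Finset.sum_le_sum hcomp
    _ ≤ _ := by
        rw [Finset.sum_sub_distrib, hF']
        linarith

/-- Upper bound for the height of a root of an integral polynomial. -/
theorem height_le (pb : PowerBasis k L) (hr : 2 ≤ pb.dim) (F : (𝓞 k)[X]) (a : 𝓞 k) (ha : a ≠ 0)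
    (hF : F.map (algebraMap (𝓞 k) k) = C (a : k) * minpoly k pb.gen) :
    Height.logHeight (aff pb.gen) ≤ ∑ w : InfinitePlace L, Real.log (sn (.inl w) (aff pb.gen))
      + ∑ v : InfinitePlace k, Real.log (nv (.inl v) (a : k))
      + pb.dim * ∑ v : InfinitePlace k, Real.log (nv (.inl v) ((pb.dim.factorial : ℕ) : k)) := by
  classical
  have hfin : (Function.support fun w : FinitePlace L => Real.log (sn (.inr w) (aff pb.gen))).Finite :=
    log_support _ (fin_support_sn (aff_ne_zero _))
  -- the places of `k` below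
  let bel : FinitePlace L → Pl k := fun w => (exists_below (L := k) (.inr w : Pl L)).choose
  have hbel : ∀ w : FinitePlace L, (Sum.inr w : Pl L) ∈ above L (bel w) := fun w =>
    (exists_below (L := k) (.inr w : Pl L)).choose_spec
  let W1 : Finset (FinitePlace k) := (hfin.toFinset.image bel).toRight
  let W : Finset (Pl k) := Finset.univ.disjSum W1
  have hW : ∀ v : InfinitePlace k, Sum.inl v ∈ W := by intro v; simp [W]
  have h1 : Height.logHeight (aff pb.gen) = ∑ w ∈ upW L W, Real.log (sn w (aff pb.gen)) := by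
    apply logHeight_eq_sum (aff_ne_zero _)
    · intro w
      obtain ⟨ν, hν⟩ := exists_below (L := k) (.inl w : Pl L)
      unfold upW
      rw [Finset.mem_biUnion]
      refine ⟨ν, ?_, hν⟩
      rcases ν with ν | ν
      · exact hW ν
      · exact absurd (mem_above.mp hν) id
    · intro w hw
      unfold upW
      rw [Finset.mem_biUnion]
      refine ⟨bel w, ?_, hbel w⟩
      rcases hb : bel w with ν | ν
      · have := hbel w
        rw [hb] at this
        exact absurd (mem_above.mp this) id
      · simp only [W, Finset.inr_mem_disjSum, W1, Finset.mem_toRight, Finset.mem_image]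
        exact ⟨w, hfin.mem_toFinset.mpr hw, hb⟩
  rw [h1, sum_upW]
  have e0 : ∑ ν ∈ W, ∑ w ∈ above L ν, Real.log (sn w (aff pb.gen))
      = ∑ v : InfinitePlace k, ∑ w ∈ above L (.inl v : Pl k), Real.log (sn w (aff pb.gen))
        + ∑ v ∈ W1, ∑ w ∈ above L (.inr v : Pl k), Real.log (sn w (aff pb.gen)) := by
    simp only [W, Finset.sum_disjSum]
  rw [e0, sum_above_inf k L (fun w => Real.log (sn w (aff pb.gen)))]
  have hfac : ((pb.dim.factorial : ℕ) : 𝓞 k) ≠ 0 := by exact_mod_cast pb.dim.factorial_ne_zero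
  have hA := sum_log_nonneg W hW ha
  have hB := sum_log_nonneg W hW hfac
  have eA : ∑ w ∈ W, Real.log (nv w ((a : 𝓞 k) : k)) = ∑ v : InfinitePlace k, Real.log (nv (.inl v) (a : k))
      + ∑ v ∈ W1, Real.log (nv (.inr v) (a : k)) := by simp only [W, Finset.sum_disjSum]
  have eB : ∑ w ∈ W, Real.log (nv w ((((pb.dim.factorial : ℕ) : 𝓞 k)) : k))
      = ∑ v : InfinitePlace k, Real.log (nv (.inl v) ((pb.dim.factorial : ℕ) : k))
      + ∑ v ∈ W1, Real.log (nv (.inr v) ((pb.dim.factorial : ℕ) : k)) := by
    simp only [W, Finset.sum_disjSum]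
    simp
  rw [eA] at hA
  rw [eB] at hB
  have h2 : ∑ v ∈ W1, ∑ w ∈ above L (.inr v : Pl k), Real.log (sn w (aff pb.gen))
      ≤ ∑ v ∈ W1, (-Real.log (nv (.inr v) (a : k))
        - pb.dim * Real.log (nv (.inr v) ((pb.dim.factorial : ℕ) : k))) :=
    Finset.sum_le_sum fun v _ => fin_part pb hr F a ha hF v
  rw [Finset.sum_sub_distrib, Finset.sum_neg_distrib, ← Finset.mul_sum] at h2
  have h3 := mul_nonneg (Nat.cast_nonneg (α := ℝ) pb.dim) hB
  rw [mul_add] at h3
  linarith

end

end Pool.Agent.Helper52.Vojta
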