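import Mathlib

/-!
A family of Eisenstein polynomials over the ring of integers with prescribed small values at `0`
and `1`.
-/

namespace Pool.Agent.Helper52.Vojta

open NumberField Finset Module Polynomial

section

variable {R : Type*} [CommRing R]

/-- coefficients of the family -/
def aCo (m : ℕ) (π N0 b : R) (c : ℕ → R) : ℕ → R
  | 0 => π
  | 1 => N0 * b - π - ∑ i ∈ range m, N0 * c i
  | (i + 2) => N0 * c i

/-- the family of polynomials -/
noncomputable def famP (m : ℕ) (π N0 b : R) (c : ℕ → R) : R[X] :=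
  X ^ (m + 2) + ∑ i ∈ range (m + 2), C (aCo m π N0 b c i) * X ^ i

theorem coeff_sum_aux (n : ℕ) (a : ℕ → R) (i : ℕ) :
    (∑ j ∈ range n, C (a j) * X ^ j : R[X]).coeff i = if i < n then a i else 0 := by
  rw [finsetSum_coeff]
  simp only [coeff_C_mul_X_pow]
  rw [Finset.sum_ite_eq]
  simp

theorem degree_aux [Nontrivial R] (n : ℕ) (a : ℕ → R) : (∑ j ∈ range n, C (a j) * X ^ j : R[X]).degree < n := by
  rw [degree_lt_iff_coeff_zero]
  intro i hi
  rw [coeff_sum_aux, if_neg (by omega)]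

variable (m : ℕ) (π N0 b : R) (c : ℕ → R)

theorem famP_monic [Nontrivial R] : (famP m π N0 b c).Monic := monic_X_pow_add (degree_aux _ _)

theorem famP_natDegree [Nontrivial R] : (famP m π N0 b c).natDegree = m + 2 := by
  apply natDegree_eq_of_degree_eq_some
  unfold famP
  rw [degree_add_eq_left_of_degree_lt (by rw [degree_X_pow]; exact degree_aux _ _), degree_X_pow]

theorem famP_coeff {i : ℕ} (hi : i < m + 2) : (famP m π N0 b c).coeff i = aCo m π N0 b c i := by
  unfold famP
  rw [coeff_add, coeff_sum_aux, if_pos hi, coeff_X_pow, if_neg (by omega), zero_add]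

theorem famP_eval_zero : (famP m π N0 b c).eval 0 = π := by
  unfold famP
  rw [eval_add, eval_pow, eval_X, zero_pow (by omega), zero_add, ← coeff_zero_eq_eval_zero, coeff_sum_aux,
    if_pos (by omega)]
  rfl

theorem famP_eval_one : (famP m π N0 b c).eval 1 = 1 + N0 * b := by
  unfold famP
  rw [eval_add, eval_pow, eval_X, one_pow, eval_finsetSum]
  simp only [eval_mul, eval_C, eval_pow, eval_X, one_pow, mul_one]
  rw [Finset.sum_range_succ', Finset.sum_range_succ']
  simp only [aCo]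
  ring

theorem aCo_mem {P : Ideal R} (hπ : π ∈ P) (hN : N0 ∈ P) (i : ℕ) : aCo m π N0 b c i ∈ P := by
  rcases i with _ | _ | i
  · exact hπ
  · exact P.sub_mem (P.sub_mem (P.mul_mem_right _ hN) hπ) (P.sum_mem fun j _ => P.mul_mem_right _ hN)
  · exact P.mul_mem_right _ hN

theorem famP_irreducible [IsDomain R] {P : Ideal R} (hP : P.IsPrime) (hπ : π ∈ P) (hπ2 : π ∉ P ^ 2)
    (hN : N0 ∈ P) : Irreducible (famP m π N0 b c) := by
  have hE : (famP m π N0 b c).IsEisensteinAt P := by
    refine ⟨?_, ?_, ?_⟩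
    · rw [(famP_monic m π N0 b c).leadingCoeff]
      exact fun h => hP.ne_top ((Ideal.eq_top_iff_one P).mpr h)
    · intro n hn
      rw [famP_natDegree] at hn
      rw [famP_coeff m π N0 b c hn]
      exact aCo_mem m π N0 b c hπ hN n
    · rw [famP_coeff m π N0 b c (by omega)]
      exact hπ2
  exact hE.irreducible hP (famP_monic m π N0 b c).isPrimitive (by rw [famP_natDegree]; omega)

/-- the parameters are determined by the polynomial -/
theorem famP_injective [IsDomain R] (hN0 : N0 ≠ 0) {b' : R} {c' : ℕ → R}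
    (h : famP m π N0 b c = famP m π N0 b' c') : b = b' ∧ ∀ i < m, c i = c' i := by
  have h1 : ∀ i < m, c i = c' i := by
    intro i hi
    have := congrArg (fun p => coeff p (i + 2)) h
    simp only [famP_coeff m π N0 _ _ (show i + 2 < m + 2 by omega), aCo] at this
    exact mul_left_cancel₀ hN0 this
  refine ⟨?_, h1⟩
  have := congrArg (eval 1) h
  rw [famP_eval_one, famP_eval_one] at this
  exact mul_left_cancel₀ hN0 (add_left_cancel this)

end

section

/-- size of the coefficients and upper bound for the Mahler measure -/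
theorem famP_mahler_le {R : Type*} [CommRing R] (σ : R →+* ℂ) (m : ℕ) (π N0 b : R) (c : ℕ → R) (B Q : ℝ)
    (hQ : 1 ≤ Q) (hB : 1 ≤ B) (hπ : ‖σ π‖ ≤ B) (hN0 : ‖σ N0‖ ≤ B) (hb : ‖σ b‖ ≤ B * Q)
    (hc : ∀ i < m, ‖σ (c i)‖ ≤ B * Q) :
    ((famP m π N0 b c).map σ).mahlerMeasure ≤ (2 + (m + 2) * (m + 2)) * B ^ 2 * Q := by
  have hBQ : B * Q ≤ B ^ 2 * Q := by
    have : B ≤ B ^ 2 := by nlinarith
    exact mul_le_mul_of_nonneg_right this (by linarith)
  have hB2 : B ≤ B ^ 2 * Q := by nlinarith [mul_le_mul_of_nonneg_left hQ (by linarith : 0 ≤ B)]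
  have h1B : 1 ≤ B ^ 2 * Q := hB.trans hB2
  have hNc : ∀ i < m, ‖σ (N0 * c i)‖ ≤ B ^ 2 * Q := by
    intro i hi
    rw [map_mul, norm_mul]
    calc ‖σ N0‖ * ‖σ (c i)‖ ≤ B * (B * Q) := mul_le_mul hN0 (hc i hi) (norm_nonneg _) (by linarith)
      _ = _ := by ring
  have hcoef : ∀ i < m + 2, ‖σ (aCo m π N0 b c i)‖ ≤ (m + 2) * (B ^ 2 * Q) := by
    intro i hi
    have hm : (0 : ℝ) ≤ m := Nat.cast_nonneg _
    rcases i with _ | _ | i
    · calc ‖σ π‖ ≤ B := hπ
        _ ≤ B ^ 2 * Q := hB2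
        _ ≤ _ := by nlinarith
    · simp only [aCo]
      rw [map_sub, map_sub, map_sum]
      have e1 : ‖σ (N0 * b)‖ ≤ B ^ 2 * Q := by
        rw [map_mul, norm_mul]
        calc ‖σ N0‖ * ‖σ b‖ ≤ B * (B * Q) := mul_le_mul hN0 hb (norm_nonneg _) (by linarith)
          _ = _ := by ring
      have e2 : ‖∑ i ∈ range m, σ (N0 * c i)‖ ≤ m * (B ^ 2 * Q) := by
        refine (norm_sum_le _ _).trans ?_
        calc ∑ i ∈ range m, ‖σ (N0 * c i)‖ ≤ ∑ i ∈ range m, B ^ 2 * Q :=
              Finset.sum_le_sum fun i hi => hNc i (Finset.mem_range.mp hi)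
          _ = _ := by rw [Finset.sum_const, Finset.card_range, nsmul_eq_mul]
      calc ‖σ (N0 * b) - σ π - ∑ i ∈ range m, σ (N0 * c i)‖
          ≤ ‖σ (N0 * b) - σ π‖ + ‖∑ i ∈ range m, σ (N0 * c i)‖ := norm_sub_le _ _
        _ ≤ (‖σ (N0 * b)‖ + ‖σ π‖) + ‖∑ i ∈ range m, σ (N0 * c i)‖ := by
            gcongr; exact norm_sub_le _ _
        _ ≤ _ := by nlinarith
    · calc ‖σ (N0 * c i)‖ ≤ B ^ 2 * Q := hNc i (by omega)
        _ ≤ _ := by nlinarith
  refine (mahlerMeasure_le_sum_norm_coeff _).trans ?_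
  have hcz : ∀ i, ‖((famP m π N0 b c).map σ).coeff i‖ ≤ if i < m + 2 then (m + 2) * (B ^ 2 * Q) else 1 := by
    intro i
    rw [coeff_map]
    split_ifs with hi
    · rw [famP_coeff m π N0 b c hi]; exact hcoef i hi
    · unfold famP
      rw [coeff_add, coeff_sum_aux, if_neg hi, add_zero, coeff_X_pow]
      split_ifs <;> simp
  have hdeg : ((famP m π N0 b c).map σ).natDegree < m + 3 := by
    have h1 : (famP m π N0 b c).natDegree ≤ m + 2 := by
      unfold famP
      refine (natDegree_add_le _ _).trans (max_le ((natDegree_X_pow_le _)) ?_)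
      refine natDegree_sum_le_of_forall_le _ _ fun i hi => ?_
      exact (natDegree_C_mul_X_pow_le _ _).trans (by have := Finset.mem_range.mp hi; omega)
    exact lt_of_le_of_lt natDegree_map_le (by omega)
  rw [sum_over_range' _ (by simp) (m + 3) hdeg, Finset.sum_range_succ]
  have h1 : ∑ i ∈ range (m + 2), ‖((famP m π N0 b c).map σ).coeff i‖ ≤ ∑ i ∈ range (m + 2), (m + 2) * (B ^ 2 * Q) := by
    refine Finset.sum_le_sum fun i hi => ?_
    have := hcz i
    rwa [if_pos (Finset.mem_range.mp hi)] at this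
  have h2 := hcz (m + 2)
  rw [if_neg (by omega)] at h2
  rw [Finset.sum_const, Finset.card_range, nsmul_eq_mul] at h1
  push_cast at h1
  nlinarith

end

end Pool.Agent.Helper52.Vojta
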