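import Mathlib
import Pool.Agent.Helper52.Vojta.LowerLocal
import Pool.Agent.Helper52.Vojta.Family

/-!
Points attached to the Eisenstein family.
-/

namespace Pool.Agent.Helper52.Vojta

open NumberField Finset Module Polynomial IntermediateField Pool.Agent.Helper64.Vojta

universe u

section

variable {k : Type u} [Field k] [NumberField k] {Ω : Type u} [Field Ω] [Algebra k Ω]

/-- a root of the family -/
theorem exists_root [IsAlgClosed Ω] (F : (𝓞 k)[X]) (hF : F.Monic) (hirr : Irreducible F)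
    (hdeg : F.natDegree ≠ 0) :
    ∃ x : Ω, IsIntegral ℤ x ∧ minpoly k x = F.map (algebraMap (𝓞 k) k) := by
  obtain ⟨x, hx⟩ := IsAlgClosed.exists_aeval_eq_zero Ω F (by
    intro h
    apply hdeg
    exact natDegree_eq_of_degree_eq_some h)
  have hirr' : Irreducible (F.map (algebraMap (𝓞 k) k)) :=
    (hF.irreducible_iff_irreducible_map_fraction_map (K := k)).mp hirr
  refine ⟨x, ?_, ?_⟩
  · have h1 : IsIntegral (𝓞 k) x := ⟨F, hF, hx⟩
    exact isIntegral_trans x h1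
  · have h2 : aeval x (F.map (algebraMap (𝓞 k) k)) = 0 := by
      rw [aeval_map_algebraMap]; exact hx
    exact (minpoly.eq_of_irreducible_of_monic hirr' h2 (hF.map _)).symm

open scoped Classical in
/-- Analysis of a point whose minimal polynomial has prescribed size. -/
theorem point_analysis (g1 : k[X]) (S : Finset (Pl k)) (hS : ∀ v : InfinitePlace k, Sum.inl v ∈ S)
    (r : ℕ) (hr : 2 ≤ r) : ∃ C : ℝ, 0 ≤ C ∧ ∀ (x : Ω) (F : (𝓞 k)[X]), IsIntegral ℤ x →
      minpoly k x = F.map (algebraMap (𝓞 k) k) → F.natDegree = r → F.Monic →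
      aeval x (X * (X - 1) * g1) ≠ 0 → ∀ (_ : NumberField k⟮x⟯) (M0 M1 B0 B1 : ℝ), 0 < M0 → 0 < B0 → 0 < B1 →
      (∀ σ : k →+* ℂ, M0 ≤ (F.map (σ.comp (algebraMap (𝓞 k) k))).mahlerMeasure) →
      (∀ σ : k →+* ℂ, (F.map (σ.comp (algebraMap (𝓞 k) k))).mahlerMeasure ≤ M1) →
      (∀ σ : k →+* ℂ, ‖σ (F.eval 0 : 𝓞 k)‖ ≤ B0) → (∀ σ : k →+* ℂ, ‖σ (F.eval 1 : 𝓞 k)‖ ≤ B1) →
      finrank k k⟮x⟯ = r ∧
      finrank ℚ k * Real.log M0 ≤ Height.logHeight (aff (AdjoinSimple.gen k x)) ∧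
      Height.logHeight (aff (AdjoinSimple.gen k x)) ≤ finrank ℚ k * Real.log M1 ∧
      3 * Height.logHeight (aff (AdjoinSimple.gen k x)) - finrank ℚ k * Real.log B0
        - finrank ℚ k * Real.log B1 - C ≤
        ∑ w ∈ upW k⟮x⟯ S, dloc (X * (X - 1) * g1) (g1.natDegree + 3) w (AdjoinSimple.gen k x) := by
  obtain ⟨C, hC0, hC⟩ := sum_dloc_lower.{u, u} g1 r
  refine ⟨C * (S.card * r), by positivity, ?_⟩
  intro x F hint hmin hdeg hmon hne hNF M0 M1 B0 B1 hM0 hB0 hB1 h1 h2 h3 h4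
  have hkint : IsIntegral k x := hint.tower_top
  let pb : PowerBasis k k⟮x⟯ := adjoin.powerBasis hkint
  have hgen : pb.gen = AdjoinSimple.gen k x := adjoin.powerBasis_gen hkint
  have hmp : minpoly k pb.gen = F.map (algebraMap (𝓞 k) k) := by
    rw [hgen, minpoly_gen, hmin]
  have hfr : finrank k k⟮x⟯ = r := by
    rw [adjoin.finrank hkint, hmin, hmon.natDegree_map, hdeg]
  have hcardσ : Fintype.card (k →+* ℂ) = finrank ℚ k := NumberField.Embeddings.card k ℂ
  have hH : Height.logHeight (aff (AdjoinSimple.gen k x))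
      = ∑ σ : k →+* ℂ, Real.log (F.map (σ.comp (algebraMap (𝓞 k) k))).mahlerMeasure := by
    have hi : IsIntegral ℤ (AdjoinSimple.gen k x) := by
      have hinj : Function.Injective (algebraMap k⟮x⟯ Ω) := (algebraMap k⟮x⟯ Ω).injective
      rw [← isIntegral_algHom_iff ((IsScalarTower.toAlgHom k k⟮x⟯ Ω).restrictScalars ℤ) hinj]
      simpa using hint
    have := logHeight_integral (⟨AdjoinSimple.gen k x, hi⟩ : 𝓞 k⟮x⟯)
    change Height.logHeight (aff (AdjoinSimple.gen k x)) = _ at this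
    rw [this]
    change ∑ w : InfinitePlace k⟮x⟯, Real.log (sn (.inl w) (aff (AdjoinSimple.gen k x))) = _
    rw [← hgen, sum_log_max pb]
    refine Finset.sum_congr rfl fun σ _ => ?_
    rw [hmp, Polynomial.map_map]
  have hi : IsIntegral ℤ (AdjoinSimple.gen k x) := by
    have hinj : Function.Injective (algebraMap k⟮x⟯ Ω) := (algebraMap k⟮x⟯ Ω).injective
    rw [← isIntegral_algHom_iff ((IsScalarTower.toAlgHom k k⟮x⟯ Ω).restrictScalars ℤ) hinj]
    simpa using hint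
  have hsub : ∀ a : k, AdjoinSimple.gen k x - algebraMap k k⟮x⟯ a ≠ 0 := by
    intro a h0
    have h5 : AdjoinSimple.gen k x = algebraMap k k⟮x⟯ a := sub_eq_zero.mp h0
    have h6 : (minpoly k (AdjoinSimple.gen k x)).natDegree = 1 := by
      rw [h5, minpoly.eq_X_sub_C]; exact natDegree_X_sub_C a
    rw [minpoly_gen, hmin, hmon.natDegree_map, hdeg] at h6
    omega
  have hS1 : ∀ a : 𝓞 k, ∑ w : InfinitePlace k⟮x⟯, Real.log (nv (.inl w) (AdjoinSimple.gen k x - algebraMap k k⟮x⟯ (a : k)))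
      = ∑ σ : k →+* ℂ, Real.log ‖σ (F.eval a : 𝓞 k)‖ := by
    intro a
    have h5 := sum_log_nv_sub pb (a : k) (fun φ => by
      rw [hgen]
      intro h0
      exact hsub _ ((map_eq_zero φ).mp h0))
    rw [hgen] at h5
    rw [h5]
    refine Finset.sum_congr rfl fun σ _ => ?_
    rw [← hgen, hmp, Polynomial.map_map]
    congr 2
    have : (F.map (σ.comp (algebraMap (𝓞 k) k))).eval (σ a) = (σ.comp (algebraMap (𝓞 k) k)) (F.eval a) := by
      rw [← eval_map_apply]
      rfl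
    rw [this]; rfl
  have hW : ∀ w : InfinitePlace k⟮x⟯, Sum.inl w ∈ upW k⟮x⟯ S := by
    intro w
    unfold upW
    rw [Finset.mem_biUnion]
    refine ⟨.inl (w.comap (algebraMap k k⟮x⟯)), hS _, ?_⟩
    rw [mem_above]
    exact ⟨rfl⟩
  have hne' : aeval (AdjoinSimple.gen k x) (X * (X - 1) * g1) ≠ 0 := by
    intro h0
    apply hne
    have := congrArg (algebraMap k⟮x⟯ Ω) h0
    rwa [map_zero, ← aeval_algebraMap_apply, AdjoinSimple.algebraMap_gen] at this
  have hlow := hC k⟮x⟯ hfr.le (upW k⟮x⟯ S) hW ⟨AdjoinSimple.gen k x, hi⟩ hne'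
  change 3 * Height.logHeight (aff (AdjoinSimple.gen k x))
    - ∑ w : InfinitePlace k⟮x⟯, Real.log (nv (.inl w) (AdjoinSimple.gen k x))
    - ∑ w : InfinitePlace k⟮x⟯, Real.log (nv (.inl w) (AdjoinSimple.gen k x - 1)) - C * _
    ≤ ∑ w ∈ upW k⟮x⟯ S, dloc (X * (X - 1) * g1) (g1.natDegree + 3) w (AdjoinSimple.gen k x) at hlow
  have hS0 := hS1 0
  have hS1' := hS1 1
  simp only [map_zero, map_one, sub_zero] at hS0 hS1'
  rw [hS0, hS1'] at hlow
  have hcard : ((upW k⟮x⟯ S).card : ℝ) ≤ S.card * r := by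
    have := card_upW_le k⟮x⟯ S
    rw [hfr] at this
    exact_mod_cast this
  have hpos : ∀ a : 𝓞 k, ∀ σ : k →+* ℂ, 0 < ‖σ (F.eval a : 𝓞 k)‖ := by
    intro a σ
    rw [norm_pos_iff, Ne, map_eq_zero]
    intro h0
    have h6 : (minpoly k (AdjoinSimple.gen k x)).eval (a : k) = 0 := by
      rw [← hgen, hmp]
      have : (F.map (algebraMap (𝓞 k) k)).eval (algebraMap (𝓞 k) k a) = algebraMap (𝓞 k) k (F.eval a) := by
        rw [← eval_map_apply]
      exact this.trans h0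
    have hirr := minpoly.irreducible (show IsIntegral k (AdjoinSimple.gen k x) from hi.tower_top)
    have hd1 : (minpoly k (AdjoinSimple.gen k x)).natDegree = 1 :=
      natDegree_eq_of_degree_eq_some (degree_eq_one_of_irreducible_of_root hirr h6)
    rw [minpoly_gen, hmin, hmon.natDegree_map, hdeg] at hd1
    omega
  refine ⟨hfr, ?_, ?_, ?_⟩
  · rw [hH, ← hcardσ]
    calc (Fintype.card (k →+* ℂ) : ℝ) * Real.log M0 = ∑ σ : k →+* ℂ, Real.log M0 := by
          rw [Finset.sum_const, Finset.card_univ, nsmul_eq_mul]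
      _ ≤ _ := Finset.sum_le_sum fun σ _ => Real.log_le_log hM0 (h1 σ)
  · rw [hH, ← hcardσ]
    calc _ ≤ ∑ σ : k →+* ℂ, Real.log M1 := Finset.sum_le_sum fun σ _ =>
          Real.log_le_log (lt_of_lt_of_le hM0 (h1 σ)) (h2 σ)
      _ = _ := by rw [Finset.sum_const, Finset.card_univ, nsmul_eq_mul]
  · have e0 : ∑ σ : k →+* ℂ, Real.log ‖σ (F.eval 0 : 𝓞 k)‖ ≤ finrank ℚ k * Real.log B0 := by
      rw [← hcardσ]
      calc _ ≤ ∑ σ : k →+* ℂ, Real.log B0 := Finset.sum_le_sum fun σ _ =>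
            Real.log_le_log (hpos 0 σ) (h3 σ)
        _ = _ := by rw [Finset.sum_const, Finset.card_univ, nsmul_eq_mul]
    have e1 : ∑ σ : k →+* ℂ, Real.log ‖σ (F.eval 1 : 𝓞 k)‖ ≤ finrank ℚ k * Real.log B1 := by
      rw [← hcardσ]
      calc _ ≤ ∑ σ : k →+* ℂ, Real.log B1 := Finset.sum_le_sum fun σ _ =>
            Real.log_le_log (hpos 1 σ) (h4 σ)
        _ = _ := by rw [Finset.sum_const, Finset.card_univ, nsmul_eq_mul]
    have e2 : C * (upW k⟮x⟯ S).card ≤ C * (S.card * r) := mul_le_mul_of_nonneg_left hcard hC0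
    linarith

end

end Pool.Agent.Helper52.Vojta
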