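import Mathlib
import Pool.Agent.Helper52.Vojta.LowerPoint

/-!
Lower bound for the number of points for which Vojta's inequality is not trivial.
-/

namespace Pool.Agent.Helper52.Vojta

open NumberField Finset Module Polynomial IntermediateField Pool.Agent.Helper64.Vojta

universe u

section

variable {k : Type u} [Field k] [NumberField k]

/-- integers with given coordinates -/
noncomputable def bet (t : Free.ChooseBasisIndex ℤ (𝓞 k) → ℕ) : 𝓞 k :=
  (RingOfIntegers.basis k).equivFun.symm fun j => (t j : ℤ)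

theorem bet_injective : Function.Injective (bet (k := k)) := by
  intro t t' h
  have := (RingOfIntegers.basis k).equivFun.symm.injective h
  funext j
  exact_mod_cast congrFun this j

theorem bet_bound : ∃ K : ℕ, ∀ (Q : ℕ) (t : Free.ChooseBasisIndex ℤ (𝓞 k) → ℕ), (∀ j, t j ≤ Q) →
    ∀ σ : k →+* ℂ, ‖σ (bet t : 𝓞 k)‖ ≤ K * Q := by
  classical
  refine ⟨⌈∑ σ : k →+* ℂ, ∑ j, ‖σ (RingOfIntegers.basis k j : 𝓞 k)‖⌉₊, ?_⟩
  intro Q t ht σ
  have h1 : (bet t : 𝓞 k) = ∑ j, (t j : ℤ) • RingOfIntegers.basis k j := by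
    unfold bet; rw [Basis.equivFun_symm_apply]
  have h2 : σ (bet t : 𝓞 k) = ∑ j, (t j : ℂ) * σ (RingOfIntegers.basis k j : 𝓞 k) := by
    rw [h1]
    simp
  rw [h2]
  calc ‖∑ j, (t j : ℂ) * σ (RingOfIntegers.basis k j : 𝓞 k)‖
      ≤ ∑ j, ‖(t j : ℂ) * σ (RingOfIntegers.basis k j : 𝓞 k)‖ := norm_sum_le _ _
    _ ≤ ∑ j, Q * ‖σ (RingOfIntegers.basis k j : 𝓞 k)‖ := by
        refine Finset.sum_le_sum fun j _ => ?_
        rw [norm_mul, Complex.norm_natCast]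
        exact mul_le_mul_of_nonneg_right (by exact_mod_cast ht j) (norm_nonneg _)
    _ = Q * ∑ j, ‖σ (RingOfIntegers.basis k j : 𝓞 k)‖ := by rw [Finset.mul_sum]
    _ ≤ Q * ∑ σ : k →+* ℂ, ∑ j, ‖σ (RingOfIntegers.basis k j : 𝓞 k)‖ := by
        apply mul_le_mul_of_nonneg_left _ (Nat.cast_nonneg _)
        exact Finset.single_le_sum (f := fun σ : k →+* ℂ => ∑ j, ‖σ (RingOfIntegers.basis k j : 𝓞 k)‖)
          (fun σ _ => Finset.sum_nonneg fun j _ => norm_nonneg _) (Finset.mem_univ σ)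
    _ ≤ Q * (⌈∑ σ : k →+* ℂ, ∑ j, ‖σ (RingOfIntegers.basis k j : 𝓞 k)‖⌉₊ : ℝ) :=
        mul_le_mul_of_nonneg_left (Nat.le_ceil _) (Nat.cast_nonneg _)
    _ = _ := mul_comm _ _

/-- coefficients attached to parameters -/
noncomputable def cpar (m K Q : ℕ) (t : Fin m → Free.ChooseBasisIndex ℤ (𝓞 k) → Fin Q) (i : ℕ) : 𝓞 k :=
  (if h : i < m then bet (fun j => (t ⟨i, h⟩ j : ℕ)) else 0) +
    (if i + 1 = m then (((K + 1) * Q : ℕ) : 𝓞 k) else 0)

theorem cpar_injective (m K Q : ℕ) {t t' : Fin m → Free.ChooseBasisIndex ℤ (𝓞 k) → Fin Q}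
    (h : ∀ i < m, cpar m K Q t i = cpar m K Q t' i) : t = t' := by
  funext i j
  have h1 := h i i.2
  simp only [cpar, dif_pos i.2] at h1
  have h2 := bet_injective (add_right_cancel h1)
  exact Fin.ext (congrFun h2 j)

theorem cpar_upper {m K Q : ℕ} (hK : ∀ (Q : ℕ) (t : Free.ChooseBasisIndex ℤ (𝓞 k) → ℕ), (∀ j, t j ≤ Q) →
    ∀ σ : k →+* ℂ, ‖σ (bet t : 𝓞 k)‖ ≤ K * Q)
    (t : Fin m → Free.ChooseBasisIndex ℤ (𝓞 k) → Fin Q) (σ : k →+* ℂ) (i : ℕ) :
    ‖σ (cpar m K Q t i)‖ ≤ (2 * K + 1) * Q := by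
  have h1 : ‖σ ((if h : i < m then bet (fun j => (t ⟨i, h⟩ j : ℕ)) else 0 : 𝓞 k) : k)‖ ≤ K * Q := by
    split_ifs with h
    · exact hK Q _ (fun j => (t ⟨i, h⟩ j).2.le) σ
    · simp; positivity
  have h2 : ‖σ ((if i + 1 = m then (((K + 1) * Q : ℕ) : 𝓞 k) else 0 : 𝓞 k) : k)‖ ≤ (K + 1) * Q := by
    split_ifs
    · simp only [map_natCast, Complex.norm_natCast]
      push_cast
      exact le_rfl
    · simp; positivity
  unfold cpar
  change ‖(σ.comp (algebraMap (𝓞 k) k)) (_ + _)‖ ≤ _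
  rw [map_add]
  calc _ ≤ _ := norm_add_le _ _
    _ ≤ K * Q + (K + 1) * Q := add_le_add h1 h2
    _ = _ := by ring

theorem cpar_lower {m K Q : ℕ} (hm : 1 ≤ m) (hK : ∀ (Q : ℕ) (t : Free.ChooseBasisIndex ℤ (𝓞 k) → ℕ), (∀ j, t j ≤ Q) →
    ∀ σ : k →+* ℂ, ‖σ (bet t : 𝓞 k)‖ ≤ K * Q)
    (t : Fin m → Free.ChooseBasisIndex ℤ (𝓞 k) → Fin Q) (σ : k →+* ℂ) :
    (Q : ℝ) ≤ ‖σ (cpar m K Q t (m - 1))‖ := by
  unfold cpar
  rw [dif_pos (by omega), if_pos (by omega)]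
  change _ ≤ ‖(σ.comp (algebraMap (𝓞 k) k)) (_ + _)‖
  rw [map_add]
  have h1 := hK Q (fun j => (t ⟨m - 1, by omega⟩ j : ℕ)) (fun j => (t _ j).2.le) σ
  have h2 : ‖σ ((((K + 1) * Q : ℕ) : 𝓞 k) : k)‖ = (K + 1) * Q := by
    simp only [map_natCast, Complex.norm_natCast]
    push_cast; rfl
  have h3 : ‖σ ((((K + 1) * Q : ℕ) : 𝓞 k) : k)‖ ≤ ‖σ (bet (fun j => (t ⟨m - 1, by omega⟩ j : ℕ)) : 𝓞 k)
      + σ ((((K + 1) * Q : ℕ) : 𝓞 k) : k)‖ + ‖σ (bet (fun j => (t ⟨m - 1, by omega⟩ j : ℕ)) : 𝓞 k)‖ := by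
    have := norm_sub_le (σ (bet (fun j => (t ⟨m - 1, by omega⟩ j : ℕ)) : 𝓞 k)
      + σ ((((K + 1) * Q : ℕ) : 𝓞 k) : k)) (σ (bet (fun j => (t ⟨m - 1, by omega⟩ j : ℕ)) : 𝓞 k))
    rwa [add_sub_cancel_left] at this
  rw [h2] at h3
  change _ ≤ ‖σ (bet (fun j => (t ⟨m - 1, by omega⟩ j : ℕ)) : 𝓞 k) + σ ((((K + 1) * Q : ℕ) : 𝓞 k) : k)‖
  nlinarith

/-- the points for which Vojta's inequality without the discriminant term fails -/
def Ntv {Ω : Type u} [Field Ω] [Algebra k Ω] (g : k[X]) (q r : ℕ) (S : Finset (Pl k)) (ε c : ℝ)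
    (L : IntermediateField k Ω) [NumberField L] (y : L) : Prop :=
  finrank k L = r ∧ aeval y g ≠ 0 ∧
    ε * (Height.logHeight (aff y) / finrank k L) - c
      < -(2 * (Height.logHeight (aff y) / finrank k L))
        + ∑ ν ∈ S, (∑ w ∈ above L ν, dloc g q w y) / finrank k L

theorem exists_prime_data (k : Type u) [Field k] [NumberField k] :
    ∃ (P : Ideal (𝓞 k)) (π : 𝓞 k) (N : ℕ), P.IsPrime ∧ π ∈ P ∧ π ∉ P ^ 2 ∧ (N : 𝓞 k) ∈ P ∧ 1 ≤ N := by
  obtain ⟨P, hP⟩ := Ideal.exists_maximal (𝓞 k)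
  have hbot : P ≠ ⊥ := Ring.ne_bot_of_isMaximal_of_not_isField hP (RingOfIntegers.not_isField k)
  obtain ⟨π, h1, h2⟩ := Ideal.exists_mem_pow_notMem_pow_succ P hbot hP.ne_top 1
  rw [pow_one] at h1
  refine ⟨P, π, Ideal.absNorm P, hP.isPrime, h1, h2, Ideal.absNorm_mem P, ?_⟩
  exact Nat.one_le_iff_ne_zero.mpr (Ideal.absNorm_ne_zero_iff_mem_nonZeroDivisors.mpr
    (mem_nonZeroDivisors_of_ne_zero hbot))

open scoped Classical in
/-- the points of the family, for given sizes -/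
theorem family_points (Ω : Type u) [Field Ω] [Algebra k Ω] [IsAlgClosed Ω] (g1 : k[X]) (hg1 : g1 ≠ 0)
    (S : Finset (Pl k)) (hS : ∀ v : InfinitePlace k, Sum.inl v ∈ S) (m : ℕ) (hm : 1 ≤ m) :
    ∃ (B C : ℝ), 1 ≤ B ∧ 0 ≤ C ∧ ∀ (Q Q' : ℕ), 1 ≤ Q → 1 ≤ Q' → Q' ≤ Q →
      ∃ P : Finset Ω, (Q : ℝ) ^ (finrank ℚ k * m) * (Q' : ℝ) ^ finrank ℚ k
          ≤ P.card + (X * (X - 1) * g1 : k[X]).natDegree ∧
        ∀ x ∈ P, ∃ _ : NumberField k⟮x⟯, finrank k k⟮x⟯ = m + 2 ∧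
          aeval (AdjoinSimple.gen k x) (X * (X - 1) * g1) ≠ 0 ∧
          finrank ℚ k * Real.log (Q / (m + 2)) ≤ Height.logHeight (aff (AdjoinSimple.gen k x)) ∧
          Height.logHeight (aff (AdjoinSimple.gen k x))
            ≤ finrank ℚ k * Real.log ((2 + (m + 2) * (m + 2)) * B ^ 2 * Q) ∧
          3 * Height.logHeight (aff (AdjoinSimple.gen k x)) - finrank ℚ k * Real.log B
            - finrank ℚ k * Real.log (2 * B ^ 2 * Q') - C ≤
            ∑ w ∈ upW k⟮x⟯ S, dloc (X * (X - 1) * g1) (g1.natDegree + 3) w (AdjoinSimple.gen k x) := by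
  obtain ⟨I, π, N, hI, hπ, hπ2, hN, hN1⟩ := exists_prime_data k
  obtain ⟨K, hK⟩ := bet_bound (k := k)
  obtain ⟨C, hC0, hC⟩ := point_analysis (Ω := Ω) g1 S hS (m + 2) (by omega)
  set B : ℝ := (2 * K + 1) + N + ∑ σ : k →+* ℂ, ‖σ (π : 𝓞 k)‖ with hB
  have hsum0 : 0 ≤ ∑ σ : k →+* ℂ, ‖σ (π : 𝓞 k)‖ := Finset.sum_nonneg fun σ _ => norm_nonneg _
  have hK0 : (0 : ℝ) ≤ K := Nat.cast_nonneg _
  have hN0' : (0 : ℝ) ≤ N := Nat.cast_nonneg _
  have hB1 : 1 ≤ B := by rw [hB]; linarith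
  have hπB : ∀ σ : k →+* ℂ, ‖σ (π : 𝓞 k)‖ ≤ B := by
    intro σ
    have := Finset.single_le_sum (f := fun σ : k →+* ℂ => ‖σ (π : 𝓞 k)‖) (fun σ _ => norm_nonneg _)
      (Finset.mem_univ σ)
    rw [hB]; linarith
  refine ⟨B, C, hB1, hC0, ?_⟩
  intro Q Q' hQ hQ' hQQ'
  have hQr : (1 : ℝ) ≤ Q := by exact_mod_cast hQ
  have hQr' : (1 : ℝ) ≤ Q' := by exact_mod_cast hQ'
  have hQQr : (Q' : ℝ) ≤ Q := by exact_mod_cast hQQ'
  let ι := Free.ChooseBasisIndex ℤ (𝓞 k)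
  let Par := (Fin m → ι → Fin Q) × (ι → Fin Q')
  let bb : Par → 𝓞 k := fun p => bet (fun j => (p.2 j : ℕ))
  let F : Par → (𝓞 k)[X] := fun p => famP m π (N : 𝓞 k) (bb p) (cpar m K Q p.1)
  have hirr : ∀ p, Irreducible (F p) := fun p => famP_irreducible m π _ _ _ hI hπ hπ2 hN
  have hroot : ∀ p, ∃ x : Ω, IsIntegral ℤ x ∧ minpoly k x = (F p).map (algebraMap (𝓞 k) k) := fun p =>
    exists_root (F p) (famP_monic m π _ _ _) (hirr p) (by rw [famP_natDegree]; omega)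
  choose xp hxp1 hxp2 using hroot
  have hNne : (N : 𝓞 k) ≠ 0 := by
    have : N ≠ 0 := by omega
    exact_mod_cast this
  have hinj : Function.Injective xp := by
    intro p p' h
    have h1 : (F p).map (algebraMap (𝓞 k) k) = (F p').map (algebraMap (𝓞 k) k) := by
      rw [← hxp2, ← hxp2, h]
    have h2 : F p = F p' := Polynomial.map_injective _ RingOfIntegers.coe_injective h1
    obtain ⟨h3, h4⟩ := famP_injective m π (N : 𝓞 k) _ _ hNne h2
    refine Prod.ext (cpar_injective m K Q h4) ?_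
    have h5 := bet_injective h3
    funext j
    exact Fin.ext (congrFun h5 j)
  set g : k[X] := X * (X - 1) * g1 with hg
  have hg0 : g ≠ 0 := by
    rw [hg]
    refine mul_ne_zero (mul_ne_zero X_ne_zero ?_) hg1
    exact (monic_X_sub_C (1 : k)).ne_zero
  let P0 : Finset Ω := Finset.univ.image xp
  refine ⟨P0.filter fun x => aeval x g ≠ 0, ?_, ?_⟩
  · have h1 : P0.card = Q ^ (finrank ℚ k * m) * Q' ^ finrank ℚ k := by
      have hι : Fintype.card ι = finrank ℚ k := by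
        rw [← RingOfIntegers.rank k]
        exact (finrank_eq_card_chooseBasisIndex ℤ (𝓞 k)).symm
      rw [Finset.card_image_of_injective _ hinj, Finset.card_univ, Fintype.card_prod, Fintype.card_fun,
        Fintype.card_fun, Fintype.card_fun, Fintype.card_fin, Fintype.card_fin, Fintype.card_fin, hι, ← pow_mul]
    have h2 : (P0.filter fun x => ¬ (aeval x g ≠ 0)).card ≤ g.natDegree := by
      calc _ ≤ (g.aroots Ω).toFinset.card := by
            refine Finset.card_le_card ?_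
            intro x hx
            rw [Finset.mem_filter, not_not] at hx
            rw [Multiset.mem_toFinset, mem_aroots]
            exact ⟨hg0, hx.2⟩
        _ ≤ Multiset.card (g.aroots Ω) := Multiset.toFinset_card_le _
        _ ≤ (g.map (algebraMap k Ω)).natDegree := card_roots' _
        _ = g.natDegree := by rw [natDegree_map]
    have h3 := Finset.card_filter_add_card_filter_not (s := P0) (fun x => aeval x g ≠ 0)
    have h4 : Q ^ (finrank ℚ k * m) * Q' ^ finrank ℚ k ≤ (P0.filter fun x => aeval x g ≠ 0).card + g.natDegree := by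
      omega
    exact_mod_cast h4
  · intro x hx
    rw [Finset.mem_filter] at hx
    obtain ⟨hx1, hx2⟩ := hx
    obtain ⟨p, _, rfl⟩ := Finset.mem_image.mp hx1
    have hkint : IsIntegral k (xp p) := (hxp1 p).tower_top
    have hfd : FiniteDimensional k k⟮xp p⟯ := adjoin.finiteDimensional hkint
    have hnf : NumberField k⟮xp p⟯ := NumberField.of_module_finite k _
    have hmon : (F p).Monic := famP_monic m π _ _ _
    have hcu := fun σ : k →+* ℂ => cpar_upper hK p.1 σ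
    have hcl := fun σ : k →+* ℂ => cpar_lower hm hK p.1 σ
    have hbu : ∀ σ : k →+* ℂ, ‖σ (bb p : 𝓞 k)‖ ≤ K * Q' := fun σ =>
      hK Q' _ (fun j => (p.2 j).2.le) σ
    have hmr : (0 : ℝ) ≤ m := Nat.cast_nonneg _
    have hpa := hC (xp p) (F p) (hxp1 p) (hxp2 p) (famP_natDegree m π _ _ _) hmon hx2 hnf
      (Q / (m + 2)) ((2 + (m + 2) * (m + 2)) * B ^ 2 * Q) B (2 * B ^ 2 * Q') (by positivity) (by linarith)
      (by positivity) ?_ ?_ ?_ ?_
    · obtain ⟨a1, a2, a3, a4⟩ := hpa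
      refine ⟨hnf, a1, ?_, a2, a3, a4⟩
      intro h0
      apply hx2
      have := congrArg (algebraMap k⟮xp p⟯ Ω) h0
      rwa [map_zero, ← aeval_algebraMap_apply, AdjoinSimple.algebraMap_gen] at this
    · intro σ
      have h1 := norm_coeff_le_choose_mul_mahlerMeasure (m + 1) ((F p).map (σ.comp (algebraMap (𝓞 k) k)))
      rw [coeff_map, famP_coeff m π _ _ _ (by omega), hmon.natDegree_map, famP_natDegree] at h1
      have h2 : aCo m π (N : 𝓞 k) (bb p) (cpar m K Q p.1) (m + 1) = N * cpar m K Q p.1 (m - 1) := by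
        obtain ⟨m', rfl⟩ : ∃ m', m = m' + 1 := ⟨m - 1, by omega⟩
        rfl
      rw [h2, map_mul, map_natCast, norm_mul, Complex.norm_natCast, Nat.choose_succ_self_right] at h1
      have h3 : (Q : ℝ) ≤ N * ‖(σ.comp (algebraMap (𝓞 k) k)) (cpar m K Q p.1 (m - 1))‖ := by
        have h4 := hcl σ
        have h5 : (1 : ℝ) ≤ N := by exact_mod_cast hN1
        change _ ≤ (N : ℝ) * ‖σ (cpar m K Q p.1 (m - 1) : 𝓞 k)‖
        nlinarith [norm_nonneg (σ (cpar m K Q p.1 (m - 1) : 𝓞 k))]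
      rw [div_le_iff₀ (by positivity)]
      push_cast at h1
      have h4 : (m : ℝ) + 1 + 1 = m + 2 := by ring
      rw [h4] at h1
      linarith
    · intro σ
      refine famP_mahler_le (σ.comp (algebraMap (𝓞 k) k)) m π (N : 𝓞 k) (bb p) _ B Q hQr hB1 (hπB σ) ?_ ?_ ?_
      · rw [map_natCast, Complex.norm_natCast, hB]; linarith
      · calc _ ≤ (K : ℝ) * Q' := hbu σ
          _ ≤ K * Q := mul_le_mul_of_nonneg_left hQQr hK0
          _ ≤ B * Q := mul_le_mul_of_nonneg_right (by rw [hB]; linarith) (by linarith)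
      · intro i _
        calc _ ≤ (2 * (K : ℝ) + 1) * Q := hcu σ i
          _ ≤ B * Q := mul_le_mul_of_nonneg_right (by rw [hB]; linarith) (by linarith)
    · intro σ
      rw [famP_eval_zero]
      exact hπB σ
    · intro σ
      rw [famP_eval_one]
      change ‖(σ.comp (algebraMap (𝓞 k) k)) (1 + N * bb p)‖ ≤ _
      rw [map_add, map_one, map_mul, map_natCast]
      have h1 : ‖(N : ℂ) * (σ.comp (algebraMap (𝓞 k) k)) (bb p)‖ ≤ B * (B * Q') := by
        rw [norm_mul, Complex.norm_natCast]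
        refine mul_le_mul (by rw [hB]; linarith) ?_ (norm_nonneg _) (by linarith)
        calc _ ≤ (K : ℝ) * Q' := hbu σ
          _ ≤ B * Q' := mul_le_mul_of_nonneg_right (by rw [hB]; linarith) (by linarith)
      have h2 : (1 : ℝ) ≤ B ^ 2 * Q' := by
        have : 1 ≤ B ^ 2 := one_le_pow₀ hB1
        nlinarith
      calc ‖(1 : ℂ) + N * (σ.comp (algebraMap (𝓞 k) k)) (bb p)‖
          ≤ ‖(1 : ℂ)‖ + ‖(N : ℂ) * (σ.comp (algebraMap (𝓞 k) k)) (bb p)‖ := norm_add_le _ _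
        _ ≤ 1 + B * (B * Q') := by rw [norm_one]; linarith
        _ ≤ 2 * B ^ 2 * Q' := by nlinarith

end

end Pool.Agent.Helper52.Vojta
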