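import Mathlib

/-!
Values of a polynomial, seen as a form of degree `r`, at the points of the complex projective line;
the points are modelled by `Option ℂ`, with `none` the point at infinity.
-/

namespace Pool.Agent.Helper52.Vojta

open Finset Polynomial

/-- value of a form of degree `r` at a point of the projective line -/
noncomputable def pev (r : ℕ) (F : ℂ[X]) : Option ℂ → ℂ
  | none => F.coeff r
  | some α => F.eval α

theorem pev_add (r : ℕ) (F G : ℂ[X]) (p : Option ℂ) : pev r (F + G) p = pev r F p + pev r G p := by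
  cases p
  · exact coeff_add _ _ _
  · exact eval_add

theorem pev_sub (r : ℕ) (F G : ℂ[X]) (p : Option ℂ) : pev r (F - G) p = pev r F p - pev r G p := by
  cases p
  · exact coeff_sub _ _ _
  · change eval _ _ = _
    rw [eval_sub]
    rfl

theorem pev_C_mul (r : ℕ) (c : ℂ) (F : ℂ[X]) (p : Option ℂ) : pev r (C c * F) p = c * pev r F p := by
  cases p
  · exact coeff_C_mul _
  · change eval _ _ = _
    rw [eval_mul, eval_C]
    rfl

theorem pev_conj (r : ℕ) (F : ℂ[X]) (p : Option ℂ) :
    pev r (F.map (starRingEnd ℂ)) (p.map (starRingEnd ℂ)) = starRingEnd ℂ (pev r F p) := by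
  cases p with
  | none => exact coeff_map _ _
  | some α =>
    change (F.map (starRingEnd ℂ)).eval (starRingEnd ℂ α) = _
    rw [eval_map_apply]
    rfl

/-- size of a point -/
noncomputable def psz (r : ℕ) : Option ℂ → ℝ
  | none => 1
  | some α => ∑ i ∈ range (r + 1), ‖α‖ ^ i

theorem one_le_psz (r : ℕ) (p : Option ℂ) : 1 ≤ psz r p := by
  cases p with
  | none => exact le_rfl
  | some α =>
    change 1 ≤ ∑ i ∈ range (r + 1), ‖α‖ ^ i
    rw [Finset.sum_range_succ']
    have : 0 ≤ ∑ i ∈ range r, ‖α‖ ^ (i + 1) := Finset.sum_nonneg fun i _ => by positivity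
    rw [pow_zero]; linarith

theorem pev_le {r : ℕ} {F : ℂ[X]} (hr : F.natDegree ≤ r) {B : ℝ} (hB : ∀ i, ‖F.coeff i‖ ≤ B) (p : Option ℂ) :
    ‖pev r F p‖ ≤ B * psz r p := by
  cases p with
  | none =>
    change ‖F.coeff r‖ ≤ B * 1
    rw [mul_one]; exact hB r
  | some α =>
    change ‖F.eval α‖ ≤ B * ∑ i ∈ range (r + 1), ‖α‖ ^ i
    rw [eval_eq_sum_range' (lt_of_le_of_lt hr (Nat.lt_succ_self r)), Finset.mul_sum]
    refine (norm_sum_le _ _).trans (Finset.sum_le_sum fun i _ => ?_)
    rw [norm_mul, norm_pow]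
    exact mul_le_mul_of_nonneg_right (hB i) (by positivity)

theorem coeff_le_mahler {r : ℕ} {F : ℂ[X]} (hr : F.natDegree ≤ r) (i : ℕ) :
    ‖F.coeff i‖ ≤ 2 ^ r * F.mahlerMeasure := by
  refine (norm_coeff_le_choose_mul_mahlerMeasure i F).trans ?_
  refine mul_le_mul_of_nonneg_right ?_ (mahlerMeasure_nonneg F)
  have h1 : F.natDegree.choose i ≤ 2 ^ F.natDegree := Nat.choose_le_two_pow _ _
  have h2 : 2 ^ F.natDegree ≤ 2 ^ r := Nat.pow_le_pow_right (by norm_num) hr
  exact_mod_cast h1.trans h2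

theorem pev_le_mahler {r : ℕ} {F : ℂ[X]} (hr : F.natDegree ≤ r) (p : Option ℂ) :
    ‖pev r F p‖ ≤ 2 ^ r * F.mahlerMeasure * psz r p := pev_le hr (fun i => coeff_le_mahler hr i) p

/-- a polynomial which vanishes at too many points is zero -/
theorem pev_injective {r : ℕ} {F : ℂ[X]} (hr : F.natDegree ≤ r) {J : Finset (Option ℂ)} (hJ : r + 1 ≤ J.card)
    (h : ∀ p ∈ J, pev r F p = 0) : F = 0 := by
  classical
  by_contra hF
  let R : Finset ℂ := J.eraseNone
  have hR : ∀ z ∈ R, F.eval z = 0 := by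
    intro z hz
    exact h (some z) (Finset.mem_eraseNone.mp hz)
  have hRsub : R ⊆ F.roots.toFinset := by
    intro z hz
    rw [Multiset.mem_toFinset, mem_roots hF]
    exact hR z hz
  have h1 : R.card ≤ F.natDegree :=
    (Finset.card_le_card hRsub).trans ((Multiset.toFinset_card_le _).trans (card_roots' _))
  by_cases hn : none ∈ J
  · have h2 : F.coeff r = 0 := h none hn
    have h3 : F.natDegree ≠ r := by
      intro h4
      rw [← h4] at h2
      exact hF (leadingCoeff_eq_zero.mp h2)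
    have h5 : R.card = J.card - 1 := by
      have := Finset.card_eraseNone_of_mem hn
      exact this
    omega
  · have h5 : R.card = J.card := Finset.card_eraseNone_of_not_mem hn
    omega

/-- coefficients are controlled by the values at `r + 1` points -/
theorem pev_interp (r : ℕ) (J : Finset (Option ℂ)) (hJ : r + 1 ≤ J.card) : ∃ K : ℝ, 0 < K ∧
    ∀ (F : ℂ[X]) (s : ℝ), F.natDegree ≤ r → 0 ≤ s → (∀ p ∈ J, ‖pev r F p‖ ≤ s) → ∀ i, ‖F.coeff i‖ ≤ K * s := by
  classical
  let f : degreeLT ℂ (r + 1) →ₗ[ℂ] (J → ℂ) :=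
    { toFun := fun F p => pev r (F : ℂ[X]) p
      map_add' := by
        intro F G
        funext p
        exact pev_add _ _ _ _
      map_smul' := by
        intro c F
        funext p
        have : ((c • F : degreeLT ℂ (r + 1)) : ℂ[X]) = C c * (F : ℂ[X]) := by
          rw [Submodule.coe_smul, smul_eq_C_mul]
        rw [this, pev_C_mul]
        rfl }
  have hf : LinearMap.ker f = ⊥ := by
    rw [LinearMap.ker_eq_bot']
    intro F hF
    have h1 : (F : ℂ[X]).natDegree ≤ r := by
      have := mem_degreeLT.mp F.2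
      by_cases h0 : (F : ℂ[X]) = 0
      · rw [h0]; simp
      · have := (natDegree_lt_iff_degree_lt h0).mpr this
        omega
    have h2 : (F : ℂ[X]) = 0 := pev_injective h1 hJ fun p hp => congrFun hF ⟨p, hp⟩
    exact Subtype.ext h2
  -- pass to coordinates
  let e := degreeLTEquiv ℂ (r + 1)
  let f' : (Fin (r + 1) → ℂ) →ₗ[ℂ] (J → ℂ) := f.comp e.symm.toLinearMap
  have hf' : LinearMap.ker f' = ⊥ := by
    rw [LinearMap.ker_eq_bot] at hf ⊢
    exact hf.comp e.symm.injective
  obtain ⟨K, hK, hK'⟩ := f'.exists_antilipschitzWith hf'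
  refine ⟨K, by exact_mod_cast hK, ?_⟩
  intro F s hr hs hF i
  have hmem : F ∈ degreeLT ℂ (r + 1) := by
    rw [mem_degreeLT]
    exact lt_of_le_of_lt degree_le_natDegree (by exact_mod_cast Nat.lt_succ_of_le hr)
  by_cases hi : i < r + 1
  · have h1 : f' (e ⟨F, hmem⟩) = fun p : J => pev r F p := by
      simp only [f', LinearMap.comp_apply, LinearEquiv.coe_coe, LinearEquiv.symm_apply_apply]
      rfl
    have h2 := hK'.le_mul_dist (e ⟨F, hmem⟩) 0
    rw [map_zero, dist_zero_right, dist_zero_right, h1] at h2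
    have h3 : ‖(fun p : J => pev r F p)‖ ≤ s := by
      rw [pi_norm_le_iff_of_nonneg hs]
      intro p
      exact hF p p.2
    have h4 : ‖(e ⟨F, hmem⟩) ⟨i, hi⟩‖ ≤ ‖e ⟨F, hmem⟩‖ := norm_le_pi_norm _ _
    have h5 : (e ⟨F, hmem⟩) ⟨i, hi⟩ = F.coeff i := rfl
    rw [h5] at h4
    calc ‖F.coeff i‖ ≤ _ := h4
      _ ≤ _ := h2
      _ ≤ K * s := mul_le_mul_of_nonneg_left h3 K.2
  · rw [coeff_eq_zero_of_natDegree_lt (by omega), norm_zero]
    have : (0 : ℝ) ≤ K := K.2
    positivity

end Pool.Agent.Helper52.Vojta
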