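import Mathlib
import Pool.Agent.Helper52.Vojta.GenFin
import Pool.Agent.Helper52.Vojta.PtEval
import Pool.Agent.Helper52.Vojta.LowerCount

/-!
The archimedean contribution of a divisor at a point through the values of a polynomial at the
points of the divisor.
-/

namespace Pool.Agent.Helper52.Vojta

open NumberField Finset Module Polynomial IntermediateField Pool.Agent.Helper64.Vojta

universe u v

section

variable {k : Type u} [Field k] [NumberField k]

theorem sum_inf_eq {L : Type v} [Field L] [NumberField L] (y : L) :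
    ∑ v : InfinitePlace L, Real.log (nv (.inl v) y) = ∑ φ : L →+* ℂ, Real.log ‖φ y‖ := by
  have h1 := sum_mult_eq_sum_embeddings (fun t => Real.log t) y
  rw [← h1]
  refine Finset.sum_congr rfl fun v _ => ?_
  change Real.log (v y ^ v.mult) = _
  rw [Real.log_pow]

open scoped Classical in
theorem sum_inf_norm {L : Type v} [Field L] [NumberField L] [Algebra k L] (y : L) (hy : y ≠ 0) :
    ∑ v : InfinitePlace L, Real.log (nv (.inl v) y)
      = ∑ σ : k →+* ℂ, Real.log ‖σ (Algebra.norm k y)‖ := by
  rw [sum_inf_eq, ← Finset.sum_fiberwise (s := Finset.univ) (g := fun φ : L →+* ℂ => φ.comp (algebraMap k L))]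
  refine Finset.sum_congr rfl fun σ _ => ?_
  rw [norm_eq_prod_above σ y, Real.log_prod]
  intro φ _
  rw [norm_ne_zero_iff]
  exact (map_ne_zero φ).mpr hy

open scoped Classical in
/-- the points of the divisor over a complex embedding -/
noncomputable def dset (g : k[X]) (q : ℕ) (σ : k →+* ℂ) : Finset (Option ℂ) :=
  (g.map σ).roots.toFinset.image some ∪ (if g.natDegree < q then {none} else ∅)

open scoped Classical in
omit [NumberField k] in
theorem sum_dset (g : k[X]) (q : ℕ) (σ : k →+* ℂ) (f : Option ℂ → ℝ) :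
    ∑ p ∈ dset g q σ, f p = ∑ β ∈ (g.map σ).roots.toFinset, f (some β)
      + (if g.natDegree < q then f none else 0) := by
  unfold dset
  rw [Finset.sum_union, Finset.sum_image]
  · congr 1
    split_ifs
    · rw [Finset.sum_singleton]
    · rw [Finset.sum_empty]
  · intro a _ b _ h
    exact Option.some_injective _ h
  · rw [Finset.disjoint_left]
    intro p hp
    obtain ⟨β, _, rfl⟩ := Finset.mem_image.mp hp
    split_ifs <;> simp

open scoped Classical in
theorem map_eq_prod (g : k[X]) (hg : Squarefree g) (σ : k →+* ℂ) :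
    g.map σ = C (σ g.leadingCoeff) * ∏ β ∈ (g.map σ).roots.toFinset, (X - C β) := by
  have hsep : g.Separable := (PerfectField.separable_iff_squarefree).mpr hg
  have hnd : (g.map σ).roots.Nodup := nodup_roots hsep.map
  have h1 : g.map σ = C (g.map σ).leadingCoeff * ((g.map σ).roots.map fun a => X - C a).prod :=
    (IsAlgClosed.splits (g.map σ)).eq_prod_roots
  rw [leadingCoeff_map] at h1
  have h5 : (((g.map σ).roots.map fun a => X - C a).prod : ℂ[X])
      = ∏ z ∈ (g.map σ).roots.toFinset, (X - C z) := by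
    rw [Finset.prod, Multiset.toFinset_val, hnd.dedup]
  rw [h5] at h1
  exact h1

open scoped Classical in
theorem card_roots_map (g : k[X]) (hg : Squarefree g) (σ : k →+* ℂ) :
    (g.map σ).roots.toFinset.card = g.natDegree := by
  have hsep : g.Separable := (PerfectField.separable_iff_squarefree).mpr hg
  have hnd : (g.map σ).roots.Nodup := nodup_roots hsep.map
  rw [Multiset.toFinset_card_of_nodup hnd, ← natDegree_map σ (p := g)]
  exact (IsAlgClosed.splits (g.map σ)).natDegree_eq_card_roots.symm

open scoped Classical in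
theorem card_dset (g : k[X]) (hg : Squarefree g) {q : ℕ} (h1 : g.natDegree ≤ q) (h2 : q ≤ g.natDegree + 1)
    (σ : k →+* ℂ) : (dset g q σ).card = q := by
  unfold dset
  rw [Finset.card_union_of_disjoint, Finset.card_image_of_injective _ (Option.some_injective _),
    card_roots_map g hg σ]
  · split_ifs with h
    · rw [Finset.card_singleton]; omega
    · rw [Finset.card_empty]; omega
  · rw [Finset.disjoint_left]
    intro p hp
    obtain ⟨β, _, rfl⟩ := Finset.mem_image.mp hp
    split_ifs <;> simp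

/-- embedding of the integers -/
noncomputable def iemb (σ : k →+* ℂ) : 𝓞 k →+* ℂ := σ.comp (algebraMap (𝓞 k) k)

open scoped Classical in
/-- the archimedean contribution -/
theorem sum_inf_dloc (g : k[X]) (hg : Squarefree g) {q : ℕ} (h1 : g.natDegree ≤ q) (h2 : q ≤ g.natDegree + 1)
    {L : Type v} [Field L] [NumberField L] [Algebra k L] (pb : PowerBasis k L) (F : (𝓞 k)[X]) (a : 𝓞 k)
    (ha : a ≠ 0) (hF : F.map (algebraMap (𝓞 k) k) = Polynomial.C (a : k) * minpoly k pb.gen)
    (hy : aeval pb.gen g ≠ 0) :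
    ∑ w : InfinitePlace L, dloc g q (.inl w) pb.gen
      = ∑ σ : k →+* ℂ, (∑ p ∈ dset g q σ, (Real.log (F.map (iemb σ)).mahlerMeasure
          - Real.log ‖pev pb.dim (F.map (iemb σ)) p‖) - pb.dim * Real.log ‖σ g.leadingCoeff‖) := by
  have hfd : FiniteDimensional k L := FiniteDimensional.right ℚ k L
  have hg0 : g ≠ 0 := hg.ne_zero
  have ha' : (a : k) ≠ 0 := by exact_mod_cast ha
  have hmon : (minpoly k pb.gen).Monic := minpoly.monic pb.isIntegral_gen
  unfold dloc
  rw [Finset.sum_sub_distrib, ← Finset.mul_sum, sum_log_max pb, sum_inf_norm (k := k) _ hy, Finset.mul_sum,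
    ← Finset.sum_sub_distrib]
  refine Finset.sum_congr rfl fun σ _ => ?_
  have haσ : 0 < ‖σ (a : k)‖ := norm_pos_iff.mpr ((map_ne_zero σ).mpr ha')
  have hFσ : F.map (iemb σ) = C (σ (a : k)) * (minpoly k pb.gen).map σ := by
    unfold iemb
    rw [← Polynomial.map_map, hF, Polynomial.map_mul, map_C]
  have hpos : 0 < ((minpoly k pb.gen).map σ).mahlerMeasure := mahlerMeasure_pos_of_ne_zero (hmon.map σ).ne_zero
  have hM : Real.log (F.map (iemb σ)).mahlerMeasure
      = Real.log ‖σ (a : k)‖ + Real.log ((minpoly k pb.gen).map σ).mahlerMeasure := by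
    rw [hFσ, mahlerMeasure_mul, mahlerMeasure_const, Real.log_mul haσ.ne' hpos.ne']
  set A := Finset.univ.filter (fun φ : L →+* ℂ => φ.comp (algebraMap k L) = σ) with hA
  have hcard : A.card = pb.dim := by
    have h3 := map_minpoly_eq_prod pb σ
    have h4 := congrArg natDegree h3
    rw [natDegree_map, pb.natDegree_minpoly, natDegree_prod_of_monic _ _ (fun φ _ => monic_X_sub_C _)] at h4
    simp only [natDegree_X_sub_C, Finset.sum_const, smul_eq_mul, mul_one] at h4
    exact h4.symm
  set B := (g.map σ).roots.toFinset with hB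
  have hval : ∀ φ ∈ A, φ (aeval pb.gen g) = σ g.leadingCoeff * ∏ β ∈ B, (φ pb.gen - β) := by
    intro φ hφ
    rw [hA, Finset.mem_filter] at hφ
    have e1 : φ (aeval pb.gen g) = (g.map σ).eval (φ pb.gen) := by
      rw [eval_map, ← hφ.2, aeval_def, hom_eval₂]
    rw [e1, map_eq_prod g hg σ, eval_mul, eval_C, eval_prod]
    simp only [eval_sub, eval_X, eval_C]
    rfl
  have hnz : ∀ φ ∈ A, ∀ β ∈ B, φ pb.gen - β ≠ 0 := by
    intro φ hφ β hβ h0
    have h3 := hval φ hφ
    rw [Finset.prod_eq_zero hβ h0, mul_zero, map_eq_zero] at h3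
    exact hy h3
  have hlc : 0 < ‖σ g.leadingCoeff‖ := norm_pos_iff.mpr ((map_ne_zero σ).mpr (leadingCoeff_ne_zero.mpr hg0))
  have hN : Real.log ‖σ (Algebra.norm k (aeval pb.gen g))‖
      = pb.dim * Real.log ‖σ g.leadingCoeff‖ + ∑ β ∈ B, Real.log ‖((minpoly k pb.gen).map σ).eval β‖ := by
    rw [norm_eq_prod_above σ, ← norm_prod, Finset.prod_congr rfl hval, Finset.prod_mul_distrib, Finset.prod_const,
      hcard, Finset.prod_comm, norm_mul, norm_pow, norm_prod]
    have h3 : ∀ β ∈ B, ‖∏ φ ∈ A, (φ pb.gen - β)‖ = ‖((minpoly k pb.gen).map σ).eval β‖ := by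
      intro β _
      rw [map_minpoly_eq_prod pb σ, eval_prod, norm_prod, norm_prod]
      refine Finset.prod_congr rfl fun φ _ => ?_
      rw [eval_sub, eval_X, eval_C, norm_sub_rev]
    rw [Finset.prod_congr rfl h3, Real.log_mul (pow_ne_zero _ hlc.ne'), Real.log_pow, Real.log_prod]
    · intro β hβ
      rw [← h3 β hβ, norm_ne_zero_iff]
      exact Finset.prod_ne_zero_iff.mpr fun φ hφ => hnz φ hφ β hβ
    · refine Finset.prod_ne_zero_iff.mpr fun β hβ => ?_
      rw [← h3 β hβ, norm_ne_zero_iff]
      exact Finset.prod_ne_zero_iff.mpr fun φ hφ => hnz φ hφ β hβ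
  have hev : ∀ β ∈ B, Real.log ‖pev pb.dim (F.map (iemb σ)) (some β)‖
      = Real.log ‖σ (a : k)‖ + Real.log ‖((minpoly k pb.gen).map σ).eval β‖ := by
    intro β hβ
    have h3 : ((minpoly k pb.gen).map σ).eval β ≠ 0 := by
      rw [map_minpoly_eq_prod pb σ, eval_prod]
      refine Finset.prod_ne_zero_iff.mpr fun φ hφ => ?_
      rw [eval_sub, eval_X, eval_C]
      have := hnz φ hφ β hβ
      intro h4
      apply this
      rw [← neg_sub, h4, neg_zero]
    change Real.log ‖(F.map (iemb σ)).eval β‖ = _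
    rw [hFσ, eval_mul, eval_C, norm_mul, Real.log_mul haσ.ne' (norm_ne_zero_iff.mpr h3)]
  have hinf : pev pb.dim (F.map (iemb σ)) none = σ (a : k) := by
    change (F.map (iemb σ)).coeff pb.dim = _
    rw [hFσ, coeff_C_mul, ← pb.natDegree_minpoly, ← natDegree_map σ, (hmon.map σ).coeff_natDegree, mul_one]
  have h6 : ∑ β ∈ B, Real.log ‖pev pb.dim (F.map (iemb σ)) (some β)‖
      = g.natDegree * Real.log ‖σ (a : k)‖ + ∑ β ∈ B, Real.log ‖((minpoly k pb.gen).map σ).eval β‖ := by
    rw [Finset.sum_congr rfl hev, Finset.sum_add_distrib, Finset.sum_const, hB, card_roots_map g hg σ,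
      nsmul_eq_mul]
  have h7 : ∑ β ∈ B, Real.log (F.map (iemb σ)).mahlerMeasure
      = g.natDegree * (Real.log ‖σ (a : k)‖ + Real.log ((minpoly k pb.gen).map σ).mahlerMeasure) := by
    rw [Finset.sum_const, hB, card_roots_map g hg σ, nsmul_eq_mul, hM]
  rw [hN, sum_dset, hinf, Finset.sum_sub_distrib, h6, h7, hM]
  split_ifs with h3
  · have h4 : (q : ℝ) = g.natDegree + 1 := by
      have : q = g.natDegree + 1 := by omega
      rw [this]; push_cast; ring
    rw [h4]; ring
  · have h4 : (q : ℝ) = g.natDegree := by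
      have : q = g.natDegree := by omega
      rw [this]
    rw [h4]; ring

end

end Pool.Agent.Helper52.Vojta
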