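import Mathlib
import Pool.Agent.Helper52.Vojta.PtLocal

/-!
Rounding to algebraic integers, and finiteness of small algebraic integers.
-/

namespace Pool.Agent.Helper52.Vojta

open NumberField Finset Module Polynomial

section

variable (k : Type*) [Field k] [NumberField k]

theorem round_exists : ∃ C : ℝ, 0 ≤ C ∧ ∀ z : (k →+* ℂ) → ℂ,
    (∀ σ, z (ComplexEmbedding.conjugate σ) = starRingEnd ℂ (z σ)) →
    ∃ b : 𝓞 k, ∀ σ, ‖iemb σ b - z σ‖ ≤ C := by
  classical
  let B := NumberField.canonicalEmbedding.latticeBasis k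
  let ω := RingOfIntegers.basis k
  have hB : ∀ j σ, B j σ = iemb σ (ω j) := by
    intro j σ
    have h1 := NumberField.canonicalEmbedding.latticeBasis_apply k j
    change NumberField.canonicalEmbedding.latticeBasis k j σ = _
    rw [h1, NumberField.canonicalEmbedding.apply_at, integralBasis_apply]
    rfl
  refine ⟨∑ σ : k →+* ℂ, ∑ j, ‖iemb σ (ω j)‖, Finset.sum_nonneg fun _ _ => Finset.sum_nonneg fun _ _ =>
    norm_nonneg _, ?_⟩
  intro z hz
  set c := B.repr z with hc
  have hzc : ∀ σ, z σ = ∑ j, c j * iemb σ (ω j) := by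
    intro σ
    have h1 := B.sum_repr z
    have h2 := congrFun h1 σ
    rw [Finset.sum_apply] at h2
    rw [← h2]
    refine Finset.sum_congr rfl fun j _ => ?_
    rw [Pi.smul_apply, hB, smul_eq_mul]
  have hconj : ∀ (σ : k →+* ℂ) (x : 𝓞 k), iemb (ComplexEmbedding.conjugate σ) x = starRingEnd ℂ (iemb σ x) :=
    fun σ x => rfl
  have hreal : ∀ j, starRingEnd ℂ (c j) = c j := by
    have h1 : ∑ j, (starRingEnd ℂ (c j) - c j) • B j = 0 := by
      funext σ
      rw [Finset.sum_apply, Pi.zero_apply]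
      have h2 := hz σ
      rw [hzc, hzc] at h2
      simp only [hconj] at h2
      have h3 := congrArg (starRingEnd ℂ) h2
      rw [Complex.conj_conj, map_sum] at h3
      simp only [map_mul, Complex.conj_conj] at h3
      simp only [Pi.smul_apply, hB, smul_eq_mul, sub_mul, Finset.sum_sub_distrib]
      rw [h3, sub_self]
    have h2 := Fintype.linearIndependent_iff.mp B.linearIndependent _ h1
    intro j
    exact sub_eq_zero.mp (h2 j)
  refine ⟨∑ j, round (c j).re • ω j, fun σ => ?_⟩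
  rw [map_sum, hzc, ← Finset.sum_sub_distrib]
  calc ‖∑ j, (iemb σ (round (c j).re • ω j) - c j * iemb σ (ω j))‖
      ≤ ∑ j, ‖iemb σ (round (c j).re • ω j) - c j * iemb σ (ω j)‖ := norm_sum_le _ _
    _ ≤ ∑ j, ‖iemb σ (ω j)‖ := by
        refine Finset.sum_le_sum fun j _ => ?_
        rw [map_zsmul, zsmul_eq_mul, ← sub_mul, norm_mul]
        have h1 : (c j) = (((c j).re : ℝ) : ℂ) := by
          have := Complex.conj_eq_iff_re.mp (hreal j)
          exact this.symm
        have h2 : ‖((round (c j).re : ℤ) : ℂ) - c j‖ ≤ 1 := by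
          have h3 : ((round (c j).re : ℤ) : ℂ) - c j = ((((round (c j).re : ℤ) : ℝ) - (c j).re : ℝ) : ℂ) := by
            conv_lhs => rw [h1]
            push_cast
            rfl
          rw [h3, Complex.norm_real, Real.norm_eq_abs, abs_sub_comm]
          have := abs_sub_round (c j).re
          linarith
        calc _ ≤ 1 * ‖iemb σ (ω j)‖ := mul_le_mul_of_nonneg_right h2 (norm_nonneg _)
          _ = _ := one_mul _
    _ ≤ _ := Finset.single_le_sum (f := fun σ : k →+* ℂ => ∑ j, ‖iemb σ (ω j)‖)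
          (fun σ _ => Finset.sum_nonneg fun j _ => norm_nonneg _) (Finset.mem_univ σ)

/-- finitely many algebraic integers of bounded size -/
theorem finite_small (B : ℝ) : {x : 𝓞 k | ∀ σ : k →+* ℂ, ‖iemb σ x‖ ≤ B}.Finite := by
  have h1 := NumberField.Embeddings.finite_of_norm_le k ℂ B
  refine Set.Finite.of_finite_image (f := fun x : 𝓞 k => (x : k)) (h1.subset ?_) ?_
  · rintro _ ⟨x, hx, rfl⟩
    exact ⟨x.isIntegral_coe, hx⟩
  · intro x _ y _ h
    exact RingOfIntegers.coe_injective h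

open scoped Classical in
/-- the norm of an integer is bounded by its size -/
theorem norm_le_of_small {x : 𝓞 k} {B : ℝ} (hx : ∀ σ : k →+* ℂ, ‖iemb σ x‖ ≤ B) :
    (Ideal.absNorm (Ideal.span {x}) : ℝ) ≤ B ^ finrank ℚ k := by
  have hcardσ : Fintype.card (k →+* ℂ) = finrank ℚ k := NumberField.Embeddings.card k ℂ
  have h1 : ((Algebra.norm ℤ x : ℤ) : ℂ) = ∏ σ : k →+* ℂ, iemb σ x := by
    have h2 := Algebra.norm_eq_prod_embeddings ℚ ℂ (x : k)
    have h3 : algebraMap ℚ ℂ (Algebra.norm ℚ (x : k)) = ((Algebra.norm ℤ x : ℤ) : ℂ) := by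
      rw [← Algebra.coe_norm_int]
      simp
    rw [h3] at h2
    rw [h2]
    exact (Fintype.prod_equiv (RingHom.equivRatAlgHom k ℂ) _ _ fun σ => rfl).symm
  have h2 : (Ideal.absNorm (Ideal.span {x}) : ℝ) = ‖((Algebra.norm ℤ x : ℤ) : ℂ)‖ := by
    rw [Ideal.absNorm_span_singleton, Complex.norm_intCast, Nat.cast_natAbs, Int.cast_abs]
  rw [h2, h1, norm_prod, ← hcardσ, ← Finset.card_univ, ← Finset.prod_const]
  exact Finset.prod_le_prod (fun σ _ => norm_nonneg _) fun σ _ => hx σ

/-- a nonzero element of an ideal is not small -/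
theorem absNorm_le_of_mem {I : Ideal (𝓞 k)} {x : 𝓞 k} (hx : x ∈ I) (hx0 : x ≠ 0) {B : ℝ}
    (hB : ∀ σ : k →+* ℂ, ‖iemb σ x‖ ≤ B) : (Ideal.absNorm I : ℝ) ≤ B ^ finrank ℚ k := by
  refine le_trans ?_ (norm_le_of_small k hB)
  have h1 : Ideal.absNorm I ∣ Ideal.absNorm (Ideal.span {x}) :=
    Ideal.absNorm_dvd_absNorm_of_le ((Ideal.span_singleton_le_iff_mem I).mpr hx)
  have h2 : Ideal.absNorm (Ideal.span {x}) ≠ 0 := by
    rw [Ne, Ideal.absNorm_eq_zero_iff, Ideal.span_singleton_eq_bot]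
    exact hx0
  exact_mod_cast Nat.le_of_dvd (Nat.pos_of_ne_zero h2) h1

end

end Pool.Agent.Helper52.Vojta
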