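import Mathlib
import Pool.Agent.Helper52.Vojta.PtLocal
import Pool.Agent.Helper52.Vojta.Round

/-!
Cells for the values of an integral polynomial at points of the projective line, over all complex
embeddings of the base field.
-/

namespace Pool.Agent.Helper52.Vojta

open NumberField Finset Module Polynomial

section

variable {k : Type*} [Field k] [NumberField k]

omit [NumberField k] in
theorem iemb_conj (σ : k →+* ℂ) (x : 𝓞 k) :
    iemb (ComplexEmbedding.conjugate σ) x = starRingEnd ℂ (iemb σ x) := rfl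

omit [NumberField k] in
theorem map_iemb_conj (σ : k →+* ℂ) (F : (𝓞 k)[X]) :
    F.map (iemb (ComplexEmbedding.conjugate σ)) = (F.map (iemb σ)).map (starRingEnd ℂ) := by
  rw [Polynomial.map_map]
  rfl

/-- the cell of a polynomial -/
noncomputable def cellP (r : ℕ) (J : (k →+* ℂ) → Finset (Option ℂ)) (y : (k →+* ℂ) → ℝ) (F : (𝓞 k)[X])
    (x : Σ σ : k →+* ℂ, {p // p ∈ J σ}) : ℤ :=
  ⌊((pev r (F.map (iemb x.1)) x.2).re + (pev r (F.map (iemb x.1)) x.2).im) / y x.1⌋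

theorem cellP_close {r : ℕ} {J : (k →+* ℂ) → Finset (Option ℂ)}
    (hJ : ∀ σ, ∀ p ∈ J σ, p.map (starRingEnd ℂ) ∈ J (ComplexEmbedding.conjugate σ))
    {y : (k →+* ℂ) → ℝ} (hy : ∀ σ, 0 < y σ) (hy' : ∀ σ, y (ComplexEmbedding.conjugate σ) = y σ)
    {F G : (𝓞 k)[X]} (h : cellP r J y F = cellP r J y G) (σ : k →+* ℂ) {p : Option ℂ} (hp : p ∈ J σ) :
    ‖pev r ((F - G).map (iemb σ)) p‖ ≤ 2 * y σ := by
  set zF := pev r (F.map (iemb σ)) p with hzF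
  set zG := pev r (G.map (iemb σ)) p with hzG
  have h0 : pev r ((F - G).map (iemb σ)) p = zF - zG := by
    rw [Polynomial.map_sub, pev_sub]
  have hlt : ∀ (A B : ℝ), ⌊A / y σ⌋ = ⌊B / y σ⌋ → |A - B| < y σ := by
    intro A B hAB
    have h1 := Int.abs_sub_lt_one_of_floor_eq_floor hAB
    rw [← sub_div, abs_div, abs_of_pos (hy σ), div_lt_one (hy σ)] at h1
    exact h1
  have h1 : |(zF.re + zF.im) - (zG.re + zG.im)| < y σ := hlt _ _ (congrFun h ⟨σ, ⟨p, hp⟩⟩)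
  have h2 : |(zF.re - zF.im) - (zG.re - zG.im)| < y σ := by
    have h3 := congrFun h ⟨ComplexEmbedding.conjugate σ, ⟨p.map (starRingEnd ℂ), hJ σ p hp⟩⟩
    unfold cellP at h3
    simp only [hy', map_iemb_conj, pev_conj, Complex.conj_re, Complex.conj_im] at h3
    have h4 := hlt _ _ h3
    rw [← hzF, ← hzG] at h4
    rw [sub_eq_add_neg zF.re, sub_eq_add_neg zG.re]
    exact h4
  rw [h0]
  refine (Complex.norm_le_abs_re_add_abs_im _).trans ?_
  rw [Complex.sub_re, Complex.sub_im]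
  rw [abs_lt] at h1 h2
  have h5 : |zF.re - zG.re| ≤ y σ := by rw [abs_le]; constructor <;> linarith
  have h6 : |zF.im - zG.im| ≤ y σ := by rw [abs_le]; constructor <;> linarith
  linarith

open scoped Classical in
/-- the number of cells -/
theorem cellP_mem {r : ℕ} {J : (k →+* ℂ) → Finset (Option ℂ)} {y : (k →+* ℂ) → ℝ} (hy : ∀ σ, 0 < y σ)
    {X : (k →+* ℂ) → Option ℂ → ℝ} {F : (𝓞 k)[X]} (hF : ∀ σ, ∀ p ∈ J σ, ‖pev r (F.map (iemb σ)) p‖ ≤ X σ p) :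
    cellP r J y F ∈ Fintype.piFinset (fun x : Σ σ : k →+* ℂ, {p // p ∈ J σ} =>
      Finset.Icc (-(⌊2 * X x.1 x.2 / y x.1⌋ + 1)) (⌊2 * X x.1 x.2 / y x.1⌋ + 1)) := by
  rw [Fintype.mem_piFinset]
  rintro ⟨σ, p, hp⟩
  have h1 := hF σ p hp
  set z := pev r (F.map (iemb σ)) p with hz
  have h2 : |z.re + z.im| ≤ 2 * X σ p := by
    calc |z.re + z.im| ≤ |z.re| + |z.im| := abs_add_le _ _
      _ ≤ ‖z‖ + ‖z‖ := add_le_add (Complex.abs_re_le_norm z) (Complex.abs_im_le_norm z)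
      _ ≤ 2 * X σ p := by linarith
  rw [abs_le] at h2
  have h3 : (z.re + z.im) / y σ ≤ 2 * X σ p / y σ := div_le_div_of_nonneg_right h2.2 (hy σ).le
  have h4 : -(2 * X σ p / y σ) ≤ (z.re + z.im) / y σ := by
    rw [← neg_div]
    exact div_le_div_of_nonneg_right h2.1 (hy σ).le
  change ⌊(z.re + z.im) / y σ⌋ ∈ _
  rw [Finset.mem_Icc]
  constructor
  · rw [Int.le_floor]
    push_cast
    have := Int.lt_floor_add_one (2 * X σ p / y σ)
    linarith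
  · have := Int.floor_le_floor h3
    change ⌊(z.re + z.im) / y σ⌋ ≤ ⌊2 * X σ p / y σ⌋ + 1
    omega

open scoped Classical in
theorem card_cells {J : (k →+* ℂ) → Finset (Option ℂ)} {y : (k →+* ℂ) → ℝ} (hy : ∀ σ, 0 < y σ)
    {X : (k →+* ℂ) → Option ℂ → ℝ} (hX : ∀ σ p, 0 ≤ X σ p) :
    ((Fintype.piFinset (fun x : Σ σ : k →+* ℂ, {p // p ∈ J σ} =>
      Finset.Icc (-(⌊2 * X x.1 x.2 / y x.1⌋ + 1)) (⌊2 * X x.1 x.2 / y x.1⌋ + 1))).card : ℝ)
      ≤ ∏ σ : k →+* ℂ, ∏ p ∈ J σ, (4 * X σ p / y σ + 3) := by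
  rw [Fintype.card_piFinset]
  push_cast
  rw [Fintype.prod_sigma]
  refine Finset.prod_le_prod (fun σ _ => Finset.prod_nonneg fun _ _ => Nat.cast_nonneg _) fun σ _ => ?_
  rw [← Finset.prod_coe_sort (J σ)]
  refine Finset.prod_le_prod (fun p _ => Nat.cast_nonneg _) fun p _ => ?_
  have h0 : 0 ≤ 2 * X σ p / y σ := by
    have := hX σ p
    have := (hy σ).le
    positivity
  have h1 : 0 ≤ ⌊2 * X σ p / y σ⌋ := Int.floor_nonneg.mpr h0
  rw [Int.card_Icc]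
  have h3 : ((⌊2 * X σ p / y σ⌋ + 1 + 1 - -(⌊2 * X σ p / y σ⌋ + 1)).toNat : ℤ)
      = 2 * ⌊2 * X σ p / y σ⌋ + 3 := by rw [Int.toNat_of_nonneg (by omega)]; ring
  have h4 : ((⌊2 * X σ p / y σ⌋ + 1 + 1 - -(⌊2 * X σ p / y σ⌋ + 1)).toNat : ℝ)
      = 2 * ⌊2 * X σ p / y σ⌋ + 3 := by exact_mod_cast h3
  rw [h4]
  have h5 := Int.floor_le (2 * X σ p / y σ)
  have h6 : 4 * X σ p / y σ = 2 * (2 * X σ p / y σ) := by ring
  rw [h6]
  linarith

/-- counting by cells, upper bound -/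
theorem card_le_cells {r : ℕ} {J : (k →+* ℂ) → Finset (Option ℂ)} {y : (k →+* ℂ) → ℝ} (hy : ∀ σ, 0 < y σ)
    {X : (k →+* ℂ) → Option ℂ → ℝ} (hX : ∀ σ p, 0 ≤ X σ p) (A : Finset (𝓞 k)[X])
    (hA : ∀ F ∈ A, ∀ σ, ∀ p ∈ J σ, ‖pev r (F.map (iemb σ)) p‖ ≤ X σ p)
    (hinj : ∀ F ∈ A, ∀ G ∈ A, cellP r J y F = cellP r J y G → F = G) :
    (A.card : ℝ) ≤ ∏ σ : k →+* ℂ, ∏ p ∈ J σ, (4 * X σ p / y σ + 3) := by
  classical
  refine le_trans ?_ (card_cells hy hX)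
  have h1 : A.card ≤ (Fintype.piFinset (fun x : Σ σ : k →+* ℂ, {p // p ∈ J σ} =>
      Finset.Icc (-(⌊2 * X x.1 x.2 / y x.1⌋ + 1)) (⌊2 * X x.1 x.2 / y x.1⌋ + 1))).card :=
    Finset.card_le_card_of_injOn (cellP r J y) (fun F hF => cellP_mem hy (hA F hF)) hinj
  exact_mod_cast h1

/-- counting by cells, lower bound -/
theorem exists_big_cell {r : ℕ} {J : (k →+* ℂ) → Finset (Option ℂ)} {y : (k →+* ℂ) → ℝ} (hy : ∀ σ, 0 < y σ)
    {X : (k →+* ℂ) → Option ℂ → ℝ} (hX : ∀ σ p, 0 ≤ X σ p) (A : Finset (𝓞 k)[X])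
    (hA : ∀ F ∈ A, ∀ σ, ∀ p ∈ J σ, ‖pev r (F.map (iemb σ)) p‖ ≤ X σ p) :
    ∃ A' ⊆ A, (∀ F ∈ A', ∀ G ∈ A', cellP r J y F = cellP r J y G) ∧
      (A.card : ℝ) ≤ A'.card * ∏ σ : k →+* ℂ, ∏ p ∈ J σ, (4 * X σ p / y σ + 3) := by
  classical
  set T := Fintype.piFinset (fun x : Σ σ : k →+* ℂ, {p // p ∈ J σ} =>
      Finset.Icc (-(⌊2 * X x.1 x.2 / y x.1⌋ + 1)) (⌊2 * X x.1 x.2 / y x.1⌋ + 1)) with hT
  have hmaps : ∀ F ∈ A, cellP r J y F ∈ T := fun F hF => cellP_mem hy (hA F hF)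
  rcases A.eq_empty_or_nonempty with rfl | ⟨F0, hF0⟩
  · exact ⟨∅, subset_rfl, by simp, by simp⟩
  have hTne : T.Nonempty := ⟨_, hmaps F0 hF0⟩
  obtain ⟨c, hc, hmax⟩ := Finset.exists_max_image T (fun c => (A.filter fun F => cellP r J y F = c).card) hTne
  refine ⟨A.filter fun F => cellP r J y F = c, Finset.filter_subset _ _, ?_, ?_⟩
  · intro F hF G hG
    rw [Finset.mem_filter] at hF hG
    rw [hF.2, hG.2]
  · have h1 : A.card = ∑ c' ∈ T, (A.filter fun F => cellP r J y F = c').card :=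
      Finset.card_eq_sum_card_fiberwise hmaps
    have h2 : A.card ≤ T.card * (A.filter fun F => cellP r J y F = c).card := by
      rw [h1, ← smul_eq_mul]
      exact Finset.sum_le_card_nsmul _ _ _ hmax
    calc (A.card : ℝ) ≤ ((T.card * (A.filter fun F => cellP r J y F = c).card : ℕ) : ℝ) := by exact_mod_cast h2
      _ = (A.filter fun F => cellP r J y F = c).card * T.card := by push_cast; ring
      _ ≤ _ := mul_le_mul_of_nonneg_left (card_cells hy hX) (Nat.cast_nonneg _)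

end

end Pool.Agent.Helper52.Vojta
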