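import Mathlib
import Pool.Agent.Helper52.Vojta.CellP
import Pool.Agent.Helper52.Vojta.Round

/-!
Upper bound for the number of integral polynomials with all coefficients in a given ideal, which are
small at prescribed points of the projective line.
-/

namespace Pool.Agent.Helper52.Vojta

open NumberField Finset Module Polynomial

section

variable {k : Type*} [Field k] [NumberField k]

open scoped Classical in
theorem extend_I (r : ℕ) (I : (k →+* ℂ) → Finset (Option ℂ))
    (hI : ∀ σ, ∀ p ∈ I σ, p.map (starRingEnd ℂ) ∈ I (ComplexEmbedding.conjugate σ))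
    (hIr : ∀ σ, (I σ).card ≤ r) (hIc : ∀ σ, (I (ComplexEmbedding.conjugate σ)).card = (I σ).card) :
    ∃ J : (k →+* ℂ) → Finset (Option ℂ), (∀ σ, I σ ⊆ J σ) ∧ (∀ σ, (J σ).card = r + 1) ∧
      (∀ σ, ∀ p ∈ J σ, p.map (starRingEnd ℂ) ∈ J (ComplexEmbedding.conjugate σ)) := by
  have hfin : {m : ℕ | ∃ σ, some (m : ℂ) ∈ I σ}.Finite := by
    have h1 : ((Finset.univ.biUnion I : Finset (Option ℂ)) : Set (Option ℂ)).Finite := Finset.finite_toSet _
    refine Set.Finite.of_finite_image (f := fun m : ℕ => some (m : ℂ)) (h1.subset ?_) ?_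
    · rintro _ ⟨m, ⟨σ, hσ⟩, rfl⟩
      exact Finset.mem_coe.mpr (Finset.mem_biUnion.mpr ⟨σ, Finset.mem_univ _, hσ⟩)
    · intro a _ b _ h
      exact_mod_cast Option.some_injective _ h
  obtain ⟨b, hb⟩ := hfin.bddAbove
  have hb' : ∀ m : ℕ, b < m → ∀ σ, some (m : ℂ) ∉ I σ := by
    intro m hm σ h
    have := hb (show m ∈ {m : ℕ | ∃ σ, some (m : ℂ) ∈ I σ} from ⟨σ, h⟩)
    omega
  let f : ℕ → Option ℂ := fun j => some (((b + 1 + j : ℕ)) : ℂ)
  have hf : Function.Injective f := by
    intro i j h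
    have h1 : ((b + 1 + i : ℕ) : ℂ) = ((b + 1 + j : ℕ) : ℂ) := Option.some_injective _ h
    have h2 : b + 1 + i = b + 1 + j := by exact_mod_cast h1
    omega
  have hfc : ∀ j, (f j).map (starRingEnd ℂ) = f j := by
    intro j
    change some (starRingEnd ℂ (((b + 1 + j : ℕ)) : ℂ)) = _
    rw [map_natCast]
  refine ⟨fun σ => I σ ∪ (range (r + 1 - (I σ).card)).image f, fun σ => Finset.subset_union_left, ?_, ?_⟩
  · intro σ
    rw [Finset.card_union_of_disjoint, Finset.card_image_of_injective _ hf, Finset.card_range]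
    · have := hIr σ
      omega
    · rw [Finset.disjoint_left]
      intro p hp hp'
      obtain ⟨j, _, rfl⟩ := Finset.mem_image.mp hp'
      exact hb' _ (by omega) σ hp
  · intro σ p hp
    rw [Finset.mem_union] at hp ⊢
    rcases hp with h | h
    · exact Or.inl (hI σ p h)
    · right
      obtain ⟨j, hj, rfl⟩ := Finset.mem_image.mp h
      rw [hIc, hfc]
      exact Finset.mem_image.mpr ⟨j, hj, rfl⟩

open scoped Classical in
theorem content_count (r : ℕ) (I : (k →+* ℂ) → Finset (Option ℂ))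
    (hI : ∀ σ, ∀ p ∈ I σ, p.map (starRingEnd ℂ) ∈ I (ComplexEmbedding.conjugate σ))
    (hI3 : ∀ σ, 3 ≤ (I σ).card) (hIr : ∀ σ, (I σ).card ≤ r)
    (hIc : ∀ σ, (I (ComplexEmbedding.conjugate σ)).card = (I σ).card)
    {θ : ℝ} (hθ0 : 0 < θ) (hθ3 : θ ≤ 3) {R : ℝ} (hR : 0 < R) : ∃ B : ℝ, 0 < B ∧ ∀ Q : ℕ, 1 ≤ Q →
      ∀ A : Finset (𝓞 k)[X], (∀ F ∈ A, F ≠ 0 ∧ F.natDegree ≤ r ∧ (∀ (σ : k →+* ℂ) i, ‖iemb σ (F.coeff i)‖ ≤ R * Q) ∧
          ∀ σ, ∀ p ∈ I σ, ‖pev r (F.map (iemb σ)) p‖ ≤ R * (Q : ℝ) ^ (1 - θ / (I σ).card)) →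
      ∀ c : Ideal (𝓞 k), c ≠ ⊥ → (∀ F ∈ A, ∀ i, F.coeff i ∈ c) →
        (A.card : ℝ) ≤ B * (Q : ℝ) ^ (finrank ℚ k * (r + 1 - θ)) * (Ideal.absNorm c : ℝ) ^ (-(r + 1 - θ)) := by
  obtain ⟨J, hJ1, hJ2, hJ3⟩ := extend_I r I hI hIr hIc
  have hcardσ : Fintype.card (k →+* ℂ) = finrank ℚ k := NumberField.Embeddings.card k ℂ
  set n := finrank ℚ k with hn
  have hn0 : 0 < n := Module.finrank_pos
  have hnr : (0 : ℝ) < n := by exact_mod_cast hn0
  choose K0 hK0 hK0' using fun σ : k →+* ℂ => pev_interp r (J σ) (hJ2 σ).ge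
  set K : ℝ := ∑ σ : k →+* ℂ, K0 σ with hK
  have hKle : ∀ σ, K0 σ ≤ K := fun σ =>
    Finset.single_le_sum (f := K0) (fun σ _ => (hK0 σ).le) (Finset.mem_univ σ)
  have hne : Nonempty (k →+* ℂ) := inferInstance
  have hKpos : 0 < K := lt_of_lt_of_le (hK0 (Classical.arbitrary _)) (hKle _)
  set c4 : ℝ := 1 / (4 * K) with hc4
  have hc40 : 0 < c4 := by positivity
  set u0 : ℝ := 1 / (c4 * R) with hu0
  have hu00 : 0 < u0 := by positivity
  -- factors
  let a : (k →+* ℂ) → ℝ := fun σ => θ / (I σ).card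
  have ha0 : ∀ σ, 0 < a σ := by
    intro σ
    have h1 := hI3 σ
    have h2 : (0 : ℝ) < (I σ).card := by
      have : 0 < (I σ).card := by omega
      exact_mod_cast this
    exact div_pos hθ0 h2
  have ha1 : ∀ σ, a σ ≤ 1 := by
    intro σ
    have h2 : (3 : ℝ) ≤ (I σ).card := by exact_mod_cast hI3 σ
    change θ / (I σ).card ≤ 1
    rw [div_le_one (by linarith)]
    linarith
  let bI : (k →+* ℂ) → ℝ := fun σ => 4 * R * c4 ^ (-(a σ)) + 3 * (1 / u0) ^ (1 - a σ)
  let bJ : Option ℂ → ℝ := fun p => 4 * R * psz r p + 3 / u0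
  have hbI : ∀ σ, 0 < bI σ := fun σ => by
    change 0 < 4 * R * c4 ^ (-(a σ)) + 3 * (1 / u0) ^ (1 - a σ)
    positivity
  have hbJ : ∀ p, 0 < bJ p := fun p => by
    have := one_le_psz r p
    change 0 < 4 * R * psz r p + 3 / u0
    positivity
  set B1 : ℝ := ∏ σ : k →+* ℂ, ∏ p ∈ J σ, (if p ∈ I σ then bI σ else bJ p) with hB1
  have hB10 : 0 < B1 := by
    refine Finset.prod_pos fun σ _ => Finset.prod_pos fun p _ => ?_
    split_ifs
    · exact hbI σ
    · exact hbJ p
  set e : ℝ := n * (r + 1 - θ) with he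
  refine ⟨B1 * c4 ^ (-e), by positivity, ?_⟩
  intro Q hQ A hA c hc hAc
  have hQr : (1 : ℝ) ≤ Q := by exact_mod_cast hQ
  have hQ0 : (0 : ℝ) < Q := by linarith
  have hN1 : (1 : ℝ) ≤ Ideal.absNorm c := by
    have : Ideal.absNorm c ≠ 0 := by rwa [Ne, Ideal.absNorm_eq_zero_iff]
    have : 1 ≤ Ideal.absNorm c := by omega
    exact_mod_cast this
  set N : ℝ := (Ideal.absNorm c : ℝ) with hN
  have hN0 : 0 < N := by linarith
  rcases A.eq_empty_or_nonempty with rfl | ⟨F0, hF0⟩
  · rw [Finset.card_empty, Nat.cast_zero]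
    positivity
  -- `N ≤ (R Q)^n`
  have hNle : N ≤ (R * Q) ^ n := by
    obtain ⟨h1, _, h2, _⟩ := hA F0 hF0
    obtain ⟨i, hi⟩ : ∃ i, F0.coeff i ≠ 0 := by
      by_contra hcon
      push Not at hcon
      exact h1 (Polynomial.ext fun i => by rw [hcon i, coeff_zero])
    exact absNorm_le_of_mem k (hAc F0 hF0 i) hi fun σ => h2 σ i
  set s : ℝ := c4 * N ^ (1 / (n : ℝ)) with hs
  have hNn : N ^ (1 / (n : ℝ)) ≤ R * Q := by
    have h1 := Real.rpow_le_rpow hN0.le hNle (show 0 ≤ 1 / (n : ℝ) by positivity)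
    rwa [← Real.rpow_natCast, ← Real.rpow_mul (by positivity), mul_one_div_cancel hnr.ne', Real.rpow_one] at h1
  have hNn1 : 1 ≤ N ^ (1 / (n : ℝ)) := Real.one_le_rpow hN1 (by positivity)
  have hs0 : 0 < s := by positivity
  have hsc : c4 ≤ s := by
    rw [hs]; exact le_mul_of_one_le_right hc40.le hNn1
  set u : ℝ := Q / s with hu
  have hu0' : 0 < u := by positivity
  have huu : u0 ≤ u := by
    rw [hu, hu0, div_le_div_iff₀ (by positivity) hs0, one_mul, hs]
    calc c4 * N ^ (1 / (n : ℝ)) ≤ c4 * (R * Q) := mul_le_mul_of_nonneg_left hNn hc40.le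
      _ = Q * (c4 * R) := by ring
  -- cells of size `s`
  let y : (k →+* ℂ) → ℝ := fun _ => s
  have hy : ∀ σ, 0 < y σ := fun _ => hs0
  let x : (k →+* ℂ) → Option ℂ → ℝ := fun σ p =>
    if p ∈ I σ then R * (Q : ℝ) ^ (1 - a σ) else R * Q * psz r p
  have hx : ∀ σ p, 0 ≤ x σ p := fun σ p => by
    have := one_le_psz r p
    change 0 ≤ (if p ∈ I σ then R * (Q : ℝ) ^ (1 - a σ) else R * Q * psz r p)
    split_ifs <;> positivity
  have hcard := card_le_cells (r := r) (J := J) hy hx A ?_ ?_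
  · refine hcard.trans ?_
    have hprod : ∏ σ : k →+* ℂ, ∏ p ∈ J σ, (4 * x σ p / y σ + 3) ≤ B1 * u ^ e := by
      have h1 : u ^ e = ∏ σ : k →+* ℂ, ∏ p ∈ J σ, (if p ∈ I σ then u ^ (1 - a σ) else u) := by
        have h2 : ∀ σ : k →+* ℂ, ∏ p ∈ J σ, (if p ∈ I σ then u ^ (1 - a σ) else u) = u ^ ((r : ℝ) + 1 - θ) := by
          intro σ
          rw [Finset.prod_ite, Finset.prod_const, Finset.prod_const]
          have e1 : (J σ).filter (fun p => p ∈ I σ) = I σ := by
            ext p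
            rw [Finset.mem_filter]
            exact ⟨fun h => h.2, fun h => ⟨hJ1 σ h, h⟩⟩
          have e2 : ((J σ).filter (fun p => p ∉ I σ)).card = r + 1 - (I σ).card := by
            have h3 := Finset.card_filter_add_card_filter_not (s := J σ) (fun p => p ∈ I σ)
            rw [e1, hJ2] at h3
            omega
          rw [e1, e2, ← Real.rpow_natCast, ← Real.rpow_mul hu0'.le, ← Real.rpow_natCast,
            ← Real.rpow_add hu0']
          congr 1
          have h3 : (I σ).card ≤ r + 1 := (hIr σ).trans (Nat.le_succ r)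
          rw [Nat.cast_sub h3]
          push_cast
          change (1 - θ / (I σ).card) * ((I σ).card : ℝ) + (r + 1 - ((I σ).card : ℝ)) = _
          have h4 : ((I σ).card : ℝ) ≠ 0 := by
            have := hI3 σ
            have : (I σ).card ≠ 0 := by omega
            exact_mod_cast this
          field_simp
          ring
        rw [Finset.prod_congr rfl fun σ _ => h2 σ, Finset.prod_const, Finset.card_univ, hcardσ,
          ← Real.rpow_natCast, ← Real.rpow_mul hu0'.le]
        congr 1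
        rw [he]; ring
      rw [h1, hB1, ← Finset.prod_mul_distrib]
      refine Finset.prod_le_prod (fun σ _ => Finset.prod_nonneg fun p _ => ?_) fun σ _ => ?_
      · have := hx σ p
        have := (hy σ).le
        positivity
      rw [← Finset.prod_mul_distrib]
      refine Finset.prod_le_prod (fun p _ => ?_) fun p _ => ?_
      · have := hx σ p
        have := (hy σ).le
        positivity
      change 4 * (if p ∈ I σ then R * (Q : ℝ) ^ (1 - a σ) else R * Q * psz r p) / s + 3 ≤ _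
      split_ifs with hp
      · change 4 * (R * (Q : ℝ) ^ (1 - a σ)) / s + 3
          ≤ (4 * R * c4 ^ (-(a σ)) + 3 * (1 / u0) ^ (1 - a σ)) * u ^ (1 - a σ)
        have h3 : (Q : ℝ) ^ (1 - a σ) / s ≤ c4 ^ (-(a σ)) * u ^ (1 - a σ) := by
          have h4 : (Q : ℝ) ^ (1 - a σ) / s = s ^ (-(a σ)) * u ^ (1 - a σ) := by
            rw [hu, Real.div_rpow hQ0.le hs0.le]
            have h5 : s = s ^ (a σ) * s ^ (1 - a σ) := by
              rw [← Real.rpow_add hs0]
              have : a σ + (1 - a σ) = 1 := by ring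
              rw [this, Real.rpow_one]
            have h6 : 0 < s ^ (1 - a σ) := Real.rpow_pos_of_pos hs0 _
            have h7 : 0 < s ^ (a σ) := Real.rpow_pos_of_pos hs0 _
            rw [Real.rpow_neg hs0.le]
            conv_lhs => rw [h5]
            field_simp
          rw [h4]
          refine mul_le_mul_of_nonneg_right ?_ (Real.rpow_nonneg hu0'.le _)
          exact Real.rpow_le_rpow_of_nonpos hc40 hsc (by linarith [ha0 σ])
        have h4 : 1 ≤ (1 / u0) ^ (1 - a σ) * u ^ (1 - a σ) := by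
          rw [← Real.mul_rpow (by positivity) hu0'.le]
          apply Real.one_le_rpow
          · rw [one_div, inv_mul_eq_div, le_div_iff₀ hu00, one_mul]
            exact huu
          · linarith [ha1 σ]
        have h5 : 4 * (R * (Q : ℝ) ^ (1 - a σ)) / s = 4 * R * ((Q : ℝ) ^ (1 - a σ) / s) := by ring
        rw [h5]
        have h6 := mul_le_mul_of_nonneg_left h3 (show 0 ≤ 4 * R by positivity)
        linarith
      · change 4 * (R * Q * psz r p) / s + 3 ≤ (4 * R * psz r p + 3 / u0) * u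
        have h3 : 4 * (R * Q * psz r p) / s = 4 * R * psz r p * u := by rw [hu]; ring
        have h4 : 3 ≤ 3 / u0 * u := by
          rw [div_mul_eq_mul_div, le_div_iff₀ hu00]
          nlinarith
        rw [h3]
        linarith
    refine hprod.trans (le_of_eq ?_)
    rw [hu, hs, Real.div_rpow hQ0.le (by positivity), Real.mul_rpow hc40.le (by positivity),
      ← Real.rpow_mul hN0.le, Real.rpow_neg hc40.le, Real.rpow_neg hN0.le]
    have h1 : 1 / (n : ℝ) * e = r + 1 - θ := by
      rw [he]; field_simp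
    rw [h1]
    have h2 : 0 < c4 ^ e := Real.rpow_pos_of_pos hc40 _
    have h3 : 0 < N ^ ((r : ℝ) + 1 - θ) := Real.rpow_pos_of_pos hN0 _
    field_simp
  · intro F hF σ p hp
    obtain ⟨_, h1, h2, h3⟩ := hA F hF
    change _ ≤ (if p ∈ I σ then R * (Q : ℝ) ^ (1 - a σ) else R * Q * psz r p)
    split_ifs with hpI
    · exact h3 σ p hpI
    · refine pev_le (natDegree_map_le.trans h1) (fun i => ?_) p
      rw [coeff_map]; exact h2 σ i
  · intro F hF G hG hFG
    by_contra hne'
    have hd : F - G ≠ 0 := sub_ne_zero.mpr hne'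
    obtain ⟨i, hi⟩ : ∃ i, (F - G).coeff i ≠ 0 := by
      by_contra hcon
      push Not at hcon
      exact hd (Polynomial.ext fun i => by rw [hcon i, coeff_zero])
    have h1 : (F - G).coeff i ∈ c := by
      rw [coeff_sub]
      exact c.sub_mem (hAc F hF i) (hAc G hG i)
    have h2 : ∀ σ : k →+* ℂ, ‖iemb σ ((F - G).coeff i)‖ ≤ K * (2 * s) := by
      intro σ
      have h3 : ((F - G).map (iemb σ)).natDegree ≤ r :=
        natDegree_map_le.trans ((natDegree_sub_le _ _).trans (max_le (hA F hF).2.1 (hA G hG).2.1))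
      have h4 := hK0' σ ((F - G).map (iemb σ)) (2 * s) h3 (by positivity)
        (fun p hp => cellP_close hJ3 hy (fun _ => rfl) hFG σ hp) i
      rw [coeff_map] at h4
      exact h4.trans (mul_le_mul_of_nonneg_right (hKle σ) (by positivity))
    have h3 := absNorm_le_of_mem k h1 hi h2
    have h4 : K * (2 * s) = N ^ (1 / (n : ℝ)) / 2 := by
      rw [hs, hc4]; field_simp; ring
    rw [h4, ← hn, div_pow, ← Real.rpow_natCast (N ^ (1 / (n : ℝ))) n, ← Real.rpow_mul hN0.le,
      one_div_mul_cancel hnr.ne', Real.rpow_one] at h3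
    have h5 : (2 : ℝ) ≤ 2 ^ n := by
      calc (2 : ℝ) = 2 ^ 1 := by norm_num
        _ ≤ 2 ^ n := pow_le_pow_right₀ (by norm_num) hn0
    rw [le_div_iff₀ (by positivity)] at h3
    nlinarith

end

end Pool.Agent.Helper52.Vojta
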