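import Mathlib
import Pool.Agent.Helper52.Vojta.LowerPoint

/-!
Roots of integral polynomials which are Eisenstein at a prime not dividing the leading coefficient.
-/

namespace Pool.Agent.Helper52.Vojta

open NumberField Finset Module Polynomial IntermediateField

universe u

section

variable {k : Type u} [Field k] [NumberField k] {Ω : Type u} [Field Ω] [Algebra k Ω]

theorem eisenstein_root [IsAlgClosed Ω] (F : (𝓞 k)[X]) {r : ℕ} (hr : 1 ≤ r) (hdeg : F.natDegree = r)
    {P : Ideal (𝓞 k)} (hP : P.IsPrime) (hlead : F.coeff r - 1 ∈ P ^ 2) (hmid : ∀ i < r, F.coeff i ∈ P)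
    (h0 : F.coeff 0 ∉ P ^ 2) :
    ∃ x : Ω, IsIntegral k x ∧ F.map (algebraMap (𝓞 k) k) = C ((F.coeff r : 𝓞 k) : k) * minpoly k x ∧
      F.coeff r ≠ 0 := by
  set a : 𝓞 k := F.coeff r with ha
  have hP2 : P ^ 2 ≤ P := Ideal.pow_le_self (by norm_num)
  have haP : a ∉ P := by
    intro h
    have : (1 : 𝓞 k) ∈ P := by
      have := P.sub_mem h (hP2 hlead)
      rwa [sub_sub_cancel] at this
    exact hP.ne_top ((Ideal.eq_top_iff_one P).mpr this)
  have ha0 : a ≠ 0 := by
    rintro h
    rw [h] at haP
    exact haP P.zero_mem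
  have hF0 : F ≠ 0 := by
    rintro rfl
    simp at ha
    exact ha0 ha
  have hlc : F.leadingCoeff = a := by rw [leadingCoeff, hdeg]
  set G := F.integralNormalization with hG
  have hGdeg : G.natDegree = r := by
    rw [hG, natDegree_integralNormalization, hdeg]
  have hGmon : G.Monic := monic_integralNormalization hF0
  have hGc : ∀ i < r, G.coeff i = F.coeff i * a ^ (r - 1 - i) := by
    intro i hi
    rw [hG, integralNormalization_coeff_ne_natDegree (by omega), hlc, hdeg]
  have hE : G.IsEisensteinAt P := by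
    refine ⟨?_, ?_, ?_⟩
    · rw [hGmon.leadingCoeff]
      exact fun h => hP.ne_top ((Ideal.eq_top_iff_one P).mpr h)
    · intro n hn
      rw [hGdeg] at hn
      rw [hGc n hn]
      exact P.mul_mem_right _ (hmid n hn)
    · rw [hGc 0 (by omega)]
      intro h
      apply h0
      have h1 : a ^ (r - 1 - 0) - 1 ∈ P ^ 2 := by
        have h2 : a - 1 ∣ a ^ (r - 1 - 0) - 1 := by
          have := sub_dvd_pow_sub_pow a 1 (r - 1 - 0)
          rwa [one_pow] at this
        obtain ⟨b, hb⟩ := h2
        rw [hb]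
        exact (P ^ 2).mul_mem_right _ hlead
      have h3 : F.coeff 0 = F.coeff 0 * a ^ (r - 1 - 0) - F.coeff 0 * (a ^ (r - 1 - 0) - 1) := by ring
      rw [h3]
      exact (P ^ 2).sub_mem h ((P ^ 2).mul_mem_left _ h1)
  have hirr : Irreducible G := hE.irreducible hP hGmon.isPrimitive (by omega)
  obtain ⟨y, hy1, hy2⟩ := exists_root (Ω := Ω) (k := k) G hGmon hirr (by omega)
  have hyk : IsIntegral k y := hy1.tower_top
  have ha' : (a : k) ≠ 0 := by exact_mod_cast ha0
  have haΩ : algebraMap k Ω (a : k) ≠ 0 := (_root_.map_ne_zero _).mpr ha'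
  set x : Ω := y / algebraMap k Ω (a : k) with hx
  have hxk : IsIntegral k x := by
    rw [hx, div_eq_mul_inv, ← map_inv₀]
    exact hyk.mul isIntegral_algebraMap
  -- `x` is a root of `F`
  have hroot : aeval x (F.map (algebraMap (𝓞 k) k)) = 0 := by
    rw [aeval_map_algebraMap]
    have h1 : aeval y G = 0 := by
      have h2 := minpoly.aeval k y
      rw [hy2, aeval_map_algebraMap] at h2
      exact h2
    have h2 : aeval y G * (algebraMap (𝓞 k) Ω a) = (algebraMap (𝓞 k) Ω a) ^ r * aeval x F := by
      have e1 : algebraMap (𝓞 k) Ω a = algebraMap k Ω (a : k) := rfl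
      rw [aeval_eq_sum_range, aeval_eq_sum_range, hGdeg, hdeg, Finset.sum_mul, Finset.mul_sum, e1]
      refine Finset.sum_congr rfl fun i hi => ?_
      rw [Finset.mem_range] at hi
      have e2 : ∀ (c : 𝓞 k) (z : Ω), c • z = algebraMap k Ω (c : k) * z := fun c z => by
        rw [Algebra.smul_def]; rfl
      rw [e2, e2, hx, div_pow]
      rcases Nat.lt_or_ge i r with hir | hir
      · rw [hGc i hir]
        have e3 : ((F.coeff i * a ^ (r - 1 - i) : 𝓞 k) : k) = (F.coeff i : k) * (a : k) ^ (r - 1 - i) := by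
          push_cast; rfl
        rw [e3, map_mul, map_pow]
        have e4 : (algebraMap k Ω (a : k)) ^ r = (algebraMap k Ω (a : k)) ^ (r - 1 - i) * algebraMap k Ω (a : k)
            * (algebraMap k Ω (a : k)) ^ i := by
          rw [← pow_succ, ← pow_add]
          congr 1
          omega
        rw [e4]
        field_simp
      · obtain rfl : i = r := by omega
        have e3 : G.coeff i = 1 := by rw [← hGdeg]; exact hGmon.coeff_natDegree
        rw [e3, ← ha]
        have e5 : ((1 : 𝓞 k) : k) = 1 := by simp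
        rw [e5, map_one]
        field_simp
    rw [h1, zero_mul] at h2
    have h3 : algebraMap (𝓞 k) Ω a ≠ 0 := haΩ
    exact (mul_eq_zero.mp h2.symm).resolve_left (pow_ne_zero _ h3)
  have hFdeg : (F.map (algebraMap (𝓞 k) k)).natDegree = r := by
    rw [natDegree_map_eq_of_injective RingOfIntegers.coe_injective, hdeg]
  have hminle : minpoly k x ∣ F.map (algebraMap (𝓞 k) k) := minpoly.dvd k x hroot
  -- degree of `x`
  have hadj : k⟮x⟯ = k⟮y⟯ := by
    apply le_antisymm
    · rw [adjoin_simple_le_iff, hx]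
      exact div_mem (mem_adjoin_simple_self k y) (IntermediateField.algebraMap_mem _ _)
    · rw [adjoin_simple_le_iff]
      have : y = x * algebraMap k Ω (a : k) := by rw [hx, div_mul_cancel₀ _ haΩ]
      rw [this]
      exact mul_mem (mem_adjoin_simple_self k x) (IntermediateField.algebraMap_mem _ _)
  have hmindeg : (minpoly k x).natDegree = r := by
    rw [← adjoin.finrank hxk, hadj, adjoin.finrank hyk, hy2, hGmon.natDegree_map, hGdeg]
  refine ⟨x, hxk, ?_, ha0⟩
  obtain ⟨q, hq⟩ := hminle
  have hq0 : q ≠ 0 := by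
    rintro rfl
    rw [mul_zero] at hq
    rw [hq, natDegree_zero] at hFdeg
    omega
  have hqdeg : q.natDegree = 0 := by
    have h1 := congrArg natDegree hq
    rw [natDegree_mul (minpoly.ne_zero hxk) hq0, hFdeg, hmindeg] at h1
    omega
  obtain ⟨c, hc⟩ := natDegree_eq_zero.mp hqdeg
  rw [← hc] at hq
  have h1 : (F.map (algebraMap (𝓞 k) k)).coeff r = c := by
    rw [hq, coeff_mul_C, ← hmindeg, (minpoly.monic hxk).coeff_natDegree, one_mul]
  rw [coeff_map] at h1
  rw [hq, ← h1, mul_comm]

end

end Pool.Agent.Helper52.Vojta
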