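import Mathlib
import Pool.Agent.Helper52.Vojta.CellP

/-!
Counting integral polynomials which are small at prescribed points of the projective line.
-/

namespace Pool.Agent.Helper52.Vojta

open NumberField Finset Module Polynomial

section

variable {k : Type*} [Field k] [NumberField k]

/-- the polynomial with given coordinates -/
noncomputable def polyOf (r Q : ℕ) (t : Fin (r + 1) → Free.ChooseBasisIndex ℤ (𝓞 k) → Fin Q) : (𝓞 k)[X] :=
  ∑ i : Fin (r + 1), C (bet (fun j => (t i j : ℕ))) * X ^ (i : ℕ)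

theorem polyOf_coeff (r Q : ℕ) (t : Fin (r + 1) → Free.ChooseBasisIndex ℤ (𝓞 k) → Fin Q) (i : Fin (r + 1)) :
    (polyOf r Q t).coeff i = bet (fun j => (t i j : ℕ)) := by
  unfold polyOf
  rw [finsetSum_coeff, Finset.sum_eq_single i]
  · rw [coeff_C_mul, coeff_X_pow, if_pos rfl, mul_one]
  · intro b _ hb
    rw [coeff_C_mul, coeff_X_pow, if_neg, mul_zero]
    intro h
    exact hb (Fin.ext h.symm)
  · intro h
    exact absurd (Finset.mem_univ i) h

theorem polyOf_natDegree (r Q : ℕ) (t : Fin (r + 1) → Free.ChooseBasisIndex ℤ (𝓞 k) → Fin Q) :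
    (polyOf r Q t).natDegree ≤ r := by
  unfold polyOf
  refine natDegree_sum_le_of_forall_le _ _ fun i _ => ?_
  exact (natDegree_C_mul_X_pow_le _ _).trans (by have := i.2; omega)

theorem base_family (k : Type*) [Field k] [NumberField k] (r : ℕ) : ∃ K : ℕ, 1 ≤ K ∧ ∀ Q : ℕ,
    ∃ A : Finset (𝓞 k)[X], A.card = Q ^ (finrank ℚ k * (r + 1)) ∧ ∀ F ∈ A, F.natDegree ≤ r ∧
      ∀ (σ : k →+* ℂ) i, ‖iemb σ (F.coeff i)‖ ≤ K * Q := by
  classical
  obtain ⟨K, hK⟩ := bet_bound (k := k)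
  refine ⟨K + 1, by omega, fun Q => ?_⟩
  let ι := Free.ChooseBasisIndex ℤ (𝓞 k)
  have hinj : Function.Injective (polyOf (k := k) r Q) := by
    intro t t' h
    funext i j
    have h1 := congrArg (fun p => coeff p (i : ℕ)) h
    simp only [polyOf_coeff] at h1
    exact Fin.ext (congrFun (bet_injective h1) j)
  refine ⟨Finset.univ.image (polyOf (k := k) r Q), ?_, ?_⟩
  · have hι : Fintype.card ι = finrank ℚ k := by
      rw [← RingOfIntegers.rank k]
      exact (finrank_eq_card_chooseBasisIndex ℤ (𝓞 k)).symm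
    rw [Finset.card_image_of_injective _ hinj, Finset.card_univ, Fintype.card_fun,
      Fintype.card_fun, Fintype.card_fin, Fintype.card_fin, hι, ← pow_mul]
  · intro F hF
    obtain ⟨t, _, rfl⟩ := Finset.mem_image.mp hF
    refine ⟨polyOf_natDegree r Q t, fun σ i => ?_⟩
    have hQ : (0 : ℝ) ≤ Q := Nat.cast_nonneg _
    by_cases hi : i < r + 1
    · have h1 := polyOf_coeff r Q t ⟨i, hi⟩
      simp only at h1
      rw [h1]
      have h2 := hK Q (fun j => (t ⟨i, hi⟩ j : ℕ)) (fun j => (t _ j).2.le) σ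
      push_cast
      change ‖σ (bet (fun j => (t ⟨i, hi⟩ j : ℕ)) : 𝓞 k)‖ ≤ _
      nlinarith
    · rw [coeff_eq_zero_of_natDegree_lt (by have := polyOf_natDegree r Q t; omega), map_zero, norm_zero]
      positivity

open scoped Classical in
/-- many polynomials small at the points of `I` -/
theorem pigeon (r : ℕ) (I : (k →+* ℂ) → Finset (Option ℂ))
    (hI : ∀ σ, ∀ p ∈ I σ, p.map (starRingEnd ℂ) ∈ I (ComplexEmbedding.conjugate σ))
    (hI3 : ∀ σ, 3 ≤ (I σ).card) (hIc : ∀ σ, (I (ComplexEmbedding.conjugate σ)).card = (I σ).card)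
    {θ : ℝ} (hθ0 : 0 < θ) : ∃ K : ℝ, 1 ≤ K ∧ ∀ η : ℝ, 0 < η → ∃ B : ℝ, 0 < B ∧ ∀ Q : ℕ, 1 ≤ Q →
      ∃ G : Finset (𝓞 k)[X], (Q : ℝ) ^ (finrank ℚ k * (r + 1 - θ)) ≤ B * G.card ∧
        ∀ F ∈ G, F.natDegree ≤ r ∧ (∀ (σ : k →+* ℂ) i, ‖iemb σ (F.coeff i)‖ ≤ K * Q) ∧
          ∀ σ, ∀ p ∈ I σ, ‖pev r (F.map (iemb σ)) p‖ ≤ 2 * (η * (Q : ℝ) ^ (1 - θ / (I σ).card)) := by
  obtain ⟨K, hK1, hfam⟩ := base_family k r
  have hKr : (1 : ℝ) ≤ K := by exact_mod_cast hK1
  have hcardσ : Fintype.card (k →+* ℂ) = finrank ℚ k := NumberField.Embeddings.card k ℂ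
  refine ⟨2 * K, by linarith, fun η hη => ?_⟩
  set B : ℝ := ∏ σ : k →+* ℂ, ∏ p ∈ I σ, (4 * K * psz r p / η + 3) with hB
  have hB0 : 0 < B := by
    refine Finset.prod_pos fun σ _ => Finset.prod_pos fun p _ => ?_
    have := one_le_psz r p
    positivity
  refine ⟨B, hB0, ?_⟩
  intro Q hQ
  have hQr : (1 : ℝ) ≤ Q := by exact_mod_cast hQ
  have hQ0 : (0 : ℝ) < Q := by linarith
  obtain ⟨A, hA1, hA2⟩ := hfam Q
  let y : (k →+* ℂ) → ℝ := fun σ => η * (Q : ℝ) ^ (1 - θ / (I σ).card)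
  have hy : ∀ σ, 0 < y σ := fun σ => mul_pos hη (Real.rpow_pos_of_pos hQ0 _)
  have hy' : ∀ σ, y (ComplexEmbedding.conjugate σ) = y σ := fun σ => by
    change η * (Q : ℝ) ^ (1 - θ / (I (ComplexEmbedding.conjugate σ)).card) = _
    rw [hIc]
  let x : (k →+* ℂ) → Option ℂ → ℝ := fun _ p => K * Q * psz r p
  have hx : ∀ σ p, 0 ≤ x σ p := fun σ p => by
    have := one_le_psz r p
    change 0 ≤ K * Q * psz r p
    positivity
  obtain ⟨A', hA'1, hA'2, hA'3⟩ := exists_big_cell (r := r) (J := I) hy hx A (fun F hF σ p _ => by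
    refine pev_le ?_ (fun i => ?_) p
    · exact natDegree_map_le.trans (hA2 F hF).1
    · rw [coeff_map]; exact (hA2 F hF).2 σ i)
  have hprod : ∏ σ : k →+* ℂ, ∏ p ∈ I σ, (4 * x σ p / y σ + 3)
      ≤ B * (Q : ℝ) ^ (finrank ℚ k * θ) := by
    have h1 : (Q : ℝ) ^ (finrank ℚ k * θ) = ∏ σ : k →+* ℂ, ∏ p ∈ I σ, (Q : ℝ) ^ (θ / (I σ).card) := by
      have h2 : ∀ σ : k →+* ℂ, ∏ p ∈ I σ, (Q : ℝ) ^ (θ / (I σ).card) = (Q : ℝ) ^ θ := by
        intro σ
        rw [Finset.prod_const, ← Real.rpow_natCast, ← Real.rpow_mul hQ0.le]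
        congr 1
        have : ((I σ).card : ℝ) ≠ 0 := by
          have := hI3 σ
          have : (I σ).card ≠ 0 := by omega
          exact_mod_cast this
        field_simp
      rw [Finset.prod_congr rfl fun σ _ => h2 σ, Finset.prod_const, Finset.card_univ, hcardσ,
        ← Real.rpow_natCast, ← Real.rpow_mul hQ0.le]
      congr 1
      ring
    rw [h1, hB, ← Finset.prod_mul_distrib]
    refine Finset.prod_le_prod (fun σ _ => Finset.prod_nonneg fun p _ => ?_) fun σ _ => ?_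
    · have := hx σ p
      have := (hy σ).le
      positivity
    rw [← Finset.prod_mul_distrib]
    refine Finset.prod_le_prod (fun p _ => ?_) fun p _ => ?_
    · have := hx σ p
      have := (hy σ).le
      positivity
    have h3 : 4 * x σ p / y σ = 4 * K * psz r p / η * (Q : ℝ) ^ (θ / (I σ).card) := by
      change 4 * (K * Q * psz r p) / (η * (Q : ℝ) ^ (1 - θ / (I σ).card)) = _
      have h4 : (Q : ℝ) = (Q : ℝ) ^ (1 - θ / (I σ).card) * (Q : ℝ) ^ (θ / (I σ).card) := by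
        rw [← Real.rpow_add hQ0]
        have : 1 - θ / (I σ).card + θ / (I σ).card = 1 := by ring
        rw [this, Real.rpow_one]
      have h5 : 0 < (Q : ℝ) ^ (1 - θ / (I σ).card) := Real.rpow_pos_of_pos hQ0 _
      have h6 : 4 * (K * Q * psz r p) = 4 * (K * ((Q : ℝ) ^ (1 - θ / (I σ).card) * (Q : ℝ) ^ (θ / (I σ).card)) * psz r p) := by
        rw [← h4]
      rw [h6]
      have key : ∀ (u w e : ℝ), 0 < u → 0 < e → 4 * (K * (u * w) * psz r p) / (e * u) = 4 * K * psz r p / e * w := by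
        intro u w e hu he
        field_simp
      exact key _ _ _ h5 hη
    rw [h3]
    have h4 : 1 ≤ (Q : ℝ) ^ (θ / (I σ).card) := Real.one_le_rpow hQr (by positivity)
    nlinarith
  have hQθ : 0 < (Q : ℝ) ^ (finrank ℚ k * θ) := Real.rpow_pos_of_pos hQ0 _
  -- differences
  rcases A'.eq_empty_or_nonempty with hE | ⟨F0, hF0⟩
  · exfalso
    rw [hE, Finset.card_empty, Nat.cast_zero, zero_mul, hA1] at hA'3
    have : 0 < ((Q ^ (finrank ℚ k * (r + 1)) : ℕ) : ℝ) := by push_cast; positivity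
    linarith
  refine ⟨A'.image (fun F => F - F0), ?_, ?_⟩
  · rw [Finset.card_image_of_injective _ (sub_left_injective)]
    have h1 : (Q : ℝ) ^ (finrank ℚ k * (r + 1 - θ)) * (Q : ℝ) ^ (finrank ℚ k * θ) = A.card := by
      rw [← Real.rpow_add hQ0, hA1]
      push_cast
      rw [← Real.rpow_natCast]
      congr 1
      push_cast
      ring
    have h2 : (Q : ℝ) ^ (finrank ℚ k * (r + 1 - θ)) * (Q : ℝ) ^ (finrank ℚ k * θ)
        ≤ (B * A'.card) * (Q : ℝ) ^ (finrank ℚ k * θ) := by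
      rw [h1]
      calc (A.card : ℝ) ≤ _ := hA'3
        _ ≤ A'.card * (B * (Q : ℝ) ^ (finrank ℚ k * θ)) := mul_le_mul_of_nonneg_left hprod (Nat.cast_nonneg _)
        _ = _ := by ring
    exact le_of_mul_le_mul_right h2 hQθ
  · intro F hF
    obtain ⟨F1, hF1, rfl⟩ := Finset.mem_image.mp hF
    have hF1A := hA2 F1 (hA'1 hF1)
    have hF0A := hA2 F0 (hA'1 hF0)
    refine ⟨(natDegree_sub_le _ _).trans (max_le hF1A.1 hF0A.1), ?_, ?_⟩
    · intro σ i
      rw [coeff_sub, map_sub]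
      calc _ ≤ _ := norm_sub_le _ _
        _ ≤ K * Q + K * Q := add_le_add (hF1A.2 σ i) (hF0A.2 σ i)
        _ = _ := by ring
    · intro σ p hp
      exact cellP_close hI hy hy' (hA'2 F1 hF1 F0 hF0) σ hp

end

end Pool.Agent.Helper52.Vojta
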