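import Mathlib
import Pool.Agent.Helper52.Vojta.PolyCount
import Pool.Agent.Helper52.Vojta.ContentCount
import Pool.Agent.Helper52.Vojta.EisRoot

/-!
The family of Eisenstein polynomials which are small at prescribed points of the projective line.
-/

namespace Pool.Agent.Helper52.Vojta

open NumberField Finset Module Polynomial

section

/-- linear factor of a point -/
noncomputable def lfac : Option ℂ → ℂ[X]
  | none => 1
  | some α => X - C α

theorem lfac_monic (p : Option ℂ) : (lfac p).Monic := by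
  cases p with
  | none => exact monic_one
  | some α => exact monic_X_sub_C α

theorem lfac_conj (p : Option ℂ) : lfac (p.map (starRingEnd ℂ)) = (lfac p).map (starRingEnd ℂ) := by
  cases p with
  | none => exact (Polynomial.map_one _).symm
  | some α =>
    change X - C (starRingEnd ℂ α) = (X - C α).map _
    rw [Polynomial.map_sub, map_X, map_C]

theorem lfac_natDegree (p : Option ℂ) : (lfac p).natDegree = if p = none then 0 else 1 := by
  cases p with
  | none => exact natDegree_one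
  | some α =>
    rw [if_neg (by simp)]
    exact natDegree_X_sub_C α

/-- the monic polynomial vanishing at the points of `I` -/
noncomputable def polI (I : Finset (Option ℂ)) : ℂ[X] := ∏ p ∈ I, lfac p

theorem polI_monic (I : Finset (Option ℂ)) : (polI I).Monic := monic_prod_of_monic _ _ fun p _ => lfac_monic p

theorem polI_natDegree_le {r : ℕ} {I : Finset (Option ℂ)} (h : I.card ≤ r) : (polI I).natDegree ≤ r := by
  unfold polI
  rw [natDegree_prod_of_monic _ _ fun p _ => lfac_monic p]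
  calc ∑ p ∈ I, (lfac p).natDegree ≤ ∑ _p ∈ I, 1 := by
        refine Finset.sum_le_sum fun p _ => ?_
        rw [lfac_natDegree]; split_ifs <;> omega
    _ = I.card := by simp
    _ ≤ r := h

theorem polI_pev {r : ℕ} {I : Finset (Option ℂ)} (h : I.card ≤ r) {p : Option ℂ} (hp : p ∈ I) :
    pev r (polI I) p = 0 := by
  classical
  cases p with
  | none =>
    change (polI I).coeff r = 0
    apply coeff_eq_zero_of_natDegree_lt
    have h1 : (polI I).natDegree < I.card := by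
      unfold polI
      rw [natDegree_prod_of_monic _ _ fun p _ => lfac_monic p]
      calc ∑ p ∈ I, (lfac p).natDegree < ∑ _p ∈ I, 1 := by
            refine Finset.sum_lt_sum (fun p _ => ?_) ⟨none, hp, ?_⟩
            · rw [lfac_natDegree]; split_ifs <;> omega
            · rw [lfac_natDegree, if_pos rfl]; omega
        _ = I.card := by simp
    omega
  | some α =>
    change (polI I).eval α = 0
    unfold polI
    rw [eval_prod]
    refine Finset.prod_eq_zero hp ?_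
    change (X - C α).eval α = 0
    simp

end

section

variable {k : Type*} [Field k] [NumberField k]

omit [NumberField k] in
theorem polI_conj {I : (k →+* ℂ) → Finset (Option ℂ)}
    (hI : ∀ σ, ∀ p ∈ I σ, p.map (starRingEnd ℂ) ∈ I (ComplexEmbedding.conjugate σ))
    (hIc : ∀ σ, (I (ComplexEmbedding.conjugate σ)).card = (I σ).card) (σ : k →+* ℂ) :
    polI (I (ComplexEmbedding.conjugate σ)) = (polI (I σ)).map (starRingEnd ℂ) := by
  classical
  have hinj : Function.Injective (Option.map (starRingEnd ℂ)) := Option.map_injective (star_injective)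
  have h1 : (I σ).image (Option.map (starRingEnd ℂ)) = I (ComplexEmbedding.conjugate σ) := by
    apply Finset.eq_of_subset_of_card_le
    · intro p hp
      obtain ⟨p', hp', rfl⟩ := Finset.mem_image.mp hp
      exact hI σ p' hp'
    · rw [Finset.card_image_of_injective _ hinj, hIc]
  unfold polI
  rw [← h1, Finset.prod_image hinj.injOn, Polynomial.map_prod]
  exact Finset.prod_congr rfl fun p _ => lfac_conj p

theorem mahler_le_of_coeff {F : ℂ[X]} {r : ℕ} (hr : F.natDegree ≤ r) {B : ℝ} (hB : ∀ i, ‖F.coeff i‖ ≤ B) :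
    F.mahlerMeasure ≤ (r + 1) * B := by
  refine (mahlerMeasure_le_sum_norm_coeff F).trans ?_
  rw [sum_over_range' _ (by simp) (r + 1) (by omega)]
  calc ∑ i ∈ range (r + 1), ‖F.coeff i‖ ≤ ∑ _i ∈ range (r + 1), B := Finset.sum_le_sum fun i _ => hB i
    _ = _ := by rw [Finset.sum_const, Finset.card_range, nsmul_eq_mul]; push_cast; ring

open scoped Classical in
theorem gfamily (r : ℕ) (hr : 3 ≤ r) (I : (k →+* ℂ) → Finset (Option ℂ))
    (hI : ∀ σ, ∀ p ∈ I σ, p.map (starRingEnd ℂ) ∈ I (ComplexEmbedding.conjugate σ))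
    (hI3 : ∀ σ, 3 ≤ (I σ).card) (hIr : ∀ σ, (I σ).card ≤ r)
    (hIc : ∀ σ, (I (ComplexEmbedding.conjugate σ)).card = (I σ).card)
    {θ : ℝ} (hθ0 : 0 < θ) (hθ3 : θ < 3) {P : Ideal (𝓞 k)} (hP : P ≠ ⊤) {π : 𝓞 k} (hπ : π ∈ P) (hπ2 : π ∉ P ^ 2)
    {N : ℕ} (hN1 : 1 ≤ N) (hN : (N : 𝓞 k) ∈ P ^ 2) :
    ∃ C3 : ℝ, 1 ≤ C3 ∧ ∀ η : ℝ, 0 < η → ∃ (B : ℝ) (Q0 : ℕ), 0 < B ∧ ∀ Q : ℕ, Q0 ≤ Q → 1 ≤ Q →
      ∃ A : Finset (𝓞 k)[X], (Q : ℝ) ^ (finrank ℚ k * (r + 1 - θ)) ≤ B * A.card ∧
        ∀ F ∈ A, F.natDegree = r ∧ F.coeff r - 1 ∈ P ^ 2 ∧ (∀ i < r, F.coeff i ∈ P) ∧ F.coeff 0 ∉ P ^ 2 ∧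
          (∀ (σ : k →+* ℂ) i, ‖iemb σ (F.coeff i)‖ ≤ C3 * Q) ∧
          (∀ σ : k →+* ℂ, (Q : ℝ) / 2 ^ r ≤ (F.map (iemb σ)).mahlerMeasure) ∧
          (∀ σ, ∀ p ∈ I σ, ‖pev r (F.map (iemb σ)) p‖ ≤ 3 * N * (η * (Q : ℝ) ^ (1 - θ / (I σ).card))) := by
  obtain ⟨K, hK1, hpig⟩ := pigeon r I hI hI3 hIc hθ0
  obtain ⟨CR, hCR0, hround⟩ := round_exists k
  have hNr : (1 : ℝ) ≤ N := by exact_mod_cast hN1
  set Pz : ℝ := ∑ σ : k →+* ℂ, ‖iemb σ π‖ with hPz
  have hPz0 : 0 ≤ Pz := Finset.sum_nonneg fun _ _ => norm_nonneg _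
  have hPzσ : ∀ σ : k →+* ℂ, ‖iemb σ π‖ ≤ Pz := fun σ =>
    Finset.single_le_sum (f := fun σ : k →+* ℂ => ‖iemb σ π‖) (fun _ _ => norm_nonneg _) (Finset.mem_univ σ)
  -- bound for the coefficients of the auxiliary polynomials
  set Lc : ℝ := ∑ σ : k →+* ℂ, ∑ i ∈ range (r + 1), ‖(polI (I σ)).coeff i‖ with hLc
  have hLc0 : 0 ≤ Lc := Finset.sum_nonneg fun _ _ => Finset.sum_nonneg fun _ _ => norm_nonneg _
  have hLcσ : ∀ (σ : k →+* ℂ) i, ‖(polI (I σ)).coeff i‖ ≤ Lc := by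
    intro σ i
    by_cases hi : i < r + 1
    · calc ‖(polI (I σ)).coeff i‖ ≤ ∑ i ∈ range (r + 1), ‖(polI (I σ)).coeff i‖ :=
            Finset.single_le_sum (f := fun i => ‖(polI (I σ)).coeff i‖) (fun _ _ => norm_nonneg _)
              (Finset.mem_range.mpr hi)
        _ ≤ Lc := Finset.single_le_sum (f := fun σ : k →+* ℂ => ∑ i ∈ range (r + 1), ‖(polI (I σ)).coeff i‖)
              (fun _ _ => Finset.sum_nonneg fun _ _ => norm_nonneg _) (Finset.mem_univ σ)
    · rw [coeff_eq_zero_of_natDegree_lt (by have := polI_natDegree_le (hIr σ); omega), norm_zero]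
      exact hLc0
  set Ψ : ℝ := ∑ σ : k →+* ℂ, ∑ p ∈ I σ, psz r p with hΨ
  have hpsz0 : ∀ p, 0 ≤ psz r p := fun p => by have := one_le_psz r p; linarith
  have hΨ0 : 0 ≤ Ψ := Finset.sum_nonneg fun _ _ => Finset.sum_nonneg fun _ _ => hpsz0 _
  have hΨσ : ∀ (σ : k →+* ℂ), ∀ p ∈ I σ, psz r p ≤ Ψ := by
    intro σ p hp
    calc psz r p ≤ ∑ p ∈ I σ, psz r p := Finset.single_le_sum (f := psz r) (fun _ _ => hpsz0 _) hp
      _ ≤ Ψ := Finset.single_le_sum (f := fun σ : k →+* ℂ => ∑ p ∈ I σ, psz r p)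
            (fun _ _ => Finset.sum_nonneg fun _ _ => hpsz0 _) (Finset.mem_univ σ)
  set C3 : ℝ := 1 + Pz + N * ((K + 2) * Lc + CR + K) with hC3
  refine ⟨C3, by rw [hC3]; nlinarith [mul_nonneg (by linarith : (0 : ℝ) ≤ N) (show 0 ≤ (K + 2) * Lc + CR + K by positivity)], ?_⟩
  intro η hη
  obtain ⟨B, hB0, hpig'⟩ := hpig η hη
  set D : ℝ := (1 + Pz + N * CR) * Ψ with hD
  have hD0 : 0 ≤ D := by positivity
  have hexp : 0 < 1 - θ / 3 := by linarith [show θ / 3 < 1 by rw [div_lt_one (by norm_num)]; exact hθ3]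
  -- threshold
  set z1 : ℝ := (D / (N * η) + 1) ^ (1 / (1 - θ / 3)) with hz1
  refine ⟨B, ⌈max z1 (N * CR + 1 + Pz)⌉₊, hB0, ?_⟩
  intro Q hQ0 hQ1
  have hQr : (1 : ℝ) ≤ Q := by exact_mod_cast hQ1
  have hQpos : (0 : ℝ) < Q := by linarith
  have hQge : max z1 (N * CR + 1 + Pz) ≤ Q := (Nat.le_ceil _).trans (by exact_mod_cast hQ0)
  have hQz1 : z1 ≤ Q := (le_max_left _ _).trans hQge
  have hQz2 : N * CR + 1 + Pz ≤ Q := (le_max_right _ _).trans hQge
  obtain ⟨G, hG1, hG2⟩ := hpig' Q hQ1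
  -- the large polynomial
  have hHex : ∀ i : ℕ, ∃ b : 𝓞 k, ∀ σ : k →+* ℂ, ‖iemb σ b - ((K + 2) * Q : ℝ) * (polI (I σ)).coeff i‖ ≤ CR := by
    intro i
    refine hround (fun σ => ((K + 2) * Q : ℝ) * (polI (I σ)).coeff i) fun σ => ?_
    rw [polI_conj hI hIc, coeff_map, map_mul, Complex.conj_ofReal]
  choose b hb using hHex
  set H : (𝓞 k)[X] := ∑ i ∈ range (r + 1), C (b i) * X ^ i with hH
  have hHc : ∀ i, i < r + 1 → H.coeff i = b i := by
    intro i hi
    rw [hH, coeff_sum_aux, if_pos hi]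
  have hHc' : ∀ i, ¬ i < r + 1 → H.coeff i = 0 := by
    intro i hi
    rw [hH, coeff_sum_aux, if_neg hi]
  have hHdeg : H.natDegree ≤ r := by
    rw [natDegree_le_iff_coeff_eq_zero]
    intro i hi
    exact hHc' i (by omega)
  -- difference with the model
  have hHdiff : ∀ (σ : k →+* ℂ) i, ‖(H.map (iemb σ) - C (((K + 2) * Q : ℝ) : ℂ) * polI (I σ)).coeff i‖ ≤ CR := by
    intro σ i
    rw [coeff_sub, coeff_C_mul, coeff_map]
    by_cases hi : i < r + 1
    · rw [hHc i hi]; exact hb i σ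
    · rw [hHc' i hi, map_zero, coeff_eq_zero_of_natDegree_lt (by have := polI_natDegree_le (hIr σ); omega),
        mul_zero, sub_zero, norm_zero]
      exact hCR0
  let Fof : (𝓞 k)[X] → (𝓞 k)[X] := fun g => X ^ r + C π + C (N : 𝓞 k) * (H + g)
  have hNne : (N : 𝓞 k) ≠ 0 := by
    have : N ≠ 0 := by omega
    exact_mod_cast this
  have hFinj : Function.Injective Fof := by
    intro g g' h
    have h1 : C (N : 𝓞 k) * (H + g) = C (N : 𝓞 k) * (H + g') := add_left_cancel h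
    have h2 := mul_left_cancel₀ (C_ne_zero.mpr hNne) h1
    exact add_left_cancel h2
  refine ⟨G.image Fof, ?_, ?_⟩
  · rw [Finset.card_image_of_injective _ hFinj]
    exact hG1
  intro F hF
  obtain ⟨g, hg, rfl⟩ := Finset.mem_image.mp hF
  obtain ⟨hgdeg, hgc, hgv⟩ := hG2 g hg
  have hPP : P ^ 2 ≤ P := Ideal.pow_le_self (by norm_num)
  have hFc : ∀ i, (Fof g).coeff i = (if i = r then 1 else 0) + (if i = 0 then π else 0)
      + N * ((H + g).coeff i) := by
    intro i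
    change (X ^ r + C π + C (N : 𝓞 k) * (H + g)).coeff i = _
    rw [coeff_add, coeff_add, coeff_X_pow, coeff_C, coeff_C_mul]
  have hlead : (Fof g).coeff r - 1 ∈ P ^ 2 := by
    rw [hFc, if_pos rfl, if_neg (by omega), add_zero, add_sub_cancel_left]
    exact (P ^ 2).mul_mem_right _ hN
  have hleadne : (Fof g).coeff r ≠ 0 := by
    intro h
    rw [h, zero_sub] at hlead
    have h1 : (1 : 𝓞 k) ∈ P := hPP ((P ^ 2).neg_mem_iff.mp hlead)
    exact hP ((Ideal.eq_top_iff_one P).mpr h1)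
  have hFdegle : (Fof g).natDegree ≤ r := by
    change (X ^ r + C π + C (N : 𝓞 k) * (H + g)).natDegree ≤ r
    refine (natDegree_add_le _ _).trans (max_le ?_ ?_)
    · exact (natDegree_add_le _ _).trans (max_le (natDegree_X_pow_le _) (by rw [natDegree_C]; omega))
    · exact (natDegree_C_mul_le _ _).trans ((natDegree_add_le _ _).trans (max_le hHdeg hgdeg))
  have hFmapdeg : ∀ σ : k →+* ℂ, ((Fof g).map (iemb σ)).natDegree ≤ r := fun σ => natDegree_map_le.trans hFdegle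
  -- decomposition of the image
  have hFmap : ∀ σ : k →+* ℂ, (Fof g).map (iemb σ) = (X ^ r + C (iemb σ π))
      + C (N : ℂ) * ((H.map (iemb σ) - C (((K + 2) * Q : ℝ) : ℂ) * polI (I σ)) + g.map (iemb σ))
      + C ((N : ℂ) * (((K + 2) * Q : ℝ) : ℂ)) * polI (I σ) := by
    intro σ
    change (X ^ r + C π + C (N : 𝓞 k) * (H + g)).map (iemb σ) = _
    rw [Polynomial.map_add, Polynomial.map_add, Polynomial.map_pow, map_X, map_C, Polynomial.map_mul, map_C,
      Polynomial.map_add, map_natCast, C_mul]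
    ring
  have hXpi : ∀ (σ : k →+* ℂ) i, ‖(X ^ r + C (iemb σ π) : ℂ[X]).coeff i‖ ≤ 1 + Pz := by
    intro σ i
    rw [coeff_add, coeff_X_pow, coeff_C]
    refine (norm_add_le _ _).trans (add_le_add ?_ ?_)
    · split_ifs <;> simp
    · split_ifs
      · exact hPzσ σ
      · rw [norm_zero]; exact hPz0
  have hKQ : (0 : ℝ) ≤ (K + 2) * Q := by positivity
  refine ⟨?_, hlead, ?_, ?_, ?_, ?_, ?_⟩
  · exact natDegree_eq_of_le_of_coeff_ne_zero hFdegle hleadne
  · intro i hi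
    rw [hFc, if_neg (by omega), zero_add]
    refine P.add_mem ?_ (P.mul_mem_right _ (hPP hN))
    split_ifs
    · exact hπ
    · exact P.zero_mem
  · rw [hFc, if_neg (by omega), if_pos rfl, zero_add]
    intro h
    apply hπ2
    have h1 : (N : 𝓞 k) * (H + g).coeff 0 ∈ P ^ 2 := (P ^ 2).mul_mem_right _ hN
    have := (P ^ 2).sub_mem h h1
    rwa [add_sub_cancel_right] at this
  · -- coefficients
    intro σ i
    have h1 : iemb σ ((Fof g).coeff i) = ((Fof g).map (iemb σ)).coeff i := (coeff_map _ _).symm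
    rw [h1, hFmap, coeff_add, coeff_add, coeff_C_mul, coeff_C_mul, coeff_add]
    have e1 := hXpi σ i
    have e2 := hHdiff σ i
    have e3 : ‖(g.map (iemb σ)).coeff i‖ ≤ K * Q := by rw [coeff_map]; exact hgc σ i
    have e4 := hLcσ σ i
    have e5 : ‖(N : ℂ) * ((H.map (iemb σ) - C (((K + 2) * Q : ℝ) : ℂ) * polI (I σ)).coeff i
        + (g.map (iemb σ)).coeff i)‖ ≤ N * (CR + K * Q) := by
      rw [norm_mul, Complex.norm_natCast]
      exact mul_le_mul_of_nonneg_left ((norm_add_le _ _).trans (add_le_add e2 e3)) (by linarith)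
    have e6 : ‖(N : ℂ) * (((K + 2) * Q : ℝ) : ℂ) * (polI (I σ)).coeff i‖ ≤ N * ((K + 2) * Q) * Lc := by
      rw [norm_mul, norm_mul, Complex.norm_natCast, Complex.norm_real, Real.norm_eq_abs, abs_of_nonneg hKQ]
      exact mul_le_mul_of_nonneg_left e4 (by positivity)
    refine (norm_add_le _ _).trans ?_
    refine (add_le_add ((norm_add_le _ _).trans (add_le_add e1 e5)) e6).trans ?_
    rw [hC3]
    have h2 : 1 + Pz ≤ (1 + Pz) * Q := le_mul_of_one_le_right (by linarith) hQr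
    have h3 : (N : ℝ) * CR ≤ N * CR * Q := le_mul_of_one_le_right (by positivity) hQr
    nlinarith
  · -- Mahler measure
    intro σ
    rw [div_le_iff₀ (by positivity)]
    set d := (polI (I σ)).natDegree with hd
    have h1 := coeff_le_mahler (hFmapdeg σ) d
    rw [mul_comm] at h1
    refine le_trans ?_ h1
    rw [hFmap, coeff_add, coeff_add, coeff_C_mul, coeff_C_mul, coeff_add]
    have h2 : (polI (I σ)).coeff d = 1 := (polI_monic (I σ)).coeff_natDegree
    rw [h2, mul_one]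
    have e1 := hXpi σ d
    have e2 := hHdiff σ d
    have e3 : ‖(g.map (iemb σ)).coeff d‖ ≤ K * Q := by rw [coeff_map]; exact hgc σ d
    have e5 : ‖(N : ℂ) * ((H.map (iemb σ) - C (((K + 2) * Q : ℝ) : ℂ) * polI (I σ)).coeff d
        + (g.map (iemb σ)).coeff d)‖ ≤ N * (CR + K * Q) := by
      rw [norm_mul, Complex.norm_natCast]
      exact mul_le_mul_of_nonneg_left ((norm_add_le _ _).trans (add_le_add e2 e3)) (by linarith)
    have e6 : ‖(N : ℂ) * (((K + 2) * Q : ℝ) : ℂ)‖ = N * ((K + 2) * Q) := by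
      rw [norm_mul, Complex.norm_natCast, Complex.norm_real, Real.norm_eq_abs, abs_of_nonneg hKQ]
    have e7 : ‖(N : ℂ) * (((K + 2) * Q : ℝ) : ℂ)‖ ≤ ‖(X ^ r + C (iemb σ π) : ℂ[X]).coeff d
        + (N : ℂ) * ((H.map (iemb σ) - C (((K + 2) * Q : ℝ) : ℂ) * polI (I σ)).coeff d
        + (g.map (iemb σ)).coeff d) + (N : ℂ) * (((K + 2) * Q : ℝ) : ℂ)‖
        + ‖(X ^ r + C (iemb σ π) : ℂ[X]).coeff d
        + (N : ℂ) * ((H.map (iemb σ) - C (((K + 2) * Q : ℝ) : ℂ) * polI (I σ)).coeff d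
        + (g.map (iemb σ)).coeff d)‖ := by
      have := norm_sub_le ((X ^ r + C (iemb σ π) : ℂ[X]).coeff d
        + (N : ℂ) * ((H.map (iemb σ) - C (((K + 2) * Q : ℝ) : ℂ) * polI (I σ)).coeff d
        + (g.map (iemb σ)).coeff d) + (N : ℂ) * (((K + 2) * Q : ℝ) : ℂ)) ((X ^ r + C (iemb σ π) : ℂ[X]).coeff d
        + (N : ℂ) * ((H.map (iemb σ) - C (((K + 2) * Q : ℝ) : ℂ) * polI (I σ)).coeff d
        + (g.map (iemb σ)).coeff d))
      rwa [add_sub_cancel_left] at this
    have e8 := (norm_add_le ((X ^ r + C (iemb σ π) : ℂ[X]).coeff d) ((N : ℂ) *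
        ((H.map (iemb σ) - C (((K + 2) * Q : ℝ) : ℂ) * polI (I σ)).coeff d
        + (g.map (iemb σ)).coeff d))).trans (add_le_add e1 e5)
    rw [e6] at e7
    have e9 : (N : ℝ) * ((K + 2) * Q) - (N * (CR + K * Q)) - (1 + Pz) ≤ ‖(X ^ r + C (iemb σ π) : ℂ[X]).coeff d
        + (N : ℂ) * ((H.map (iemb σ) - C (((K + 2) * Q : ℝ) : ℂ) * polI (I σ)).coeff d
        + (g.map (iemb σ)).coeff d) + (N : ℂ) * (((K + 2) * Q : ℝ) : ℂ)‖ := by linarith
    refine le_trans ?_ e9
    nlinarith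
  · -- values
    intro σ p hp
    rw [hFmap, pev_add, pev_add, pev_C_mul, pev_C_mul,
      pev_add r (H.map (iemb σ) - C (((K + 2) * Q : ℝ) : ℂ) * polI (I σ)) (g.map (iemb σ)),
      polI_pev (hIr σ) hp, mul_zero, add_zero]
    have e0 : psz r p ≤ Ψ := hΨσ σ p hp
    have e1 : ‖pev r (X ^ r + C (iemb σ π)) p‖ ≤ (1 + Pz) * Ψ := by
      refine (pev_le ?_ (hXpi σ) p).trans (mul_le_mul_of_nonneg_left e0 (by linarith))
      exact (natDegree_add_le _ _).trans (max_le (natDegree_X_pow_le _) (by rw [natDegree_C]; omega))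
    have e2 : ‖pev r (H.map (iemb σ) - C (((K + 2) * Q : ℝ) : ℂ) * polI (I σ)) p‖ ≤ CR * Ψ := by
      refine (pev_le ?_ (hHdiff σ) p).trans (mul_le_mul_of_nonneg_left e0 hCR0)
      refine (natDegree_sub_le _ _).trans (max_le (natDegree_map_le.trans hHdeg) ?_)
      exact (natDegree_C_mul_le _ _).trans (polI_natDegree_le (hIr σ))
    have e3 := hgv σ p hp
    have e4 : D ≤ N * (η * (Q : ℝ) ^ (1 - θ / (I σ).card)) := by
      have h1 : D / (N * η) + 1 ≤ (Q : ℝ) ^ (1 - θ / 3) := by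
        calc D / (N * η) + 1 = z1 ^ (1 - θ / 3) := by
              rw [hz1, ← Real.rpow_mul (by positivity), one_div_mul_cancel hexp.ne', Real.rpow_one]
          _ ≤ _ := Real.rpow_le_rpow (by positivity) hQz1 hexp.le
      have h2 : (Q : ℝ) ^ (1 - θ / 3) ≤ (Q : ℝ) ^ (1 - θ / (I σ).card) := by
        apply Real.rpow_le_rpow_of_exponent_le hQr
        have h3 : (3 : ℝ) ≤ (I σ).card := by exact_mod_cast hI3 σ
        have h4 : θ / (I σ).card ≤ θ / 3 := div_le_div_of_nonneg_left hθ0.le (by norm_num) h3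
        linarith
      have h3 : D / (N * η) ≤ (Q : ℝ) ^ (1 - θ / (I σ).card) := by linarith
      rw [div_le_iff₀ (by positivity)] at h3
      linarith
    have e5 : ‖(N : ℂ) * (pev r (H.map (iemb σ) - C (((K + 2) * Q : ℝ) : ℂ) * polI (I σ)) p
        + pev r (g.map (iemb σ)) p)‖ ≤ N * (CR * Ψ + 2 * (η * (Q : ℝ) ^ (1 - θ / (I σ).card))) := by
      rw [norm_mul, Complex.norm_natCast]
      exact mul_le_mul_of_nonneg_left ((norm_add_le _ _).trans (add_le_add e2 e3)) (by linarith)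
    refine (norm_add_le _ _).trans ((add_le_add e1 e5).trans ?_)
    have e6 : (1 + Pz) * Ψ + N * (CR * Ψ) = D := by rw [hD]; ring
    linarith

end

end Pool.Agent.Helper52.Vojta
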