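import Mathlib

/-!
Tail of the Dedekind zeta function.
-/

namespace Pool.Agent.Helper52.Vojta

open NumberField Finset Module Filter Topology nonZeroDivisors

section

variable (k : Type*) [Field k] [NumberField k]

theorem ideal_count : ∃ A : ℝ, 0 < A ∧ ∀ (t : ℕ), 1 ≤ t → ∀ T : Finset (Ideal (𝓞 k)),
    (∀ I ∈ T, I ≠ ⊥ ∧ Ideal.absNorm I ≤ t) → (T.card : ℝ) ≤ A * t := by
  classical
  have h1 := NumberField.Ideal.tendsto_norm_le_div_atTop₀ k
  set l : ℝ := (2 ^ InfinitePlace.nrRealPlaces k * (2 * Real.pi) ^ InfinitePlace.nrComplexPlaces k * Units.regulator k *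
    classNumber k) / (Units.torsionOrder k * Real.sqrt |discr k|) with hl
  have h2 := (h1.eventually (gt_mem_nhds (show l < |l| + 1 by linarith [le_abs_self l])))
  obtain ⟨s0, hs0⟩ := Filter.eventually_atTop.mp h2
  have hcard : ∀ (s : ℝ) (T : Finset (Ideal (𝓞 k))), (∀ I ∈ T, I ≠ ⊥ ∧ (Ideal.absNorm I : ℝ) ≤ s) →
      (T.card : ℝ) ≤ Nat.card {I : (Ideal (𝓞 k))⁰ // (Ideal.absNorm (I : Ideal (𝓞 k)) : ℝ) ≤ s} := by
    intro s T hT
    have hfin : Finite {I : (Ideal (𝓞 k))⁰ // (Ideal.absNorm (I : Ideal (𝓞 k)) : ℝ) ≤ s} := by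
      have h3 : {I : (Ideal (𝓞 k))⁰ | (Ideal.absNorm (I : Ideal (𝓞 k)) : ℝ) ≤ s}.Finite := by
        have h4 : {I : Ideal (𝓞 k) | Ideal.absNorm I ≤ ⌊s⌋₊}.Finite := Ideal.finite_setOfPred_absNorm_le _
        refine Set.Finite.of_finite_image (f := fun I : (Ideal (𝓞 k))⁰ => (I : Ideal (𝓞 k))) (h4.subset ?_)
          Subtype.val_injective.injOn
        rintro _ ⟨I, hI, rfl⟩
        exact Nat.le_floor hI
      exact h3.to_subtype
    let f : T → {I : (Ideal (𝓞 k))⁰ // (Ideal.absNorm (I : Ideal (𝓞 k)) : ℝ) ≤ s} := fun I =>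
      ⟨⟨I, mem_nonZeroDivisors_of_ne_zero (hT I I.2).1⟩, (hT I I.2).2⟩
    have hf : Function.Injective f := by
      intro I J h
      have := congrArg (fun x => (x.1 : Ideal (𝓞 k))) h
      exact Subtype.ext this
    have h3 := Nat.card_le_card_of_injective f hf
    rw [Nat.card_eq_fintype_card (α := T), Fintype.card_coe] at h3
    exact_mod_cast h3
  set s1 := max s0 1 with hs1
  have hs11 : 1 ≤ s1 := le_max_right _ _
  refine ⟨(|l| + 1) * s1, by positivity, ?_⟩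
  intro t ht T hT
  have htr : (1 : ℝ) ≤ t := by exact_mod_cast ht
  have hs2 : s0 ≤ s1 * t := by
    calc s0 ≤ s1 := le_max_left _ _
      _ ≤ s1 * t := le_mul_of_one_le_right (by linarith) htr
  have h3 := hs0 (s1 * t) hs2
  have h4 : 0 < s1 * t := by positivity
  rw [div_lt_iff₀ h4] at h3
  have h5 := hcard (s1 * t) T (fun I hI => ⟨(hT I hI).1, by
    have h6 : (Ideal.absNorm I : ℝ) ≤ t := by exact_mod_cast (hT I hI).2
    have : (t : ℝ) ≤ s1 * t := le_mul_of_one_le_left (by linarith) hs11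
    linarith⟩)
  calc (T.card : ℝ) ≤ _ := h5
    _ ≤ (|l| + 1) * (s1 * t) := h3.le
    _ = _ := by ring

theorem ideal_tail {s : ℝ} (hs : 1 < s) {η : ℝ} (hη : 0 < η) : ∃ M : ℕ, 1 ≤ M ∧ ∀ T : Finset (Ideal (𝓞 k)),
    (∀ I ∈ T, I ≠ ⊥ ∧ M < Ideal.absNorm I) → ∑ I ∈ T, (Ideal.absNorm I : ℝ) ^ (-s) ≤ η := by
  classical
  obtain ⟨A, hA, hcount⟩ := ideal_count k
  set ρ : ℝ := (2 : ℝ) ^ (1 - s) with hρ
  have hρ0 : 0 < ρ := by rw [hρ]; positivity
  have hρ1 : ρ < 1 := by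
    rw [hρ]
    exact Real.rpow_lt_one_of_one_lt_of_neg (by norm_num) (by linarith)
  -- choice of `J`
  have hlim : Tendsto (fun J : ℕ => 2 * A * (ρ ^ J / (1 - ρ))) atTop (𝓝 0) := by
    have h1 := tendsto_pow_atTop_nhds_zero_of_lt_one hρ0.le hρ1
    have h2 := (h1.div_const (1 - ρ)).const_mul (2 * A)
    simpa using h2
  obtain ⟨J, hJ⟩ := ((hlim.eventually (gt_mem_nhds hη)).exists)
  refine ⟨2 ^ J, Nat.one_le_two_pow, ?_⟩
  intro T hT
  let f : Ideal (𝓞 k) → ℕ := fun I => Nat.log 2 (Ideal.absNorm I)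
  obtain ⟨K, hK⟩ : ∃ K : ℕ, ∀ I ∈ T, f I < K := by
    refine ⟨(T.sup f) + 1, fun I hI => Nat.lt_succ_of_le (Finset.le_sup hI)⟩
  have hmaps : ∀ I ∈ T, f I ∈ Finset.Ico J K := by
    intro I hI
    rw [Finset.mem_Ico]
    refine ⟨?_, hK I hI⟩
    have h1 := (hT I hI).2
    exact Nat.le_log_of_pow_le (by norm_num) h1.le
  rw [← Finset.sum_fiberwise_of_maps_to hmaps]
  have hfib : ∀ j ∈ Finset.Ico J K, ∑ I ∈ T.filter (fun I => f I = j), (Ideal.absNorm I : ℝ) ^ (-s) ≤ 2 * A * ρ ^ j := by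
    intro j _
    have h1 : ∀ I ∈ T.filter (fun I => f I = j), (Ideal.absNorm I : ℝ) ^ (-s) ≤ ((2 : ℝ) ^ j) ^ (-s) := by
      intro I hI
      rw [Finset.mem_filter] at hI
      have h2 := hT I hI.1
      have h3 : Ideal.absNorm I ≠ 0 := ((Nat.zero_le _).trans_lt h2.2).ne'
      have h4 : 2 ^ j ≤ Ideal.absNorm I := by
        rw [← hI.2]
        exact Nat.pow_log_le_self 2 h3
      apply Real.rpow_le_rpow_of_nonpos (by positivity) _ (by linarith)
      exact_mod_cast h4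
    have h2 := Finset.sum_le_sum h1
    rw [Finset.sum_const, nsmul_eq_mul] at h2
    have h3 : ((T.filter (fun I => f I = j)).card : ℝ) ≤ A * ((2 ^ (j + 1) : ℕ) : ℝ) := by
      apply hcount _ Nat.one_le_two_pow
      intro I hI
      rw [Finset.mem_filter] at hI
      refine ⟨(hT I hI.1).1, ?_⟩
      rw [← hI.2]
      exact (Nat.lt_pow_succ_log_self (by norm_num) _).le
    calc _ ≤ _ := h2
      _ ≤ A * ((2 ^ (j + 1) : ℕ) : ℝ) * ((2 : ℝ) ^ j) ^ (-s) := mul_le_mul_of_nonneg_right h3 (by positivity)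
      _ = 2 * A * ρ ^ j := by
        rw [hρ, ← Real.rpow_natCast ((2 : ℝ) ^ (1 - s)) j, ← Real.rpow_mul (by norm_num), ← Real.rpow_natCast 2 j,
          ← Real.rpow_mul (by norm_num)]
        have h4 : (2 : ℝ) ^ ((1 - s) * (j : ℝ)) = (2 : ℝ) ^ (j : ℝ) * (2 : ℝ) ^ ((j : ℝ) * -s) := by
          rw [← Real.rpow_add (by norm_num)]
          congr 1
          ring
        rw [h4]
        push_cast
        rw [pow_succ, Real.rpow_natCast]
        ring
  calc _ ≤ ∑ j ∈ Finset.Ico J K, 2 * A * ρ ^ j := Finset.sum_le_sum hfib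
    _ = 2 * A * ∑ j ∈ Finset.Ico J K, ρ ^ j := by rw [Finset.mul_sum]
    _ ≤ 2 * A * (ρ ^ J / (1 - ρ)) := mul_le_mul_of_nonneg_left (geom_sum_Ico_le_of_lt_one hρ0.le hρ1) (by positivity)
    _ ≤ η := hJ.le

end

end Pool.Agent.Helper52.Vojta
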