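import Mathlib
import Pool.Agent.Helper52.Vojta.ContentCount
import Pool.Agent.Helper52.Vojta.IdealTail
import Pool.Agent.Helper52.Vojta.Round
import Pool.Agent.Helper52.Vojta.GFamily

/-!
Polynomials with large content are rare, and a point comes from boundedly many polynomials with
small content.
-/

namespace Pool.Agent.Helper52.Vojta

open NumberField Finset Module Polynomial

section

variable {k : Type*} [Field k] [NumberField k]

/-- the ideal generated by the coefficients -/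
noncomputable def cIdeal (F : (𝓞 k)[X]) : Ideal (𝓞 k) := Ideal.span (Set.range fun i : ℕ => F.coeff i)

theorem coeff_mem_cIdeal (F : (𝓞 k)[X]) (i : ℕ) : F.coeff i ∈ cIdeal F := Ideal.subset_span ⟨i, rfl⟩

theorem cIdeal_ne_bot {F : (𝓞 k)[X]} (hF : F ≠ 0) : cIdeal F ≠ ⊥ := by
  intro h
  apply hF
  ext i
  have := coeff_mem_cIdeal F i
  rw [h, Ideal.mem_bot] at this
  rw [this, coeff_zero]

open scoped Classical in
theorem few_large (r : ℕ) (I : (k →+* ℂ) → Finset (Option ℂ))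
    (hI : ∀ σ, ∀ p ∈ I σ, p.map (starRingEnd ℂ) ∈ I (ComplexEmbedding.conjugate σ))
    (hI3 : ∀ σ, 3 ≤ (I σ).card) (hIr : ∀ σ, (I σ).card ≤ r)
    (hIc : ∀ σ, (I (ComplexEmbedding.conjugate σ)).card = (I σ).card)
    {θ : ℝ} (hθ0 : 0 < θ) (hθ3 : θ < 3) (hr : 3 ≤ r) {R : ℝ} (hR : 0 < R) {δ : ℝ} (hδ : 0 < δ) :
    ∃ M : ℕ, 1 ≤ M ∧ ∀ Q : ℕ, 1 ≤ Q →
      ∀ A : Finset (𝓞 k)[X], (∀ F ∈ A, F ≠ 0 ∧ F.natDegree ≤ r ∧ (∀ (σ : k →+* ℂ) i, ‖iemb σ (F.coeff i)‖ ≤ R * Q) ∧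
          ∀ σ, ∀ p ∈ I σ, ‖pev r (F.map (iemb σ)) p‖ ≤ R * (Q : ℝ) ^ (1 - θ / (I σ).card)) →
        ((A.filter fun F => M < Ideal.absNorm (cIdeal F)).card : ℝ)
          ≤ δ * (Q : ℝ) ^ (finrank ℚ k * (r + 1 - θ)) := by
  obtain ⟨B, hB0, hB⟩ := content_count r I hI hI3 hIr hIc hθ0 hθ3.le hR
  have hr3 : (3 : ℝ) ≤ r := by exact_mod_cast hr
  obtain ⟨M, hM1, hM⟩ := ideal_tail k (s := r + 1 - θ) (by linarith) (η := δ / B) (by positivity)
  refine ⟨M, hM1, ?_⟩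
  intro Q hQ A hA
  set A' := A.filter fun F => M < Ideal.absNorm (cIdeal F) with hA'
  set T := A'.image cIdeal with hT
  have h1 : (A'.card : ℝ) = ∑ c ∈ T, ((A'.filter fun F => cIdeal F = c).card : ℝ) := by
    have := Finset.card_eq_sum_card_fiberwise (s := A') (t := T) (f := cIdeal) (fun F hF =>
      Finset.mem_image.mpr ⟨F, hF, rfl⟩)
    exact_mod_cast this
  have hTprop : ∀ c ∈ T, c ≠ ⊥ ∧ M < Ideal.absNorm c := by
    intro c hc
    obtain ⟨F, hF, rfl⟩ := Finset.mem_image.mp hc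
    rw [hA', Finset.mem_filter] at hF
    exact ⟨cIdeal_ne_bot (hA F hF.1).1, hF.2⟩
  rw [h1]
  calc ∑ c ∈ T, ((A'.filter fun F => cIdeal F = c).card : ℝ)
      ≤ ∑ c ∈ T, B * (Q : ℝ) ^ (finrank ℚ k * (r + 1 - θ)) * (Ideal.absNorm c : ℝ) ^ (-(r + 1 - θ)) := by
        refine Finset.sum_le_sum fun c hc => ?_
        refine hB Q hQ _ ?_ c (hTprop c hc).1 ?_
        · intro F hF
          exact hA F (Finset.mem_filter.mp (Finset.mem_filter.mp hF).1).1
        · intro F hF i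
          rw [Finset.mem_filter] at hF
          rw [← hF.2]
          exact coeff_mem_cIdeal F i
    _ = B * (Q : ℝ) ^ (finrank ℚ k * (r + 1 - θ)) * ∑ c ∈ T, (Ideal.absNorm c : ℝ) ^ (-(r + 1 - θ)) := by
        rw [Finset.mul_sum]
    _ ≤ B * (Q : ℝ) ^ (finrank ℚ k * (r + 1 - θ)) * (δ / B) :=
        mul_le_mul_of_nonneg_left (hM T hTprop) (by positivity)
    _ = _ := by field_simp

/-- comparison of proportional polynomials -/
theorem exists_ratio {F F0 : (𝓞 k)[X]} {a a0 : 𝓞 k} (h : C a0 * F = C a * F0) :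
    ∃ y : 𝓞 k, (Ideal.absNorm (cIdeal F0) : 𝓞 k) * a = y * a0 := by
  have key : ∀ z ∈ cIdeal F0, ∃ y : 𝓞 k, z * a = y * a0 := by
    intro z hz
    unfold cIdeal at hz
    induction hz using Submodule.span_induction with
    | mem z hz =>
      obtain ⟨i, rfl⟩ := hz
      refine ⟨F.coeff i, ?_⟩
      have h1 := congrArg (fun p => coeff p i) h
      simp only [coeff_C_mul] at h1
      change F0.coeff i * a = F.coeff i * a0
      rw [mul_comm, ← h1, mul_comm]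
    | zero => exact ⟨0, by simp⟩
    | add z z' _ _ hz hz' =>
      obtain ⟨y, hy⟩ := hz
      obtain ⟨y', hy'⟩ := hz'
      exact ⟨y + y', by rw [add_mul, add_mul, hy, hy']⟩
    | smul c z _ hz =>
      obtain ⟨y, hy⟩ := hz
      exact ⟨c * y, by rw [smul_eq_mul, mul_assoc, hy, mul_assoc]⟩
  exact key _ (Ideal.absNorm_mem _)

open scoped Classical in
theorem mult_bound (r M : ℕ) (β : ℝ) : ∃ K : ℕ, ∀ {Ω : Type*} (A : Finset (𝓞 k)[X]) (x : (𝓞 k)[X] → Ω),
    (∀ F ∈ A, F.coeff r ≠ 0 ∧ F ≠ 0 ∧ Ideal.absNorm (cIdeal F) ≤ M) →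
    (∀ F ∈ A, ∀ G ∈ A, x F = x G → C (G.coeff r) * F = C (F.coeff r) * G) →
    (∀ F ∈ A, ∀ G ∈ A, x F = x G → ∀ σ : k →+* ℂ, ‖iemb σ (F.coeff r)‖ ≤ β * ‖iemb σ (G.coeff r)‖) →
    A.card ≤ K * (A.image x).card := by
  have hfin := finite_small k ((M : ℝ) * β)
  refine ⟨hfin.toFinset.card, ?_⟩
  intro Ω A x h1 h2 h3
  refine Finset.card_le_mul_card_image A _ fun z hz => ?_
  obtain ⟨F0, hF0, rfl⟩ := Finset.mem_image.mp hz
  obtain ⟨ha0, hF0ne, hM0⟩ := h1 F0 hF0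
  have hex : ∀ F ∈ A.filter (fun F => x F = x F0), ∃ y : 𝓞 k,
      (Ideal.absNorm (cIdeal F0) : 𝓞 k) * F.coeff r = y * F0.coeff r := by
    intro F hF
    rw [Finset.mem_filter] at hF
    exact exists_ratio (h2 F hF.1 F0 hF0 hF.2)
  choose! y hy using hex
  have hN0 : (Ideal.absNorm (cIdeal F0) : 𝓞 k) ≠ 0 := by
    have : Ideal.absNorm (cIdeal F0) ≠ 0 := by
      rw [Ne, Ideal.absNorm_eq_zero_iff]
      exact cIdeal_ne_bot hF0ne
    exact_mod_cast this
  refine Finset.card_le_card_of_injOn y ?_ ?_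
  · intro F hF
    rw [Finset.mem_coe] at hF
    have hF' := Finset.mem_filter.mp hF
    rw [Finset.mem_coe, Set.Finite.mem_toFinset]
    intro σ
    have h4 := congrArg (iemb σ) (hy F hF)
    rw [map_mul, map_mul, map_natCast] at h4
    have h5 := congrArg norm h4
    rw [norm_mul, norm_mul, Complex.norm_natCast] at h5
    have h6 : 0 < ‖iemb σ (F0.coeff r)‖ := by
      rw [norm_pos_iff]
      have hinj : Function.Injective (iemb σ) := σ.injective.comp RingOfIntegers.coe_injective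
      exact (map_ne_zero_iff (iemb σ) hinj).mpr ha0
    have h7 := h3 F hF'.1 F0 hF0 hF'.2 σ
    have h8 : (Ideal.absNorm (cIdeal F0) : ℝ) ≤ M := by exact_mod_cast hM0
    have h9 : ‖iemb σ (y F)‖ * ‖iemb σ (F0.coeff r)‖ ≤ ((M : ℝ) * β) * ‖iemb σ (F0.coeff r)‖ := by
      rw [← h5]
      calc (Ideal.absNorm (cIdeal F0) : ℝ) * ‖iemb σ (F.coeff r)‖
          ≤ M * (β * ‖iemb σ (F0.coeff r)‖) := mul_le_mul h8 h7 (norm_nonneg _) (Nat.cast_nonneg _)
        _ = _ := by ring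
    exact le_of_mul_le_mul_right h9 h6
  · intro F hF G hG hFG
    rw [Finset.mem_coe] at hF hG
    have hF' := Finset.mem_filter.mp hF
    have hG' := Finset.mem_filter.mp hG
    have h4 := hy F hF
    have h5 := hy G hG
    rw [hFG] at h4
    have h6 : F.coeff r = G.coeff r := mul_left_cancel₀ hN0 (h4.trans h5.symm)
    have h7 := h2 F hF'.1 F0 hF0 hF'.2
    have h8 := h2 G hG'.1 F0 hF0 hG'.2
    rw [h6, ← h8] at h7
    exact mul_left_cancel₀ (C_ne_zero.mpr ha0) h7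

end

end Pool.Agent.Helper52.Vojta
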