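import Mathlib
import Pool.Agent.Helper52.Vojta.CellP

/-!
Choice of three or four points of the divisor over every complex embedding, compatibly with complex
conjugation.
-/

namespace Pool.Agent.Helper52.Vojta

open NumberField Finset Module Polynomial

theorem inv_subset {α : Type*} [DecidableEq α] (τ : α → α) (hτ : ∀ a, τ (τ a) = a) (T : Finset α)
    (hT : ∀ a ∈ T, τ a ∈ T) (h3 : 3 ≤ T.card) :
    ∃ I ⊆ T, (∀ a ∈ I, τ a ∈ I) ∧ 3 ≤ I.card ∧ I.card ≤ 4 ∧ ((∃ a ∈ T, τ a = a) → I.card = 3) := by
  by_cases hfix : ∃ a ∈ T, τ a = a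
  · obtain ⟨p, hp, hpp⟩ := hfix
    have key : ∀ w ∈ T, w ≠ p → τ w ≠ w → ∃ I ⊆ T, (∀ a ∈ I, τ a ∈ I) ∧ 3 ≤ I.card ∧ I.card ≤ 4 ∧
        ((∃ a ∈ T, τ a = a) → I.card = 3) := by
      intro w hw hwp hww
      have h1 : τ w ≠ p := by
        intro h
        apply hwp
        rw [← hτ w, h, hpp]
      have hc : ({p, w, τ w} : Finset α).card = 3 := by
        rw [Finset.card_eq_three]
        exact ⟨p, w, τ w, hwp.symm, h1.symm, hww.symm, rfl⟩
      refine ⟨{p, w, τ w}, ?_, ?_, by omega, by omega, fun _ => hc⟩
      · intro a ha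
        simp only [Finset.mem_insert, Finset.mem_singleton] at ha
        rcases ha with rfl | rfl | rfl
        · exact hp
        · exact hw
        · exact hT w hw
      · intro a ha
        simp only [Finset.mem_insert, Finset.mem_singleton] at ha ⊢
        rcases ha with rfl | rfl | rfl
        · exact Or.inl hpp
        · exact Or.inr (Or.inr rfl)
        · exact Or.inr (Or.inl (hτ w))
    have hz : ∃ z ∈ T, z ≠ p := by
      by_contra hcon
      push Not at hcon
      have : T ⊆ {p} := fun a ha => Finset.mem_singleton.mpr (hcon a ha)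
      have := Finset.card_le_card this
      rw [Finset.card_singleton] at this
      omega
    obtain ⟨z, hzT, hzp⟩ := hz
    by_cases hzz : τ z = z
    · have hw : ∃ w ∈ T, w ≠ p ∧ w ≠ z := by
        by_contra hcon
        push Not at hcon
        have : T ⊆ {p, z} := by
          intro a ha
          rw [Finset.mem_insert, Finset.mem_singleton]
          by_cases h : a = p
          · exact Or.inl h
          · exact Or.inr (hcon a ha h)
        have h4 := Finset.card_le_card this
        have h5 := Finset.card_le_two (a := p) (b := z)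
        omega
      obtain ⟨w, hwT, hwp, hwz⟩ := hw
      by_cases hww : τ w = w
      · have hc : ({p, z, w} : Finset α).card = 3 := by
          rw [Finset.card_eq_three]
          exact ⟨p, z, w, hzp.symm, hwp.symm, hwz.symm, rfl⟩
        refine ⟨{p, z, w}, ?_, ?_, by omega, by omega, fun _ => hc⟩
        · intro a ha
          simp only [Finset.mem_insert, Finset.mem_singleton] at ha
          rcases ha with rfl | rfl | rfl <;> assumption
        · intro a ha
          simp only [Finset.mem_insert, Finset.mem_singleton] at ha ⊢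
          rcases ha with rfl | rfl | rfl
          · exact Or.inl hpp
          · exact Or.inr (Or.inl hzz)
          · exact Or.inr (Or.inr hww)
      · exact key w hwT hwp hww
    · exact key z hzT hzp hzz
  · have hnf : ∀ a ∈ T, τ a ≠ a := by
      intro a ha h
      exact hfix ⟨a, ha, h⟩
    have hne : T.Nonempty := Finset.card_pos.mp (by omega)
    obtain ⟨z, hz⟩ := hne
    have hw : ∃ w ∈ T, w ≠ z ∧ w ≠ τ z := by
      by_contra hcon
      push Not at hcon
      have : T ⊆ {z, τ z} := by
        intro a ha
        rw [Finset.mem_insert, Finset.mem_singleton]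
        by_cases h : a = z
        · exact Or.inl h
        · exact Or.inr (hcon a ha h)
      have h4 := Finset.card_le_card this
      have h5 := Finset.card_le_two (a := z) (b := τ z)
      omega
    obtain ⟨w, hwT, hwz, hwz'⟩ := hw
    have h1 : τ w ≠ z := by
      intro h
      apply hwz'
      rw [← h, hτ]
    have h2 : τ w ≠ τ z := by
      intro h
      apply hwz
      rw [← hτ w, h, hτ]
    have hc : ({z, τ z, w, τ w} : Finset α).card = 4 := by
      rw [Finset.card_insert_of_notMem, Finset.card_insert_of_notMem, Finset.card_insert_of_notMem,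
        Finset.card_singleton]
      · rw [Finset.mem_singleton]
        exact (hnf w hwT).symm
      · simp only [Finset.mem_insert, Finset.mem_singleton, not_or]
        exact ⟨hwz'.symm, h2.symm⟩
      · simp only [Finset.mem_insert, Finset.mem_singleton, not_or]
        exact ⟨(hnf z hz).symm, hwz.symm, h1.symm⟩
    refine ⟨{z, τ z, w, τ w}, ?_, ?_, by omega, by omega, fun h => absurd h hfix⟩
    · intro a ha
      simp only [Finset.mem_insert, Finset.mem_singleton] at ha
      rcases ha with rfl | rfl | rfl | rfl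
      · exact hz
      · exact hT z hz
      · exact hwT
      · exact hT w hwT
    · intro a ha
      simp only [Finset.mem_insert, Finset.mem_singleton] at ha ⊢
      rcases ha with rfl | rfl | rfl | rfl
      · exact Or.inr (Or.inl rfl)
      · exact Or.inl (hτ z)
      · exact Or.inr (Or.inr (Or.inr rfl))
      · exact Or.inr (Or.inr (Or.inl (hτ w)))

section

variable {k : Type*} [Field k] [NumberField k]

theorem optconj_invol (p : Option ℂ) : (p.map (starRingEnd ℂ)).map (starRingEnd ℂ) = p := by
  cases p with
  | none => rfl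
  | some α =>
    change some (starRingEnd ℂ (starRingEnd ℂ α)) = some α
    rw [Complex.conj_conj]

theorem conj_conj_emb (σ : k →+* ℂ) : ComplexEmbedding.conjugate (ComplexEmbedding.conjugate σ) = σ := by
  ext x
  exact Complex.conj_conj _

open scoped Classical in
theorem dset_conj (g : k[X]) (hg0 : g ≠ 0) (q : ℕ) (σ : k →+* ℂ) {p : Option ℂ} (hp : p ∈ dset g q σ) :
    p.map (starRingEnd ℂ) ∈ dset g q (ComplexEmbedding.conjugate σ) := by
  unfold dset at hp ⊢
  rw [Finset.mem_union] at hp ⊢
  rcases hp with h | h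
  · left
    obtain ⟨β, hβ, rfl⟩ := Finset.mem_image.mp h
    rw [Multiset.mem_toFinset, mem_roots (Polynomial.map_ne_zero hg0), IsRoot.def] at hβ
    refine Finset.mem_image.mpr ⟨starRingEnd ℂ β, ?_, rfl⟩
    rw [Multiset.mem_toFinset, mem_roots (Polynomial.map_ne_zero hg0), IsRoot.def]
    have e1 : g.map (ComplexEmbedding.conjugate σ) = (g.map σ).map (starRingEnd ℂ) := by
      rw [Polynomial.map_map]; rfl
    rw [e1, eval_map_apply, hβ, map_zero]
  · right
    split_ifs at h with hq
    · rw [Finset.mem_singleton] at h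
      subst h
      rw [if_pos hq]
      exact Finset.mem_singleton_self _
    · simp at h

open scoped Classical in
/-- choice of the points -/
theorem choose_I (g : k[X]) (hg : Squarefree g) {q : ℕ} (h1 : g.natDegree ≤ q) (h2 : q ≤ g.natDegree + 1)
    (hq : 3 ≤ q) {r : ℕ} (hr : 4 ≤ r ∨ (r = 3 ∧ ∀ σ : k →+* ℂ, ComplexEmbedding.conjugate σ = σ →
      ∃ p ∈ dset g q σ, p.map (starRingEnd ℂ) = p)) :
    ∃ I : (k →+* ℂ) → Finset (Option ℂ), (∀ σ, I σ ⊆ dset g q σ) ∧
      (∀ σ, ∀ p ∈ I σ, p.map (starRingEnd ℂ) ∈ I (ComplexEmbedding.conjugate σ)) ∧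
      (∀ σ, 3 ≤ (I σ).card ∧ (I σ).card ≤ r) ∧ (∀ σ, (I (ComplexEmbedding.conjugate σ)).card = (I σ).card) := by
  have hcard := fun σ : k →+* ℂ => card_dset g hg h1 h2 σ
  have hconj := fun (σ : k →+* ℂ) (p : Option ℂ) (hp : p ∈ dset g q σ) => dset_conj g hg.ne_zero q σ hp
  -- a choice for every place
  have hex : ∀ v : InfinitePlace k, ∃ I ⊆ dset g q v.embedding, 3 ≤ I.card ∧ I.card ≤ r ∧
      (ComplexEmbedding.conjugate v.embedding = v.embedding → ∀ p ∈ I, p.map (starRingEnd ℂ) ∈ I) := by
    intro v
    by_cases hv : ComplexEmbedding.conjugate v.embedding = v.embedding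
    · obtain ⟨I, hI1, hI2, hI3, hI4, hI5⟩ := inv_subset (Option.map (starRingEnd ℂ)) optconj_invol
        (dset g q v.embedding) (fun p hp => by
          have := hconj _ p hp
          rwa [hv] at this) (by rw [hcard]; exact hq)
      refine ⟨I, hI1, hI3, ?_, fun _ => hI2⟩
      rcases hr with hr | ⟨hr, hr'⟩
      · omega
      · rw [hI5 (hr' _ hv)]; omega
    · obtain ⟨I, hI1, hI2⟩ := Finset.exists_subset_card_eq (s := dset g q v.embedding) (n := 3)
        (by rw [hcard]; exact hq)
      refine ⟨I, hI1, by omega, ?_, fun h => absurd h hv⟩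
      rcases hr with hr | ⟨hr, _⟩ <;> omega
  choose I' hI'1 hI'2 hI'3 hI'4 using hex
  let cj : Finset (Option ℂ) → Finset (Option ℂ) := fun A => A.image (Option.map (starRingEnd ℂ))
  have hcjcard : ∀ A, (cj A).card = A.card := fun A => Finset.card_image_of_injective _
    (Function.LeftInverse.injective optconj_invol)
  let I : (k →+* ℂ) → Finset (Option ℂ) := fun σ =>
    if σ = (InfinitePlace.mk σ).embedding then I' (InfinitePlace.mk σ) else cj (I' (InfinitePlace.mk σ))
  have hmk : ∀ σ : k →+* ℂ, InfinitePlace.mk (ComplexEmbedding.conjugate σ) = InfinitePlace.mk σ := fun σ =>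
    InfinitePlace.mk_conjugate_eq σ
  have hemb : ∀ σ : k →+* ℂ, σ ≠ (InfinitePlace.mk σ).embedding →
      ComplexEmbedding.conjugate (InfinitePlace.mk σ).embedding = σ := by
    intro σ hσ
    have h3 : InfinitePlace.mk (InfinitePlace.mk σ).embedding = InfinitePlace.mk σ := InfinitePlace.mk_embedding _
    rw [InfinitePlace.mk_eq_iff] at h3
    rcases h3 with h3 | h3
    · exact absurd h3.symm hσ
    · exact h3
  have hIconj : ∀ σ, ∀ p ∈ I σ, p.map (starRingEnd ℂ) ∈ I (ComplexEmbedding.conjugate σ) := by
    intro σ p hp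
    simp only [I] at hp ⊢
    rw [hmk]
    by_cases hσ : σ = (InfinitePlace.mk σ).embedding
    · rw [if_pos hσ] at hp
      by_cases hσ' : ComplexEmbedding.conjugate σ = (InfinitePlace.mk σ).embedding
      · rw [if_pos hσ']
        apply hI'4 _ _ _ hp
        rw [← hσ, hσ']
        exact hσ.symm
      · rw [if_neg hσ']
        exact Finset.mem_image.mpr ⟨p, hp, rfl⟩
    · rw [if_neg hσ] at hp
      obtain ⟨p', hp', rfl⟩ := Finset.mem_image.mp hp
      have h3 : ComplexEmbedding.conjugate σ = (InfinitePlace.mk σ).embedding := by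
        rw [← hemb σ hσ, conj_conj_emb]
        rw [hemb σ hσ]
      rw [if_pos h3, optconj_invol]
      exact hp'
  refine ⟨I, ?_, hIconj, ?_, ?_⟩
  · intro σ
    simp only [I]
    split_ifs with hσ
    · intro p hp
      have := hI'1 _ hp
      rwa [← hσ] at this
    · intro p hp
      obtain ⟨p', hp', rfl⟩ := Finset.mem_image.mp hp
      have h3 := hconj _ _ (hI'1 _ hp')
      rwa [hemb σ hσ] at h3
  · intro σ
    simp only [I]
    split_ifs with hσ
    · exact ⟨hI'2 _, hI'3 _⟩
    · rw [hcjcard]
      exact ⟨hI'2 _, hI'3 _⟩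
  · intro σ
    have hle : ∀ σ, (I σ).card ≤ (I (ComplexEmbedding.conjugate σ)).card := by
      intro σ
      exact Finset.card_le_card_of_injOn (Option.map (starRingEnd ℂ)) (fun p hp => hIconj σ p hp)
        (Function.LeftInverse.injective optconj_invol).injOn
    apply le_antisymm
    · have := hle (ComplexEmbedding.conjugate σ)
      rwa [conj_conj_emb] at this
    · exact hle σ

end

end Pool.Agent.Helper52.Vojta
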