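import Mathlib
import Pool.Agent.Helper52.Vojta.LowerCount

/-!
Lower bound for the number of nontrivial points, final form.
-/

namespace Pool.Agent.Helper52.Vojta

open NumberField Finset Module Polynomial IntermediateField Pool.Agent.Helper64.Vojta

universe u

section

variable {k : Type u} [Field k] [NumberField k]

theorem Ntv.of_ineq {Ω : Type u} [Field Ω] [Algebra k Ω] {g : k[X]} {q r : ℕ} {S : Finset (Pl k)} {ε c : ℝ}
    {L : IntermediateField k Ω} [NumberField L] {y : L} (hr : 0 < r) (h1 : finrank k L = r)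
    (h2 : aeval y g ≠ 0)
    (h3 : (2 + ε) * Height.logHeight (aff y) + r * |c| < ∑ w ∈ upW L S, dloc g q w y) :
    Ntv g q r S ε c L y := by
  refine ⟨h1, h2, ?_⟩
  have hr0 : (0 : ℝ) < r := by exact_mod_cast hr
  rw [← Finset.sum_div, ← sum_upW, h1]
  set A := Height.logHeight (aff y) with hA
  set E := ∑ w ∈ upW L S, dloc g q w y with hE
  have h4 : -(r * c) ≤ r * |c| := by
    have := neg_abs_le c
    nlinarith
  have h5 : (2 + ε) * A - r * c < E := by linarith
  have h6 : ε * (A / r) - c - (-(2 * (A / r)) + E / r) = ((2 + ε) * A - r * c - E) / r := by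
    field_simp
    ring
  have h7 : ((2 + ε) * A - r * c - E) / r < 0 := div_neg_of_neg_of_pos (by linarith) hr0
  linarith

theorem one_le_floor' {z : ℝ} (hz : 1 ≤ z) : 1 ≤ ⌊z⌋₊ := Nat.le_floor (by exact_mod_cast hz)

theorem half_le_floor {z : ℝ} (hz : 1 ≤ z) : z / 2 ≤ (⌊z⌋₊ : ℝ) := by
  have h1 := Nat.lt_floor_add_one z
  have h2 : (1 : ℝ) ≤ ⌊z⌋₊ := by
    have : 1 ≤ ⌊z⌋₊ := one_le_floor' hz
    exact_mod_cast this
  linarith

/-- There are many nontrivial points. -/
theorem nontriv_lower (Ω : Type u) [Field Ω] [Algebra k Ω] [IsAlgClosed Ω] (g1 : k[X]) (hg1 : g1 ≠ 0)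
    (S : Finset (Pl k)) (hS : ∀ v : InfinitePlace k, Sum.inl v ∈ S) (m : ℕ) (hm : 1 ≤ m) {ε : ℝ}
    (hε0 : 0 < ε) (hε1 : ε < 1) (c0 : ℝ) :
    ∃ (c1 V0 : ℝ), 0 < c1 ∧ ∀ V : ℝ, V0 ≤ V → ∃ P : Finset Ω, c1 * Real.exp ((m + 1 - ε) * V) ≤ P.card ∧
      ∀ x ∈ P, ∃ _ : NumberField k⟮x⟯,
        Ntv (X * (X - 1) * g1) (g1.natDegree + 3) (m + 2) S ε c0 k⟮x⟯ (AdjoinSimple.gen k x) ∧
        Height.logHeight (aff (AdjoinSimple.gen k x)) ≤ V := by
  obtain ⟨B, C, hB1, hC0, hfam⟩ := family_points Ω g1 hg1 S hS m hm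
  set n : ℕ := finrank ℚ k with hn
  have hn1 : 1 ≤ n := Module.finrank_pos
  have hnr : (1 : ℝ) ≤ n := by exact_mod_cast hn1
  have hmr : (1 : ℝ) ≤ m := by exact_mod_cast hm
  set C5 : ℝ := (2 + (m + 2) * (m + 2)) * B ^ 2 with hC5
  have hBsq : 1 ≤ B ^ 2 := one_le_pow₀ hB1
  have hC51 : 1 ≤ C5 := by rw [hC5]; nlinarith
  set C6 : ℝ := ((m + 2 : ℕ) : ℝ) * |c0| + n * Real.log B + n * Real.log (2 * B ^ 2) + C with hC6
  have hlogB : 0 ≤ Real.log B := Real.log_nonneg hB1
  have hlogB2 : 0 ≤ Real.log (2 * B ^ 2) := Real.log_nonneg (by linarith)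
  have hC60 : 0 ≤ C6 := by positivity
  set C7 : ℝ := C6 / n + Real.log (m + 2) with hC7
  have hlogm : 0 ≤ Real.log ((m : ℝ) + 2) := Real.log_nonneg (by linarith)
  have hC70 : 0 ≤ C7 := by positivity
  set D : ℝ := ((X * (X - 1) * g1 : k[X]).natDegree : ℝ) with hD
  -- the constant
  set a : ℝ := (1 / (2 * C5)) ^ (n * m) * (((1 / (2 * C5)) ^ (1 - ε)) * (Real.exp (-C7) / 4)) ^ n with ha
  have ha0 : 0 < a := by
    rw [ha]; positivity
  have hexpo : 0 < (m : ℝ) + 1 - ε := by linarith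
  -- thresholds
  set V1 : ℝ := n * Real.log C5 with hV1
  set z0 : ℝ := (2 * Real.exp C7) ^ (1 / (1 - ε)) with hz0
  have hz0pos : 0 < z0 := by rw [hz0]; positivity
  set V2 : ℝ := n * Real.log (2 * C5 * z0) with hV2
  set V3 : ℝ := Real.log (2 * (D + 1) / a) / (m + 1 - ε) with hV3
  refine ⟨a / 2, max V1 (max V2 V3), by positivity, ?_⟩
  intro V hV
  have hVV1 : V1 ≤ V := (le_max_left _ _).trans hV
  have hVV2 : V2 ≤ V := ((le_max_left _ _).trans (le_max_right _ _)).trans hV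
  have hVV3 : V3 ≤ V := ((le_max_right _ _).trans (le_max_right _ _)).trans hV
  have hn0 : (0 : ℝ) < n := by linarith
  set E : ℝ := Real.exp (V / n) with hE
  have hE0 : 0 < E := Real.exp_pos _
  have hEC5 : C5 ≤ E := by
    rw [hE, ← Real.log_le_iff_le_exp (by linarith), le_div_iff₀ hn0]
    rw [hV1] at hVV1; linarith
  have hEz : 2 * C5 * z0 ≤ E := by
    rw [hE, ← Real.log_le_iff_le_exp (by positivity), le_div_iff₀ hn0]
    rw [hV2] at hVV2; linarith
  set Q : ℕ := ⌊E / C5⌋₊ with hQ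
  have hEC5' : 1 ≤ E / C5 := by rw [le_div_iff₀ (by linarith)]; linarith
  have hQ1 : 1 ≤ Q := one_le_floor' hEC5'
  have hQr : (1 : ℝ) ≤ Q := by exact_mod_cast hQ1
  have hQlow : E / (2 * C5) ≤ Q := by
    have := half_le_floor hEC5'
    have e : E / C5 / 2 = E / (2 * C5) := by field_simp
    rwa [e] at this
  have hQup : C5 * Q ≤ E := by
    have := Nat.floor_le (show 0 ≤ E / C5 by positivity)
    rw [← hQ, le_div_iff₀ (by linarith)] at this
    linarith
  have hz0Q : z0 ≤ Q := by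
    refine le_trans ?_ hQlow
    rw [le_div_iff₀ (by linarith)]; linarith
  set z : ℝ := (Q : ℝ) ^ (1 - ε) * Real.exp (-C7) / 2 with hz
  have h1ε : 0 < 1 - ε := by linarith
  have hz1 : 1 ≤ z := by
    have h1 : 2 * Real.exp C7 ≤ (Q : ℝ) ^ (1 - ε) := by
      calc 2 * Real.exp C7 = z0 ^ (1 - ε) := by
            rw [hz0, ← Real.rpow_mul (by positivity), one_div, inv_mul_cancel₀ h1ε.ne', Real.rpow_one]
        _ ≤ _ := Real.rpow_le_rpow hz0pos.le hz0Q h1ε.le
    rw [hz]
    have h2 : Real.exp C7 * Real.exp (-C7) = 1 := by rw [← Real.exp_add, add_neg_cancel, Real.exp_zero]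
    have h3 := Real.exp_pos (-C7)
    nlinarith
  set Q' : ℕ := ⌊z⌋₊ with hQ'
  have hQ'1 : 1 ≤ Q' := one_le_floor' hz1
  have hQ'r : (1 : ℝ) ≤ Q' := by exact_mod_cast hQ'1
  have hQ'up : (Q' : ℝ) ≤ z := Nat.floor_le (by linarith)
  have hQ'low : z / 2 ≤ Q' := half_le_floor hz1
  have hzQ : z ≤ Q := by
    rw [hz]
    have h1 : (Q : ℝ) ^ (1 - ε) ≤ Q := by
      calc (Q : ℝ) ^ (1 - ε) ≤ (Q : ℝ) ^ (1 : ℝ) := Real.rpow_le_rpow_of_exponent_le hQr (by linarith)
        _ = Q := Real.rpow_one _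
    have h2 : Real.exp (-C7) ≤ 1 := by rw [Real.exp_le_one_iff]; linarith
    have h3 := Real.exp_pos (-C7)
    have h4 : (Q : ℝ) ^ (1 - ε) * Real.exp (-C7) ≤ Q * 1 :=
      mul_le_mul h1 h2 h3.le (by linarith)
    linarith
  have hQQ' : Q' ≤ Q := by
    have : (Q' : ℝ) ≤ Q := hQ'up.trans hzQ
    exact_mod_cast this
  obtain ⟨P, hPcard, hP⟩ := hfam Q Q' hQ1 hQ'1 hQQ'
  refine ⟨P, ?_, ?_⟩
  · -- counting
    have h1 : a * Real.exp ((m + 1 - ε) * V) ≤ (Q : ℝ) ^ (n * m) * (Q' : ℝ) ^ n := by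
      have hA : (1 / (2 * C5)) ^ (n * m) * E ^ (n * m) ≤ (Q : ℝ) ^ (n * m) := by
        rw [← mul_pow]
        apply pow_le_pow_left₀ (by positivity)
        calc 1 / (2 * C5) * E = E / (2 * C5) := by ring
          _ ≤ Q := hQlow
      have hB' : (1 / (2 * C5)) ^ (1 - ε) * (Real.exp (-C7) / 4) * E ^ (1 - ε) ≤ Q' := by
        have h2 : (1 / (2 * C5)) ^ (1 - ε) * E ^ (1 - ε) ≤ (Q : ℝ) ^ (1 - ε) := by
          rw [← Real.mul_rpow (by positivity) hE0.le]
          apply Real.rpow_le_rpow (by positivity) _ h1ε.le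
          calc 1 / (2 * C5) * E = E / (2 * C5) := by ring
            _ ≤ Q := hQlow
        have h3 : 0 < Real.exp (-C7) / 4 := by positivity
        calc (1 / (2 * C5)) ^ (1 - ε) * (Real.exp (-C7) / 4) * E ^ (1 - ε)
            = ((1 / (2 * C5)) ^ (1 - ε) * E ^ (1 - ε)) * (Real.exp (-C7) / 4) := by ring
          _ ≤ (Q : ℝ) ^ (1 - ε) * (Real.exp (-C7) / 4) := mul_le_mul_of_nonneg_right h2 h3.le
          _ = z / 2 := by rw [hz]; ring
          _ ≤ Q' := hQ'low
      have hC' : ((1 / (2 * C5)) ^ (1 - ε) * (Real.exp (-C7) / 4)) ^ n * (E ^ (1 - ε)) ^ n ≤ (Q' : ℝ) ^ n := by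
        rw [← mul_pow]
        exact pow_le_pow_left₀ (by positivity) hB' _
      have hexp1 : Real.exp ((m + 1 - ε) * V) = E ^ (n * m) * (E ^ (1 - ε)) ^ n := by
        rw [hE, ← Real.exp_nat_mul, ← Real.exp_mul, ← Real.exp_nat_mul, ← Real.exp_add]
        congr 1
        push_cast
        field_simp
        ring
      calc a * Real.exp ((m + 1 - ε) * V)
          = ((1 / (2 * C5)) ^ (n * m) * E ^ (n * m)) *
            (((1 / (2 * C5)) ^ (1 - ε) * (Real.exp (-C7) / 4)) ^ n * (E ^ (1 - ε)) ^ n) := by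
            rw [hexp1, ha]; ring
        _ ≤ _ := mul_le_mul hA hC' (by positivity) (by positivity)
    have h2 : D + 1 ≤ a / 2 * Real.exp ((m + 1 - ε) * V) := by
      have hD0 : 0 ≤ D := Nat.cast_nonneg _
      have h3 : Real.log (2 * (D + 1) / a) ≤ (m + 1 - ε) * V := by
        rw [hV3, div_le_iff₀ hexpo] at hVV3; linarith
      rw [Real.log_le_iff_le_exp (by positivity), div_le_iff₀ ha0] at h3
      linarith
    linarith
  · intro x hx
    obtain ⟨hnf, e1, e2, e3, e4, e5⟩ := hP x hx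
    refine ⟨hnf, ?_, ?_⟩
    · apply Ntv.of_ineq (by omega) e1 e2
      refine lt_of_lt_of_le ?_ e5
      set H := Height.logHeight (aff (AdjoinSimple.gen k x)) with hH
      -- (1 - ε) H > n log Q' + C6
      have h1 : Real.log Q' ≤ (1 - ε) * Real.log Q - C7 - Real.log 2 := by
        have h2 := Real.log_le_log (by linarith) hQ'up
        have h3 : Real.log z = (1 - ε) * Real.log Q - C7 - Real.log 2 := by
          rw [hz, Real.log_div (by positivity) (by norm_num), Real.log_mul (by positivity) (by positivity),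
            Real.log_rpow (by linarith), Real.log_exp]
          ring
        linarith
      have h2 : (n : ℝ) * (Real.log Q - Real.log (m + 2)) ≤ H := by
        rw [← Real.log_div (by linarith) (by linarith)]
        exact e3
      have h3 : Real.log (2 * B ^ 2 * Q') = Real.log (2 * B ^ 2) + Real.log Q' :=
        Real.log_mul (by positivity) (by linarith)
      rw [h3]
      have h4 : (n : ℝ) * C7 = C6 + n * Real.log (m + 2) := by
        rw [hC7]; field_simp
      have h5 : (n : ℝ) * Real.log Q' ≤ n * ((1 - ε) * Real.log Q) - C6 - n * Real.log (m + 2) - n * Real.log 2 := by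
        have := mul_le_mul_of_nonneg_left h1 hn0.le
        linarith
      have h6 : (1 - ε) * (n * (Real.log Q - Real.log (m + 2))) ≤ (1 - ε) * H :=
        mul_le_mul_of_nonneg_left h2 h1ε.le
      have h7 : 0 < (n : ℝ) * Real.log 2 := mul_pos hn0 (Real.log_pos (by norm_num))
      have h8 : 0 ≤ ε * (n * Real.log (m + 2)) := by positivity
      have h9 : C6 = ((m + 2 : ℕ) : ℝ) * |c0| + n * Real.log B + n * Real.log (2 * B ^ 2) + C := hC6
      nlinarith
    · refine e4.trans ?_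
      have h1 : Real.log ((2 + (m + 2) * (m + 2)) * B ^ 2 * Q) ≤ V / n := by
        rw [Real.log_le_iff_le_exp (by positivity)]
        exact hQup
      calc (n : ℝ) * Real.log ((2 + (m + 2) * (m + 2)) * B ^ 2 * Q) ≤ n * (V / n) :=
            mul_le_mul_of_nonneg_left h1 hn0.le
        _ = V := by field_simp

end

end Pool.Agent.Helper52.Vojta
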