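import Mathlib
import Pool.Agent.Helper52.Vojta.PtLocal

/-!
Analysis of a point given by an integral polynomial: height, and contribution of the divisor in
terms of the values of the polynomial at chosen points of the divisor.
-/

namespace Pool.Agent.Helper52.Vojta

open NumberField Finset Module Polynomial IntermediateField Pool.Agent.Helper64.Vojta

universe u v

section

variable {k : Type u} [Field k] [NumberField k]

open scoped Classical in
theorem pev_ne_zero (g : k[X]) (hg0 : g ≠ 0) {q : ℕ} {L : Type v} [Field L] [NumberField L] [Algebra k L]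
    (pb : PowerBasis k L) (F : (𝓞 k)[X]) (a : 𝓞 k)
    (ha : a ≠ 0) (hF : F.map (algebraMap (𝓞 k) k) = Polynomial.C (a : k) * minpoly k pb.gen)
    (hy : aeval pb.gen g ≠ 0) (σ : k →+* ℂ) {p : Option ℂ} (hp : p ∈ dset g q σ) :
    pev pb.dim (F.map (iemb σ)) p ≠ 0 := by
  have ha' : (a : k) ≠ 0 := by exact_mod_cast ha
  have haσ : σ (a : k) ≠ 0 := (map_ne_zero σ).mpr ha'
  have hmon : (minpoly k pb.gen).Monic := minpoly.monic pb.isIntegral_gen
  have hFσ : F.map (iemb σ) = C (σ (a : k)) * (minpoly k pb.gen).map σ := by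
    unfold iemb
    rw [← Polynomial.map_map, hF, Polynomial.map_mul, map_C]
  cases p with
  | none =>
    change (F.map (iemb σ)).coeff pb.dim ≠ 0
    rw [hFσ, coeff_C_mul, ← pb.natDegree_minpoly, ← natDegree_map σ, (hmon.map σ).coeff_natDegree, mul_one]
    exact haσ
  | some β =>
    have hβ : (g.map σ).eval β = 0 := by
      unfold dset at hp
      rw [Finset.mem_union] at hp
      rcases hp with h | h
      · obtain ⟨β', hβ', h3⟩ := Finset.mem_image.mp h
        obtain rfl := Option.some_injective _ h3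
        rw [Multiset.mem_toFinset, mem_roots (Polynomial.map_ne_zero hg0)] at hβ'
        exact hβ'
      · split_ifs at h <;> simp at h
    change (F.map (iemb σ)).eval β ≠ 0
    rw [hFσ, eval_mul, eval_C]
    refine mul_ne_zero haσ ?_
    rw [map_minpoly_eq_prod pb σ, eval_prod]
    refine Finset.prod_ne_zero_iff.mpr fun φ hφ => ?_
    rw [eval_sub, eval_X, eval_C, sub_ne_zero]
    rintro rfl
    rw [Finset.mem_filter] at hφ
    have e1 : φ (aeval pb.gen g) = (g.map σ).eval (φ pb.gen) := by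
      rw [eval_map, ← hφ.2, aeval_def, hom_eval₂]
    rw [← e1, map_eq_zero] at hβ
    exact hy hβ

open scoped Classical in
/-- Analysis of a point given by an integral polynomial. -/
theorem point_I (g : k[X]) (hg : Squarefree g) {q : ℕ} (h1 : g.natDegree ≤ q) (h2 : q ≤ g.natDegree + 1)
    (r : ℕ) (hr : 2 ≤ r) (s : ℕ) : ∃ C : ℝ, 0 ≤ C ∧ ∀ (L : Type u) [Field L] [NumberField L] [Algebra k L]
      (pb : PowerBasis k L), pb.dim = r →
      ∀ (S : Finset (Pl k)), (∀ v : InfinitePlace k, Sum.inl v ∈ S) → S.card ≤ s →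
      ∀ (F : (𝓞 k)[X]) (a : 𝓞 k), a ≠ 0 → F.map (algebraMap (𝓞 k) k) = Polynomial.C (a : k) * minpoly k pb.gen →
      aeval pb.gen g ≠ 0 → ∀ I : (k →+* ℂ) → Finset (Option ℂ), (∀ σ, I σ ⊆ dset g q σ) →
      Height.logHeight (aff pb.gen) ≤ ∑ σ : k →+* ℂ, Real.log (F.map (iemb σ)).mahlerMeasure + C ∧
      ∑ σ : k →+* ℂ, ∑ p ∈ I σ, (Real.log (F.map (iemb σ)).mahlerMeasure
          - Real.log ‖pev r (F.map (iemb σ)) p‖) - C
        ≤ ∑ w ∈ upW L S, dloc g q w pb.gen := by
  obtain ⟨C1, hC10, hC1⟩ := poly_loc_lower.{u, u} g r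
  set C2 : ℝ := r * ∑ v : InfinitePlace k, Real.log (nv (.inl v) ((r.factorial : ℕ) : k)) with hC2
  set C3 : ℝ := ∑ σ : k →+* ℂ, ∑ p ∈ dset g q σ, |Real.log (2 ^ r * psz r p)| with hC3
  set C4 : ℝ := ∑ σ : k →+* ℂ, r * |Real.log ‖σ g.leadingCoeff‖| with hC4
  have hC30 : 0 ≤ C3 := Finset.sum_nonneg fun _ _ => Finset.sum_nonneg fun _ _ => abs_nonneg _
  have hC40 : 0 ≤ C4 := Finset.sum_nonneg fun _ _ => mul_nonneg (Nat.cast_nonneg _) (abs_nonneg _)
  refine ⟨C1 * (s * r) + |C2| + C3 + C4, by positivity, ?_⟩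
  intro L _ _ _ pb hdim S hS hSs F a ha hF hne I hI
  have hfd : FiniteDimensional k L := FiniteDimensional.right ℚ k L
  have hfr : finrank k L = r := by rw [← hdim, ← pb.finrank]
  have ha' : (a : k) ≠ 0 := by exact_mod_cast ha
  have hmon : (minpoly k pb.gen).Monic := minpoly.monic pb.isIntegral_gen
  have haσ : ∀ σ : k →+* ℂ, 0 < ‖σ (a : k)‖ := fun σ => norm_pos_iff.mpr ((map_ne_zero σ).mpr ha')
  have hFσ : ∀ σ : k →+* ℂ, F.map (iemb σ) = C (σ (a : k)) * (minpoly k pb.gen).map σ := by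
    intro σ
    unfold iemb
    rw [← Polynomial.map_map, hF, Polynomial.map_mul, map_C]
  have hMp : ∀ σ : k →+* ℂ, 0 < (F.map (iemb σ)).mahlerMeasure := by
    intro σ
    apply mahlerMeasure_pos_of_ne_zero
    rw [hFσ]
    exact mul_ne_zero (C_ne_zero.mpr (norm_pos_iff.mp (haσ σ))) (hmon.map σ).ne_zero
  have hdeg : ∀ σ : k →+* ℂ, (F.map (iemb σ)).natDegree ≤ r := by
    intro σ
    rw [hFσ, natDegree_C_mul (norm_pos_iff.mp (haσ σ)), natDegree_map, pb.natDegree_minpoly, hdim]
  constructor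
  · have h3 := height_le pb (by rw [hdim]; exact hr) F a ha hF
    rw [sum_log_max pb, sum_inf_eq, hdim] at h3
    have hM : ∑ σ : k →+* ℂ, Real.log ((minpoly k pb.gen).map σ).mahlerMeasure
        + ∑ σ : k →+* ℂ, Real.log ‖σ (a : k)‖ = ∑ σ : k →+* ℂ, Real.log (F.map (iemb σ)).mahlerMeasure := by
      rw [← Finset.sum_add_distrib]
      refine Finset.sum_congr rfl fun σ _ => ?_
      have hpos : 0 < ((minpoly k pb.gen).map σ).mahlerMeasure := mahlerMeasure_pos_of_ne_zero (hmon.map σ).ne_zero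
      rw [hFσ, mahlerMeasure_mul, mahlerMeasure_const, Real.log_mul (haσ σ).ne' hpos.ne']
      ring
    rw [hM] at h3
    have h4 := le_abs_self C2
    have h5 : 0 ≤ C1 * (s * r) := by positivity
    linarith
  · have hW : ∀ w : InfinitePlace L, Sum.inl w ∈ upW L S := by
      intro w
      unfold upW
      rw [Finset.mem_biUnion]
      refine ⟨.inl (w.comap (algebraMap k L)), hS _, ?_⟩
      rw [mem_above]
      exact ⟨rfl⟩
    set W := upW L S with hWdef
    have hsplit : ∑ w ∈ W, dloc g q w pb.gen = ∑ w : InfinitePlace L, dloc g q (.inl w) pb.gen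
        + ∑ w ∈ W.toRight, dloc g q (.inr w) pb.gen := by
      rw [← Finset.toLeft_disjSum_toRight (u := W), Finset.sum_disjSum]
      have e1 : W.toLeft = Finset.univ := by
        ext w; simp [hW w]
      simp [e1]
    have hfin : ∀ w : Pl L, -C1 ≤ dloc g q w pb.gen := by
      intro w
      have e1 := Real.log_nonneg (one_le_sn_aff w pb.gen)
      have e3 := hC1 L hfr.le w pb.gen hne
      have e4 : (g.natDegree : ℝ) ≤ q := by exact_mod_cast h1
      unfold dloc
      nlinarith
    have hfinsum : -(C1 * (s * r)) ≤ ∑ w ∈ W.toRight, dloc g q (.inr w) pb.gen := by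
      have e1 : ∑ w ∈ W.toRight, (-C1) ≤ ∑ w ∈ W.toRight, dloc g q (.inr w) pb.gen :=
        Finset.sum_le_sum fun w _ => hfin (.inr w)
      rw [Finset.sum_const, nsmul_eq_mul] at e1
      have e2 : (W.toRight.card : ℝ) ≤ W.card := by exact_mod_cast Finset.card_toRight_le
      have e3 : (W.card : ℝ) ≤ s * r := by
        have := card_upW_le L S
        rw [hfr] at this
        calc (W.card : ℝ) ≤ ((S.card * r : ℕ) : ℝ) := by exact_mod_cast this
          _ = S.card * r := by push_cast; ring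
          _ ≤ s * r := by
              have : (S.card : ℝ) ≤ s := by exact_mod_cast hSs
              exact mul_le_mul_of_nonneg_right this (Nat.cast_nonneg _)
      have e4 : C1 * (W.toRight.card : ℝ) ≤ C1 * (s * r) := mul_le_mul_of_nonneg_left (e2.trans e3) hC10
      linarith
    rw [hsplit, sum_inf_dloc g hg h1 h2 pb F a ha hF hne, hdim]
    have hterm : ∀ σ : k →+* ℂ, ∑ p ∈ I σ, (Real.log (F.map (iemb σ)).mahlerMeasure
          - Real.log ‖pev r (F.map (iemb σ)) p‖) - ∑ p ∈ dset g q σ, |Real.log (2 ^ r * psz r p)|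
          - r * |Real.log ‖σ g.leadingCoeff‖|
        ≤ ∑ p ∈ dset g q σ, (Real.log (F.map (iemb σ)).mahlerMeasure
          - Real.log ‖pev r (F.map (iemb σ)) p‖) - r * Real.log ‖σ g.leadingCoeff‖ := by
      intro σ
      have e1 : ∀ p ∈ dset g q σ, 0 ≤ (Real.log (F.map (iemb σ)).mahlerMeasure
          - Real.log ‖pev r (F.map (iemb σ)) p‖) + |Real.log (2 ^ r * psz r p)| := by
        intro p hp
        have e2 := pev_ne_zero g hg.ne_zero pb F a ha hF hne σ hp
        rw [hdim] at e2
        have e3 := Real.log_le_log (norm_pos_iff.mpr e2) (pev_le_mahler (hdeg σ) p)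
        have e4 : (0 : ℝ) < 2 ^ r * psz r p := by
          have := one_le_psz r p
          positivity
        have e5 : 2 ^ r * (F.map (iemb σ)).mahlerMeasure * psz r p
            = (2 ^ r * psz r p) * (F.map (iemb σ)).mahlerMeasure := by ring
        rw [e5, Real.log_mul e4.ne' (hMp σ).ne'] at e3
        have e6 := le_abs_self (Real.log (2 ^ r * psz r p))
        linarith
      have e2 : ∑ p ∈ I σ, ((Real.log (F.map (iemb σ)).mahlerMeasure
          - Real.log ‖pev r (F.map (iemb σ)) p‖) + |Real.log (2 ^ r * psz r p)|)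
          ≤ ∑ p ∈ dset g q σ, ((Real.log (F.map (iemb σ)).mahlerMeasure
          - Real.log ‖pev r (F.map (iemb σ)) p‖) + |Real.log (2 ^ r * psz r p)|) :=
        Finset.sum_le_sum_of_subset_of_nonneg (hI σ) fun p hp _ => e1 p hp
      rw [Finset.sum_add_distrib, Finset.sum_add_distrib] at e2
      have e3 : 0 ≤ ∑ p ∈ I σ, |Real.log (2 ^ r * psz r p)| := Finset.sum_nonneg fun _ _ => abs_nonneg _
      have e4 : (r : ℝ) * Real.log ‖σ g.leadingCoeff‖ ≤ r * |Real.log ‖σ g.leadingCoeff‖| :=
        mul_le_mul_of_nonneg_left (le_abs_self _) (Nat.cast_nonneg _)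
      linarith
    have hsum := Finset.sum_le_sum (s := (Finset.univ : Finset (k →+* ℂ))) fun σ _ => hterm σ
    rw [Finset.sum_sub_distrib, Finset.sum_sub_distrib] at hsum
    have h5 := abs_nonneg C2
    linarith

end

end Pool.Agent.Helper52.Vojta
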