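import Mathlib
import Pool.Agent.Helper52.Vojta.PtPoint
import Pool.Agent.Helper52.Vojta.GMult
import Pool.Agent.Helper52.Vojta.IChoice
import Pool.Agent.Helper52.Vojta.LowerFinal

/-!
Lower bound for the number of nontrivial points, for an arbitrary reduced divisor.
-/

namespace Pool.Agent.Helper52.Vojta

open NumberField Finset Module Polynomial IntermediateField Pool.Agent.Helper64.Vojta

universe u

section

variable {k : Type u} [Field k] [NumberField k]

open scoped Classical in
theorem nontriv_lower_gen (Ω : Type u) [Field Ω] [Algebra k Ω] [IsAlgClosed Ω] (g : k[X]) (hg : Squarefree g)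
    {q : ℕ} (hq1 : g.natDegree ≤ q) (hq2 : q ≤ g.natDegree + 1) (hq : 3 ≤ q)
    (S : Finset (Pl k)) (hS : ∀ v : InfinitePlace k, Sum.inl v ∈ S) {r : ℕ}
    (hr : 4 ≤ r ∨ (r = 3 ∧ ∀ σ : k →+* ℂ, ComplexEmbedding.conjugate σ = σ →
      ∃ p ∈ dset g q σ, p.map (starRingEnd ℂ) = p)) {ε : ℝ} (hε0 : 0 < ε) (hε1 : ε < 1) (c0 : ℝ) :
    ∃ (c1 V0 : ℝ), 0 < c1 ∧ ∀ V : ℝ, V0 ≤ V → ∃ P : Finset Ω, c1 * Real.exp ((r - 1 - ε) * V) ≤ P.card ∧
      ∀ x ∈ P, ∃ _ : NumberField k⟮x⟯,
        Ntv g q r S ε c0 k⟮x⟯ (AdjoinSimple.gen k x) ∧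
        Height.logHeight (aff (AdjoinSimple.gen k x)) ≤ V := by
  have hr3 : 3 ≤ r := by rcases hr with h | ⟨h, _⟩ <;> omega
  have hr3' : (3 : ℝ) ≤ r := by exact_mod_cast hr3
  obtain ⟨I, hI1, hI2, hI3, hI4⟩ := choose_I g hg hq1 hq2 hq hr
  obtain ⟨P, π, N1, hP, hπ, hπ2, hN1, hN1'⟩ := exists_prime_data k
  set N : ℕ := N1 ^ 2 with hN
  have hNP : (N : 𝓞 k) ∈ P ^ 2 := by
    rw [hN]; push_cast
    exact Ideal.pow_mem_pow hN1 2
  have hN1le : 1 ≤ N := by rw [hN]; exact Nat.one_le_pow _ _ hN1'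
  have hNr : (1 : ℝ) ≤ N := by exact_mod_cast hN1le
  set θ : ℝ := 2 + ε with hθ
  have hθ0 : 0 < θ := by rw [hθ]; linarith
  have hθ3 : θ < 3 := by rw [hθ]; linarith
  set n : ℕ := finrank ℚ k with hn
  have hn1 : 1 ≤ n := Module.finrank_pos
  have hnr : (1 : ℝ) ≤ n := by exact_mod_cast hn1
  have hnpos : (0 : ℝ) < n := by linarith
  have hcardσ : Fintype.card (k →+* ℂ) = n := NumberField.Embeddings.card k ℂ
  obtain ⟨C3, hC31, hfam⟩ := gfamily r hr3 I hI2 (fun σ => (hI3 σ).1) (fun σ => (hI3 σ).2) hI4 hθ0 hθ3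
    hP.ne_top hπ hπ2 hN1le hNP
  obtain ⟨Ct, hC0, hC⟩ := point_I g hg hq1 hq2 r (by omega) S.card
  -- the constant `η`
  set C5 : ℝ := (r + 1) * C3 with hC5
  have hC51 : 1 ≤ C5 := by rw [hC5]; nlinarith
  set c' : ℝ := r * Real.log 2 + Real.log (3 * N) with hc'
  set E : ℝ := (θ * (n * Real.log C5 + Ct) + r * |c0| + Ct + 1) / (3 * n) + c' with hE
  set η : ℝ := Real.exp (-E) with hη
  have hη0 : 0 < η := Real.exp_pos _
  obtain ⟨B, Q0, hB0, hfam'⟩ := hfam η hη0
  set R : ℝ := C3 + 3 * N * η with hR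
  have hR0 : 0 < R := by positivity
  obtain ⟨M, hM1, hM⟩ := few_large r I hI2 (fun σ => (hI3 σ).1) (fun σ => (hI3 σ).2) hI4 hθ0 hθ3 hr3 hR0
    (δ := 1 / (2 * B)) (by positivity)
  set β : ℝ := C5 * 2 ^ r with hβ
  obtain ⟨K, hK⟩ := mult_bound (k := k) r M β
  set D : ℝ := (g.natDegree : ℝ) with hD
  have hD0 : 0 ≤ D := Nat.cast_nonneg _
  set e : ℝ := r - 1 - ε with he
  have he0 : 0 < e := by rw [he]; linarith
  have hne : (n : ℝ) * (r + 1 - θ) = n * e := by rw [hθ, he]; ring
  -- constants for the count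
  set a : ℝ := (1 / (2 * C5)) ^ ((n : ℝ) * e) * Real.exp (-(Ct * e)) / (2 * B * (K + 1)) with ha
  have ha0 : 0 < a := by positivity
  set V1 : ℝ := n * Real.log (C5 * (Q0 + 1)) + Ct with hV1
  set V3 : ℝ := Real.log (2 * (D + 1) / a) / e with hV3
  refine ⟨a / 2, max V1 V3, by positivity, ?_⟩
  intro V hV
  have hVV1 : V1 ≤ V := (le_max_left _ _).trans hV
  have hVV3 : V3 ≤ V := (le_max_right _ _).trans hV
  -- the parameter `Q`
  set Z : ℝ := Real.exp ((V - Ct) / n) with hZ
  have hZ0 : 0 < Z := Real.exp_pos _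
  have hZge : C5 * (Q0 + 1) ≤ Z := by
    rw [hZ, ← Real.log_le_iff_le_exp (by positivity), le_div_iff₀ hnpos]
    rw [hV1] at hVV1; linarith
  have hZC5 : (Q0 : ℝ) + 1 ≤ Z / C5 := by
    rw [le_div_iff₀ (by linarith)]; linarith
  have hZC51 : 1 ≤ Z / C5 := by
    have : (0 : ℝ) ≤ Q0 := Nat.cast_nonneg _
    linarith
  set Q : ℕ := ⌊Z / C5⌋₊ with hQ
  have hQ1 : 1 ≤ Q := one_le_floor' hZC51
  have hQQ0 : Q0 ≤ Q := by
    apply Nat.le_floor
    linarith
  have hQr : (1 : ℝ) ≤ Q := by exact_mod_cast hQ1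
  have hQpos : (0 : ℝ) < Q := by linarith
  have hQlow : Z / (2 * C5) ≤ Q := by
    have := half_le_floor hZC51
    have e' : Z / C5 / 2 = Z / (2 * C5) := by field_simp
    rwa [e'] at this
  have hQup : C5 * Q ≤ Z := by
    have := Nat.floor_le (show 0 ≤ Z / C5 by positivity)
    rw [← hQ, le_div_iff₀ (by linarith)] at this
    linarith
  obtain ⟨A, hA1, hA2⟩ := hfam' Q hQQ0 hQ1
  -- roots
  have hroot : ∀ F ∈ A, ∃ x : Ω, IsIntegral k x ∧
      F.map (algebraMap (𝓞 k) k) = C ((F.coeff r : 𝓞 k) : k) * minpoly k x ∧ F.coeff r ≠ 0 := by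
    intro F hF
    obtain ⟨h1, h2, h3, h4, _⟩ := hA2 F hF
    exact eisenstein_root F (by omega) h1 hP h2 h3 h4
  choose! x hx1 hx2 hx3 using hroot
  have hAne : ∀ F ∈ A, F ≠ 0 := by
    rintro F hF rfl
    exact hx3 0 hF (coeff_zero r)
  have hMup : ∀ F ∈ A, ∀ σ : k →+* ℂ, (F.map (iemb σ)).mahlerMeasure ≤ C5 * Q := by
    intro F hF σ
    obtain ⟨h1, _, _, _, h5, _, _⟩ := hA2 F hF
    have h2 := mahler_le_of_coeff (r := r) (F := F.map (iemb σ)) (natDegree_map_le.trans h1.le)
      (B := C3 * Q) (fun i => by rw [coeff_map]; exact h5 σ i)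
    calc _ ≤ _ := h2
      _ = C5 * Q := by rw [hC5]; ring
  -- those with small content
  set A1 := A.filter fun F => Ideal.absNorm (cIdeal F) ≤ M with hA1def
  have hA1card : (A.card : ℝ) / 2 ≤ A1.card := by
    have h1 := hM Q hQ1 A (fun F hF => by
      obtain ⟨h1, _, _, _, h5, _, h7⟩ := hA2 F hF
      refine ⟨hAne F hF, h1.le, fun σ i => (h5 σ i).trans ?_, fun σ p hp => (h7 σ p hp).trans ?_⟩
      · refine mul_le_mul_of_nonneg_right ?_ hQpos.le
        rw [hR]
        have : 0 ≤ 3 * (N : ℝ) * η := by positivity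
        linarith
      · have h8 : 0 ≤ (Q : ℝ) ^ (1 - θ / (I σ).card) := Real.rpow_nonneg hQpos.le _
        have h9 : 3 * (N : ℝ) * (η * (Q : ℝ) ^ (1 - θ / (I σ).card)) = (3 * N * η) * (Q : ℝ) ^ (1 - θ / (I σ).card) := by
          ring
        rw [h9]
        refine mul_le_mul_of_nonneg_right ?_ h8
        rw [hR]; linarith)
    have h2 : (A1.card : ℝ) + ((A.filter fun F => M < Ideal.absNorm (cIdeal F)).card : ℝ) = A.card := by
      have h3 := Finset.card_filter_add_card_filter_not (s := A) (fun F => Ideal.absNorm (cIdeal F) ≤ M)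
      have h4 : (A.filter fun F => ¬ Ideal.absNorm (cIdeal F) ≤ M) = A.filter fun F => M < Ideal.absNorm (cIdeal F) := by
        ext F; simp [not_le]
      rw [h4] at h3
      exact_mod_cast h3
    have h3 : 1 / (2 * B) * (Q : ℝ) ^ (n * (r + 1 - θ)) ≤ A.card / 2 := by
      calc 1 / (2 * B) * (Q : ℝ) ^ (n * (r + 1 - θ)) ≤ 1 / (2 * B) * (B * A.card) :=
            mul_le_mul_of_nonneg_left hA1 (by positivity)
        _ = A.card / 2 := by field_simp
    linarith
  -- the points
  set P0 : Finset Ω := A1.image x with hP0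
  have hmult : A1.card ≤ K * P0.card := by
    refine hK A1 x ?_ ?_ ?_
    · intro F hF
      have hF' := Finset.mem_filter.mp hF
      exact ⟨hx3 F hF'.1, hAne F hF'.1, hF'.2⟩
    · intro F hF G hG hFG
      have hF' := (Finset.mem_filter.mp hF).1
      have hG' := (Finset.mem_filter.mp hG).1
      apply Polynomial.map_injective (algebraMap (𝓞 k) k) RingOfIntegers.coe_injective
      rw [Polynomial.map_mul, Polynomial.map_mul, map_C, map_C, hx2 F hF', hx2 G hG', hFG]
      ring
    · intro F hF G hG hFG σ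
      have hF' := (Finset.mem_filter.mp hF).1
      have hG' := (Finset.mem_filter.mp hG).1
      have hM1' : ∀ F ∈ A, (F.map (iemb σ)).mahlerMeasure
          = ‖iemb σ (F.coeff r)‖ * ((minpoly k (x F)).map σ).mahlerMeasure := by
        intro F hF
        have h1 : F.map (iemb σ) = C (iemb σ (F.coeff r)) * (minpoly k (x F)).map σ := by
          unfold iemb
          rw [← Polynomial.map_map, hx2 F hF, Polynomial.map_mul, map_C]
          rfl
        rw [h1, mahlerMeasure_mul, mahlerMeasure_const]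
      have hm0 : 0 < ((minpoly k (x G)).map σ).mahlerMeasure :=
        mahlerMeasure_pos_of_ne_zero ((minpoly.monic (hx1 G hG')).map σ).ne_zero
      have h1 := hMup F hF' σ
      have h2 := (hA2 G hG').2.2.2.2.2.1 σ
      rw [hM1' F hF', hFG] at h1
      rw [hM1' G hG'] at h2
      have h3 : ‖iemb σ (F.coeff r)‖ * ((minpoly k (x G)).map σ).mahlerMeasure
          ≤ (β * ‖iemb σ (G.coeff r)‖) * ((minpoly k (x G)).map σ).mahlerMeasure := by
        calc _ ≤ C5 * Q := h1
          _ = β * (Q / 2 ^ r) := by rw [hβ]; field_simp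
          _ ≤ β * (‖iemb σ (G.coeff r)‖ * ((minpoly k (x G)).map σ).mahlerMeasure) :=
              mul_le_mul_of_nonneg_left h2 (by positivity)
          _ = _ := by ring
      exact le_of_mul_le_mul_right h3 hm0
  refine ⟨P0.filter fun y => aeval y g ≠ 0, ?_, ?_⟩
  · -- counting
    have h2 : (P0.filter fun y => ¬ (aeval y g ≠ 0)).card ≤ g.natDegree := by
      calc _ ≤ (g.aroots Ω).toFinset.card := by
            refine Finset.card_le_card ?_
            intro y hy
            rw [Finset.mem_filter, not_not] at hy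
            rw [Multiset.mem_toFinset, mem_aroots]
            exact ⟨hg.ne_zero, hy.2⟩
        _ ≤ Multiset.card (g.aroots Ω) := Multiset.toFinset_card_le _
        _ ≤ (g.map (algebraMap k Ω)).natDegree := card_roots' _
        _ = g.natDegree := by rw [natDegree_map]
    have h3 := Finset.card_filter_add_card_filter_not (s := P0) (fun y => aeval y g ≠ 0)
    have h4 : (P0.card : ℝ) ≤ (P0.filter fun y => aeval y g ≠ 0).card + D := by
      have : P0.card ≤ (P0.filter fun y => aeval y g ≠ 0).card + g.natDegree := by omega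
      rw [hD]
      exact_mod_cast this
    have h5 : (A1.card : ℝ) ≤ (K + 1) * P0.card := by
      have h6 : (A1.card : ℝ) ≤ K * P0.card := by exact_mod_cast hmult
      have h7 : (0 : ℝ) ≤ P0.card := Nat.cast_nonneg _
      linarith
    have h6 : (Q : ℝ) ^ ((n : ℝ) * e) ≤ 2 * B * (K + 1) * P0.card := by
      rw [← hne]
      calc (Q : ℝ) ^ ((n : ℝ) * (r + 1 - θ)) ≤ B * A.card := hA1
        _ ≤ B * (2 * A1.card) := mul_le_mul_of_nonneg_left (by linarith) hB0.le
        _ ≤ B * (2 * ((K + 1) * P0.card)) := by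
            refine mul_le_mul_of_nonneg_left ?_ hB0.le
            linarith
        _ = _ := by ring
    have h7 : (1 / (2 * C5)) ^ ((n : ℝ) * e) * (Real.exp (-(Ct * e)) * Real.exp (e * V)) ≤ (Q : ℝ) ^ ((n : ℝ) * e) := by
      have h8 : Real.exp (-(Ct * e)) * Real.exp (e * V) = Z ^ ((n : ℝ) * e) := by
        rw [hZ, ← Real.exp_mul, ← Real.exp_add]
        congr 1
        field_simp
        ring
      rw [h8, ← Real.mul_rpow (by positivity) hZ0.le]
      apply Real.rpow_le_rpow (by positivity) _ (by positivity)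
      calc 1 / (2 * C5) * Z = Z / (2 * C5) := by ring
        _ ≤ Q := hQlow
    have h8 : a * Real.exp (e * V) ≤ P0.card := by
      have h9 : (0 : ℝ) < 2 * B * (K + 1) := by positivity
      have h10 : (2 * B * (K + 1)) * (a * Real.exp (e * V)) ≤ (2 * B * (K + 1)) * P0.card := by
        refine le_trans (le_of_eq ?_) (h7.trans h6)
        rw [ha]
        field_simp
      exact le_of_mul_le_mul_left h10 h9
    have h9 : D + 1 ≤ a / 2 * Real.exp (e * V) := by
      have h3 : Real.log (2 * (D + 1) / a) ≤ e * V := by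
        rw [hV3, div_le_iff₀ he0] at hVV3; linarith
      rw [Real.log_le_iff_le_exp (by positivity), div_le_iff₀ ha0] at h3
      linarith
    linarith
  · intro y hy
    rw [Finset.mem_filter] at hy
    obtain ⟨hy1, hy2⟩ := hy
    obtain ⟨F, hF, rfl⟩ := Finset.mem_image.mp hy1
    have hFA := (Finset.mem_filter.mp hF).1
    obtain ⟨h1, _, _, _, h5, h6, h7⟩ := hA2 F hFA
    have hkint : IsIntegral k (x F) := hx1 F hFA
    have hfd : FiniteDimensional k k⟮x F⟯ := adjoin.finiteDimensional hkint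
    have hnf : NumberField k⟮x F⟯ := NumberField.of_module_finite k _
    refine ⟨hnf, ?_⟩
    let pb : PowerBasis k k⟮x F⟯ := adjoin.powerBasis hkint
    have hgen : pb.gen = AdjoinSimple.gen k (x F) := adjoin.powerBasis_gen hkint
    have hmp : minpoly k pb.gen = minpoly k (x F) := by rw [hgen, minpoly_gen]
    have hdim : pb.dim = r := by
      rw [← pb.natDegree_minpoly, hmp]
      have h8 := congrArg natDegree (hx2 F hFA)
      rw [natDegree_C_mul (by
        have := hx3 F hFA
        exact_mod_cast this), natDegree_map_eq_of_injective RingOfIntegers.coe_injective, h1] at h8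
      exact h8.symm
    have hfr : finrank k k⟮x F⟯ = r := by rw [pb.finrank, hdim]
    have hne' : aeval pb.gen g ≠ 0 := by
      rw [hgen]
      intro h0
      apply hy2
      have := congrArg (algebraMap k⟮x F⟯ Ω) h0
      rwa [map_zero, ← aeval_algebraMap_apply, AdjoinSimple.algebraMap_gen] at this
    have hFm : F.map (algebraMap (𝓞 k) k) = Polynomial.C ((F.coeff r : 𝓞 k) : k) * minpoly k pb.gen := by
      rw [hmp]; exact hx2 F hFA
    obtain ⟨hH, hL⟩ := hC k⟮x F⟯ pb hdim S hS le_rfl F (F.coeff r) (hx3 F hFA) hFm hne' I hI1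
    have hMpos : ∀ σ : k →+* ℂ, 0 < (F.map (iemb σ)).mahlerMeasure := fun σ =>
      lt_of_lt_of_le (by positivity) (h6 σ)
    have hHup : Height.logHeight (aff pb.gen) ≤ n * Real.log (C5 * Q) + Ct := by
      refine hH.trans (add_le_add ?_ le_rfl)
      calc ∑ σ : k →+* ℂ, Real.log (F.map (iemb σ)).mahlerMeasure
          ≤ ∑ σ : k →+* ℂ, Real.log (C5 * Q) := Finset.sum_le_sum fun σ _ =>
            Real.log_le_log (hMpos σ) (hMup F hFA σ)
        _ = n * Real.log (C5 * Q) := by rw [Finset.sum_const, Finset.card_univ, nsmul_eq_mul, hcardσ]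
    rw [← hgen]
    constructor
    · apply Ntv.of_ineq (by omega) hfr hne'
      refine lt_of_lt_of_le ?_ hL
      -- lower bound for the local sum
      have hterm : ∀ σ : k →+* ℂ, ∀ p ∈ I σ, θ / (I σ).card * Real.log Q - c' + E
          ≤ Real.log (F.map (iemb σ)).mahlerMeasure - Real.log ‖pev r (F.map (iemb σ)) p‖ := by
        intro σ p hp
        have e1 : Real.log Q - r * Real.log 2 ≤ Real.log (F.map (iemb σ)).mahlerMeasure := by
          have h8 := Real.log_le_log (by positivity) (h6 σ)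
          rwa [Real.log_div hQpos.ne' (by positivity), Real.log_pow] at h8
        have e2 : Real.log ‖pev r (F.map (iemb σ)) p‖
            ≤ Real.log (3 * N) - E + (1 - θ / (I σ).card) * Real.log Q := by
          have hpne := pev_ne_zero g hg.ne_zero pb F (F.coeff r) (hx3 F hFA) hFm hne' σ (hI1 σ hp)
          rw [hdim] at hpne
          have h8 := Real.log_le_log (norm_pos_iff.mpr hpne) (h7 σ p hp)
          have h9 : 0 < (Q : ℝ) ^ (1 - θ / (I σ).card) := Real.rpow_pos_of_pos hQpos _
          rw [Real.log_mul (by positivity) (by positivity), Real.log_mul hη0.ne' h9.ne', Real.log_rpow hQpos,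
            hη, Real.log_exp] at h8
          linarith
        rw [hc']
        linarith
      have hsum : ∀ σ : k →+* ℂ, θ * Real.log Q + 3 * (E - c')
          ≤ ∑ p ∈ I σ, (Real.log (F.map (iemb σ)).mahlerMeasure - Real.log ‖pev r (F.map (iemb σ)) p‖) := by
        intro σ
        refine le_trans ?_ (Finset.sum_le_sum (hterm σ))
        rw [Finset.sum_const, nsmul_eq_mul]
        have h8 : (3 : ℝ) ≤ (I σ).card := by exact_mod_cast (hI3 σ).1
        have h9 : ((I σ).card : ℝ) * (θ / (I σ).card * Real.log Q - c' + E)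
            = θ * Real.log Q + (I σ).card * (E - c') := by
          field_simp
          ring
        rw [h9]
        have h10 : 0 ≤ E - c' := by
          rw [hE, add_sub_cancel_right]
          have : 0 ≤ Real.log C5 := Real.log_nonneg hC51
          positivity
        have := mul_le_mul_of_nonneg_right h8 h10
        linarith
      have hsum2 := Finset.sum_le_sum (s := (Finset.univ : Finset (k →+* ℂ))) fun σ _ => hsum σ
      rw [Finset.sum_const, Finset.card_univ, nsmul_eq_mul, hcardσ] at hsum2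
      have h8 : (n : ℝ) * (3 * (E - c')) = θ * (n * Real.log C5 + Ct) + r * |c0| + Ct + 1 := by
        rw [hE, add_sub_cancel_right]
        field_simp
      have h9 : Real.log (C5 * Q) = Real.log C5 + Real.log Q := Real.log_mul (by positivity) hQpos.ne'
      have h10 : (2 + ε) * Height.logHeight (aff pb.gen) ≤ θ * (n * (Real.log C5 + Real.log Q) + Ct) := by
        rw [← h9]
        exact mul_le_mul_of_nonneg_left hHup hθ0.le
      linarith
    · refine hHup.trans ?_
      have h8 : Real.log (C5 * Q) ≤ (V - Ct) / n := by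
        rw [Real.log_le_iff_le_exp (by positivity)]
        exact hQup
      calc (n : ℝ) * Real.log (C5 * Q) + Ct ≤ n * ((V - Ct) / n) + Ct := by
            have := mul_le_mul_of_nonneg_left h8 hnpos.le
            linarith
        _ = V := by field_simp; ring

end

end Pool.Agent.Helper52.Vojta
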