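import Mathlib

/-!
Evaluation forms on polynomials of degree at most `r` in terms of the values at `r + 1` nodes, and
the functional attached to a hyperplane.
-/

namespace Pool.Agent.Helper52.Vojta

open Finset Module Polynomial

section evp

variable {K : Type*} [Field K] {r : ℕ}

/-- evaluation of polynomials of degree at most `r` at a point of the projective line, `none` being
the point at infinity -/
noncomputable def evp (r : ℕ) : Option K → (K[X] →ₗ[K] K)
  | none => lcoeff K r
  | some a => leval a

theorem evp_none (F : K[X]) : evp r none F = F.coeff r := rfl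

theorem evp_some (a : K) (F : K[X]) : evp r (some a) F = F.eval a := rfl

/-- the form giving the value at a point in terms of the values at the nodes -/
noncomputable def frmP (b : Fin (r + 1) → ℕ) (o : Option K) : Fin (r + 1) → K := fun c =>
  evp r o (Lagrange.basis Finset.univ (fun c => (b c : K)) c)

variable [CharZero K]

theorem node_inj {b : Fin (r + 1) → ℕ} (hb : Function.Injective b) :
    Set.InjOn (fun c => (b c : K)) ((Finset.univ : Finset (Fin (r + 1))) : Set (Fin (r + 1))) := by
  intro c _ c' _ h
  have h' : (b c : K) = (b c' : K) := h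
  exact hb (by exact_mod_cast h')

theorem sum_frmP {b : Fin (r + 1) → ℕ} (hb : Function.Injective b) (o : Option K) (F : K[X])
    (hF : F.natDegree ≤ r) : ∑ c, frmP b o c * F.eval (b c : K) = evp r o F := by
  have hdeg : F.degree < (Finset.univ : Finset (Fin (r + 1))).card := by
    rw [Finset.card_univ, Fintype.card_fin]
    exact (degree_le_natDegree).trans_lt (by exact_mod_cast Nat.lt_succ_of_le hF)
  have h1 := Lagrange.eq_interpolate (node_inj hb) hdeg
  conv_rhs => rw [h1]
  rw [Lagrange.interpolate_apply, map_sum]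
  refine Finset.sum_congr rfl fun c _ => ?_
  rw [← smul_eq_C_mul, map_smul, smul_eq_mul, mul_comm]
  rfl

theorem frmP_node {b : Fin (r + 1) → ℕ} (hb : Function.Injective b) (c : Fin (r + 1)) :
    frmP b (some (b c : K)) = Pi.single c 1 := by
  funext c'
  unfold frmP
  rw [evp_some]
  by_cases h : c' = c
  · subst h
    rw [Lagrange.eval_basis_self (node_inj hb) (Finset.mem_univ _), Pi.single_eq_same]
  · have h1 := Lagrange.eval_basis_of_ne (s := Finset.univ) (v := fun c => (b c : K)) h (Finset.mem_univ c)
    rw [h1, Pi.single_eq_of_ne h]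

omit [CharZero K] in
theorem evp_eq_zero {A : Fin (r + 1) → Option K} (hA : Function.Injective A) {F : K[X]}
    (hF : F.natDegree ≤ r) (h : ∀ a, evp r (A a) F = 0) : F = 0 := by
  classical
  let s : Finset K := (Finset.univ.image A).eraseNone
  have hs : ∀ x ∈ s, F.eval x = 0 := by
    intro x hx
    rw [Finset.mem_eraseNone, Finset.mem_image] at hx
    obtain ⟨a, _, ha⟩ := hx
    have := h a
    rwa [ha] at this
  have hcard : (Finset.univ.image A).card = r + 1 := by
    rw [Finset.card_image_of_injective _ hA, Finset.card_univ, Fintype.card_fin]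
  by_cases hn : none ∈ Finset.univ.image A
  · obtain ⟨a, _, ha⟩ := Finset.mem_image.mp hn
    have h0 := h a
    rw [ha, evp_none] at h0
    have hsc : s.card = r := by
      have := Finset.card_eraseNone_of_mem hn
      rw [hcard] at this
      simpa using this
    by_contra hF0
    have h1 : F.natDegree ≠ r := by
      intro h1
      rw [← h1] at h0
      exact hF0 (leadingCoeff_eq_zero.mp h0)
    exact hF0 (eq_zero_of_natDegree_lt_card_of_eval_eq_zero' F s hs (by omega))
  · have hsc : s.card = r + 1 := by
      have := Finset.card_eraseNone_of_not_mem hn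
      rw [hcard] at this
      exact this
    exact eq_zero_of_natDegree_lt_card_of_eval_eq_zero' F s hs (by omega)

theorem det_frmP_ne {b : Fin (r + 1) → ℕ} (hb : Function.Injective b) {A : Fin (r + 1) → Option K}
    (hA : Function.Injective A) : (Matrix.of fun a c => frmP b (A a) c).det ≠ 0 := by
  intro h0
  obtain ⟨v, hv, hMv⟩ := Matrix.exists_mulVec_eq_zero_iff.mpr h0
  set F := Lagrange.interpolate Finset.univ (fun c => (b c : K)) v with hF
  have hdeg : F.natDegree ≤ r := by
    have := Lagrange.degree_interpolate_lt v (node_inj (K := K) hb)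
    rw [Finset.card_univ, Fintype.card_fin] at this
    rw [natDegree_le_iff_degree_le]
    exact Order.lt_succ_iff.mp (by exact_mod_cast this)
  have hval : ∀ c, F.eval (b c : K) = v c := fun c =>
    Lagrange.eval_interpolate_at_node v (node_inj hb) (Finset.mem_univ c)
  have hF0 : F = 0 := by
    apply evp_eq_zero hA hdeg
    intro a
    rw [← sum_frmP hb _ F hdeg]
    have := congrFun hMv a
    simp only [Matrix.mulVec, dotProduct, Matrix.of_apply, Pi.zero_apply] at this
    simp_rw [hval]
    exact this
  apply hv
  funext c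
  rw [← hval c, hF0, eval_zero, Pi.zero_apply]

end evp

section tdet

variable {R : Type*} [CommRing R] {r : ℕ}

/-- the functional vanishing on `r` given vectors of length `r + 1` -/
noncomputable def tdet (P : Fin r → Fin (r + 1) → R) (y : Fin (r + 1) → R) : R :=
  (Matrix.of fun c i => Fin.snoc (α := fun _ => R) (fun j => P j c) (y c) i).det

theorem laplace (E : Matrix (Fin (r + 1)) (Fin (r + 1)) R) (P : Fin r → Fin (r + 1) → R) (y : Fin (r + 1) → R) :
    E.det * tdet P y = ∑ a : Fin (r + 1), (-1) ^ ((a : ℕ) + r) * (∑ c, E a c * y c) *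
      (Matrix.of fun a' j => ∑ c, E (a.succAbove a') c * P j c).det := by
  unfold tdet
  rw [← Matrix.det_mul, Matrix.det_succ_column _ (Fin.last r)]
  refine Finset.sum_congr rfl fun a _ => ?_
  rw [Fin.val_last]
  congr 1
  · congr 1
    rw [Matrix.mul_apply]
    refine Finset.sum_congr rfl fun c _ => ?_
    rw [Matrix.of_apply, Fin.snoc_last]
  · congr 1
    ext a' j
    rw [Matrix.submatrix_apply, Matrix.mul_apply, Matrix.of_apply]
    refine Finset.sum_congr rfl fun c _ => ?_
    rw [Matrix.of_apply, Fin.succAbove_last, Fin.snoc_castSucc]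

/-- cofactors -/
noncomputable def tau (P : Fin r → Fin (r + 1) → R) (a : Fin (r + 1)) : R :=
  (-1) ^ ((a : ℕ) + r) * (Matrix.of fun a' j => P j (a.succAbove a')).det

theorem tdet_eq (P : Fin r → Fin (r + 1) → R) (y : Fin (r + 1) → R) : tdet P y = ∑ a, tau P a * y a := by
  have h := laplace (1 : Matrix (Fin (r + 1)) (Fin (r + 1)) R) P y
  rw [Matrix.det_one, one_mul] at h
  rw [h]
  refine Finset.sum_congr rfl fun a _ => ?_
  have h1 : ∑ c, (1 : Matrix (Fin (r + 1)) (Fin (r + 1)) R) a c * y c = y a := by
    simp [Matrix.one_apply]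
  have h2 : (Matrix.of fun a' j => ∑ c, (1 : Matrix (Fin (r + 1)) (Fin (r + 1)) R) (a.succAbove a') c * P j c)
      = Matrix.of fun a' j => P j (a.succAbove a') := by
    ext a' j
    simp [Matrix.one_apply]
  rw [h1, h2]
  unfold tau
  ring

theorem tdet_self (P : Fin r → Fin (r + 1) → R) (j : Fin r) : tdet P (P j) = 0 := by
  unfold tdet
  apply Matrix.det_zero_of_column_eq (i := j.castSucc) (j := Fin.last r) (Fin.castSucc_lt_last j).ne
  intro c
  rw [Matrix.of_apply, Matrix.of_apply, Fin.snoc_castSucc, Fin.snoc_last]

/-- `tdet` as a linear map -/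
noncomputable def tlin (P : Fin r → Fin (r + 1) → R) : (Fin (r + 1) → R) →ₗ[R] R where
  toFun := tdet P
  map_add' x y := by
    simp only [tdet_eq, Pi.add_apply, mul_add, Finset.sum_add_distrib]
  map_smul' a x := by
    simp only [tdet_eq, Pi.smul_apply, smul_eq_mul, RingHom.id_apply, Finset.mul_sum]
    refine Finset.sum_congr rfl fun c _ => ?_
    ring

theorem tlin_apply (P : Fin r → Fin (r + 1) → R) (y : Fin (r + 1) → R) : tlin P y = tdet P y := rfl

theorem tdet_mem_span (P : Fin r → Fin (r + 1) → R) {z : Fin (r + 1) → R}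
    (hz : z ∈ Submodule.span R (Set.range P)) : tdet P z = 0 := by
  have h : Submodule.span R (Set.range P) ≤ LinearMap.ker (tlin P) := by
    rw [Submodule.span_le]
    rintro _ ⟨j, rfl⟩
    exact tdet_self P j
  exact h hz

end tdet

section hankel

variable {k : Type*} [Field k] {r : ℕ}

theorem tdet_ne (P : Fin r → Fin (r + 1) → k) (hP : LinearIndependent k P) : ∃ y, tdet P y ≠ 0 := by
  have h1 : ∃ y, y ∉ Submodule.span k (Set.range P) := by
    by_contra hcon
    push Not at hcon
    have h2 : Submodule.span k (Set.range P) = ⊤ := by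
      rw [eq_top_iff]; exact fun y _ => hcon y
    have h3 := finrank_span_eq_card hP
    rw [h2, finrank_top, finrank_fin_fun, Fintype.card_fin] at h3
    omega
  obtain ⟨y, hy⟩ := h1
  refine ⟨y, fun h0 => ?_⟩
  obtain ⟨v, hv, hMv⟩ := Matrix.exists_mulVec_eq_zero_iff.mpr h0
  have h4 : LinearIndependent k (Fin.snoc P y : Fin (r + 1) → Fin (r + 1) → k) :=
    linearIndependent_finSnoc.mpr ⟨hP, hy⟩
  apply hv
  have h5 := Fintype.linearIndependent_iff.mp h4 v (by
    funext c
    have := congrFun hMv c
    simp only [Matrix.mulVec, dotProduct, Matrix.of_apply, Pi.zero_apply] at this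
    rw [Finset.sum_apply, Pi.zero_apply, ← this]
    refine Finset.sum_congr rfl fun i _ => ?_
    rw [Pi.smul_apply, smul_eq_mul, mul_comm]
    congr 1
    refine Fin.lastCases ?_ (fun j => ?_) i
    · rw [Fin.snoc_last, Fin.snoc_last]
    · rw [Fin.snoc_castSucc, Fin.snoc_castSucc])
  funext i
  exact h5 i

/-- monomials in node coordinates -/
def mon (R : Type*) [CommRing R] (b : Fin (r + 1) → ℕ) (j : ℕ) : Fin (r + 1) → R := fun c => (b c : R) ^ j

theorem vec_eq_sum_mon (b : Fin (r + 1) → ℕ) (z : Fin (r + 1) → k) (F : k[X]) (hF : F.natDegree ≤ r)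
    (h : ∀ c, F.eval (b c : k) = z c) : z = ∑ j ∈ range (r + 1), F.coeff j • mon k b j := by
  funext c
  rw [← h c, eval_eq_sum_range' (Nat.lt_succ_of_le hF), Finset.sum_apply]
  rfl

theorem hankel_ne [CharZero k] {b : Fin (r + 1) → ℕ} (hb : Function.Injective b) (P : Fin r → Fin (r + 1) → k)
    (hP : LinearIndependent k P) {z : Fin (r + 1) → k} (hz : z ∈ Submodule.span k (Set.range P)) (F : k[X])
    (hF : F.natDegree = r) (hF0 : F ≠ 0) (h : ∀ c, F.eval (b c : k) = z c) (hroot : ∀ ρ, F.eval ρ ≠ 0) :
    ∃ j < r, ∃ l < r, tdet P (mon k b j) * tdet P (mon k b (l + 1))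
      ≠ tdet P (mon k b (j + 1)) * tdet P (mon k b l) := by
  by_contra hcon
  push Not at hcon
  set t : ℕ → k := fun j => tdet P (mon k b j) with ht
  have h1 : ∑ j ∈ range (r + 1), F.coeff j * t j = 0 := by
    have h2 := tdet_mem_span P hz
    rw [vec_eq_sum_mon b z F hF.le h, ← tlin_apply, map_sum] at h2
    rw [← h2]
    refine Finset.sum_congr rfl fun j _ => ?_
    rw [map_smul, smul_eq_mul, tlin_apply]
  have htne : ∃ j ≤ r, t j ≠ 0 := by
    by_contra hcon2
    push Not at hcon2
    obtain ⟨y, hy⟩ := tdet_ne P hP
    apply hy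
    set G := Lagrange.interpolate Finset.univ (fun c => (b c : k)) y with hG
    have hdeg : G.natDegree ≤ r := by
      have := Lagrange.degree_interpolate_lt y (node_inj (K := k) hb)
      rw [Finset.card_univ, Fintype.card_fin] at this
      rw [natDegree_le_iff_degree_le]
      exact Order.lt_succ_iff.mp (by exact_mod_cast this)
    have hval : ∀ c, G.eval (b c : k) = y c := fun c =>
      Lagrange.eval_interpolate_at_node y (node_inj hb) (Finset.mem_univ c)
    rw [vec_eq_sum_mon b y G hdeg hval, ← tlin_apply, map_sum]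
    refine Finset.sum_eq_zero fun j hj => ?_
    rw [map_smul, smul_eq_mul, tlin_apply]
    have := hcon2 j (by rw [Finset.mem_range] at hj; omega)
    rw [ht] at this
    simp only at this
    rw [this, mul_zero]
  by_cases hall : ∀ j < r, t j = 0
  · -- the functional is the leading coefficient
    obtain ⟨j, hj, hj'⟩ := htne
    have hjr : j = r := by
      by_contra hne
      exact hj' (hall j (by omega))
    subst hjr
    rw [Finset.sum_range_succ, Finset.sum_eq_zero (fun i hi => by
      rw [hall i (Finset.mem_range.mp hi), mul_zero]), zero_add] at h1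
    rcases mul_eq_zero.mp h1 with h2 | h2
    · have : F.leadingCoeff = 0 := by rw [leadingCoeff, hF]; exact h2
      exact hF0 (leadingCoeff_eq_zero.mp this)
    · exact hj' h2
  · push Not at hall
    obtain ⟨j0, hj0, hj0'⟩ := hall
    set ρ := t (j0 + 1) / t j0 with hρ
    have h2 : ∀ l < r, t (l + 1) = ρ * t l := by
      intro l hl
      have := hcon j0 hj0 l hl
      rw [hρ, div_mul_eq_mul_div, eq_div_iff hj0', mul_comm]
      exact this
    have h3 : ∀ j ≤ r, t j = ρ ^ j * t 0 := by
      intro j
      induction j with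
      | zero => intro _; rw [pow_zero, one_mul]
      | succ j ih =>
        intro hj
        rw [h2 j (by omega), ih (by omega), pow_succ]
        ring
    have h4 : t 0 ≠ 0 := by
      intro h0
      apply hj0'
      rw [h3 j0 (by omega), h0, mul_zero]
    apply hroot ρ
    rw [eval_eq_sum_range' (Nat.lt_succ_of_le hF.le)]
    have h5 : (∑ i ∈ range (r + 1), F.coeff i * ρ ^ i) * t 0 = 0 := by
      rw [← h1, Finset.sum_mul]
      refine Finset.sum_congr rfl fun j hj => ?_
      rw [h3 j (by rw [Finset.mem_range] at hj; omega)]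
      ring
    rcases mul_eq_zero.mp h5 with h6 | h6
    · exact h6
    · exact absurd h6 h4

end hankel

end Pool.Agent.Helper52.Vojta
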