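import Mathlib

/-!
Separating the elements of a finitely generated abelian group with a flag of saturated subgroups by
residues adapted to the flag.
-/

namespace Pool.Agent.Helper52.Vojta

open Finset Module

section

variable {G E : Type*} [AddCommGroup G] [Module.Finite ℤ G] [AddCommGroup E] [Module ℚ E]
  [FiniteDimensional ℚ E]

theorem card_le_finrank_of_int {m : ℕ} {b : Fin m → E} (hb : LinearIndependent ℤ b) :
    m ≤ finrank ℚ E := by
  have h : LinearIndependent ℚ b := by
    rw [← LinearIndependent.iff_fractionRing ℤ ℚ]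
    exact hb
  simpa using h.fintype_card_le_finrank

theorem exists_code (d : ℕ) : ∀ (V : ℕ → Submodule ℤ G) (_ : V 0 = ⊥) (_ : ∀ i < d, V i ≤ V (i + 1))
    (φ : ℕ → G →ₗ[ℤ] E) (_ : ∀ i < d, ∀ x ∈ V (i + 1), φ i x = 0 → x ∈ V i)
    (_ : ∀ i < d, ∀ x ∈ V i, φ i x = 0) (ν : ℕ → ℕ) (_ : ∀ i < d, 0 < ν i)
    (_ : ∀ i < d, ∀ j < i, ν i ∣ ν j),
    ∃ (α : Type) (_ : Fintype α) (f : G → α), Fintype.card α ≤ ∏ i ∈ range d, ν i ^ finrank ℚ E ∧
      ∀ x ∈ V d, ∀ y ∈ V d, f x = f y → x = y ∨
        ∃ i < d, x - y ∈ V (i + 1) ∧ x - y ∉ V i ∧ ∃ z ∈ V (i + 1), x - y = ν i • z := by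
  induction d with
  | zero =>
    intro V hV0 _ φ _ _ ν _ _
    refine ⟨Unit, inferInstance, fun _ => (), by simp, ?_⟩
    intro x hx y hy _
    rw [hV0, Submodule.mem_bot] at hx hy
    exact Or.inl (hx.trans hy.symm)
  | succ d ih =>
    intro V hV0 hmono φ hφ hφ' ν hν hdiv
    obtain ⟨α, hα, f, hcard, hf⟩ := ih V hV0 (fun i hi => hmono i (by omega)) φ
      (fun i hi => hφ i (by omega)) (fun i hi => hφ' i (by omega)) ν (fun i hi => hν i (by omega))
      (fun i hi => hdiv i (by omega))
    -- image of `V (d+1)`
    let I : Submodule ℤ E := (V (d + 1)).map (φ d)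
    have hfg : (V (d + 1)).FG := IsNoetherian.noetherian _
    have hIfin : Module.Finite ℤ I := Module.Finite.iff_fg.mpr (hfg.map (φ d))
    have hItf : IsAddTorsionFree E := IsAddTorsionFree.of_module_rat E
    have hIfree : Module.Free ℤ I := inferInstance
    let b := Module.finBasis ℤ I
    have hrank : finrank ℤ I ≤ finrank ℚ E := by
      have h1 : LinearIndependent ℤ (fun j => ((b j : I) : E)) := by
        have := b.linearIndependent.map' I.subtype (Submodule.ker_subtype I)
        exact this
      exact card_le_finrank_of_int h1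
    have hpre : ∀ j, ∃ m ∈ V (d + 1), φ d m = (b j : E) := fun j => (Submodule.mem_map).mp (b j).2
    choose m hm hm' using hpre
    -- coordinates
    have hcoord : ∀ x : G, ∃ c : Fin (finrank ℤ I) → ℤ, x ∈ V (d + 1) → φ d x = ∑ j, c j • (b j : E) := by
      intro x
      by_cases hx : x ∈ V (d + 1)
      · let y : I := ⟨φ d x, Submodule.mem_map_of_mem hx⟩
        refine ⟨b.repr y, fun _ => ?_⟩
        have h1 := b.sum_repr y
        have h2 := congrArg (Subtype.val) h1
        have h3 : φ d x = ((y : I) : E) := rfl
        rw [h3, ← h2, Submodule.coe_sum]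
        rfl
      · exact ⟨0, fun h => absurd h hx⟩
    choose c hc using hcoord
    let π : G → G := fun x => x - ∑ j, c x j • m j
    have hsum : ∀ x, ∑ j, c x j • m j ∈ V (d + 1) := fun x =>
      Submodule.sum_mem _ fun j _ => Submodule.smul_mem _ _ (hm j)
    have hφsum : ∀ x, φ d (∑ j, c x j • m j) = ∑ j, c x j • (b j : E) := by
      intro x
      rw [map_sum]
      refine Finset.sum_congr rfl fun j _ => ?_
      rw [map_smul, hm']
    have hπ : ∀ x ∈ V (d + 1), π x ∈ V d := by
      intro x hx
      apply hφ d (by omega) _ (Submodule.sub_mem _ hx (hsum x))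
      rw [map_sub, hφsum, hc x hx, sub_self]
    have hνd : NeZero (ν d) := ⟨(hν d (by omega)).ne'⟩
    refine ⟨α × (Fin (finrank ℤ I) → ZMod (ν d)), inferInstance, fun x => (f (π x), fun j => (c x j : ZMod (ν d))), ?_, ?_⟩
    · rw [Fintype.card_prod, Fintype.card_fun, ZMod.card, Fintype.card_fin, Finset.prod_range_succ]
      exact Nat.mul_le_mul hcard (Nat.pow_le_pow_right (hν d (by omega)) hrank)
    · intro x hx y hy hxy
      rw [Prod.mk.injEq] at hxy
      obtain ⟨h1, h2⟩ := hxy
      have h3 : ∀ j, ∃ t : ℤ, c x j - c y j = ν d * t := by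
        intro j
        have h4 := congrFun h2 j
        rw [← sub_eq_zero, ← Int.cast_sub, ZMod.intCast_zmod_eq_zero_iff_dvd] at h4
        exact h4
      choose t ht using h3
      have hdiff : x - y = (π x - π y) + (ν d) • ∑ j, t j • m j := by
        have h4 : ∑ j, c x j • m j - ∑ j, c y j • m j = (ν d) • ∑ j, t j • m j := by
          rw [← Finset.sum_sub_distrib, Finset.smul_sum]
          refine Finset.sum_congr rfl fun j _ => ?_
          rw [← sub_smul, ht j, mul_smul]
          simp
        rw [← h4]
        simp only [π]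
        abel
      have hz : ∑ j, t j • m j ∈ V (d + 1) := Submodule.sum_mem _ fun j _ => Submodule.smul_mem _ _ (hm j)
      have hxyV : x - y ∈ V (d + 1) := Submodule.sub_mem _ hx hy
      -- if `x - y ∈ V d` then the coordinates agree
      have hcoo : x - y ∈ V d → x - y = π x - π y := by
        intro hV
        have h4 := hφ' d (by omega) _ hV
        rw [map_sub, hc x hx, hc y hy, ← Finset.sum_sub_distrib] at h4
        simp_rw [← sub_smul] at h4
        have h5 : ∑ j, (c x j - c y j) • b j = 0 := by
          apply Subtype.ext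
          rw [Submodule.coe_zero, ← h4]
          simp
        have h6 := Fintype.linearIndependent_iff.mp b.linearIndependent _ h5
        have h7 : c x = c y := by
          funext j; exact sub_eq_zero.mp (h6 j)
        simp only [π]
        rw [h7]
        abel
      rcases hf (π x) (hπ x hx) (π y) (hπ y hy) h1 with h4 | ⟨i, hi, h5, h6, z, hz', h7⟩
      · rw [h4, sub_self, zero_add] at hdiff
        by_cases hV : x - y ∈ V d
        · left
          have h5 := hcoo hV
          rw [h4, sub_self] at h5
          exact sub_eq_zero.mp h5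
        · right
          exact ⟨d, by omega, hxyV, hV, _, hz, hdiff⟩
      · right
        by_cases hV : x - y ∈ V d
        · have h8 := hcoo hV
          refine ⟨i, by omega, ?_, ?_, z, hz', ?_⟩
          · rw [h8]; exact h5
          · rw [h8]; exact h6
          · rw [h8]; exact h7
        · obtain ⟨e, he⟩ := hdiv d (by omega) i hi
          refine ⟨d, by omega, hxyV, hV, e • z + ∑ j, t j • m j, ?_, ?_⟩
          · refine Submodule.add_mem _ ?_ hz
            have hmono' : ∀ j, i + 1 + j ≤ d + 1 → V (i + 1) ≤ V (i + 1 + j) := by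
              intro j
              induction j with
              | zero => intro _; exact le_rfl
              | succ j ihj => intro hj; exact (ihj (by omega)).trans (hmono _ (by omega))
            have h8 := hmono' (d - i) (by omega)
            have h9 : i + 1 + (d - i) = d + 1 := by omega
            rw [h9] at h8
            exact nsmul_mem (h8 hz') e
          · rw [hdiff, h7, he, mul_smul, smul_add]

end

end Pool.Agent.Helper52.Vojta
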