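import Mathlib
import Pool.Agent.Helper52.Vojta.Code

/-!
Counting integral vectors in a symmetric set by successive minima over a number field.
-/

namespace Pool.Agent.Helper52.Vojta

open NumberField Finset Module

set_option linter.unusedSectionVars false

section

variable {k : Type*} [Field k] [NumberField k] {m : ℕ}

/-- integral vectors as vectors over the field -/
def cz (x : Fin m → 𝓞 k) : Fin m → k := fun c => (x c : k)

/-- the same as a linear map -/
def czl (k : Type*) [Field k] [NumberField k] (m : ℕ) : (Fin m → 𝓞 k) →ₗ[ℤ] (Fin m → k) where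
  toFun := cz
  map_add' x y := by funext c; simp [cz]
  map_smul' a x := by funext c; simp [cz]

theorem czl_apply (x : Fin m → 𝓞 k) : czl k m x = cz x := rfl

theorem cz_zero : cz (0 : Fin m → 𝓞 k) = 0 := map_zero (czl k m)

theorem cz_injective : Function.Injective (cz : (Fin m → 𝓞 k) → (Fin m → k)) := by
  intro x y h
  funext c
  exact RingOfIntegers.coe_injective (congrFun h c)

/-- span of the first `j` vectors -/
def spn (P : ℕ → Fin m → 𝓞 k) (j : ℕ) : Submodule k (Fin m → k) :=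
  Submodule.span k ((fun i => cz (P i)) '' {i | i < j})

theorem spn_congr {P P' : ℕ → Fin m → 𝓞 k} {j : ℕ} (h : ∀ i < j, P i = P' i) : spn P j = spn P' j := by
  unfold spn
  congr 1
  apply Set.image_congr
  intro i hi
  rw [h i hi]

theorem spn_eq_range (P : ℕ → Fin m → 𝓞 k) (j : ℕ) :
    spn P j = Submodule.span k (Set.range fun i : Fin j => cz (P i)) := by
  unfold spn
  congr 1
  ext x
  constructor
  · rintro ⟨i, hi, rfl⟩
    exact ⟨⟨i, hi⟩, rfl⟩
  · rintro ⟨i, rfl⟩
    exact ⟨i, i.2, rfl⟩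

theorem spn_mono (P : ℕ → Fin m → 𝓞 k) {j j' : ℕ} (h : j ≤ j') : spn P j ≤ spn P j' :=
  Submodule.span_mono (Set.image_mono fun _ hi => lt_of_lt_of_le hi h)

theorem greedy (Y : Finset (Fin m → 𝓞 k)) (N : (Fin m → 𝓞 k) → ℝ) (i : ℕ)
    (hi : i ≤ finrank k (Submodule.span k ((fun x => cz x) '' (Y : Set (Fin m → 𝓞 k))))) :
    ∃ P : ℕ → (Fin m → 𝓞 k), LinearIndependent k (fun j : Fin i => cz (P j)) ∧
      ∀ j < i, P j ∈ Y ∧ cz (P j) ∉ spn P j ∧ ∀ x ∈ Y, N x < N (P j) → cz x ∈ spn P j := by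
  classical
  induction i with
  | zero => exact ⟨fun _ => 0, linearIndependent_empty_type, fun j hj => absurd hj (by omega)⟩
  | succ i ih =>
    obtain ⟨P, hP, hP'⟩ := ih (by omega)
    have h1 : finrank k (spn P i) ≤ i := by
      rw [spn_eq_range]
      have h0 := finrank_range_le_card (R := k) (fun j : Fin i => cz (P j))
      rw [Fintype.card_fin] at h0
      exact h0
    have h2 : ∃ y ∈ Y, cz y ∉ spn P i := by
      by_contra hcon
      push Not at hcon
      have h3 : Submodule.span k ((fun x => cz x) '' (Y : Set (Fin m → 𝓞 k))) ≤ spn P i := by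
        rw [Submodule.span_le]
        rintro _ ⟨y, hy, rfl⟩
        exact hcon y hy
      have h4 := Submodule.finrank_mono h3
      omega
    obtain ⟨y0, hy0, hy0'⟩ := h2
    obtain ⟨x, hx, hxmin⟩ := Finset.exists_min_image (Y.filter fun y => cz y ∉ spn P i) N
      ⟨y0, Finset.mem_filter.mpr ⟨hy0, hy0'⟩⟩
    rw [Finset.mem_filter] at hx
    have hagree : ∀ j < i, Function.update P i x j = P j := fun j hj => by
      rw [Function.update_of_ne (by omega)]
    refine ⟨Function.update P i x, ?_, ?_⟩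
    · have h5 : (fun j : Fin (i + 1) => cz (Function.update P i x j))
          = Fin.snoc (fun j : Fin i => cz (P j)) (cz x) := by
        funext j
        refine Fin.lastCases ?_ (fun j => ?_) j
        · rw [Fin.snoc_last]; simp
        · rw [Fin.snoc_castSucc]
          simp only [Fin.val_castSucc]
          rw [hagree j j.2]
      rw [h5, linearIndependent_finSnoc]
      refine ⟨hP, ?_⟩
      rw [← spn_eq_range]
      exact hx.2
    · intro j hj
      have hspn : spn (Function.update P i x) j = spn P j :=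
        spn_congr fun i' hi' => hagree i' (by omega)
      rw [hspn]
      rcases Nat.lt_succ_iff_lt_or_eq.mp hj with h | h
      · rw [hagree j h]
        exact hP' j h
      · subst h
        rw [Function.update_self]
        refine ⟨hx.1, hx.2, fun z hz hlt => ?_⟩
        by_contra hcon
        have := hxmin z (Finset.mem_filter.mpr ⟨hz, hcon⟩)
        linarith

theorem minima (Λ : Submodule ℤ (Fin m → 𝓞 k)) (N : (Fin m → 𝓞 k) → ℝ)
    (h1 : ∀ x ∈ Λ, ∀ y ∈ Λ, N (x - y) ≤ N x + N y) (h2 : ∀ (n : ℕ), ∀ z ∈ Λ, n * N z ≤ N (n • z))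
    (h3 : ∀ x ∈ Λ, x ≠ 0 → 0 < N x) (Y : Finset (Fin m → 𝓞 k)) (hY : ∀ x, x ∈ Y ↔ x ∈ Λ ∧ N x ≤ 1) :
    ∃ (d : ℕ) (P : Fin d → (Fin m → 𝓞 k)), LinearIndependent k (fun j => cz (P j)) ∧ (∀ j, P j ∈ Y) ∧
      (∀ x ∈ Y, cz x ∈ Submodule.span k (Set.range fun j => cz (P j))) ∧
      (Y.card : ℝ) ≤ ∏ j, (4 / N (P j)) ^ finrank ℚ k := by
  classical
  set d := finrank k (Submodule.span k ((fun x => cz x) '' (Y : Set (Fin m → 𝓞 k)))) with hd
  obtain ⟨P, hP, hP'⟩ := greedy Y N d le_rfl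
  have hspan : ∀ x ∈ Y, cz x ∈ spn P d := by
    have h4 : spn P d ≤ Submodule.span k ((fun x => cz x) '' (Y : Set (Fin m → 𝓞 k))) := by
      unfold spn
      rw [Submodule.span_le]
      rintro _ ⟨i, hi, rfl⟩
      exact Submodule.subset_span ⟨P i, (hP' i hi).1, rfl⟩
    have h5 : finrank k (spn P d) = d := by
      rw [spn_eq_range, finrank_span_eq_card hP, Fintype.card_fin]
    have h6 := Submodule.eq_of_le_of_finrank_le h4 (by rw [h5])
    intro x hx
    rw [h6]
    exact Submodule.subset_span ⟨x, hx, rfl⟩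
  have hPne : ∀ j < d, P j ≠ 0 := by
    intro j hj h
    apply (hP' j hj).2.1
    rw [h, cz_zero]
    exact Submodule.zero_mem _
  have hPΛ : ∀ j < d, P j ∈ Λ ∧ N (P j) ≤ 1 := fun j hj => (hY _).mp (hP' j hj).1
  have hPpos : ∀ j < d, 0 < N (P j) := fun j hj => h3 _ (hPΛ j hj).1 (hPne j hj)
  have hmono : ∀ i < d, ∀ j < i, N (P j) ≤ N (P i) := by
    intro i hi j hj
    by_contra hcon
    push Not at hcon
    have := (hP' j (by omega)).2.2 (P i) (hP' i hi).1 hcon
    exact (hP' i hi).2.1 (spn_mono P hj.le this)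
  refine ⟨d, fun j => P j, hP, fun j => (hP' j j.2).1, fun x hx => ?_, ?_⟩
  · have := hspan x hx
    rwa [spn_eq_range] at this
  -- the moduli
  let e : ℕ → ℕ := fun j => sInf {e : ℕ | 2 / N (P j) < 2 ^ e}
  have hene : ∀ j, {e : ℕ | 2 / N (P j) < (2 : ℝ) ^ e}.Nonempty := fun j => by
    obtain ⟨n, hn⟩ := pow_unbounded_of_one_lt (2 / N (P j)) (one_lt_two (α := ℝ))
    exact ⟨n, hn⟩
  have he1 : ∀ j, 2 / N (P j) < (2 : ℝ) ^ e j := fun j => Nat.sInf_mem (hene j)
  have he2 : ∀ j < d, (2 : ℝ) ^ e j ≤ 4 / N (P j) := by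
    intro j hj
    have h4 := hPpos j hj
    have h5 := (hPΛ j hj).2
    rcases Nat.eq_zero_or_pos (e j) with h6 | h6
    · rw [h6, pow_zero, le_div_iff₀ h4]; linarith
    · have h7 : e j - 1 ∉ {e : ℕ | 2 / N (P j) < (2 : ℝ) ^ e} := Nat.notMem_of_lt_sInf (by
        change e j - 1 < e j
        omega)
      rw [Set.mem_ofPred_eq, not_lt] at h7
      have h8 : (2 : ℝ) ^ e j = 2 * 2 ^ (e j - 1) := by
        rw [← pow_succ']; congr 1; omega
      rw [h8]
      calc 2 * (2 : ℝ) ^ (e j - 1) ≤ 2 * (2 / N (P j)) := by linarith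
        _ = 4 / N (P j) := by ring
  have he3 : ∀ i < d, ∀ j < i, e i ≤ e j := by
    intro i hi j hj
    apply Nat.sInf_le
    change 2 / N (P i) < (2 : ℝ) ^ e j
    refine lt_of_le_of_lt ?_ (he1 j)
    exact div_le_div_of_nonneg_left (by norm_num) (hPpos j (by omega)) (hmono i hi j hj)
  -- the flag
  let V : ℕ → Submodule ℤ (Fin m → 𝓞 k) := fun j => Λ ⊓ ((spn P j).restrictScalars ℤ).comap (czl k m)
  have hVmem : ∀ j x, x ∈ V j ↔ x ∈ Λ ∧ cz x ∈ spn P j := fun j x => Iff.rfl
  have hφex : ∀ j, ∃ f : (Fin m → k) →ₗ[k] k, j < d → f (cz (P j)) ≠ 0 ∧ spn P j ≤ LinearMap.ker f := by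
    intro j
    by_cases hj : j < d
    · obtain ⟨f, hf1, hf2⟩ := Submodule.exists_le_ker_of_notMem (hP' j hj).2.1
      exact ⟨f, fun _ => ⟨hf1, hf2⟩⟩
    · exact ⟨0, fun h => absurd h hj⟩
  choose F hF using hφex
  let φ : ℕ → (Fin m → 𝓞 k) →ₗ[ℤ] k := fun j => ((F j).restrictScalars ℤ) ∘ₗ (czl k m)
  have hsucc : ∀ j, spn P (j + 1) = spn P j ⊔ Submodule.span k {cz (P j)} := by
    intro j
    unfold spn
    rw [← Submodule.span_union]
    congr 1
    ext x
    simp only [Set.mem_image, Set.mem_ofPred_eq, Set.mem_union, Set.mem_singleton_iff]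
    constructor
    · rintro ⟨i, hi, rfl⟩
      rcases Nat.lt_succ_iff_lt_or_eq.mp hi with h | h
      · exact Or.inl ⟨i, h, rfl⟩
      · exact Or.inr (by rw [h])
    · rintro (⟨i, hi, rfl⟩ | rfl)
      · exact ⟨i, by omega, rfl⟩
      · exact ⟨j, by omega, rfl⟩
  obtain ⟨α, hα, f, hcard, hf⟩ := exists_code (G := Fin m → 𝓞 k) (E := k) d V (by
      rw [Submodule.eq_bot_iff]
      intro x hx
      rw [hVmem] at hx
      have h4 : spn P 0 = ⊥ := by unfold spn; simp
      rw [h4, Submodule.mem_bot] at hx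
      apply cz_injective
      rw [hx.2, cz_zero])
    (by
      intro i _ x hx
      rw [hVmem] at hx ⊢
      exact ⟨hx.1, spn_mono P (by omega) hx.2⟩)
    φ
    (by
      intro i hi x hx hφx
      rw [hVmem] at hx ⊢
      refine ⟨hx.1, ?_⟩
      have h4 := hx.2
      rw [hsucc, Submodule.mem_sup] at h4
      obtain ⟨y, hy, z, hz, hyz⟩ := h4
      obtain ⟨t, rfl⟩ := Submodule.mem_span_singleton.mp hz
      have h5 : F i (cz x) = 0 := hφx
      rw [← hyz, map_add, map_smul, (LinearMap.mem_ker.mp ((hF i hi).2 hy)), zero_add, smul_eq_mul,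
        mul_eq_zero] at h5
      rcases h5 with h5 | h5
      · rw [← hyz, h5, zero_smul, add_zero]; exact hy
      · exact absurd h5 (hF i hi).1)
    (by
      intro i hi x hx
      rw [hVmem] at hx
      exact LinearMap.mem_ker.mp ((hF i hi).2 hx.2))
    (fun j => 2 ^ e j) (fun i _ => pow_pos (by norm_num) _)
    (fun i hi j hj => pow_dvd_pow 2 (he3 i hi j hj))
  have hinj : Set.InjOn f (Y : Set (Fin m → 𝓞 k)) := by
    intro x hx y hy hxy
    have hx' := (hY x).mp hx
    have hy' := (hY y).mp hy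
    rcases hf x ((hVmem d x).mpr ⟨hx'.1, hspan x hx⟩) y ((hVmem d y).mpr ⟨hy'.1, hspan y hy⟩) hxy with h | ⟨i, hi, _, h6, z, hz, h7⟩
    · exact h
    · exfalso
      apply h6
      have hzΛ := ((hVmem _ z).mp hz).1
      have h8 := h1 x hx'.1 y hy'.1
      rw [h7] at h8
      have h9 := h2 (2 ^ e i) z hzΛ
      have h10 : N z < N (P i) := by
        have h11 := he1 i
        rw [div_lt_iff₀ (hPpos i hi)] at h11
        push_cast at h9
        have h12 : (2 : ℝ) ^ e i * N z < 2 ^ e i * N (P i) := by linarith [hx'.2, hy'.2]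
        exact lt_of_mul_lt_mul_left h12 (by positivity)
      have h11 : z ∈ Y := (hY z).mpr ⟨hzΛ, h10.le.trans (hPΛ i hi).2⟩
      have h12 := (hP' i hi).2.2 z h11 h10
      rw [h7]
      exact nsmul_mem ((hVmem i z).mpr ⟨hzΛ, h12⟩) _
  have hcard2 : Y.card ≤ Fintype.card α := by
    rw [← Finset.card_image_of_injOn hinj]
    exact Finset.card_le_univ _
  calc (Y.card : ℝ) ≤ (Fintype.card α : ℝ) := by exact_mod_cast hcard2
    _ ≤ ((∏ i ∈ range d, (2 ^ e i) ^ finrank ℚ k : ℕ) : ℝ) := by exact_mod_cast hcard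
    _ = ∏ j : Fin d, ((2 : ℝ) ^ e j) ^ finrank ℚ k := by
        push_cast
        exact (Fin.prod_univ_eq_prod_range (fun i => ((2 : ℝ) ^ e i) ^ finrank ℚ k) d).symm
    _ ≤ _ := Finset.prod_le_prod (fun _ _ => by positivity) fun j _ =>
        pow_le_pow_left₀ (by positivity) (he2 j j.2) _

end

end Pool.Agent.Helper52.Vojta
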