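import Mathlib
import Pool.Agent.Helper52.Vojta.Minima
import Pool.Agent.Helper52.Vojta.NormLocal

/-!
Counting integral vectors over `k` with bounds for linear forms over an extension `K`, in terms of
minors of a suitable system of vectors.
-/

namespace Pool.Agent.Helper52.Vojta

open NumberField Finset Module Pool.Agent.Helper64.Vojta

universe u v

set_option linter.unusedSectionVars false
set_option linter.unusedVariables false

section det

variable {K : Type*} [Field K] [NumberField K] {d : ℕ}

theorem det_le_inl (w : InfinitePlace K) (M : Matrix (Fin d) (Fin d) K) (s t : Fin d → ℝ)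
    (hs : ∀ a, 0 ≤ s a) (ht : ∀ b, 0 ≤ t b) (h : ∀ a b, w (M a b) ≤ s a * t b) :
    w M.det ≤ d.factorial * ((∏ a, s a) * ∏ b, t b) := by
  rw [Matrix.det_apply]
  have h1 : ∀ σ : Equiv.Perm (Fin d), w (Equiv.Perm.sign σ • ∏ i, M (σ i) i) ≤ (∏ a, s a) * ∏ b, t b := by
    intro σ
    have h2 : w (Equiv.Perm.sign σ • ∏ i, M (σ i) i) = w (∏ i, M (σ i) i) := by
      rcases Int.units_eq_one_or (Equiv.Perm.sign σ) with h | h
      · rw [h, one_smul]
      · rw [h, Units.neg_smul, one_smul]
        exact w.1.map_neg _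
    rw [h2, map_prod, ← Equiv.prod_comp σ s, ← Finset.prod_mul_distrib]
    exact Finset.prod_le_prod (fun _ _ => apply_nonneg w _) fun i _ => h _ _
  have h3 : ∀ (T : Finset (Equiv.Perm (Fin d))), w (∑ σ ∈ T, Equiv.Perm.sign σ • ∏ i, M (σ i) i)
      ≤ T.card * ((∏ a, s a) * ∏ b, t b) := by
    classical
    intro T
    induction T using Finset.induction_on with
    | empty => simp
    | insert a T ha ih =>
      rw [Finset.sum_insert ha, Finset.card_insert_of_notMem ha]
      push_cast
      calc _ ≤ _ := w.1.add_le _ _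
        _ ≤ (∏ a, s a) * ∏ b, t b + T.card * ((∏ a, s a) * ∏ b, t b) := add_le_add (h1 a) ih
        _ = _ := by ring
  refine (h3 Finset.univ).trans (le_of_eq ?_)
  rw [Finset.card_univ, Fintype.card_perm, Fintype.card_fin]

theorem det_le_inr (w : FinitePlace K) (M : Matrix (Fin d) (Fin d) K) (s : Fin d → ℝ)
    (hs : ∀ a, 0 ≤ s a) (h : ∀ a b, nv (.inr w) (M a b) ≤ s a) :
    nv (.inr w) M.det ≤ ∏ a, s a := by
  rw [Matrix.det_apply]
  refine nv_sum_le_inr w _ _ _ (Finset.prod_nonneg fun a _ => hs a) fun σ _ => ?_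
  have h2 : nv (.inr w) (Equiv.Perm.sign σ • ∏ i, M (σ i) i) = nv (.inr w) (∏ i, M (σ i) i) := by
    rcases Int.units_eq_one_or (Equiv.Perm.sign σ) with h | h
    · rw [h, one_smul]
    · rw [h, Units.neg_smul, one_smul]
      change w _ = w _
      exact w.1.map_neg _
  rw [h2]
  change w (∏ i, M (σ i) i) ≤ _
  rw [map_prod, ← Equiv.prod_comp σ s]
  exact Finset.prod_le_prod (fun _ _ => apply_nonneg w _) fun i _ => h _ _

end det

section

variable {k : Type u} [Field k] [NumberField k] {K : Type v} [Field K] [NumberField K] [Algebra k K] {m : ℕ}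

/-- value of a form over `K` at an integral vector over `k` -/
def vl (e : Fin m → K) (x : Fin m → 𝓞 k) : K := ∑ c, e c * algebraMap k K (x c : k)

theorem vl_add (e : Fin m → K) (x y : Fin m → 𝓞 k) : vl e (x + y) = vl e x + vl e y := by
  unfold vl
  rw [← Finset.sum_add_distrib]
  refine Finset.sum_congr rfl fun c _ => ?_
  have h : (((x + y) c : 𝓞 k) : k) = (x c : k) + (y c : k) := rfl
  rw [← mul_add, h, map_add (algebraMap k K)]

theorem vl_neg (e : Fin m → K) (x : Fin m → 𝓞 k) : vl e (-x) = - vl e x := by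
  unfold vl
  rw [← Finset.sum_neg_distrib]
  refine Finset.sum_congr rfl fun c _ => ?_
  have h : (((-x) c : 𝓞 k) : k) = -(x c : k) := rfl
  rw [h, map_neg]
  ring

theorem vl_sub (e : Fin m → K) (x y : Fin m → 𝓞 k) : vl e (x - y) = vl e x - vl e y := by
  rw [sub_eq_add_neg, vl_add, vl_neg, sub_eq_add_neg]

theorem vl_zero (e : Fin m → K) : vl e (0 : Fin m → 𝓞 k) = 0 := by
  simp [vl]

theorem vl_nsmul (e : Fin m → K) (n : ℕ) (x : Fin m → 𝓞 k) : vl e (n • x) = n * vl e x := by
  unfold vl
  rw [Finset.mul_sum]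
  refine Finset.sum_congr rfl fun c _ => ?_
  have h : (((n • x) c : 𝓞 k) : k) = n * (x c : k) := by
    rw [Pi.smul_apply, nsmul_eq_mul]
    push_cast
    rfl
  rw [h, map_mul, map_natCast]
  ring

theorem vl_single [DecidableEq (Fin m)] (c : Fin m) (x : Fin m → 𝓞 k) :
    vl (Pi.single c (1 : K)) x = algebraMap k K (x c : k) := by
  unfold vl
  rw [Finset.sum_eq_single c]
  · simp
  · intro b _ hb
    rw [Pi.single_eq_of_ne hb, zero_mul]
  · intro h; exact absurd (Finset.mem_univ c) h

/-- integral vectors satisfying the conditions at the finite places -/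
def latt {ι : Type*} (e : ι → Fin m → K) (S : Finset (Pl K)) (β : ι → Pl K → ℝ) : AddSubgroup (Fin m → 𝓞 k) where
  carrier := {x | ∀ i, ∀ w : FinitePlace K, Sum.inr w ∈ S → nv (.inr w) (vl (e i) x) ≤ Real.exp (β i (.inr w))}
  add_mem' := by
    intro x y hx hy i w hw
    rw [vl_add]
    exact (FinitePlace.add_le w _ _).trans (max_le (hx i w hw) (hy i w hw))
  zero_mem' := by
    intro i w _
    rw [vl_zero, nv_zero]
    exact (Real.exp_pos _).le
  neg_mem' := by
    intro x hx i w hw
    rw [vl_neg]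
    have h1 : nv (.inr w) (-(vl (e i) x)) = nv (.inr w) (vl (e i) x) := w.1.map_neg _
    rw [h1]
    exact hx i w hw

theorem mem_latt {ι : Type*} (e : ι → Fin m → K) (S : Finset (Pl K)) (β : ι → Pl K → ℝ) (x : Fin m → 𝓞 k) :
    x ∈ latt e S β ↔ ∀ i, ∀ w : FinitePlace K, Sum.inr w ∈ S → nv (.inr w) (vl (e i) x) ≤ Real.exp (β i (.inr w)) :=
  Iff.rfl

/-- the size of a vector at the infinite places -/
noncomputable def size {ι : Type*} (e : ι → Fin m → K) (β : ι → Pl K → ℝ) (x : Fin m → 𝓞 k) : ℝ :=
  ⨆ p : ι × InfinitePlace K, p.2 (vl (e p.1) x) * Real.exp (-(β p.1 (.inl p.2)) / p.2.mult)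

theorem le_size {ι : Type*} [Finite ι] (e : ι → Fin m → K) (β : ι → Pl K → ℝ) (x : Fin m → 𝓞 k) (i : ι)
    (w : InfinitePlace K) : w (vl (e i) x) ≤ Real.exp (β i (.inl w) / w.mult) * size e β x := by
  have h := le_ciSup (f := fun p : ι × InfinitePlace K => p.2 (vl (e p.1) x) * Real.exp (-(β p.1 (.inl p.2)) / p.2.mult))
    (Set.finite_range _).bddAbove (i, w)
  have h2 : w (vl (e i) x) * Real.exp (-(β i (.inl w)) / w.mult) ≤ size e β x := h
  have h3 : Real.exp (β i (.inl w) / w.mult) * Real.exp (-(β i (.inl w)) / w.mult) = 1 := by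
    rw [← Real.exp_add, neg_div, add_neg_cancel, Real.exp_zero]
  calc w (vl (e i) x) = Real.exp (β i (.inl w) / w.mult) * (w (vl (e i) x) * Real.exp (-(β i (.inl w)) / w.mult)) := by
        rw [mul_left_comm, h3, mul_one]
    _ ≤ _ := mul_le_mul_of_nonneg_left h2 (Real.exp_pos _).le

open scoped Classical in
/-- The counting lemma. -/
theorem star {ι : Type*} [Fintype ι] (hm : 0 < m) (e : ι → Fin m → K) (κ : Fin m → ι)
    (hκ : ∀ c, e (κ c) = Pi.single c 1) (S : Finset (Pl K)) (hS : ∀ v : InfinitePlace K, Sum.inl v ∈ S)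
    (β : ι → Pl K → ℝ) (X : Finset (Fin m → 𝓞 k))
    (hX : ∀ x ∈ X, ∀ i, ∀ v ∈ S, nv v (vl (e i) x) ≤ Real.exp (β i v)) :
    ∃ (d : ℕ) (P : Fin d → (Fin m → 𝓞 k)), LinearIndependent k (fun j => cz (P j)) ∧
      (∀ x ∈ X, cz x ∈ Submodule.span k (Set.range fun j => cz (P j))) ∧
      ∀ A : Pl K → Fin d → ι, (∀ v ∈ S, (Matrix.of fun a b => vl (e (A v a)) (P b)).det ≠ 0) →
        (X.card : ℝ) ≤ Real.exp (finrank ℚ k * (m * Real.log 4) + finrank ℚ k * Real.log m.factorial
          + (∑ v ∈ S, (∑ a, β (A v a) v - Real.log (nv v (Matrix.of fun a b => vl (e (A v a)) (P b)).det)))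
            / finrank k K) := by
  have hne : Nonempty (ι × InfinitePlace K) := ⟨(κ ⟨0, hm⟩, Classical.arbitrary _)⟩
  have hmult : ∀ v : InfinitePlace K, (0 : ℝ) < v.mult := fun v => by exact_mod_cast v.mult_pos
  set Λ := AddSubgroup.toIntSubmodule (latt (k := k) e S β) with hΛ
  have hΛmem : ∀ x, x ∈ Λ ↔ x ∈ latt (k := k) e S β := fun x => Iff.rfl
  have hbdd : ∀ x : Fin m → 𝓞 k, BddAbove (Set.range fun p : ι × InfinitePlace K =>
      p.2 (vl (e p.1) x) * Real.exp (-(β p.1 (.inl p.2)) / p.2.mult)) := fun x => (Set.finite_range _).bddAbove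
  -- finiteness
  have hfin : {x : Fin m → 𝓞 k | x ∈ Λ ∧ size e β x ≤ 1}.Finite := by
    set B : ℝ := ∑ p : ι × InfinitePlace K, Real.exp (β p.1 (.inl p.2) / p.2.mult) with hB
    have h1 := Embeddings.finite_of_norm_le K ℂ B
    let F : (Fin m → 𝓞 k) → (Fin m → K) := fun x c => algebraMap k K (x c : k)
    have hF : Function.Injective F := by
      intro x y h
      funext c
      exact RingOfIntegers.coe_injective ((algebraMap k K).injective (congrFun h c))
    refine Set.Finite.of_finite_image (f := F) ?_ hF.injOn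
    refine (Set.Finite.pi (t := fun _ : Fin m => {x : K | IsIntegral ℤ x ∧ ∀ φ : K →+* ℂ, ‖φ x‖ ≤ B}) (fun _ => h1)).subset ?_
    rintro _ ⟨x, hx, rfl⟩
    rw [Set.mem_univ_pi]
    intro c
    refine ⟨?_, fun φ => ?_⟩
    · exact ((x c).isIntegral_coe).map ((Algebra.ofId k K).restrictScalars ℤ)
    · have h2 := le_size e β x (κ c) (InfinitePlace.mk φ)
      rw [hκ c, vl_single, InfinitePlace.apply] at h2
      refine h2.trans ?_
      have h3 := mul_le_mul_of_nonneg_left hx.2 (Real.exp_pos (β (κ c) (.inl (InfinitePlace.mk φ)) / (InfinitePlace.mk φ).mult)).le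
      rw [mul_one] at h3
      refine h3.trans ?_
      exact Finset.single_le_sum (f := fun p : ι × InfinitePlace K => Real.exp (β p.1 (.inl p.2) / p.2.mult))
        (fun _ _ => (Real.exp_pos _).le) (Finset.mem_univ (κ c, InfinitePlace.mk φ))
  obtain ⟨d, P, hP, hPY, hPspan, hcard⟩ := minima Λ (size e β)
    (by
      intro x _ y _
      apply ciSup_le
      rintro ⟨i, w⟩
      have h1 := le_ciSup (hbdd x) (i, w)
      have h2 := le_ciSup (hbdd y) (i, w)
      have h3 : w (vl (e i) x - vl (e i) y) ≤ w (vl (e i) x) + w (vl (e i) y) := by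
        have := w.1.add_le (vl (e i) x) (-(vl (e i) y))
        rw [w.1.map_neg, ← sub_eq_add_neg] at this
        exact this
      simp only at h1 h2 ⊢
      rw [vl_sub]
      calc _ ≤ (w (vl (e i) x) + w (vl (e i) y)) * Real.exp (-(β i (.inl w)) / w.mult) :=
            mul_le_mul_of_nonneg_right h3 (Real.exp_pos _).le
        _ = w (vl (e i) x) * Real.exp (-(β i (.inl w)) / w.mult)
            + w (vl (e i) y) * Real.exp (-(β i (.inl w)) / w.mult) := by ring
        _ ≤ _ := add_le_add h1 h2)
    (by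
      intro n z _
      unfold size
      rw [Real.mul_iSup_of_nonneg (Nat.cast_nonneg n)]
      apply ciSup_mono (hbdd (n • z))
      rintro ⟨i, w⟩
      simp only
      rw [vl_nsmul, map_mul]
      have h1 : w (n : K) = n := by
        rw [← InfinitePlace.norm_embedding_eq, map_natCast, Complex.norm_natCast]
      rw [h1, mul_assoc])
    (by
      intro x _ hx0
      obtain ⟨c, hc⟩ := Function.ne_iff.mp hx0
      have hc' : algebraMap k K (x c : k) ≠ 0 := by
        rw [Ne, map_eq_zero]
        exact fun h => hc (RingOfIntegers.coe_injective h)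
      let w : InfinitePlace K := Classical.arbitrary _
      have h1 := le_size e β x (κ c) w
      rw [hκ c, vl_single] at h1
      have h2 : 0 < w (algebraMap k K (x c : k)) := InfinitePlace.pos_iff.mpr hc'
      exact (mul_pos_iff_of_pos_left (Real.exp_pos _)).mp (h2.trans_le h1))
    hfin.toFinset (by intro x; rw [Set.Finite.mem_toFinset]; rfl)
  have hXY : X ⊆ hfin.toFinset := by
    intro x hx
    rw [Set.Finite.mem_toFinset]
    refine ⟨fun i w hw => hX x hx i _ hw, ?_⟩
    apply ciSup_le
    rintro ⟨i, w⟩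
    have h1 := hX x hx i (.inl w) (hS w)
    change w (vl (e i) x) ^ w.mult ≤ _ at h1
    have h2 : w (vl (e i) x) ≤ Real.exp (β i (.inl w) / w.mult) := by
      refine le_of_pow_le_pow_left₀ (n := w.mult) w.mult_ne_zero (Real.exp_pos _).le ?_
      rw [← Real.exp_nat_mul]
      have : (w.mult : ℝ) * (β i (.inl w) / w.mult) = β i (.inl w) := by
        have := (hmult w).ne'
        field_simp
      rw [this]
      exact h1
    simp only
    calc _ ≤ Real.exp (β i (.inl w) / w.mult) * Real.exp (-(β i (.inl w)) / w.mult) :=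
          mul_le_mul_of_nonneg_right h2 (Real.exp_pos _).le
      _ = 1 := by rw [← Real.exp_add, neg_div, add_neg_cancel, Real.exp_zero]
  refine ⟨d, P, hP, fun x hx => hPspan x (hXY hx), fun A hA => ?_⟩
  have hPY' : ∀ j, P j ∈ Λ ∧ size e β (P j) ≤ 1 := fun j => by
    have := hPY j
    rw [Set.Finite.mem_toFinset] at this
    exact this
  have hPpos : ∀ j, 0 < size e β (P j) := by
    intro j
    have hx0 : P j ≠ 0 := by
      intro h
      have := hP.ne_zero j
      rw [h, cz_zero] at this
      exact this rfl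
    obtain ⟨c, hc⟩ := Function.ne_iff.mp hx0
    have hc' : algebraMap k K (P j c : k) ≠ 0 := by
      rw [Ne, map_eq_zero]
      exact fun h => hc (RingOfIntegers.coe_injective h)
    let w : InfinitePlace K := Classical.arbitrary _
    have h1 := le_size e β (P j) (κ c) w
    rw [hκ c, vl_single] at h1
    have h2 : 0 < w (algebraMap k K (P j c : k)) := InfinitePlace.pos_iff.mpr hc'
    exact (mul_pos_iff_of_pos_left (Real.exp_pos _)).mp (h2.trans_le h1)
  have hdm : d ≤ m := by
    have := hP.fintype_card_le_finrank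
    simpa using this
  set ℓ : ℝ := ∑ j, Real.log (size e β (P j)) with hℓ
  set D : Pl K → K := fun v => (Matrix.of fun a b => vl (e (A v a)) (P b)).det with hD
  have hfacd : Real.log d.factorial ≤ Real.log m.factorial :=
    Real.log_le_log (by positivity) (by exact_mod_cast Nat.factorial_le hdm)
  -- local bounds for the determinants
  have hinf : ∀ v : InfinitePlace K, Real.log (nv (.inl v) (D (.inl v)))
      ≤ v.mult * Real.log m.factorial + ∑ a, β (A (.inl v) a) (.inl v) + v.mult * ℓ := by
    intro v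
    have h1 := det_le_inl v (Matrix.of fun a b => vl (e (A (.inl v) a)) (P b))
      (fun a => Real.exp (β (A (.inl v) a) (.inl v) / v.mult)) (fun b => size e β (P b))
      (fun a => (Real.exp_pos _).le) (fun b => (hPpos b).le) (fun a b => le_size e β (P b) _ v)
    have h2 : 0 < v (D (.inl v)) := InfinitePlace.pos_iff.mpr (hA _ (hS v))
    have h3 := Real.log_le_log h2 h1
    rw [Real.log_mul (by positivity) (mul_pos (Finset.prod_pos fun _ _ => Real.exp_pos _)
        (Finset.prod_pos fun b _ => hPpos b)).ne',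
      Real.log_mul (Finset.prod_pos fun _ _ => Real.exp_pos _).ne' (Finset.prod_pos fun b _ => hPpos b).ne',
      Real.log_prod (fun _ _ => (Real.exp_pos _).ne'), Real.log_prod (fun b _ => (hPpos b).ne')] at h3
    simp only [Real.log_exp] at h3
    rw [← Finset.sum_div] at h3
    change Real.log (v _ ^ v.mult) ≤ _
    rw [Real.log_pow]
    have h4 := mul_le_mul_of_nonneg_left h3 (hmult v).le
    have h5 : (v.mult : ℝ) * (Real.log d.factorial + ((∑ a, β (A (.inl v) a) (.inl v)) / v.mult
        + ∑ j, Real.log (size e β (P j)))) = v.mult * Real.log d.factorial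
        + ∑ a, β (A (.inl v) a) (.inl v) + v.mult * ℓ := by
      have := (hmult v).ne'
      rw [hℓ]
      field_simp
      ring
    have h6 := mul_le_mul_of_nonneg_left hfacd (hmult v).le
    linarith
  have hfinp : ∀ w : FinitePlace K, Sum.inr w ∈ S → Real.log (nv (.inr w) (D (.inr w)))
      ≤ ∑ a, β (A (.inr w) a) (.inr w) := by
    intro w hw
    have h1 := det_le_inr w (Matrix.of fun a b => vl (e (A (.inr w) a)) (P b))
      (fun a => Real.exp (β (A (.inr w) a) (.inr w))) (fun a => (Real.exp_pos _).le)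
      (fun a b => (hPY' b).1 _ w hw)
    have h3 := Real.log_le_log (nv_pos _ (hA _ hw)) h1
    rw [Real.log_prod (fun _ _ => (Real.exp_pos _).ne')] at h3
    simpa only [Real.log_exp] using h3
  have hsum : ∑ v ∈ S, (∑ a, β (A v a) v - Real.log (nv v (D v))) ≥
      -(finrank ℚ K * Real.log m.factorial) - finrank ℚ K * ℓ := by
    rw [← Finset.toLeft_disjSum_toRight (u := S), Finset.sum_disjSum]
    have e1 : S.toLeft = Finset.univ := by
      ext w; simp [hS w]
    rw [e1]
    have h1 : 0 ≤ ∑ w ∈ S.toRight, (∑ a, β (A (.inr w) a) (.inr w) - Real.log (nv (.inr w) (D (.inr w)))) :=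
      Finset.sum_nonneg fun w hw => by
        have := hfinp w (Finset.mem_toRight.mp hw)
        linarith
    have h2 : ∑ v : InfinitePlace K, (-(v.mult * Real.log m.factorial) - v.mult * ℓ)
        ≤ ∑ v : InfinitePlace K, (∑ a, β (A (.inl v) a) (.inl v) - Real.log (nv (.inl v) (D (.inl v)))) :=
      Finset.sum_le_sum fun v _ => by
        have := hinf v
        linarith
    have h3 : ∑ v : InfinitePlace K, (-(v.mult * Real.log m.factorial) - v.mult * ℓ)
        = -(finrank ℚ K * Real.log m.factorial) - finrank ℚ K * ℓ := by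
      have h4 : ∑ v : InfinitePlace K, (v.mult : ℝ) = finrank ℚ K := by
        rw [← InfinitePlace.sum_mult_eq]; push_cast; rfl
      rw [Finset.sum_sub_distrib, Finset.sum_neg_distrib, ← Finset.sum_mul, ← Finset.sum_mul, h4]
    linarith
  have hXcard : (X.card : ℝ) ≤ ∏ j, (4 / size e β (P j)) ^ finrank ℚ k := by
    refine le_trans ?_ hcard
    exact_mod_cast Finset.card_le_card hXY
  refine hXcard.trans ?_
  have h1 : ∏ j, (4 / size e β (P j)) ^ finrank ℚ k
      = Real.exp (finrank ℚ k * (d * Real.log 4) - finrank ℚ k * ℓ) := by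
    rw [Finset.prod_pow, ← Real.rpow_natCast, ← Real.exp_log (Finset.prod_pos fun j _ => div_pos (by norm_num : (0:ℝ) < 4) (hPpos j)),
      ← Real.exp_mul, Real.log_prod (fun j _ => (div_pos (by norm_num : (0:ℝ) < 4) (hPpos j)).ne')]
    congr 1
    have h2 : ∀ j, Real.log (4 / size e β (P j)) = Real.log 4 - Real.log (size e β (P j)) := fun j =>
      Real.log_div (by norm_num) (hPpos j).ne'
    simp_rw [h2]
    rw [Finset.sum_sub_distrib, Finset.sum_const, Finset.card_univ, Fintype.card_fin, nsmul_eq_mul, hℓ]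
    ring
  rw [h1, Real.exp_le_exp]
  have hkK : (finrank ℚ k : ℝ) * finrank k K = finrank ℚ K := by
    exact_mod_cast Module.finrank_mul_finrank ℚ k K
  have hfdk : FiniteDimensional k K := FiniteDimensional.right ℚ k K
  have hkK0 : (0 : ℝ) < finrank k K := by exact_mod_cast finrank_pos
  have h2 : -(finrank ℚ k * Real.log m.factorial) - finrank ℚ k * ℓ
      ≤ (∑ v ∈ S, (∑ a, β (A v a) v - Real.log (nv v (D v)))) / finrank k K := by
    rw [le_div_iff₀ hkK0]
    calc (-(finrank ℚ k * Real.log m.factorial) - finrank ℚ k * ℓ) * finrank k K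
        = -((finrank ℚ k * finrank k K) * Real.log m.factorial) - (finrank ℚ k * finrank k K) * ℓ := by ring
      _ = -(finrank ℚ K * Real.log m.factorial) - finrank ℚ K * ℓ := by rw [hkK]
      _ ≤ _ := hsum
  have h3 : (finrank ℚ k : ℝ) * (d * Real.log 4) ≤ finrank ℚ k * (m * Real.log 4) := by
    have : (d : ℝ) ≤ m := by exact_mod_cast hdm
    have h4 : 0 ≤ Real.log 4 := Real.log_nonneg (by norm_num)
    exact mul_le_mul_of_nonneg_left (mul_le_mul_of_nonneg_right this h4) (Nat.cast_nonneg _)
  linarith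

end

end Pool.Agent.Helper52.Vojta
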