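import Mathlib
import Pool.Agent.Helper52.Vojta.Star
import Pool.Agent.Helper52.Vojta.Forms
import Pool.Agent.Helper52.Vojta.Pack

/-!
Auxiliary facts for the case distinction according to the dimension of the span.
-/

namespace Pool.Agent.Helper52.Vojta

open NumberField Finset Module Polynomial Pool.Agent.Helper64.Vojta

universe u v

set_option linter.unusedSectionVars false
set_option linter.unusedVariables false

section minor

theorem exists_minor {k : Type*} [Field k] {d m : ℕ} (P : Fin d → Fin m → k) (hP : LinearIndependent k P) :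
    ∃ c : Fin d → Fin m, (Matrix.of fun a b => P b (c a)).det ≠ 0 := by
  let M : Matrix (Fin d) (Fin m) k := Matrix.of P
  have h1 : M.rank = d := by
    have : LinearIndependent k M.row := hP
    rw [this.rank_matrix, Fintype.card_fin]
  have h2 : (M.transpose).rank = d := by rw [Matrix.rank_transpose, h1]
  rw [Matrix.rank_eq_finrank_span_row] at h2
  have h4 := Submodule.exists_fun_fin_finrank_span_eq k (Set.range M.transpose.row)
  rw [h2] at h4
  obtain ⟨f, hf1, _, hf3⟩ := h4
  choose c hc using hf1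
  refine ⟨c, ?_⟩
  have h3 : LinearIndependent k (Matrix.of fun a b => P b (c a)).row := by
    have : (Matrix.of fun a b => P b (c a)).row = f := by
      funext a
      rw [← hc a]
      rfl
    rw [this]
    exact hf3
  exact ((Matrix.isUnit_iff_isUnit_det _).mp (Matrix.linearIndependent_rows_iff_isUnit.mp h3)).ne_zero

theorem exists_updateRow {K : Type*} [Field K] {d : ℕ} (M : Matrix (Fin d) (Fin d) K) (hM : M.det ≠ 0)
    (ρ : Fin d → K) (hρ : ρ ≠ 0) : ∃ a, (M.updateRow a ρ).det ≠ 0 := by
  by_contra hcon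
  push Not at hcon
  have h1 : M.transpose.cramer ρ = 0 := by
    funext a
    rw [Matrix.cramer_transpose_apply, hcon a, Pi.zero_apply]
  have h2 := Matrix.mulVec_cramer M.transpose ρ
  rw [h1, Matrix.mulVec_zero, Matrix.det_transpose] at h2
  rcases smul_eq_zero.mp h2.symm with h3 | h3
  · exact hM h3
  · exact hρ h3

end minor

section cover

theorem exists_cover {ι : Type*} [Fintype ι] (n : ι → ℝ) (hn : ∀ i, 0 ≤ n i) {C4 : ℝ} (hC4 : 0 ≤ C4)
    {r : ℕ} (hBig : (Finset.univ.filter fun i => C4 < n i).card ≤ r) (hcard : r + 1 ≤ Fintype.card ι) :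
    ∃ A : Fin (r + 1) → ι, Function.Injective A ∧ ∑ i, n i ≤ ∑ a, n (A a) + Fintype.card ι * C4 := by
  classical
  obtain ⟨s, hs, _, hsc⟩ := Finset.exists_subsuperset_card_eq (Finset.subset_univ (Finset.univ.filter fun i => C4 < n i))
    (n := r + 1) (by omega) (by rw [Finset.card_univ]; exact hcard)
  let E := (Finset.equivFinOfCardEq hsc).symm
  refine ⟨fun a => (E a : ι), fun a a' h => E.injective (Subtype.ext h), ?_⟩
  have h1 : ∑ a, n (E a : ι) = ∑ i ∈ s, n i := by
    rw [Equiv.sum_comp E (fun i : s => n i), Finset.sum_coe_sort]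
  rw [h1, ← Finset.sum_add_sum_compl s n]
  have h2 : ∑ i ∈ sᶜ, n i ≤ Fintype.card ι * C4 := by
    calc ∑ i ∈ sᶜ, n i ≤ ∑ i ∈ sᶜ, C4 := by
          refine Finset.sum_le_sum fun i hi => ?_
          by_contra hcon
          push Not at hcon
          exact (Finset.mem_compl.mp hi) (hs (Finset.mem_filter.mpr ⟨Finset.mem_univ _, hcon⟩))
      _ = (sᶜ).card * C4 := by rw [Finset.sum_const, nsmul_eq_mul]
      _ ≤ _ := by
          apply mul_le_mul_of_nonneg_right _ hC4
          exact_mod_cast (Finset.card_le_univ _)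
  linarith

end cover

section const

variable {K : Type u} [Field K] [NumberField K]

/-- uniform bounds for finitely many constants at all places -/
theorem const_upper {ι : Type*} [Fintype ι] (c : ι → K) : ∃ C : ℝ, 0 ≤ C ∧ ∀ (v : Pl K) (i : ι),
    nv v (c i) ≤ Real.exp C := by
  obtain ⟨C, hC1, hC⟩ := exists_bound_fin.{u, u} c 1
  refine ⟨Real.log C, Real.log_nonneg hC1, fun v i => ?_⟩
  rw [Real.exp_log (by linarith)]
  exact hC K (by rw [finrank_self]) v i

theorem const_lower {ι : Type*} [Fintype ι] (c : ι → K) (hc : ∀ i, c i ≠ 0) : ∃ C : ℝ, 0 ≤ C ∧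
    ∀ (v : Pl K) (i : ι), -C ≤ Real.log (nv v (c i)) := by
  obtain ⟨C, hC0, hC⟩ := const_upper (fun i => (c i)⁻¹)
  refine ⟨C, hC0, fun v i => ?_⟩
  have h1 := hC v i
  rw [nv_inv] at h1
  have h2 := nv_pos v (hc i)
  have h3 := Real.log_le_log (inv_pos.mpr h2) h1
  rw [Real.log_exp, Real.log_inv] at h3
  linarith

end const

end Pool.Agent.Helper52.Vojta
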