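import Mathlib
import Pool.Agent.Helper52.Vojta.CasesAux

/-!
Lower bounds for the minors occurring in the counting lemma, according to the dimension of the span.
-/

namespace Pool.Agent.Helper52.Vojta

open NumberField Finset Module Polynomial Pool.Agent.Helper64.Vojta

universe u v

set_option linter.unusedSectionVars false
set_option linter.unusedVariables false

section

variable {k : Type u} [Field k] [NumberField k] {K : Type u} [Field K] [NumberField K] [Algebra k K] {r q : ℕ}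

/-- the points: those of the divisor and the nodes -/
def opt (pt : Fin q → Option K) (b : Fin (r + 1) → ℕ) : Fin q ⊕ Fin (r + 1) → Option K :=
  Sum.elim pt (fun c => some (b c : K))

/-- the evaluation forms at all the points -/
noncomputable def fr (pt : Fin q → Option K) (b : Fin (r + 1) → ℕ) (i : Fin q ⊕ Fin (r + 1)) : Fin (r + 1) → K :=
  frmP b (opt pt b i)

theorem fr_node (pt : Fin q → Option K) {b : Fin (r + 1) → ℕ} (hb : Function.Injective b) (c : Fin (r + 1)) :
    fr pt b (Sum.inr c) = Pi.single c 1 := frmP_node hb c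

theorem det_fr_ne (pt : Fin q → Option K) {b : Fin (r + 1) → ℕ} (hb : Function.Injective b)
    (hopt : Function.Injective (opt pt b)) {A : Fin (r + 1) → Fin q ⊕ Fin (r + 1)} (hA : Function.Injective A) :
    (Matrix.of fun a c => fr pt b (A a) c).det ≠ 0 :=
  det_frmP_ne hb (A := fun a => opt pt b (A a)) (hopt.comp hA)

open scoped Classical in
theorem case_full (pt : Fin q → Option K) {b : Fin (r + 1) → ℕ} (hb : Function.Injective b)
    (hopt : Function.Injective (opt pt b)) : ∃ C : ℝ, 0 ≤ C ∧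
    ∀ (S : Finset (Pl K)) (_ : ∀ v : InfinitePlace K, Sum.inl v ∈ S) (A : Pl K → Fin (r + 1) → Fin q ⊕ Fin (r + 1))
      (_ : ∀ v ∈ S, Function.Injective (A v)) (P : Fin (r + 1) → Fin (r + 1) → 𝓞 k)
      (_ : LinearIndependent k (fun j => cz (P j))),
      (∀ v ∈ S, (Matrix.of fun a b' => vl (fr pt b (A v a)) (P b')).det ≠ 0) ∧
      -(C * S.card) ≤ ∑ v ∈ S, Real.log (nv v (Matrix.of fun a b' => vl (fr pt b (A v a)) (P b')).det) := by
  obtain ⟨C, hC0, hC⟩ := const_lower (K := K)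
    (fun A : {A : Fin (r + 1) → Fin q ⊕ Fin (r + 1) // Function.Injective A} => (Matrix.of fun a c => fr pt b (A.1 a) c).det)
    (fun A => det_fr_ne pt hb hopt A.2)
  refine ⟨C, hC0, ?_⟩
  intro S hS A hA P hP
  let Z : Matrix (Fin (r + 1)) (Fin (r + 1)) (𝓞 k) := Matrix.of fun c b' => P b' c
  let Pm : Matrix (Fin (r + 1)) (Fin (r + 1)) K := Matrix.of fun c b' => algebraMap k K (P b' c : k)
  let z : 𝓞 K := algebraMap (𝓞 k) (𝓞 K) Z.det
  have hz : (z : K) = Pm.det := by
    have h1 : Pm = (((algebraMap (𝓞 K) K).comp (algebraMap (𝓞 k) (𝓞 K))).mapMatrix Z) := by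
      ext c b'
      rfl
    rw [h1, ← RingHom.map_det]
    rfl
  have hZ : Z.det ≠ 0 := by
    intro h0
    have h1 : ((algebraMap (𝓞 k) k).mapMatrix Z).det = 0 := by
      rw [← RingHom.map_det, h0, map_zero]
    have h2 : LinearIndependent k (((algebraMap (𝓞 k) k).mapMatrix Z).col) := hP
    exact ((Matrix.isUnit_iff_isUnit_det _).mp (Matrix.linearIndependent_cols_iff_isUnit.mp h2)).ne_zero h1
  have hz0 : z ≠ 0 := by
    intro h0
    exact hZ ((map_eq_zero_iff _ (FaithfulSMul.algebraMap_injective (𝓞 k) (𝓞 K))).mp h0)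
  have hz0' : (z : K) ≠ 0 := by exact_mod_cast hz0
  have hmul : ∀ v, (Matrix.of fun a b' => vl (fr pt b (A v a)) (P b'))
      = (Matrix.of fun a c => fr pt b (A v a) c) * Pm := by
    intro v
    ext a b'
    rw [Matrix.mul_apply]
    rfl
  have hdet : ∀ v, (Matrix.of fun a b' => vl (fr pt b (A v a)) (P b')).det
      = (Matrix.of fun a c => fr pt b (A v a) c).det * z := by
    intro v
    rw [hmul v, Matrix.det_mul, ← hz]
  refine ⟨fun v hv => ?_, ?_⟩
  · rw [hdet v]
    exact mul_ne_zero (det_fr_ne pt hb hopt (hA v hv)) hz0'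
  · have h1 : ∀ v ∈ S, -C + Real.log (nv v (z : K))
        ≤ Real.log (nv v (Matrix.of fun a b' => vl (fr pt b (A v a)) (P b')).det) := by
      intro v hv
      have h2 := det_fr_ne pt hb hopt (hA v hv)
      rw [hdet v, nv_mul, Real.log_mul (nv_pos v h2).ne' (nv_pos v hz0').ne']
      have h3 := hC v ⟨A v, hA v hv⟩
      simp only at h3
      linarith
    have h2 := Finset.sum_le_sum h1
    rw [Finset.sum_add_distrib, Finset.sum_const, nsmul_eq_mul] at h2
    have h3 := sum_log_nonneg S hS hz0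
    linarith

open scoped Classical in
theorem case_low (pt : Fin q → Option K) {b : Fin (r + 1) → ℕ} (hb : Function.Injective b) : ∃ C : ℝ, 0 ≤ C ∧
    ∀ (S : Finset (Pl K)) (_ : ∀ v : InfinitePlace K, Sum.inl v ∈ S) (d : ℕ) (P : Fin d → Fin (r + 1) → 𝓞 k)
      (_ : LinearIndependent k (fun j => cz (P j))) (i0 : Fin q ⊕ Fin (r + 1)) (_ : ∃ j, vl (fr pt b i0) (P j) ≠ 0),
      ∃ A : Fin d → Fin q ⊕ Fin (r + 1), (∃ a0, A a0 = i0) ∧
      (Matrix.of fun a b' => vl (fr pt b (A a)) (P b')).det ≠ 0 ∧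
      -(C * S.card) ≤ ∑ v ∈ S, Real.log (nv v (Matrix.of fun a b' => vl (fr pt b (A a)) (P b')).det) := by
  obtain ⟨den, hden⟩ := IsLocalization.exist_integer_multiples_of_finite (nonZeroDivisors (𝓞 K))
    (fun s : (Fin q ⊕ Fin (r + 1)) × Fin (r + 1) => fr pt b s.1 s.2)
  have hden0 : (den : 𝓞 K) ≠ 0 := nonZeroDivisors.ne_zero den.2
  have hden0' : ((den : 𝓞 K) : K) ≠ 0 := by exact_mod_cast hden0
  obtain ⟨C, hC0, hC⟩ := const_upper (K := K) (fun _ : Unit => ((den : 𝓞 K) : K))
  refine ⟨C, hC0, ?_⟩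
  intro S hS d P hP i0 hi0
  obtain ⟨c, hc⟩ := exists_minor (fun j => cz (P j)) hP
  let M : Matrix (Fin d) (Fin d) K := (algebraMap k K).mapMatrix (Matrix.of fun a b' => cz (P b') (c a))
  have hM : M.det ≠ 0 := by
    rw [← RingHom.map_det, Ne, map_eq_zero]; exact hc
  let ρ : Fin d → K := fun j => vl (fr pt b i0) (P j)
  have hρ : ρ ≠ 0 := by
    obtain ⟨j, hj⟩ := hi0
    intro h
    exact hj (congrFun h j)
  obtain ⟨a0, ha0⟩ := exists_updateRow M hM ρ hρ
  let A : Fin d → Fin q ⊕ Fin (r + 1) := Function.update (fun a => Sum.inr (c a)) a0 i0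
  have hAM : (Matrix.of fun a b' => vl (fr pt b (A a)) (P b')) = M.updateRow a0 ρ := by
    ext a b'
    rw [Matrix.of_apply, Matrix.updateRow_apply]
    split_ifs with h
    · rw [h]
      simp only [A, Function.update_self]
      rfl
    · simp only [A, Function.update_of_ne h]
      rw [fr_node pt hb, vl_single]
      rfl
  refine ⟨A, ⟨a0, by simp [A]⟩, by rw [hAM]; exact ha0, ?_⟩
  rw [hAM]
  set D := (M.updateRow a0 ρ).det with hD
  -- `den * D` is an algebraic integer
  have hint : IsIntegral ℤ (((den : 𝓞 K) : K) * D) := by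
    have h1 : ((den : 𝓞 K) : K) * D = (M.updateRow a0 (((den : 𝓞 K) : K) • ρ)).det := by
      rw [Matrix.det_updateRow_smul, hD]
    rw [h1]
    apply IsIntegral.det
    intro a b'
    rw [Matrix.updateRow_apply]
    split_ifs with h
    · rw [Pi.smul_apply, smul_eq_mul]
      change IsIntegral ℤ (((den : 𝓞 K) : K) * vl (fr pt b i0) (P b'))
      unfold vl
      rw [Finset.mul_sum]
      apply IsIntegral.sum
      intro c' _
      rw [← mul_assoc]
      apply IsIntegral.mul
      · obtain ⟨y, hy⟩ := hden (i0, c')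
        rw [Algebra.smul_def] at hy
        change algebraMap (𝓞 K) K y = ((den : 𝓞 K) : K) * fr pt b i0 c' at hy
        rw [← hy]
        exact y.isIntegral_coe
      · exact ((P b' c').isIntegral_coe).map ((Algebra.ofId k K).restrictScalars ℤ)
    · change IsIntegral ℤ (algebraMap k K (cz (P b') (c a)))
      exact ((P b' (c a)).isIntegral_coe).map ((Algebra.ofId k K).restrictScalars ℤ)
  let z : 𝓞 K := ⟨((den : 𝓞 K) : K) * D, hint⟩
  have hz : (z : K) = ((den : 𝓞 K) : K) * D := rfl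
  have hz0 : z ≠ 0 := by
    intro h0
    have : (z : K) = 0 := by rw [h0]; rfl
    rw [hz] at this
    rcases mul_eq_zero.mp this with h | h
    · exact hden0' h
    · exact ha0 h
  have h1 := sum_log_nonneg S hS hz0
  have h2 : ∀ v ∈ S, Real.log (nv v (z : K)) ≤ C + Real.log (nv v D) := by
    intro v _
    rw [hz, nv_mul, Real.log_mul (nv_pos v hden0').ne' (nv_pos v ha0).ne']
    have h3 := Real.log_le_log (nv_pos v hden0') (hC v ())
    rw [Real.log_exp] at h3
    linarith
  have h3 := Finset.sum_le_sum h2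
  rw [Finset.sum_add_distrib, Finset.sum_const, nsmul_eq_mul] at h3
  linarith

/-- the Hankel minor formula -/
theorem hankel_formula (E : Matrix (Fin (r + 1)) (Fin (r + 1)) K) (P : Fin r → Fin (r + 1) → K)
    (y1 y2 y3 y4 : Fin (r + 1) → K) :
    E.det ^ 2 * (tdet P y1 * tdet P y2 - tdet P y3 * tdet P y4)
      = ∑ p : Fin (r + 1) × Fin (r + 1), (-1) ^ ((p.1 : ℕ) + r) * (-1) ^ ((p.2 : ℕ) + r) *
        ((∑ c, E p.1 c * y1 c) * (∑ c, E p.2 c * y2 c) - (∑ c, E p.1 c * y3 c) * (∑ c, E p.2 c * y4 c)) *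
        ((Matrix.of fun a' j => ∑ c, E (p.1.succAbove a') c * P j c).det *
          (Matrix.of fun a' j => ∑ c, E (p.2.succAbove a') c * P j c).det) := by
  have h : E.det ^ 2 * (tdet P y1 * tdet P y2 - tdet P y3 * tdet P y4)
      = (E.det * tdet P y1) * (E.det * tdet P y2) - (E.det * tdet P y3) * (E.det * tdet P y4) := by ring
  rw [h, laplace, laplace, laplace, laplace, Finset.sum_mul_sum, Finset.sum_mul_sum, ← Finset.sum_sub_distrib,
    Fintype.sum_prod_type]
  refine Finset.sum_congr rfl fun a _ => ?_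
  rw [← Finset.sum_sub_distrib]
  refine Finset.sum_congr rfl fun a' _ => ?_
  ring

open scoped Classical in
theorem case_hyper (pt : Fin q → Option K) {b : Fin (r + 1) → ℕ} (hb : Function.Injective b)
    (hopt : Function.Injective (opt pt b)) (hr : 1 ≤ r) : ∃ C : ℝ, 0 ≤ C ∧
    ∀ (S : Finset (Pl K)) (_ : ∀ v : InfinitePlace K, Sum.inl v ∈ S) (A : Pl K → Fin (r + 1) → Fin q ⊕ Fin (r + 1))
      (_ : ∀ v ∈ S, Function.Injective (A v)) (P : Fin r → Fin (r + 1) → 𝓞 k)
      (_ : ∃ j < r, ∃ l < r, tdet (fun i => cz (P i)) (mon k b j) * tdet (fun i => cz (P i)) (mon k b (l + 1))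
        ≠ tdet (fun i => cz (P i)) (mon k b (j + 1)) * tdet (fun i => cz (P i)) (mon k b l)),
      ∃ a1 a2 : Pl K → Fin (r + 1), (∀ v ∈ S, a1 v ≠ a2 v ∧
        (Matrix.of fun a' j => vl (fr pt b (A v ((a1 v).succAbove a'))) (P j)).det ≠ 0 ∧
        (Matrix.of fun a' j => vl (fr pt b (A v ((a2 v).succAbove a'))) (P j)).det ≠ 0) ∧
      -(C * S.card) ≤ ∑ v ∈ S,
        (Real.log (nv v (Matrix.of fun a' j => vl (fr pt b (A v ((a1 v).succAbove a'))) (P j)).det) +
        Real.log (nv v (Matrix.of fun a' j => vl (fr pt b (A v ((a2 v).succAbove a'))) (P j)).det)) := by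
  obtain ⟨C1, hC10, hC1⟩ := const_lower (K := K)
    (fun A : {A : Fin (r + 1) → Fin q ⊕ Fin (r + 1) // Function.Injective A} => (Matrix.of fun a c => fr pt b (A.1 a) c).det)
    (fun A => det_fr_ne pt hb hopt A.2)
  -- the coefficients
  let u : Fin q ⊕ Fin (r + 1) → ℕ → K := fun i j => ∑ c, fr pt b i c * mon K b j c
  obtain ⟨C2, hC20, hC2⟩ := const_upper (K := K)
    (fun s : (Fin q ⊕ Fin (r + 1)) × (Fin q ⊕ Fin (r + 1)) × Fin r × Fin r =>
      u s.1 s.2.2.1 * u s.2.1 (s.2.2.2 + 1) - u s.1 (s.2.2.1 + 1) * u s.2.1 s.2.2.2)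
  set NC : ℝ := (((Finset.univ : Finset (Fin (r + 1) × Fin (r + 1))).card : ℝ) + 1) ^ 2 with hNC
  have hNC1 : 1 ≤ NC := by
    rw [hNC]
    have : (0 : ℝ) ≤ ((Finset.univ : Finset (Fin (r + 1) × Fin (r + 1))).card : ℝ) := Nat.cast_nonneg _
    nlinarith
  refine ⟨2 * C1 + Real.log NC + C2, by
    have := Real.log_nonneg hNC1
    positivity, ?_⟩
  intro S hS A hA P hP
  obtain ⟨j, hj, l, hl, hne⟩ := hP
  let T : ℕ → 𝓞 k := fun j => tdet P (mon (𝓞 k) b j)
  have hmapK : ∀ (f : 𝓞 k →+* K) (j : ℕ), f (T j) = tdet (fun i c => f (P i c)) (mon K b j) := by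
    intro f j
    simp only [T]
    unfold tdet
    rw [RingHom.map_det]
    congr 1
    ext c i
    rw [RingHom.mapMatrix_apply, Matrix.map_apply, Matrix.of_apply, Matrix.of_apply]
    refine Fin.lastCases ?_ (fun i => ?_) i
    · rw [Fin.snoc_last, Fin.snoc_last]
      simp [mon]
    · rw [Fin.snoc_castSucc, Fin.snoc_castSucc]
  have hmapk : ∀ (j : ℕ), ((T j : 𝓞 k) : k) = tdet (fun i => cz (P i)) (mon k b j) := by
    intro j
    change algebraMap (𝓞 k) k (T j) = _
    simp only [T]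
    unfold tdet
    rw [RingHom.map_det]
    congr 1
    ext c i
    rw [RingHom.mapMatrix_apply, Matrix.map_apply, Matrix.of_apply, Matrix.of_apply]
    refine Fin.lastCases ?_ (fun i => ?_) i
    · rw [Fin.snoc_last, Fin.snoc_last]
      simp [mon]
    · rw [Fin.snoc_castSucc, Fin.snoc_castSucc]
      rfl
  set Mk : 𝓞 k := T j * T (l + 1) - T (j + 1) * T l with hMk
  have hMk0 : Mk ≠ 0 := by
    intro h0
    apply hne
    rw [← hmapk, ← hmapk, ← hmapk, ← hmapk]
    have h1 : T j * T (l + 1) = T (j + 1) * T l := sub_eq_zero.mp h0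
    exact_mod_cast congrArg (fun z : 𝓞 k => (z : k)) h1
  let z : 𝓞 K := algebraMap (𝓞 k) (𝓞 K) Mk
  have hz0 : z ≠ 0 := by
    intro h0
    exact hMk0 ((map_eq_zero_iff _ (FaithfulSMul.algebraMap_injective (𝓞 k) (𝓞 K))).mp h0)
  have hz0' : (z : K) ≠ 0 := by exact_mod_cast hz0
  let PK : Fin r → Fin (r + 1) → K := fun i c => algebraMap k K (P i c : k)
  have hzK : (z : K) = tdet PK (mon K b j) * tdet PK (mon K b (l + 1)) - tdet PK (mon K b (j + 1)) * tdet PK (mon K b l) := by
    have h1 : (z : K) = ((algebraMap (𝓞 K) K).comp (algebraMap (𝓞 k) (𝓞 K))) Mk := rfl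
    rw [h1, hMk, map_sub, map_mul, map_mul, hmapK, hmapK, hmapK, hmapK]
    rfl
  let Δ : Pl K → Fin (r + 1) → K := fun v a => (Matrix.of fun a' j => vl (fr pt b (A v (a.succAbove a'))) (P j)).det
  -- diagonal terms vanish
  have hdiag : ∀ i : Fin q ⊕ Fin (r + 1), u i j * u i (l + 1) - u i (j + 1) * u i l = 0 := by
    intro i
    have hu : ∀ j ≤ r, u i j = evp r (opt pt b i) (X ^ j) := by
      intro j hj
      have h1 := sum_frmP hb (opt pt b i) (X ^ j : K[X]) (by rw [natDegree_X_pow]; exact hj)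
      rw [← h1]
      refine Finset.sum_congr rfl fun c _ => ?_
      rw [eval_pow, eval_X]
      rfl
    rw [hu j (by omega), hu (l + 1) (by omega), hu (j + 1) (by omega), hu l (by omega)]
    rcases h : opt pt b i with _ | a
    · simp only [evp_none, coeff_X_pow]
      rw [if_neg (by omega), if_neg (show ¬ r = l by omega)]
      ring
    · simp only [evp_some, eval_pow, eval_X]
      ring
  have hex : ∀ v, ∃ p : Fin (r + 1) × Fin (r + 1), v ∈ S → p.1 ≠ p.2 ∧
      ∀ p' : Fin (r + 1) × Fin (r + 1), p'.1 ≠ p'.2 → nv v (Δ v p'.1) * nv v (Δ v p'.2) ≤ nv v (Δ v p.1) * nv v (Δ v p.2) := by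
    intro v
    have hne2 : (Finset.univ.filter fun p : Fin (r + 1) × Fin (r + 1) => p.1 ≠ p.2).Nonempty := by
      refine ⟨(0, Fin.last r), Finset.mem_filter.mpr ⟨Finset.mem_univ _, ?_⟩⟩
      intro h
      have := congrArg Fin.val h
      simp at this
      omega
    obtain ⟨p, hp, hmax⟩ := Finset.exists_max_image _ (fun p : Fin (r + 1) × Fin (r + 1) => nv v (Δ v p.1) * nv v (Δ v p.2)) hne2
    refine ⟨p, fun _ => ⟨(Finset.mem_filter.mp hp).2, fun p' hp' => hmax p' (Finset.mem_filter.mpr ⟨Finset.mem_univ _, hp'⟩)⟩⟩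
  choose p hp using hex
  -- the local estimate
  have hloc : ∀ v ∈ S, nv v ((Matrix.of fun a c => fr pt b (A v a) c).det ^ 2 * (z : K))
      ≤ NC * (Real.exp C2 * (nv v (Δ v (p v).1) * nv v (Δ v (p v).2))) := by
    intro v hv
    rw [hzK, hankel_formula]
    refine nv_sum_le v _ _ _ (mul_nonneg (Real.exp_pos _).le (mul_nonneg (nv_nonneg _ _) (nv_nonneg _ _))) ?_
    rintro ⟨a, a'⟩ _
    have e1 : ∀ (a : Fin (r + 1)) (j : ℕ), ∑ c, (Matrix.of fun a c => fr pt b (A v a) c) a c * mon K b j c = u (A v a) j :=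
      fun _ _ => rfl
    have e2 : ∀ a : Fin (r + 1), (Matrix.of fun a' j => ∑ c, (Matrix.of fun a c => fr pt b (A v a) c) (a.succAbove a') c * PK j c).det
        = Δ v a := fun _ => rfl
    rw [e1, e1, e1, e1, e2, e2]
    by_cases haa : a = a'
    · rw [← haa, hdiag, mul_zero, zero_mul, nv_zero]
      exact mul_nonneg (Real.exp_pos _).le (mul_nonneg (nv_nonneg _ _) (nv_nonneg _ _))
    · have hsign : nv v ((-1 : K) ^ ((a : ℕ) + r) * (-1) ^ ((a' : ℕ) + r)) = 1 := by
        rw [← pow_add]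
        have hm1 : nv v (-1 : K) = 1 := by
          have h3 := nv_mul v (-1 : K) (-1)
          rw [neg_one_mul, neg_neg, nv_one] at h3
          have h4 := nv_nonneg v (-1 : K)
          nlinarith
        rcases neg_one_pow_eq_or K ((a : ℕ) + r + ((a' : ℕ) + r)) with h | h
        · rw [h, nv_one]
        · rw [h, hm1]
      rw [nv_mul, nv_mul, hsign, one_mul, nv_mul]
      exact mul_le_mul (hC2 v (A v a, A v a', ⟨j, hj⟩, ⟨l, hl⟩)) ((hp v hv).2 (a, a') haa)
        (mul_nonneg (nv_nonneg _ _) (nv_nonneg _ _)) (Real.exp_pos _).le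
  have hpos : ∀ v ∈ S, 0 < nv v (Δ v (p v).1) * nv v (Δ v (p v).2) := by
    intro v hv
    have h1 := hloc v hv
    have h2 : 0 < nv v ((Matrix.of fun a c => fr pt b (A v a) c).det ^ 2 * (z : K)) :=
      nv_pos v (mul_ne_zero (pow_ne_zero 2 (det_fr_ne pt hb hopt (hA v hv))) hz0')
    by_contra hcon
    have h3 : nv v (Δ v (p v).1) * nv v (Δ v (p v).2) = 0 :=
      le_antisymm (not_lt.mp hcon) (mul_nonneg (nv_nonneg _ _) (nv_nonneg _ _))
    rw [h3, mul_zero, mul_zero] at h1
    linarith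
  have hΔne : ∀ v ∈ S, Δ v (p v).1 ≠ 0 ∧ Δ v (p v).2 ≠ 0 := by
    intro v hv
    have h1 := (hpos v hv).ne'
    constructor
    · intro h; rw [h, nv_zero, zero_mul] at h1; exact h1 rfl
    · intro h; rw [h, nv_zero, mul_zero] at h1; exact h1 rfl
  refine ⟨fun v => (p v).1, fun v => (p v).2, fun v hv => ⟨(hp v hv).1, (hΔne v hv).1, (hΔne v hv).2⟩, ?_⟩
  have h1 : ∀ v ∈ S, Real.log (nv v (z : K)) - (2 * C1 + Real.log NC + C2)
      ≤ Real.log (nv v (Δ v (p v).1)) + Real.log (nv v (Δ v (p v).2)) := by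
    intro v hv
    have hE := det_fr_ne pt hb hopt (hA v hv)
    have hEpos := nv_pos v hE
    have h2 := hloc v hv
    have h3 : nv v ((Matrix.of fun a c => fr pt b (A v a) c).det ^ 2 * (z : K))
        = nv v (Matrix.of fun a c => fr pt b (A v a) c).det ^ 2 * nv v (z : K) := by
      rw [nv_mul, sq, nv_mul, sq]
    rw [h3] at h2
    have h4 := Real.log_le_log (mul_pos (pow_pos hEpos 2) (nv_pos v hz0')) h2
    rw [Real.log_mul (pow_pos hEpos 2).ne' (nv_pos v hz0').ne', Real.log_pow,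
      Real.log_mul (by linarith) (mul_pos (Real.exp_pos _) (hpos v hv)).ne',
      Real.log_mul (Real.exp_pos _).ne' (hpos v hv).ne', Real.log_exp,
      Real.log_mul (nv_pos v (hΔne v hv).1).ne' (nv_pos v (hΔne v hv).2).ne'] at h4
    have h5 := hC1 v ⟨A v, hA v hv⟩
    simp only at h5
    push_cast at h4
    linarith
  have h2 := Finset.sum_le_sum h1
  rw [Finset.sum_sub_distrib, Finset.sum_const, nsmul_eq_mul] at h2
  have h3 := sum_log_nonneg S hS hz0
  change _ ≤ ∑ v ∈ S, (Real.log (nv v (Δ v (p v).1)) + Real.log (nv v (Δ v (p v).2)))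
  linarith

end

end Pool.Agent.Helper52.Vojta
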