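import Mathlib
import Pool.Agent.Helper52.Vojta.Cases

/-!
Counting the vectors of one cell.
-/

namespace Pool.Agent.Helper52.Vojta

open NumberField Finset Module Polynomial Pool.Agent.Helper64.Vojta

universe u v

set_option linter.unusedSectionVars false
set_option linter.unusedVariables false

section

variable {k : Type u} [Field k] [NumberField k] {K : Type u} [Field K] [NumberField K] [Algebra k K] {r q : ℕ}

/-- vectors of node values of polynomials of exact degree `r` without rational roots and with nonzero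
values at the points of the divisor -/
def good (pt : Fin q → Option K) (b : Fin (r + 1) → ℕ) (x : Fin (r + 1) → 𝓞 k) : Prop :=
  (∃ F : k[X], F.natDegree = r ∧ F ≠ 0 ∧ (∀ c, F.eval (b c : k) = cz x c) ∧ ∀ ρ, F.eval ρ ≠ 0) ∧
    ∀ i : Fin q, vl (fr pt b (Sum.inl i)) x ≠ 0

theorem vl_eq_of_span {d m : ℕ} (e : Fin m → K) (P : Fin d → Fin m → 𝓞 k) {x : Fin m → 𝓞 k}
    (hx : cz x ∈ Submodule.span k (Set.range fun j => cz (P j))) (hne : vl e x ≠ 0) :
    ∃ j, vl e (P j) ≠ 0 := by
  by_contra hcon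
  push Not at hcon
  apply hne
  obtain ⟨α, hα⟩ := (Submodule.mem_span_range_iff_exists_fun k).mp hx
  have h1 : vl e x = ∑ j, algebraMap k K (α j) * vl e (P j) := by
    have h2 : ∀ c, (x c : k) = ∑ j, α j * (P j c : k) := by
      intro c
      have := congrFun hα c
      rw [Finset.sum_apply] at this
      exact this.symm
    unfold vl
    simp_rw [h2, map_sum, map_mul, Finset.mul_sum]
    rw [Finset.sum_comm]
    refine Finset.sum_congr rfl fun j _ => Finset.sum_congr rfl fun c _ => by ring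
  rw [h1]
  exact Finset.sum_eq_zero fun j _ => by rw [hcon j, mul_zero]

open scoped Classical in
theorem cell_count (pt : Fin q → Option K) {b : Fin (r + 1) → ℕ} (hb : Function.Injective b)
    (hopt : Function.Injective (opt pt b)) (hr : 1 ≤ r) {C4 : ℝ} (hC4 : 0 ≤ C4) : ∃ C : ℝ, 0 ≤ C ∧
    ∀ (S : Finset (Pl K)) (_ : ∀ v : InfinitePlace K, Sum.inl v ∈ S) (bv : Pl K → ℝ)
      (n : Fin q ⊕ Fin (r + 1) → Pl K → ℝ) (_ : ∀ i v, 0 ≤ n i v)
      (_ : ∀ v ∈ S, (Finset.univ.filter fun i => C4 < n i v).card ≤ r) (_ : 0 ≤ ∑ v ∈ S, bv v)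
      (X : Finset (Fin (r + 1) → 𝓞 k))
      (_ : ∀ x ∈ X, ∀ i, ∀ v ∈ S, nv v (vl (fr pt b i) x) ≤ Real.exp (bv v - n i v))
      (_ : ∀ x ∈ X, good pt b x) (i0 : Fin q),
      (∃ P0 : Fin (r + 1) → k, ∀ x ∈ X, ∃ t : k, cz x = t • P0) ∨
      (X.card : ℝ) ≤ Real.exp (C * (1 + S.card) + ((r + 1) * ∑ v ∈ S, bv v
        - ∑ v ∈ S, ∑ i : Fin q, n (Sum.inl i) v) / finrank k K) ∨
      (X.card : ℝ) ≤ Real.exp (C * (1 + S.card) + (r * ∑ v ∈ S, bv v
        - (∑ v ∈ S, ∑ i : Fin q, n (Sum.inl i) v) / 2) / finrank k K) ∨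
      (3 ≤ r ∧ (X.card : ℝ) ≤ Real.exp (C * (1 + S.card) + ((r - 1) * ∑ v ∈ S, bv v
        - ∑ v ∈ S, n (Sum.inl i0) v) / finrank k K)) := by
  obtain ⟨C1, hC10, hC1⟩ := case_full (k := k) pt hb hopt
  obtain ⟨C2, hC20, hC2⟩ := case_low (k := k) pt hb
  obtain ⟨C3, hC30, hC3⟩ := case_hyper (k := k) pt hb hopt hr
  have hcard : r + 1 ≤ Fintype.card (Fin q ⊕ Fin (r + 1)) := by
    rw [Fintype.card_sum, Fintype.card_fin, Fintype.card_fin]; omega
  set cι : ℝ := (Fintype.card (Fin q ⊕ Fin (r + 1)) : ℝ) with hcι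
  have hcι0 : 0 ≤ cι := Nat.cast_nonneg _
  set C0 : ℝ := finrank ℚ k * (((r + 1 : ℕ) : ℝ) * Real.log 4) + finrank ℚ k * Real.log (r + 1).factorial with hC0
  have hC00 : 0 ≤ C0 := by
    have h1 : 0 ≤ Real.log 4 := Real.log_nonneg (by norm_num)
    have h2 : 0 ≤ Real.log ((r + 1).factorial : ℝ) := Real.log_nonneg (by exact_mod_cast Nat.factorial_pos _)
    positivity
  have hfd : FiniteDimensional k K := FiniteDimensional.right ℚ k K
  have hD1 : (1 : ℝ) ≤ finrank k K := by exact_mod_cast (finrank_pos : 0 < finrank k K)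
  have hD0 : (0 : ℝ) < finrank k K := by linarith
  refine ⟨C0 + cι * C4 + C1 + C2 + C3, by positivity, ?_⟩
  intro S hS bv n hn hBig hB X hX hgood i0
  set B : ℝ := ∑ v ∈ S, bv v with hBdef
  set Nn : ℝ := ∑ v ∈ S, ∑ i : Fin q, n (Sum.inl i) v with hNn
  rcases X.eq_empty_or_nonempty with hXe | ⟨x0, hx0⟩
  · left
    exact ⟨0, fun x hx => by rw [hXe] at hx; simp at hx⟩
  obtain ⟨d, P, hP, hspan, hstar⟩ := star (k := k) (K := K) (Nat.succ_pos r) (fr pt b) Sum.inr
    (fun c => fr_node pt hb c) S hS (fun i v => bv v - n i v) X hX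
  have hdr : d ≤ r + 1 := by
    have := hP.fintype_card_le_finrank
    simpa using this
  -- absorbing the constants
  have habs : ∀ (e f : ℝ), e ≤ f + (cι * C4 + C1 + C2 + C3) * S.card →
      Real.exp (C0 + e / finrank k K) ≤ Real.exp ((C0 + cι * C4 + C1 + C2 + C3) * (1 + S.card) + f / finrank k K) := by
    intro e f h
    apply Real.exp_le_exp.mpr
    have h1 : e / finrank k K ≤ (f + (cι * C4 + C1 + C2 + C3) * S.card) / finrank k K :=
      div_le_div_of_nonneg_right h hD0.le
    rw [add_div] at h1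
    have h2 : (cι * C4 + C1 + C2 + C3) * S.card / finrank k K ≤ (cι * C4 + C1 + C2 + C3) * S.card :=
      div_le_self (by positivity) hD1
    have h3 : 0 ≤ C0 * (S.card : ℝ) := by positivity
    have h4 : 0 ≤ cι * C4 + C1 + C2 + C3 := by positivity
    linarith
  -- the cover
  have hcov : ∀ v, ∃ A : Fin (r + 1) → Fin q ⊕ Fin (r + 1), v ∈ S → Function.Injective A ∧
      ∑ i : Fin q, n (Sum.inl i) v ≤ ∑ a, n (A a) v + cι * C4 := by
    intro v
    by_cases hv : v ∈ S
    · obtain ⟨A, hA, hA'⟩ := exists_cover (fun i => n i v) (fun i => hn i v) hC4 (hBig v hv) hcard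
      refine ⟨A, fun _ => ⟨hA, le_trans ?_ hA'⟩⟩
      rw [Fintype.sum_sum_type]
      have : 0 ≤ ∑ c : Fin (r + 1), n (Sum.inr c) v := Finset.sum_nonneg fun c _ => hn _ _
      linarith
    · exact ⟨fun _ => Sum.inl i0, fun h => absurd h hv⟩
  choose A hA using hcov
  have hAinj : ∀ v ∈ S, Function.Injective (A v) := fun v hv => (hA v hv).1
  have hNcov : Nn ≤ ∑ v ∈ S, ∑ a, n (A v a) v + cι * C4 * S.card := by
    have h1 := Finset.sum_le_sum fun v hv => (hA v hv).2
    rw [Finset.sum_add_distrib, Finset.sum_const, nsmul_eq_mul] at h1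
    rw [hNn]
    linarith
  by_cases hd0 : d = 0
  · subst hd0
    left
    refine ⟨0, fun x hx => ⟨0, ?_⟩⟩
    have := hspan x hx
    rw [Set.range_eq_empty, Submodule.span_empty, Submodule.mem_bot] at this
    rw [this]; simp
  by_cases hd1 : d = 1
  · subst hd1
    left
    refine ⟨cz (P 0), fun x hx => ?_⟩
    have h1 := hspan x hx
    obtain ⟨α, hα⟩ := (Submodule.mem_span_range_iff_exists_fun k).mp h1
    refine ⟨α 0, ?_⟩
    rw [← hα, Fin.sum_univ_one]
  right
  by_cases hd2 : d = r + 1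
  · -- full dimension
    subst hd2
    left
    obtain ⟨h1, h2⟩ := hC1 S hS A hAinj P hP
    refine (hstar A h1).trans (habs _ _ ?_)
    rw [Finset.sum_sub_distrib]
    have h3 : ∑ v ∈ S, ∑ a, (bv v - n (A v a) v) = (r + 1) * B - ∑ v ∈ S, ∑ a, n (A v a) v := by
      simp_rw [Finset.sum_sub_distrib, Finset.sum_const, Finset.card_univ, Fintype.card_fin, nsmul_eq_mul]
      rw [← Finset.mul_sum]
      push_cast
      rfl
    rw [h3]
    have h4 : 0 ≤ (C2 + C3) * (S.card : ℝ) := by positivity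
    linarith
  by_cases hd3 : d = r
  · subst hd3
    right; left
    obtain ⟨F, hF1, hF2, hF3, hF4⟩ := (hgood x0 hx0).1
    have hh := hankel_ne hb (fun i => cz (P i)) hP (hspan x0 hx0) F hF1 hF2 hF3 hF4
    obtain ⟨a1, a2, ha, hsum⟩ := hC3 S hS A hAinj P hh
    let Δ : Pl K → Fin (d + 1) → K := fun v a => (Matrix.of fun a' j => vl (fr pt b (A v (a.succAbove a'))) (P j)).det
    let cost : Pl K → Fin (d + 1) → ℝ := fun v a => ∑ a', (bv v - n (A v (a.succAbove a')) v) - Real.log (nv v (Δ v a))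
    let as : Pl K → Fin (d + 1) := fun v => if cost v (a1 v) ≤ cost v (a2 v) then a1 v else a2 v
    have has : ∀ v ∈ S, Δ v (as v) ≠ 0 := by
      intro v hv
      simp only [as]
      split_ifs
      · exact (ha v hv).2.1
      · exact (ha v hv).2.2
    have hcost : ∀ v, cost v (as v) ≤ (cost v (a1 v) + cost v (a2 v)) / 2 := by
      intro v
      simp only [as]
      split_ifs with h
      · linarith
      · push Not at h; linarith
    have hcv : ∀ v a, cost v a = d * bv v - (∑ a', n (A v a') v - n (A v a) v) - Real.log (nv v (Δ v a)) := by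
      intro v a
      simp only [cost]
      rw [Finset.sum_sub_distrib, Finset.sum_const, Finset.card_univ, Fintype.card_fin, nsmul_eq_mul,
        Fin.sum_univ_succAbove (fun a' => n (A v a') v) a]
      ring
    refine (hstar (fun v a' => A v ((as v).succAbove a')) has).trans (habs _ _ ?_)
    have h1 : ∀ v ∈ S, cost v (as v) ≤ d * bv v - (∑ a', n (A v a') v) / 2
        - (Real.log (nv v (Δ v (a1 v))) + Real.log (nv v (Δ v (a2 v)))) / 2 := by
      intro v hv
      refine (hcost v).trans ?_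
      rw [hcv, hcv]
      have h2 : n (A v (a1 v)) v + n (A v (a2 v)) v ≤ ∑ a', n (A v a') v := by
        have h3 := Finset.sum_le_sum_of_subset_of_nonneg (f := fun a' => n (A v a') v)
          (Finset.subset_univ ({a1 v, a2 v} : Finset (Fin (d + 1)))) (fun a _ _ => hn _ _)
        rwa [Finset.sum_pair (ha v hv).1] at h3
      linarith
    have h2 : ∑ v ∈ S, cost v (as v) ≤ d * B - (∑ v ∈ S, ∑ a', n (A v a') v) / 2 + C3 * S.card / 2 := by
      refine (Finset.sum_le_sum h1).trans ?_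
      rw [Finset.sum_sub_distrib, Finset.sum_sub_distrib, ← Finset.mul_sum, ← Finset.sum_div, ← Finset.sum_div]
      change -(C3 * S.card) ≤ ∑ v ∈ S, (Real.log (nv v (Δ v (a1 v))) + Real.log (nv v (Δ v (a2 v)))) at hsum
      linarith
    change ∑ v ∈ S, cost v (as v) ≤ _
    have h4 : 0 ≤ (C1 + C2) * (S.card : ℝ) := by positivity
    have h5 : 0 ≤ C3 * (S.card : ℝ) := by positivity
    have h6 : 0 ≤ cι * C4 * (S.card : ℝ) := by positivity
    linarith
  · -- low dimension
    right; right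
    have hdr2 : d + 1 ≤ r := by omega
    refine ⟨by omega, ?_⟩
    obtain ⟨A', ⟨a0, ha0⟩, h1, h2⟩ := hC2 S hS d P hP (Sum.inl i0)
      (vl_eq_of_span _ P (hspan x0 hx0) ((hgood x0 hx0).2 i0))
    refine (hstar (fun _ => A') (fun _ _ => h1)).trans (habs _ _ ?_)
    rw [Finset.sum_sub_distrib]
    have h3 : ∀ v ∈ S, ∑ a, (bv v - n (A' a) v) ≤ d * bv v - n (Sum.inl i0) v := by
      intro v _
      rw [Finset.sum_sub_distrib, Finset.sum_const, Finset.card_univ, Fintype.card_fin, nsmul_eq_mul]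
      have := Finset.single_le_sum (f := fun a => n (A' a) v) (fun a _ => hn _ _) (Finset.mem_univ a0)
      simp only [ha0] at this
      linarith
    have h4 := Finset.sum_le_sum h3
    rw [Finset.sum_sub_distrib, ← Finset.mul_sum] at h4
    have h5 : (d : ℝ) * B ≤ (r - 1) * B := by
      have : (d : ℝ) + 1 ≤ r := by exact_mod_cast hdr2
      exact mul_le_mul_of_nonneg_right (by linarith) hB
    have h6 : 0 ≤ (cι * C4 + C1 + C3) * (S.card : ℝ) := by positivity
    linarith

end

end Pool.Agent.Helper52.Vojta
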