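import Mathlib
import Pool.Agent.Helper52.Vojta.Rep
import Pool.Agent.Helper52.Vojta.Window

/-!
The vector of norms attached to a point, scaled to an integral vector.
-/

namespace Pool.Agent.Helper52.Vojta

open NumberField Finset Module Pool.Agent.Helper64.Vojta
open scoped nonZeroDivisors

universe u v

section

variable (k : Type u) [Field k] [NumberField k]

theorem exists_data {q : ℕ} (D : Fin q → Fin 2 → k) (r : ℕ) : ∃ C : ℝ, 0 ≤ C ∧
    ∀ (L : Type v) [Field L] [NumberField L] [Algebra k L], finrank k L ≤ r → ∀ (y : L) (U : ℝ),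
    Height.logHeight (aff y) ≤ U → (∀ i, ev (cst (D i)) (aff y) ≠ 0) →
    ∃ (l : k) (z : Fin q → 𝓞 k), l ≠ 0 ∧
      (∀ i, (z i : k) = l * Algebra.norm k (ev (cst (D i)) (aff y))) ∧ (∀ i, z i ≠ 0) ∧
      (∀ i, ∀ v : InfinitePlace k, Real.log (nv (.inl v) (z i : k)) ≤ C + v.mult / finrank ℚ k * U
        - ∑ w ∈ above L (.inl v : Pl k), loc w (cst (D i)) (aff y)) ∧
      (∀ i, ∀ v : FinitePlace k, Real.log (nv (.inr v) (z i : k)) ≤
        - ∑ w ∈ above L (.inr v : Pl k), loc w (cst (D i)) (aff y)) := by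
  classical
  obtain ⟨C1, hC10, hC1⟩ := exists_rep.{u, v} k
  obtain ⟨b, hb⟩ := IsLocalization.exist_integer_multiples_of_finite (𝓞 k)⁰
    (fun s : Fin q × Fin 2 => D s.1 s.2)
  have hb0 : (b : 𝓞 k) ≠ 0 := nonZeroDivisors.ne_zero b.2
  have hb0' : ((b : 𝓞 k) : k) ≠ 0 := by exact_mod_cast hb0
  choose e he using hb
  have he' : ∀ i j, (e (i, j) : k) = ((b : 𝓞 k) : k) * D i j := by
    intro i j
    have := he (i, j)
    rw [Algebra.smul_def] at this
    exact this
  set Cb : ℝ := ∑ v : InfinitePlace k, |Real.log (nv (.inl v) ((b : 𝓞 k) : k))| with hCb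
  have hCb0 : 0 ≤ Cb := Finset.sum_nonneg fun _ _ => abs_nonneg _
  refine ⟨C1 + r * Cb, by positivity, ?_⟩
  intro L _ _ _ hr y U hU hne
  have hfd : FiniteDimensional k L := FiniteDimensional.right ℚ k L
  obtain ⟨α, d, hd, hαd⟩ := IsFractionRing.div_surjective (A := 𝓞 L) y
  have hd0 : d ≠ 0 := nonZeroDivisors.ne_zero hd
  have hd0' : (d : L) ≠ 0 := by exact_mod_cast hd0
  have hαd' : (α : L) = d * y := by
    rw [← hαd]
    field_simp
  set x : Fin 2 → 𝓞 L := ![α, d] with hx
  have hxne : x ≠ 0 := by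
    intro h
    have := congrFun h 1
    exact hd0 this
  have hxL : (fun i => (x i : L)) = (d : L) • aff y := by
    funext i
    fin_cases i
    · change (α : L) = d * y; exact hαd'
    · change (d : L) = d * 1; rw [mul_one]
  have hheight : Height.logHeight (fun i => (x i : L)) ≤ U := by
    rw [hxL, Height.logHeight_smul_eq_logHeight _ hd0']
    exact hU
  obtain ⟨l, hl0, hlmem, hlinf, hlfin⟩ := hC1 L x U hxne hheight
  -- the elements
  let Y : Fin q → 𝓞 L := fun i => algebraMap (𝓞 k) (𝓞 L) (e (i, 0)) * x 0 + algebraMap (𝓞 k) (𝓞 L) (e (i, 1)) * x 1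
  have hYmem : ∀ i, Y i ∈ Ideal.span (Set.range x) := fun i =>
    Ideal.add_mem _ (Ideal.mul_mem_left _ _ (Ideal.subset_span ⟨0, rfl⟩))
      (Ideal.mul_mem_left _ _ (Ideal.subset_span ⟨1, rfl⟩))
  have hYval : ∀ i, (Y i : L) = algebraMap k L ((b : 𝓞 k) : k) * ((d : L) * ev (cst (D i)) (aff y)) := by
    intro i
    have h1 : (Y i : L) = algebraMap k L (e (i, 0) : k) * (x 0 : L) + algebraMap k L (e (i, 1) : k) * (x 1 : L) := by
      simp only [Y]
      push_cast
      rfl
    rw [h1, he' i 0, he' i 1, map_mul, map_mul]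
    have e0 : (x 0 : L) = d * y := hαd'
    have e1 : (x 1 : L) = d := rfl
    rw [e0, e1]
    simp only [ev, cst, aff, Fin.sum_univ_two, Matrix.cons_val_zero, Matrix.cons_val_one]
    ring
  choose z hz using fun i => hlmem (Y i) (hYmem i)
  have hYne : ∀ i, (Y i : L) ≠ 0 := by
    intro i
    rw [hYval i]
    exact mul_ne_zero (by simp) (mul_ne_zero hd0' (hne i))
  -- local sizes of the norms
  have hloc : ∀ i (ν : Pl k), Real.log (nv ν (z i : k)) = Real.log (nv ν l)
      + ∑ w ∈ above L ν, Real.log (nv w (algebraMap k L ((b : 𝓞 k) : k)))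
      + ∑ w ∈ above L ν, Real.log (sn w (fun i => (x i : L)))
      - ∑ w ∈ above L ν, loc w (cst (D i)) (aff y) := by
    intro i ν
    rw [hz i, nv_mul, nv_norm, Real.log_mul (nv_pos _ hl0).ne'
      (Finset.prod_pos fun w _ => nv_pos w (hYne i)).ne', Real.log_prod (fun w _ => (nv_pos w (hYne i)).ne'),
      add_assoc, add_sub_assoc, ← Finset.sum_add_distrib, ← Finset.sum_sub_distrib]
    congr 1
    refine Finset.sum_congr rfl fun w _ => ?_
    have h1 : (fun i => (x i : L)) = fun i => (d : L) * aff y i := by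
      rw [hxL]; rfl
    have h2 : sn w (fun i => (x i : L)) = nv w (d : L) * sn w (aff y) := by
      rw [h1]
      unfold sn
      rw [Real.mul_iSup_of_nonneg (nv_nonneg _ _)]
      congr 1
      funext i
      exact nv_mul _ _ _
    have hdpos := nv_pos w hd0'
    have hepos := nv_pos w (hne i)
    have hbpos : 0 < nv w (algebraMap k L ((b : 𝓞 k) : k)) := nv_pos w (by simp)
    rw [hYval i, nv_mul, nv_mul, Real.log_mul hbpos.ne' (mul_pos hdpos hepos).ne',
      Real.log_mul hdpos.ne' hepos.ne', h2, Real.log_mul hdpos.ne' (sn_pos w (aff_ne_zero y)).ne']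
    unfold loc
    ring
  refine ⟨l * (Algebra.norm k (algebraMap k L ((b : 𝓞 k) : k)) * Algebra.norm k (d : L)), z, ?_, ?_, ?_, ?_, ?_⟩
  · refine mul_ne_zero hl0 (mul_ne_zero ?_ ?_)
    · rw [Ne, Algebra.norm_eq_zero_iff]; simp
    · rw [Ne, Algebra.norm_eq_zero_iff]; exact hd0'
  · intro i
    rw [hz i, hYval i, map_mul, map_mul]
    ring
  · intro i h0
    have h1 : ((z i : 𝓞 k) : k) = 0 := by rw [h0]; rfl
    rw [hz i] at h1
    rcases mul_eq_zero.mp h1 with h2 | h2
    · exact hl0 h2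
    · rw [Algebra.norm_eq_zero_iff] at h2
      exact hYne i h2
  · intro i v
    rw [hloc i (.inl v), sum_log_nv (.inl v : Pl k) ((b : 𝓞 k) : k)]
    have h1 := hlinf v
    have h2 : (finrank k L : ℝ) * Real.log (nv (.inl v : Pl k) ((b : 𝓞 k) : k)) ≤ r * Cb := by
      have h3 : |Real.log (nv (.inl v : Pl k) ((b : 𝓞 k) : k))| ≤ Cb :=
        Finset.single_le_sum (f := fun v : InfinitePlace k => |Real.log (nv (.inl v) ((b : 𝓞 k) : k))|)
          (fun _ _ => abs_nonneg _) (Finset.mem_univ v)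
      have h4 : (finrank k L : ℝ) ≤ r := by exact_mod_cast hr
      calc (finrank k L : ℝ) * Real.log (nv (.inl v : Pl k) ((b : 𝓞 k) : k))
          ≤ finrank k L * |Real.log (nv (.inl v : Pl k) ((b : 𝓞 k) : k))| :=
            mul_le_mul_of_nonneg_left (le_abs_self _) (Nat.cast_nonneg _)
        _ ≤ r * Cb := mul_le_mul h4 h3 (abs_nonneg _) (Nat.cast_nonneg _)
    linarith
  · intro i v
    rw [hloc i (.inr v), sum_log_nv (.inr v : Pl k) ((b : 𝓞 k) : k)]
    have h1 := hlfin v
    have h2 : (finrank k L : ℝ) * Real.log (nv (.inr v : Pl k) ((b : 𝓞 k) : k)) ≤ 0 :=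
      mul_nonpos_of_nonneg_of_nonpos (Nat.cast_nonneg _)
        (Real.log_nonpos (nv_nonneg _ _) (nv_int_le_one v b))
    linarith

end

end Pool.Agent.Helper52.Vojta
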