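import Mathlib
import Pool.Agent.Helper52.Vojta.Divisor

/-!
The norms of `x - a` at sufficiently many points determine the minimal polynomial of `x`.
-/

namespace Pool.Agent.Helper52.Vojta

open NumberField Finset Module Polynomial IntermediateField Pool.Agent.Helper64.Vojta

universe u

section

variable {k : Type u} [Field k] {Ω : Type u} [Field Ω] [Algebra k Ω]

theorem norm_sub_gen (x : Ω) (hx : IsIntegral k x) (a : k) :
    Algebra.norm k (AdjoinSimple.gen k x - algebraMap k k⟮x⟯ a)
      = (-1) ^ finrank k k⟮x⟯ * (minpoly k x).eval a := by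
  have hfd : FiniteDimensional k k⟮x⟯ := adjoin.finiteDimensional hx
  let pb := adjoin.powerBasis hx
  have hgen : pb.gen = AdjoinSimple.gen k x := rfl
  have h1 : (minpoly k x).eval a = Algebra.norm k (algebraMap k k⟮x⟯ a - AdjoinSimple.gen k x) := by
    rw [← minpoly_gen k x, ← hgen, ← charpoly_leftMulMatrix pb, Matrix.eval_charpoly,
      Algebra.norm_eq_matrix_det pb.basis, map_sub]
    congr 2
    ext i j
    rw [Algebra.algebraMap_eq_smul_one, map_smul, map_one]
    simp [Matrix.scalar_apply, Matrix.diagonal_apply, Matrix.one_apply]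
  have h2 : AdjoinSimple.gen k x - algebraMap k k⟮x⟯ a
      = algebraMap k k⟮x⟯ (-1) * (algebraMap k k⟮x⟯ a - AdjoinSimple.gen k x) := by
    rw [map_neg, map_one]; ring
  rw [h2, map_mul, Algebra.norm_algebraMap, h1]

theorem minpoly_eq_of_norms {n : ℕ} (a : Fin n → k) (ha : Function.Injective a) {q : ℕ} (hq : q ≤ n + 1)
    {r : ℕ} (J : Finset (Fin q)) (hJ : r + 1 ≤ J.card) (x x' : Ω) (hx : IsIntegral k x) (hx' : IsIntegral k x')
    (hr : finrank k k⟮x⟯ = r) (hr' : finrank k k⟮x'⟯ = r) (l l' : k) (hl : l ≠ 0)
    (h : ∀ i ∈ J, l * Algebra.norm k (ev (cst (frm a q i)) (aff (AdjoinSimple.gen k x)))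
      = l' * Algebra.norm k (ev (cst (frm a q i)) (aff (AdjoinSimple.gen k x')))) :
    minpoly k x = minpoly k x' := by
  classical
  have hev : ∀ (y : Ω) (i : Fin q), ev (cst (frm a q i)) (aff (AdjoinSimple.gen k y))
      = if h : (i : ℕ) < n then AdjoinSimple.gen k y - algebraMap k k⟮y⟯ (a ⟨i, h⟩) else 1 := by
    intro y i
    unfold frm
    split_ifs with h
    · simp [ev, cst, aff, Fin.sum_univ_two, sub_eq_add_neg]
    · simp [ev, cst, aff, Fin.sum_univ_two]
  have hP1 := minpoly.monic hx
  have hP1' := minpoly.monic hx'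
  have hd1 : (minpoly k x).natDegree = r := by rw [← hr, adjoin.finrank hx]
  have hd1' : (minpoly k x').natDegree = r := by rw [← hr', adjoin.finrank hx']
  set G : k[X] := C l * minpoly k x - C l' * minpoly k x' with hG
  have hGdeg : G.natDegree ≤ r := by
    refine (natDegree_sub_le _ _).trans (max_le ?_ ?_)
    · exact (natDegree_C_mul_le _ _).trans hd1.le
    · exact (natDegree_C_mul_le _ _).trans hd1'.le
  have hroot : ∀ i ∈ J, ∀ hi : (i : ℕ) < n, G.eval (a ⟨i, hi⟩) = 0 := by
    intro i hiJ hi
    have h1 := h i hiJ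
    rw [hev, hev, dif_pos hi, dif_pos hi, norm_sub_gen x hx, norm_sub_gen x' hx', hr, hr'] at h1
    rw [hG, eval_sub, eval_mul, eval_mul, eval_C, eval_C]
    have h2 : ((-1 : k)) ^ r ≠ 0 := pow_ne_zero _ (by norm_num)
    apply mul_left_cancel₀ h2
    rw [mul_zero]
    linear_combination h1
  -- the finite points of `J`
  let f : Fin q → k := fun i => if hi : (i : ℕ) < n then a ⟨i, hi⟩ else 0
  let J' : Finset (Fin q) := J.filter fun i => (i : ℕ) < n
  have hfinj : Set.InjOn f (J' : Set (Fin q)) := by
    intro i hi j hj hij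
    rw [Finset.mem_coe, Finset.mem_filter] at hi hj
    simp only [f, dif_pos hi.2, dif_pos hj.2] at hij
    have := ha hij
    exact Fin.ext (by simpa using this)
  have hroots : (J'.image f) ⊆ G.roots.toFinset ∨ G = 0 := by
    by_cases hG0 : G = 0
    · exact Or.inr hG0
    · left
      intro z hz
      obtain ⟨i, hi, rfl⟩ := Finset.mem_image.mp hz
      rw [Finset.mem_filter] at hi
      rw [Multiset.mem_toFinset, mem_roots hG0, IsRoot.def]
      simp only [f, dif_pos hi.2]
      exact hroot i hi.1 hi.2
  have hJ'card : J.card ≤ J'.card + 1 := by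
    have h1 : J.card = J'.card + (J.filter fun i : Fin q => ¬ (i : ℕ) < n).card :=
      (Finset.card_filter_add_card_filter_not (s := J) (fun i : Fin q => (i : ℕ) < n)).symm
    have h2 : (J.filter fun i : Fin q => ¬ (i : ℕ) < n).card ≤ 1 := by
      rw [Finset.card_le_one]
      intro i hi j hj
      rw [Finset.mem_filter] at hi hj
      exact Fin.ext (by omega)
    omega
  have hGzero : G = 0 := by
    rcases hroots with h1 | h1
    swap
    · exact h1
    by_contra hG0
    have h2 : J'.card ≤ G.natDegree := by
      calc J'.card = (J'.image f).card := (Finset.card_image_of_injOn hfinj).symm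
        _ ≤ G.roots.toFinset.card := Finset.card_le_card h1
        _ ≤ Multiset.card G.roots := Multiset.toFinset_card_le _
        _ ≤ G.natDegree := card_roots' G
    -- there is the point at infinity in `J`
    have h3 : J'.card < J.card := by omega
    have h4 : ∃ i ∈ J, ¬ (i : ℕ) < n := by
      by_contra hcon
      push Not at hcon
      have : J' = J := Finset.filter_true_of_mem hcon
      rw [this] at h3
      exact lt_irrefl _ h3
    obtain ⟨i, hiJ, hi⟩ := h4
    have h5 := h i hiJ
    rw [hev, hev, dif_neg hi, dif_neg hi, map_one, map_one, mul_one, mul_one] at h5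
    -- the degree drops
    have h6 : G.coeff r = 0 := by
      rw [hG, coeff_sub, coeff_C_mul, coeff_C_mul]
      have e1 : (minpoly k x).coeff r = 1 := by rw [← hd1]; exact hP1
      have e2 : (minpoly k x').coeff r = 1 := by rw [← hd1']; exact hP1'
      rw [e1, e2, h5, sub_self]
    have h7 : G.natDegree ≠ r := by
      intro h8
      have : G.leadingCoeff = 0 := by rw [leadingCoeff, h8]; exact h6
      exact hG0 (leadingCoeff_eq_zero.mp this)
    omega
  have hlead : l = l' := by
    have h1 : G.coeff r = 0 := by rw [hGzero]; simp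
    rw [hG, coeff_sub, coeff_C_mul, coeff_C_mul] at h1
    have e1 : (minpoly k x).coeff r = 1 := by rw [← hd1]; exact hP1
    have e2 : (minpoly k x').coeff r = 1 := by rw [← hd1']; exact hP1'
    rw [e1, e2, mul_one, mul_one] at h1
    exact sub_eq_zero.mp h1
  have h1 : C l * minpoly k x = C l * minpoly k x' := by
    have := sub_eq_zero.mp (hG ▸ hGzero : C l * minpoly k x - C l' * minpoly k x' = 0)
    rw [this, hlead]
  exact mul_left_cancel₀ (by rw [Ne, C_eq_zero]; exact hl) h1

end

end Pool.Agent.Helper52.Vojta
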