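import Mathlib

/-!
A relative form of Minkowski's theorem: for an extension `L/K` of number fields there is a nonzero
algebraic integer of `L` with relative trace zero, all of whose archimedean absolute values are
bounded by (essentially) the `2 (m - n)`-th root of the discriminant of `L`, where `m = [L : ℚ]`
and `n = [K : ℚ]`.
-/

namespace Pool.Agent.Helper52.Vojta

open NumberField NumberField.mixedEmbedding MeasureTheory Module Submodule

open scoped Classical in
/-- the covolume of a sublattice of the lattice of integers -/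
theorem covolume_sub (L : Type*) [Field L] [NumberField L] (Λ : Submodule ℤ (mixedSpace L))
    [DiscreteTopology Λ] [IsZLattice ℝ Λ] (h : Λ ≤ mixedEmbedding.integerLattice L) :
    ZLattice.covolume Λ = Λ.toAddSubgroup.relIndex (mixedEmbedding.integerLattice L).toAddSubgroup *
      ZLattice.covolume (mixedEmbedding.integerLattice L) := by
  have h1 := ZLattice.covolume_comap Λ volume volume
    (e := euclidean.toMixed L) (euclidean.volumePreserving_toMixed L)
  have h2 := ZLattice.covolume_comap (mixedEmbedding.integerLattice L) volume volume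
    (e := euclidean.toMixed L) (euclidean.volumePreserving_toMixed L)
  have h3 := ZLattice.covolume_div_covolume_eq_relIndex'
    (ZLattice.comap ℝ Λ (euclidean.toMixed L).toLinearMap)
    (ZLattice.comap ℝ (mixedEmbedding.integerLattice L) (euclidean.toMixed L).toLinearMap)
    (fun _ h' ↦ h h')
  have h4 : (ZLattice.comap ℝ Λ (euclidean.toMixed L).toLinearMap).toAddSubgroup.relIndex
      (ZLattice.comap ℝ (mixedEmbedding.integerLattice L) (euclidean.toMixed L).toLinearMap).toAddSubgroup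
      = Λ.toAddSubgroup.relIndex (mixedEmbedding.integerLattice L).toAddSubgroup := by
    rw [ZLattice.comap_toAddSubgroup, ZLattice.comap_toAddSubgroup,
      AddSubgroup.relIndex_comap]
    congr 1
    exact AddSubgroup.map_comap_eq_self_of_surjective (euclidean.toMixed L).surjective _
  rw [h1, h2, h4] at h3
  rw [← h3, div_mul_cancel₀]
  exact ZLattice.covolume_ne_zero _ _

/-- The subgroup of integers whose relative trace is divisible by `N`. -/
noncomputable def trDiv (K L : Type*) [Field K] [NumberField K] [Field L] [NumberField L] [Algebra K L]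
    (N : ℕ) : AddSubgroup (𝓞 L) :=
  AddMonoidHom.ker ((Ideal.Quotient.mk (Ideal.span {(N : 𝓞 K)})).toAddMonoidHom.comp
    (Algebra.intTrace (𝓞 K) (𝓞 L)).toAddMonoidHom)

section

variable {K L : Type*} [Field K] [NumberField K] [Field L] [NumberField L] [Algebra K L]

theorem mem_trDiv {N : ℕ} {α : 𝓞 L} :
    α ∈ trDiv K L N ↔ ∃ β : 𝓞 K, Algebra.intTrace (𝓞 K) (𝓞 L) α = N * β := by
  unfold trDiv
  rw [AddMonoidHom.mem_ker]
  change Ideal.Quotient.mk (Ideal.span {(N : 𝓞 K)}) (Algebra.intTrace (𝓞 K) (𝓞 L) α) = 0 ↔ _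
  rw [Ideal.Quotient.eq_zero_iff_mem, Ideal.mem_span_singleton']
  constructor
  · rintro ⟨β, hβ⟩; exact ⟨β, by rw [← hβ, mul_comm]⟩
  · rintro ⟨β, hβ⟩; exact ⟨β, by rw [hβ, mul_comm]⟩

theorem index_trDiv_le (K L : Type*) [Field K] [NumberField K] [Field L] [NumberField L] [Algebra K L]
    {N : ℕ} (hN : N ≠ 0) :
    (trDiv K L N).index ≤ N ^ finrank ℚ K ∧ (trDiv K L N).index ≠ 0 := by
  have hcard : Nat.card (𝓞 K ⧸ Ideal.span {(N : 𝓞 K)}) = N ^ finrank ℚ K := by
    have h1 := Ideal.absNorm_span_natCast (S := 𝓞 K) N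
    rw [Ideal.absNorm_apply, RingOfIntegers.rank] at h1
    exact h1
  have hfin : Finite (𝓞 K ⧸ Ideal.span {(N : 𝓞 K)}) := by
    apply Nat.finite_of_card_ne_zero
    rw [hcard]; positivity
  unfold trDiv
  rw [AddSubgroup.index_ker]
  constructor
  · rw [← hcard]
    exact Nat.card_le_card_of_injective _ Subtype.val_injective
  · have : Finite (((Ideal.Quotient.mk (Ideal.span {(N : 𝓞 K)})).toAddMonoidHom.comp
      (Algebra.intTrace (𝓞 K) (𝓞 L)).toAddMonoidHom).range) := inferInstance
    exact Nat.card_pos.ne'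

/-- the lattice of integers with trace divisible by `N`, in the mixed space -/
noncomputable def Lam (K L : Type*) [Field K] [NumberField K] [Field L] [NumberField L] [Algebra K L]
    (N : ℕ) : Submodule ℤ (mixedSpace L) :=
  AddSubgroup.toIntSubmodule ((trDiv K L N).map
    ((mixedEmbedding L).comp (algebraMap (𝓞 L) L)).toAddMonoidHom)

theorem mem_Lam {N : ℕ} {z : mixedSpace L} :
    z ∈ Lam K L N ↔ ∃ α : 𝓞 L, α ∈ trDiv K L N ∧ mixedEmbedding L α = z := by
  constructor
  · rintro ⟨α, hα, rfl⟩; exact ⟨α, hα, rfl⟩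
  · rintro ⟨α, hα, rfl⟩; exact ⟨α, hα, rfl⟩

theorem Lam_le (N : ℕ) : Lam K L N ≤ mixedEmbedding.integerLattice L := by
  intro z hz
  obtain ⟨α, _, rfl⟩ := mem_Lam.mp hz
  exact ⟨α, rfl⟩

open scoped Classical in
instance (N : ℕ) : DiscreteTopology (Lam K L N) :=
  DiscreteTopology.of_subset (s := (mixedEmbedding.integerLattice L : Set (mixedSpace L)))
    (inferInstanceAs (DiscreteTopology (mixedEmbedding.integerLattice L))) (Lam_le N)

open scoped Classical in
theorem Lam_isZLattice (K L : Type*) [Field K] [NumberField K] [Field L] [NumberField L] [Algebra K L]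
    {N : ℕ} (hN : N ≠ 0) : IsZLattice ℝ (Lam K L N) where
  span_top := by
    have h1 : span ℝ (mixedEmbedding.integerLattice L : Set (mixedSpace L)) = ⊤ :=
      IsZLattice.span_top
    rw [eq_top_iff, ← h1, span_le]
    rintro _ ⟨α, rfl⟩
    have h2 : mixedEmbedding L ((N : 𝓞 L) * α : 𝓞 L) ∈ Lam K L N := by
      rw [mem_Lam]
      refine ⟨_, ?_, rfl⟩
      rw [mem_trDiv]
      refine ⟨Algebra.intTrace (𝓞 K) (𝓞 L) α, ?_⟩
      have : ((N : 𝓞 L) * α : 𝓞 L) = (N : ℕ) • α := by rw [nsmul_eq_mul]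
      rw [this, map_nsmul, nsmul_eq_mul]
    have hN' : (N : ℝ) ≠ 0 := by exact_mod_cast hN
    have h3 : (((mixedEmbedding L).comp (algebraMap (𝓞 L) L)).toIntAlgHom.toLinearMap α : mixedSpace L)
        = (N : ℝ)⁻¹ • mixedEmbedding L ((N : 𝓞 L) * α : 𝓞 L) := by
      have h4 : mixedEmbedding L ((N : 𝓞 L) * α : 𝓞 L) = (N : ℝ) • mixedEmbedding L α := by
        have : (((N : 𝓞 L) * α : 𝓞 L) : L) = (N : ℕ) • (α : L) := by
          rw [nsmul_eq_mul]; simp
        rw [this, map_nsmul, ← Nat.cast_smul_eq_nsmul ℝ]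
      rw [h4, smul_smul, inv_mul_cancel₀ hN', one_smul]
      rfl
    rw [SetLike.mem_coe, h3]
    exact Submodule.smul_mem _ _ (subset_span h2)

open scoped Classical in
/-- existence of a small nonzero integer whose relative trace is divisible by `N` -/
theorem exists_mem_trDiv {N : ℕ} (hN : N ≠ 0) {R : ℝ} (hR : 0 ≤ R)
    (h : (2 : ℝ) ^ finrank ℚ L * (N : ℝ) ^ finrank ℚ K * √|discr L| < R ^ finrank ℚ L) :
    ∃ α : 𝓞 L, α ≠ 0 ∧ α ∈ trDiv K L N ∧ ∀ w : InfinitePlace L, w α < R := by
  have := Lam_isZLattice K L hN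
  let b := Module.Free.chooseBasis ℤ (Lam K L N)
  have hfund := ZLattice.isAddFundamentalDomain b (volume : Measure (mixedSpace L))
  set F := ZSpan.fundamentalDomain (b.ofZLatticeBasis ℝ (Lam K L N)) with hF
  have hcov : ZLattice.covolume (Lam K L N) = volume.real F :=
    ZLattice.covolume_eq_measure_fundamentalDomain _ _ hfund
  have hcov2 := covolume_sub L (Lam K L N) (Lam_le N)
  have hidx : (Lam K L N).toAddSubgroup.relIndex (mixedEmbedding.integerLattice L).toAddSubgroup
      = (trDiv K L N).index := by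
    have hinj : Function.Injective (((mixedEmbedding L).comp (algebraMap (𝓞 L) L)).toAddMonoidHom) :=
      (mixedEmbedding_injective L).comp RingOfIntegers.coe_injective
    have e1 : (Lam K L N).toAddSubgroup = (trDiv K L N).map
        ((mixedEmbedding L).comp (algebraMap (𝓞 L) L)).toAddMonoidHom := by
      unfold Lam; rfl
    have e2 : (mixedEmbedding.integerLattice L).toAddSubgroup = (⊤ : AddSubgroup (𝓞 L)).map
        ((mixedEmbedding L).comp (algebraMap (𝓞 L) L)).toAddMonoidHom := by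
      ext z
      constructor
      · rintro ⟨α, rfl⟩; exact ⟨α, trivial, rfl⟩
      · rintro ⟨α, _, rfl⟩; exact ⟨α, rfl⟩
    rw [e1, e2, AddSubgroup.relIndex_map_map_of_injective _ _ hinj, AddSubgroup.relIndex_top_right]
  rw [hidx, covolume_integerLattice] at hcov2
  have hle : ZLattice.covolume (Lam K L N) ≤ (N : ℝ) ^ finrank ℚ K * √|discr L| := by
    rw [hcov2]
    have h1 : ((trDiv K L N).index : ℝ) ≤ (N : ℝ) ^ finrank ℚ K := by
      exact_mod_cast (index_trDiv_le K L hN).1
    have h2 : (2⁻¹ : ℝ) ^ InfinitePlace.nrComplexPlaces L * √|discr L| ≤ 1 * √|discr L| :=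
      mul_le_mul_of_nonneg_right (pow_le_one₀ (by norm_num) (by norm_num)) (Real.sqrt_nonneg _)
    rw [one_mul] at h2
    exact mul_le_mul h1 h2 (by positivity) (by positivity)
  obtain ⟨ρ, hρ⟩ : ∃ ρ : NNReal, (ρ : ℝ) = R := ⟨R.toNNReal, Real.coe_toNNReal R hR⟩
  let f : InfinitePlace L → NNReal := fun _ => ρ
  have hvol : volume F * 2 ^ finrank ℝ (mixedSpace L) < volume (convexBodyLT L f) := by
    have hFfin : volume F ≠ ⊤ := by
      have : Bornology.IsBounded F := ZSpan.fundamentalDomain_isBounded _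
      exact this.measure_lt_top.ne
    rw [convexBodyLT_volume, mixedEmbedding.finrank]
    have h3 : volume F = ENNReal.ofReal (ZLattice.covolume (Lam K L N)) := by
      rw [hcov, measureReal_def, ENNReal.ofReal_toReal hFfin]
    have h4 : (∏ w : InfinitePlace L, f w ^ w.mult : NNReal) = ρ ^ finrank ℚ L := by
      simp only [f]
      rw [Finset.prod_pow_eq_pow_sum, InfinitePlace.sum_mult_eq]
    rw [h3]
    have h5 : ENNReal.ofReal (ZLattice.covolume (Lam K L N)) * 2 ^ finrank ℚ L
        = ENNReal.ofReal (ZLattice.covolume (Lam K L N) * 2 ^ finrank ℚ L) := by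
      rw [ENNReal.ofReal_mul (ZLattice.covolume_pos _ _).le]
      congr 1
      rw [ENNReal.ofReal_pow (by norm_num)]
      norm_num
    rw [h5]
    have h6 : (1 : ENNReal) ≤ (convexBodyLTFactor L : NNReal) := by
      exact_mod_cast one_le_convexBodyLTFactor L
    have h7 : ENNReal.ofReal (ZLattice.covolume (Lam K L N) * 2 ^ finrank ℚ L)
        < ((∏ w : InfinitePlace L, f w ^ w.mult : NNReal) : ENNReal) := by
      rw [h4, ENNReal.ofReal_lt_coe_iff (mul_nonneg (ZLattice.covolume_pos _ _).le (by positivity))]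
      push_cast
      rw [hρ]
      refine lt_of_le_of_lt ?_ h
      have : (0 : ℝ) < 2 ^ finrank ℚ L := by positivity
      nlinarith
    calc _ < ((∏ w : InfinitePlace L, f w ^ w.mult : NNReal) : ENNReal) := h7
      _ = 1 * ((∏ w : InfinitePlace L, f w ^ w.mult : NNReal) : ENNReal) := (one_mul _).symm
      _ ≤ _ := mul_le_mul_left h6 _
  have : Countable (Lam K L N).toAddSubgroup :=
    inferInstanceAs (Countable (Lam K L N))
  obtain ⟨⟨x, hx⟩, h_nz, h_mem⟩ := exists_ne_zero_mem_lattice_of_measure_mul_two_pow_lt_measure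
    (L := (Lam K L N).toAddSubgroup) hfund (convexBodyLT_neg_mem L f) (convexBodyLT_convex L f) hvol
  obtain ⟨α, hα, rfl⟩ := mem_Lam.mp hx
  refine ⟨α, ?_, hα, fun w => ?_⟩
  · rintro rfl
    apply h_nz
    ext1
    simp
  · rw [← hρ]
    exact (convexBodyLT_mem L f).mp h_mem w

/-- An algebraic integer all of whose absolute values are `< 1` is zero. -/
theorem eq_zero_of_lt_one (β : 𝓞 K) (h : ∀ v : InfinitePlace K, v β < 1) : β = 0 := by
  by_contra hβ
  obtain ⟨v⟩ := (inferInstance : Nonempty (InfinitePlace K))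
  exact absurd (InfinitePlace.one_le_of_lt_one hβ fun z _ => h z) (not_le.mpr (h v))

/-- size of the relative trace -/
theorem trace_le (x : L) {R : ℝ} (hx : ∀ w : InfinitePlace L, w x ≤ R) (v : InfinitePlace K) :
    v (Algebra.trace K L x) ≤ finrank K L * R := by
  let _ : Algebra K ℂ := v.embedding.toAlgebra
  have h1 := trace_eq_sum_embeddings (K := K) (L := L) ℂ (x := x)
  have h2 : v (Algebra.trace K L x) = ‖algebraMap K ℂ (Algebra.trace K L x)‖ :=
    (InfinitePlace.norm_embedding_eq v _).symm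
  rw [h2, h1]
  calc ‖∑ σ : L →ₐ[K] ℂ, σ x‖ ≤ ∑ σ : L →ₐ[K] ℂ, ‖σ x‖ := norm_sum_le _ _
    _ ≤ ∑ σ : L →ₐ[K] ℂ, R := Finset.sum_le_sum fun σ _ => hx (InfinitePlace.mk σ.toRingHom)
    _ = finrank K L * R := by
      rw [Finset.sum_const, nsmul_eq_mul, Finset.card_univ, AlgHom.card]

/-- existence of a small nonzero integer of relative trace zero -/
theorem exists_trace_zero {R : ℝ} (hR : 1 ≤ R)
    (h : (2 : ℝ) ^ finrank ℚ L * ((finrank K L + 1) * R) ^ finrank ℚ K * √|discr L|
      < R ^ finrank ℚ L) :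
    ∃ α : 𝓞 L, α ≠ 0 ∧ Algebra.trace K L α = 0 ∧ ∀ w : InfinitePlace L, w α < R := by
  set e := finrank K L with he
  have he0 : (0 : ℝ) < e := by
    have : 0 < e := Module.finrank_pos
    exact_mod_cast this
  set N : ℕ := ⌈(e : ℝ) * R⌉₊ with hN
  have hN1 : (e : ℝ) * R ≤ N := Nat.le_ceil _
  have hN2 : (N : ℝ) ≤ (e + 1) * R := by
    have := (Nat.ceil_lt_add_one (show 0 ≤ (e : ℝ) * R by positivity)).le
    linarith
  have hN0 : N ≠ 0 := by
    intro h0
    rw [h0] at hN1
    have : 0 < (e : ℝ) * R := by positivity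
    simp at hN1
    linarith
  have hNpos : (0 : ℝ) < N := by positivity
  obtain ⟨α, hα0, hα, hαR⟩ := exists_mem_trDiv (K := K) (L := L) hN0 (R := R) (by linarith)
    (lt_of_le_of_lt (by
      have := pow_le_pow_left₀ (Nat.cast_nonneg N) hN2 (finrank ℚ K)
      gcongr) h)
  refine ⟨α, hα0, ?_, hαR⟩
  obtain ⟨β, hβ⟩ := mem_trDiv.mp hα
  have h1 : algebraMap (𝓞 K) K (Algebra.intTrace (𝓞 K) (𝓞 L) α) = Algebra.trace K L α :=
    Algebra.algebraMap_intTrace (A := 𝓞 K) (K := K) (L := L) (B := 𝓞 L) α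
  have hlt : ∀ v : InfinitePlace K, v (Algebra.trace K L α) < e * R := by
    intro v
    -- strict inequality from the finite set of places
    obtain ⟨w₀, hw₀⟩ := Finite.exists_max (fun w : InfinitePlace L => w (α : L))
    have := trace_le (K := K) (α : L) (R := w₀ α) hw₀ v
    have h3 : (finrank K L : ℝ) * w₀ α < e * R := by
      rw [← he]
      exact mul_lt_mul_of_pos_left (hαR w₀) he0
    exact this.trans_lt h3
  have hβ0 : β = 0 := by
    apply eq_zero_of_lt_one
    intro v
    have h2 := hlt v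
    rw [← h1, hβ] at h2
    have h3 : v (algebraMap (𝓞 K) K (N * β)) = N * v β := by
      rw [map_mul, map_natCast, map_mul]
      congr 1
      simp
    rw [h3] at h2
    have h4 : (N : ℝ) * v β < N := lt_of_lt_of_le h2 hN1
    nlinarith
  rw [← h1, hβ, hβ0, mul_zero, map_zero]

end

/-- Relative Minkowski bound: existence of a nonzero integer of relative trace zero, of size
`C |disc L| ^ (1 / (2 n (e - 1)))`. -/
theorem exists_trace_zero_le (n e : ℕ) (he : 2 ≤ e) : ∃ C : ℝ, 1 ≤ C ∧
    ∀ (K L : Type*) [Field K] [NumberField K] [Field L] [NumberField L] [Algebra K L],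
      finrank ℚ K = n → finrank K L = e →
      ∃ α : 𝓞 L, α ≠ 0 ∧ Algebra.trace K L α = 0 ∧
        ∀ w : InfinitePlace L, w α ≤ C * |(discr L : ℝ)| ^ (1 / (2 * n * (e - 1)) : ℝ) := by
  set c : ℝ := 2 ^ (n * e) * (e + 1) ^ n + 1 with hc
  have hc1 : 1 ≤ c := by
    have : (0 : ℝ) ≤ 2 ^ (n * e) * (e + 1) ^ n := by positivity
    linarith
  refine ⟨c ^ (1 / (n * (e - 1)) : ℝ), ?_, ?_⟩
  · apply Real.one_le_rpow hc1
    have : (1 : ℝ) ≤ e := by exact_mod_cast (by omega : 1 ≤ e)
    have h2 : (0 : ℝ) ≤ e - 1 := by linarith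
    positivity
  intro K L _ _ _ _ _ hn hfe
  have hn0 : 0 < n := by rw [← hn]; exact Module.finrank_pos
  have hm : finrank ℚ L = n * e := by
    rw [← hn, ← hfe]; exact (Module.finrank_mul_finrank ℚ K L).symm
  have hd1 : (1 : ℝ) ≤ |(discr L : ℝ)| := by
    rw [← Int.cast_abs]
    exact_mod_cast Int.one_le_abs (discr_ne_zero L)
  set d : ℝ := |(discr L : ℝ)| with hd
  set R : ℝ := c ^ (1 / (n * (e - 1)) : ℝ) * d ^ (1 / (2 * n * (e - 1)) : ℝ) with hRdef
  have hn' : (0 : ℝ) < n := by exact_mod_cast hn0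
  have he' : (0 : ℝ) < (e : ℝ) - 1 := by
    have : (2 : ℝ) ≤ e := by exact_mod_cast he
    linarith
  have hR1 : 1 ≤ R := by
    rw [hRdef]
    have h1 : 1 ≤ c ^ (1 / (n * (e - 1)) : ℝ) := Real.one_le_rpow hc1 (by positivity)
    have h2 : 1 ≤ d ^ (1 / (2 * n * (e - 1)) : ℝ) := Real.one_le_rpow hd1 (by positivity)
    nlinarith
  have hR0 : 0 < R := by linarith
  have hpow : R ^ (n * (e - 1)) = c * √d := by
    rw [hRdef, mul_pow, ← Real.rpow_natCast, ← Real.rpow_natCast, ← Real.rpow_mul (by linarith),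
      ← Real.rpow_mul (by linarith)]
    have e1 : ((n * (e - 1) : ℕ) : ℝ) = n * (e - 1) := by
      push_cast [Nat.cast_sub (by omega : 1 ≤ e)]; ring
    rw [e1]
    have e2 : (1 / (n * (e - 1)) : ℝ) * (n * (e - 1)) = 1 := by field_simp
    have e3 : (1 / (2 * n * (e - 1)) : ℝ) * (n * (e - 1)) = 1 / 2 := by field_simp
    rw [e2, e3, Real.rpow_one, Real.sqrt_eq_rpow]
  have hkey : (2 : ℝ) ^ finrank ℚ L * ((finrank K L + 1) * R) ^ finrank ℚ K * √|(discr L : ℝ)|
      < R ^ finrank ℚ L := by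
    rw [hm, hn, hfe]
    have e1 : R ^ (n * e) = R ^ n * R ^ (n * (e - 1)) := by
      rw [← pow_add]
      congr 1
      obtain ⟨f, rfl⟩ : ∃ f, e = f + 1 := ⟨e - 1, by omega⟩
      simp; ring
    rw [e1, hpow, mul_pow]
    have hsq : 0 < √d := Real.sqrt_pos.mpr (by linarith)
    have hRn : 0 < R ^ n := by positivity
    have : (2 : ℝ) ^ (n * e) * ((e + 1) ^ n * R ^ n) * √d = R ^ n * ((c - 1) * √d) := by
      rw [hc]; ring
    rw [this]
    have h3 : (c - 1) * √d < c * √d := by nlinarith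
    exact mul_lt_mul_of_pos_left h3 hRn
  obtain ⟨α, h0, h1, h2⟩ := exists_trace_zero (K := K) (L := L) hR1 hkey
  exact ⟨α, h0, h1, fun w => (h2 w).le⟩

end Pool.Agent.Helper52.Vojta
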