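import Mathlib
import Pool.Agent.Helper52.Vojta.TraceZero

/-!
Counting algebraic integers of bounded size, uniformly in the number field.
-/

namespace Pool.Agent.Helper52.Vojta

open NumberField Module Finset

section

variable (K : Type*) [Field K] [NumberField K]

/-- integers of `K` all of whose archimedean absolute values are at most `ρ` -/
def smallInt (ρ : ℝ) : Set (𝓞 K) := {β | ∀ v : InfinitePlace K, v β ≤ ρ}

open scoped Classical in
/-- the cell of an integer -/
noncomputable def cell (β : 𝓞 K) (v : InfinitePlace K) : ℤ × ℤ :=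
  (⌊2 * (v.embedding β).re⌋, if v.IsReal then 0 else ⌊2 * (v.embedding β).im⌋)

theorem cell_injective : Function.Injective (cell K) := by
  intro β γ h
  rw [← sub_eq_zero]
  apply eq_zero_of_lt_one
  intro v
  have hv := congrFun h v
  simp only [cell, Prod.mk.injEq] at hv
  obtain ⟨h1, h2⟩ := hv
  have h3 : |2 * (v.embedding β).re - 2 * (v.embedding γ).re| < 1 := Int.abs_sub_lt_one_of_floor_eq_floor h1
  have h4 : |2 * (v.embedding β).im - 2 * (v.embedding γ).im| < 1 := by
    by_cases hr : v.IsReal
    · have e1 : ∀ x : K, (v.embedding x).im = 0 := by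
        intro x
        have := InfinitePlace.isReal_iff.mp hr
        have h5 := ComplexEmbedding.IsReal.coe_embedding_apply this x
        rw [← h5]; exact Complex.ofReal_im _
      rw [e1, e1]; norm_num
    · rw [if_neg hr, if_neg hr] at h2
      exact Int.abs_sub_lt_one_of_floor_eq_floor h2
  have h5 : v ((β - γ : 𝓞 K) : K) = ‖v.embedding β - v.embedding γ‖ := by
    rw [← InfinitePlace.norm_embedding_eq v, ← map_sub]
    rfl
  rw [h5]
  set z := v.embedding β - v.embedding γ with hz
  have h6 : |z.re| < 1 / 2 := by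
    have : 2 * (v.embedding β).re - 2 * (v.embedding γ).re = 2 * z.re := by
      rw [hz, Complex.sub_re]; ring
    rw [this, abs_mul, abs_two] at h3; linarith
  have h7 : |z.im| < 1 / 2 := by
    have : 2 * (v.embedding β).im - 2 * (v.embedding γ).im = 2 * z.im := by
      rw [hz, Complex.sub_im]; ring
    rw [this, abs_mul, abs_two] at h4; linarith
  calc ‖z‖ ≤ |z.re| + |z.im| := Complex.norm_le_abs_re_add_abs_im z
    _ < 1 := by linarith

open scoped Classical in
theorem smallInt_card (ρ : ℝ) (hρ : 1 ≤ ρ) :
    (smallInt K ρ).Finite ∧ ((smallInt K ρ).ncard : ℝ) ≤ (7 * ρ) ^ finrank ℚ K := by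
  set M : ℤ := ⌊2 * ρ⌋ + 1 with hM
  have hM0 : 0 ≤ M := by
    have : 0 ≤ ⌊2 * ρ⌋ := Int.floor_nonneg.mpr (by linarith)
    omega
  let T : Finset (InfinitePlace K → ℤ × ℤ) := Fintype.piFinset fun v =>
    (Finset.Icc (-M) M) ×ˢ (if v.IsReal then {0} else Finset.Icc (-M) M)
  have hfloor : ∀ t : ℝ, |t| ≤ ρ → ⌊2 * t⌋ ∈ Finset.Icc (-M) M := by
    intro t ht
    rw [abs_le] at ht
    rw [Finset.mem_Icc]
    constructor
    · rw [Int.le_floor, hM]
      push_cast
      have := Int.lt_floor_add_one (2 * ρ)
      linarith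
    · have : ⌊2 * t⌋ ≤ ⌊2 * ρ⌋ := Int.floor_le_floor (by linarith)
      omega
  have hmaps : ∀ β ∈ smallInt K ρ, cell K β ∈ (T : Set (InfinitePlace K → ℤ × ℤ)) := by
    intro β hβ
    rw [Finset.mem_coe, Fintype.mem_piFinset]
    intro v
    have hv : ‖v.embedding β‖ ≤ ρ := by
      rw [InfinitePlace.norm_embedding_eq]; exact hβ v
    rw [Finset.mem_product]
    refine ⟨hfloor _ ((Complex.abs_re_le_norm _).trans hv), ?_⟩
    simp only [cell]
    split_ifs with hr
    · exact Finset.mem_singleton_self _
    · exact hfloor _ ((Complex.abs_im_le_norm _).trans hv)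
  have hfin : (smallInt K ρ).Finite :=
    Set.Finite.of_finite_image (T.finite_toSet.subset (Set.image_subset_iff.mpr hmaps))
      (cell_injective K).injOn
  refine ⟨hfin, ?_⟩
  have h1 : (smallInt K ρ).ncard ≤ T.card := by
    rw [← Set.ncard_image_of_injective _ (cell_injective K), ← Set.ncard_coe_finset]
    exact Set.ncard_le_ncard (Set.image_subset_iff.mpr hmaps) T.finite_toSet
  have h2 : (T.card : ℝ) ≤ (7 * ρ) ^ finrank ℚ K := by
    rw [Fintype.card_piFinset, ← InfinitePlace.sum_mult_eq, ← Finset.prod_pow_eq_pow_sum]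
    push_cast
    apply Finset.prod_le_prod
    · intro v _; positivity
    · intro v _
      have hIcc : ((Finset.Icc (-M) M).card : ℝ) ≤ 7 * ρ := by
        rw [Int.card_Icc]
        have h3 : ((M + 1 - -M).toNat : ℤ) = 2 * M + 1 := by rw [Int.toNat_of_nonneg (by omega)]; ring
        have h4 : ((M + 1 - -M).toNat : ℝ) = 2 * M + 1 := by exact_mod_cast h3
        rw [h4, hM]
        push_cast
        have := Int.floor_le (2 * ρ)
        linarith
      rw [Finset.card_product]
      push_cast
      unfold InfinitePlace.mult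
      split_ifs with hr
      · simpa using hIcc
      · rw [sq]
        exact mul_le_mul hIcc hIcc (by positivity) (by linarith)
  calc ((smallInt K ρ).ncard : ℝ) ≤ T.card := by exact_mod_cast h1
    _ ≤ _ := h2

end

end Pool.Agent.Helper52.Vojta
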