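import Mathlib
import Pool.Agent.Helper52.Vojta.IntCount

/-!
Counting algebraic integers of given degree and of relative trace zero over a number field, all of
whose complex conjugates are bounded.
-/

namespace Pool.Agent.Helper52.Vojta

open NumberField Module Finset Polynomial

universe u

section

variable (K Ω : Type u) [Field K] [NumberField K] [Field Ω] [Algebra K Ω]

/-- algebraic integers of degree `d` over `K`, with vanishing second coefficient of the minimal
polynomial over `K`, all of whose complex conjugates have absolute value at most `R` -/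
def smallGen (d : ℕ) (R : ℝ) : Set Ω :=
  {α | IsIntegral ℤ α ∧ (minpoly K α).natDegree = d ∧ (minpoly K α).coeff (d - 1) = 0 ∧
    ∀ φ : Ω →+* ℂ, ‖φ α‖ ≤ R}

variable [IsAlgClosed Ω] [Algebra.IsAlgebraic K Ω]

theorem isIntegral_ringOfIntegers {α : Ω} (h : IsIntegral ℤ α) : IsIntegral (𝓞 K) α :=
  h.tower_top

theorem minpoly_eq {α : Ω} (h : IsIntegral ℤ α) :
    minpoly K α = (minpoly (𝓞 K) α).map (algebraMap (𝓞 K) K) :=
  minpoly.isIntegrallyClosed_eq_field_fractions' K (isIntegral_ringOfIntegers K Ω h)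

theorem coeff_bound {d : ℕ} {R : ℝ} {α : Ω} (h : α ∈ smallGen K Ω d R) (i : ℕ) (v : InfinitePlace K) :
    v ((minpoly (𝓞 K) α).coeff i : K) ≤ 2 ^ d * R ^ (d - i) := by
  obtain ⟨hint, hdeg, _, hR⟩ := h
  let _ : Algebra K ℂ := v.embedding.toAlgebra
  have h0 : (0 : ℝ) ≤ R := by
    have φ : Ω →ₐ[K] ℂ := IsAlgClosed.lift
    exact (norm_nonneg _).trans (hR φ.toRingHom)
  have h1 : v ((minpoly (𝓞 K) α).coeff i : K) = ‖((minpoly K α).map (algebraMap K ℂ)).coeff i‖ := by
    rw [minpoly_eq K Ω hint, coeff_map, coeff_map]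
    exact (InfinitePlace.norm_embedding_eq v _).symm
  rw [h1]
  have hKint : IsIntegral K α := hint.tower_top
  have h2 := coeff_le_of_roots_le (p := minpoly K α) (f := algebraMap K ℂ) (B := R) i
    (minpoly.monic hKint) (IsAlgClosed.splits _) (by
      intro z hz
      have hz' : z ∈ (minpoly K α).rootSet ℂ := by
        rw [mem_rootSet]
        refine ⟨minpoly.ne_zero hKint, ?_⟩
        rw [mem_roots (Polynomial.map_ne_zero (minpoly.ne_zero hKint)), IsRoot.def, eval_map_algebraMap] at hz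
        exact hz
      rw [← Algebra.IsAlgebraic.range_eval_eq_rootSet_minpoly (F := K) (K := Ω) (A := ℂ) α] at hz'
      obtain ⟨ψ, rfl⟩ := hz'
      exact hR ψ.toRingHom)
  rw [hdeg] at h2
  refine h2.trans ?_
  have h3 : ((d.choose i : ℕ) : ℝ) ≤ 2 ^ d := by exact_mod_cast Nat.choose_le_two_pow d i
  calc R ^ (d - i) * (d.choose i : ℝ) ≤ R ^ (d - i) * 2 ^ d :=
        mul_le_mul_of_nonneg_left h3 (by positivity)
    _ = _ := mul_comm _ _

/-- the vector of the free coefficients -/
noncomputable def coeffVec (d : ℕ) (α : Ω) (j : Fin (d - 1)) : 𝓞 K :=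
  (minpoly (𝓞 K) α).coeff (d - (j + 2))

theorem minpoly_eq_of_coeffVec {d : ℕ} (hd : 2 ≤ d) {R : ℝ} {α β : Ω} (hα : α ∈ smallGen K Ω d R)
    (hβ : β ∈ smallGen K Ω d R) (h : coeffVec K Ω d α = coeffVec K Ω d β) :
    minpoly K α = minpoly K β := by
  obtain ⟨ia, da, ca, _⟩ := hα
  obtain ⟨ib, db, cb, _⟩ := hβ
  ext i
  rcases lt_trichotomy i d with hi | hi | hi
  · rcases Nat.lt_or_ge i (d - 1) with hi' | hi'
    · have := congrFun h ⟨d - 2 - i, by omega⟩
      simp only [coeffVec] at this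
      rw [show d - (d - 2 - i + 2) = i by omega] at this
      rw [minpoly_eq K Ω ia, minpoly_eq K Ω ib, coeff_map, coeff_map, this]
    · rw [show i = d - 1 by omega, ca, cb]
  · subst hi
    have h1 : (minpoly K α).coeff (minpoly K α).natDegree = 1 := minpoly.monic (ia.tower_top)
    have h2 : (minpoly K β).coeff (minpoly K β).natDegree = 1 := minpoly.monic (ib.tower_top)
    rw [da] at h1; rw [db] at h2
    rw [h1, h2]
  · rw [coeff_eq_zero_of_natDegree_lt (by omega), coeff_eq_zero_of_natDegree_lt (by omega)]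

open scoped Classical in
theorem smallGen_card {d : ℕ} (hd : 2 ≤ d) {R : ℝ} (hR : 1 ≤ R) :
    (smallGen K Ω d R).Finite ∧ ((smallGen K Ω d R).ncard : ℝ) ≤
      d * ((7 * 2 ^ d) ^ (d - 1) * R ^ (∑ j : Fin (d - 1), ((j : ℕ) + 2))) ^ finrank ℚ K := by
  have hρ : ∀ j : Fin (d - 1), 1 ≤ (2 : ℝ) ^ d * R ^ ((j : ℕ) + 2) := by
    intro j
    have h1 : (1 : ℝ) ≤ 2 ^ d := one_le_pow₀ (by norm_num)
    have h2 : (1 : ℝ) ≤ R ^ ((j : ℕ) + 2) := one_le_pow₀ hR
    nlinarith
  let T : Finset (Fin (d - 1) → 𝓞 K) := Fintype.piFinset fun j =>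
    (smallInt_card K _ (hρ j)).1.toFinset
  have hmaps : ∀ α ∈ smallGen K Ω d R, coeffVec K Ω d α ∈ T := by
    intro α hα
    rw [Fintype.mem_piFinset]
    intro j
    rw [Set.Finite.mem_toFinset]
    intro v
    have := coeff_bound K Ω hα (d - (j + 2)) v
    rwa [show d - (d - ((j : ℕ) + 2)) = (j : ℕ) + 2 by omega] at this
  have hfib : ∀ α ∈ smallGen K Ω d R, ∀ β ∈ smallGen K Ω d R, coeffVec K Ω d β = coeffVec K Ω d α →
      β ∈ (minpoly K α).aroots Ω := by
    intro α hα β hβ h
    rw [mem_aroots, minpoly_eq_of_coeffVec K Ω hd hα hβ h.symm]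
    exact ⟨minpoly.ne_zero (hβ.1.tower_top), minpoly.aeval _ _⟩
  have hfin : (smallGen K Ω d R).Finite := by
    -- preimage of each point of `T` is finite
    have : (smallGen K Ω d R) ⊆ ⋃ t ∈ (T : Set (Fin (d - 1) → 𝓞 K)),
        {α | α ∈ smallGen K Ω d R ∧ coeffVec K Ω d α = t} := by
      intro α hα
      simp only [Set.mem_iUnion]
      exact ⟨_, hmaps α hα, hα, rfl⟩
    refine Set.Finite.subset (Set.Finite.biUnion T.finite_toSet fun t _ => ?_) this
    by_cases hne : ∃ α, α ∈ smallGen K Ω d R ∧ coeffVec K Ω d α = t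
    · obtain ⟨α, hα, hαt⟩ := hne
      refine Set.Finite.subset ((minpoly K α).aroots Ω).toFinset.finite_toSet ?_
      rintro β ⟨hβ, hβt⟩
      simp only [Finset.mem_coe, Multiset.mem_toFinset]
      exact hfib α hα β hβ (hβt.trans hαt.symm)
    · refine Set.Finite.subset Set.finite_empty ?_
      intro β hβ
      exact absurd ⟨β, hβ⟩ hne
  refine ⟨hfin, ?_⟩
  have h1 : hfin.toFinset.card ≤ d * T.card := by
    refine Finset.card_le_mul_card_image_of_maps_to (f := coeffVec K Ω d) ?_ d ?_
    · intro α hα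
      exact hmaps α (by simpa using hα)
    · intro t ht
      by_cases hne : ∃ α, α ∈ smallGen K Ω d R ∧ coeffVec K Ω d α = t
      · obtain ⟨α, hα, hαt⟩ := hne
        calc _ ≤ ((minpoly K α).aroots Ω).toFinset.card := by
              refine Finset.card_le_card ?_
              intro β hβ
              rw [Finset.mem_filter, Set.Finite.mem_toFinset] at hβ
              rw [Multiset.mem_toFinset]
              exact hfib α hα β hβ.1 (hβ.2.trans hαt.symm)
          _ ≤ Multiset.card ((minpoly K α).aroots Ω) := Multiset.toFinset_card_le _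
          _ ≤ ((minpoly K α).map (algebraMap K Ω)).natDegree := card_roots' _
          _ = d := by rw [natDegree_map]; exact hα.2.1
      · have : (hfin.toFinset.filter fun a => coeffVec K Ω d a = t) = ∅ := by
          apply Finset.filter_eq_empty_iff.mpr
          intro β hβ h
          exact hne ⟨β, by simpa using hβ, h⟩
        rw [this]; simp
  rw [Set.ncard_eq_toFinset_card _ hfin]
  have h2 : (T.card : ℝ) ≤ ((7 * 2 ^ d) ^ (d - 1) * R ^ (∑ j : Fin (d - 1), ((j : ℕ) + 2))) ^ finrank ℚ K := by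
    rw [Fintype.card_piFinset]
    push_cast
    have h3 : ((7 * 2 ^ d) ^ (d - 1) * R ^ (∑ j : Fin (d - 1), ((j : ℕ) + 2)) : ℝ)
        = ∏ j : Fin (d - 1), (7 * (2 ^ d * R ^ ((j : ℕ) + 2))) := by
      rw [← Finset.prod_pow_eq_pow_sum]
      have : ∀ j : Fin (d - 1), (7 * (2 ^ d * R ^ ((j : ℕ) + 2)) : ℝ) = (7 * 2 ^ d) * R ^ ((j : ℕ) + 2) := by
        intro j; ring
      simp_rw [this]
      rw [Finset.prod_mul_distrib, Finset.prod_const, Finset.card_univ, Fintype.card_fin]
    rw [h3, ← Finset.prod_pow]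
    apply Finset.prod_le_prod
    · intro j _; positivity
    · intro j _
      have := (smallInt_card K _ (hρ j)).2
      rwa [Set.ncard_eq_toFinset_card _ (smallInt_card K _ (hρ j)).1] at this
  calc (hfin.toFinset.card : ℝ) ≤ d * T.card := by exact_mod_cast h1
    _ ≤ _ := mul_le_mul_of_nonneg_left h2 (Nat.cast_nonneg _)

end

end Pool.Agent.Helper52.Vojta
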