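import Mathlib
import Pool.Agent.Helper52.Vojta.GenCount

/-!
Counting extensions of given degree of a number field by discriminant (Schmidt's bound), uniformly
in the base field.
-/

namespace Pool.Agent.Helper52.Vojta

open NumberField Module Finset Polynomial IntermediateField

universe u

/-- the extensions `L` of degree `e` of `K` inside `Ω` with `|disc L| ≤ Y` -/
def boundedExt (K Ω : Type u) [Field K] [Field Ω] [Algebra K Ω] (e : ℕ) (Y : ℝ) :
    Set (IntermediateField K Ω) :=
  {L | finrank K L = e ∧ ∃ _ : NumberField L, |(discr L : ℝ)| ≤ Y}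

/-- the exponent -/
noncomputable def kap (e : ℕ) : ℝ := if e ≤ 1 then 0 else ((e : ℝ) + 2) / 4

theorem kap_ineq {e d : ℕ} (he : 2 ≤ e) (hd : 2 ≤ d) (hde : d ∣ e) :
    ((∑ j : Fin (d - 1), ((j : ℕ) + 2) : ℕ) : ℝ) / (2 * (e - 1)) + kap (e / d) ≤ (e + 2) / 4 := by
  have hsum : ((∑ j : Fin (d - 1), ((j : ℕ) + 2) : ℕ) : ℝ) = (d - 1) * (d + 2) / 2 := by
    obtain ⟨c, rfl⟩ : ∃ c, d = c + 1 := ⟨d - 1, by omega⟩
    rw [show c + 1 - 1 = c by omega, Finset.sum_fin_eq_sum_range]
    have : ∀ i ∈ Finset.range c, (if h : i < c then ((⟨i, h⟩ : Fin c) : ℕ) + 2 else 0) = i + 2 := by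
      intro i hi; rw [dif_pos (Finset.mem_range.mp hi)]
    rw [Finset.sum_congr rfl this]
    have hc : ∀ c : ℕ, ((∑ i ∈ Finset.range c, (i + 2) : ℕ) : ℝ) = (c : ℝ) * (c + 3) / 2 := by
      intro c
      induction c with
      | zero => simp
      | succ c ih => rw [Finset.sum_range_succ, Nat.cast_add, ih]; push_cast; ring
    rw [hc]; push_cast; ring
  rw [hsum]
  obtain ⟨f, rfl⟩ := hde
  have hd' : (2 : ℝ) ≤ d := by exact_mod_cast hd
  rw [Nat.mul_div_cancel_left f (by omega)]
  have hf : 1 ≤ f := by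
    rcases Nat.eq_zero_or_pos f with h | h
    · subst h; omega
    · exact h
  unfold kap
  rcases Nat.lt_or_ge 1 f with h1 | h1
  · rw [if_neg (by omega)]
    have hf' : (2 : ℝ) ≤ f := by exact_mod_cast h1
    push_cast
    have hpos : (0 : ℝ) < d * f - 1 := by nlinarith
    have key : (d - 1 : ℝ) * (d + 2) / 2 / (2 * (d * f - 1)) ≤ f * (d - 1) / 4 := by
      rw [div_div, div_le_div_iff₀ (by positivity) (by norm_num)]
      have : (d + 2 : ℝ) ≤ f * (d * f - 1) := by nlinarith
      nlinarith [mul_le_mul_of_nonneg_left this (by linarith : (0 : ℝ) ≤ d - 1)]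
    have : (f : ℝ) * (d - 1) / 4 + (f + 2) / 4 = (d * f + 2) / 4 := by ring
    linarith
  · have : f = 1 := by omega
    subst this
    rw [if_pos le_rfl]
    have hpos : (0 : ℝ) < d - 1 := by linarith
    push_cast
    rw [mul_one, add_zero]
    apply le_of_eq
    field_simp
    ring

section

variable {K Ω : Type u} [Field K] [NumberField K] [Field Ω] [Algebra K Ω]

theorem numberField_adjoin {a : Ω} (ha : IsIntegral K a) : NumberField K⟮a⟯ := by
  have : FiniteDimensional K K⟮a⟯ := IntermediateField.adjoin.finiteDimensional ha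
  exact NumberField.of_module_finite K K⟮a⟯

/-- extensions of `K` containing a given generator, coming from a bounded extension of `K(a)` -/
theorem through_subset (a : Ω) (f : ℕ) (Y : ℝ) :
    {L : IntermediateField K Ω | ∃ h : K⟮a⟯ ≤ L, extendScalars h ∈ boundedExt K⟮a⟯ Ω f Y} ⊆
      (fun M : IntermediateField K⟮a⟯ Ω => M.restrictScalars K) '' (boundedExt K⟮a⟯ Ω f Y) := by
  rintro L ⟨h, hL⟩
  exact ⟨_, hL, by simp⟩

end

theorem boundedExt_card (e : ℕ) (he : 1 ≤ e) : ∀ n : ℕ, ∃ C : ℝ, 0 ≤ C ∧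
    ∀ (K Ω : Type u) [Field K] [NumberField K] [Field Ω] [Algebra K Ω] [IsAlgClosed Ω]
      [Algebra.IsAlgebraic K Ω], finrank ℚ K = n → ∀ Y : ℝ, 1 ≤ Y →
      (boundedExt K Ω e Y).Finite ∧ ((boundedExt K Ω e Y).ncard : ℝ) ≤ C * Y ^ kap e := by
  classical
  induction e using Nat.strong_induction_on with
  | _ e ih =>
  intro n
  rcases Nat.lt_or_ge 1 e with he2 | he1
  swap
  · have : e = 1 := by omega
    subst this
    refine ⟨1, zero_le_one, ?_⟩
    intro K Ω _ _ _ _ _ _ hn Y hY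
    have hsub : boundedExt K Ω 1 Y ⊆ {⊥} := by
      rintro L ⟨h, _⟩
      exact IntermediateField.finrank_eq_one_iff.mp h
    refine ⟨Set.Finite.subset (Set.finite_singleton _) hsub, ?_⟩
    have h1 := Set.ncard_le_ncard hsub (Set.finite_singleton _)
    rw [Set.ncard_singleton] at h1
    have : kap 1 = 0 := by unfold kap; rw [if_pos le_rfl]
    rw [this, Real.rpow_zero, mul_one]
    exact_mod_cast h1
  · have ih' : ∀ d : ℕ, ∃ C : ℝ, 0 ≤ C ∧ (2 ≤ d → d ∣ e →
        ∀ (K Ω : Type u) [Field K] [NumberField K] [Field Ω] [Algebra K Ω] [IsAlgClosed Ω]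
      [Algebra.IsAlgebraic K Ω], finrank ℚ K = n * d → ∀ Y : ℝ, 1 ≤ Y →
      (boundedExt K Ω (e / d) Y).Finite ∧
        ((boundedExt K Ω (e / d) Y).ncard : ℝ) ≤ C * Y ^ kap (e / d)) := by
      intro d
      by_cases hd : 2 ≤ d ∧ d ∣ e
      · obtain ⟨C, hC, h⟩ := ih (e / d) (Nat.div_lt_self (by omega) (by omega))
          (Nat.div_pos (Nat.le_of_dvd (by omega) hd.2) (by omega)) (n * d)
        exact ⟨C, hC, fun _ _ => h⟩
      · exact ⟨0, le_rfl, fun h1 h2 => absurd ⟨h1, h2⟩ hd⟩
    choose C2 hC2 hC2' using ih'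
    obtain ⟨C1, hC1, hC1'⟩ := exists_trace_zero_le.{u, u} n e he2
    let s : ℕ → ℕ := fun d => ∑ j : Fin (d - 1), ((j : ℕ) + 2)
    let D : Finset ℕ := (Finset.Icc 2 e).filter (· ∣ e)
    let A : ℕ → ℝ := fun d => d * ((7 * 2 ^ d) ^ (d - 1) * C1 ^ (s d)) ^ n
    have hA0 : ∀ d, 0 ≤ A d := fun d => by
      have : 0 ≤ C1 := by linarith
      positivity
    refine ⟨∑ d ∈ D, A d * C2 d, Finset.sum_nonneg fun d _ => mul_nonneg (hA0 d) (hC2 d), ?_⟩
    intro K Ω _ _ _ _ _ _ hn Y hY
    have hn0 : 0 < n := by rw [← hn]; exact Module.finrank_pos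
    set R : ℝ := C1 * Y ^ (1 / (2 * n * (e - 1)) : ℝ) with hR
    have hn' : (0 : ℝ) < n := by exact_mod_cast hn0
    have he' : (0 : ℝ) < (e : ℝ) - 1 := by
      have : (2 : ℝ) ≤ e := by exact_mod_cast he2
      linarith
    have hexp : (0 : ℝ) ≤ 1 / (2 * n * (e - 1)) := by positivity
    have hR1 : 1 ≤ R := by
      have h1 : 1 ≤ Y ^ (1 / (2 * n * (e - 1)) : ℝ) := Real.one_le_rpow hY hexp
      rw [hR]; nlinarith
    -- the covering
    let G : ℕ → Ω → Set (IntermediateField K Ω) := fun d a =>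
      {L : IntermediateField K Ω | ∃ h : K⟮a⟯ ≤ L, extendScalars h ∈ boundedExt K⟮a⟯ Ω (e / d) Y}
    have hcover : boundedExt K Ω e Y ⊆ ⋃ d ∈ D, ⋃ a ∈ smallGen K Ω d R, G d a := by
      rintro L ⟨hLe, hNF, hdisc⟩
      obtain ⟨α, hα0, htr, hα⟩ := hC1' K L hn hLe
      have hfd : FiniteDimensional K L := FiniteDimensional.of_finrank_pos (by rw [hLe]; omega)
      set a : Ω := ((α : L) : Ω) with ha
      have hintL : IsIntegral ℤ (α : L) := α.isIntegral_coe
      have hint : IsIntegral ℤ a := hintL.map (L.val.restrictScalars ℤ)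
      have hKint : IsIntegral K a := hint.tower_top
      have hmp : minpoly K (α : L) = minpoly K a := IntermediateField.minpoly_eq (α : L)
      have hαL0 : (α : L) ≠ 0 := RingOfIntegers.coe_ne_zero_iff.mpr hα0
      have hnext : (minpoly K a).nextCoeff = 0 := by
        have h1 := trace_eq_finrank_mul_minpoly_nextCoeff K (α : L)
        rw [htr, hmp] at h1
        have h2 : ((finrank K⟮(α : L)⟯ L : ℕ) : K) ≠ 0 := by
          have : 0 < finrank K⟮(α : L)⟯ L := Module.finrank_pos
          exact_mod_cast this.ne'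
        rcases mul_eq_zero.mp h1.symm with h3 | h3
        · exact absurd h3 h2
        · exact neg_eq_zero.mp h3
      set d := (minpoly K a).natDegree with hd
      have hd1 : 1 ≤ d := minpoly.natDegree_pos hKint
      have hcoef : (minpoly K a).coeff (d - 1) = 0 := by
        rw [nextCoeff_of_natDegree_pos (by omega)] at hnext
        exact hnext
      have hd2 : 2 ≤ d := by
        by_contra hlt
        have hd1' : d = 1 := by omega
        rw [hd1', Nat.sub_self, minpoly.coeff_zero_eq_zero hKint] at hcoef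
        exact hαL0 (Subtype.ext hcoef)
      have hadj : finrank K K⟮a⟯ = d := IntermediateField.adjoin.finrank hKint
      have hle : K⟮a⟯ ≤ L := by
        rw [IntermediateField.adjoin_simple_le_iff]
        exact (α : L).2
      have hfd' : FiniteDimensional K K⟮a⟯ := IntermediateField.adjoin.finiteDimensional hKint
      have hmul : finrank K K⟮a⟯ * finrank K⟮a⟯ (extendScalars hle) = e := by
        rw [← hLe, ← IntermediateField.finrank_bot_mul_relfinrank hle,
          IntermediateField.relfinrank_eq_finrank_of_le hle]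
      have hdvd : d ∣ e := ⟨_, by rw [← hmul, hadj]⟩
      have hde : finrank K⟮a⟯ (extendScalars hle) = e / d := by
        rw [← hmul, hadj, Nat.mul_div_cancel_left _ (by omega)]
      simp only [Set.mem_iUnion]
      refine ⟨d, ?_, a, ⟨hint, rfl, hcoef, ?_⟩, hle, hde, ?_⟩
      · rw [Finset.mem_filter, Finset.mem_Icc]
        exact ⟨⟨hd2, Nat.le_of_dvd (by omega) hdvd⟩, hdvd⟩
      · intro φ
        have h1 := hα (InfinitePlace.mk (φ.comp L.val.toRingHom))
        have h2 : InfinitePlace.mk (φ.comp L.val.toRingHom) (α : L) = ‖φ a‖ := rfl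
        rw [h2] at h1
        refine h1.trans ?_
        rw [hR]
        apply mul_le_mul_of_nonneg_left _ (by linarith)
        exact Real.rpow_le_rpow (abs_nonneg _) hdisc hexp
      · let E : L ≃+* (extendScalars hle) := RingEquiv.refl L
        have hNF' : NumberField (extendScalars hle) := NumberField.of_ringEquiv _ _ E
        refine ⟨hNF', ?_⟩
        rw [← NumberField.discr_eq_discr_of_ringEquiv L E]
        exact hdisc
    have hG : ∀ d ∈ D, ∀ a ∈ smallGen K Ω d R, (G d a).Finite ∧ ((G d a).ncard : ℝ) ≤ C2 d * Y ^ kap (e / d) := by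
      intro d hd a ha
      rw [Finset.mem_filter, Finset.mem_Icc] at hd
      have hKint : IsIntegral K a := ha.1.tower_top
      have := numberField_adjoin hKint
      have hfd' : FiniteDimensional K K⟮a⟯ := IntermediateField.adjoin.finiteDimensional hKint
      have hdeg : finrank ℚ K⟮a⟯ = n * d := by
        rw [← Module.finrank_mul_finrank ℚ K K⟮a⟯, hn, IntermediateField.adjoin.finrank hKint, ha.2.1]
      obtain ⟨h1, h2⟩ := hC2' d hd.1.1 hd.2 K⟮a⟯ Ω hdeg Y hY
      have hsub := through_subset (K := K) a (e / d) Y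
      refine ⟨Set.Finite.subset (h1.image _) hsub, ?_⟩
      have h3 : (G d a).ncard ≤ (boundedExt K⟮a⟯ Ω (e / d) Y).ncard :=
        (Set.ncard_le_ncard hsub (h1.image _)).trans (Set.ncard_image_le h1)
      calc ((G d a).ncard : ℝ) ≤ (boundedExt K⟮a⟯ Ω (e / d) Y).ncard := by exact_mod_cast h3
        _ ≤ _ := h2
    have hA : ∀ d ∈ D, (smallGen K Ω d R).Finite ∧ ((smallGen K Ω d R).ncard : ℝ) ≤
        A d * Y ^ ((s d : ℝ) / (2 * (e - 1))) := by
      intro d hd
      rw [Finset.mem_filter, Finset.mem_Icc] at hd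
      obtain ⟨h1, h2⟩ := smallGen_card K Ω hd.1.1 hR1
      refine ⟨h1, h2.trans (le_of_eq ?_)⟩
      rw [hn]
      have h3 : (R ^ (s d)) ^ n = (C1 ^ (s d)) ^ n * Y ^ ((s d : ℝ) / (2 * (e - 1))) := by
        rw [hR, mul_pow, mul_pow]
        congr 1
        rw [← pow_mul, ← Real.rpow_natCast, ← Real.rpow_mul (by linarith)]
        congr 1
        push_cast
        field_simp
      change (d : ℝ) * ((7 * 2 ^ d) ^ (d - 1) * R ^ (s d)) ^ n = _
      rw [mul_pow, h3]
      simp only [A]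
      rw [mul_pow]
      ring
    have hcover' : boundedExt K Ω e Y ⊆ ⋃ d ∈ D, ⋃ a ∈ smallGen K Ω d R, G d a := hcover
    have hfin1 : ∀ d ∈ D, (⋃ a ∈ smallGen K Ω d R, G d a).Finite := fun d hd =>
      Set.Finite.biUnion (hA d hd).1 fun a ha => (hG d hd a ha).1
    have hfin2 : (⋃ d ∈ D, ⋃ a ∈ smallGen K Ω d R, G d a).Finite :=
      Set.Finite.biUnion D.finite_toSet fun d hd => hfin1 d hd
    refine ⟨hfin2.subset hcover, ?_⟩
    have h1 : (boundedExt K Ω e Y).ncard ≤ ∑ d ∈ D, (⋃ a ∈ smallGen K Ω d R, G d a).ncard :=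
      (Set.ncard_le_ncard hcover hfin2).trans (D.set_ncard_biUnion_le _)
    have h2 : ∀ d ∈ D, ((⋃ a ∈ smallGen K Ω d R, G d a).ncard : ℝ) ≤ A d * C2 d * Y ^ kap e := by
      intro d hd
      have hD := hd
      rw [Finset.mem_filter, Finset.mem_Icc] at hD
      obtain ⟨hf, hc⟩ := hA d hd
      have h3 : (⋃ a ∈ smallGen K Ω d R, G d a).ncard ≤ ∑ a ∈ hf.toFinset, (G d a).ncard := by
        have : (⋃ a ∈ smallGen K Ω d R, G d a) = ⋃ a ∈ hf.toFinset, G d a := by simp
        rw [this]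
        exact Finset.set_ncard_biUnion_le _ _
      have h4 : ((∑ a ∈ hf.toFinset, (G d a).ncard : ℕ) : ℝ) ≤ (smallGen K Ω d R).ncard * (C2 d * Y ^ kap (e / d)) := by
        push_cast
        calc ∑ a ∈ hf.toFinset, ((G d a).ncard : ℝ) ≤ ∑ a ∈ hf.toFinset, C2 d * Y ^ kap (e / d) :=
              Finset.sum_le_sum fun a ha => (hG d hd a (by simpa using ha)).2
          _ = _ := by rw [Finset.sum_const, nsmul_eq_mul, Set.ncard_eq_toFinset_card _ hf]
      have hY0 : (0 : ℝ) < Y := by linarith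
      calc ((⋃ a ∈ smallGen K Ω d R, G d a).ncard : ℝ) ≤ ((∑ a ∈ hf.toFinset, (G d a).ncard : ℕ) : ℝ) := by
            exact_mod_cast h3
        _ ≤ (smallGen K Ω d R).ncard * (C2 d * Y ^ kap (e / d)) := h4
        _ ≤ (A d * Y ^ ((s d : ℝ) / (2 * (e - 1)))) * (C2 d * Y ^ kap (e / d)) :=
            mul_le_mul_of_nonneg_right hc (mul_nonneg (hC2 d) (by positivity))
        _ = A d * C2 d * (Y ^ ((s d : ℝ) / (2 * (e - 1))) * Y ^ kap (e / d)) := by ring
        _ = A d * C2 d * Y ^ ((s d : ℝ) / (2 * (e - 1)) + kap (e / d)) := by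
            rw [Real.rpow_add hY0]
        _ ≤ A d * C2 d * Y ^ kap e := by
            apply mul_le_mul_of_nonneg_left _ (mul_nonneg (hA0 d) (hC2 d))
            apply Real.rpow_le_rpow_of_exponent_le hY
            have := kap_ineq he2 hD.1.1 hD.2
            have e1 : kap e = (e + 2) / 4 := by unfold kap; rw [if_neg (by omega)]
            rw [e1]
            exact this
    calc ((boundedExt K Ω e Y).ncard : ℝ) ≤ ((∑ d ∈ D, (⋃ a ∈ smallGen K Ω d R, G d a).ncard : ℕ) : ℝ) := by
          exact_mod_cast h1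
      _ = ∑ d ∈ D, ((⋃ a ∈ smallGen K Ω d R, G d a).ncard : ℝ) := by push_cast; rfl
      _ ≤ ∑ d ∈ D, A d * C2 d * Y ^ kap e := Finset.sum_le_sum h2
      _ = _ := by rw [Finset.sum_mul]

end Pool.Agent.Helper52.Vojta
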