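import Mathlib
import Pool.Agent.Helper52.Vojta.Divisor
import Pool.Agent.Helper52.Vojta.FieldCount

/-!
Counting the exceptions to Vojta's inequality on the projective line.
-/

namespace Pool.Agent.Helper52.Vojta

open NumberField Finset Module Polynomial IntermediateField Pool.Agent.Helper64.Vojta

universe u

section

variable {k : Type u} [Field k] [NumberField k] {Ω : Type u} [Field Ω] [Algebra k Ω]

theorem finite_ncard_le {α : Type*} {s : Set α} {B : ℕ} (h : ∀ P : Finset α, (P : Set α) ⊆ s → P.card ≤ B) :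
    s.Finite ∧ s.ncard ≤ B := by
  have hf : s.Finite := by
    by_contra hinf
    obtain ⟨t, ht, hc⟩ := Set.Infinite.exists_subset_card_eq hinf (B + 1)
    have := h t ht
    omega
  refine ⟨hf, ?_⟩
  rw [Set.ncard_eq_toFinset_card _ hf]
  exact h _ (by simp)

/-- an exceptional element `y` of the field `L`, generating it -/
def Exc (g : k[X]) (q r : ℕ) (S : Finset (Pl k)) (ε c : ℝ) (L : IntermediateField k Ω) [NumberField L]
    (y : L) : Prop :=
  finrank k L = r ∧ aeval y g ≠ 0 ∧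
    ε * (Height.logHeight (aff y) / finrank k L)
      + (Real.log |(discr L : ℝ)| / finrank k L - Real.log |(discr k : ℝ)|) - c
      < -(2 * (Height.logHeight (aff y) / finrank k L))
        + ∑ ν ∈ S, (∑ w ∈ above L ν, dloc g q w y) / finrank k L

theorem Exc.ineq {g : k[X]} {q r : ℕ} {S : Finset (Pl k)} {ε c : ℝ} {L : IntermediateField k Ω}
    [NumberField L] {y : L} (h : Exc g q r S ε c L y) (hr : 0 < r) :
    (2 + ε) * Height.logHeight (aff y) - r * |c| ≤ ∑ w ∈ upW L S, dloc g q w y ∧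
    (2 + ε) * Height.logHeight (aff y) + Real.log |(discr L : ℝ)| - r * Real.log |(discr k : ℝ)| - r * |c|
      ≤ ∑ w ∈ upW L S, dloc g q w y := by
  obtain ⟨h1, h2, h3⟩ := h
  have hr0 : (0 : ℝ) < r := by exact_mod_cast hr
  have h4 := logDisc_nonneg (k := k) (L := L)
  rw [← Finset.sum_div, ← sum_upW, h1] at h3
  rw [h1] at h4
  set A := Height.logHeight (aff y) with hA
  set E := ∑ w ∈ upW L S, dloc g q w y with hE
  set lL := Real.log |(discr L : ℝ)| with hlL
  set lk := Real.log |(discr k : ℝ)| with hlk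
  have h5 : (2 + ε) * A + lL - r * lk - r * c < E := by
    have h6 := mul_lt_mul_of_pos_left h3 hr0
    have e1 : (r : ℝ) * (ε * (A / r) + (lL / r - lk) - c) = ε * A + lL - r * lk - r * c := by
      field_simp
      ring
    have e2 : (r : ℝ) * (-(2 * (A / r)) + E / r) = -(2 * A) + E := by
      field_simp
    rw [e1, e2] at h6
    linarith
  have h7 : 0 ≤ lL - r * lk := by
    have := mul_nonneg hr0.le h4
    have e3 : (r : ℝ) * (lL / r - lk) = lL - r * lk := by field_simp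
    rwa [e3] at this
  have h8 : (r : ℝ) * c ≤ r * |c| := mul_le_mul_of_nonneg_left (le_abs_self c) hr0.le
  constructor <;> linarith

/-- the exceptional points of bounded height -/
def excSet (Ω : Type u) [Field Ω] [Algebra k Ω] (g : k[X]) (q r : ℕ) (S : Finset (Pl k)) (ε c V : ℝ) :
    Set Ω :=
  {x | ∃ _ : NumberField k⟮x⟯, Exc g q r S ε c k⟮x⟯ (AdjoinSimple.gen k x) ∧
    Height.logHeight (aff (AdjoinSimple.gen k x)) ≤ V}

omit [NumberField k] in
theorem transport_aux (P : ∀ (L : IntermediateField k Ω) [NumberField L], L → Prop) (x : Ω)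
    (L : IntermediateField k Ω) [hL : NumberField L] (h : k⟮x⟯ = L) (hx : x ∈ L)
    (hP : ∃ _ : NumberField k⟮x⟯, P k⟮x⟯ (AdjoinSimple.gen k x)) : P L ⟨x, hx⟩ := by
  subst h
  obtain ⟨_, hP⟩ := hP
  exact hP

variable [IsAlgClosed Ω] [Algebra.IsAlgebraic k Ω]

theorem excSet_window (g : k[X]) (hg : Squarefree g) {q : ℕ} (hq1 : g.natDegree ≤ q)
    (hq2 : q ≤ g.natDegree + 1) {r : ℕ} (hr : 2 ≤ r) (s : ℕ) {ε : ℝ} (hε : 0 < ε)
    (hεq : ε < q - 2) (c : ℝ) :
    ∃ (U0 C : ℝ), 0 ≤ C ∧ ∀ S : Finset (Pl k), S.card ≤ s → ∀ U : ℝ, U0 ≤ U →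
      (excSet Ω g q r S ε c ((1 + ε / 4) * U) \ excSet Ω g q r S ε c U).Finite ∧
      ((excSet Ω g q r S ε c ((1 + ε / 4) * U) \ excSet Ω g q r S ε c U).ncard : ℝ) ≤
        C * Real.exp (((q : ℝ) - 2 - ε) * kap r * ((1 + ε / 4) * U)) := by
  classical
  obtain ⟨⟨U0, B, hB⟩, ⟨C1, hC10, hC1⟩⟩ := window_bound_gen Ω g hg hq1 hq2 r (s * r) hε (r * |c|)
  obtain ⟨C2, hC20, hC2⟩ := boundedExt_card.{u} r (by omega) (finrank ℚ k)
  have hr0 : (0 : ℝ) < r := by exact_mod_cast (by omega : 0 < r)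
  have hlk : 0 ≤ Real.log |(discr k : ℝ)| := by
    apply Real.log_nonneg
    rw [← Int.cast_abs]
    exact_mod_cast Int.one_le_abs (discr_ne_zero k)
  set C3 : ℝ := r * |c| + C1 + r * Real.log |(discr k : ℝ)| with hC3
  have hC30 : 0 ≤ C3 := by positivity
  set θ : ℝ := (q : ℝ) - 2 - ε with hθ
  have hθ0 : 0 < θ := by rw [hθ]; linarith
  refine ⟨max U0 0, B * (C2 * Real.exp (C3 * kap r)), by positivity, ?_⟩
  intro S hSs U hU
  have hU1 : U0 ≤ U := (le_max_left _ _).trans hU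
  have hU2 : 0 ≤ U := (le_max_right _ _).trans hU
  have hρ : 0 < 1 + ε / 4 := by linarith
  set Y : ℝ := Real.exp (θ * ((1 + ε / 4) * U) + C3) with hY
  have hY1 : 1 ≤ Y := Real.one_le_exp (by positivity)
  obtain ⟨hbf, hbc⟩ := hC2 k Ω rfl Y hY1
  set E := excSet Ω g q r S ε c ((1 + ε / 4) * U) \ excSet Ω g q r S ε c U with hE
  -- the part with a given field
  let F : IntermediateField k Ω → Set Ω := fun L => {x | x ∈ E ∧ k⟮x⟯ = L}
  have hcover : E ⊆ ⋃ L ∈ boundedExt k Ω r Y, F L := by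
    intro x hx
    simp only [Set.mem_iUnion]
    refine ⟨k⟮x⟯, ?_, hx, rfl⟩
    obtain ⟨⟨hnf, hexc, hV⟩, _⟩ := hx
    have hineq := (hexc.ineq (by omega)).2
    have hcardW : (upW k⟮x⟯ S).card ≤ s * r := by
      refine (card_upW_le k⟮x⟯ S).trans ?_
      rw [hexc.1]; exact Nat.mul_le_mul_right _ hSs
    have hup := hC1 k⟮x⟯ hexc.1.le (upW k⟮x⟯ S) hcardW _ hexc.2.1
    refine ⟨hexc.1, hnf, ?_⟩
    have hd : (0 : ℝ) < |(discr k⟮x⟯ : ℝ)| := by
      rw [abs_pos]; exact_mod_cast discr_ne_zero _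
    rw [← Real.log_le_iff_le_exp hd]
    have h3 : Real.log |(discr k⟮x⟯ : ℝ)| ≤ θ * Height.logHeight (aff (AdjoinSimple.gen k x)) + C3 := by
      rw [hθ, hC3]; linarith
    have h4 : θ * Height.logHeight (aff (AdjoinSimple.gen k x)) ≤ θ * ((1 + ε / 4) * U) :=
      mul_le_mul_of_nonneg_left hV hθ0.le
    linarith
  have hF : ∀ L ∈ boundedExt k Ω r Y, (F L).Finite ∧ (F L).ncard ≤ B := by
    rintro L ⟨hLr, hLnf, _⟩
    apply finite_ncard_le
    intro P hP
    have hmem : ∀ x ∈ P, x ∈ L := by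
      intro x hx
      obtain ⟨_, h⟩ := hP hx
      rw [← h]; exact mem_adjoin_simple_self k x
    let P' : Finset L := P.attach.image fun x => ⟨x.1, hmem x.1 x.2⟩
    have hcard : P'.card = P.card := by
      rw [Finset.card_image_of_injective, Finset.card_attach]
      intro x y h
      exact Subtype.ext (congrArg (fun z : L => (z : Ω)) h)
    rw [← hcard]
    have hcardW : (upW L S).card ≤ s * r := by
      refine (card_upW_le L S).trans ?_
      rw [hLr]; exact Nat.mul_le_mul_right _ hSs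
    refine hB L hLr.le (upW L S) hcardW U hU1 P' ?_
    intro y hy
    obtain ⟨x, _, rfl⟩ := Finset.mem_image.mp hy
    obtain ⟨⟨⟨hnf, hexc, hV⟩, hnot⟩, hxL⟩ := hP x.2
    have h1 : Exc g q r S ε c L ⟨x.1, hmem x.1 x.2⟩ :=
      transport_aux (fun L _ y => Exc g q r S ε c L y) x.1 L hxL _ ⟨hnf, hexc⟩
    have h2 : Height.logHeight (aff (⟨x.1, hmem x.1 x.2⟩ : L)) ≤ (1 + ε / 4) * U :=
      transport_aux (fun L _ y => Height.logHeight (aff y) ≤ (1 + ε / 4) * U) x.1 L hxL _ ⟨hnf, hV⟩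
    have h3 : U ≤ Height.logHeight (aff (⟨x.1, hmem x.1 x.2⟩ : L)) := by
      apply transport_aux (fun L _ y => U ≤ Height.logHeight (aff y)) x.1 L hxL _ ⟨hnf, ?_⟩
      by_contra hlt
      push Not at hlt
      exact hnot ⟨hnf, hexc, hlt.le⟩
    exact ⟨h1.2.1, h3, h2, (h1.ineq (by omega)).1⟩
  have hfin2 : (⋃ L ∈ boundedExt k Ω r Y, F L).Finite := Set.Finite.biUnion hbf fun L hL => (hF L hL).1
  refine ⟨hfin2.subset hcover, ?_⟩
  have h1 : E.ncard ≤ ∑ L ∈ hbf.toFinset, (F L).ncard := by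
    refine (Set.ncard_le_ncard hcover hfin2).trans ?_
    have : (⋃ L ∈ boundedExt k Ω r Y, F L) = ⋃ L ∈ hbf.toFinset, F L := by simp
    rw [this]
    exact Finset.set_ncard_biUnion_le _ _
  have h2 : (E.ncard : ℝ) ≤ (boundedExt k Ω r Y).ncard * B := by
    calc (E.ncard : ℝ) ≤ ((∑ L ∈ hbf.toFinset, (F L).ncard : ℕ) : ℝ) := by exact_mod_cast h1
      _ = ∑ L ∈ hbf.toFinset, ((F L).ncard : ℝ) := by push_cast; rfl
      _ ≤ ∑ L ∈ hbf.toFinset, (B : ℝ) := Finset.sum_le_sum fun L hL => by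
          exact_mod_cast (hF L (by simpa using hL)).2
      _ = _ := by rw [Finset.sum_const, nsmul_eq_mul, Set.ncard_eq_toFinset_card _ hbf]
  have h3 : Y ^ kap r = Real.exp (C3 * kap r) * Real.exp (θ * kap r * ((1 + ε / 4) * U)) := by
    rw [hY, ← Real.exp_mul, ← Real.exp_add]
    congr 1; ring
  calc (E.ncard : ℝ) ≤ (boundedExt k Ω r Y).ncard * B := h2
    _ ≤ (C2 * Y ^ kap r) * B := mul_le_mul_of_nonneg_right hbc (Nat.cast_nonneg _)
    _ = _ := by rw [h3]; ring

theorem excSet_finite (g : k[X]) (hg : Squarefree g) {q : ℕ} (hq1 : g.natDegree ≤ q)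
    (hq2 : q ≤ g.natDegree + 1) {r : ℕ} (hr : 2 ≤ r) (s : ℕ) {ε : ℝ} (hε : 0 < ε)
    (hεq : ε < q - 2) (c V : ℝ) : ∃ G : Set Ω, G.Finite ∧ ∀ S : Finset (Pl k), S.card ≤ s →
      excSet Ω g q r S ε c V ⊆ G := by
  classical
  obtain ⟨_, ⟨C1, hC10, hC1⟩⟩ := window_bound_gen Ω g hg hq1 hq2 r (s * r) hε (r * |c|)
  obtain ⟨C2, hC20, hC2⟩ := boundedExt_card.{u} r (by omega) (finrank ℚ k)
  have hr0 : (0 : ℝ) < r := by exact_mod_cast (by omega : 0 < r)
  have hlk : 0 ≤ Real.log |(discr k : ℝ)| := by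
    apply Real.log_nonneg
    rw [← Int.cast_abs]
    exact_mod_cast Int.one_le_abs (discr_ne_zero k)
  set C3 : ℝ := r * |c| + C1 + r * Real.log |(discr k : ℝ)| with hC3
  have hC30 : 0 ≤ C3 := by positivity
  set θ : ℝ := (q : ℝ) - 2 - ε with hθ
  have hθ0 : 0 < θ := by rw [hθ]; linarith
  set Y : ℝ := Real.exp (θ * |V| + C3) with hY
  have hY1 : 1 ≤ Y := Real.one_le_exp (by positivity)
  obtain ⟨hbf, hbc⟩ := hC2 k Ω rfl Y hY1
  refine ⟨⋃ L ∈ boundedExt k Ω r Y, {x | ∃ (_ : NumberField k⟮x⟯), finrank k k⟮x⟯ = r ∧ k⟮x⟯ = L ∧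
    Height.logHeight (aff (AdjoinSimple.gen k x)) ≤ V}, ?_, ?_⟩
  swap
  · intro S hSs x hx
    simp only [Set.mem_iUnion]
    refine ⟨k⟮x⟯, ?_, ?_⟩
    swap
    · obtain ⟨hnf, hexc, hV⟩ := hx
      exact ⟨hnf, hexc.1, rfl, hV⟩
    obtain ⟨hnf, hexc, hV⟩ := hx
    have hineq := (hexc.ineq (by omega)).2
    have hcardW : (upW k⟮x⟯ S).card ≤ s * r := by
      refine (card_upW_le k⟮x⟯ S).trans ?_
      rw [hexc.1]; exact Nat.mul_le_mul_right _ hSs
    have hup := hC1 k⟮x⟯ hexc.1.le (upW k⟮x⟯ S) hcardW _ hexc.2.1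
    refine ⟨hexc.1, hnf, ?_⟩
    have hd : (0 : ℝ) < |(discr k⟮x⟯ : ℝ)| := by
      rw [abs_pos]; exact_mod_cast discr_ne_zero _
    rw [← Real.log_le_iff_le_exp hd]
    have h3 : Real.log |(discr k⟮x⟯ : ℝ)| ≤ θ * Height.logHeight (aff (AdjoinSimple.gen k x)) + C3 := by
      rw [hθ, hC3]; linarith
    have h4 : θ * Height.logHeight (aff (AdjoinSimple.gen k x)) ≤ θ * |V| :=
      mul_le_mul_of_nonneg_left (hV.trans (le_abs_self V)) hθ0.le
    linarith
  refine Set.Finite.biUnion hbf fun L hL => ?_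
  obtain ⟨hLr, hLnf, _⟩ := hL
  have hN := finite_setOfPred_logHeight₁_le L V
  refine Set.Finite.subset (hN.image (fun y : L => (y : Ω))) ?_
  rintro x ⟨hnf, hexc, hxL, hV⟩
  have hmem : x ∈ L := by rw [← hxL]; exact mem_adjoin_simple_self k x
  refine ⟨⟨x, hmem⟩, ?_, rfl⟩
  have h2 : Height.logHeight (aff (⟨x, hmem⟩ : L)) ≤ V :=
    transport_aux (fun L _ y => Height.logHeight (aff y) ≤ V) x L hxL _ ⟨hnf, hV⟩
  change Height.logHeight₁ _ ≤ V
  rw [Height.logHeight₁_eq_logHeight]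
  exact h2

/-- The exceptions to Vojta's inequality for a reduced divisor of degree `q` on the projective line
are sparse. -/
theorem excSet_count (g : k[X]) (hg : Squarefree g) {q : ℕ} (hq1 : g.natDegree ≤ q)
    (hq2 : q ≤ g.natDegree + 1) {r : ℕ} (hr : 2 ≤ r) (s : ℕ) {ε : ℝ} (hε : 0 < ε)
    (hεq : ε < q - 2) (c : ℝ) :
    ∃ C : ℝ, 0 ≤ C ∧ ∀ S : Finset (Pl k), S.card ≤ s → ∀ V : ℝ, 0 ≤ V →
      (excSet Ω g q r S ε c V).Finite ∧ ((excSet Ω g q r S ε c V).ncard : ℝ) ≤ C * Real.exp (((q : ℝ) - 2 - ε) * kap r * V) := by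
  obtain ⟨U0, C4, hC40, hC4⟩ := excSet_window (Ω := Ω) g hg hq1 hq2 hr s hε hεq c
  set κ : ℝ := ((q : ℝ) - 2 - ε) * kap r with hκ
  have hkap : 0 < kap r := by
    unfold kap; rw [if_neg (by omega)]; positivity
  have hκ0 : 0 < κ := mul_pos (by linarith) hkap
  set ρ : ℝ := 1 + ε / 4 with hρ
  have hρ1 : 1 < ρ := by rw [hρ]; linarith
  set U1 : ℝ := max U0 1 with hU1
  have hU11 : 1 ≤ U1 := le_max_right _ _
  set δ : ℝ := (ρ - 1) * U1 with hδ
  have hδ0 : 0 < δ := mul_pos (by linarith) (by linarith)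
  have hexp : Real.exp (-(κ * δ)) < 1 := by
    rw [Real.exp_lt_one_iff]
    have := mul_pos hκ0 hδ0
    linarith
  set V0 : ℝ := ρ * U1 with hV0
  obtain ⟨G0, hG0, hG0'⟩ := excSet_finite (Ω := Ω) g hg hq1 hq2 hr s hε hεq c V0
  set C3 : ℝ := max (G0.ncard : ℝ) (C4 / (1 - Real.exp (-(κ * δ)))) with hC3
  have hN0 : (0 : ℝ) ≤ G0.ncard := Nat.cast_nonneg _
  have hC30 : 0 ≤ C3 := hN0.trans (le_max_left _ _)
  have hC3' : C4 ≤ C3 * (1 - Real.exp (-(κ * δ))) := by
    have h1 : C4 / (1 - Real.exp (-(κ * δ))) ≤ C3 := le_max_right _ _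
    rwa [div_le_iff₀ (by linarith)] at h1
  refine ⟨C3, hC30, ?_⟩
  intro S hSs
  have hC4 := hC4 S hSs
  set N : ℝ → ℝ := fun V => ((excSet Ω g q r S ε c V).ncard : ℝ) with hN
  have hfin : ∀ V, (excSet Ω g q r S ε c V).Finite := by
    intro V
    obtain ⟨G, hG, hG'⟩ := excSet_finite (Ω := Ω) g hg hq1 hq2 hr s hε hεq c V
    exact hG.subset (hG' S hSs)
  have hmono : ∀ V V', V ≤ V' → N V ≤ N V' := by
    intro V V' h
    have hsub : excSet Ω g q r S ε c V ⊆ excSet Ω g q r S ε c V' := by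
      rintro x ⟨h1, h2, h3⟩
      exact ⟨h1, h2, h3.trans h⟩
    have := Set.ncard_le_ncard hsub (hfin V')
    simp only [hN]
    exact_mod_cast this
  have hNG : N V0 ≤ G0.ncard := by
    have := Set.ncard_le_ncard (hG0' S hSs) hG0
    simp only [hN]
    exact_mod_cast this
  have key : ∀ n : ℕ, ∀ V : ℝ, 0 ≤ V → V ≤ ρ ^ n * V0 → N V ≤ C3 * Real.exp (κ * V) := by
    intro n
    induction n with
    | zero =>
      intro V hV hle
      rw [pow_zero, one_mul] at hle
      calc N V ≤ N V0 := hmono _ _ hle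
        _ ≤ C3 := hNG.trans (le_max_left _ _)
        _ = C3 * 1 := (mul_one _).symm
        _ ≤ _ := mul_le_mul_of_nonneg_left (Real.one_le_exp (by positivity)) hC30
    | succ n ih =>
      intro V hV hle
      rcases le_or_gt V V0 with h | h
      · calc N V ≤ N V0 := hmono _ _ h
          _ ≤ C3 := hNG.trans (le_max_left _ _)
          _ = C3 * 1 := (mul_one _).symm
          _ ≤ _ := mul_le_mul_of_nonneg_left (Real.one_le_exp (by positivity)) hC30
      · have hρ0 : 0 < ρ := by linarith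
        set U : ℝ := V / ρ with hU
        have hVU : V = ρ * U := by rw [hU]; field_simp
        have hUU1 : U1 ≤ U := by
          rw [hU, le_div_iff₀ hρ0]; rw [hV0] at h; linarith
        have hU0' : U0 ≤ U := (le_max_left _ _).trans hUU1
        obtain ⟨hwf, hwc⟩ := hC4 U hU0'
        have hih := ih U (by linarith) (by
          rw [hU, div_le_iff₀ hρ0]
          calc V ≤ ρ ^ (n + 1) * V0 := hle
            _ = ρ ^ n * V0 * ρ := by ring)
        have hsplit : N V ≤ N U + ((excSet Ω g q r S ε c (ρ * U) \ excSet Ω g q r S ε c U).ncard : ℝ) := by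
          have hsub : excSet Ω g q r S ε c V ⊆ excSet Ω g q r S ε c U ∪
              (excSet Ω g q r S ε c (ρ * U) \ excSet Ω g q r S ε c U) := by
            intro x hx
            by_cases hxU : x ∈ excSet Ω g q r S ε c U
            · exact Or.inl hxU
            · right; rw [← hVU]; exact ⟨hx, hxU⟩
          have h1 := (Set.ncard_le_ncard hsub ((hfin U).union hwf)).trans (Set.ncard_union_le _ _)
          simp only [hN]
          exact_mod_cast h1
        have hgap : κ * U ≤ κ * V - κ * δ := by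
          have h2 : δ ≤ V - U := by
            rw [hδ, hVU]
            have : (ρ - 1) * U1 ≤ (ρ - 1) * U := mul_le_mul_of_nonneg_left hUU1 (by linarith)
            linarith
          have := mul_le_mul_of_nonneg_left h2 hκ0.le
          linarith
        have hE0 : 0 < Real.exp (κ * V) := Real.exp_pos _
        have h3 : Real.exp (κ * U) ≤ Real.exp (κ * V) * Real.exp (-(κ * δ)) := by
          rw [← Real.exp_add]
          exact Real.exp_le_exp.mpr (by linarith)
        rw [← hVU] at hwc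
        rw [← hVU] at hsplit
        calc N V ≤ N U + ((excSet Ω g q r S ε c V \ excSet Ω g q r S ε c U).ncard : ℝ) := hsplit
          _ ≤ C3 * Real.exp (κ * U) + C4 * Real.exp (κ * V) := add_le_add hih hwc
          _ ≤ C3 * (Real.exp (κ * V) * Real.exp (-(κ * δ))) +
              C3 * (1 - Real.exp (-(κ * δ))) * Real.exp (κ * V) :=
              add_le_add (mul_le_mul_of_nonneg_left h3 hC30) (mul_le_mul_of_nonneg_right hC3' hE0.le)
          _ = C3 * Real.exp (κ * V) := by ring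
  intro V hV
  refine ⟨hfin V, ?_⟩
  obtain ⟨n, hn⟩ := pow_unbounded_of_one_lt (V / V0) hρ1
  have hV00 : 0 < V0 := by rw [hV0]; nlinarith
  rw [div_lt_iff₀ hV00] at hn
  exact key n V hV hn.le

end

end Pool.Agent.Helper52.Vojta
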