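import Mathlib
import Pool.Agent.Helper52.Vojta.Pack

/-!
The combinatorial part of the volume count.
-/

namespace Pool.Agent.Helper52.Vojta

open NumberField Finset Module Pool.Agent.Helper64.Vojta

universe u

section top

/-- among the subsets of given size there is one carrying at least the average share -/
theorem exists_top {ι : Type*} [DecidableEq ι] (f : ι → ℝ) (hf : ∀ i, 0 ≤ f i) (m : ℕ) (A : Finset ι) (hm : m ≤ A.card) :
    ∃ J ⊆ A, J.card = m ∧ (m : ℝ) * ∑ i ∈ A, f i ≤ A.card * ∑ i ∈ J, f i := by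
  induction h : A.card - m generalizing A with
  | zero =>
    refine ⟨A, Finset.Subset.refl _, by omega, ?_⟩
    have : A.card = m := by omega
    rw [this]
  | succ n ih =>
    have hA : 0 < A.card := by omega
    have hne : A.Nonempty := Finset.card_pos.mp hA
    obtain ⟨i0, hi0, hmin⟩ := Finset.exists_min_image A f hne
    have hcard : (A.erase i0).card = A.card - 1 := Finset.card_erase_of_mem hi0
    obtain ⟨J, hJ, hJm, hJs⟩ := ih (A.erase i0) (by omega) (by omega)
    refine ⟨J, hJ.trans (Finset.erase_subset _ _), hJm, ?_⟩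
    have h1 : ∑ i ∈ A, f i = f i0 + ∑ i ∈ A.erase i0, f i := (Finset.add_sum_erase A f hi0).symm
    have h2 : (A.card : ℝ) * f i0 ≤ ∑ i ∈ A, f i := by
      have := Finset.card_nsmul_le_sum A f (f i0) (fun i hi => hmin i hi)
      rwa [nsmul_eq_mul] at this
    have hA1 : (1 : ℝ) ≤ A.card := by exact_mod_cast hA
    have hJ0 : 0 ≤ ∑ i ∈ J, f i := Finset.sum_nonneg fun i _ => hf i
    have hE0 : 0 ≤ ∑ i ∈ A.erase i0, f i := Finset.sum_nonneg fun i _ => hf i
    have hm0 : (0 : ℝ) ≤ m := Nat.cast_nonneg _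
    rw [hcard] at hJs
    push_cast [Nat.cast_sub hA] at hJs
    rcases eq_or_ne A.card 1 with h1' | h1'
    · -- then `m = 0`
      have : m = 0 := by omega
      subst this
      rw [Nat.cast_zero, zero_mul]
      positivity
    · have hA2 : (2 : ℝ) ≤ A.card := by
        have : 2 ≤ A.card := by omega
        exact_mod_cast this
      -- (card A - 1) Σ_A ≤ card A Σ_{erase}
      have h3 : ((A.card : ℝ) - 1) * ∑ i ∈ A, f i ≤ A.card * ∑ i ∈ A.erase i0, f i := by
        rw [h1] at h2 ⊢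
        linarith
      have h4 := mul_le_mul_of_nonneg_left h3 hm0
      have h5 := mul_le_mul_of_nonneg_left hJs (by linarith : (0 : ℝ) ≤ A.card)
      have h6 : ((A.card : ℝ) - 1) * (m * ∑ i ∈ A, f i) ≤ ((A.card : ℝ) - 1) * (A.card * ∑ i ∈ J, f i) := by
        linarith
      exact le_of_mul_le_mul_left h6 (by linarith)

/-- selection of `m` indices carrying a large part of the sum, when at most `N` terms are large -/
theorem exists_select {q : ℕ} (f : Fin q → ℝ) {C : ℝ} (hC : 0 ≤ C) (hf : ∀ i, -C ≤ f i) (m : ℕ) (hm : m ≤ q)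
    (N : ℕ) (hmN : m ≤ N) (hN0 : 0 < N) (hN : (Finset.univ.filter fun i => C < f i).card ≤ N) :
    ∃ J : Finset (Fin q), J.card = m ∧
      (m : ℝ) / N * ∑ i, f i - (2 * q) * C ≤ ∑ i ∈ J, f i := by
  classical
  set g : Fin q → ℝ := fun i => max (f i - C) 0 with hg
  have hg0 : ∀ i, 0 ≤ g i := fun i => le_max_right _ _
  set A : Finset (Fin q) := Finset.univ.filter fun i => C < f i with hA
  have hNr : (0 : ℝ) < N := by exact_mod_cast hN0
  have hmNr : (m : ℝ) / N ≤ 1 := by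
    rw [div_le_one hNr]; exact_mod_cast hmN
  have hm0 : (0 : ℝ) ≤ (m : ℝ) / N := by positivity
  have hgA : ∀ i, i ∉ A → g i = 0 := by
    intro i hi
    rw [hA, Finset.mem_filter] at hi
    push Not at hi
    have := hi (Finset.mem_univ i)
    simp only [hg]
    exact max_eq_right (by linarith)
  have hsumA : ∑ i ∈ A, g i = ∑ i, g i :=
    Finset.sum_subset (Finset.subset_univ _) fun i _ hi => hgA i hi
  have key : ∃ J : Finset (Fin q), J.card = m ∧ (m : ℝ) / N * ∑ i, g i ≤ ∑ i ∈ J, g i := by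
    rcases le_or_gt m A.card with h | h
    · obtain ⟨J, hJ, hJm, hJs⟩ := exists_top g hg0 m A h
      refine ⟨J, hJm, ?_⟩
      rw [hsumA] at hJs
      have hJ0 : 0 ≤ ∑ i ∈ J, g i := Finset.sum_nonneg fun i _ => hg0 i
      rw [div_mul_eq_mul_div, div_le_iff₀ hNr]
      calc (m : ℝ) * ∑ i, g i ≤ A.card * ∑ i ∈ J, g i := hJs
        _ ≤ N * ∑ i ∈ J, g i := mul_le_mul_of_nonneg_right (by exact_mod_cast hN) hJ0
        _ = _ := mul_comm _ _
    · obtain ⟨J, hAJ, hJm⟩ := Finset.exists_superset_card_eq h.le (by rw [Fintype.card_fin]; exact hm)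
      refine ⟨J, hJm, ?_⟩
      have h1 : ∑ i ∈ J, g i = ∑ i, g i := by
        apply le_antisymm
        · exact Finset.sum_le_sum_of_subset_of_nonneg (Finset.subset_univ _) fun i _ _ => hg0 i
        · rw [← hsumA]
          exact Finset.sum_le_sum_of_subset_of_nonneg hAJ fun i _ _ => hg0 i
      rw [h1]
      have h2 : 0 ≤ ∑ i, g i := Finset.sum_nonneg fun i _ => hg0 i
      calc (m : ℝ) / N * ∑ i, g i ≤ 1 * ∑ i, g i := mul_le_mul_of_nonneg_right hmNr h2
        _ = _ := one_mul _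
  obtain ⟨J, hJm, hJs⟩ := key
  refine ⟨J, hJm, ?_⟩
  have hle : ∀ i, f i ≤ g i + C := fun i => by
    have := le_max_left (f i - C) 0
    simp only [hg]; linarith
  have hge : ∀ i, g i - C ≤ f i := fun i => by
    simp only [hg]
    rcases max_choice (f i - C) 0 with h | h
    · rw [h]; linarith
    · rw [h]; have := hf i; linarith
  have h1 : ∑ i, f i ≤ ∑ i, g i + q * C := by
    have := Finset.sum_le_sum fun i (_ : i ∈ (Finset.univ : Finset (Fin q))) => hle i
    rw [Finset.sum_add_distrib, Finset.sum_const, Finset.card_univ, Fintype.card_fin, nsmul_eq_mul] at this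
    exact this
  have h2 : ∑ i ∈ J, g i - q * C ≤ ∑ i ∈ J, f i := by
    have := Finset.sum_le_sum fun i (_ : i ∈ J) => hge i
    rw [Finset.sum_sub_distrib, Finset.sum_const, hJm, nsmul_eq_mul] at this
    have h3 : (m : ℝ) * C ≤ q * C := mul_le_mul_of_nonneg_right (by exact_mod_cast hm) hC
    linarith
  have h3 : (m : ℝ) / N * ∑ i, f i ≤ (m : ℝ) / N * (∑ i, g i + q * C) := mul_le_mul_of_nonneg_left h1 hm0
  have h4 : (m : ℝ) / N * (q * C) ≤ 1 * (q * C) := mul_le_mul_of_nonneg_right hmNr (by positivity)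
  have h5 : (m : ℝ) / N * (∑ i, g i + q * C) = (m : ℝ) / N * ∑ i, g i + (m : ℝ) / N * (q * C) := by ring
  linarith

end top

section

variable {k : Type u} [Field k] [NumberField k]

open scoped Classical in
theorem count_comb {X : Type*} (P : Finset X) {q m s r : ℕ} (S : Finset (Pl k))
    (hS : ∀ v : InfinitePlace k, Sum.inl v ∈ S) (hs : S.card ≤ s) (M : ℕ)
    (z : X → Fin q → 𝓞 k) (Λ : X → Fin q → Pl k → ℝ) (b : Pl k → ℝ) (τ : ℝ) (J : X → Finset (Fin q))
    (h1 : ∀ x ∈ P, ∀ i, z x i ≠ 0)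
    (h2 : ∀ x ∈ P, ∀ i, ∀ v ∈ S, Real.log (nv v (z x i : k)) ≤ b v - Λ x i v)
    (h3 : ∀ x ∈ P, ∀ i, ∀ v ∈ S, |Λ x i v| ≤ M)
    (h4 : ∀ x ∈ P, (J x).card = m)
    (h5 : ∀ x ∈ P, τ ≤ ∑ i ∈ J x, ∑ v ∈ S, Λ x i v)
    (h6 : ∀ x₀ ∈ P, (P.filter fun x => J x = J x₀ ∧ ∀ i ∈ J x₀, z x i = z x₀ i).card ≤ r) :
    (P.card : ℝ) ≤ 2 ^ q * (2 * M + 3) ^ (q * s) *
      (r * ((9 ^ finrank ℚ k) ^ m * Real.exp (m * ∑ v ∈ S, b v - τ + m * s))) := by
  set n := finrank ℚ k with hn
  -- the profile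
  let prof : X → Fin q → S → ℤ := fun x i v => ⌊Λ x i v.1⌋
  let F : X → Finset (Fin q) × (Fin q → S → ℤ) := fun x => (J x, prof x)
  let T : Finset (Finset (Fin q) × (Fin q → S → ℤ)) :=
    Finset.univ ×ˢ (Fintype.piFinset fun _ : Fin q => Fintype.piFinset fun _ : S => Finset.Icc (-(M : ℤ) - 1) (M + 1))
  have hT : (T.card : ℝ) ≤ 2 ^ q * (2 * M + 3) ^ (q * s) := by
    have e : (Finset.Icc (-(M : ℤ) - 1) (M + 1)).card = 2 * M + 3 := by
      rw [Int.card_Icc]
      omega
    rw [Finset.card_product, Fintype.card_piFinset]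
    simp only [Fintype.card_piFinset, e, Finset.prod_const, Finset.card_univ, Fintype.card_finset,
      Fintype.card_fin, Fintype.card_coe]
    push_cast
    rw [← pow_mul]
    have h7 : (2 * (M : ℝ) + 3) ^ (S.card * q) ≤ (2 * M + 3) ^ (q * s) := by
      apply pow_le_pow_right₀ (by have : (0 : ℝ) ≤ M := Nat.cast_nonneg _; linarith)
      rw [mul_comm]
      exact Nat.mul_le_mul_left _ hs
    exact mul_le_mul_of_nonneg_left h7 (by positivity)
  have hF : ∀ x ∈ P, F x ∈ T := by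
    intro x hx
    rw [Finset.mem_product]
    refine ⟨Finset.mem_univ _, ?_⟩
    rw [Fintype.mem_piFinset]
    intro i
    rw [Fintype.mem_piFinset]
    intro v
    have := h3 x hx i v.1 v.2
    rw [abs_le] at this
    rw [Finset.mem_Icc]
    change -(M : ℤ) - 1 ≤ ⌊Λ x i v.1⌋ ∧ ⌊Λ x i v.1⌋ ≤ M + 1
    constructor
    · rw [Int.le_floor]
      push_cast
      linarith
    · have h7 : (⌊Λ x i v.1⌋ : ℝ) ≤ Λ x i v.1 := Int.floor_le _
      have h8 : (⌊Λ x i v.1⌋ : ℝ) ≤ ((M + 1 : ℤ) : ℝ) := by push_cast; linarith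
      exact_mod_cast h8
  -- the fibres
  have hfib : ∀ t ∈ T, ((P.filter fun x => F x = t).card : ℝ) ≤
      r * ((9 ^ n) ^ m * Real.exp (m * ∑ v ∈ S, b v - τ + m * s)) := by
    intro t _
    set G := P.filter fun x => F x = t with hG
    rcases G.eq_empty_or_nonempty with hemp | ⟨x₀, hx₀⟩
    · rw [hemp, Finset.card_empty]
      push_cast
      positivity
    rw [hG, Finset.mem_filter] at hx₀
    obtain ⟨hx₀P, hx₀t⟩ := hx₀
    set J₀ := J x₀ with hJ₀
    let bb : Fin q → Pl k → ℝ := fun i v => if hv : v ∈ S then b v - prof x₀ i ⟨v, hv⟩ else 0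
    let Z : X → (J₀ → 𝓞 k) := fun x i => z x i.1
    let TT : Finset (J₀ → 𝓞 k) := Fintype.piFinset fun i : J₀ => (box_card S hS (bb i.1)).1.toFinset
    have hGp : ∀ x ∈ G, x ∈ P ∧ J x = J₀ ∧ prof x = prof x₀ := by
      intro x hx
      rw [hG, Finset.mem_filter] at hx
      have h7 : F x = F x₀ := hx.2.trans hx₀t.symm
      exact ⟨hx.1, congrArg Prod.fst h7, congrArg Prod.snd h7⟩
    have hZ : ∀ x ∈ G, Z x ∈ TT := by
      intro x hx
      obtain ⟨hxP, hxJ, hxp⟩ := hGp x hx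
      rw [Fintype.mem_piFinset]
      intro i
      rw [Set.Finite.mem_toFinset]
      refine ⟨h1 x hxP i.1, ?_⟩
      intro v hv
      have h7 := h2 x hxP i.1 v hv
      have hz0 : ((z x i.1 : 𝓞 k) : k) ≠ 0 := by exact_mod_cast h1 x hxP i.1
      change nv v (z x i.1 : k) ≤ _
      rw [← Real.log_le_iff_le_exp (nv_pos v hz0)]
      refine h7.trans ?_
      simp only [bb, dif_pos hv]
      have h8 : (prof x₀ i.1 ⟨v, hv⟩ : ℝ) = (prof x i.1 ⟨v, hv⟩ : ℝ) := by rw [hxp]
      rw [h8]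
      have h9 : ((⌊Λ x i.1 v⌋ : ℤ) : ℝ) ≤ Λ x i.1 v := Int.floor_le _
      change _ ≤ b v - ((⌊Λ x i.1 v⌋ : ℤ) : ℝ)
      linarith
    have hcount : G.card ≤ r * TT.card := by
      refine (Finset.card_le_mul_card_image_of_maps_to (f := Z) (t := TT) hZ r ?_)
      intro a _
      rcases (G.filter fun x => Z x = a).eq_empty_or_nonempty with hemp | ⟨x₁, hx₁⟩
      · rw [hemp]; simp
      · rw [Finset.mem_filter] at hx₁
        obtain ⟨hx₁P, hx₁J, _⟩ := hGp x₁ hx₁.1
        refine le_trans (Finset.card_le_card ?_) (h6 x₁ hx₁P)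
        intro x hx
        rw [Finset.mem_filter] at hx
        obtain ⟨hxP, hxJ, _⟩ := hGp x hx.1
        rw [Finset.mem_filter]
        refine ⟨hxP, hxJ.trans hx₁J.symm, ?_⟩
        intro i hi
        rw [hx₁J] at hi
        exact congrFun (hx.2.trans hx₁.2.symm) ⟨i, hi⟩
    have hTT : (TT.card : ℝ) ≤ (9 ^ n) ^ m * Real.exp (m * ∑ v ∈ S, b v - τ + m * s) := by
      rw [Fintype.card_piFinset]
      push_cast
      have h7 : ∀ i : J₀, (((box_card S hS (bb i.1)).1.toFinset.card : ℕ) : ℝ) ≤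
          9 ^ n * Real.exp (∑ v ∈ S, bb i.1 v) := by
        intro i
        have := (box_card S hS (bb i.1)).2
        rwa [Set.ncard_eq_toFinset_card _ (box_card S hS (bb i.1)).1] at this
      refine (Finset.prod_le_prod (fun i _ => Nat.cast_nonneg _) fun i _ => h7 i).trans ?_
      rw [Finset.prod_mul_distrib, Finset.prod_const, Finset.card_univ, Fintype.card_coe, h4 x₀ hx₀P,
        ← Real.exp_sum]
      refine mul_le_mul_of_nonneg_left (Real.exp_le_exp.mpr ?_) (by positivity)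
      have h8 : ∑ i : J₀, ∑ v ∈ S, bb i.1 v = ∑ i ∈ J₀, ∑ v ∈ S, bb i v :=
        Finset.sum_coe_sort J₀ (fun i => ∑ v ∈ S, bb i v)
      rw [h8]
      have h9 : ∀ i ∈ J₀, ∑ v ∈ S, bb i v ≤ ∑ v ∈ S, b v - ∑ v ∈ S, Λ x₀ i v + s := by
        intro i _
        have h10 : ∀ v ∈ S, bb i v ≤ b v - Λ x₀ i v + 1 := by
          intro v hv
          simp only [bb, dif_pos hv]
          have h11 : Λ x₀ i v < ((⌊Λ x₀ i v⌋ : ℤ) : ℝ) + 1 := Int.lt_floor_add_one _
          change b v - ((⌊Λ x₀ i v⌋ : ℤ) : ℝ) ≤ _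
          linarith
        have h12 := Finset.sum_le_sum h10
        rw [Finset.sum_add_distrib, Finset.sum_sub_distrib, Finset.sum_const, nsmul_eq_mul, mul_one] at h12
        have h13 : (S.card : ℝ) ≤ s := by exact_mod_cast hs
        linarith
      have h14 := Finset.sum_le_sum h9
      rw [Finset.sum_add_distrib, Finset.sum_sub_distrib, Finset.sum_const, Finset.sum_const, h4 x₀ hx₀P,
        nsmul_eq_mul, nsmul_eq_mul] at h14
      have h15 := h5 x₀ hx₀P
      linarith
    calc (G.card : ℝ) ≤ ((r * TT.card : ℕ) : ℝ) := by exact_mod_cast hcount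
      _ = r * TT.card := by push_cast; ring
      _ ≤ _ := mul_le_mul_of_nonneg_left hTT (Nat.cast_nonneg _)
  -- conclusion
  have hsum : (P.card : ℝ) = ∑ t ∈ T, ((P.filter fun x => F x = t).card : ℝ) := by
    rw [Finset.card_eq_sum_card_fiberwise hF]
    push_cast
    rfl
  rw [hsum]
  refine (Finset.sum_le_sum hfib).trans ?_
  rw [Finset.sum_const, nsmul_eq_mul]
  exact mul_le_mul_of_nonneg_right hT (by positivity)

end

end Pool.Agent.Helper52.Vojta
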