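import Mathlib
import Pool.Agent.Helper52.Vojta.Data
import Pool.Agent.Helper52.Vojta.Comb
import Pool.Agent.Helper52.Vojta.Fibre

/-!
The volume count: points of degree `r` with large local contributions at rational points.
-/

namespace Pool.Agent.Helper52.Vojta

open NumberField Finset Module Polynomial IntermediateField Pool.Agent.Helper64.Vojta

universe u

section

variable {k : Type u} [Field k] [NumberField k]

open scoped Classical in
/-- at most `card W` forms can have a large total contribution over `W` -/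
theorem card_large_le {L : Type u} [Field L] [NumberField L] [Algebra k L] {q : ℕ} (D : Fin q → Fin 2 → k)
    {x : Fin 2 → L} {C3 : ℝ} (hC30 : 0 ≤ C3)
    (hC3 : ∀ (w : Pl L) (i j : Fin q), i ≠ j → min (loc w (cst (D i)) x) (loc w (cst (D j)) x) ≤ C3)
    (W : Finset (Pl L)) {B : ℝ} (hB : W.card * C3 ≤ B) :
    (Finset.univ.filter fun i => B < ∑ w ∈ W, loc w (cst (D i)) x).card ≤ W.card := by
  have h1 : ∀ i ∈ Finset.univ.filter fun i => B < ∑ w ∈ W, loc w (cst (D i)) x,
      ∃ w ∈ W, C3 < loc w (cst (D i)) x := by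
    intro i hi
    rw [Finset.mem_filter] at hi
    by_contra hcon
    push Not at hcon
    have h2 := Finset.sum_le_sum hcon
    rw [Finset.sum_const, nsmul_eq_mul] at h2
    linarith [hi.2]
  let f : Fin q → Pl L := fun i => if h : ∃ w ∈ W, C3 < loc w (cst (D i)) x then h.choose else
    (.inl (Classical.arbitrary _))
  refine Finset.card_le_card_of_injOn f ?_ ?_
  · intro i hi
    have h := h1 i hi
    simp only [f, dif_pos h]
    exact h.choose_spec.1
  · intro i hi j hj hij
    by_contra hne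
    have hi' := h1 i hi
    have hj' := h1 j hj
    simp only [f, dif_pos hi', dif_pos hj'] at hij
    have e1 := hi'.choose_spec.2
    have e2 := hj'.choose_spec.2
    rw [← hij] at e2
    have h3 := hC3 hi'.choose i j hne
    exact absurd (lt_min e1 e2) (not_lt.mpr h3)

open scoped Classical in
theorem vol_count (Ω : Type u) [Field Ω] [Algebra k Ω] [Algebra.IsAlgebraic k Ω]
    {n : ℕ} (a : Fin n → k) (ha : Function.Injective a) {q : ℕ} (hq2 : q ≤ n + 1) {r : ℕ} (hrq : r + 1 ≤ q)
    (s N : ℕ) (hN : r + 1 ≤ N) (hqN : q ≤ N ∨ r * s ≤ N) :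
    ∃ (C : ℝ) (c : ℕ), 0 ≤ C ∧ ∀ S : Finset (Pl k), S.card ≤ s → ∀ (U T : ℝ), 0 ≤ U → ∀ P : Finset Ω,
      (∀ x ∈ P, ∃ _ : NumberField k⟮x⟯, finrank k k⟮x⟯ = r ∧
        (∀ i, ev (cst (frm a q i)) (aff (AdjoinSimple.gen k x)) ≠ 0) ∧
        Height.logHeight (aff (AdjoinSimple.gen k x)) ≤ U ∧
        T ≤ ∑ w ∈ upW k⟮x⟯ S, ∑ i, loc w (cst (frm a q i)) (aff (AdjoinSimple.gen k x))) →
      (P.card : ℝ) ≤ C * (1 + U) ^ c * Real.exp ((r + 1) * (U - T / N)) := by
  obtain ⟨C1, hC10, hC1⟩ := exists_data.{u, u} k (frm a q) r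
  obtain ⟨C2, hC20, hC2⟩ := loc_lower.{u, u} (frm a q) r
  obtain ⟨C3, hC30, hC3⟩ := not_close_two.{u, u} (frm a q) (frm_genPos a ha hq2) r
  set nk := finrank ℚ k with hnk
  have hnk0 : (0 : ℝ) < nk := by exact_mod_cast (finrank_pos : 0 < finrank ℚ k)
  set ci := Fintype.card (InfinitePlace k) with hci
  set sp := s + ci with hsp
  set B0 : ℝ := ci * C1 + sp * (r * C2) + r * C2 with hB0
  have hB00 : 0 ≤ B0 := by positivity
  set C4 : ℝ := s * r * (C2 + C3) with hC4
  have hC40 : 0 ≤ C4 := by positivity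
  refine ⟨2 ^ q * (2 * B0 + 5) ^ (q * sp) * (r * ((9 ^ nk) ^ (r + 1) *
    Real.exp ((r + 1) * (ci * C1) + 2 * q * C4 + (r + 1) * (sp * (r * C2)) + (r + 1) * sp))), q * sp, by positivity, ?_⟩
  intro S hSs U T hU P hP
  set S' : Finset (Pl k) := S ∪ (Finset.univ : Finset (InfinitePlace k)).map Function.Embedding.inl with hS'
  have hS'inf : ∀ v : InfinitePlace k, Sum.inl v ∈ S' := by
    intro v
    rw [hS', Finset.mem_union, Finset.mem_map]
    exact Or.inr ⟨v, Finset.mem_univ _, rfl⟩
  have hS'card : S'.card ≤ sp := by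
    rw [hS']
    refine (Finset.card_union_le _ _).trans ?_
    rw [Finset.card_map, Finset.card_univ]
    omega
  have hSS' : S ⊆ S' := Finset.subset_union_left
  let b : Pl k → ℝ := fun v => match v with
    | .inl v => C1 + v.mult / nk * U
    | .inr _ => 0
  have hsumb : ∑ v ∈ S', b v = ci * C1 + U := by
    rw [← Finset.toLeft_disjSum_toRight (u := S'), Finset.sum_disjSum]
    have e1 : S'.toLeft = Finset.univ := by
      ext w; simp [hS'inf w]
    rw [e1]
    simp only [b]
    rw [Finset.sum_const_zero, add_zero, Finset.sum_add_distrib, Finset.sum_const, Finset.card_univ,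
      nsmul_eq_mul, ← Finset.sum_mul, ← Finset.sum_div]
    have h2 : ∑ v : InfinitePlace k, (v.mult : ℝ) = nk := by
      rw [hnk, ← InfinitePlace.sum_mult_eq]; push_cast; rfl
    rw [h2, div_self hnk0.ne', one_mul]
  set M : ℕ := ⌈U + B0⌉₊ with hM
  have hMle : U + B0 ≤ M := Nat.le_ceil _
  have hMlt : (M : ℝ) < U + B0 + 1 := Nat.ceil_lt_add_one (by positivity)
  have hNr : (0 : ℝ) < N := by exact_mod_cast (by omega : 0 < N)
  set τ : ℝ := ((r + 1 : ℕ) : ℝ) / N * T - 2 * q * C4 - (r + 1) * (sp * (r * C2)) with hτ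
  have hdata : ∀ x ∈ P, ∃ (l : k) (z : Fin q → 𝓞 k) (Λ : Fin q → Pl k → ℝ) (J : Finset (Fin q)), l ≠ 0 ∧
      (∀ i, (z i : k) = l * Algebra.norm k (ev (cst (frm a q i)) (aff (AdjoinSimple.gen k x)))) ∧
      (∀ i, z i ≠ 0) ∧ (∀ i, ∀ v ∈ S', Real.log (nv v (z i : k)) ≤ b v - Λ i v) ∧
      (∀ i, ∀ v ∈ S', |Λ i v| ≤ M) ∧ J.card = r + 1 ∧ τ ≤ ∑ i ∈ J, ∑ v ∈ S', Λ i v := by
    intro x hx
    obtain ⟨hnf, hxr, hxne, hxU, hxT⟩ := hP x hx
    obtain ⟨l, z, hl, hz, hz0, hzinf, hzfin⟩ := hC1 k⟮x⟯ hxr.le (AdjoinSimple.gen k x) U hxU hxne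
    set y := AdjoinSimple.gen k x with hy
    let Λ : Fin q → Pl k → ℝ := fun i v => ∑ w ∈ above k⟮x⟯ v, loc w (cst (frm a q i)) (aff y)
    have hlow : ∀ i v, -(r * C2) ≤ Λ i v := by
      intro i v
      have h1 : ∀ w ∈ above k⟮x⟯ v, -C2 ≤ loc w (cst (frm a q i)) (aff y) := fun w _ =>
        hC2 k⟮x⟯ hxr.le w (aff y) (aff_ne_zero y) i (hxne i)
      have h2 := Finset.card_nsmul_le_sum _ _ _ h1
      rw [nsmul_eq_mul] at h2
      have h3 : ((above k⟮x⟯ v).card : ℝ) ≤ r := by
        have := card_above_le (L := k⟮x⟯) v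
        rw [hxr] at this
        exact_mod_cast this
      have h4 := mul_le_mul_of_nonneg_right h3 hC20
      simp only [Λ]
      linarith
    have hzb : ∀ i, ∀ v ∈ S', Real.log (nv v (z i : k)) ≤ b v - Λ i v := by
      intro i v _
      rcases v with v | v
      · exact hzinf i v
      · have := hzfin i v
        simp only [b, Λ, zero_sub]
        exact this
    have hup : ∀ i, ∀ v ∈ S', Λ i v ≤ U + B0 := by
      intro i v₀ hv₀
      have h1 := sum_log_nonneg S' hS'inf (hz0 i)
      have h2 := Finset.sum_le_sum fun v hv => hzb i v hv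
      rw [Finset.sum_sub_distrib, hsumb] at h2
      have h3 : Λ i v₀ - (S'.erase v₀).card * (r * C2) ≤ ∑ v ∈ S', Λ i v := by
        rw [← Finset.add_sum_erase S' _ hv₀]
        have h4 := Finset.card_nsmul_le_sum (S'.erase v₀) (fun v => Λ i v) (-(r * C2)) (fun v _ => hlow i v)
        rw [nsmul_eq_mul] at h4
        linarith
      have h5 : ((S'.erase v₀).card : ℝ) ≤ sp := by
        have := (Finset.card_erase_le (a := v₀) (s := S')).trans hS'card
        exact_mod_cast this
      have h6 := mul_le_mul_of_nonneg_right h5 (show (0 : ℝ) ≤ r * C2 by positivity)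
      have h7 : (0 : ℝ) ≤ r * C2 := by positivity
      rw [hB0]
      linarith
    have habs : ∀ i, ∀ v ∈ S', |Λ i v| ≤ M := by
      intro i v hv
      rw [abs_le]
      have h1 := hlow i v
      have h2 := hup i v hv
      have h3 : (r : ℝ) * C2 ≤ B0 := by
        rw [hB0]
        have : 0 ≤ ci * C1 + sp * (r * C2) := by positivity
        linarith
      constructor <;> linarith
    -- selection
    set f : Fin q → ℝ := fun i => ∑ w ∈ upW k⟮x⟯ S, loc w (cst (frm a q i)) (aff y) with hf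
    have hWcard : ((upW k⟮x⟯ S).card : ℝ) ≤ s * r := by
      have h1 := card_upW_le k⟮x⟯ S
      rw [hxr] at h1
      have h2 : (upW k⟮x⟯ S).card ≤ s * r := h1.trans (Nat.mul_le_mul_right _ hSs)
      exact_mod_cast h2
    have hflow : ∀ i, -C4 ≤ f i := by
      intro i
      have h1 : ∀ w ∈ upW k⟮x⟯ S, -C2 ≤ loc w (cst (frm a q i)) (aff y) := fun w _ =>
        hC2 k⟮x⟯ hxr.le w (aff y) (aff_ne_zero y) i (hxne i)
      have h2 := Finset.card_nsmul_le_sum _ _ _ h1
      rw [nsmul_eq_mul] at h2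
      have h4 := mul_le_mul_of_nonneg_right hWcard hC20
      have h5 : 0 ≤ (s : ℝ) * r * C3 := by positivity
      rw [hC4]
      simp only [hf]
      linarith
    have hlarge : (Finset.univ.filter fun i => C4 < f i).card ≤ N := by
      rcases hqN with h | h
      · refine (Finset.card_filter_le _ _).trans ?_
        rw [Finset.card_univ, Fintype.card_fin]
        exact h
      · have h1 := card_large_le (frm a q) (x := aff y) hC30
          (fun w i j hij => hC3 k⟮x⟯ hxr.le w (aff y) (aff_ne_zero y) hxne i j hij) (upW k⟮x⟯ S) (B := C4) (by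
            have h4 := mul_le_mul_of_nonneg_right hWcard hC30
            have h5 : 0 ≤ (s : ℝ) * r * C2 := by positivity
            rw [hC4]
            linarith)
        refine h1.trans ?_
        have h2 := card_upW_le k⟮x⟯ S
        rw [hxr] at h2
        calc (upW k⟮x⟯ S).card ≤ S.card * r := h2
          _ ≤ s * r := Nat.mul_le_mul_right _ hSs
          _ = r * s := Nat.mul_comm _ _
          _ ≤ N := h
    obtain ⟨J, hJ, hJs⟩ := exists_select f hC40 hflow (r + 1) hrq N hN (by omega) hlarge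
    refine ⟨l, z, Λ, J, hl, hz, hz0, hzb, habs, hJ, ?_⟩
    have hsumf : T ≤ ∑ i, f i := by
      refine hxT.trans (le_of_eq ?_)
      simp only [hf]
      exact Finset.sum_comm
    have h1 : ∀ i ∈ J, f i - sp * (r * C2) ≤ ∑ v ∈ S', Λ i v := by
      intro i _
      have e1 : f i = ∑ v ∈ S, Λ i v := by
        simp only [hf, Λ]
        exact sum_upW S _
      rw [e1, ← Finset.sum_sdiff hSS']
      have h2 := Finset.card_nsmul_le_sum (S' \ S) (fun v => Λ i v) (-(r * C2)) (fun v _ => hlow i v)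
      rw [nsmul_eq_mul] at h2
      have h3 : ((S' \ S).card : ℝ) ≤ sp := by
        exact_mod_cast (Finset.card_le_card Finset.sdiff_subset).trans hS'card
      have h4 := mul_le_mul_of_nonneg_right h3 (show (0 : ℝ) ≤ r * C2 by positivity)
      linarith
    have h2 := Finset.sum_le_sum h1
    rw [Finset.sum_sub_distrib, Finset.sum_const, hJ, nsmul_eq_mul] at h2
    have h3 : ((r + 1 : ℕ) : ℝ) / N * T ≤ ((r + 1 : ℕ) : ℝ) / N * ∑ i, f i :=
      mul_le_mul_of_nonneg_left hsumf (by positivity)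
    rw [hτ]
    push_cast at h2 h3 hJs ⊢
    linarith
  choose! l z Λ J hl hz hz0 hzb habs hJ hτJ using hdata
  have hcomb := count_comb P (q := q) (m := r + 1) (s := sp) (r := r) S' hS'inf hS'card M z Λ b τ J
    hz0 hzb habs hJ hτJ (by
      intro x₀ hx₀
      obtain ⟨hnf₀, hx₀r, _⟩ := hP x₀ hx₀
      have hint₀ : IsIntegral k x₀ := Algebra.IsIntegral.isIntegral x₀
      have hsub : (P.filter fun x => J x = J x₀ ∧ ∀ i ∈ J x₀, z x i = z x₀ i)
          ⊆ ((minpoly k x₀).map (algebraMap k Ω)).roots.toFinset := by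
        intro x hx
        rw [Finset.mem_filter] at hx
        obtain ⟨hxP, _, hxz⟩ := hx
        obtain ⟨hnf, hxr, _⟩ := hP x hxP
        have hint : IsIntegral k x := Algebra.IsIntegral.isIntegral x
        have hmin := minpoly_eq_of_norms a ha hq2 (r := r) (J x₀) (hJ x₀ hx₀).ge x x₀ hint hint₀ hxr hx₀r
          (l x) (l x₀) (hl x hxP) (by
            intro i hi
            rw [← hz x hxP i, ← hz x₀ hx₀ i, hxz i hi])
        rw [Multiset.mem_toFinset, mem_roots (Polynomial.map_ne_zero (minpoly.ne_zero hint₀)), IsRoot.def,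
          eval_map_algebraMap, ← hmin]
        exact minpoly.aeval k x
      refine (Finset.card_le_card hsub).trans ((Multiset.toFinset_card_le _).trans ?_)
      refine (card_roots' _).trans ?_
      rw [natDegree_map, ← hx₀r, adjoin.finrank hint₀])
  refine hcomb.trans ?_
  rw [hsumb]
  have h1 : (2 * (M : ℝ) + 3) ^ (q * sp) ≤ (2 * B0 + 5) ^ (q * sp) * (1 + U) ^ (q * sp) := by
    rw [← mul_pow]
    apply pow_le_pow_left₀ (by positivity)
    nlinarith
  have h2 : Real.exp (((r + 1 : ℕ) : ℝ) * (ci * C1 + U) - τ + ((r + 1 : ℕ) : ℝ) * sp)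
      = Real.exp ((r + 1) * (ci * C1) + 2 * q * C4 + (r + 1) * (sp * (r * C2)) + (r + 1) * sp)
        * Real.exp ((r + 1) * (U - T / N)) := by
    rw [← Real.exp_add]
    congr 1
    rw [hτ]
    push_cast
    ring
  rw [h2]
  calc (2 : ℝ) ^ q * (2 * M + 3) ^ (q * sp) * (r * ((9 ^ nk) ^ (r + 1) *
        (Real.exp ((r + 1) * (ci * C1) + 2 * q * C4 + (r + 1) * (sp * (r * C2)) + (r + 1) * sp)
          * Real.exp ((r + 1) * (U - T / N)))))
      ≤ 2 ^ q * ((2 * B0 + 5) ^ (q * sp) * (1 + U) ^ (q * sp)) * (r * ((9 ^ nk) ^ (r + 1) *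
        (Real.exp ((r + 1) * (ci * C1) + 2 * q * C4 + (r + 1) * (sp * (r * C2)) + (r + 1) * sp)
          * Real.exp ((r + 1) * (U - T / N))))) := by
        apply mul_le_mul_of_nonneg_right _ (by positivity)
        exact mul_le_mul_of_nonneg_left h1 (by positivity)
    _ = _ := by ring

end

end Pool.Agent.Helper52.Vojta
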