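import Mathlib
import Pool.Agent.Helper52.Vojta.VolCount
import Pool.Agent.Helper52.Vojta.Split
import Pool.Agent.Helper52.Vojta.Count

/-!
Counting the exceptions for divisors which are sums of rational points: discriminants and volumes.
-/

namespace Pool.Agent.Helper52.Vojta

open NumberField Finset Module Polynomial IntermediateField Pool.Agent.Helper64.Vojta

universe u

section

variable {k : Type u} [Field k] [NumberField k] {Ω : Type u} [Field Ω] [Algebra k Ω] [IsAlgClosed Ω]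
  [Algebra.IsAlgebraic k Ω]

open scoped Classical in
/-- exceptions in a window with bounded discriminant -/
theorem exc_window_fields (g : k[X]) (hg : Squarefree g) {q : ℕ} (hq1 : g.natDegree ≤ q)
    (hq2 : q ≤ g.natDegree + 1) {r : ℕ} (hr : 2 ≤ r) (s : ℕ) {ε : ℝ} (hε : 0 < ε) (c : ℝ) :
    ∃ (U0 : ℝ) (B : ℕ), ∀ S : Finset (Pl k), S.card ≤ s → ∀ (U Y : ℝ), U0 ≤ U → 1 ≤ Y → ∀ P : Finset Ω,
      (∀ x ∈ P, ∃ _ : NumberField k⟮x⟯, Exc g q r S ε c k⟮x⟯ (AdjoinSimple.gen k x) ∧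
        U ≤ Height.logHeight (aff (AdjoinSimple.gen k x)) ∧
        Height.logHeight (aff (AdjoinSimple.gen k x)) ≤ (1 + ε / 4) * U ∧ |(discr k⟮x⟯ : ℝ)| ≤ Y) →
      P.card ≤ B * (boundedExt k Ω r Y).ncard := by
  obtain ⟨⟨U0, B, hB⟩, _⟩ := window_bound_gen Ω g hg hq1 hq2 r (s * r) hε (r * |c|)
  obtain ⟨C2, hC20, hC2⟩ := boundedExt_card.{u} r (by omega) (finrank ℚ k)
  refine ⟨U0, B, ?_⟩
  intro S hSs U Y hU hY P hP
  obtain ⟨hbf, _⟩ := hC2 k Ω rfl Y hY
  have hmaps : ∀ x ∈ P, k⟮x⟯ ∈ hbf.toFinset := by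
    intro x hx
    obtain ⟨hnf, hexc, _, _, hd⟩ := hP x hx
    rw [Set.Finite.mem_toFinset]
    exact ⟨hexc.1, hnf, hd⟩
  have h1 : P.card ≤ B * hbf.toFinset.card := by
    refine Finset.card_le_mul_card_image_of_maps_to (f := fun x => k⟮x⟯) (t := hbf.toFinset) hmaps B ?_
    intro L hL
    rw [Set.Finite.mem_toFinset] at hL
    obtain ⟨hLr, hLnf, _⟩ := hL
    have hmem : ∀ x ∈ P.filter (fun x => k⟮x⟯ = L), x ∈ L := by
      intro x hx
      rw [Finset.mem_filter] at hx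
      have := mem_adjoin_simple_self k x
      rwa [hx.2] at this
    let P' : Finset L := (P.filter (fun x => k⟮x⟯ = L)).attach.image fun x => ⟨x.1, hmem x.1 x.2⟩
    have hcard : P'.card = (P.filter (fun x => k⟮x⟯ = L)).card := by
      rw [Finset.card_image_of_injective, Finset.card_attach]
      intro x y h
      exact Subtype.ext (congrArg (fun z : L => (z : Ω)) h)
    rw [← hcard]
    have hcardW : (upW L S).card ≤ s * r := by
      refine (card_upW_le L S).trans ?_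
      rw [hLr]; exact Nat.mul_le_mul_right _ hSs
    refine hB L hLr.le (upW L S) hcardW U hU P' ?_
    intro y hy
    obtain ⟨x, _, rfl⟩ := Finset.mem_image.mp hy
    have hx2 := x.2
    rw [Finset.mem_filter] at hx2
    obtain ⟨hxP, hxL⟩ := hx2
    obtain ⟨hnf, hexc, hV1, hV2, _⟩ := hP x.1 hxP
    have h1 : Exc g q r S ε c L ⟨x.1, hmem x.1 x.2⟩ :=
      transport_aux (fun L _ y => Exc g q r S ε c L y) x.1 L hxL _ ⟨hnf, hexc⟩
    have h2 : Height.logHeight (aff (⟨x.1, hmem x.1 x.2⟩ : L)) ≤ (1 + ε / 4) * U :=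
      transport_aux (fun L _ y => Height.logHeight (aff y) ≤ (1 + ε / 4) * U) x.1 L hxL _ ⟨hnf, hV2⟩
    have h3 : U ≤ Height.logHeight (aff (⟨x.1, hmem x.1 x.2⟩ : L)) :=
      transport_aux (fun L _ y => U ≤ Height.logHeight (aff y)) x.1 L hxL _ ⟨hnf, hV1⟩
    exact ⟨h1.2.1, h3, h2, (h1.ineq (by omega)).1⟩
  rw [Set.ncard_eq_toFinset_card _ hbf]
  exact h1

omit [IsAlgClosed Ω] [NumberField k] [Algebra.IsAlgebraic k Ω] in
theorem gen_ne (x : Ω) (hr : 2 ≤ finrank k k⟮x⟯) (t : k) :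
    AdjoinSimple.gen k x - algebraMap k k⟮x⟯ t ≠ 0 := by
  intro h
  have h1 : x = algebraMap k Ω t := by
    have h2 := congrArg (fun z : k⟮x⟯ => (z : Ω)) (sub_eq_zero.mp h)
    exact h2
  have h2 : k⟮x⟯ = ⊥ := by
    rw [IntermediateField.adjoin_simple_eq_bot_iff, h1]
    exact IntermediateField.algebraMap_mem _ _
  have h3 : finrank k k⟮x⟯ = 1 := by
    rw [h2]; exact IntermediateField.finrank_bot
  omega

/-- the exponent -/
noncomputable def expo (r N : ℕ) (ε : ℝ) : ℝ :=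
  ((r : ℝ) + 1) * (r + 2) * (N - 2 - ε) / (N * (r + 2) + 4 * (r + 1))

open scoped Classical in
omit [IsAlgClosed Ω] in
theorem exc_large_disc (g : k[X]) (hg : Squarefree g) (hsp : g.Splits) {q : ℕ} (hq1 : g.natDegree ≤ q)
    (hq2 : q ≤ g.natDegree + 1) {r : ℕ} (hr : 2 ≤ r) (s N : ℕ) (hN : r + 1 ≤ N) (hqN : q ≤ N ∨ r * s ≤ N)
    {ε : ℝ} (hε : 0 < ε) (c : ℝ) :
    ∃ (C : ℝ) (m : ℕ), 0 ≤ C ∧ ∀ S : Finset (Pl k), S.card ≤ s → ∀ (U D : ℝ), 0 ≤ U → ∀ P : Finset Ω,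
      (∀ x ∈ P, ∃ _ : NumberField k⟮x⟯, Exc g q r S ε c k⟮x⟯ (AdjoinSimple.gen k x) ∧
        U - 1 ≤ Height.logHeight (aff (AdjoinSimple.gen k x)) ∧
        Height.logHeight (aff (AdjoinSimple.gen k x)) ≤ U ∧ D ≤ Real.log |(discr k⟮x⟯ : ℝ)|) →
      (P.card : ℝ) ≤ C * (1 + U) ^ m * Real.exp ((r + 1) * (U - ((2 + ε) * U + D) / N)) := by
  obtain ⟨a, ha, hga⟩ := exists_roots hg hsp
  set d : ℕ := r + 1 - q with hd
  obtain ⟨a', ha', haa⟩ := exists_pad a ha d
  have hlc : g.leadingCoeff ≠ 0 := leadingCoeff_ne_zero.mpr hg.ne_zero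
  obtain ⟨Cp, hCp0, hCp⟩ := dloc_le_sum.{u, u} hlc hga d haa hq1 r
  obtain ⟨Cv, m, hCv0, hCv⟩ := vol_count (k := k) Ω a' ha' (q := q + d) (by omega) (r := r) (by omega) s N hN
    (by rcases hqN with h | h
        · left; omega
        · right; exact h)
  have hNr : (0 : ℝ) < N := by exact_mod_cast (by omega : 0 < N)
  set C5 : ℝ := (2 + ε) + r * Real.log |(discr k : ℝ)| + r * |c| + s * r * Cp with hC5
  refine ⟨Cv * Real.exp ((r + 1) * (C5 / N)), m, by positivity, ?_⟩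
  intro S hSs U D hU P hP
  have h1 := hCv S hSs U ((2 + ε) * U + D - C5) hU P (by
    intro x hx
    obtain ⟨hnf, hexc, hU1, hU2, hD⟩ := hP x hx
    have hxr := hexc.1
    have hne : ∀ i : Fin (g.natDegree + d), AdjoinSimple.gen k x - algebraMap k k⟮x⟯ (a' i) ≠ 0 := fun i =>
      gen_ne x (by omega) _
    refine ⟨hnf, hxr, ?_, hU2, ?_⟩
    · intro i
      rw [ev_frm]
      split_ifs with h
      · exact hne _
      · exact one_ne_zero
    · have h2 := (hexc.ineq (by omega)).2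
      have h3 : ∑ w ∈ upW k⟮x⟯ S, dloc g q w (AdjoinSimple.gen k x)
          ≤ ∑ w ∈ upW k⟮x⟯ S, ∑ i, loc w (cst (frm a' (q + d) i)) (aff (AdjoinSimple.gen k x)) + s * r * Cp := by
        have h4 := Finset.sum_le_sum fun w (_ : w ∈ upW k⟮x⟯ S) => hCp k⟮x⟯ hxr.le w (AdjoinSimple.gen k x) hne
        rw [Finset.sum_add_distrib, Finset.sum_const, nsmul_eq_mul] at h4
        have h5 : ((upW k⟮x⟯ S).card : ℝ) ≤ s * r := by
          have h6 := card_upW_le k⟮x⟯ S
          rw [hxr] at h6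
          exact_mod_cast h6.trans (Nat.mul_le_mul_right _ hSs)
        have h7 := mul_le_mul_of_nonneg_right h5 hCp0
        linarith
      have h4 : (2 + ε) * (U - 1) ≤ (2 + ε) * Height.logHeight (aff (AdjoinSimple.gen k x)) :=
        mul_le_mul_of_nonneg_left hU1 (by linarith)
      rw [hC5]
      linarith)
  refine h1.trans (le_of_eq ?_)
  have h2 : Real.exp ((r + 1) * (U - ((2 + ε) * U + D - C5) / N))
      = Real.exp ((r + 1) * (C5 / N)) * Real.exp ((r + 1) * (U - ((2 + ε) * U + D) / N)) := by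
    rw [← Real.exp_add]
    congr 1
    field_simp
    ring
  rw [h2]
  ring

theorem expo_pos {r N : ℕ} {ε : ℝ} (h : ε < N - 2) : 0 < expo r N ε := by
  unfold expo
  have h1 : 0 < (N : ℝ) - 2 - ε := by linarith
  have h2 : (0 : ℝ) ≤ r := Nat.cast_nonneg _
  have h3 : (0 : ℝ) ≤ N := Nat.cast_nonneg _
  positivity

open scoped Classical in
/-- The exceptions to Vojta's inequality for a sum of rational points on the projective line. -/
theorem exc_split_count (g : k[X]) (hg : Squarefree g) (hsp : g.Splits) {q : ℕ} (hq1 : g.natDegree ≤ q)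
    (hq2 : q ≤ g.natDegree + 1) {r : ℕ} (hr : 2 ≤ r) (s N : ℕ) (hN : r + 1 ≤ N) (hqN : q ≤ N ∨ r * s ≤ N)
    {ε : ℝ} (hε : 0 < ε) (hεN : ε < N - 2) (hεq : ε < q - 2) (c : ℝ) :
    ∃ (C : ℝ) (m : ℕ), 0 ≤ C ∧ ∀ S : Finset (Pl k), S.card ≤ s → ∀ V : ℝ, 0 ≤ V →
      (excSet Ω g q r S ε c V).Finite ∧
      ((excSet Ω g q r S ε c V).ncard : ℝ) ≤ C * (1 + V) ^ m * Real.exp (expo r N ε * V) := by
  obtain ⟨U0, B, hB⟩ := exc_window_fields (Ω := Ω) g hg hq1 hq2 hr s hε c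
  obtain ⟨Cd, m, hCd0, hCd⟩ := exc_large_disc (Ω := Ω) g hg hsp hq1 hq2 hr s N hN hqN hε c
  obtain ⟨C2, hC20, hC2⟩ := boundedExt_card.{u} r (by omega) (finrank ℚ k)
  set E : ℝ := expo r N ε with hE
  have hE0 : 0 < E := expo_pos hεN
  set δ : ℝ := 4 * E / (r + 2) with hδ
  have hr0 : (0 : ℝ) ≤ r := Nat.cast_nonneg _
  have hδ0 : 0 < δ := by positivity
  have hNr : (0 : ℝ) < N := by exact_mod_cast (by omega : 0 < N)
  have hkap : δ * kap r = E := by
    unfold kap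
    rw [if_neg (by omega), hδ]
    field_simp
  have hEeq : ((r : ℝ) + 1) * (1 - (2 + ε + δ) / N) = E := by
    rw [hδ, hE]
    unfold expo
    have h1 : (N : ℝ) * (r + 2) + 4 * (r + 1) ≠ 0 := by positivity
    field_simp
    ring
  obtain ⟨j0, hj0⟩ := exists_nat_ge (max U0 (4 / ε))
  have hj0U : U0 ≤ j0 := (le_max_left _ _).trans hj0
  have hj0ε : 4 / ε ≤ j0 := (le_max_right _ _).trans hj0
  obtain ⟨G, hG, hG'⟩ := excSet_finite (Ω := Ω) g hg hq1 hq2 hr s hε hεq c j0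
  refine ⟨G.ncard + B * C2 + Cd * 2 ^ m * Real.exp (r + 1), m + 1, by positivity, ?_⟩
  intro S hSs V hV
  have hfin : (excSet Ω g q r S ε c V).Finite := by
    obtain ⟨G1, hG1, hG1'⟩ := excSet_finite (Ω := Ω) g hg hq1 hq2 hr s hε hεq c V
    exact hG1.subset (hG1' S hSs)
  refine ⟨hfin, ?_⟩
  set P0 := hfin.toFinset with hP0
  set J1 : ℕ := ⌈V⌉₊ with hJ1
  have hJ1V : (J1 : ℝ) < V + 1 := Nat.ceil_lt_add_one hV
  set Y : ℝ := Real.exp (δ * V) with hY
  have hY1 : 1 ≤ Y := Real.one_le_exp (by positivity)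
  obtain ⟨_, hbc⟩ := hC2 k Ω rfl Y hY1
  have hYk : Y ^ kap r = Real.exp (E * V) := by
    rw [hY, ← Real.exp_mul]
    congr 1
    rw [← hkap]; ring
  rw [hYk] at hbc
  let A : ℕ → Finset Ω := fun j => P0.filter fun x => ∃ _ : NumberField k⟮x⟯,
    (j : ℝ) - 1 ≤ Height.logHeight (aff (AdjoinSimple.gen k x)) ∧
    Height.logHeight (aff (AdjoinSimple.gen k x)) ≤ j ∧ |(discr k⟮x⟯ : ℝ)| ≤ Y
  let A' : ℕ → Finset Ω := fun j => P0.filter fun x => ∃ _ : NumberField k⟮x⟯,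
    (j : ℝ) - 1 ≤ Height.logHeight (aff (AdjoinSimple.gen k x)) ∧
    Height.logHeight (aff (AdjoinSimple.gen k x)) ≤ j ∧ Y < |(discr k⟮x⟯ : ℝ)|
  have hcover : P0 ⊆ hG.toFinset ∪ (Finset.Ioc j0 J1).biUnion (fun j => A j ∪ A' j) := by
    intro x hx
    rw [hP0, Set.Finite.mem_toFinset] at hx
    obtain ⟨hnf, hexc, hV'⟩ := hx
    set h := Height.logHeight (aff (AdjoinSimple.gen k x)) with hh
    rcases le_or_gt h j0 with h1 | h1
    · rw [Finset.mem_union, Set.Finite.mem_toFinset]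
      left
      exact hG' S hSs ⟨hnf, hexc, h1⟩
    · rw [Finset.mem_union, Finset.mem_biUnion]
      right
      have hh0 : 0 ≤ h := (Nat.cast_nonneg j0).trans h1.le
      refine ⟨⌈h⌉₊, ?_, ?_⟩
      · rw [Finset.mem_Ioc]
        constructor
        · exact Nat.lt_ceil.mpr h1
        · exact Nat.ceil_mono hV'
      · have h2 : (⌈h⌉₊ : ℝ) - 1 ≤ h := by have := Nat.ceil_lt_add_one hh0; linarith
        have h3 : h ≤ ⌈h⌉₊ := Nat.le_ceil _
        have hxP0 : x ∈ P0 := by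
          rw [hP0, Set.Finite.mem_toFinset]; exact ⟨hnf, hexc, hV'⟩
        rw [Finset.mem_union, Finset.mem_filter, Finset.mem_filter]
        rcases le_or_gt |(discr k⟮x⟯ : ℝ)| Y with h4 | h4
        · exact Or.inl ⟨hxP0, hnf, h2, h3, h4⟩
        · exact Or.inr ⟨hxP0, hnf, h2, h3, h4⟩
  have hexcP0 : ∀ x ∈ P0, ∃ _ : NumberField k⟮x⟯, Exc g q r S ε c k⟮x⟯ (AdjoinSimple.gen k x) := by
    intro x hx
    rw [hP0, Set.Finite.mem_toFinset] at hx
    obtain ⟨hnf, hexc, _⟩ := hx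
    exact ⟨hnf, hexc⟩
  have hAcard : ∀ j ∈ Finset.Ioc j0 J1, ((A j).card : ℝ) ≤ B * C2 * Real.exp (E * V) := by
    intro j hj
    rw [Finset.mem_Ioc] at hj
    have hj1 : (j0 : ℝ) + 1 ≤ j := by exact_mod_cast hj.1
    have h1 := hB S hSs ((j : ℝ) - 1) Y (by linarith) hY1 (A j) (by
      intro x hx
      rw [Finset.mem_filter] at hx
      obtain ⟨hxP0, hnf, h2, h3, h4⟩ := hx
      obtain ⟨_, hexc⟩ := hexcP0 x hxP0
      refine ⟨hnf, hexc, h2, h3.trans ?_, h4⟩
      have h5 : 4 / ε ≤ (j : ℝ) - 1 := by linarith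
      rw [div_le_iff₀ hε] at h5
      nlinarith)
    calc ((A j).card : ℝ) ≤ ((B * (boundedExt k Ω r Y).ncard : ℕ) : ℝ) := by exact_mod_cast h1
      _ = B * ((boundedExt k Ω r Y).ncard : ℝ) := by push_cast; ring
      _ ≤ B * (C2 * Real.exp (E * V)) := mul_le_mul_of_nonneg_left hbc (Nat.cast_nonneg _)
      _ = _ := by ring
  have hA'card : ∀ j ∈ Finset.Ioc j0 J1, ((A' j).card : ℝ) ≤
      Cd * 2 ^ m * Real.exp (r + 1) * (1 + V) ^ m * Real.exp (E * V) := by
    intro j hj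
    rw [Finset.mem_Ioc] at hj
    have hjJ : (j : ℝ) ≤ V + 1 := by
      have : (j : ℝ) ≤ J1 := by exact_mod_cast hj.2
      linarith
    have hj0' : (0 : ℝ) ≤ j := Nat.cast_nonneg _
    have h1 := hCd S hSs (j : ℝ) (δ * V) hj0' (A' j) (by
      intro x hx
      rw [Finset.mem_filter] at hx
      obtain ⟨hxP0, hnf, h2, h3, h4⟩ := hx
      obtain ⟨_, hexc⟩ := hexcP0 x hxP0
      refine ⟨hnf, hexc, h2, h3, ?_⟩
      rw [Real.le_log_iff_exp_le ((Real.exp_pos _).trans h4)]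
      exact h4.le)
    refine h1.trans ?_
    have h2 : (1 + (j : ℝ)) ^ m ≤ 2 ^ m * (1 + V) ^ m := by
      rw [← mul_pow]
      apply pow_le_pow_left₀ (by positivity)
      linarith
    have h3 : ((r : ℝ) + 1) * (j - ((2 + ε) * j + δ * V) / N) ≤ E * V + (r + 1) := by
      have h4 : (0 : ℝ) ≤ 1 - (2 + ε) / N := by
        rw [sub_nonneg, div_le_one hNr]; linarith
      have h5 : (j : ℝ) * (1 - (2 + ε) / N) ≤ (V + 1) * (1 - (2 + ε) / N) :=
        mul_le_mul_of_nonneg_right hjJ h4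
      have h6 : 1 - (2 + ε) / N ≤ 1 := by
        have : 0 ≤ (2 + ε) / (N : ℝ) := by positivity
        linarith
      have h7 : (j : ℝ) - ((2 + ε) * j + δ * V) / N ≤ V * (1 - (2 + ε + δ) / N) + 1 := by
        have e1 : (j : ℝ) - ((2 + ε) * j + δ * V) / N = j * (1 - (2 + ε) / N) - δ * V / N := by
          field_simp
          ring
        have e2 : V * (1 - (2 + ε + δ) / N) = V * (1 - (2 + ε) / N) - δ * V / N := by
          field_simp
          ring
        rw [e1, e2]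
        linarith
      calc ((r : ℝ) + 1) * (j - ((2 + ε) * j + δ * V) / N)
          ≤ ((r : ℝ) + 1) * (V * (1 - (2 + ε + δ) / N) + 1) := mul_le_mul_of_nonneg_left h7 (by linarith)
        _ = (((r : ℝ) + 1) * (1 - (2 + ε + δ) / N)) * V + (r + 1) := by ring
        _ = _ := by rw [hEeq]
    calc Cd * (1 + (j : ℝ)) ^ m * Real.exp (((r : ℝ) + 1) * (j - ((2 + ε) * j + δ * V) / N))
        ≤ Cd * (2 ^ m * (1 + V) ^ m) * Real.exp (E * V + (r + 1)) :=
          mul_le_mul (mul_le_mul_of_nonneg_left h2 hCd0) (Real.exp_le_exp.mpr h3) (Real.exp_pos _).le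
            (by positivity)
      _ = _ := by rw [Real.exp_add]; ring
  rw [Set.ncard_eq_toFinset_card _ hfin]
  have h1 : P0.card ≤ hG.toFinset.card + ∑ j ∈ Finset.Ioc j0 J1, ((A j).card + (A' j).card) := by
    refine (Finset.card_le_card hcover).trans ((Finset.card_union_le _ _).trans ?_)
    refine Nat.add_le_add_left (Finset.card_biUnion_le.trans ?_) _
    exact Finset.sum_le_sum fun j _ => Finset.card_union_le _ _
  have h2 : (P0.card : ℝ) ≤ G.ncard + ∑ j ∈ Finset.Ioc j0 J1, (((A j).card : ℝ) + (A' j).card) := by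
    rw [Set.ncard_eq_toFinset_card _ hG]
    exact_mod_cast h1
  have h3 : ∑ j ∈ Finset.Ioc j0 J1, (((A j).card : ℝ) + (A' j).card)
      ≤ (1 + V) * (B * C2 * Real.exp (E * V)
        + Cd * 2 ^ m * Real.exp (r + 1) * (1 + V) ^ m * Real.exp (E * V)) := by
    refine (Finset.sum_le_sum fun j hj => add_le_add (hAcard j hj) (hA'card j hj)).trans ?_
    rw [Finset.sum_const, nsmul_eq_mul]
    apply mul_le_mul_of_nonneg_right _ (by positivity)
    rw [Nat.card_Ioc]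
    have h4 : ((J1 - j0 : ℕ) : ℝ) ≤ J1 := by exact_mod_cast Nat.sub_le _ _
    linarith
  have h5 : (1 : ℝ) ≤ (1 + V) ^ m := one_le_pow₀ (by linarith)
  have h6 : (1 : ℝ) ≤ Real.exp (E * V) := Real.one_le_exp (by positivity)
  have h7 : (1 : ℝ) ≤ (1 + V) ^ (m + 1) := one_le_pow₀ (by linarith)
  have h8 : (1 + V) ≤ (1 + V) ^ (m + 1) := by
    rw [pow_succ]
    calc 1 + V = 1 * (1 + V) := (one_mul _).symm
      _ ≤ _ := mul_le_mul_of_nonneg_right h5 (by linarith)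
  calc (P0.card : ℝ) ≤ G.ncard + (1 + V) * (B * C2 * Real.exp (E * V)
        + Cd * 2 ^ m * Real.exp (r + 1) * (1 + V) ^ m * Real.exp (E * V)) := h2.trans (by linarith)
    _ ≤ G.ncard * ((1 + V) ^ (m + 1) * Real.exp (E * V)) + ((1 + V) ^ (m + 1) * (B * C2 * Real.exp (E * V))
        + (1 + V) ^ (m + 1) * (Cd * 2 ^ m * Real.exp (r + 1) * Real.exp (E * V))) := by
        apply add_le_add
        · have : (1 : ℝ) ≤ (1 + V) ^ (m + 1) * Real.exp (E * V) := by nlinarith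
          calc (G.ncard : ℝ) = G.ncard * 1 := (mul_one _).symm
            _ ≤ _ := mul_le_mul_of_nonneg_left this (Nat.cast_nonneg _)
        · rw [mul_add]
          apply add_le_add
          · exact mul_le_mul_of_nonneg_right h8 (by positivity)
          · apply le_of_eq
            rw [pow_succ]
            ring
    _ = _ := by ring

end

end Pool.Agent.Helper52.Vojta
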