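import Mathlib
import Pool.Agent.Helper52.Vojta.NormEval
import Pool.Agent.Helper52.Vojta.CellCount
import Pool.Agent.Helper52.Vojta.Data
import Pool.Agent.Helper52.Vojta.Fibre
import Pool.Agent.Helper52.Vojta.SplitCount

/-!
Local sizes of the vector of node values attached to a point.
-/

namespace Pool.Agent.Helper52.Vojta

open NumberField Finset Module Polynomial IntermediateField Pool.Agent.Helper64.Vojta

universe u v

set_option linter.unusedSectionVars false
set_option linter.unusedVariables false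

section points

variable {K : Type*} [Field K] [CharZero K]

/-- the points of the divisor -/
def ptD {n : ℕ} (a : Fin n → K) (q : ℕ) (i : Fin q) : Option K :=
  if h : (i : ℕ) < n then some (a ⟨i, h⟩) else none

theorem ptD_injective {n : ℕ} {a : Fin n → K} (ha : Function.Injective a) {q : ℕ} (hq : q ≤ n + 1) :
    Function.Injective (ptD a q) := by
  intro i j h
  unfold ptD at h
  split_ifs at h with h1 h2 h2
  · have := ha (Option.some_injective _ h)
    exact Fin.ext (by simpa using this)
  · exact Fin.ext (by omega)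

theorem exists_nodes {q : ℕ} (pt : Fin q → Option K) (r : ℕ) :
    ∃ b : Fin (r + 1) → ℕ, Function.Injective b ∧ ∀ i c, pt i ≠ some (b c : K) := by
  classical
  have hfin : {m : ℕ | ∃ i, pt i = some (m : K)}.Finite := by
    refine Set.Finite.of_finite_image (f := fun m : ℕ => (some (m : K))) ?_ ?_
    · refine (Set.finite_range pt).subset ?_
      rintro _ ⟨m, ⟨i, hi⟩, rfl⟩
      exact ⟨i, hi⟩
    · intro m _ m' _ h
      have := Option.some_injective _ h
      exact_mod_cast this
  have hinf := hfin.infinite_compl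
  let e := hinf.natEmbedding
  refine ⟨fun c => (e c : ℕ), ?_, ?_⟩
  · intro c c' h
    exact Fin.ext (e.injective (Subtype.ext h))
  · intro i c h
    exact (e c).2 ⟨i, h⟩

theorem opt_injective {q r : ℕ} {pt : Fin q → Option K} (hpt : Function.Injective pt) {b : Fin (r + 1) → ℕ}
    (hb : Function.Injective b) (hav : ∀ i c, pt i ≠ some (b c : K)) : Function.Injective (opt pt b) := by
  rintro (i | c) (j | c') h
  · rw [hpt h]
  · exact absurd h (hav i c')
  · exact absurd h.symm (hav j c)
  · have h1 : (b c : K) = (b c' : K) := Option.some_injective _ h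
    have h2 : b c = b c' := by exact_mod_cast h1
    rw [hb h2]

end points

section

variable {k : Type u} [Field k] [NumberField k] {K : Type u} [Field K] [NumberField K] [Algebra k K] {r q : ℕ}

theorem vl_fr (pt : Fin q → Option K) {b : Fin (r + 1) → ℕ} (hb : Function.Injective b)
    (i : Fin q ⊕ Fin (r + 1)) (z : Fin (r + 1) → 𝓞 k) (F : k[X]) (hF : F.natDegree ≤ r)
    (h : ∀ c, F.eval (b c : k) = cz z c) : vl (fr pt b i) z = evp r (opt pt b i) (F.map (algebraMap k K)) := by
  rw [← sum_frmP hb (opt pt b i) (F.map (algebraMap k K)) (natDegree_map_le.trans hF)]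
  refine Finset.sum_congr rfl fun c _ => ?_
  have h1 : ((F.map (algebraMap k K)).eval (b c : K)) = algebraMap k K (F.eval (b c : k)) := by
    have e : (b c : K) = algebraMap k K (b c : k) := by simp
    rw [e, eval_map_apply]
  rw [h1, h c]
  rfl

theorem nv_neg_one_pow (v : Pl K) (m : ℕ) : nv v ((-1 : K) ^ m) = 1 := by
  have hm1 : nv v (-1 : K) = 1 := by
    have h3 := nv_mul v (-1 : K) (-1)
    rw [neg_one_mul, neg_neg, nv_one] at h3
    have h4 := nv_nonneg v (-1 : K)
    nlinarith
  rcases neg_one_pow_eq_or K m with h | h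
  · rw [h, nv_one]
  · rw [h, hm1]

theorem nv_prod {ι : Type*} (v : Pl K) (s : Finset ι) (f : ι → K) : nv v (∏ i ∈ s, f i) = ∏ i ∈ s, nv v (f i) := by
  let φ : K →* ℝ := ⟨⟨nv v, nv_one v⟩, nv_mul v⟩
  exact map_prod φ f s

theorem nv_pow' (v : Pl K) (x : K) (m : ℕ) : nv v (x ^ m) = nv v x ^ m := by
  let φ : K →* ℝ := ⟨⟨nv v, nv_one v⟩, nv_mul v⟩
  exact map_pow φ x m

variable {Ω : Type u} [Field Ω] [Algebra k Ω]

/-- the product of the values at the points of the divisor -/
theorem prod_vl {n : ℕ} (a : Fin n → K) {q : ℕ} (hq1 : n ≤ q) (hq2 : q ≤ n + 1) {b : Fin (r + 1) → ℕ}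
    (hb : Function.Injective b) (z : Fin (r + 1) → 𝓞 k) (μ : k) (F : k[X]) (hF : F.natDegree = r) (hFm : F.Monic)
    (h : ∀ c, cz z c = μ * F.eval (b c : k)) :
    ∏ i : Fin q, vl (fr (ptD a q) b (Sum.inl i)) z
      = (algebraMap k K μ) ^ q * ∏ i : Fin n, (F.map (algebraMap k K)).eval (a i) := by
  have h1 : ∀ i : Fin q, vl (fr (ptD a q) b (Sum.inl i)) z
      = if hi : (i : ℕ) < n then algebraMap k K μ * (F.map (algebraMap k K)).eval (a ⟨i, hi⟩)
        else algebraMap k K μ := by
    intro i
    rw [vl_fr (ptD a q) hb (Sum.inl i) z (C μ * F) ((natDegree_C_mul_le _ _).trans hF.le) (by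
      intro c; rw [eval_mul, eval_C]; exact (h c).symm)]
    change evp r (ptD a q i) _ = _
    unfold ptD
    rw [Polynomial.map_mul, Polynomial.map_C]
    split_ifs with hi
    · rw [evp_some, eval_mul, eval_C]
    · rw [evp_none, coeff_C_mul, coeff_map]
      have : F.coeff r = 1 := by rw [← hF]; exact hFm
      rw [this, map_one, mul_one]
  simp_rw [h1]
  rcases Nat.lt_or_ge n q with hlt | hge
  · obtain rfl : q = n + 1 := by omega
    rw [Fin.prod_univ_castSucc]
    have h2 : ∀ i : Fin n, (if hi : ((i.castSucc : Fin (n + 1)) : ℕ) < n then algebraMap k K μ *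
        (F.map (algebraMap k K)).eval (a ⟨i.castSucc, hi⟩) else algebraMap k K μ)
        = algebraMap k K μ * (F.map (algebraMap k K)).eval (a i) := by
      intro i
      rw [dif_pos (by simp)]
      rfl
    simp_rw [h2]
    rw [dif_neg (by simp), Finset.prod_mul_distrib, Finset.prod_const, Finset.card_univ, Fintype.card_fin, pow_succ]
    ring
  · obtain rfl : q = n := by omega
    have h2 : ∀ i : Fin q, (if hi : (i : ℕ) < q then algebraMap k K μ *
        (F.map (algebraMap k K)).eval (a ⟨i, hi⟩) else algebraMap k K μ)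
        = algebraMap k K μ * (F.map (algebraMap k K)).eval (a i) := by
      intro i
      rw [dif_pos i.2]
    simp_rw [h2]
    rw [Finset.prod_mul_distrib, Finset.prod_const, Finset.card_univ, Fintype.card_fin]

open scoped Classical in
/-- the local contribution above a place of the base field -/
theorem local_sum (g : k[X]) (hg0 : g ≠ 0) {n : ℕ} (a : Fin n → K) (hn : g.natDegree = n)
    (hga : g.map (algebraMap k K) = C (algebraMap k K g.leadingCoeff) * ∏ i, (X - C (a i)))
    {q : ℕ} (hq1 : n ≤ q) (hq2 : q ≤ n + 1) {b : Fin (r + 1) → ℕ} (hb : Function.Injective b) :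
    ∃ C : ℝ, 0 ≤ C ∧ ∀ (v : Pl k) (x : Ω) (_ : NumberField k⟮x⟯), finrank k k⟮x⟯ = r → IsIntegral k x →
      2 ≤ r → aeval (AdjoinSimple.gen k x) g ≠ 0 →
      ∀ (z : Fin (r + 1) → 𝓞 k) (μ : k), μ ≠ 0 → (∀ c, cz z c = μ * (minpoly k x).eval (b c : k)) →
      finrank k K * (∑ w ∈ above k⟮x⟯ v, dloc g q w (AdjoinSimple.gen k x)) - C ≤
        ∑ v' ∈ above K v, ∑ i : Fin q, (Real.log (sn v' (fun c => algebraMap k K (cz z c)))
          - Real.log (nv v' (vl (fr (ptD a q) b (Sum.inl i)) z))) := by
  have hlc : g.leadingCoeff ≠ 0 := leadingCoeff_ne_zero.mpr hg0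
  obtain ⟨Cl, hCl0, hCl⟩ := const_lower (K := k) (fun _ : Unit => g.leadingCoeff) (fun _ => hlc)
  have hbk : Function.Injective (fun c : Fin (r + 1) => (b c : k)) := fun c c' h => hb (by
    have h' : (b c : k) = (b c' : k) := h
    exact_mod_cast h')
  obtain ⟨C3, hC30, hC3⟩ := not_close_two.{u, u} (frm (fun c : Fin (r + 1) => (b c : k)) (r + 1))
    (frm_genPos _ hbk (by omega)) r
  have hfdK : FiniteDimensional k K := FiniteDimensional.right ℚ k K
  refine ⟨finrank k K * (q * (r * C3) + r * Cl), by positivity, ?_⟩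
  intro v x hnf hxr hx hr2 hgy z μ hμ hz
  set y := AdjoinSimple.gen k x with hy
  have hfdL : FiniteDimensional k k⟮x⟯ := adjoin.finiteDimensional hx
  have hmon := minpoly.monic hx
  have hdeg : (minpoly k x).natDegree = r := by rw [← hxr, adjoin.finrank hx]
  have hprod := prod_vl a hq1 hq2 hb z μ (minpoly k x) hdeg hmon hz
  let pb : PowerBasis k k⟮x⟯ := adjoin.powerBasis hx
  have hgen : pb.gen = y := adjoin.powerBasis_gen hx
  have hdim : pb.dim = r := by rw [← hxr, ← pb.finrank]
  have hnorm := norm_aeval pb g a hga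
  rw [hgen, hdim, minpoly_gen] at hnorm
  set Ng := Algebra.norm k (aeval y g) with hNg
  have hNg0 : Ng ≠ 0 := by rw [hNg, Ne, Algebra.norm_eq_zero_iff]; exact hgy
  have hNgK : algebraMap k K Ng ≠ 0 := by simpa using hNg0
  have hμK : algebraMap k K μ ≠ 0 := by simpa using hμ
  have hlcK : algebraMap k K g.leadingCoeff ≠ 0 := by simpa using hlc
  have hprodE : (∏ i : Fin n, ((minpoly k x).map (algebraMap k K)).eval (a i)) ≠ 0 := by
    intro h0
    apply hNgK
    rw [hnorm, Finset.prod_mul_distrib, h0, mul_zero, mul_zero]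
  have hvl0 : ∀ i : Fin q, vl (fr (ptD a q) b (Sum.inl i)) z ≠ 0 := by
    have h1 : (∏ i : Fin q, vl (fr (ptD a q) b (Sum.inl i)) z) ≠ 0 := by
      rw [hprod]; exact mul_ne_zero (pow_ne_zero _ hμK) hprodE
    exact fun i => Finset.prod_ne_zero_iff.mp h1 i (Finset.mem_univ i)
  -- local identity
  have hloc : ∀ v' : Pl K, ∑ i : Fin q, Real.log (nv v' (vl (fr (ptD a q) b (Sum.inl i)) z))
      = q * Real.log (nv v' (algebraMap k K μ)) + Real.log (nv v' (algebraMap k K Ng))
        - r * Real.log (nv v' (algebraMap k K g.leadingCoeff)) := by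
    intro v'
    rw [← Real.log_prod (fun i _ => (nv_pos v' (hvl0 i)).ne'), ← nv_prod, hprod, nv_mul, nv_pow',
      Real.log_mul (pow_pos (nv_pos v' hμK) _).ne' (nv_pos v' hprodE).ne', Real.log_pow]
    have h2 : nv v' (algebraMap k K Ng) = nv v' (algebraMap k K g.leadingCoeff) ^ r
        * nv v' (∏ i : Fin n, ((minpoly k x).map (algebraMap k K)).eval (a i)) := by
      rw [hnorm, Finset.prod_mul_distrib, Finset.prod_const, nv_mul, nv_mul, nv_pow', ← pow_mul,
        nv_neg_one_pow, one_mul]
    rw [h2, Real.log_mul (pow_pos (nv_pos v' hlcK) _).ne' (nv_pos v' hprodE).ne', Real.log_pow]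
    ring
  have hz0 : cz z ≠ 0 := by
    intro h0
    have hroot : ∀ c : Fin (r + 1), (minpoly k x).eval (b c : k) = 0 := by
      intro c
      have h1 := hz c
      rw [h0, Pi.zero_apply] at h1
      exact (mul_eq_zero.mp h1.symm).resolve_left hμ
    have h1 := hroot 0
    have h2 : (minpoly k x).natDegree = 1 :=
      natDegree_eq_of_degree_eq_some (degree_eq_one_of_irreducible_of_root (minpoly.irreducible hx) h1)
    omega
  -- the sum over the places above `v`
  have hsum : ∑ v' ∈ above K v, ∑ i : Fin q, (Real.log (sn v' (fun c => algebraMap k K (cz z c)))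
          - Real.log (nv v' (vl (fr (ptD a q) b (Sum.inl i)) z)))
      = finrank k K * (q * Real.log (sn v (cz z)) - q * Real.log (nv v μ) - Real.log (nv v Ng)
        + r * Real.log (nv v g.leadingCoeff)) := by
    have h1 : ∀ v' : Pl K, ∑ i : Fin q, (Real.log (sn v' (fun c => algebraMap k K (cz z c)))
          - Real.log (nv v' (vl (fr (ptD a q) b (Sum.inl i)) z)))
        = q * Real.log (sn v' (fun c => algebraMap k K (cz z c)))
          - q * Real.log (nv v' (algebraMap k K μ)) - Real.log (nv v' (algebraMap k K Ng))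
          + r * Real.log (nv v' (algebraMap k K g.leadingCoeff)) := by
      intro v'
      rw [Finset.sum_sub_distrib, hloc v', Finset.sum_const, Finset.card_univ, Fintype.card_fin, nsmul_eq_mul]
      ring
    simp_rw [h1]
    rw [Finset.sum_add_distrib, Finset.sum_sub_distrib, Finset.sum_sub_distrib, ← Finset.mul_sum,
      ← Finset.mul_sum, ← Finset.mul_sum, sum_log_nv, sum_log_nv, sum_log_nv,
      sum_log_sn (Nat.succ_pos r)]
    ring
  rw [hsum]
  -- a good node
  have hyb : ∀ c : Fin (r + 1), ev (cst (frm (fun c : Fin (r + 1) => (b c : k)) (r + 1) c)) (aff y) ≠ 0 := by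
    intro c
    rw [ev_frm, dif_pos c.2]
    exact gen_ne x (by omega) _
  have hnode : ∃ c : Fin (r + 1), ∀ w ∈ above k⟮x⟯ v,
      loc w (cst (frm (fun c : Fin (r + 1) => (b c : k)) (r + 1) c)) (aff y) ≤ C3 := by
    by_contra hcon
    push Not at hcon
    choose f hf1 hf2 using hcon
    have hinj : Function.Injective f := by
      intro c c' h
      by_contra hne
      have h1 := hC3 k⟮x⟯ hxr.le (f c) (aff y) (aff_ne_zero y) hyb c c' hne
      have h2 := hf2 c
      have h3 := hf2 c'
      rw [← h] at h3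
      exact absurd (lt_min h2 h3) (not_lt.mpr h1)
    have h1 : Fintype.card (Fin (r + 1)) ≤ (above k⟮x⟯ v).card := by
      rw [← Finset.card_univ]
      exact Finset.card_le_card_of_injOn f (fun c _ => hf1 c) (hinj.injOn)
    have h2 := card_above_le (L := k⟮x⟯) v
    rw [Fintype.card_fin] at h1
    rw [hxr] at h2
    omega
  obtain ⟨c, hc⟩ := hnode
  have hzc : cz z c = μ * ((-1) ^ r * Algebra.norm k (y - algebraMap k k⟮x⟯ (b c : k))) := by
    rw [hz c, norm_sub_gen x hx, hxr, ← mul_assoc ((-1 : k) ^ r), ← mul_pow]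
    norm_num
  have hyc : y - algebraMap k k⟮x⟯ (b c : k) ≠ 0 := gen_ne x (by omega) _
  have hNc : Algebra.norm k (y - algebraMap k k⟮x⟯ (b c : k)) ≠ 0 := by
    rw [Ne, Algebra.norm_eq_zero_iff]; exact hyc
  have hlogc : Real.log (nv v (cz z c)) = Real.log (nv v μ)
      + ∑ w ∈ above k⟮x⟯ v, Real.log (nv w (y - algebraMap k k⟮x⟯ (b c : k))) := by
    rw [hzc, nv_mul, nv_mul, nv_neg_one_pow, one_mul, nv_norm, Real.log_mul (nv_pos v hμ).ne'
      (Finset.prod_pos fun w _ => nv_pos w hyc).ne', Real.log_prod (fun w _ => (nv_pos w hyc).ne')]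
  have hzc0 : cz z c ≠ 0 := by
    rw [hzc]
    exact mul_ne_zero hμ (mul_ne_zero (pow_ne_zero _ (by norm_num)) hNc)
  have hsnlow : Real.log (nv v μ) + ∑ w ∈ above k⟮x⟯ v, Real.log (sn w (aff y)) - r * C3
      ≤ Real.log (sn v (cz z)) := by
    have h1 : Real.log (nv v (cz z c)) ≤ Real.log (sn v (cz z)) :=
      Real.log_le_log (nv_pos v hzc0) (le_sn v (cz z) c)
    have h2 : ∑ w ∈ above k⟮x⟯ v, (Real.log (sn w (aff y)) - C3)
        ≤ ∑ w ∈ above k⟮x⟯ v, Real.log (nv w (y - algebraMap k k⟮x⟯ (b c : k))) := by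
      refine Finset.sum_le_sum fun w hw => ?_
      have h3 := hc w hw
      unfold loc at h3
      rw [ev_frm, dif_pos c.2] at h3
      linarith
    rw [Finset.sum_sub_distrib, Finset.sum_const, nsmul_eq_mul] at h2
    have h3 : ((above k⟮x⟯ v).card : ℝ) * C3 ≤ r * C3 := by
      apply mul_le_mul_of_nonneg_right _ hC30
      have := card_above_le (L := k⟮x⟯) v
      rw [hxr] at this
      exact_mod_cast this
    linarith
  have hNgloc : Real.log (nv v Ng) = ∑ w ∈ above k⟮x⟯ v, Real.log (nv w (aeval y g)) := by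
    rw [hNg, nv_norm, Real.log_prod (fun w _ => (nv_pos w hgy).ne')]
  have hdl : ∑ w ∈ above k⟮x⟯ v, dloc g q w y = q * ∑ w ∈ above k⟮x⟯ v, Real.log (sn w (aff y)) - Real.log (nv v Ng) := by
    unfold dloc
    rw [Finset.sum_sub_distrib, hNgloc, ← Finset.mul_sum]
  rw [hdl]
  have h1 := hCl v ()
  have hq0 : (0 : ℝ) ≤ q := Nat.cast_nonneg _
  have hr0 : (0 : ℝ) ≤ r := Nat.cast_nonneg _
  have h2 := mul_le_mul_of_nonneg_left hsnlow hq0
  have h3 := mul_le_mul_of_nonneg_left h1 hr0
  have hK0 : (0 : ℝ) ≤ finrank k K := Nat.cast_nonneg _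
  rw [← mul_sub]
  apply mul_le_mul_of_nonneg_left _ hK0
  linarith

end

end Pool.Agent.Helper52.Vojta
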