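import Mathlib
import Pool.Agent.Helper52.Vojta.ZLocal
import Pool.Agent.Helper52.Vojta.LowerLocal

/-!
The vector of node values attached to a point, with its proximities to the points of the divisor.
-/

namespace Pool.Agent.Helper52.Vojta

open NumberField Finset Module Polynomial IntermediateField Pool.Agent.Helper64.Vojta
open scoped Matrix

universe u v

set_option linter.unusedSectionVars false
set_option linter.unusedVariables false

section

variable {k : Type u} [Field k] [NumberField k] {K : Type u} [Field K] [NumberField K] [Algebra k K] {r q : ℕ}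

/-- upper bound for the values of a form -/
theorem vl_upper {ι : Type*} [Fintype ι] {m : ℕ} (e : ι → Fin m → K) : ∃ C : ℝ, 0 ≤ C ∧
    ∀ (v : Pl K) (i : ι) (z : Fin m → 𝓞 k), vl (e i) z ≠ 0 →
      Real.log (nv v (vl (e i) z)) ≤ Real.log (sn v (fun c => algebraMap k K (cz z c))) + C := by
  obtain ⟨C, hC0, hC⟩ := const_upper (K := K) (fun s : ι × Fin m => e s.1 s.2)
  have hm1 : (1 : ℝ) ≤ ((m : ℝ) + 1) ^ 2 := by
    have : (0 : ℝ) ≤ m := Nat.cast_nonneg _
    nlinarith
  refine ⟨Real.log (((m : ℝ) + 1) ^ 2) + C, by have := Real.log_nonneg hm1; positivity, ?_⟩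
  intro v i z hz
  have hz0 : (fun c => algebraMap k K (cz z c)) ≠ 0 := by
    intro h
    apply hz
    unfold vl
    refine Finset.sum_eq_zero fun c _ => ?_
    have := congrFun h c
    simp only [Pi.zero_apply] at this
    change e i c * algebraMap k K (cz z c) = 0
    rw [this, mul_zero]
  have hsn := sn_pos v hz0
  have h1 : nv v (vl (e i) z) ≤ ((m : ℝ) + 1) ^ 2 * (Real.exp C * sn v (fun c => algebraMap k K (cz z c))) := by
    have := nv_sum_le v Finset.univ (fun c => e i c * algebraMap k K (cz z c))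
      (Real.exp C * sn v (fun c => algebraMap k K (cz z c))) (mul_nonneg (Real.exp_pos _).le hsn.le) (fun c _ => by
        rw [nv_mul]
        exact mul_le_mul (hC v (i, c)) (le_sn v (fun c => algebraMap k K (cz z c)) c) (nv_nonneg _ _) (Real.exp_pos _).le)
    rw [Finset.card_univ, Fintype.card_fin] at this
    exact this
  have h2 := Real.log_le_log (nv_pos v hz) h1
  rw [Real.log_mul (by positivity) (mul_pos (Real.exp_pos _) hsn).ne', Real.log_mul (Real.exp_pos _).ne' hsn.ne',
    Real.log_exp] at h2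
  linarith

/-- one of `r + 1` values at distinct points is large -/
theorem vl_large (pt : Fin q → Option K) {b : Fin (r + 1) → ℕ} (hb : Function.Injective b)
    (hopt : Function.Injective (opt pt b)) : ∃ C : ℝ, 0 ≤ C ∧
    ∀ (v : Pl K) (A : Fin (r + 1) → Fin q ⊕ Fin (r + 1)), Function.Injective A → ∀ z : Fin (r + 1) → 𝓞 k,
      (∀ a, vl (fr pt b (A a)) z ≠ 0) →
      ∃ a, Real.log (sn v (fun c => algebraMap k K (cz z c))) - C ≤ Real.log (nv v (vl (fr pt b (A a)) z)) := by
  classical
  obtain ⟨C, hC0, hC⟩ := const_upper (K := K)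
    (fun s : {A : Fin (r + 1) → Fin q ⊕ Fin (r + 1) // Function.Injective A} × Fin (r + 1) × Fin (r + 1) =>
      (Matrix.of fun a c => fr pt b (s.1.1 a) c)⁻¹ s.2.1 s.2.2)
  have hm1 : (1 : ℝ) ≤ (((r + 1 : ℕ) : ℝ) + 1) ^ 2 := by
    have : (0 : ℝ) ≤ ((r + 1 : ℕ) : ℝ) := Nat.cast_nonneg _
    nlinarith
  refine ⟨Real.log ((((r + 1 : ℕ) : ℝ) + 1) ^ 2) + C, by have := Real.log_nonneg hm1; positivity, ?_⟩
  intro v A hA z hz
  obtain ⟨a, ha⟩ := Finite.exists_max fun a => nv v (vl (fr pt b (A a)) z)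
  refine ⟨a, ?_⟩
  have hpos := nv_pos v (hz a)
  set E : Matrix (Fin (r + 1)) (Fin (r + 1)) K := Matrix.of fun a c => fr pt b (A a) c with hE
  have hdet : IsUnit E.det := (det_fr_ne pt hb hopt hA).isUnit
  have h1 : ∀ c, algebraMap k K (cz z c) = ∑ a, E⁻¹ c a * vl (fr pt b (A a)) z := by
    intro c
    have h2 : E *ᵥ (fun c => algebraMap k K (cz z c)) = fun a => vl (fr pt b (A a)) z := by
      funext a
      rfl
    have h3 : E⁻¹ *ᵥ (E *ᵥ (fun c => algebraMap k K (cz z c))) = fun c => algebraMap k K (cz z c) := by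
      rw [Matrix.mulVec_mulVec, Matrix.nonsing_inv_mul _ hdet, Matrix.one_mulVec]
    rw [h2] at h3
    exact (congrFun h3 c).symm
  have h2 : sn v (fun c => algebraMap k K (cz z c))
      ≤ (((r + 1 : ℕ) : ℝ) + 1) ^ 2 * (Real.exp C * nv v (vl (fr pt b (A a)) z)) := by
    refine sn_le v _ _ (by positivity) fun c => ?_
    rw [h1 c]
    have := nv_sum_le v Finset.univ (fun a => E⁻¹ c a * vl (fr pt b (A a)) z)
      (Real.exp C * nv v (vl (fr pt b (A a)) z)) (mul_nonneg (Real.exp_pos _).le hpos.le) (fun a' _ => by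
        rw [nv_mul]
        exact mul_le_mul (hC v (⟨A, hA⟩, c, a')) (ha a') (nv_nonneg _ _) (Real.exp_pos _).le)
    rw [Finset.card_univ, Fintype.card_fin] at this
    exact this
  have hz0 : (fun c => algebraMap k K (cz z c)) ≠ 0 := by
    intro h
    apply hz a
    unfold vl
    refine Finset.sum_eq_zero fun c _ => ?_
    have := congrFun h c
    simp only [Pi.zero_apply] at this
    change _ * algebraMap k K (cz z c) = 0
    rw [this, mul_zero]
  have h3 := Real.log_le_log (sn_pos v hz0) h2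
  rw [Real.log_mul (by positivity) (mul_pos (Real.exp_pos _) hpos).ne', Real.log_mul (Real.exp_pos _).ne' hpos.ne',
    Real.log_exp] at h3
  linarith

open scoped Classical in
/-- Liouville for the values of the forms -/
theorem vl_liouville {ι : Type*} [Finite ι] {m : ℕ} (e : ι → Fin m → K) : ∃ C : ℝ, 0 ≤ C ∧
    ∀ (S : Finset (Pl K)) (_ : ∀ v : InfinitePlace K, Sum.inl v ∈ S) (i : ι) (z : Fin m → 𝓞 k), vl (e i) z ≠ 0 →
      -(C * S.card) ≤ ∑ v ∈ S, Real.log (nv v (vl (e i) z)) := by
  obtain ⟨den, hden⟩ := IsLocalization.exist_integer_multiples_of_finite (nonZeroDivisors (𝓞 K))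
    (fun s : ι × Fin m => e s.1 s.2)
  have hden0 : (den : 𝓞 K) ≠ 0 := nonZeroDivisors.ne_zero den.2
  have hden0' : ((den : 𝓞 K) : K) ≠ 0 := by exact_mod_cast hden0
  obtain ⟨C, hC0, hC⟩ := const_upper (K := K) (fun _ : Unit => ((den : 𝓞 K) : K))
  refine ⟨C, hC0, ?_⟩
  intro S hS i z hz
  set D := vl (e i) z with hD
  have hint : IsIntegral ℤ (((den : 𝓞 K) : K) * D) := by
    rw [hD]
    unfold vl
    rw [Finset.mul_sum]
    apply IsIntegral.sum
    intro c' _
    rw [← mul_assoc]
    apply IsIntegral.mul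
    · obtain ⟨y, hy⟩ := hden (i, c')
      rw [Algebra.smul_def] at hy
      change algebraMap (𝓞 K) K y = ((den : 𝓞 K) : K) * e i c' at hy
      rw [← hy]
      exact y.isIntegral_coe
    · exact ((z c').isIntegral_coe).map ((Algebra.ofId k K).restrictScalars ℤ)
  let y : 𝓞 K := ⟨((den : 𝓞 K) : K) * D, hint⟩
  have hy : (y : K) = ((den : 𝓞 K) : K) * D := rfl
  have hy0 : y ≠ 0 := by
    intro h0
    have : (y : K) = 0 := by rw [h0]; rfl
    rw [hy] at this
    rcases mul_eq_zero.mp this with h | h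
    · exact hden0' h
    · exact hz h
  have h1 := sum_log_nonneg S hS hy0
  have h2 : ∀ v ∈ S, Real.log (nv v (y : K)) ≤ C + Real.log (nv v D) := by
    intro v _
    rw [hy, nv_mul, Real.log_mul (nv_pos v hden0').ne' (nv_pos v hz).ne']
    have h3 := Real.log_le_log (nv_pos v hden0') (hC v ())
    rw [Real.log_exp] at h3
    linarith
  have h3 := Finset.sum_le_sum h2
  rw [Finset.sum_add_distrib, Finset.sum_const, nsmul_eq_mul] at h3
  linarith

variable {Ω : Type u} [Field Ω] [Algebra k Ω] [Algebra.IsAlgebraic k Ω]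

open scoped Classical in
theorem zdata (g : k[X]) (hg : Squarefree g) (hsp : (g.map (algebraMap k K)).Splits) {q : ℕ}
    (hq1 : g.natDegree ≤ q) (hq2 : q ≤ g.natDegree + 1) {r : ℕ} (hr : 2 ≤ r) (s : ℕ) :
    ∃ (pt : Fin q → Option K) (b : Fin (r + 1) → ℕ), Function.Injective b ∧ Function.Injective (opt pt b) ∧
    ∃ C : ℝ, 0 ≤ C ∧ ∀ S : Finset (Pl k), S.card ≤ s →
    ∃ S2 : Finset (Pl K), (∀ v : InfinitePlace K, Sum.inl v ∈ S2) ∧ (S2.card : ℝ) ≤ C ∧
    ∀ U : ℝ, 0 ≤ U → ∃ bv : Pl K → ℝ, 0 ≤ ∑ v ∈ S2, bv v ∧ ∑ v ∈ S2, bv v ≤ finrank k K * U + C ∧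
    ∀ (x : Ω) (_ : NumberField k⟮x⟯), finrank k k⟮x⟯ = r → aeval (AdjoinSimple.gen k x) g ≠ 0 →
      Height.logHeight (aff (AdjoinSimple.gen k x)) ≤ U →
      ∃ z : Fin (r + 1) → 𝓞 k, good pt b z ∧ (∃ μ : k, μ ≠ 0 ∧ ∀ c, cz z c = μ * (minpoly k x).eval (b c : k)) ∧
      ∃ n : Fin q ⊕ Fin (r + 1) → Pl K → ℕ, (∀ i, ∀ v ∈ S2, (n i v : ℝ) ≤ finrank k K * U + C) ∧
        (∀ v ∈ S2, (Finset.univ.filter fun i => C < n i v).card ≤ r) ∧
        (∀ i, ∀ v ∈ S2, nv v (vl (fr pt b i) z) ≤ Real.exp (bv v - n i v)) ∧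
        finrank k K * (∑ w ∈ upW k⟮x⟯ S, dloc g q w (AdjoinSimple.gen k x)) - C
          ≤ ∑ v ∈ S2, ∑ i : Fin q, (n (Sum.inl i) v : ℝ) := by
  -- the points
  have hg0 : g ≠ 0 := hg.ne_zero
  have hgK : Squarefree (g.map (algebraMap k K)) := by
    have hsep : g.Separable := PerfectField.separable_iff_squarefree.mpr hg
    exact (hsep.map (f := algebraMap k K)).squarefree
  obtain ⟨a, ha, hga⟩ := exists_roots hgK hsp
  rw [leadingCoeff_map] at hga
  have hnd : (g.map (algebraMap k K)).natDegree = g.natDegree := natDegree_map _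
  generalize hn : (g.map (algebraMap k K)).natDegree = n0 at a ha hga
  rw [hnd] at hn
  set pt : Fin q → Option K := ptD a q with hpt
  have hptinj : Function.Injective pt := ptD_injective ha (by omega)
  obtain ⟨b, hb, hav⟩ := exists_nodes pt r
  have hopt : Function.Injective (opt pt b) := opt_injective hptinj hb hav
  refine ⟨pt, b, hb, hopt, ?_⟩
  have hbk : Function.Injective (fun c : Fin (r + 1) => (b c : k)) := fun c c' h => hb (by
    have h' : (b c : k) = (b c' : k) := h
    exact_mod_cast h')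
  -- constants
  obtain ⟨Cd, hCd0, hCd⟩ := exists_data.{u, u} k (frm (fun c : Fin (r + 1) => (b c : k)) (r + 1)) r
  obtain ⟨C2, hC20, hC2⟩ := loc_lower.{u, u} (frm (fun c : Fin (r + 1) => (b c : k)) (r + 1)) r
  obtain ⟨Ca, hCa0, hCa⟩ := vl_upper (k := k) (fr pt b)
  obtain ⟨Cb, hCb0, hCb⟩ := vl_large (k := k) pt hb hopt
  obtain ⟨Cl, hCl0, hCl⟩ := vl_liouville (k := k) (fr pt b)
  obtain ⟨Cs, hCs0, hCs⟩ := local_sum (Ω := Ω) g hg0 a hn hga (by omega) (by omega) hb (r := r) (q := q)
  obtain ⟨Cg, hCg0, hCg⟩ := poly_loc_lower.{u, u} g r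
  set nk := finrank ℚ k with hnk
  have hnk0 : (0 : ℝ) < nk := by exact_mod_cast (finrank_pos : 0 < finrank ℚ k)
  set nK := finrank ℚ K with hnK
  have hfd : FiniteDimensional k K := FiniteDimensional.right ℚ k K
  have hD0 : (0 : ℝ) < finrank k K := by exact_mod_cast (finrank_pos : 0 < finrank k K)
  have hkK : (nk : ℝ) * finrank k K = nK := by exact_mod_cast Module.finrank_mul_finrank ℚ k K
  set ci := Fintype.card (InfinitePlace k) with hci
  set sp := s + ci with hsp'
  set CS : ℝ := sp * finrank k K with hCS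
  have hCS0 : 0 ≤ CS := by positivity
  set CB : ℝ := nK * (Cd + r * C2) + CS * Ca with hCB
  have hCB0 : 0 ≤ CB := by positivity
  set CM : ℝ := sp * Cs + finrank k K * (sp * (r * Cg)) + q * CS with hCM
  have hCM0 : 0 ≤ CM := by positivity
  refine ⟨CS + CB + Cl * CS + (Ca + Cb) + CM, by positivity, ?_⟩
  intro S hSs
  set S' : Finset (Pl k) := S ∪ (Finset.univ : Finset (InfinitePlace k)).map Function.Embedding.inl with hS'
  have hS'inf : ∀ v : InfinitePlace k, Sum.inl v ∈ S' := by
    intro v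
    rw [hS', Finset.mem_union, Finset.mem_map]
    exact Or.inr ⟨v, Finset.mem_univ _, rfl⟩
  have hS'card : S'.card ≤ sp := by
    rw [hS']
    refine (Finset.card_union_le _ _).trans ?_
    rw [Finset.card_map, Finset.card_univ]
    omega
  have hSS' : S ⊆ S' := Finset.subset_union_left
  have hS2inf : ∀ v : InfinitePlace K, Sum.inl v ∈ upW K S' := by
    intro w
    unfold upW
    rw [Finset.mem_biUnion]
    refine ⟨.inl (w.comap (algebraMap k K)), hS'inf _, ?_⟩
    rw [mem_above]
    exact ⟨rfl⟩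
  have hS2card : ((upW K S').card : ℝ) ≤ CS := by
    have h1 := card_upW_le K S'
    have h2 : (upW K S').card ≤ sp * finrank k K := h1.trans (Nat.mul_le_mul_right _ hS'card)
    rw [hCS]
    exact_mod_cast h2
  refine ⟨upW K S', hS2inf, ?_, ?_⟩
  · have h1 : 0 ≤ CB + Cl * CS + (Ca + Cb) + CM := by positivity
    linarith
  intro U hU
  let bv : Pl K → ℝ := fun v => (match v with
    | .inl v => v.mult * (Cd + r * C2 + U / nk)
    | .inr _ => 0) + Ca
  have hmult : ∀ v : InfinitePlace K, (0 : ℝ) < v.mult := fun v => by exact_mod_cast v.mult_pos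
  have hmultk : ∀ v : InfinitePlace k, (1 : ℝ) ≤ v.mult := fun v => by exact_mod_cast v.mult_pos
  have hbv0 : ∀ v, 0 ≤ bv v := by
    rintro (v | v)
    · simp only [bv]; positivity
    · simp only [bv]; positivity
  have hbvsum : ∑ v ∈ upW K S', bv v ≤ finrank k K * U + CB := by
    have h0 : ∑ v ∈ upW K S', (match v with
        | .inl v => v.mult * (Cd + r * C2 + U / nk)
        | .inr _ => 0) = (nK : ℝ) * (Cd + r * C2 + U / nk) := by
      rw [← Finset.toLeft_disjSum_toRight (u := upW K S'), Finset.sum_disjSum]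
      have e1 : (upW K S').toLeft = Finset.univ := by
        ext w; simp [hS2inf w]
      rw [e1, Finset.sum_const_zero, add_zero, ← Finset.sum_mul]
      have h2 : ∑ v : InfinitePlace K, (v.mult : ℝ) = nK := by
        rw [hnK, ← InfinitePlace.sum_mult_eq]; push_cast; rfl
      rw [h2]
    simp only [bv]
    rw [Finset.sum_add_distrib, Finset.sum_const, nsmul_eq_mul, h0]
    have h3 : (nK : ℝ) * (Cd + r * C2 + U / nk) = nK * (Cd + r * C2) + finrank k K * U := by
      rw [mul_add, ← hkK]
      field_simp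
    have h4 := mul_le_mul_of_nonneg_right hS2card hCa0
    rw [h3, hCB]
    linarith
  refine ⟨bv, Finset.sum_nonneg fun v _ => hbv0 v, ?_, ?_⟩
  · have h1 : 0 ≤ CS + Cl * CS + (Ca + Cb) + CM := by positivity
    linarith
  intro x hnf hxr hgy hxU
  have hx : IsIntegral k x := Algebra.IsIntegral.isIntegral x
  set y := AdjoinSimple.gen k x with hy
  have hmon := minpoly.monic hx
  have hdeg : (minpoly k x).natDegree = r := by rw [← hxr, adjoin.finrank hx]
  have hyb : ∀ c : Fin (r + 1), ev (cst (frm (fun c : Fin (r + 1) => (b c : k)) (r + 1) c)) (aff y) ≠ 0 := by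
    intro c
    rw [ev_frm, dif_pos c.2]
    exact gen_ne x (by omega) _
  obtain ⟨l, z, hl, hz, hz0, hzinf, hzfin⟩ := hCd k⟮x⟯ hxr.le y U hxU hyb
  set μ : k := l * (-1) ^ r with hμ
  have hμ0 : μ ≠ 0 := mul_ne_zero hl (pow_ne_zero _ (by norm_num))
  have hzμ : ∀ c, cz z c = μ * (minpoly k x).eval (b c : k) := by
    intro c
    change (z c : k) = _
    rw [hz c, ev_frm, dif_pos c.2, norm_sub_gen x hx, hxr, hμ]
    ring
  -- nonvanishing
  have hnoroot : ∀ ρ : k, (minpoly k x).eval ρ ≠ 0 := by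
    intro ρ h1
    have h2 : (minpoly k x).natDegree = 1 :=
      natDegree_eq_of_degree_eq_some (degree_eq_one_of_irreducible_of_root (minpoly.irreducible hx) h1)
    omega
  have hFdeg : (C μ * minpoly k x).natDegree = r := by
    rw [natDegree_C_mul hμ0, hdeg]
  have hFval : ∀ c, (C μ * minpoly k x).eval (b c : k) = cz z c := by
    intro c
    rw [eval_mul, eval_C, hzμ c]
  have hvl : ∀ i, vl (fr pt b i) z = evp r (opt pt b i) ((C μ * minpoly k x).map (algebraMap k K)) := fun i =>
    vl_fr pt hb i z (C μ * minpoly k x) hFdeg.le hFval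
  have hvl0 : ∀ i, vl (fr pt b i) z ≠ 0 := by
    intro i
    rw [hvl i, Polynomial.map_mul, Polynomial.map_C]
    have hμK : algebraMap k K μ ≠ 0 := by simpa using hμ0
    rcases i with i | c
    · change evp r (ptD a q i) _ ≠ 0
      unfold ptD
      split_ifs with hi
      · rw [evp_some, eval_mul, eval_C]
        refine mul_ne_zero hμK ?_
        intro h0
        -- then the minimal polynomial divides `g`
        apply hgy
        have hroot_a : aeval (a ⟨i, hi⟩) g = 0 := by
          rw [← eval_map_algebraMap, hga, eval_mul, eval_prod]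
          rw [Finset.prod_eq_zero (Finset.mem_univ (⟨i, hi⟩ : Fin n0)) (by simp), mul_zero]
        have h1 : minpoly k x = minpoly k (a ⟨i, hi⟩) := by
          apply minpoly.eq_of_irreducible_of_monic (minpoly.irreducible hx) _ hmon
          rw [← eval_map_algebraMap]; exact h0
        have h2 : minpoly k x ∣ g := by rw [h1]; exact minpoly.dvd k _ hroot_a
        obtain ⟨c, hc⟩ := h2
        have h3 : aeval y (minpoly k x) = 0 := by
          have := minpoly.aeval k y
          rwa [hy, minpoly_gen] at this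
        rw [hc, map_mul, h3, zero_mul]
      · rw [evp_none, coeff_C_mul, coeff_map]
        have : (minpoly k x).coeff r = 1 := by rw [← hdeg]; exact hmon
        rw [this, map_one, mul_one]
        exact hμK
    · change evp r (some (b c : K)) _ ≠ 0
      rw [evp_some, eval_mul, eval_C]
      refine mul_ne_zero hμK ?_
      have e : (b c : K) = algebraMap k K (b c : k) := by simp
      rw [e, eval_map_apply]
      simpa using hnoroot (b c : k)
  have hzK0 : (fun c => algebraMap k K (cz z c)) ≠ 0 := by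
    intro h
    have := congrFun h 0
    simp only [Pi.zero_apply, map_eq_zero] at this
    exact hz0 0 (RingOfIntegers.coe_injective this)
  -- the upper bound for the sup norm
  have hsn : ∀ v : Pl K, Real.log (sn v (fun c => algebraMap k K (cz z c))) ≤ bv v - Ca := by
    rintro (v | v)
    · simp only [bv, add_sub_cancel_right]
      have hne : ∀ c, nv (.inl v : Pl K) (algebraMap k K (cz z c)) ≤ Real.exp (v.mult * (Cd + r * C2 + U / nk)) := by
        intro c
        set v0 : InfinitePlace k := v.comap (algebraMap k K) with hv0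
        have h1 : nv (.inl v : Pl K) (algebraMap k K (cz z c)) = (v0 (cz z c)) ^ v.mult := rfl
        have hzc0 : cz z c ≠ 0 := by
          intro h
          exact hz0 c (RingOfIntegers.coe_injective h)
        have hpos : 0 < v0 (cz z c) := InfinitePlace.pos_iff.mpr hzc0
        have h2 := hzinf c v0
        change Real.log (v0 (cz z c) ^ v0.mult) ≤ _ at h2
        rw [Real.log_pow] at h2
        have h3 : -(r * C2) ≤ ∑ w ∈ above k⟮x⟯ (.inl v0 : Pl k), loc w (cst (frm (fun c : Fin (r + 1) => (b c : k)) (r + 1) c)) (aff y) := by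
          have h4 := Finset.card_nsmul_le_sum (above k⟮x⟯ (.inl v0 : Pl k)) (fun w => loc w (cst (frm (fun c : Fin (r + 1) => (b c : k)) (r + 1) c)) (aff y))
            (-C2) (fun w _ => hC2 k⟮x⟯ hxr.le w (aff y) (aff_ne_zero y) c (hyb c))
          rw [nsmul_eq_mul] at h4
          have h5 : ((above k⟮x⟯ (.inl v0 : Pl k)).card : ℝ) ≤ r := by
            have := card_above_le (L := k⟮x⟯) (.inl v0 : Pl k)
            rw [hxr] at this
            exact_mod_cast this
          have h6 := mul_le_mul_of_nonneg_right h5 hC20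
          linarith
        have h4 : Real.log (v0 (cz z c)) ≤ Cd + r * C2 + U / nk := by
          have h5 : (v0.mult : ℝ) * Real.log (v0 (cz z c)) ≤ v0.mult * (Cd + r * C2 + U / nk) := by
            have h6 : (v0.mult : ℝ) / nk * U = v0.mult * (U / nk) := by ring
            have h7 := hmultk v0
            have h8 : Cd ≤ v0.mult * Cd := le_mul_of_one_le_left hCd0 h7
            have h9 : r * C2 ≤ v0.mult * (r * C2) := le_mul_of_one_le_left (by positivity) h7
            rw [h6] at h2
            linarith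
          exact le_of_mul_le_mul_left h5 (by linarith [hmultk v0])
        rw [h1, Real.exp_nat_mul]
        apply pow_le_pow_left₀ hpos.le
        rw [← Real.log_le_iff_le_exp hpos]
        exact h4
      rw [Real.log_le_iff_le_exp (sn_pos _ hzK0)]
      exact sn_le _ _ _ (Real.exp_pos _).le fun c => hne c
    · simp only [bv, zero_add, sub_self]
      apply Real.log_nonpos (sn_pos _ hzK0).le
      refine sn_le _ _ _ zero_le_one fun c => ?_
      exact nv_int_le_one v (algebraMap (𝓞 k) (𝓞 K) (z c))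
  -- the proximities
  let aa : Fin q ⊕ Fin (r + 1) → Pl K → ℝ := fun i v =>
    Real.log (sn v (fun c => algebraMap k K (cz z c))) - Real.log (nv v (vl (fr pt b i) z)) + Ca
  have haa0 : ∀ i v, 0 ≤ aa i v := by
    intro i v
    have := hCa v i z (hvl0 i)
    simp only [aa]
    linarith
  refine ⟨z, ⟨⟨C μ * minpoly k x, hFdeg, mul_ne_zero (by rw [Ne, C_eq_zero]; exact hμ0) (minpoly.ne_zero hx), hFval, ?_⟩,
    fun i => hvl0 _⟩, ⟨μ, hμ0, hzμ⟩, fun i v => ⌊aa i v⌋₊, ?_, ?_, ?_, ?_⟩
  · intro ρ
    rw [eval_mul, eval_C]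
    exact mul_ne_zero hμ0 (hnoroot ρ)
  · -- upper bound
    intro i v hv
    have h1 : (⌊aa i v⌋₊ : ℝ) ≤ aa i v := Nat.floor_le (haa0 i v)
    have h2 := hCl (upW K S') hS2inf i z (hvl0 i)
    have h3 : ∀ v', Real.log (nv v' (vl (fr pt b i) z)) ≤ bv v' := by
      intro v'
      have := hCa v' i z (hvl0 i)
      have := hsn v'
      linarith
    rw [← Finset.add_sum_erase _ _ hv] at h2
    have h4 := Finset.sum_le_sum fun v' (_ : v' ∈ (upW K S').erase v) => h3 v'
    have h5 : bv v + ∑ v' ∈ (upW K S').erase v, bv v' = ∑ v' ∈ upW K S', bv v' := Finset.add_sum_erase _ _ hv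
    have h6 := hsn v
    have h7 := mul_le_mul_of_nonneg_left hS2card hCl0
    have h8 : 0 ≤ CS + (Ca + Cb) + CM := by positivity
    simp only [aa] at h1
    linarith
  · -- at most `r` large ones
    intro v hv
    by_contra hcon
    push Not at hcon
    set T := Finset.univ.filter fun i => CS + CB + Cl * CS + (Ca + Cb) + CM < (⌊aa i v⌋₊ : ℝ) with hT
    obtain ⟨T', hT'1, hT'2⟩ := Finset.exists_subset_card_eq (s := T) (n := r + 1) (by omega)
    let E := (Finset.equivFinOfCardEq hT'2).symm
    obtain ⟨a', ha'⟩ := hCb v (fun j => (E j : Fin q ⊕ Fin (r + 1))) (fun j j' h => E.injective (Subtype.ext h)) z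
      (fun _ => hvl0 _)
    have h1 := hT'1 (E a').2
    rw [hT, Finset.mem_filter] at h1
    have h2 : (⌊aa (E a') v⌋₊ : ℝ) ≤ aa (E a') v := Nat.floor_le (haa0 _ v)
    have h3 : aa (E a') v ≤ Ca + Cb := by
      simp only [aa]
      linarith
    have h4 : 0 ≤ CS + CB + Cl * CS + CM := by positivity
    linarith [h1.2]
  · -- values
    intro i v hv
    have h1 : (⌊aa i v⌋₊ : ℝ) ≤ aa i v := Nat.floor_le (haa0 i v)
    rw [← Real.log_le_iff_le_exp (nv_pos v (hvl0 i))]
    have h2 := hsn v
    simp only [aa] at h1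
    linarith
  · -- total
    have h1 : ∑ v' ∈ upW K S', ∑ i : Fin q, (Real.log (sn v' (fun c => algebraMap k K (cz z c)))
          - Real.log (nv v' (vl (fr pt b (Sum.inl i)) z)))
        ≤ ∑ v' ∈ upW K S', ∑ i : Fin q, (⌊aa (Sum.inl i) v'⌋₊ : ℝ) + q * CS := by
      have h2 : ∀ v' ∈ upW K S', ∑ i : Fin q, (Real.log (sn v' (fun c => algebraMap k K (cz z c)))
          - Real.log (nv v' (vl (fr pt b (Sum.inl i)) z))) ≤ ∑ i : Fin q, (⌊aa (Sum.inl i) v'⌋₊ : ℝ) + q := by
        intro v' _
        have h3 : ∀ i ∈ (Finset.univ : Finset (Fin q)), Real.log (sn v' (fun c => algebraMap k K (cz z c)))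
          - Real.log (nv v' (vl (fr pt b (Sum.inl i)) z)) ≤ (⌊aa (Sum.inl i) v'⌋₊ : ℝ) + 1 := by
          intro i _
          have h4 := Nat.lt_floor_add_one (aa (Sum.inl i) v')
          simp only [aa] at h4 ⊢
          linarith
        refine (Finset.sum_le_sum h3).trans (le_of_eq ?_)
        rw [Finset.sum_add_distrib, Finset.sum_const, Finset.card_univ, Fintype.card_fin, nsmul_eq_mul, mul_one]
      refine (Finset.sum_le_sum h2).trans ?_
      rw [Finset.sum_add_distrib, Finset.sum_const, nsmul_eq_mul]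
      have h3 := mul_le_mul_of_nonneg_right hS2card (Nat.cast_nonneg (α := ℝ) q)
      linarith
    have h2 : ∑ v ∈ S', (finrank k K * (∑ w ∈ above k⟮x⟯ v, dloc g q w y) - Cs)
        ≤ ∑ v' ∈ upW K S', ∑ i : Fin q, (Real.log (sn v' (fun c => algebraMap k K (cz z c)))
          - Real.log (nv v' (vl (fr pt b (Sum.inl i)) z))) := by
      rw [sum_upW]
      exact Finset.sum_le_sum fun v _ => hCs v x hnf hxr hx hr hgy z μ hμ0 hzμ
    rw [Finset.sum_sub_distrib, Finset.sum_const, nsmul_eq_mul, ← Finset.mul_sum] at h2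
    -- the places outside `S`
    have hdlow : ∀ w : Pl k⟮x⟯, -Cg ≤ dloc g q w y := by
      intro w
      have h3 := hCg k⟮x⟯ hxr.le w y hgy
      unfold dloc
      have h4 : 0 ≤ Real.log (sn w (aff y)) := Real.log_nonneg (one_le_sn_aff w y)
      have h5 : (g.natDegree : ℝ) * Real.log (sn w (aff y)) ≤ q * Real.log (sn w (aff y)) :=
        mul_le_mul_of_nonneg_right (by exact_mod_cast hq1) h4
      linarith
    have h3 : ∑ v ∈ S, ∑ w ∈ above k⟮x⟯ v, dloc g q w y - sp * (r * Cg)
        ≤ ∑ v ∈ S', ∑ w ∈ above k⟮x⟯ v, dloc g q w y := by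
      rw [← Finset.sum_sdiff hSS']
      have h4 : ∀ v ∈ S' \ S, -(r * Cg) ≤ ∑ w ∈ above k⟮x⟯ v, dloc g q w y := by
        intro v _
        have h5 := Finset.card_nsmul_le_sum (above k⟮x⟯ v) (fun w => dloc g q w y) (-Cg) (fun w _ => hdlow w)
        rw [nsmul_eq_mul] at h5
        have h6 : ((above k⟮x⟯ v).card : ℝ) ≤ r := by
          have := card_above_le (L := k⟮x⟯) v
          rw [hxr] at this
          exact_mod_cast this
        have h7 := mul_le_mul_of_nonneg_right h6 hCg0
        linarith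
      have h5 := Finset.card_nsmul_le_sum _ _ _ h4
      rw [nsmul_eq_mul] at h5
      have h6 : ((S' \ S).card : ℝ) ≤ sp := by
        exact_mod_cast (Finset.card_le_card Finset.sdiff_subset).trans hS'card
      have h7 := mul_le_mul_of_nonneg_right h6 (show (0 : ℝ) ≤ r * Cg by positivity)
      linarith
    rw [sum_upW]
    have h4 : (S'.card : ℝ) * Cs ≤ sp * Cs := mul_le_mul_of_nonneg_right (by exact_mod_cast hS'card) hCs0
    have h5 := mul_le_mul_of_nonneg_left h3 hD0.le
    have h6 : 0 ≤ CS + CB + Cl * CS + (Ca + Cb) := by positivity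
    rw [mul_sub] at h5
    linarith

end

end Pool.Agent.Helper52.Vojta
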