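import Mathlib
import Pool.Agent.Helper52.Vojta.ZData

/-!
The volume count for arbitrary reduced divisors and arbitrary finite sets of places.
-/

namespace Pool.Agent.Helper52.Vojta

open NumberField Finset Module Polynomial IntermediateField Pool.Agent.Helper64.Vojta

universe u v

set_option linter.unusedSectionVars false
set_option linter.unusedVariables false

section

theorem poly_eq_of_prop {k : Type*} [Field k] [CharZero k] {r : ℕ} {b : Fin (r + 1) → ℕ} (hb : Function.Injective b)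
    {F F' : k[X]} (hF : F.Monic) (hF' : F'.Monic) (hd : F.natDegree = r) (hd' : F'.natDegree = r) {α β : k}
    (hα : α ≠ 0) (h : ∀ c, α * F.eval (b c : k) = β * F'.eval (b c : k)) : F = F' := by
  set G : k[X] := C α * F - C β * F' with hG
  have hGd : G.natDegree ≤ r := (natDegree_sub_le _ _).trans (max_le
    ((natDegree_C_mul_le _ _).trans hd.le) ((natDegree_C_mul_le _ _).trans hd'.le))
  have hG0 : G = 0 := by
    apply evp_eq_zero (A := fun c => some (b c : k)) _ hGd
    · intro c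
      rw [evp_some, hG, eval_sub, eval_mul, eval_mul, eval_C, eval_C, h c, sub_self]
    · intro c c' hcc
      have h1 : (b c : k) = (b c' : k) := Option.some_injective _ hcc
      exact hb (by exact_mod_cast h1)
  have h1 : G.coeff r = 0 := by rw [hG0, coeff_zero]
  have e1 : F.coeff r = 1 := by rw [← hd]; exact hF
  have e2 : F'.coeff r = 1 := by rw [← hd']; exact hF'
  rw [hG, coeff_sub, coeff_C_mul, coeff_C_mul, e1, e2, mul_one, mul_one] at h1
  have h2 : α = β := sub_eq_zero.mp h1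
  have h3 : C α * F = C α * F' := by
    have := sub_eq_zero.mp (hG ▸ hG0 : C α * F - C β * F' = 0)
    rw [this, h2]
  exact mul_left_cancel₀ (by rw [Ne, C_eq_zero]; exact hα) h3

variable {k : Type u} [Field k] [NumberField k] {Ω : Type u} [Field Ω] [Algebra k Ω] [Algebra.IsAlgebraic k Ω]

theorem card_same_minpoly {r : ℕ} (Q : Finset Ω) (hQ : ∀ x ∈ Q, ∀ x' ∈ Q, minpoly k x = minpoly k x')
    (hd : ∀ x ∈ Q, (minpoly k x).natDegree = r) : Q.card ≤ r := by
  classical
  rcases Q.eq_empty_or_nonempty with h | ⟨x0, hx0⟩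
  · rw [h]; simp
  have hint : IsIntegral k x0 := Algebra.IsIntegral.isIntegral x0
  have hsub : Q ⊆ ((minpoly k x0).map (algebraMap k Ω)).roots.toFinset := by
    intro x hx
    rw [Multiset.mem_toFinset, mem_roots (Polynomial.map_ne_zero (minpoly.ne_zero hint)), IsRoot.def,
      eval_map_algebraMap, ← hQ x hx x0 hx0]
    exact minpoly.aeval k x
  refine (Finset.card_le_card hsub).trans ((Multiset.toFinset_card_le _).trans ?_)
  refine (card_roots' _).trans ?_
  rw [natDegree_map, hd x0 hx0]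

open scoped Classical in
theorem vol_count_gen (g : k[X]) (hg : Squarefree g) {q : ℕ} (hq1 : g.natDegree ≤ q)
    (hq2 : q ≤ g.natDegree + 1) (hq0 : 0 < q) {r : ℕ} (hr : 2 ≤ r) (s : ℕ) :
    ∃ (C : ℝ) (m : ℕ), 0 ≤ C ∧ ∀ S : Finset (Pl k), S.card ≤ s → ∀ (U T : ℝ), 0 ≤ U → ∀ P : Finset Ω,
      (∀ x ∈ P, ∃ _ : NumberField k⟮x⟯, finrank k k⟮x⟯ = r ∧ aeval (AdjoinSimple.gen k x) g ≠ 0 ∧
        Height.logHeight (aff (AdjoinSimple.gen k x)) ≤ U ∧
        T ≤ ∑ w ∈ upW k⟮x⟯ S, dloc g q w (AdjoinSimple.gen k x)) →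
      (P.card : ℝ) ≤ C * (1 + U) ^ m * (1 + Real.exp ((r + 1) * U - T) + Real.exp (r * U - T / 2)
        + if 3 ≤ r then Real.exp ((r - 1) * U - T / q) else 0) := by
  let K : Type u := g.SplittingField
  have hKnf : NumberField K := NumberField.of_module_finite k K
  have hsp : (g.map (algebraMap k K)).Splits := SplittingField.splits g
  obtain ⟨pt, b, hb, hopt, Cz, hCz0, hCz⟩ := zdata (Ω := Ω) (K := K) g hg hsp hq1 hq2 hr s
  obtain ⟨Cc, hCc0, hCc⟩ := cell_count (k := k) (K := K) pt hb hopt (by omega : 1 ≤ r) hCz0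
  have hfd : FiniteDimensional k K := FiniteDimensional.right ℚ k K
  have hD1 : (1 : ℝ) ≤ finrank k K := by exact_mod_cast (finrank_pos : 0 < finrank k K)
  set D : ℝ := (finrank k K : ℝ) with hD
  have hD0 : 0 < D := by linarith
  set nι : ℕ := Fintype.card (Fin q ⊕ Fin (r + 1)) with hnι
  set c2 : ℕ := ⌊Cz⌋₊ with hc2
  set E0 : ℝ := Cc * (1 + Cz) + (r + 2) * Cz with hE0
  have hE00 : 0 ≤ E0 := by positivity
  have hq0' : (0 : ℝ) < q := by exact_mod_cast hq0
  have hq1' : (1 : ℝ) ≤ q := by exact_mod_cast hq0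
  have hr0 : (0 : ℝ) ≤ r := Nat.cast_nonneg _
  have hr2 : (2 : ℝ) ≤ r := by exact_mod_cast hr
  refine ⟨(D + Cz + 2) ^ (c2 * nι) * (r * Real.exp E0), c2 * nι, by positivity, ?_⟩
  intro S hS U T hU P hP
  obtain ⟨S2, hS2inf, hS2card, hS2⟩ := hCz S hS
  obtain ⟨bv, hbv0, hbv, hx⟩ := hS2 U hU
  have hdat : ∀ x ∈ P, ∃ (z : Fin (r + 1) → 𝓞 k) (μ : k) (n : Fin q ⊕ Fin (r + 1) → Pl K → ℕ), good pt b z ∧ μ ≠ 0 ∧
      (∀ c, cz z c = μ * (minpoly k x).eval (b c : k)) ∧ (∀ i, ∀ v ∈ S2, (n i v : ℝ) ≤ D * U + Cz) ∧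
        (∀ v ∈ S2, (Finset.univ.filter fun i => Cz < n i v).card ≤ r) ∧
        (∀ i, ∀ v ∈ S2, nv v (vl (fr pt b i) z) ≤ Real.exp (bv v - n i v)) ∧
        D * T - Cz ≤ ∑ v ∈ S2, ∑ i : Fin q, (n (Sum.inl i) v : ℝ) := by
    intro x hxP
    obtain ⟨hnf, h1, h2, h3, h4⟩ := hP x hxP
    obtain ⟨z, hz, ⟨μ, hμ, hzμ⟩, n, hn1, hn2, hn3, hn4⟩ := hx x hnf h1 h2 h3
    refine ⟨z, μ, n, hz, hμ, hzμ, hn1, hn2, hn3, le_trans ?_ hn4⟩
    have := mul_le_mul_of_nonneg_left h4 hD0.le
    linarith
  choose! z μ n hz hμ hzμ hn1 hn2 hn3 hn4 using hdat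
  have hxdeg : ∀ x ∈ P, (minpoly k x).natDegree = r ∧ (minpoly k x).Monic := by
    intro x hxP
    obtain ⟨hnf, h1, _⟩ := hP x hxP
    have hint : IsIntegral k x := Algebra.IsIntegral.isIntegral x
    exact ⟨by rw [← h1, adjoin.finrank hint], minpoly.monic hint⟩
  -- the cells
  set Mx : ℕ := ⌊D * U + Cz⌋₊ with hMx
  have hDU : 0 ≤ D * U + Cz := by positivity
  let cell : Ω → (Fin q ⊕ Fin (r + 1)) → S2 → ℕ := fun x i v => n x i v
  let Tg : Finset ((Fin q ⊕ Fin (r + 1)) → S2 → ℕ) :=
    Fintype.piFinset fun _ => Fintype.piFinset fun _ => Finset.range (Mx + 1)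
  have hmaps : ∀ x ∈ P, cell x ∈ Tg := by
    intro x hxP
    rw [Fintype.mem_piFinset]
    intro i
    rw [Fintype.mem_piFinset]
    intro v
    rw [Finset.mem_range]
    exact Nat.lt_succ_of_le (Nat.le_floor (hn1 x hxP i v v.2))
  have hTg : (Tg.card : ℝ) ≤ (D + Cz + 2) ^ (c2 * nι) * (1 + U) ^ (c2 * nι) := by
    have h1 : Tg.card = ((Mx + 1) ^ S2.card) ^ nι := by
      rw [Fintype.card_piFinset]
      simp only [Fintype.card_piFinset, Finset.card_range, Finset.prod_const, Finset.card_univ, Fintype.card_coe]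
      rfl
    rw [h1]
    push_cast
    have h2 : (Mx : ℝ) + 1 ≤ (D + Cz + 2) * (1 + U) := by
      have h3 : (Mx : ℝ) ≤ D * U + Cz := Nat.floor_le hDU
      nlinarith [mul_nonneg hCz0 hU, mul_nonneg hD0.le hU]
    have h3 : (1 : ℝ) ≤ (D + Cz + 2) * (1 + U) := by nlinarith [mul_nonneg hCz0 hU, mul_nonneg hD0.le hU]
    have h4 : S2.card ≤ c2 := Nat.le_floor hS2card
    rw [← pow_mul, ← mul_pow]
    calc ((Mx : ℝ) + 1) ^ (S2.card * nι) ≤ ((D + Cz + 2) * (1 + U)) ^ (S2.card * nι) :=
          pow_le_pow_left₀ (by positivity) h2 _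
      _ ≤ _ := pow_le_pow_right₀ h3 (Nat.mul_le_mul_right _ h4)
  set R : ℝ := 1 + Real.exp ((r + 1) * U - T) + Real.exp (r * U - T / 2)
        + if 3 ≤ r then Real.exp ((r - 1) * U - T / q) else 0 with hR
  have hif0 : 0 ≤ (if 3 ≤ r then Real.exp ((r - 1) * U - T / q) else 0 : ℝ) := by
    split_ifs
    · exact (Real.exp_pos _).le
    · exact le_rfl
  have hR1 : 1 ≤ R := by
    rw [hR]
    have h1 := Real.exp_pos ((r + 1) * U - T)
    have h2 := Real.exp_pos (r * U - T / 2)
    linarith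
  -- one cell
  have hcell : ∀ κ ∈ Tg, ((P.filter fun x => cell x = κ).card : ℝ) ≤ r * Real.exp E0 * R := by
    intro κ _
    set Q := P.filter fun x => cell x = κ with hQ
    rcases Q.eq_empty_or_nonempty with hQe | ⟨x0, hx0⟩
    · rw [hQe, Finset.card_empty, Nat.cast_zero]
      exact mul_nonneg (by positivity) (by linarith)
    have hx0' := Finset.mem_filter.mp hx0
    let nn : Fin q ⊕ Fin (r + 1) → Pl K → ℝ := fun i v => if v ∈ S2 then (n x0 i v : ℝ) else 0
    have hnn0 : ∀ i v, 0 ≤ nn i v := by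
      intro i v
      simp only [nn]
      split_ifs
      · exact Nat.cast_nonneg _
      · exact le_rfl
    have hnnS : ∀ i, ∀ v ∈ S2, nn i v = (n x0 i v : ℝ) := fun i v hv => by
      simp only [nn]; rw [if_pos hv]
    have hsame : ∀ x ∈ Q, ∀ i, ∀ v ∈ S2, n x i v = n x0 i v := by
      intro x hxQ i v hv
      have h1 := (Finset.mem_filter.mp hxQ).2
      have h2 := hx0'.2
      have h3 : cell x = cell x0 := h1.trans h2.symm
      exact congrFun (congrFun h3 i) ⟨v, hv⟩
    -- the index with the largest total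
    have hne : Nonempty (Fin q) := ⟨⟨0, hq0⟩⟩
    obtain ⟨i0, hi0⟩ := Finite.exists_max fun i : Fin q => ∑ v ∈ S2, nn (Sum.inl i) v
    set Nn : ℝ := ∑ v ∈ S2, ∑ i : Fin q, nn (Sum.inl i) v with hNn
    have hNi0 : Nn / q ≤ ∑ v ∈ S2, nn (Sum.inl i0) v := by
      rw [div_le_iff₀ hq0', hNn, Finset.sum_comm]
      have := Finset.sum_le_card_nsmul (Finset.univ : Finset (Fin q)) _ _ (fun i _ => hi0 i)
      rw [Finset.card_univ, Fintype.card_fin, nsmul_eq_mul] at this
      linarith
    have hNlow : D * T - Cz ≤ Nn := by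
      refine (hn4 x0 hx0'.1).trans (le_of_eq ?_)
      rw [hNn]
      refine Finset.sum_congr rfl fun v hv => Finset.sum_congr rfl fun i _ => ?_
      rw [hnnS _ v hv]
    let X : Finset (Fin (r + 1) → 𝓞 k) := Q.image z
    -- fibres of `z`
    have hfib : ∀ x ∈ Q, ∀ x' ∈ Q, ∀ (P0 : Fin (r + 1) → k) (t t' : k), cz (z x) = t • P0 → cz (z x') = t' • P0 →
        minpoly k x = minpoly k x' := by
      intro x hxQ x' hxQ' P0 t t' ht ht'
      have hxP := (Finset.mem_filter.mp hxQ).1
      have hxP' := (Finset.mem_filter.mp hxQ').1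
      have hne0 : ∀ y ∈ P, cz (z y) ≠ 0 := by
        intro y hy h0
        obtain ⟨⟨F, hF1, hF2, hF3, hF4⟩, _⟩ := hz y hy
        exact hF4 _ ((hF3 0).trans (by rw [h0, Pi.zero_apply]))
      have ht0' : t' ≠ 0 := by
        intro h0
        apply hne0 x' hxP'
        rw [ht', h0, zero_smul]
      refine poly_eq_of_prop hb (hxdeg x hxP).2 (hxdeg x' hxP').2 (hxdeg x hxP).1 (hxdeg x' hxP').1
        (α := t' * μ x) (β := t * μ x') (mul_ne_zero ht0' (hμ x hxP)) (fun c => ?_)
      have h1 := hzμ x hxP c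
      have h2 := hzμ x' hxP' c
      rw [ht, Pi.smul_apply, smul_eq_mul] at h1
      rw [ht', Pi.smul_apply, smul_eq_mul] at h2
      rw [mul_assoc, ← h1, mul_assoc, ← h2]
      ring
    have hQX : Q.card ≤ r * X.card := by
      refine Finset.card_le_mul_card_image (f := z) Q r ?_
      intro y hy
      apply card_same_minpoly (k := k)
      · intro x hx' x' hx''
        rw [Finset.mem_filter] at hx' hx''
        exact hfib x hx'.1 x' hx''.1 (cz y) 1 1 (by rw [hx'.2, one_smul]) (by rw [hx''.2, one_smul])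
      · intro x hx'
        rw [Finset.mem_filter] at hx'
        exact (hxdeg x (Finset.mem_filter.mp hx'.1).1).1
    have hQXr : (Q.card : ℝ) ≤ r * X.card := by exact_mod_cast hQX
    -- exponents
    have hexp : ∀ (c e0 : ℝ) (f : ℝ), 0 ≤ c → c ≤ r + 1 → 0 ≤ e0 → e0 ≤ 1 → f ≤ c * (∑ v ∈ S2, bv v) - e0 * Nn →
        Real.exp (Cc * (1 + S2.card) + f / D) ≤ Real.exp E0 * Real.exp (c * U - e0 * T) := by
      intro c e0 f hc0 hc1 he0 he1 hf
      rw [← Real.exp_add]
      apply Real.exp_le_exp.mpr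
      have h1 : Cc * (1 + S2.card) ≤ Cc * (1 + Cz) := mul_le_mul_of_nonneg_left (by linarith) hCc0
      have h2 : c * (∑ v ∈ S2, bv v) ≤ c * (D * U + Cz) := mul_le_mul_of_nonneg_left hbv hc0
      have h3 : e0 * (D * T - Cz) ≤ e0 * Nn := mul_le_mul_of_nonneg_left hNlow he0
      have h4 : f ≤ D * (c * U - e0 * T) + (c + e0) * Cz := by
        calc f ≤ c * (D * U + Cz) - e0 * (D * T - Cz) := by linarith
          _ = _ := by ring
      have h5 : f / D ≤ (c * U - e0 * T) + (c + e0) * Cz := by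
        rw [div_le_iff₀ hD0]
        have h6 : (c + e0) * Cz ≤ (c + e0) * Cz * D := le_mul_of_one_le_right (by positivity) hD1
        linarith
      have h6 : (c + e0) * Cz ≤ (r + 2) * Cz := mul_le_mul_of_nonneg_right (by linarith) hCz0
      rw [hE0]
      linarith
    have hE1 : 1 ≤ Real.exp E0 := Real.one_le_exp hE00
    rcases hCc S2 hS2inf bv nn hnn0 (by
        intro v hv
        have h1 := hn2 x0 hx0'.1 v hv
        refine le_trans (le_of_eq ?_) h1
        congr 1
        apply Finset.filter_congr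
        intro i _
        rw [hnnS i v hv]) hbv0 X (by
        intro y hy i v hv
        obtain ⟨x, hxQ, rfl⟩ := Finset.mem_image.mp hy
        have h1 := hn3 x (Finset.mem_filter.mp hxQ).1 i v hv
        rw [hsame x hxQ i v hv] at h1
        rw [hnnS i v hv]
        exact h1) (by
        intro y hy
        obtain ⟨x, hxQ, rfl⟩ := Finset.mem_image.mp hy
        exact hz x (Finset.mem_filter.mp hxQ).1) i0 with h | h | h | ⟨h3, h⟩
    · -- all proportional
      obtain ⟨P0, hP0⟩ := h
      have h1 : Q.card ≤ r := by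
        apply card_same_minpoly (k := k)
        · intro x hx' x' hx''
          obtain ⟨t, ht⟩ := hP0 (z x) (Finset.mem_image_of_mem _ hx')
          obtain ⟨t', ht'⟩ := hP0 (z x') (Finset.mem_image_of_mem _ hx'')
          exact hfib x hx' x' hx'' P0 t t' ht ht'
        · intro x hx'
          exact (hxdeg x (Finset.mem_filter.mp hx').1).1
      have h2 : (Q.card : ℝ) ≤ r := by exact_mod_cast h1
      calc (Q.card : ℝ) ≤ r * 1 * 1 := by linarith
        _ ≤ r * Real.exp E0 * R := mul_le_mul (mul_le_mul_of_nonneg_left hE1 hr0) hR1 zero_le_one (by positivity)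
    · have h1 := h.trans (hexp (r + 1) 1 _ (by linarith) le_rfl zero_le_one le_rfl (by rw [one_mul]))
      rw [one_mul] at h1
      calc (Q.card : ℝ) ≤ r * X.card := hQXr
        _ ≤ r * (Real.exp E0 * Real.exp ((r + 1) * U - T)) := mul_le_mul_of_nonneg_left h1 hr0
        _ = r * Real.exp E0 * Real.exp ((r + 1) * U - T) := by ring
        _ ≤ _ := by
            apply mul_le_mul_of_nonneg_left _ (by positivity)
            rw [hR]
            have := Real.exp_pos (r * U - T / 2)
            linarith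
    · have h1 := h.trans (hexp r (1 / 2) _ hr0 (by linarith) (by norm_num) (by norm_num) (by
        rw [one_div, inv_mul_eq_div]))
      have h2 : (1 / 2 : ℝ) * T = T / 2 := by ring
      rw [h2] at h1
      calc (Q.card : ℝ) ≤ r * X.card := hQXr
        _ ≤ r * (Real.exp E0 * Real.exp (r * U - T / 2)) := mul_le_mul_of_nonneg_left h1 hr0
        _ = r * Real.exp E0 * Real.exp (r * U - T / 2) := by ring
        _ ≤ _ := by
            apply mul_le_mul_of_nonneg_left _ (by positivity)
            rw [hR]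
            have := Real.exp_pos ((r + 1) * U - T)
            linarith
    · have h1 := h.trans (hexp (r - 1) (1 / q) _ (by linarith) (by linarith) (by positivity)
        (by rw [div_le_one hq0']; exact hq1') (by
          have : (1 : ℝ) / q * Nn = Nn / q := by ring
          rw [this]
          linarith))
      have h2 : (1 / q : ℝ) * T = T / q := by ring
      rw [h2] at h1
      calc (Q.card : ℝ) ≤ r * X.card := hQXr
        _ ≤ r * (Real.exp E0 * Real.exp ((r - 1) * U - T / q)) := mul_le_mul_of_nonneg_left h1 hr0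
        _ = r * Real.exp E0 * Real.exp ((r - 1) * U - T / q) := by ring
        _ ≤ _ := by
            apply mul_le_mul_of_nonneg_left _ (by positivity)
            rw [hR, if_pos h3]
            have := Real.exp_pos ((r + 1) * U - T)
            have := Real.exp_pos (r * U - T / 2)
            linarith
  have h1 : P.card = ∑ κ ∈ Tg, (P.filter fun x => cell x = κ).card :=
    Finset.card_eq_sum_card_fiberwise hmaps
  have h2 : (P.card : ℝ) ≤ Tg.card * (r * Real.exp E0 * R) := by
    rw [h1]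
    push_cast
    refine (Finset.sum_le_sum hcell).trans (le_of_eq ?_)
    rw [Finset.sum_const, nsmul_eq_mul]
  refine h2.trans ?_
  calc (Tg.card : ℝ) * (r * Real.exp E0 * R)
      ≤ ((D + Cz + 2) ^ (c2 * nι) * (1 + U) ^ (c2 * nι)) * (r * Real.exp E0 * R) :=
        mul_le_mul_of_nonneg_right hTg (mul_nonneg (by positivity) (by linarith))
    _ = _ := by ring

end

end Pool.Agent.Helper52.Vojta
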