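import Mathlib
import Pool.Agent.Helper52.Vojta.VolGen

/-!
The exceptions to Vojta's inequality for arbitrary reduced divisors on the projective line.
-/

namespace Pool.Agent.Helper52.Vojta

open NumberField Finset Module Polynomial IntermediateField Pool.Agent.Helper64.Vojta

universe u

section

variable {k : Type u} [Field k] [NumberField k] {Ω : Type u} [Field Ω] [Algebra k Ω] [Algebra.IsAlgebraic k Ω]

open scoped Classical in
theorem exc_large_disc_gen (g : k[X]) (hg : Squarefree g) {q : ℕ} (hq1 : g.natDegree ≤ q)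
    (hq2 : q ≤ g.natDegree + 1) (hq0 : 0 < q) {r : ℕ} (hr : 2 ≤ r) (s : ℕ) {ε : ℝ} (hε : 0 < ε) (c : ℝ) :
    ∃ (C : ℝ) (m : ℕ), 0 ≤ C ∧ ∀ S : Finset (Pl k), S.card ≤ s → ∀ (U D : ℝ), 0 ≤ U → ∀ P : Finset Ω,
      (∀ x ∈ P, ∃ _ : NumberField k⟮x⟯, Exc g q r S ε c k⟮x⟯ (AdjoinSimple.gen k x) ∧
        U - 1 ≤ Height.logHeight (aff (AdjoinSimple.gen k x)) ∧
        Height.logHeight (aff (AdjoinSimple.gen k x)) ≤ U ∧ D ≤ Real.log |(discr k⟮x⟯ : ℝ)|) →
      (P.card : ℝ) ≤ C * (1 + U) ^ m * (1 + Real.exp ((r + 1) * U - ((2 + ε) * U + D))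
        + Real.exp (r * U - ((2 + ε) * U + D) / 2)
        + if 3 ≤ r then Real.exp ((r - 1) * U - ((2 + ε) * U + D) / q) else 0) := by
  obtain ⟨Cv, m, hCv0, hCv⟩ := vol_count_gen (k := k) (Ω := Ω) g hg hq1 hq2 hq0 hr s
  have hq0' : (0 : ℝ) < q := by exact_mod_cast hq0
  have hq1' : (1 : ℝ) ≤ q := by exact_mod_cast hq0
  have hdk : 0 ≤ Real.log |(discr k : ℝ)| := by
    apply Real.log_nonneg
    have h1 : discr k ≠ 0 := discr_ne_zero k
    have h2 : (1 : ℤ) ≤ |discr k| := Int.one_le_abs h1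
    exact_mod_cast h2
  set C5 : ℝ := (2 + ε) + r * Real.log |(discr k : ℝ)| + r * |c| with hC5
  have hC50 : 0 ≤ C5 := by positivity
  refine ⟨Cv * Real.exp C5, m, by positivity, ?_⟩
  intro S hSs U D hU P hP
  have h1 := hCv S hSs U ((2 + ε) * U + D - C5) hU P (by
    intro x hx
    obtain ⟨hnf, hexc, hU1, hU2, hD⟩ := hP x hx
    refine ⟨hnf, hexc.1, hexc.2.1, hU2, ?_⟩
    have h2 := (hexc.ineq (by omega)).2
    have h4 : (2 + ε) * (U - 1) ≤ (2 + ε) * Height.logHeight (aff (AdjoinSimple.gen k x)) :=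
      mul_le_mul_of_nonneg_left hU1 (by linarith)
    rw [hC5]
    linarith)
  refine h1.trans ?_
  have hE1 : 1 ≤ Real.exp C5 := Real.one_le_exp hC50
  have e1 : Real.exp ((r + 1) * U - ((2 + ε) * U + D - C5))
      = Real.exp C5 * Real.exp ((r + 1) * U - ((2 + ε) * U + D)) := by
    rw [← Real.exp_add]; congr 1; ring
  have e2 : Real.exp (r * U - ((2 + ε) * U + D - C5) / 2)
      ≤ Real.exp C5 * Real.exp (r * U - ((2 + ε) * U + D) / 2) := by
    rw [← Real.exp_add]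
    apply Real.exp_le_exp.mpr
    linarith
  have e3 : (if 3 ≤ r then Real.exp ((r - 1) * U - ((2 + ε) * U + D - C5) / q) else 0 : ℝ)
      ≤ Real.exp C5 * (if 3 ≤ r then Real.exp ((r - 1) * U - ((2 + ε) * U + D) / q) else 0) := by
    split_ifs
    · rw [← Real.exp_add]
      apply Real.exp_le_exp.mpr
      have h3 : C5 / q ≤ C5 := div_le_self hC50 hq1'
      have h4 : ((2 + ε) * U + D - C5) / q = ((2 + ε) * U + D) / q - C5 / q := by ring
      rw [h4]
      linarith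
    · simp
  rw [e1]
  calc Cv * (1 + U) ^ m * (1 + Real.exp C5 * Real.exp ((r + 1) * U - ((2 + ε) * U + D))
        + Real.exp (r * U - ((2 + ε) * U + D - C5) / 2)
        + if 3 ≤ r then Real.exp ((r - 1) * U - ((2 + ε) * U + D - C5) / q) else 0)
      ≤ Cv * (1 + U) ^ m * (Real.exp C5 * 1 + Real.exp C5 * Real.exp ((r + 1) * U - ((2 + ε) * U + D))
        + Real.exp C5 * Real.exp (r * U - ((2 + ε) * U + D) / 2)
        + Real.exp C5 * (if 3 ≤ r then Real.exp ((r - 1) * U - ((2 + ε) * U + D) / q) else 0)) := by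
        apply mul_le_mul_of_nonneg_left _ (by positivity)
        linarith
    _ = _ := by ring

open scoped Classical in
/-- The exceptions to Vojta's inequality for an arbitrary reduced divisor. -/
theorem exc_gen_count [IsAlgClosed Ω] (g : k[X]) (hg : Squarefree g) {q : ℕ} (hq1 : g.natDegree ≤ q)
    (hq2 : q ≤ g.natDegree + 1) {r : ℕ} (hr : 2 ≤ r) (s : ℕ)
    {ε : ℝ} (hε : 0 < ε) (hε1 : ε < 1) (hεq : ε < q - 2) (c : ℝ) {κ E : ℝ} (hκ : 0 < κ)
    (hE1 : (r - 1) - (ε + κ) / 2 ≤ E) (hE2 : (r + 2) * κ / 4 ≤ E)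
    (hE3 : 3 ≤ r → (r - 1) - (2 + ε + κ) / q ≤ E) :
    ∃ (C : ℝ) (m : ℕ), 0 ≤ C ∧ ∀ S : Finset (Pl k), S.card ≤ s → ∀ V : ℝ, 0 ≤ V →
      (excSet Ω g q r S ε c V).Finite ∧
      ((excSet Ω g q r S ε c V).ncard : ℝ) ≤ C * (1 + V) ^ m * Real.exp (E * V) := by
  have hq0' : (0 : ℝ) < q := by linarith
  have hq0 : 0 < q := by exact_mod_cast hq0'
  obtain ⟨U0, B, hB⟩ := exc_window_fields (Ω := Ω) g hg hq1 hq2 hr s hε c
  obtain ⟨Cd, m, hCd0, hCd⟩ := exc_large_disc_gen (Ω := Ω) g hg hq1 hq2 hq0 hr s hε c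
  obtain ⟨C2, hC20, hC2⟩ := boundedExt_card.{u} r (by omega) (finrank ℚ k)
  have hr2 : (2 : ℝ) ≤ r := by exact_mod_cast hr
  have hr0 : (0 : ℝ) ≤ r := by linarith
  have hE0 : 0 < E := lt_of_lt_of_le (by positivity) hE2
  have hkap : κ * kap r ≤ E := by
    unfold kap
    rw [if_neg (by omega)]
    linarith
  obtain ⟨j0, hj0⟩ := exists_nat_ge (max U0 (4 / ε))
  have hj0U : U0 ≤ j0 := (le_max_left _ _).trans hj0
  have hj0ε : 4 / ε ≤ j0 := (le_max_right _ _).trans hj0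
  obtain ⟨G, hG, hG'⟩ := excSet_finite (Ω := Ω) g hg hq1 hq2 hr s hε hεq c j0
  refine ⟨G.ncard + B * C2 + Cd * 2 ^ m * (4 * Real.exp r), m + 1, by positivity, ?_⟩
  intro S hSs V hV
  have hfin : (excSet Ω g q r S ε c V).Finite := by
    obtain ⟨G1, hG1, hG1'⟩ := excSet_finite (Ω := Ω) g hg hq1 hq2 hr s hε hεq c V
    exact hG1.subset (hG1' S hSs)
  refine ⟨hfin, ?_⟩
  set P0 := hfin.toFinset with hP0
  set J1 : ℕ := ⌈V⌉₊ with hJ1
  have hJ1V : (J1 : ℝ) < V + 1 := Nat.ceil_lt_add_one hV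
  set Y : ℝ := Real.exp (κ * V) with hY
  have hY1 : 1 ≤ Y := Real.one_le_exp (by positivity)
  obtain ⟨_, hbc⟩ := hC2 k Ω rfl Y hY1
  have hYk : Y ^ kap r ≤ Real.exp (E * V) := by
    rw [hY, ← Real.exp_mul]
    apply Real.exp_le_exp.mpr
    calc κ * V * kap r = (κ * kap r) * V := by ring
      _ ≤ E * V := mul_le_mul_of_nonneg_right hkap hV
  have hbc' : ((boundedExt k Ω r Y).ncard : ℝ) ≤ C2 * Real.exp (E * V) :=
    hbc.trans (mul_le_mul_of_nonneg_left hYk hC20)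
  let A : ℕ → Finset Ω := fun j => P0.filter fun x => ∃ _ : NumberField k⟮x⟯,
    (j : ℝ) - 1 ≤ Height.logHeight (aff (AdjoinSimple.gen k x)) ∧
    Height.logHeight (aff (AdjoinSimple.gen k x)) ≤ j ∧ |(discr k⟮x⟯ : ℝ)| ≤ Y
  let A' : ℕ → Finset Ω := fun j => P0.filter fun x => ∃ _ : NumberField k⟮x⟯,
    (j : ℝ) - 1 ≤ Height.logHeight (aff (AdjoinSimple.gen k x)) ∧
    Height.logHeight (aff (AdjoinSimple.gen k x)) ≤ j ∧ Y < |(discr k⟮x⟯ : ℝ)|
  have hcover : P0 ⊆ hG.toFinset ∪ (Finset.Ioc j0 J1).biUnion (fun j => A j ∪ A' j) := by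
    intro x hx
    rw [hP0, Set.Finite.mem_toFinset] at hx
    obtain ⟨hnf, hexc, hV'⟩ := hx
    set h := Height.logHeight (aff (AdjoinSimple.gen k x)) with hh
    rcases le_or_gt h j0 with h1 | h1
    · rw [Finset.mem_union, Set.Finite.mem_toFinset]
      left
      exact hG' S hSs ⟨hnf, hexc, h1⟩
    · rw [Finset.mem_union, Finset.mem_biUnion]
      right
      have hh0 : 0 ≤ h := (Nat.cast_nonneg j0).trans h1.le
      refine ⟨⌈h⌉₊, ?_, ?_⟩
      · rw [Finset.mem_Ioc]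
        constructor
        · exact Nat.lt_ceil.mpr h1
        · exact Nat.ceil_mono hV'
      · have h2 : (⌈h⌉₊ : ℝ) - 1 ≤ h := by have := Nat.ceil_lt_add_one hh0; linarith
        have h3 : h ≤ ⌈h⌉₊ := Nat.le_ceil _
        have hxP0 : x ∈ P0 := by
          rw [hP0, Set.Finite.mem_toFinset]; exact ⟨hnf, hexc, hV'⟩
        rw [Finset.mem_union, Finset.mem_filter, Finset.mem_filter]
        rcases le_or_gt |(discr k⟮x⟯ : ℝ)| Y with h4 | h4
        · exact Or.inl ⟨hxP0, hnf, h2, h3, h4⟩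
        · exact Or.inr ⟨hxP0, hnf, h2, h3, h4⟩
  have hexcP0 : ∀ x ∈ P0, ∃ _ : NumberField k⟮x⟯, Exc g q r S ε c k⟮x⟯ (AdjoinSimple.gen k x) := by
    intro x hx
    rw [hP0, Set.Finite.mem_toFinset] at hx
    obtain ⟨hnf, hexc, _⟩ := hx
    exact ⟨hnf, hexc⟩
  have hAcard : ∀ j ∈ Finset.Ioc j0 J1, ((A j).card : ℝ) ≤ B * C2 * Real.exp (E * V) := by
    intro j hj
    rw [Finset.mem_Ioc] at hj
    have hj1 : (j0 : ℝ) + 1 ≤ j := by exact_mod_cast hj.1
    have h1 := hB S hSs ((j : ℝ) - 1) Y (by linarith) hY1 (A j) (by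
      intro x hx
      rw [Finset.mem_filter] at hx
      obtain ⟨hxP0, hnf, h2, h3, h4⟩ := hx
      obtain ⟨_, hexc⟩ := hexcP0 x hxP0
      refine ⟨hnf, hexc, h2, h3.trans ?_, h4⟩
      have h5 : 4 / ε ≤ (j : ℝ) - 1 := by linarith
      rw [div_le_iff₀ hε] at h5
      nlinarith)
    calc ((A j).card : ℝ) ≤ ((B * (boundedExt k Ω r Y).ncard : ℕ) : ℝ) := by exact_mod_cast h1
      _ = B * ((boundedExt k Ω r Y).ncard : ℝ) := by push_cast; ring
      _ ≤ B * (C2 * Real.exp (E * V)) := mul_le_mul_of_nonneg_left hbc' (Nat.cast_nonneg _)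
      _ = _ := by ring
  have hA'card : ∀ j ∈ Finset.Ioc j0 J1, ((A' j).card : ℝ) ≤
      Cd * 2 ^ m * (4 * Real.exp r) * (1 + V) ^ m * Real.exp (E * V) := by
    intro j hj
    rw [Finset.mem_Ioc] at hj
    have hjJ : (j : ℝ) ≤ V + 1 := by
      have : (j : ℝ) ≤ J1 := by exact_mod_cast hj.2
      linarith
    have hj0' : (0 : ℝ) ≤ j := Nat.cast_nonneg _
    have h1 := hCd S hSs (j : ℝ) (κ * V) hj0' (A' j) (by
      intro x hx
      rw [Finset.mem_filter] at hx
      obtain ⟨hxP0, hnf, h2, h3, h4⟩ := hx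
      obtain ⟨_, hexc⟩ := hexcP0 x hxP0
      refine ⟨hnf, hexc, h2, h3, ?_⟩
      rw [Real.le_log_iff_exp_le ((Real.exp_pos _).trans h4)]
      exact h4.le)
    refine h1.trans ?_
    have h2 : (1 + (j : ℝ)) ^ m ≤ 2 ^ m * (1 + V) ^ m := by
      rw [← mul_pow]
      apply pow_le_pow_left₀ (by positivity)
      linarith
    have hEV : 0 ≤ E * V := by positivity
    have hb1 : (1 : ℝ) ≤ Real.exp (E * V + r) := Real.one_le_exp (by linarith)
    have hb2 : Real.exp ((r + 1) * (j : ℝ) - ((2 + ε) * j + κ * V)) ≤ Real.exp (E * V + r) := by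
      apply Real.exp_le_exp.mpr
      have h4 : (0 : ℝ) ≤ r - 1 - ε := by linarith
      have h5 := mul_le_mul_of_nonneg_left hjJ h4
      have h6 : ((r : ℝ) - 1 - (ε + κ) / 2) * V ≤ E * V := mul_le_mul_of_nonneg_right hE1 hV
      have h7 : 0 ≤ (ε + κ) / 2 * V := by positivity
      nlinarith
    have hb3 : Real.exp (r * (j : ℝ) - ((2 + ε) * j + κ * V) / 2) ≤ Real.exp (E * V + r) := by
      apply Real.exp_le_exp.mpr
      have h4 : (0 : ℝ) ≤ r - 1 - ε / 2 := by linarith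
      have h5 := mul_le_mul_of_nonneg_left hjJ h4
      have h6 : ((r : ℝ) - 1 - (ε + κ) / 2) * V ≤ E * V := mul_le_mul_of_nonneg_right hE1 hV
      nlinarith
    have hb4 : (if 3 ≤ r then Real.exp ((r - 1) * (j : ℝ) - ((2 + ε) * j + κ * V) / q) else 0 : ℝ)
        ≤ Real.exp (E * V + r) := by
      split_ifs with h3r
      · apply Real.exp_le_exp.mpr
        have h3 : (2 + ε) / q ≤ 1 := by rw [div_le_one hq0']; linarith
        have h4 : (0 : ℝ) ≤ r - 1 - (2 + ε) / q := by linarith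
        have h5 := mul_le_mul_of_nonneg_left hjJ h4
        have h6 : ((r : ℝ) - 1 - (2 + ε + κ) / q) * V ≤ E * V := mul_le_mul_of_nonneg_right (hE3 h3r) hV
        have h7 : ((2 + ε) * (j : ℝ) + κ * V) / q = (2 + ε) / q * j + κ / q * V := by ring
        have h8 : ((r : ℝ) - 1 - (2 + ε + κ) / q) * V = (r - 1 - (2 + ε) / q) * V - κ / q * V := by ring
        have h9 : 0 ≤ (2 + ε) / (q : ℝ) := by positivity
        rw [h7]
        rw [h8] at h6
        linarith
      · exact (Real.exp_pos _).le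
    calc Cd * (1 + (j : ℝ)) ^ m * (1 + Real.exp ((r + 1) * (j : ℝ) - ((2 + ε) * j + κ * V))
          + Real.exp (r * (j : ℝ) - ((2 + ε) * j + κ * V) / 2)
          + if 3 ≤ r then Real.exp ((r - 1) * (j : ℝ) - ((2 + ε) * j + κ * V) / q) else 0)
        ≤ Cd * (2 ^ m * (1 + V) ^ m) * (4 * Real.exp (E * V + r)) := by
          apply mul_le_mul (mul_le_mul_of_nonneg_left h2 hCd0) (by linarith) _ (by positivity)
          have : 0 ≤ (if 3 ≤ r then Real.exp ((r - 1) * (j : ℝ) - ((2 + ε) * j + κ * V) / q) else 0 : ℝ) := by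
            split_ifs
            · exact (Real.exp_pos _).le
            · exact le_rfl
          positivity
      _ = _ := by rw [Real.exp_add]; ring
  rw [Set.ncard_eq_toFinset_card _ hfin]
  have h1 : P0.card ≤ hG.toFinset.card + ∑ j ∈ Finset.Ioc j0 J1, ((A j).card + (A' j).card) := by
    refine (Finset.card_le_card hcover).trans ((Finset.card_union_le _ _).trans ?_)
    refine Nat.add_le_add_left (Finset.card_biUnion_le.trans ?_) _
    exact Finset.sum_le_sum fun j _ => Finset.card_union_le _ _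
  have h2 : (P0.card : ℝ) ≤ G.ncard + ∑ j ∈ Finset.Ioc j0 J1, (((A j).card : ℝ) + (A' j).card) := by
    rw [Set.ncard_eq_toFinset_card _ hG]
    exact_mod_cast h1
  have h3 : ∑ j ∈ Finset.Ioc j0 J1, (((A j).card : ℝ) + (A' j).card)
      ≤ (1 + V) * (B * C2 * Real.exp (E * V)
        + Cd * 2 ^ m * (4 * Real.exp r) * (1 + V) ^ m * Real.exp (E * V)) := by
    refine (Finset.sum_le_sum fun j hj => add_le_add (hAcard j hj) (hA'card j hj)).trans ?_
    rw [Finset.sum_const, nsmul_eq_mul]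
    apply mul_le_mul_of_nonneg_right _ (by positivity)
    rw [Nat.card_Ioc]
    have h4 : ((J1 - j0 : ℕ) : ℝ) ≤ J1 := by exact_mod_cast Nat.sub_le _ _
    linarith
  have h5 : (1 : ℝ) ≤ (1 + V) ^ m := one_le_pow₀ (by linarith)
  have h6 : (1 : ℝ) ≤ Real.exp (E * V) := Real.one_le_exp (by positivity)
  have h7 : (1 : ℝ) ≤ (1 + V) ^ (m + 1) := one_le_pow₀ (by linarith)
  have h8 : (1 + V) ≤ (1 + V) ^ (m + 1) := by
    rw [pow_succ]
    calc 1 + V = 1 * (1 + V) := (one_mul _).symm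
      _ ≤ _ := mul_le_mul_of_nonneg_right h5 (by linarith)
  calc (P0.card : ℝ) ≤ G.ncard + (1 + V) * (B * C2 * Real.exp (E * V)
        + Cd * 2 ^ m * (4 * Real.exp r) * (1 + V) ^ m * Real.exp (E * V)) := h2.trans (by linarith)
    _ ≤ G.ncard * ((1 + V) ^ (m + 1) * Real.exp (E * V)) + ((1 + V) ^ (m + 1) * (B * C2 * Real.exp (E * V))
        + (1 + V) ^ (m + 1) * (Cd * 2 ^ m * (4 * Real.exp r) * Real.exp (E * V))) := by
        apply add_le_add
        · have : (1 : ℝ) ≤ (1 + V) ^ (m + 1) * Real.exp (E * V) := by nlinarith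
          calc (G.ncard : ℝ) = G.ncard * 1 := (mul_one _).symm
            _ ≤ _ := mul_le_mul_of_nonneg_left this (Nat.cast_nonneg _)
        · rw [mul_add]
          apply add_le_add
          · exact mul_le_mul_of_nonneg_right h8 (by positivity)
          · apply le_of_eq
            rw [pow_succ]
            ring
    _ = _ := by ring

end

end Pool.Agent.Helper52.Vojta
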