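import Mathlib
import Pool.Agent.Helper52.Vojta.Rep
import Pool.Agent.Helper52.Vojta.Pack

/-!
Existence of an `S`-unit of infinite order and an auxiliary prime.
-/

namespace Pool.Agent.Helper52.Vojta

open NumberField Finset Module Pool.Agent.Helper64.Vojta
open scoped nonZeroDivisors

universe u

section

variable {k : Type u} [Field k] [NumberField k]

theorem nv_eq_one_of_notMem (w : FinitePlace k) (t : 𝓞 k) (h : t ∉ w.maximalIdeal.asIdeal) :
    nv (.inr w) (t : k) = 1 := by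
  rw [← nv_lt_one_iff] at h
  exact le_antisymm (nv_int_le_one w t) (not_lt.mp h)

open scoped Classical in
/-- an integral `S`-unit which is large at some infinite place -/
theorem exists_sunit (S : Finset (Pl k)) (hcard : 2 ≤ S.card) :
    ∃ u : 𝓞 k, u ≠ 0 ∧ (∀ w : FinitePlace k, Sum.inr w ∉ S → nv (.inr w) (u : k) = 1) ∧
      ∃ v : InfinitePlace k, 1 < v (u : k) := by
  by_cases hfin : ∃ w₀ : FinitePlace k, Sum.inr w₀ ∈ S
  · obtain ⟨w₀, hw₀⟩ := hfin
    set 𝔭 := w₀.maximalIdeal.asIdeal with h𝔭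
    have h𝔭0 : 𝔭 ≠ ⊥ := w₀.maximalIdeal.ne_bot
    have h𝔭P : 𝔭.IsPrime := w₀.maximalIdeal.isPrime
    set h := Fintype.card (ClassGroup (𝓞 k)) with hh
    have hh0 : h ≠ 0 := Fintype.card_ne_zero
    have hprin : (𝔭 ^ h).IsPrincipal := by
      rw [← ClassGroup.mk0_eq_one_iff (pow_mem (mem_nonZeroDivisors_of_ne_zero h𝔭0) h)]
      have : (⟨𝔭 ^ h, pow_mem (mem_nonZeroDivisors_of_ne_zero h𝔭0) h⟩ : (Ideal (𝓞 k))⁰)
          = (⟨𝔭, mem_nonZeroDivisors_of_ne_zero h𝔭0⟩ : (Ideal (𝓞 k))⁰) ^ h := by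
        ext1; rfl
      rw [this, map_pow, hh, pow_card_eq_one]
    obtain ⟨u, hu⟩ := hprin.principal
    have hu' : 𝔭 ^ h = Ideal.span {u} := hu
    have hu0 : u ≠ 0 := by
      rintro rfl
      rw [Ideal.span_singleton_zero] at hu'
      exact pow_ne_zero h h𝔭0 hu'
    have hu0' : (u : k) ≠ 0 := by exact_mod_cast hu0
    have hout : ∀ w : FinitePlace k, w ≠ w₀ → nv (.inr w) (u : k) = 1 := by
      intro w hw
      apply nv_eq_one_of_notMem
      intro hmem
      have h1 : 𝔭 ^ h ≤ w.maximalIdeal.asIdeal := by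
        rw [hu', Ideal.span_le]
        simpa using hmem
      have h2 : 𝔭 ≤ w.maximalIdeal.asIdeal := w.maximalIdeal.isPrime.le_of_pow_le h1
      have h3 := (h𝔭P.isMaximal h𝔭0).eq_of_le w.maximalIdeal.isPrime.ne_top h2
      apply hw
      rw [← FinitePlace.maximalIdeal_inj]
      exact IsDedekindDomain.HeightOneSpectrum.ext h3.symm
    refine ⟨u, hu0, ?_, ?_⟩
    · intro w hw
      apply hout
      rintro rfl
      exact hw hw₀
    · by_contra hcon
      push Not at hcon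
      have h1 := product_formula_log hu0'
      have h2 : ∑ v : InfinitePlace k, Real.log (nv (.inl v) (u : k)) ≤ 0 := by
        refine Finset.sum_nonpos fun v _ => ?_
        apply Real.log_nonpos (nv_nonneg _ _)
        change v (u : k) ^ v.mult ≤ 1
        exact pow_le_one₀ (apply_nonneg v _) (hcon v)
      have h3 : ∑ᶠ w : FinitePlace k, Real.log (nv (.inr w) (u : k)) = Real.log (nv (.inr w₀) (u : k)) := by
        apply finsum_eq_single
        intro w hw
        rw [hout w hw, Real.log_one]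
      have h4 : nv (.inr w₀) (u : k) < 1 := by
        rw [nv_lt_one_iff, ← h𝔭]
        have : u ∈ 𝔭 ^ h := by rw [hu']; exact Ideal.mem_span_singleton_self u
        exact Ideal.pow_le_self hh0 this
      have h5 := Real.log_neg (nv_pos (.inr w₀) hu0') h4
      rw [h3] at h1
      linarith
  · push Not at hfin
    -- two infinite places
    have h2 : ∃ v₁ v₂ : InfinitePlace k, v₁ ≠ v₂ := by
      obtain ⟨a, ha, b, hb, hab⟩ := Finset.one_lt_card.mp (by omega : 1 < S.card)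
      rcases a with a | a
      · rcases b with b | b
        · exact ⟨a, b, fun h => hab (by rw [h])⟩
        · exact absurd hb (hfin b)
      · exact absurd ha (hfin a)
    obtain ⟨v₁, v₂, h12⟩ := h2
    obtain ⟨u, hu⟩ := Units.dirichletUnitTheorem.exists_unit k v₁
    have hu0 : ((u : 𝓞 k) : k) ≠ 0 := by
      have : (u : 𝓞 k) ≠ 0 := u.ne_zero
      exact_mod_cast this
    have hone : ∀ w : FinitePlace k, nv (.inr w) ((u : 𝓞 k) : k) = 1 := by
      intro w
      apply nv_eq_one_of_notMem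
      intro hmem
      exact w.maximalIdeal.isPrime.ne_top (Ideal.eq_top_of_isUnit_mem _ hmem u.isUnit)
    refine ⟨u, u.ne_zero, fun w _ => hone w, v₁, ?_⟩
    have h1 := product_formula_log hu0
    have h3 : ∑ᶠ w : FinitePlace k, Real.log (nv (.inr w) ((u : 𝓞 k) : k)) = 0 := by
      have : (fun w : FinitePlace k => Real.log (nv (.inr w) ((u : 𝓞 k) : k))) = fun _ => 0 := by
        funext w; rw [hone w, Real.log_one]
      rw [this, finsum_zero]
    rw [h3, add_zero] at h1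
    have h4 : ∀ v : InfinitePlace k, v ≠ v₁ → Real.log (nv (.inl v) ((u : 𝓞 k) : k)) < 0 := by
      intro v hv
      change Real.log (v _ ^ v.mult) < 0
      rw [Real.log_pow]
      have hm : (0 : ℝ) < v.mult := by exact_mod_cast v.mult_pos
      exact mul_neg_of_pos_of_neg hm (hu v hv)
    have h5 : ∑ v ∈ Finset.univ.erase v₁, Real.log (nv (.inl v) ((u : 𝓞 k) : k)) < 0 :=
      Finset.sum_neg (fun v hv => h4 v (Finset.ne_of_mem_erase hv))
        ⟨v₂, Finset.mem_erase.mpr ⟨h12.symm, Finset.mem_univ _⟩⟩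
    rw [← Finset.add_sum_erase _ _ (Finset.mem_univ v₁)] at h1
    have h6 : 0 < Real.log (nv (.inl v₁) ((u : 𝓞 k) : k)) := by linarith
    change 0 < Real.log (v₁ _ ^ v₁.mult) at h6
    rw [Real.log_pow] at h6
    have hm : (0 : ℝ) < v₁.mult := by exact_mod_cast v₁.mult_pos
    have h7 : 0 < Real.log (v₁ ((u : 𝓞 k) : k)) := (mul_pos_iff_of_pos_left hm).mp h6
    exact (Real.log_pos_iff (apply_nonneg _ _)).mp h7

/-- an auxiliary prime for which a power of `u` is congruent to one -/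
theorem exists_aux_prime (u : 𝓞 k) (hu : u ≠ 0) :
    ∃ (I : Ideal (𝓞 k)) (π : 𝓞 k) (N M : ℕ), I.IsPrime ∧ π ∈ I ∧ π ∉ I ^ 2 ∧ (N : 𝓞 k) ∈ I ∧ 2 ≤ N ∧
      1 ≤ M ∧ ∃ c : 𝓞 k, u ^ M = 1 + N * c := by
  have hspan : Ideal.span {u} ≠ ⊥ := mt Ideal.span_singleton_eq_bot.mp hu
  set A := Ideal.absNorm (Ideal.span {u}) with hA
  have hA0 : A ≠ 0 := by rw [hA, Ne, Ideal.absNorm_eq_zero_iff]; exact hspan
  obtain ⟨p, hpA, hp⟩ := Nat.exists_infinite_primes (A + 1)
  have hcop : Nat.Coprime A p := by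
    rw [Nat.coprime_comm, hp.coprime_iff_not_dvd]
    intro h
    have := Nat.le_of_dvd (Nat.pos_of_ne_zero hA0) h
    omega
  -- `p` is not a unit
  have hpnu : ¬ IsUnit (p : 𝓞 k) := by
    intro h
    have h1 : Ideal.span {(p : 𝓞 k)} = ⊤ := Ideal.span_singleton_eq_top.mpr h
    have h2 := Ideal.absNorm_span_singleton (p : 𝓞 k)
    rw [h1, Ideal.absNorm_top] at h2
    have h3 : (Algebra.norm ℤ (p : 𝓞 k)) = (p : ℤ) ^ finrank ℤ (𝓞 k) := by
      have := Algebra.norm_algebraMap (S := 𝓞 k) (p : ℤ)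
      simpa using this
    rw [h3, Int.natAbs_pow, Int.natAbs_natCast, RingOfIntegers.rank] at h2
    have h4 : 1 < p ^ finrank ℚ k := Nat.one_lt_pow (finrank_pos (R := ℚ) (M := k)).ne' hp.one_lt
    omega
  obtain ⟨I, hI, hpI⟩ := Ideal.exists_le_maximal (Ideal.span {(p : 𝓞 k)})
    (fun h => hpnu (Ideal.span_singleton_eq_top.mp h))
  have hpI' : (p : 𝓞 k) ∈ I := hpI (Ideal.mem_span_singleton_self _)
  have hIbot : I ≠ ⊥ := Ring.ne_bot_of_isMaximal_of_not_isField hI (RingOfIntegers.not_isField k)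
  obtain ⟨π, h1, h2⟩ := Ideal.exists_mem_pow_notMem_pow_succ I hIbot hI.ne_top 1
  rw [pow_one] at h1
  -- `u` is a unit modulo `p`
  have hAmem : (A : 𝓞 k) ∈ Ideal.span {u} := Ideal.absNorm_mem _
  obtain ⟨c, hc⟩ := Ideal.mem_span_singleton.mp hAmem
  have hp0 : (p : 𝓞 k) ≠ 0 := by exact_mod_cast hp.ne_zero
  have hpspan : Ideal.span {(p : 𝓞 k)} ≠ ⊥ := mt Ideal.span_singleton_eq_bot.mp hp0
  have hfinite : Finite (𝓞 k ⧸ Ideal.span {(p : 𝓞 k)}) := Ideal.finiteQuotientOfFreeOfNeBot _ hpspan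
  have hunit : IsUnit (Ideal.Quotient.mk (Ideal.span {(p : 𝓞 k)}) u) := by
    have h3 : ∃ s t : ℤ, s * A + t * p = 1 := by
      have h4 : IsCoprime (A : ℤ) (p : ℤ) := Nat.isCoprime_iff_coprime.mpr hcop
      exact h4
    obtain ⟨s, t, hst⟩ := h3
    apply IsUnit.of_mul_eq_one (Ideal.Quotient.mk _ (c * s))
    rw [← map_mul, ← map_one (Ideal.Quotient.mk (Ideal.span {(p : 𝓞 k)})), Ideal.Quotient.eq,
      Ideal.mem_span_singleton]
    refine ⟨-(t : 𝓞 k), ?_⟩
    have h5 : (s : 𝓞 k) * A + t * p = 1 := by exact_mod_cast congrArg (Int.cast : ℤ → 𝓞 k) hst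
    rw [hc] at h5
    linear_combination h5
  obtain ⟨U, hU⟩ := hunit
  have hUfin : IsOfFinOrder U := isOfFinOrder_of_finite U
  refine ⟨I, π, p, orderOf U, hI.isPrime, h1, h2, hpI', hp.two_le, hUfin.orderOf_pos, ?_⟩
  have h6 : Ideal.Quotient.mk (Ideal.span {(p : 𝓞 k)}) (u ^ orderOf U) = 1 := by
    rw [map_pow, ← hU, ← Units.val_pow_eq_pow_val, pow_orderOf_eq_one, Units.val_one]
  rw [← map_one (Ideal.Quotient.mk (Ideal.span {(p : 𝓞 k)})), Ideal.Quotient.eq, Ideal.mem_span_singleton] at h6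
  obtain ⟨c', hc'⟩ := h6
  exact ⟨c', by rw [← hc']; ring⟩

end

end Pool.Agent.Helper52.Vojta
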