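import Mathlib
import Pool.Agent.Helper52.Vojta.LowerFinal
import Pool.Agent.Helper52.Vojta.SUnit
import Pool.Agent.Helper52.Vojta.SplitCount

/-!
Quadratic points for which Vojta's inequality is not trivial.
-/

namespace Pool.Agent.Helper52.Vojta

open NumberField Finset Module Polynomial IntermediateField Pool.Agent.Helper64.Vojta

universe u v

section

variable {R : Type*} [CommRing R]

/-- the quadratic family -/
noncomputable def quadP (u γ : R) : R[X] := X ^ 2 + (C (u - 1 - γ) * X + C γ)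

theorem quadP_degree_lt [Nontrivial R] (u γ : R) : (C (u - 1 - γ) * X + C γ : R[X]).degree < 2 := by
  refine (degree_linear_le).trans_lt ?_
  norm_num

theorem quadP_monic [Nontrivial R] (u γ : R) : (quadP u γ).Monic :=
  monic_X_pow_add (n := 2) (by exact_mod_cast quadP_degree_lt u γ)

theorem quadP_natDegree [Nontrivial R] (u γ : R) : (quadP u γ).natDegree = 2 := by
  apply natDegree_eq_of_degree_eq_some
  unfold quadP
  rw [degree_add_eq_left_of_degree_lt (by rw [degree_X_pow]; exact_mod_cast quadP_degree_lt u γ), degree_X_pow]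

theorem quadP_coeff_zero (u γ : R) : (quadP u γ).coeff 0 = γ := by
  simp [quadP]

theorem quadP_coeff_one (u γ : R) : (quadP u γ).coeff 1 = u - 1 - γ := by
  simp [quadP, coeff_X]

theorem quadP_eval_zero (u γ : R) : (quadP u γ).eval 0 = γ := by
  simp [quadP]

theorem quadP_eval_one (u γ : R) : (quadP u γ).eval 1 = u := by
  simp [quadP]

theorem quadP_irreducible [IsDomain R] {u γ : R} {P : Ideal R} (hP : P.IsPrime) (hγ : γ ∈ P) (hγ2 : γ ∉ P ^ 2)
    (hu : u - 1 ∈ P) : Irreducible (quadP u γ) := by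
  have hE : (quadP u γ).IsEisensteinAt P := by
    refine ⟨?_, ?_, ?_⟩
    · rw [(quadP_monic u γ).leadingCoeff]
      exact fun h => hP.ne_top ((Ideal.eq_top_iff_one P).mpr h)
    · intro n hn
      rw [quadP_natDegree] at hn
      interval_cases n
      · rw [quadP_coeff_zero]; exact hγ
      · rw [quadP_coeff_one]; exact P.sub_mem hu hγ
    · rw [quadP_coeff_zero]
      exact hγ2
  exact hE.irreducible hP (quadP_monic u γ).isPrimitive (by rw [quadP_natDegree]; omega)

theorem quadP_mahler {R : Type*} [CommRing R] (σ : R →+* ℂ) (u γ : R) (Q B : ℝ) (hQ : 1 ≤ Q) (hB : 1 ≤ B)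
    (h1 : Q ≤ ‖σ γ‖) (h2 : ‖σ γ‖ ≤ B * Q) :
    max ‖σ u‖ Q / 4 ≤ ((quadP u γ).map σ).mahlerMeasure ∧
    ((quadP u γ).map σ).mahlerMeasure ≤ (3 + 2 * B) * max ‖σ u‖ Q := by
  have : Nontrivial R := σ.domain_nontrivial
  have hdeg : ((quadP u γ).map σ).natDegree = 2 := by
    rw [(quadP_monic u γ).natDegree_map, quadP_natDegree]
  have c0 : ((quadP u γ).map σ).coeff 0 = σ γ := by rw [coeff_map, quadP_coeff_zero]
  have c1 : ((quadP u γ).map σ).coeff 1 = σ u - 1 - σ γ := by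
    rw [coeff_map, quadP_coeff_one, map_sub, map_sub, map_one]
  have c2 : ((quadP u γ).map σ).coeff 2 = 1 := by
    have := (quadP_monic u γ).map σ
    rw [Monic, leadingCoeff, hdeg] at this
    exact this
  have m0 := norm_coeff_le_choose_mul_mahlerMeasure 0 ((quadP u γ).map σ)
  have m1 := norm_coeff_le_choose_mul_mahlerMeasure 1 ((quadP u γ).map σ)
  have m2 := norm_coeff_le_choose_mul_mahlerMeasure 2 ((quadP u γ).map σ)
  rw [hdeg, c0] at m0
  rw [hdeg, c1] at m1
  rw [hdeg, c2] at m2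
  norm_num at m0 m1 m2
  set M := ((quadP u γ).map σ).mahlerMeasure with hM
  constructor
  · have h3 : ‖σ u‖ ≤ 4 * M := by
      have h4 : σ u = (σ u - 1 - σ γ) + 1 + σ γ := by ring
      calc ‖σ u‖ = ‖(σ u - 1 - σ γ) + 1 + σ γ‖ := by rw [← h4]
        _ ≤ ‖(σ u - 1 - σ γ) + 1‖ + ‖σ γ‖ := norm_add_le _ _
        _ ≤ ‖σ u - 1 - σ γ‖ + ‖(1 : ℂ)‖ + ‖σ γ‖ := by gcongr; exact norm_add_le _ _
        _ ≤ 4 * M := by rw [norm_one]; linarith
    have h4 : max ‖σ u‖ Q ≤ 4 * M := max_le h3 (by linarith)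
    linarith
  · have h3 : M ≤ ‖σ γ‖ + ‖σ u - 1 - σ γ‖ + 1 := by
      have h4 := mahlerMeasure_le_sum_norm_coeff ((quadP u γ).map σ)
      rw [sum_over_range' _ (by simp) 3 (by omega), Finset.sum_range_succ, Finset.sum_range_succ,
        Finset.sum_range_succ, Finset.sum_range_zero, c0, c1, c2, norm_one] at h4
      linarith
    have h5 : ‖σ u - 1 - σ γ‖ ≤ ‖σ u‖ + 1 + ‖σ γ‖ := by
      calc ‖σ u - 1 - σ γ‖ ≤ ‖σ u - 1‖ + ‖σ γ‖ := norm_sub_le _ _
        _ ≤ ‖σ u‖ + ‖(1 : ℂ)‖ + ‖σ γ‖ := by gcongr; exact norm_sub_le _ _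
        _ = _ := by rw [norm_one]
    have h6 : ‖σ u‖ ≤ max ‖σ u‖ Q := le_max_left _ _
    have h7 : Q ≤ max ‖σ u‖ Q := le_max_right _ _
    have h8 : B * Q ≤ B * max ‖σ u‖ Q := mul_le_mul_of_nonneg_left h7 (by linarith)
    nlinarith

end

section

variable {k : Type u} [Field k] [NumberField k]

theorem sum_dloc_lower2 (g1 : k[X]) (r : ℕ) : ∃ C : ℝ, 0 ≤ C ∧
    ∀ (L : Type v) [Field L] [NumberField L] [Algebra k L], finrank k L ≤ r →
    ∀ (W : Finset (Pl L)), (∀ w : InfinitePlace L, Sum.inl w ∈ W) → ∀ y : 𝓞 L,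
      aeval (y : L) (X * (X - 1) * g1) ≠ 0 →
      3 * Height.logHeight (aff (y : L)) - ∑ w : InfinitePlace L, Real.log (nv (.inl w) (y : L))
        - ∑ w ∈ W, Real.log (nv w ((y : L) - 1)) - C * W.card
        ≤ ∑ w ∈ W, dloc (X * (X - 1) * g1) (g1.natDegree + 3) w (y : L) := by
  classical
  obtain ⟨C, hC0, hC⟩ := poly_loc_lower.{u, v} g1 r
  refine ⟨C, hC0, ?_⟩
  intro L _ _ _ hr W hW y hy
  have hval : aeval (y : L) (X * (X - 1) * g1) = (y : L) * ((y : L) - 1) * aeval (y : L) g1 := by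
    simp
  have hy0 : (y : L) ≠ 0 := by rintro h; rw [hval, h] at hy; simp at hy
  have hy1 : (y : L) - 1 ≠ 0 := by rintro h; rw [hval, h] at hy; simp at hy
  have hg : aeval (y : L) g1 ≠ 0 := by rintro h; rw [hval, h] at hy; simp at hy
  let f : Pl L → ℝ := fun w => 3 * Real.log (sn w (aff (y : L))) - Real.log (nv w (y : L))
  have h1 : ∀ w : Pl L, f w - Real.log (nv w ((y : L) - 1)) - C
      ≤ dloc (X * (X - 1) * g1) (g1.natDegree + 3) w (y : L) := by
    intro w
    unfold dloc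
    rw [hval, nv_mul, nv_mul, Real.log_mul (mul_pos (nv_pos w hy0) (nv_pos w hy1)).ne' (nv_pos w hg).ne',
      Real.log_mul (nv_pos w hy0).ne' (nv_pos w hy1).ne']
    have := hC L hr w (y : L) hg
    push_cast
    simp only [f]
    linarith
  have h2 : ∀ w : FinitePlace L, 0 ≤ f (.inr w) := by
    intro w
    have e1 := one_le_sn_aff (.inr w) (y : L)
    have e2 := Real.log_nonneg e1
    have e3 : Real.log (nv (.inr w) (y : L)) ≤ 0 := Real.log_nonpos (nv_nonneg _ _) (nv_int_le_one w y)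
    simp only [f]
    linarith
  have h3 : ∑ w : InfinitePlace L, f (.inl w) ≤ ∑ w ∈ W, f w := by
    rw [← Finset.toLeft_disjSum_toRight (u := W), Finset.sum_disjSum]
    have e1 : W.toLeft = Finset.univ := by
      ext w; simp [hW w]
    rw [e1]
    have : 0 ≤ ∑ w ∈ W.toRight, f (.inr w) := Finset.sum_nonneg fun w _ => h2 w
    linarith
  have h4 : ∑ w : InfinitePlace L, f (.inl w) = 3 * Height.logHeight (aff (y : L))
      - ∑ w : InfinitePlace L, Real.log (nv (.inl w) (y : L)) := by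
    rw [logHeight_integral]
    simp only [f]
    rw [Finset.sum_sub_distrib, Finset.mul_sum]
  have h5 := Finset.sum_le_sum (s := W) fun w _ => h1 w
  rw [Finset.sum_sub_distrib, Finset.sum_sub_distrib, Finset.sum_const, nsmul_eq_mul] at h5
  linarith

variable {Ω : Type u} [Field Ω] [Algebra k Ω]

open scoped Classical in
/-- Analysis of the quadratic points of the family. -/
theorem quad_analysis (g1 : k[X]) (S : Finset (Pl k)) (hS : ∀ v : InfinitePlace k, Sum.inl v ∈ S) :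
    ∃ C : ℝ, 0 ≤ C ∧ ∀ (x : Ω) (u γ : 𝓞 k), IsIntegral ℤ x → u ≠ 0 →
      minpoly k x = (quadP u γ).map (algebraMap (𝓞 k) k) →
      aeval x (X * (X - 1) * g1) ≠ 0 → (∀ w : FinitePlace k, Sum.inr w ∉ S → nv (.inr w) (u : k) = 1) →
      ∀ (_ : NumberField k⟮x⟯) (Q B : ℝ), 1 ≤ Q → 1 ≤ B →
      (∀ σ : k →+* ℂ, Q ≤ ‖σ (γ : k)‖) → (∀ σ : k →+* ℂ, ‖σ (γ : k)‖ ≤ B * Q) →
      finrank k k⟮x⟯ = 2 ∧
      ∑ σ : k →+* ℂ, Real.log (max ‖σ (u : k)‖ Q) - finrank ℚ k * Real.log 4
        ≤ Height.logHeight (aff (AdjoinSimple.gen k x)) ∧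
      Height.logHeight (aff (AdjoinSimple.gen k x)) ≤
        ∑ σ : k →+* ℂ, Real.log (max ‖σ (u : k)‖ Q) + finrank ℚ k * Real.log (3 + 2 * B) ∧
      3 * Height.logHeight (aff (AdjoinSimple.gen k x)) - finrank ℚ k * Real.log (B * Q) - C ≤
        ∑ w ∈ upW k⟮x⟯ S, dloc (X * (X - 1) * g1) (g1.natDegree + 3) w (AdjoinSimple.gen k x) := by
  obtain ⟨C, hC0, hC⟩ := sum_dloc_lower2.{u, u} g1 2
  refine ⟨C * (S.card * 2), by positivity, ?_⟩
  intro x u γ hint hu0 hmin hne hSu hNF Q B hQ hB hγ1 hγ2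
  have hkint : IsIntegral k x := hint.tower_top
  let pb : PowerBasis k k⟮x⟯ := adjoin.powerBasis hkint
  have hgen : pb.gen = AdjoinSimple.gen k x := adjoin.powerBasis_gen hkint
  have hmp : minpoly k pb.gen = (quadP u γ).map (algebraMap (𝓞 k) k) := by
    rw [hgen, minpoly_gen, hmin]
  have hmon := quadP_monic u γ
  have hdeg := quadP_natDegree u γ
  have hfr : finrank k k⟮x⟯ = 2 := by
    rw [adjoin.finrank hkint, hmin, hmon.natDegree_map, hdeg]
  have hcardσ : Fintype.card (k →+* ℂ) = finrank ℚ k := NumberField.Embeddings.card k ℂ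
  have hi : IsIntegral ℤ (AdjoinSimple.gen k x) := by
    have hinj : Function.Injective (algebraMap k⟮x⟯ Ω) := (algebraMap k⟮x⟯ Ω).injective
    rw [← isIntegral_algHom_iff ((IsScalarTower.toAlgHom k k⟮x⟯ Ω).restrictScalars ℤ) hinj]
    simpa using hint
  have hH : Height.logHeight (aff (AdjoinSimple.gen k x))
      = ∑ σ : k →+* ℂ, Real.log ((quadP u γ).map (σ.comp (algebraMap (𝓞 k) k))).mahlerMeasure := by
    have := logHeight_integral (⟨AdjoinSimple.gen k x, hi⟩ : 𝓞 k⟮x⟯)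
    change Height.logHeight (aff (AdjoinSimple.gen k x)) = _ at this
    rw [this]
    change ∑ w : InfinitePlace k⟮x⟯, Real.log (sn (.inl w) (aff (AdjoinSimple.gen k x))) = _
    rw [← hgen, sum_log_max pb]
    refine Finset.sum_congr rfl fun σ _ => ?_
    rw [hmp, Polynomial.map_map]
  have hS1 : ∑ w : InfinitePlace k⟮x⟯, Real.log (nv (.inl w) (AdjoinSimple.gen k x))
      = ∑ σ : k →+* ℂ, Real.log ‖σ (γ : k)‖ := by
    have h5 := sum_log_nv_sub pb (0 : k) (fun φ => by
      rw [hgen]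
      intro h0
      exact gen_ne x hfr.ge 0 ((map_eq_zero φ).mp h0))
    rw [hgen, map_zero] at h5
    simp only [sub_zero, map_zero] at h5
    rw [h5]
    refine Finset.sum_congr rfl fun σ _ => ?_
    rw [← hgen, hmp, Polynomial.map_map]
    congr 2
    have : ((quadP u γ).map (σ.comp (algebraMap (𝓞 k) k))).eval 0 = (σ.comp (algebraMap (𝓞 k) k)) ((quadP u γ).eval 0) := by
      have e : (0 : ℂ) = (σ.comp (algebraMap (𝓞 k) k)) 0 := (map_zero _).symm
      rw [e, eval_map_apply]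
    rw [this, quadP_eval_zero]; rfl
  have hW : ∀ w : InfinitePlace k⟮x⟯, Sum.inl w ∈ upW k⟮x⟯ S := by
    intro w
    unfold upW
    rw [Finset.mem_biUnion]
    refine ⟨.inl (w.comap (algebraMap k k⟮x⟯)), hS _, ?_⟩
    rw [mem_above]
    exact ⟨rfl⟩
  have hne' : aeval (AdjoinSimple.gen k x) (X * (X - 1) * g1) ≠ 0 := by
    intro h0
    apply hne
    have := congrArg (algebraMap k⟮x⟯ Ω) h0
    rwa [map_zero, ← aeval_algebraMap_apply, AdjoinSimple.algebraMap_gen] at this
  -- the contributions at `1`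
  have hu0' : (u : k) ≠ 0 := by exact_mod_cast hu0
  have hone : ∑ w ∈ upW k⟮x⟯ S, Real.log (nv w (AdjoinSimple.gen k x - 1)) = 0 := by
    rw [sum_upW]
    have h5 : ∀ ν ∈ S, ∑ w ∈ above k⟮x⟯ ν, Real.log (nv w (AdjoinSimple.gen k x - 1)) = Real.log (nv ν (u : k)) := by
      intro ν _
      have hgne : AdjoinSimple.gen k x - 1 ≠ 0 := by
        have := gen_ne x hfr.ge (1 : k)
        rwa [map_one] at this
      have h6 := nv_norm (L := k⟮x⟯) ν (AdjoinSimple.gen k x - 1)
      have h7 : Algebra.norm k (AdjoinSimple.gen k x - 1) = (u : k) := by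
        have h8 := norm_sub_gen x hkint (1 : k)
        rw [map_one, hfr, hmin] at h8
        rw [h8]
        have h9 : ((quadP u γ).map (algebraMap (𝓞 k) k)).eval 1 = algebraMap (𝓞 k) k ((quadP u γ).eval 1) := by
          have e : (1 : k) = algebraMap (𝓞 k) k 1 := (map_one _).symm
          rw [e, eval_map_apply]
        rw [h9, quadP_eval_one]
        norm_num
      rw [h7] at h6
      rw [h6, Real.log_prod (fun w _ => (nv_pos w hgne).ne')]
    rw [Finset.sum_congr rfl h5]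
    have h6 := product_formula_log hu0'
    have h7 : ∑ᶠ w : FinitePlace k, Real.log (nv (.inr w) (u : k)) = ∑ w ∈ S.toRight, Real.log (nv (.inr w) (u : k)) := by
      apply finsum_eq_sum_of_support_subset
      intro w hw
      rw [Finset.mem_coe, Finset.mem_toRight]
      by_contra hcon
      rw [Function.mem_support, hSu w hcon, Real.log_one] at hw
      exact hw rfl
    rw [← Finset.toLeft_disjSum_toRight (u := S), Finset.sum_disjSum]
    have e1 : S.toLeft = Finset.univ := by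
      ext w; simp [hS w]
    rw [e1, ← h7]
    exact h6
  have hlow := hC k⟮x⟯ hfr.le (upW k⟮x⟯ S) hW ⟨AdjoinSimple.gen k x, hi⟩ hne'
  change 3 * Height.logHeight (aff (AdjoinSimple.gen k x))
    - ∑ w : InfinitePlace k⟮x⟯, Real.log (nv (.inl w) (AdjoinSimple.gen k x))
    - ∑ w ∈ upW k⟮x⟯ S, Real.log (nv w (AdjoinSimple.gen k x - 1)) - C * _
    ≤ ∑ w ∈ upW k⟮x⟯ S, dloc (X * (X - 1) * g1) (g1.natDegree + 3) w (AdjoinSimple.gen k x) at hlow
  rw [hS1, hone, sub_zero] at hlow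
  have hcard : ((upW k⟮x⟯ S).card : ℝ) ≤ S.card * 2 := by
    have := card_upW_le k⟮x⟯ S
    rw [hfr] at this
    exact_mod_cast this
  have hmah := fun σ : k →+* ℂ => quadP_mahler (σ.comp (algebraMap (𝓞 k) k)) u γ Q B hQ hB (hγ1 σ) (hγ2 σ)
  have hmaxpos : ∀ σ : k →+* ℂ, 0 < max ‖σ (u : k)‖ Q := fun σ => lt_of_lt_of_le (by linarith) (le_max_right _ _)
  refine ⟨hfr, ?_, ?_, ?_⟩
  · rw [hH, ← hcardσ]
    have h5 : ∀ σ ∈ (Finset.univ : Finset (k →+* ℂ)), Real.log (max ‖σ (u : k)‖ Q) - Real.log 4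
        ≤ Real.log ((quadP u γ).map (σ.comp (algebraMap (𝓞 k) k))).mahlerMeasure := by
      intro σ _
      rw [← Real.log_div (hmaxpos σ).ne' (by norm_num)]
      exact Real.log_le_log (div_pos (hmaxpos σ) (by norm_num)) (hmah σ).1
    have h6 := Finset.sum_le_sum h5
    rw [Finset.sum_sub_distrib, Finset.sum_const, Finset.card_univ, nsmul_eq_mul] at h6
    exact h6
  · rw [hH, ← hcardσ]
    have h5 : ∀ σ ∈ (Finset.univ : Finset (k →+* ℂ)),
        Real.log ((quadP u γ).map (σ.comp (algebraMap (𝓞 k) k))).mahlerMeasure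
        ≤ Real.log (max ‖σ (u : k)‖ Q) + Real.log (3 + 2 * B) := by
      intro σ _
      rw [← Real.log_mul (hmaxpos σ).ne' (by positivity), mul_comm]
      exact Real.log_le_log (lt_of_lt_of_le (div_pos (hmaxpos σ) (by norm_num)) (hmah σ).1) (hmah σ).2
    have h6 := Finset.sum_le_sum h5
    rw [Finset.sum_add_distrib, Finset.sum_const, Finset.card_univ, nsmul_eq_mul] at h6
    exact h6
  · have e0 : ∑ σ : k →+* ℂ, Real.log ‖σ (γ : k)‖ ≤ finrank ℚ k * Real.log (B * Q) := by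
      rw [← hcardσ]
      calc _ ≤ ∑ σ : k →+* ℂ, Real.log (B * Q) := Finset.sum_le_sum fun σ _ =>
            Real.log_le_log (lt_of_lt_of_le (by linarith) (hγ1 σ)) (hγ2 σ)
        _ = _ := by rw [Finset.sum_const, Finset.card_univ, nsmul_eq_mul]
    have e2 : C * (upW k⟮x⟯ S).card ≤ C * (S.card * 2) := mul_le_mul_of_nonneg_left hcard hC0
    linarith

end

end Pool.Agent.Helper52.Vojta
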