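import Mathlib
import Pool.Agent.Helper52.Vojta.LowerTwo

/-!
Lower bound for the number of nontrivial quadratic points.
-/

namespace Pool.Agent.Helper52.Vojta

open NumberField Finset Module Polynomial IntermediateField Pool.Agent.Helper64.Vojta

universe u

section

theorem choose_m {ι : Type*} [Fintype ι] (a : ι → ℝ) (ha : ∀ i, 0 < a i) (i0 : ι) (h1 : 1 < a i0)
    (Q T : ℝ) (hQ : 1 ≤ Q) (hT : (Fintype.card ι : ℝ) * Real.log Q ≤ T) :
    ∃ m : ℕ, ∑ i, Real.log (max (a i ^ m) Q) ≤ T ∧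
      T - ∑ i, Real.log (max (a i) 1) < ∑ i, Real.log (max (a i ^ m) Q) := by
  classical
  have hmaxpos : ∀ (i : ι) (m : ℕ), 0 < max (a i ^ m) Q := fun i m =>
    lt_of_lt_of_le (by linarith) (le_max_right _ _)
  have hnonneg : ∀ (i : ι) (m : ℕ), 0 ≤ Real.log (max (a i ^ m) Q) := fun i m =>
    Real.log_nonneg (hQ.trans (le_max_right _ _))
  have hex : ∃ m : ℕ, T < ∑ i, Real.log (max (a i ^ m) Q) := by
    have hl : 0 < Real.log (a i0) := Real.log_pos h1
    obtain ⟨m, hm⟩ := exists_nat_gt (T / Real.log (a i0))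
    refine ⟨m, ?_⟩
    rw [div_lt_iff₀ hl] at hm
    calc T < m * Real.log (a i0) := hm
      _ = Real.log (a i0 ^ m) := by rw [Real.log_pow]
      _ ≤ Real.log (max (a i0 ^ m) Q) := Real.log_le_log (pow_pos (ha i0) m) (le_max_left _ _)
      _ ≤ _ := Finset.single_le_sum (f := fun i => Real.log (max (a i ^ m) Q)) (fun i _ => hnonneg i m)
          (Finset.mem_univ i0)
  have h0 : ∑ i, Real.log (max (a i ^ 0) Q) ≤ T := by
    have : ∑ i, Real.log (max (a i ^ 0) Q) = (Fintype.card ι : ℝ) * Real.log Q := by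
      simp only [pow_zero, max_eq_right hQ, Finset.sum_const, Finset.card_univ, nsmul_eq_mul]
    rw [this]; exact hT
  have hM0 : Nat.find hex ≠ 0 := by
    intro h
    have := Nat.find_spec hex
    rw [h] at this
    linarith
  obtain ⟨m, hm⟩ := Nat.exists_eq_succ_of_ne_zero hM0
  refine ⟨m, ?_, ?_⟩
  · have := Nat.find_min hex (m := m) (by omega)
    linarith
  · have h2 := Nat.find_spec hex
    rw [hm] at h2
    have h3 : ∑ i, Real.log (max (a i ^ (m + 1)) Q) ≤ ∑ i, Real.log (max (a i ^ m) Q)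
        + ∑ i, Real.log (max (a i) 1) := by
      rw [← Finset.sum_add_distrib]
      refine Finset.sum_le_sum fun i _ => ?_
      have hp1 : 0 < max (a i) 1 := lt_of_lt_of_le one_pos (le_max_right _ _)
      rw [← Real.log_mul (hmaxpos i m).ne' hp1.ne']
      apply Real.log_le_log (hmaxpos i (m + 1))
      apply max_le
      · rw [pow_succ]
        exact mul_le_mul (le_max_left _ _) (le_max_left _ _) (ha i).le (hmaxpos i m).le
      · calc Q = Q * 1 := (mul_one _).symm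
          _ ≤ _ := mul_le_mul (le_max_right _ _) (le_max_right _ _) zero_le_one (hmaxpos i m).le
    change T < ∑ i, Real.log (max (a i ^ (m + 1)) Q) at h2
    linarith

variable {k : Type u} [Field k] [NumberField k]

open scoped Classical in
/-- There are many nontrivial quadratic points. -/
theorem nontriv_lower_two (Ω : Type u) [Field Ω] [Algebra k Ω] [IsAlgClosed Ω] (g1 : k[X]) (hg1 : g1 ≠ 0)
    (S : Finset (Pl k)) (hS : ∀ v : InfinitePlace k, Sum.inl v ∈ S) (hS2 : 2 ≤ S.card) {ε : ℝ}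
    (hε0 : 0 < ε) (hε1 : ε < 1) (c0 : ℝ) :
    ∃ (c1 V0 : ℝ), 0 < c1 ∧ ∀ V : ℝ, V0 ≤ V → ∃ P : Finset Ω, c1 * Real.exp ((1 - ε) * V) ≤ P.card ∧
      ∀ x ∈ P, ∃ _ : NumberField k⟮x⟯,
        Ntv (X * (X - 1) * g1) (g1.natDegree + 3) 2 S ε c0 k⟮x⟯ (AdjoinSimple.gen k x) ∧
        Height.logHeight (aff (AdjoinSimple.gen k x)) ≤ V := by
  obtain ⟨u0, hu00, hu0S, v0, hv0⟩ := exists_sunit S hS2
  obtain ⟨I, π, N, M0, hI, hπ, hπ2, hN, hN2, hM0, c, hc⟩ := exists_aux_prime u0 hu00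
  obtain ⟨K, hK⟩ := bet_bound (k := k)
  obtain ⟨C, hC0, hC⟩ := quad_analysis (Ω := Ω) g1 S hS
  set u1 : 𝓞 k := u0 ^ M0 with hu1
  set n : ℕ := finrank ℚ k with hn
  have hn1 : 1 ≤ n := Module.finrank_pos
  have hnr : (1 : ℝ) ≤ n := by exact_mod_cast hn1
  have hn0 : (0 : ℝ) < n := by linarith
  have hu1S : ∀ w : FinitePlace k, Sum.inr w ∉ S → ∀ m : ℕ, nv (.inr w) ((u1 ^ m : 𝓞 k) : k) = 1 := by
    intro w hw m
    have h1 := hu0S w hw
    have h2 : ((u1 ^ m : 𝓞 k) : k) = ((u0 : 𝓞 k) : k) ^ (M0 * m) := by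
      rw [hu1, ← pow_mul]; push_cast; rfl
    rw [h2, nv_pow, h1, one_pow]
  have hu10 : ∀ m : ℕ, (u1 ^ m : 𝓞 k) ≠ 0 := fun m => pow_ne_zero _ (pow_ne_zero _ hu00)
  have hu1I : ∀ m : ℕ, (u1 ^ m : 𝓞 k) - 1 ∈ I := by
    intro m
    have h1 : (u1 : 𝓞 k) - 1 ∈ I := by
      rw [hc, add_sub_cancel_left]; exact I.mul_mem_right _ hN
    have h2 : (u1 : 𝓞 k) - 1 ∣ u1 ^ m - 1 := sub_one_dvd_pow_sub_one _ _
    obtain ⟨d, hd⟩ := h2
    rw [hd]; exact I.mul_mem_right _ h1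
  -- the constant `B`
  have hsum0 : 0 ≤ ∑ σ : k →+* ℂ, ‖σ (π : 𝓞 k)‖ := Finset.sum_nonneg fun σ _ => norm_nonneg _
  have hK0 : (0 : ℝ) ≤ K := Nat.cast_nonneg _
  have hNr : (2 : ℝ) ≤ N := by exact_mod_cast hN2
  set B : ℝ := (N : ℝ) ^ 2 * (2 * K + 1) + ∑ σ : k →+* ℂ, ‖σ (π : 𝓞 k)‖ with hB
  have hN2r : (4 : ℝ) ≤ (N : ℝ) ^ 2 := by nlinarith
  have hB1 : 1 ≤ B := by rw [hB]; nlinarith
  have hπB : ∀ σ : k →+* ℂ, ‖σ (π : 𝓞 k)‖ ≤ ∑ σ : k →+* ℂ, ‖σ (π : 𝓞 k)‖ := fun σ =>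
    Finset.single_le_sum (f := fun σ : k →+* ℂ => ‖σ (π : 𝓞 k)‖) (fun σ _ => norm_nonneg _)
      (Finset.mem_univ σ)
  have hπB' : ∀ σ : k →+* ℂ, ‖σ (π : 𝓞 k)‖ ≤ B := by
    intro σ
    have := hπB σ
    rw [hB]; nlinarith
  -- sizes of the units
  let a : (k →+* ℂ) → ℝ := fun σ => ‖σ (u1 : k)‖
  have ha : ∀ σ, 0 < a σ := by
    intro σ
    have h1 : (u1 : k) ≠ 0 := by
      have := hu10 1
      rw [pow_one] at this
      exact_mod_cast this
    exact norm_pos_iff.mpr ((map_ne_zero σ).mpr h1)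
  have ha1 : 1 < a v0.embedding := by
    change 1 < ‖v0.embedding (u1 : k)‖
    rw [InfinitePlace.norm_embedding_eq, hu1]
    have h2 : ((u0 ^ M0 : 𝓞 k) : k) = (u0 : k) ^ M0 := by push_cast; rfl
    rw [h2, map_pow]
    exact one_lt_pow₀ hv0 (by omega)
  have hcardσ : Fintype.card (k →+* ℂ) = n := NumberField.Embeddings.card k ℂ
  set h1 : ℝ := ∑ σ, Real.log (max (a σ) 1) with hh1
  have hh10 : 0 ≤ h1 := Finset.sum_nonneg fun σ _ => Real.log_nonneg (le_max_right _ _)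
  set C8 : ℝ := n * Real.log (3 + 2 * B) with hC8
  have hlog3B : 0 ≤ Real.log (3 + 2 * B) := Real.log_nonneg (by linarith)
  have hC80 : 0 ≤ C8 := by positivity
  set C9 : ℝ := C8 + h1 + n * Real.log 4 with hC9
  have hlog4 : 0 ≤ Real.log 4 := Real.log_nonneg (by norm_num)
  have hC90 : 0 ≤ C9 := by positivity
  have hlogB : 0 ≤ Real.log B := Real.log_nonneg hB1
  set C7 : ℝ := (1 - ε) * C9 + n * Real.log B + C + 2 * |c0| with hC7
  have h1ε : 0 < 1 - ε := by linarith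
  have hC70 : 0 ≤ C7 := by positivity
  set D : ℝ := ((X * (X - 1) * g1 : k[X]).natDegree : ℝ) with hD
  have hD0 : 0 ≤ D := Nat.cast_nonneg _
  set b : ℝ := (1 / 2) ^ n * Real.exp (-C7) with hb
  have hb0 : 0 < b := by rw [hb]; positivity
  set V1 : ℝ := (C7 + n * Real.log (2 * B)) / (1 - ε) with hV1
  set V2 : ℝ := C8 / ε with hV2
  set V3 : ℝ := Real.log (2 * (D + 1) / b) / (1 - ε) with hV3
  refine ⟨b / 2, max V1 (max V2 V3), by positivity, ?_⟩
  intro V hV
  have hVV1 : V1 ≤ V := (le_max_left _ _).trans hV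
  have hVV2 : V2 ≤ V := ((le_max_left _ _).trans (le_max_right _ _)).trans hV
  have hVV3 : V3 ≤ V := ((le_max_right _ _).trans (le_max_right _ _)).trans hV
  rw [hV1, div_le_iff₀ h1ε] at hVV1
  rw [hV2, div_le_iff₀ hε0] at hVV2
  rw [hV3, div_le_iff₀ h1ε] at hVV3
  set E : ℝ := Real.exp (((1 - ε) * V - C7) / n) with hE
  have hE0 : 0 < E := Real.exp_pos _
  have hEB : 2 * B ≤ E := by
    rw [hE, ← Real.log_le_iff_le_exp (by linarith), le_div_iff₀ hn0]
    linarith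
  have hE1 : 1 ≤ E := by linarith
  set Q : ℕ := ⌊E⌋₊ with hQ
  have hQ1 : 1 ≤ Q := one_le_floor' hE1
  have hQr : (1 : ℝ) ≤ Q := by exact_mod_cast hQ1
  have hQlow : E / 2 ≤ Q := half_le_floor hE1
  have hQup : (Q : ℝ) ≤ E := Nat.floor_le hE0.le
  have hBQ : B ≤ Q := by linarith
  have hlogQ : n * Real.log Q ≤ (1 - ε) * V - C7 := by
    have h2 := Real.log_le_log (by linarith) hQup
    rw [hE, Real.log_exp] at h2
    calc (n : ℝ) * Real.log Q ≤ n * (((1 - ε) * V - C7) / n) := mul_le_mul_of_nonneg_left h2 hn0.le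
      _ = _ := by field_simp
  obtain ⟨m, hm1, hm2⟩ := choose_m a ha v0.embedding ha1 Q (V - C8) hQr (by
    rw [hcardσ]; linarith)
  rw [← hh1] at hm2
  set u : 𝓞 k := u1 ^ m with hu
  have hau : ∀ σ : k →+* ℂ, ‖σ (u : k)‖ = a σ ^ m := by
    intro σ
    have h2 : ((u1 ^ m : 𝓞 k) : k) = (u1 : k) ^ m := by push_cast; rfl
    rw [hu, h2, map_pow, norm_pow]
  let ι := Free.ChooseBasisIndex ℤ (𝓞 k)
  let Par := Fin 1 → ι → Fin Q
  let γ : Par → 𝓞 k := fun t => π + (N : 𝓞 k) ^ 2 * cpar 1 K Q t 0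
  have hγ1 : ∀ t, γ t ∈ I := fun t =>
    I.add_mem hπ (I.mul_mem_right _ (Ideal.pow_mem_of_mem _ hN 2 (by norm_num)))
  have hγ2 : ∀ t, γ t ∉ I ^ 2 := by
    intro t ht
    apply hπ2
    have h2 : (N : 𝓞 k) ^ 2 * cpar 1 K Q t 0 ∈ I ^ 2 := (I ^ 2).mul_mem_right _ (Ideal.pow_mem_pow hN 2)
    have := (I ^ 2).sub_mem ht h2
    simpa [γ] using this
  have hNne : (N : 𝓞 k) ≠ 0 := by
    have : N ≠ 0 := by omega
    exact_mod_cast this
  let F : Par → (𝓞 k)[X] := fun t => quadP u (γ t)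
  have hirr : ∀ t, Irreducible (F t) := fun t => quadP_irreducible hI (hγ1 t) (hγ2 t) (hu1I m)
  have hroot : ∀ t, ∃ x : Ω, IsIntegral ℤ x ∧ minpoly k x = (F t).map (algebraMap (𝓞 k) k) := fun t =>
    exists_root (F t) (quadP_monic _ _) (hirr t) (by rw [quadP_natDegree]; omega)
  choose xp hxp1 hxp2 using hroot
  have hinj : Function.Injective xp := by
    intro t t' h
    have h2 : (F t).map (algebraMap (𝓞 k) k) = (F t').map (algebraMap (𝓞 k) k) := by
      rw [← hxp2, ← hxp2, h]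
    have h3 : F t = F t' := Polynomial.map_injective _ RingOfIntegers.coe_injective h2
    have h4 := congrArg (fun p => coeff p 0) h3
    simp only [F, quadP_coeff_zero, γ] at h4
    have h5 := mul_left_cancel₀ (pow_ne_zero 2 hNne) (add_left_cancel h4)
    apply cpar_injective 1 K Q
    intro i hi
    have : i = 0 := by omega
    rw [this]; exact h5
  set g : k[X] := X * (X - 1) * g1 with hg
  have hg0 : g ≠ 0 := by
    rw [hg]
    refine mul_ne_zero (mul_ne_zero X_ne_zero ?_) hg1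
    exact (monic_X_sub_C (1 : k)).ne_zero
  let P0 : Finset Ω := Finset.univ.image xp
  refine ⟨P0.filter fun x => aeval x g ≠ 0, ?_, ?_⟩
  · have e1 : P0.card = Q ^ n := by
      have hι : Fintype.card ι = n := by
        rw [hn, ← RingOfIntegers.rank k]
        exact (finrank_eq_card_chooseBasisIndex ℤ (𝓞 k)).symm
      rw [Finset.card_image_of_injective _ hinj, Finset.card_univ, Fintype.card_fun,
        Fintype.card_fun, Fintype.card_fin, Fintype.card_fin, hι, pow_one]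
    have e2 : (P0.filter fun x => ¬ (aeval x g ≠ 0)).card ≤ g.natDegree := by
      calc _ ≤ (g.aroots Ω).toFinset.card := by
            refine Finset.card_le_card ?_
            intro x hx
            rw [Finset.mem_filter, not_not] at hx
            rw [Multiset.mem_toFinset, mem_aroots]
            exact ⟨hg0, hx.2⟩
        _ ≤ Multiset.card (g.aroots Ω) := Multiset.toFinset_card_le _
        _ ≤ (g.map (algebraMap k Ω)).natDegree := card_roots' _
        _ = g.natDegree := by rw [natDegree_map]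
    have e3 := Finset.card_filter_add_card_filter_not (s := P0) (fun x => aeval x g ≠ 0)
    have e4 : Q ^ n ≤ (P0.filter fun x => aeval x g ≠ 0).card + g.natDegree := by omega
    have e5 : (Q : ℝ) ^ n ≤ (P0.filter fun x => aeval x g ≠ 0).card + D := by
      have : ((Q ^ n : ℕ) : ℝ) ≤ (((P0.filter fun x => aeval x g ≠ 0).card + g.natDegree : ℕ) : ℝ) :=
        Nat.cast_le.mpr e4
      rw [hD]
      push_cast at this
      exact this
    have e6 : b * Real.exp ((1 - ε) * V) ≤ (Q : ℝ) ^ n := by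
      calc b * Real.exp ((1 - ε) * V) = (E / 2) ^ n := by
            rw [div_pow, hE, ← Real.exp_nat_mul, hb]
            have e8 : (n : ℝ) * (((1 - ε) * V - C7) / n) = (1 - ε) * V + -C7 := by field_simp; ring
            rw [e8, Real.exp_add, one_div, inv_pow]
            field_simp
        _ ≤ _ := pow_le_pow_left₀ (by positivity) hQlow n
    have e7 : D + 1 ≤ b / 2 * Real.exp ((1 - ε) * V) := by
      have h3 : Real.log (2 * (D + 1) / b) ≤ (1 - ε) * V := by linarith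
      rw [Real.log_le_iff_le_exp (by positivity), div_le_iff₀ hb0] at h3
      linarith
    linarith
  · intro x hx
    rw [Finset.mem_filter] at hx
    obtain ⟨hx1, hx2⟩ := hx
    obtain ⟨t, _, rfl⟩ := Finset.mem_image.mp hx1
    have hkint : IsIntegral k (xp t) := (hxp1 t).tower_top
    have hfd : FiniteDimensional k k⟮xp t⟯ := adjoin.finiteDimensional hkint
    have hnf : NumberField k⟮xp t⟯ := NumberField.of_module_finite k _
    have hcu := fun σ : k →+* ℂ => cpar_upper hK t σ 0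
    have hcl := fun σ : k →+* ℂ => cpar_lower (le_refl 1) hK t σ
    have hval : ∀ σ : k →+* ℂ, σ (γ t : k) = σ (π : k) + (N : ℂ) ^ 2 * σ (cpar 1 K Q t 0 : 𝓞 k) := by
      intro σ
      change (σ.comp (algebraMap (𝓞 k) k)) (π + (N : 𝓞 k) ^ 2 * cpar 1 K Q t 0) = _
      rw [map_add, map_mul, map_pow, map_natCast]
      rfl
    have hlow : ∀ σ : k →+* ℂ, (Q : ℝ) ≤ ‖σ (γ t : k)‖ := by
      intro σ
      rw [hval σ]
      have e1 : ‖(N : ℂ) ^ 2 * σ (cpar 1 K Q t 0 : 𝓞 k)‖ ≤ ‖σ (π : k) + (N : ℂ) ^ 2 * σ (cpar 1 K Q t 0 : 𝓞 k)‖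
          + ‖σ (π : k)‖ := by
        have := norm_sub_le (σ (π : k) + (N : ℂ) ^ 2 * σ (cpar 1 K Q t 0 : 𝓞 k)) (σ (π : k))
        rwa [add_sub_cancel_left] at this
      rw [norm_mul, norm_pow, Complex.norm_natCast] at e1
      have e2 : (Q : ℝ) ≤ ‖σ (cpar 1 K Q t 0 : 𝓞 k)‖ := hcl σ
      have e3 := hπB' σ
      change ‖σ (π : k)‖ ≤ B at e3
      nlinarith
    have hupp : ∀ σ : k →+* ℂ, ‖σ (γ t : k)‖ ≤ B * Q := by
      intro σ
      rw [hval σ]
      refine (norm_add_le _ _).trans ?_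
      rw [norm_mul, norm_pow, Complex.norm_natCast]
      have e3 := hπB σ
      change ‖σ (π : k)‖ ≤ _ at e3
      have e4 : (N : ℝ) ^ 2 * ‖σ (cpar 1 K Q t 0 : 𝓞 k)‖ ≤ (N : ℝ) ^ 2 * ((2 * K + 1) * Q) :=
        mul_le_mul_of_nonneg_left (hcu σ) (by positivity)
      have e5 : ∑ σ : k →+* ℂ, ‖σ (π : 𝓞 k)‖ ≤ (∑ σ : k →+* ℂ, ‖σ (π : 𝓞 k)‖) * Q :=
        le_mul_of_one_le_right hsum0 hQr
      rw [hB]
      calc _ ≤ (∑ σ : k →+* ℂ, ‖σ (π : 𝓞 k)‖) * Q + (N : ℝ) ^ 2 * ((2 * K + 1) * Q) := by linarith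
        _ = _ := by ring
    obtain ⟨a1, a2, a3, a4⟩ := hC (xp t) u (γ t) (hxp1 t) (hu10 m) (hxp2 t) hx2
      (fun w hw => hu1S w hw m) hnf Q B hQr hB1 hlow hupp
    have hsumeq : ∑ σ : k →+* ℂ, Real.log (max ‖σ (u : k)‖ Q) = ∑ σ, Real.log (max (a σ ^ m) Q) :=
      Finset.sum_congr rfl fun σ _ => by rw [hau σ]
    rw [hsumeq] at a2 a3
    have hne' : aeval (AdjoinSimple.gen k (xp t)) g ≠ 0 := by
      intro h0
      apply hx2
      have := congrArg (algebraMap k⟮xp t⟯ Ω) h0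
      rwa [map_zero, ← aeval_algebraMap_apply, AdjoinSimple.algebraMap_gen] at this
    refine ⟨hnf, ?_, ?_⟩
    · apply Ntv.of_ineq (by omega) a1 hne'
      refine lt_of_lt_of_le ?_ a4
      set H := Height.logHeight (aff (AdjoinSimple.gen k (xp t))) with hH
      have f1 : V - C9 < H := by
        rw [hC9]; linarith
      have f2 : (1 - ε) * (V - C9) < (1 - ε) * H := mul_lt_mul_of_pos_left f1 h1ε
      have f3 : Real.log (B * Q) = Real.log B + Real.log Q := Real.log_mul (by linarith) (by linarith)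
      rw [f3]
      push_cast
      have f4 : C7 = (1 - ε) * C9 + n * Real.log B + C + 2 * |c0| := hC7
      nlinarith
    · linarith

end

end Pool.Agent.Helper52.Vojta
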